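import Pool.Agent.MP_a9d3bd_g.ADefs

namespace Pool.Agent.MP_a9d3bd_g

open Polynomial

theorem GI2_min {R S : Type} [CommRing R] [IsDomain R] [IsIntegrallyClosed R] [CommRing S]
    [IsDomain S] (τ : R →+* S) (hτ : Function.Injective τ) {F G : R[X]} (hm : F.Monic)
    (h : Irreducible F) {η : S} (h0 : eval₂ τ η F = 0) (hG : eval₂ τ η G = 0) : F ∣ G := by
  let := τ.toAlgebra
  have : FaithfulSMul R S := (faithfulSMul_iff_algebraMap_injective R S).2 hτ
  have hi : IsIntegral R η := ⟨F, hm, h0⟩
  exact ((minpoly.irreducible hi).associated_of_dvd h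
    (minpoly.isIntegrallyClosed_dvd hi h0)).symm.dvd.trans (minpoly.isIntegrallyClosed_dvd hi hG)

theorem GI2_lift {A B : Type} [Semiring A] [Semiring B] (f : A →+ B) :
    ∃ g : A[X] →+ B[X], (∀ p n, (g p).coeff n = f (p.coeff n)) ∧
      ∀ n a, g (monomial n a) = monomial n (f a) := by
  have k : ∀ (p : A[X]) n, (p.sum fun i a => monomial i (f a)).coeff n = f (p.coeff n) := by
    intro p n
    rw [coeff_sum, sum_def, Finset.sum_eq_single n]
    · simp
    · exact fun i _ hi => by simp [coeff_monomial, hi]
    · exact fun hn => by simp [notMem_support_iff.1 hn]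
  refine ⟨⟨⟨fun p => p.sum fun i a => monomial i (f a), by simp⟩, fun p q => ?_⟩, k, fun n a => ?_⟩
  · ext n
    simp only [k, coeff_add, map_add]
  · ext m
    refine (k _ m).trans ?_
    rw [coeff_monomial, coeff_monomial]
    split_ifs <;> simp

/-- Expansion of polynomials at `x`. -/
noncomputable def GI2_tau {k : Type} [Field k] (x : k) : k[X] →+* PowerSeries k :=
  eval₂RingHom PowerSeries.C (PowerSeries.C x + PowerSeries.X)

theorem GI2_inj {k : Type} [Field k] (x : k) : Function.Injective (GI2_tau x) := by
  have e : GI2_tau x = (coeToPowerSeries.ringHom (R := k)).comp (taylorAlgHom x).toRingHom :=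
    Polynomial.ringHom_ext (fun a => by simp [GI2_tau]) (by simp [GI2_tau, add_comm])
  rw [e]
  exact (Polynomial.coe_injective k).comp (taylor_injective x)

theorem GI2_const {k : Type} [Field k] (x y : k) (g : k[X][X]) :
    PowerSeries.constantCoeff ((g.map (GI2_tau x)).eval (PowerSeries.C y)) = g.evalEval x y := by
  have e : PowerSeries.constantCoeff.comp (eval₂RingHom (GI2_tau x) (PowerSeries.C y)) =
      evalEvalRingHom x y :=
    Polynomial.ringHom_ext' (Polynomial.ringHom_ext (fun a => by simp [GI2_tau])
      (by simp [GI2_tau])) (by simp)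
  rw [eval_map]
  exact RingHom.congr_fun e g

theorem GI2_monic {E W : Type} [Field E] [Field W] [Algebra E W] {F : E[X][X]}
    (hm : F.Monic) (h : Irreducible F) {x y : E} (h0 : F.evalEval x y = 0)
    (h1 : (derivative F).evalEval x y ≠ 0) :
    Irreducible (F.map (mapRingHom (algebraMap E W))) := by
  obtain ⟨η, h2, -⟩ := HenselianRing.is_henselian
    (I := Ideal.span {(PowerSeries.X : PowerSeries E)}) (F.map (GI2_tau x)) (hm.map _)
    (PowerSeries.C y) (by
      rw [Ideal.mem_span_singleton, PowerSeries.X_dvd_iff, GI2_const, h0]) (by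
      refine IsUnit.map _ ?_
      rw [PowerSeries.isUnit_iff_constantCoeff, derivative_map, GI2_const]
      exact h1.isUnit)
  have h3 : eval₂ (GI2_tau x) η F = 0 := by rw [← eval_map]; exact h2
  obtain ⟨l, hl⟩ := (Algebra.linearMap E W).exists_leftInverse_of_injective
    (LinearMap.ker_eq_bot.2 (algebraMap E W).injective)
  have l1 : l 1 = 1 := by simpa using LinearMap.congr_fun hl 1
  obtain ⟨g1, a1, a2⟩ := GI2_lift l.toAddMonoidHom
  obtain ⟨g2, b1, b2⟩ := GI2_lift g1
  obtain ⟨B, hB⟩ : ∃ B : W[X][X] →+* PowerSeries W, B = eval₂RingHom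
    (GI2_tau (algebraMap E W x)) (PowerSeries.map (algebraMap E W) η) := ⟨_, rfl⟩
  have c1 : B.comp (mapRingHom (mapRingHom (algebraMap E W))) =
      (PowerSeries.map (algebraMap E W)).comp (eval₂RingHom (GI2_tau x) η) :=
    Polynomial.ringHom_ext' (Polynomial.ringHom_ext (fun a => by simp [GI2_tau, hB])
      (by simp [GI2_tau, hB])) (by simp [hB])
  have c2 : ∀ (f : W[X][X]) n, PowerSeries.coeff n (eval₂ (GI2_tau x) η (g2 f)) =
      l (PowerSeries.coeff n (B f)) := by
    intro f n
    induction f using Polynomial.induction_on' with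
    | add p q hp hq => simp only [map_add, eval₂_add, hp, hq]
    | monomial i p =>
      induction p using Polynomial.induction_on' with
      | add p q hp hq => simp only [map_add, eval₂_add, hp, hq]
      | monomial j a =>
        have e : B (monomial i (monomial j a)) = PowerSeries.C a * PowerSeries.map (algebraMap E W)
            ((PowerSeries.C x + PowerSeries.X) ^ j * η ^ i) := by
          simp [hB, GI2_tau, mul_assoc]
        rw [e, b2, a2, PowerSeries.coeff_C_mul, PowerSeries.coeff_map, mul_comm a,
          ← Algebra.smul_def, map_smul, smul_eq_mul, mul_comm, ← PowerSeries.coeff_C_mul]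
        simp [GI2_tau, mul_assoc]
  have key : ∀ f : W[X][X], f.Monic → B f = 0 → F.natDegree ≤ f.natDegree := fun f hf h4 => by
    have h5 : F ∣ g2 f := GI2_min _ (GI2_inj x) hm h h3 (by
      ext n
      rw [c2, h4]
      simp)
    refine (natDegree_le_of_dvd h5 fun h6 => ?_).trans
      (natDegree_le_iff_coeff_eq_zero.2 fun n hn => ?_)
    · have h7 := a1 1 0
      rw [← hf.coeff_natDegree, ← b1, h6, hf.coeff_natDegree] at h7
      simp [l1] at h7
    · rw [b1, coeff_eq_zero_of_natDegree_lt hn, map_zero]
  have d := hm.natDegree_map (mapRingHom (algebraMap E W))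
  refine (hm.map _).irreducible_iff_natDegree.2 ⟨fun e => ?_, fun f g hf hg e => ?_⟩
  · rw [e, natDegree_one] at d
    exact h.ne_one (hm.natDegree_eq_zero.1 d.symm)
  · have h4 : B f * B g = 0 := by
      rw [← map_mul, e]
      refine (RingHom.congr_fun c1 F).trans ?_
      rw [RingHom.comp_apply, coe_eval₂RingHom, h3, map_zero]
    rw [← e, hf.natDegree_mul hg] at d
    rcases mul_eq_zero.1 h4 with h5 | h5
    · have := key f hf h5
      omega
    · have := key g hg h5
      omega

/-- GI2 (file AGI2.lean): an irreducible curve with a simple rational point is geometrically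
irreducible. -/
theorem GI2 {E W : Type} [Field E] [Field W] [Algebra E W] {F : E[X][X]}
    (hm : IsUnit F.leadingCoeff) (h : Irreducible F) {x y : E} (h0 : F.evalEval x y = 0)
    (h1 : (derivative F).evalEval x y ≠ 0) :
    Irreducible (F.map (mapRingHom (algebraMap E W))) := by
  obtain ⟨c, hc⟩ := hm.exists_left_inv
  have u : IsUnit c := IsUnit.of_mul_eq_one _ hc
  have k := GI2_monic (W := W) (monic_C_mul_of_mul_leadingCoeff_eq_one hc)
    ((irreducible_isUnit_mul (u.map C)).2 h) (x := x) (y := y) (by simp [h0]) (by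
      rw [derivative_C_mul, evalEval_mul, evalEval_C]
      exact mul_ne_zero (u.map (evalRingHom x)).ne_zero h1)
  rwa [Polynomial.map_mul, map_C, irreducible_isUnit_mul ((u.map _).map C)] at k

end Pool.Agent.MP_a9d3bd_g
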