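import Pool.Agent.MP_a9d3bd_g.AGI1
import Pool.Agent.MP_a9d3bd_g.AGI2

namespace Pool.Agent.MP_a9d3bd_g

open Polynomial

theorem BL_ext {K L : Type} [Field K] [IsAlgClosed K] [Field L] (k : K →+* L) {M : ℕ}
    {P : (MvPolynomial (Fin M) K)[X]} (h : Irreducible P) :
    Irreducible (P.map (MvPolynomial.map k)) := by
  let _ := k.toAlgebra
  obtain ⟨P0, rfl⟩ := (MvPolynomial.optionEquivLeft K (Fin M)).surjective P
  have h0 : Irreducible P0 := (MulEquiv.irreducible_iff _).1 h
  have h1 : Irreducible (MvPolynomial.map k P0) := GI1 (W := L) h0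
  have h2 := (MulEquiv.irreducible_iff (MvPolynomial.optionEquivLeft L (Fin M))).2 h1
  have e : (MvPolynomial.optionEquivLeft L (Fin M)).toRingEquiv.toRingHom.comp
      (MvPolynomial.map k) = (mapRingHom (MvPolynomial.map k)).comp
        (MvPolynomial.optionEquivLeft K (Fin M)).toRingEquiv.toRingHom := by
    refine MvPolynomial.ringHom_ext (fun r => ?_) (fun i => ?_)
    · simp
    · cases i <;> simp
  have e2 : MvPolynomial.optionEquivLeft L (Fin M) (MvPolynomial.map k P0) =
      (MvPolynomial.optionEquivLeft K (Fin M) P0).map (MvPolynomial.map k) :=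
    RingHom.congr_fun e P0
  rw [← e2]
  exact h2

theorem BL_line {K L : Type} [Field K] [IsAlgClosed K] [Field L] (k : K →+* L) {M : ℕ}
    {P : (MvPolynomial (Fin M) K)[X]} (hm : P.Monic) (h : Irreducible P) (a : Fin M → L) {t : L}
    (ht : t ≠ 0) :
    Irreducible (P.map (MvPolynomial.eval₂Hom ((MvPolynomial.C : L →+* _).comp k)
      fun i => (MvPolynomial.C (a i) + MvPolynomial.C t * MvPolynomial.X i :
        MvPolynomial (Fin M) L))) := by
  refine Monic.irreducible_of_irreducible_map (φ := MvPolynomial.eval₂Hom MvPolynomial.C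
    fun i => (MvPolynomial.C t⁻¹ * (MvPolynomial.X i - MvPolynomial.C (a i)) :
      MvPolynomial (Fin M) L)) _ (hm.map _) ?_
  rw [Polynomial.map_map]
  refine (congrArg (fun f => Irreducible (P.map f)) ?_).mpr (BL_ext k h)
  refine MvPolynomial.ringHom_ext (fun r => by simp) (fun i => ?_)
  simp only [RingHom.comp_apply, MvPolynomial.eval₂Hom_X', map_add, map_mul,
    MvPolynomial.eval₂Hom_C, MvPolynomial.map_X]
  rw [← mul_assoc, ← MvPolynomial.C_mul, mul_inv_cancel₀ ht, MvPolynomial.C_1]
  ring

theorem BL_frac {K E : Type} [Field K] [IsAlgClosed K] [Field E] (k : K →+* E) {M : ℕ}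
    {P : (MvPolynomial (Fin M) K)[X]} (hm : P.Monic) (h : Irreducible P) (u : Fin M → E)
    (E1 : Type) [Field E1] [Algebra (MvPolynomial (Fin M) E) E1]
    [IsFractionRing (MvPolynomial (Fin M) E) E1] :
    Irreducible (P.map (MvPolynomial.eval₂Hom ((C : E1 →+* E1[X]).comp
      (((algebraMap (MvPolynomial (Fin M) E) E1).comp MvPolynomial.C).comp k))
      fun i => C (algebraMap (MvPolynomial (Fin M) E) E1 (MvPolynomial.C (u i))) +
        X * C (algebraMap (MvPolynomial (Fin M) E) E1 (MvPolynomial.X i)))) := by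
  let L := FractionRing E[X]
  let j : E →+* L := (algebraMap E[X] L).comp C
  let t : L := algebraMap E[X] L X
  have ht : t ≠ 0 := (map_ne_zero_iff _ (IsFractionRing.injective E[X] L)).2 X_ne_zero
  let N := FractionRing (MvPolynomial (Fin M) L)
  let n : MvPolynomial (Fin M) L →+* N := algebraMap _ _
  have hg : Function.Injective (n.comp (MvPolynomial.map j)) :=
    (IsFractionRing.injective (MvPolynomial (Fin M) L) N).comp
      (MvPolynomial.map_injective j j.injective)
  let ψ0 : E1 →+* N := IsFractionRing.lift hg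
  have hψ : ∀ b, ψ0 (algebraMap (MvPolynomial (Fin M) E) E1 b) = n (MvPolynomial.map j b) :=
    fun b => IsFractionRing.lift_algebraMap hg b
  refine Monic.irreducible_of_irreducible_map (φ := eval₂RingHom ψ0 (n (MvPolynomial.C t))) _
    (hm.map _) ?_
  have h1 := (Monic.irreducible_iff_irreducible_map_fraction_map (K := N) (hm.map _)).1
    (BL_line (j.comp k) hm h (fun i => j (u i)) ht)
  rw [Polynomial.map_map] at h1 ⊢
  refine (congrArg (fun f => Irreducible (P.map f)) ?_).mpr h1
  refine MvPolynomial.ringHom_ext (fun r => ?_) (fun i => ?_)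
  · simp [hψ, n]
  · simp only [RingHom.comp_apply, MvPolynomial.eval₂Hom_X', map_add, map_mul, coe_eval₂RingHom,
      eval₂_C, eval₂_X, hψ, MvPolynomial.map_C, MvPolynomial.map_X, n]

theorem BL_core {K E W : Type} [Field K] [IsAlgClosed K] [Field E] [IsAlgClosed E] [Field W]
    [Algebra E W] (k : K →+* E) {M : ℕ} {P : (MvPolynomial (Fin M) K)[X]} (hm : P.Monic)
    (h : Irreducible P) (hs : derivative P ≠ 0) {u : Fin M → E}
    (hu : Function.Injective (MvPolynomial.eval₂Hom k u)) {v : Fin M → W}
    (hv : AlgebraicIndependent E v) :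
    Irreducible (P.map (MvPolynomial.eval₂Hom ((C : W →+* W[X]).comp ((algebraMap E W).comp k))
      fun i => C (algebraMap E W (u i)) + X * C (v i))) := by
  have hsep : (P.map (MvPolynomial.eval₂Hom k u)).Separable := by
    let F := FractionRing (MvPolynomial (Fin M) K)
    have h1 := (Monic.irreducible_iff_irreducible_map_fraction_map (K := F) hm).1 h
    have h2 : (P.map (algebraMap _ F)).Separable := by
      rw [separable_iff_derivative_ne_zero h1, derivative_map]
      exact (Polynomial.map_ne_zero_iff (IsFractionRing.injective _ F)).2 hs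
    have h3 := h2.map (f := IsFractionRing.lift (K := F) hu)
    rw [Polynomial.map_map] at h3
    refine (congrArg (fun f => (P.map f).Separable) ?_).mpr h3
    refine RingHom.ext fun b => ?_
    rw [RingHom.comp_apply, IsFractionRing.lift_algebraMap]
  have hdeg : (P.map (MvPolynomial.eval₂Hom k u)).degree ≠ 0 := by
    rw [hm.degree_map]
    intro h0
    apply hs
    rw [eq_C_of_degree_eq_zero h0, derivative_C]
  obtain ⟨y, hy⟩ := IsAlgClosed.exists_root _ hdeg
  have hy1 : (derivative (P.map (MvPolynomial.eval₂Hom k u))).eval y ≠ 0 :=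
    hsep.eval₂_derivative_ne_zero (RingHom.id E) hy
  let E1 := FractionRing (MvPolynomial (Fin M) E)
  let b : MvPolynomial (Fin M) E →+* E1 := algebraMap _ _
  have hv' : Function.Injective (MvPolynomial.aeval (R := E) v).toRingHom := hv
  let ι : E1 →+* W := IsFractionRing.lift hv'
  have hι : ∀ c, ι (b c) = MvPolynomial.aeval v c := fun c => IsFractionRing.lift_algebraMap hv' c
  let _ := ι.toAlgebra
  have hirr := BL_frac k hm h u E1
  set φ := MvPolynomial.eval₂Hom ((C : E1 →+* E1[X]).comp
      (((algebraMap (MvPolynomial (Fin M) E) E1).comp MvPolynomial.C).comp k))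
      fun i => C (algebraMap (MvPolynomial (Fin M) E) E1 (MvPolynomial.C (u i))) +
        X * C (algebraMap (MvPolynomial (Fin M) E) E1 (MvPolynomial.X i)) with hφ
  have e0 : (evalRingHom 0).comp φ = (b.comp MvPolynomial.C).comp (MvPolynomial.eval₂Hom k u) := by
    refine MvPolynomial.ringHom_ext (fun r => ?_) (fun i => ?_) <;> simp [hφ, b]
  have ev : ∀ Q : (MvPolynomial (Fin M) K)[X], (Q.map φ).evalEval 0 (b (MvPolynomial.C y)) =
      (b.comp MvPolynomial.C) ((Q.map (MvPolynomial.eval₂Hom k u)).eval y) := by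
    intro Q
    rw [← map_evalRingHom_eval, Polynomial.map_map, e0, ← Polynomial.map_map, eval_map]
    exact eval₂_hom (b.comp MvPolynomial.C) y
  have h2 := GI2 (W := W) (by rw [(hm.map φ).leadingCoeff]; exact isUnit_one) hirr (x := 0)
    (y := b (MvPolynomial.C y)) (by rw [ev, hy.eq_zero, map_zero]) (by
      rw [derivative_map, ev, ← derivative_map]
      exact (_root_.map_ne_zero _).2 hy1)
  rw [Polynomial.map_map] at h2
  refine (congrArg (fun f => Irreducible (P.map f)) ?_).mpr h2
  have hι' : ∀ c, algebraMap E1 W (algebraMap (MvPolynomial (Fin M) E) E1 c) =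
      MvPolynomial.aeval v c := hι
  refine MvPolynomial.ringHom_ext (fun r => ?_) (fun i => ?_) <;> simp [hφ, hι']

/-- A3 (file ABL.lean): the generic line. -/
theorem BL {K W : Type} [Field K] [IsAlgClosed K] [Field W] [Algebra K W] {M : ℕ}
    {P : (MvPolynomial (Fin M) K)[X]} (hm : P.Monic) (h : Irreducible P) (hs : derivative P ≠ 0)
    {u v : Fin M → W} (huv : AlgebraicIndependent K (Sum.elim u v)) :
    Irreducible (P.map (MvPolynomial.aeval (fun i => (C (u i) + X * C (v i) : W[X]))).toRingHom) := by
  let Ω := AlgebraicClosure W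
  let a : W →ₐ[K] Ω := IsScalarTower.toAlgHom K W Ω
  have h1 : AlgebraicIndependent K (Sum.elim (a ∘ u) (a ∘ v)) := by
    have h0 := huv.map' (f := a) a.toRingHom.injective
    rwa [Sum.comp_elim] at h0
  have h1' : AlgebraicIndependent K (Sum.elim (a ∘ v) (a ∘ u)) := by
    have h0 := h1.comp Sum.swap Sum.swap_leftInverse.injective
    have e : Sum.elim (a ∘ u) (a ∘ v) ∘ Sum.swap = Sum.elim (a ∘ v) (a ∘ u) := by
      funext i
      cases i <;> rfl
    rwa [e] at h0
  obtain ⟨hu, hv⟩ := AlgebraicIndependent.sumElim_iff.1 h1'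
  let F0 := IntermediateField.adjoin K (Set.range (a ∘ u))
  have hv0 : AlgebraicIndependent F0 (a ∘ v) :=
    IntermediateField.algebraicIndependent_adjoin_iff.2 hv
  let E := algebraicClosure F0 Ω
  have : IsAlgClosed E := IsAlgClosure.isAlgClosed F0
  let k : K →+* E := (algebraMap F0 E).comp (algebraMap K F0)
  let uE : Fin M → E := fun i =>
    algebraMap F0 E ⟨a (u i), IntermediateField.subset_adjoin _ _ ⟨i, rfl⟩⟩
  have hk : ∀ r, algebraMap E Ω (k r) = algebraMap K Ω r := fun _ => rfl
  have huE : ∀ i, algebraMap E Ω (uE i) = a (u i) := fun _ => rfl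
  have hinj : Function.Injective (MvPolynomial.eval₂Hom k uE) := by
    have e : (algebraMap E Ω).comp (MvPolynomial.eval₂Hom k uE) =
        (MvPolynomial.aeval (R := K) (a ∘ u)).toRingHom := by
      refine MvPolynomial.ringHom_ext (fun r => ?_) (fun i => ?_)
      · simp [hk]
      · simp [huE]
    have h2 : Function.Injective ((algebraMap E Ω).comp (MvPolynomial.eval₂Hom k uE)) := by
      rw [e]
      exact hu
    exact Function.Injective.of_comp (f := algebraMap E Ω) h2
  have h3 := BL_core k hm h hs hinj (hv0.algebraicClosure)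
  refine Monic.irreducible_of_irreducible_map (φ := mapRingHom a.toRingHom) _ (hm.map _) ?_
  rw [Polynomial.map_map]
  refine (congrArg (fun f => Irreducible (P.map f)) ?_).mpr h3
  refine MvPolynomial.ringHom_ext (fun r => ?_) (fun i => ?_)
  · simp [hk]
  · simp [huE]

end Pool.Agent.MP_a9d3bd_g
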