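import Pool.Agent.MP_a9d3bd_g.UDefs

namespace Pool.Agent.MP_a9d3bd_g

open Polynomial Finset

namespace AS1

theorem ext_hom {L Q W : Type} [CommRing L] [CommRing Q] [Field W] [IsAlgClosed W] [Algebra L Q]
    [Algebra.IsIntegral L Q] (ψ : L →+* W) (h : RingHom.ker (algebraMap L Q) ≤ RingHom.ker ψ) :
    ∃ χ : Q →+* W, χ.comp (algebraMap L Q) = ψ := by
  have : (RingHom.ker ψ).IsPrime := RingHom.ker_isPrime ψ
  obtain ⟨P, -, hP, hc⟩ := Ideal.exists_ideal_over_prime_of_isIntegral (RingHom.ker ψ)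
    (⊥ : Ideal Q) (by rwa [← RingHom.ker_eq_comap_bot])
  let ψ' : (L ⧸ P.comap (algebraMap L Q)) →+* W :=
    Ideal.Quotient.lift _ ψ fun a ha => by rw [hc] at ha; exact ha
  have hi : Function.Injective ψ' := by
    rw [injective_iff_map_eq_zero]
    intro a ha
    obtain ⟨a, rfl⟩ := Ideal.Quotient.mk_surjective a
    rw [Ideal.Quotient.eq_zero_iff_mem, hc]
    exact ha
  let := ψ'.toAlgebra
  have : Module.IsTorsionFree (L ⧸ P.comap (algebraMap L Q)) W :=
    Module.isTorsionFree_iff_algebraMap_injective.2 hi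
  have : Module.IsTorsionFree (L ⧸ P.comap (algebraMap L Q)) (Q ⧸ P) :=
    Module.isTorsionFree_iff_algebraMap_injective.2 Ideal.algebraMap_quotient_injective
  let χ : (Q ⧸ P) →ₐ[L ⧸ P.comap (algebraMap L Q)] W := IsAlgClosed.lift
  refine ⟨χ.toRingHom.comp (Ideal.Quotient.mk P), RingHom.ext fun a => ?_⟩
  exact χ.commutes (Ideal.Quotient.mk _ a)

theorem swap_coeff {S : Type} [CommRing S] (R : S[X][X]) (k l : ℕ) :
    ((Bivariate.swap R).coeff l).coeff k = (R.coeff k).coeff l := by
  induction R using Polynomial.induction_on' with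
  | add p q hp hq => simp only [map_add, coeff_add, hp, hq]
  | monomial n f =>
    induction f using Polynomial.induction_on' with
    | add p q hp hq => simp only [map_add, coeff_add, hp, hq]
    | monomial m r =>
      rw [Bivariate.swap_monomial_monomial]
      simp only [coeff_monomial]
      split_ifs <;> simp [coeff_monomial, *]

theorem swap_deg {S : Type} [CommRing S] (R : S[X][X]) (E : ℕ) :
    (Bivariate.swap R).natDegree ≤ E ↔ ∀ k, (R.coeff k).natDegree ≤ E := by
  simp only [natDegree_le_iff_coeff_eq_zero]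
  constructor
  · intro h k l hl
    rw [← swap_coeff, h l hl, coeff_zero]
  · intro h l hl
    ext k
    rw [swap_coeff, h k l hl, coeff_zero]

theorem deg_of_dvd {W : Type} [Field W] {A R : W[X][X]} {E : ℕ} (h : A ∣ R) (h0 : R ≠ 0)
    (hR : ∀ k, (R.coeff k).natDegree ≤ E) : ∀ k, (A.coeff k).natDegree ≤ E := by
  rw [← swap_deg] at hR ⊢
  exact (natDegree_le_of_dvd (map_dvd Bivariate.swap h)
    ((map_ne_zero_iff _ Bivariate.swap.injective).2 h0)).trans hR

/-- the monic polynomial with given coefficients -/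
noncomputable def gen {S : Type} [CommRing S] (n E : ℕ) (c : Fin n × Fin (E + 1) → S) :
    S[X][X] :=
  X ^ n + ∑ k : Fin n, monomial (k : ℕ) (∑ l : Fin (E + 1), monomial (l : ℕ) (c (k, l)))

theorem gen_lt {S : Type} [CommRing S] (n E : ℕ) (c : Fin n × Fin (E + 1) → S) :
    (∑ k : Fin n, monomial (k : ℕ) (∑ l : Fin (E + 1), monomial (l : ℕ) (c (k, l))) :
      S[X][X]).degree < n := by
  simp only [← C_mul_X_pow_eq_monomial (a := ∑ l : Fin (E + 1), _)]
  exact degree_sum_fin_lt _

theorem gen_monic {S : Type} [CommRing S] (n E : ℕ) (c : Fin n × Fin (E + 1) → S) :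
    (gen n E c).Monic := monic_X_pow_add (gen_lt n E c)

theorem gen_natDegree {S : Type} [CommRing S] [Nontrivial S] (n E : ℕ)
    (c : Fin n × Fin (E + 1) → S) : (gen n E c).natDegree = n := by
  unfold gen
  rw [natDegree_add_eq_left_of_degree_lt (by rw [degree_X_pow]; exact gen_lt n E c),
    natDegree_X_pow]

theorem gen_coeff1 {S : Type} [CommRing S] (n E : ℕ) (c : Fin n × Fin (E + 1) → S) (k : Fin n) :
    (gen n E c).coeff k = ∑ l : Fin (E + 1), monomial (l : ℕ) (c (k, l)) := by
  unfold gen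
  rw [coeff_add, coeff_X_pow, if_neg k.2.ne, zero_add, finsetSum_coeff, sum_eq_single k]
  · rw [coeff_monomial, if_pos rfl]
  · intro b _ hb
    rw [coeff_monomial, if_neg fun e => hb (Fin.ext e)]
  · simp

theorem gen_coeff {S : Type} [CommRing S] (n E : ℕ) (c : Fin n × Fin (E + 1) → S)
    (z : Fin n × Fin (E + 1)) : ((gen n E c).coeff z.1).coeff z.2 = c z := by
  rw [gen_coeff1, finsetSum_coeff, sum_eq_single z.2]
  · rw [coeff_monomial, if_pos rfl]
  · intro b _ hb
    rw [coeff_monomial, if_neg fun e => hb (Fin.ext e)]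
  · simp

theorem gen_map {S S' : Type} [CommRing S] [CommRing S'] (f : S →+* S') (n E : ℕ)
    (c : Fin n × Fin (E + 1) → S) :
    (gen n E c).map (mapRingHom f) = gen n E fun z => f (c z) := by
  unfold gen
  simp [Polynomial.map_sum, map_sum]

theorem gen_eq {S : Type} [CommRing S] {n E : ℕ} {R : S[X][X]} (hm : R.Monic)
    (hn : R.natDegree = n) (hE : ∀ k, (R.coeff k).natDegree ≤ E) :
    gen n E (fun z => (R.coeff z.1).coeff z.2) = R := by
  unfold gen
  conv_rhs => rw [hm.as_sum, hn]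
  congr 1
  rw [Finset.sum_range]
  refine sum_congr rfl fun k _ => ?_
  rw [C_mul_X_pow_eq_monomial]
  congr 1
  conv_rhs => rw [as_sum_range' (R.coeff k) (E + 1) (Nat.lt_succ_of_le (hE k)), Finset.sum_range]

attribute [local instance] Polynomial.algebra

theorem int_of_dvd {L Q : Type} [CommRing L] [CommRing Q] [Algebra L Q] (R : L[X][X])
    (A : Q[X][X]) (hR : R.Monic) (hA : A.Monic) (h : A ∣ R.map (mapRingHom (algebraMap L Q)))
    (k l : ℕ) : IsIntegral L ((A.coeff k).coeff l) :=
  (Polynomial.isIntegral_coeff_of_dvd R A hR hA h k).coeff l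

/-- one splitting type -/
theorem split (K : Type) [Field K] (g E a b : ℕ) :
    ∃ I : Ideal (MvPolynomial (Fin g × Fin (E + 1)) K),
      ∀ (W : Type) [Field W] [IsAlgClosed W] [Algebra K W] (R : W[X][X]), R.Monic →
        R.natDegree = g → (∀ k, (R.coeff k).natDegree ≤ E) →
        ((∀ f ∈ I, MvPolynomial.aeval
          (fun z : Fin g × Fin (E + 1) => (R.coeff z.1).coeff z.2) f = 0) ↔
          ∃ A B : W[X][X], A.Monic ∧ B.Monic ∧ A.natDegree = a ∧ B.natDegree = b ∧ A * B = R) := by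
  let L1 := MvPolynomial ((Fin a × Fin (E + 1)) ⊕ (Fin b × Fin (E + 1))) K
  let A0 : L1[X][X] := gen a E fun z => MvPolynomial.X (Sum.inl z)
  let B0 : L1[X][X] := gen b E fun z => MvPolynomial.X (Sum.inr z)
  let c0 : Fin g × Fin (E + 1) → L1 := fun z => ((A0 * B0).coeff z.1).coeff z.2
  let J : Ideal L1 := Ideal.span {x | ∃ k l, x = ((A0 * B0 - gen g E c0).coeff k).coeff l}
  let mk : L1 →+* L1 ⧸ J := Ideal.Quotient.mk J
  let φ : MvPolynomial (Fin g × Fin (E + 1)) K →ₐ[K] L1 ⧸ J :=
    MvPolynomial.aeval fun z => mk (c0 z)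
  have hq : A0.map (mapRingHom mk) * B0.map (mapRingHom mk) = gen g E fun z => mk (c0 z) := by
    rw [← gen_map, ← Polynomial.map_mul, ← sub_eq_zero, ← Polynomial.map_sub]
    ext k l
    rw [coeff_map, coe_mapRingHom, coeff_map, coeff_zero, coeff_zero]
    exact Ideal.Quotient.eq_zero_iff_mem.2 (Ideal.subset_span ⟨k, l, rfl⟩)
  let := φ.toRingHom.toAlgebra
  have hφ : ∀ x, algebraMap (MvPolynomial (Fin g × Fin (E + 1)) K) (L1 ⧸ J) x = φ x :=
    fun _ => rfl
  have hg : (gen g E fun z => MvPolynomial.X z).map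
      (mapRingHom (algebraMap (MvPolynomial (Fin g × Fin (E + 1)) K) (L1 ⧸ J))) =
      gen g E fun z => mk (c0 z) := by
    rw [gen_map]
    congr 1
    funext z
    rw [hφ, MvPolynomial.aeval_X]
  have hX : ∀ v, IsIntegral (MvPolynomial (Fin g × Fin (E + 1)) K) (mk (MvPolynomial.X v)) := by
    rintro (z | z)
    · have := int_of_dvd _ (A0.map (mapRingHom mk)) (gen_monic g E _) ((gen_monic a E _).map _)
        (by rw [hg, ← hq]; exact dvd_mul_right _ _) z.1 z.2
      rwa [gen_map, gen_coeff] at this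
    · have := int_of_dvd _ (B0.map (mapRingHom mk)) (gen_monic g E _) ((gen_monic b E _).map _)
        (by rw [hg, ← hq]; exact dvd_mul_left _ _) z.1 z.2
      rwa [gen_map, gen_coeff] at this
  have : Algebra.IsIntegral (MvPolynomial (Fin g × Fin (E + 1)) K) (L1 ⧸ J) := by
    refine ⟨fun x => ?_⟩
    obtain ⟨x, rfl⟩ := Ideal.Quotient.mk_surjective x
    induction x using MvPolynomial.induction_on with
    | C r =>
      have : Ideal.Quotient.mk J (MvPolynomial.C r) =
          algebraMap (MvPolynomial (Fin g × Fin (E + 1)) K) (L1 ⧸ J) (MvPolynomial.C r) := by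
        rw [hφ, MvPolynomial.aeval_C]; rfl
      rw [this]
      exact isIntegral_algebraMap
    | add p q hp hq => rw [map_add]; exact hp.add hq
    | mul_X p v hp => rw [map_mul]; exact hp.mul (hX v)
  refine ⟨RingHom.ker φ.toRingHom, fun W _ _ _ R hm hn hE => ⟨fun h => ?_, ?_⟩⟩
  · obtain ⟨χ, hχ⟩ := ext_hom (Q := L1 ⧸ J) (MvPolynomial.aeval (R := K)
      (fun z : Fin g × Fin (E + 1) => (R.coeff z.1).coeff z.2)).toRingHom fun f hf => h f hf
    refine ⟨gen a E fun z => χ (mk (MvPolynomial.X (Sum.inl z))),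
      gen b E fun z => χ (mk (MvPolynomial.X (Sum.inr z))), gen_monic _ _ _, gen_monic _ _ _,
      gen_natDegree _ _ _, gen_natDegree _ _ _, ?_⟩
    have h1 := congrArg (Polynomial.map (mapRingHom χ)) hq
    rw [Polynomial.map_mul, gen_map, gen_map, gen_map, gen_map, gen_map] at h1
    rw [h1, ← gen_eq hm hn hE]
    congr 1
    funext z
    have h2 := RingHom.congr_fun hχ (MvPolynomial.X z)
    rw [RingHom.comp_apply, hφ, MvPolynomial.aeval_X] at h2
    rw [h2]
    simp
  · rintro ⟨A, B, hA, hB, ha, hb, hAB⟩ f hf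
    have hEA := deg_of_dvd (hAB ▸ dvd_mul_right A B) hm.ne_zero hE
    have hEB := deg_of_dvd (hAB ▸ dvd_mul_left B A) hm.ne_zero hE
    let θ : L1 →ₐ[K] W := MvPolynomial.aeval
      (Sum.elim (fun z => (A.coeff z.1).coeff z.2) fun z => (B.coeff z.1).coeff z.2)
    have hA0 : A0.map (mapRingHom θ.toRingHom) = A := by
      rw [gen_map]
      refine Eq.trans ?_ (gen_eq hA ha hEA)
      congr 1
      funext z
      exact MvPolynomial.aeval_X _ _
    have hB0 : B0.map (mapRingHom θ.toRingHom) = B := by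
      rw [gen_map]
      refine Eq.trans ?_ (gen_eq hB hb hEB)
      congr 1
      funext z
      exact MvPolynomial.aeval_X _ _
    have hAB0 : (A0 * B0).map (mapRingHom θ.toRingHom) = R := by
      rw [Polynomial.map_mul, hA0, hB0, hAB]
    have hc0 : ∀ z, θ.toRingHom (c0 z) = (R.coeff z.1).coeff z.2 := by
      intro z
      rw [← hAB0, coeff_map, coe_mapRingHom, coeff_map]
    have hJ : ∀ x ∈ J, θ x = 0 := by
      intro x hx
      have : J ≤ RingHom.ker θ.toRingHom := by
        refine Ideal.span_le.2 ?_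
        rintro _ ⟨k, l, rfl⟩
        have h3 : (A0 * B0 - gen g E c0).map (mapRingHom θ.toRingHom) = 0 := by
          rw [Polynomial.map_sub, hAB0, gen_map]
          simp only [hc0]
          rw [gen_eq hm hn hE, sub_self]
        have h4 := congrArg (fun p => (p.coeff k).coeff l) h3
        simp only [coeff_map, coe_mapRingHom, coeff_zero] at h4
        exact h4
      exact this hx
    let χ : (L1 ⧸ J) →ₐ[K] W := Ideal.Quotient.liftₐ J θ hJ
    have h5 : χ.comp φ = MvPolynomial.aeval
        (fun z : Fin g × Fin (E + 1) => (R.coeff z.1).coeff z.2) := by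
      refine MvPolynomial.algHom_ext fun z => ?_
      rw [AlgHom.comp_apply, MvPolynomial.aeval_X, MvPolynomial.aeval_X]
      exact hc0 z
    have hf' : φ f = 0 := hf
    rw [← h5, AlgHom.comp_apply, hf', map_zero]

end AS1

theorem s1 : S1 := by
  classical
  intro K _ g E hg
  choose I hI using fun a => AS1.split K g E a (g - a)
  obtain ⟨F, hF⟩ := (IsNoetherian.noetherian (∏ a ∈ Ioo 0 g, I a) :
    (∏ a ∈ Ioo 0 g, I a).FG)
  refine ⟨F, fun W _ _ _ R hm hn hE => ?_⟩
  set ψ := MvPolynomial.aeval (R := K)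
    (fun z : Fin g × Fin (E + 1) => (R.coeff z.1).coeff z.2) with hψ
  have : (RingHom.ker ψ.toRingHom).IsPrime := RingHom.ker_isPrime _
  have h1 : (∀ f ∈ F, ψ f = 0) ↔ ∃ a ∈ Ioo 0 g, I a ≤ RingHom.ker ψ.toRingHom := by
    rw [← Ideal.IsPrime.prod_le inferInstance, ← hF]
    exact (Ideal.span_le (I := RingHom.ker ψ.toRingHom)).symm
  have hR1 : R ≠ 1 := by rintro rfl; rw [natDegree_one] at hn; omega
  rw [hm.irreducible_iff_natDegree, and_iff_right hR1, ← not_iff_not]
  push Not
  rw [h1]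
  constructor
  · rintro ⟨A, B, hA, hB, hAB, ha, hb⟩
    have hd := hA.natDegree_mul hB
    rw [hAB, hn] at hd
    refine ⟨A.natDegree, mem_Ioo.2 ⟨by omega, by omega⟩, fun f hf => ?_⟩
    exact (hI _ W R hm hn hE).2 ⟨A, B, hA, hB, rfl, by omega, hAB⟩ f hf
  · rintro ⟨a, ha, h⟩
    obtain ⟨A, B, hA, hB, h2, h3, hAB⟩ := (hI a W R hm hn hE).1 fun f hf => h hf
    have := mem_Ioo.1 ha
    exact ⟨A, B, hA, hB, hAB, by omega, by omega⟩

end Pool.Agent.MP_a9d3bd_g
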