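import Pool.Agent.MP_a9d3bd_g.UDefs

namespace Pool.Agent.MP_a9d3bd_g

open Polynomial Finset

namespace AS2

/-- descent of a monic relation along a field extension -/
theorem descend {E W : Type} [Field E] [Field W] [Algebra E W] (η : PowerSeries E) (f : W[X][X])
    (hf : f.Monic) (h0 : f.eval₂ (coeToPowerSeries.ringHom : W[X] →+* PowerSeries W)
      (PowerSeries.map (algebraMap E W) η) = 0) :
    ∃ c : E[X][X], c ≠ 0 ∧ c.natDegree ≤ f.natDegree ∧
      c.eval₂ (coeToPowerSeries.ringHom : E[X] →+* PowerSeries E) η = 0 := by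
  obtain ⟨π, hπ⟩ := (Algebra.linearMap E W).exists_leftInverse_of_injective
    (LinearMap.ker_eq_bot.2 (algebraMap E W).injective)
  have hπ1 : π 1 = 1 := by simpa using LinearMap.congr_fun hπ 1
  have hP : ∀ p : W[X], ∃ p' : E[X], ∀ n, p'.coeff n = π (p.coeff n) := fun p => by
    refine ⟨∑ n ∈ p.support, monomial n (π (p.coeff n)), fun n => ?_⟩
    simp only [finsetSum_coeff, coeff_monomial, Finset.sum_ite_eq']
    split_ifs with h
    · rfl
    · rw [notMem_support_iff.1 h, map_zero]
  choose P hP using hP
  refine ⟨∑ i ∈ range (f.natDegree + 1), monomial i (P (f.coeff i)), fun e => ?_, ?_, ?_⟩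
  · have h1 := congrArg (fun c : E[X][X] => (c.coeff f.natDegree).coeff 0) e
    simp only [finsetSum_coeff, coeff_monomial, Finset.sum_ite_eq', mem_range, Nat.lt_succ_self,
      if_true, hP, hf.coeff_natDegree, coeff_one_zero, hπ1, coeff_zero] at h1
    exact one_ne_zero h1
  · exact natDegree_sum_le_of_forall_le _ _ fun i hi =>
      (natDegree_monomial_le _).trans (Nat.lt_succ_iff.1 (mem_range.1 hi))
  · rw [eval₂_eq_sum_range] at h0
    rw [eval₂_finsetSum]
    ext m
    have h1 := congrArg (fun s => π (PowerSeries.coeff m s)) h0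
    simp only [map_sum, map_zero, PowerSeries.coeff_mul, ← map_pow, PowerSeries.coeff_map,
      coeToPowerSeries.ringHom_apply, coeff_coe] at h1
    simp only [eval₂_monomial, map_sum, map_zero, PowerSeries.coeff_mul,
      coeToPowerSeries.ringHom_apply, coeff_coe, hP]
    rw [← h1]
    refine sum_congr rfl fun i _ => sum_congr rfl fun z _ => ?_
    rw [mul_comm ((f.coeff i).coeff z.1), ← Algebra.smul_def, map_smul, smul_eq_mul, mul_comm]

theorem hensel {E : Type} [Field E] (Q : E[X][X]) (hQ : Q.Monic) (y : E)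
    (h0 : (Q.map (evalRingHom 0)).eval y = 0)
    (h1 : (derivative (Q.map (evalRingHom 0))).eval y ≠ 0) :
    ∃ η : PowerSeries E, Q.eval₂ (coeToPowerSeries.ringHom : E[X] →+* PowerSeries E) η = 0 := by
  have key : ∀ H : E[X][X], PowerSeries.constantCoeff
      ((H.map (coeToPowerSeries.ringHom : E[X] →+* PowerSeries E)).eval (PowerSeries.C y)) =
      (H.map (evalRingHom 0)).eval y := fun H => by
    rw [eval_map, hom_eval₂, eval_map, PowerSeries.constantCoeff_C]
    congr 1
    ext <;> simp
  obtain ⟨η, h2, -⟩ := HenselianRing.is_henselian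
    (I := Ideal.span {(PowerSeries.X : PowerSeries E)})
    (Q.map (coeToPowerSeries.ringHom : E[X] →+* PowerSeries E)) (hQ.map _) (PowerSeries.C y)
    (by rw [Ideal.mem_span_singleton, PowerSeries.X_dvd_iff, key, h0]) (by
      refine IsUnit.map _ ?_
      rw [PowerSeries.isUnit_iff_constantCoeff, derivative_map, key, ← derivative_map]
      exact Ne.isUnit h1)
  exact ⟨η, by rw [← eval_map]; exact h2⟩

variable {K : Type} [Field K] {r : ℕ}

/-- the generic line over the polynomial ring -/
noncomputable def th (a : Fin r → K) : MvPolynomial (Fin r) K →+* (MvPolynomial (Fin r) K)[X] :=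
  MvPolynomial.eval₂Hom (C.comp MvPolynomial.C) fun k =>
    C (MvPolynomial.C (a k)) + C (MvPolynomial.X k) * X

theorem inj_th (a : Fin r → K) : Function.Injective (eval₂RingHom (th a) X) := by
  let F := FractionRing (MvPolynomial (Fin r) K)[X]
  let j := algebraMap (MvPolynomial (Fin r) K)[X] F
  have hj : Function.Injective j := IsFractionRing.injective _ _
  have hX : j X ≠ 0 := fun e => X_ne_zero (hj (e.trans (map_zero j).symm))
  let ψ : (MvPolynomial (Fin r) K)[X] →+* F := eval₂RingHom
    (MvPolynomial.eval₂Hom ((j.comp C).comp MvPolynomial.C) fun k =>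
      (j (C (MvPolynomial.X k)) - j (C (MvPolynomial.C (a k)))) / j X) (j X)
  have e : ψ.comp (eval₂RingHom (th a) X) = j := by
    refine Polynomial.ringHom_ext' (MvPolynomial.ringHom_ext (fun x => ?_) fun k => ?_) ?_
    · simp [ψ, th]
    · simp [ψ, th, div_mul_cancel₀ _ hX]
    · simp [ψ]
  refine Function.Injective.of_comp (f := ψ) ?_
  rw [← RingHom.coe_comp, e]
  exact hj

theorem irr_frac {S : Type} [CommRing S] [IsDomain S] [UniqueFactorizationMonoid S] {R : S[X]}
    (hm : R.Monic) (hi : Irreducible R) :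
    Irreducible ((R.map C).map (algebraMap S[X] (FractionRing S[X]))) := by
  refine ((hm.map C).irreducible_iff_irreducible_map_fraction_map).1 ?_
  rw [← Bivariate.swap_C]
  exact ((MulEquiv.prime_iff (Bivariate.swap (R := S)).toMulEquiv).2
    (Polynomial.prime_C_iff.2 hi.prime)).irreducible

theorem low {E : Type} [Field E] [Algebra (MvPolynomial (Fin r) K) E]
    [IsFractionRing (MvPolynomial (Fin r) K) E] (a : Fin r → K)
    {R : (MvPolynomial (Fin r) K)[X]} (hm : R.Monic) (hi : Irreducible R) (η : PowerSeries E)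
    (h0 : (R.map ((mapRingHom (algebraMap _ E)).comp (th a))).eval₂
      (coeToPowerSeries.ringHom : E[X] →+* PowerSeries E) η = 0)
    (c : E[X][X]) (hc : c ≠ 0)
    (h1 : c.eval₂ (coeToPowerSeries.ringHom : E[X] →+* PowerSeries E) η = 0) :
    R.natDegree ≤ c.natDegree := by
  let F := FractionRing (MvPolynomial (Fin r) K)[X]
  let L := FractionRing (PowerSeries E)
  let j := algebraMap (MvPolynomial (Fin r) K)[X] F
  let ι : E[X] →+* L := (algebraMap (PowerSeries E) L).comp coeToPowerSeries.ringHom
  have hι : Function.Injective ι :=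
    (IsFractionRing.injective (PowerSeries E) L).comp (Polynomial.coe_injective E)
  let φ : (MvPolynomial (Fin r) K)[X] →+* E[X] :=
    (mapRingHom (algebraMap _ E)).comp (eval₂RingHom (th a) X)
  have hφ : Function.Injective (ι.comp φ) :=
    hι.comp ((map_injective _ (IsFractionRing.injective _ E)).comp (inj_th a))
  let Φ : F →+* L := IsFractionRing.lift hφ
  have hΦ : ∀ s, Φ (j s) = ι (φ s) := fun s => IsFractionRing.lift_algebraMap hφ s
  have hX : ι X ∈ Φ.fieldRange := ⟨j X, by rw [hΦ]; simp [φ]⟩
  have hX0 : ι X ≠ 0 := fun e => X_ne_zero (hι (e.trans (map_zero ι).symm))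
  have hK : ∀ x : K, ι (C (algebraMap _ E (MvPolynomial.C x : MvPolynomial (Fin r) K))) ∈
      Φ.fieldRange := fun x => ⟨j (C (MvPolynomial.C x)), by rw [hΦ]; simp [φ, th]⟩
  have hv : ∀ k, ι (C (algebraMap _ E (MvPolynomial.X k : MvPolynomial (Fin r) K))) ∈
      Φ.fieldRange := fun k => by
    have e : ι (C (algebraMap _ E (MvPolynomial.X k : MvPolynomial (Fin r) K))) =
        (Φ (j (C (MvPolynomial.X k))) -
          ι (C (algebraMap _ E (MvPolynomial.C (a k) : MvPolynomial (Fin r) K)))) / ι X := by
      rw [hΦ, eq_div_iff hX0]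
      simp [φ, th]
    rw [e]
    exact div_mem (sub_mem ⟨_, rfl⟩ (hK _)) hX
  have hS : ∀ s : MvPolynomial (Fin r) K, ι (C (algebraMap _ E s)) ∈ Φ.fieldRange := fun s => by
    induction s using MvPolynomial.induction_on with
    | C x => exact hK x
    | add p q hp hq => rw [map_add, map_add, map_add]; exact add_mem hp hq
    | mul_X p k hp => rw [map_mul, map_mul, map_mul]; exact mul_mem hp (hv k)
  have hE : ∀ e : E, ι (C e) ∈ Φ.fieldRange := fun e => by
    obtain ⟨x, y, -, rfl⟩ := IsFractionRing.div_surjective (A := MvPolynomial (Fin r) K) e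
    have := map_div₀ (ι.comp C) (algebraMap _ E x) (algebraMap _ E y)
    simp only [RingHom.comp_apply] at this
    rw [this]
    exact div_mem (hS x) (hS y)
  have hA : ∀ p : E[X], ι p ∈ Φ.fieldRange := fun p => by
    induction p using Polynomial.induction_on' with
    | add p q hp hq => rw [map_add]; exact add_mem hp hq
    | monomial n e =>
      rw [← C_mul_X_pow_eq_monomial, map_mul, map_pow]
      exact mul_mem (hE e) (pow_mem hX n)
  have ev : ∀ p : E[X][X], p.eval₂ (coeToPowerSeries.ringHom : E[X] →+* PowerSeries E) η = 0 →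
      p.eval₂ ι (algebraMap (PowerSeries E) L η) = 0 := fun p hp => by
    rw [← hom_eval₂, hp, map_zero]
  obtain ⟨c', hc1, hc2⟩ := exists_natDegree_eq_of_mem_lifts (f := Φ) (p := c.map ι)
    ((lifts_iff_coeff_lifts _).2 fun n => by rw [coeff_map]; exact hA _)
  rw [natDegree_map_eq_of_injective hι] at hc2
  have hc0 : c' ≠ 0 := by
    rintro rfl
    exact hc (map_injective ι hι (by rw [← hc1, Polynomial.map_zero, Polynomial.map_zero]))
  let _ : Algebra F L := Φ.toAlgebra
  have a1 : aeval (algebraMap (PowerSeries E) L η) c' = 0 := by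
    rw [aeval_def, eval₂_eq_eval_map]
    change (c'.map Φ).eval _ = 0
    rw [hc1, ← eval₂_eq_eval_map]
    exact ev c h1
  have a2 : aeval (algebraMap (PowerSeries E) L η) ((R.map C).map j) = 0 := by
    have h2 := ev _ h0
    rw [eval₂_map] at h2
    rw [aeval_def, eval₂_map, eval₂_map, ← h2]
    congr 1
    refine RingHom.ext fun s => ?_
    change Φ (j (C s)) = _
    rw [hΦ]
    simp [φ]
  have e := minpoly.eq_of_irreducible_of_monic (irr_frac hm hi) a2 ((hm.map C).map j)
  have h3 := natDegree_le_natDegree (minpoly.degree_le_of_ne_zero F _ hc0 a1)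
  rw [← e, (hm.map C).natDegree_map, hm.natDegree_map, hc2] at h3
  exact h3

end AS2

open AS2 in
theorem s2 : S2 := by
  intro K _ r R a y₀ hm hi h0 h1 W _ _ v hv
  let E := FractionRing (MvPolynomial (Fin r) K)
  have hinj : Function.Injective
      (MvPolynomial.aeval v : MvPolynomial (Fin r) K →ₐ[K] W).toRingHom := hv
  let _ : Algebra E W := (IsFractionRing.lift hinj).toAlgebra
  have hEW : ∀ s : MvPolynomial (Fin r) K, algebraMap E W (algebraMap _ E s) =
      MvPolynomial.aeval v s := fun s => IsFractionRing.lift_algebraMap hinj s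
  let θ : MvPolynomial (Fin r) K →+* E[X] := (mapRingHom (algebraMap _ E)).comp (th a)
  let κ : K →+* E := (algebraMap (MvPolynomial (Fin r) K) E).comp MvPolynomial.C
  have e0 : (R.map θ).map (evalRingHom 0) = (R.map (MvPolynomial.eval a)).map κ := by
    rw [Polynomial.map_map, Polynomial.map_map]
    congr 1
    refine MvPolynomial.ringHom_ext (fun x => ?_) fun k => ?_ <;> simp [θ, κ, th]
  obtain ⟨η, hη⟩ := hensel (R.map θ) (hm.map θ) (κ y₀)
    (by rw [e0, eval_map, eval₂_at_apply, h0, map_zero])
    (by rw [e0, derivative_map, eval_map, eval₂_at_apply]; exact (map_ne_zero κ).2 h1)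
  have e1 : (R.map (MvPolynomial.map (algebraMap K W))).map
      (lin (fun k => algebraMap K W (a k)) v) = (R.map θ).map (mapRingHom (algebraMap E W)) := by
    rw [Polynomial.map_map, Polynomial.map_map]
    congr 1
    refine MvPolynomial.ringHom_ext (fun x => ?_) fun k => ?_ <;> simp [θ, th, lin, hEW]
  have hQ : ((R.map θ).map (mapRingHom (algebraMap E W))).Monic := (hm.map θ).map _
  have hd : ((R.map θ).map (mapRingHom (algebraMap E W))).natDegree = R.natDegree := by
    rw [(hm.map θ).natDegree_map, hm.natDegree_map]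
  have hz : ((R.map θ).map (mapRingHom (algebraMap E W))).eval₂
      (coeToPowerSeries.ringHom : W[X] →+* PowerSeries W)
      (PowerSeries.map (algebraMap E W) η) = 0 := by
    have h2 := congrArg (PowerSeries.map (algebraMap E W)) hη
    rw [hom_eval₂, map_zero] at h2
    rw [eval₂_map, ← h2]
    congr 1
    ext <;> simp
  have key : ∀ f : W[X][X], f.Monic → f.eval₂ (coeToPowerSeries.ringHom : W[X] →+* PowerSeries W)
      (PowerSeries.map (algebraMap E W) η) = 0 → R.natDegree ≤ f.natDegree := fun f hf h => by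
    obtain ⟨c, c0, c1, c2⟩ := descend η f hf h
    exact (low a hm hi η hη c c0 c2).trans c1
  rw [e1, hQ.irreducible_iff_natDegree]
  refine ⟨fun e => ?_, fun f g hf hg e => ?_⟩
  · rw [e, natDegree_one] at hd
    exact hi.ne_one (hm.natDegree_eq_zero.1 hd.symm)
  · rw [← e, hf.natDegree_mul hg] at hd
    rw [← e, eval₂_mul, mul_eq_zero] at hz
    rcases hz with h | h
    · have := key f hf h
      omega
    · have := key g hg h
      omega

end Pool.Agent.MP_a9d3bd_g
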