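import Pool.Agent.MP_a9d3bd_g.UDefs

namespace Pool.Agent.MP_a9d3bd_g

open Polynomial Finset

namespace AS3

theorem gen {σ K B : Type} [CommRing K] [CommRing B] (P : ℕ → B → Prop)
    (mono : ∀ n m b, n ≤ m → P n b → P m b) (h0 : ∀ n, P n 0)
    (hadd : ∀ n a b, P n a → P n b → P n (a + b))
    (hmul : ∀ n m a b, P n a → P m b → P (n + m) (a * b)) (f : K →+* B) (hf : ∀ c, P 0 (f c))
    (g : σ → B) (E : ℕ) (hg : ∀ i, P E (g i)) (q : MvPolynomial σ K) :
    P (E * q.totalDegree) (MvPolynomial.eval₂ f g q) := by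
  classical
  have h1 : P 0 1 := by simpa using hf 1
  have hp : ∀ i e, P (E * e) (g i ^ e) := fun i e => by
    induction e with
    | zero => simpa using h1
    | succ e ih => rw [pow_succ, mul_add, mul_one]; exact hmul _ _ _ _ ih (hg i)
  have hq : ∀ (S : Finset σ) (e : σ → ℕ), P (E * ∑ i ∈ S, e i) (∏ i ∈ S, g i ^ e i) :=
    fun S e => by
      induction S using Finset.induction_on with
      | empty => simpa using h1
      | insert i S hi ih =>
        rw [sum_insert hi, prod_insert hi, mul_add]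
        exact hmul _ _ _ _ (hp i _) ih
  rw [MvPolynomial.eval₂_eq]
  refine sum_induction _ (P (E * q.totalDegree)) (hadd _) (h0 _) fun d hd => ?_
  refine mono _ _ _ ?_ (hmul _ _ _ _ (hf _) (hq d.support d))
  rw [zero_add]
  exact Nat.mul_le_mul_left _ (MvPolynomial.le_totalDegree hd)

/-- the generic line through `a` -/
noncomputable def Lg {K : Type} [CommRing K] {r : ℕ} (a : Fin r → K) :
    MvPolynomial (Fin r) K →+* (MvPolynomial (Fin r) K)[X] :=
  MvPolynomial.eval₂Hom (C.comp MvPolynomial.C)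
    fun k => C (MvPolynomial.C (a k)) + C (MvPolynomial.X k) * X

theorem Lg_deg {K : Type} [Field K] {r : ℕ} (a : Fin r → K) (q : MvPolynomial (Fin r) K) :
    (Lg a q).natDegree ≤ q.totalDegree ∧ ∀ l, ((Lg a q).coeff l).totalDegree ≤ q.totalDegree := by
  have key := gen (fun n (p : (MvPolynomial (Fin r) K)[X]) =>
      p.natDegree ≤ n ∧ ∀ l, (p.coeff l).totalDegree ≤ n)
    (fun n m b h hb => ⟨hb.1.trans h, fun l => (hb.2 l).trans h⟩) (fun n => by simp)
    (fun n p p' h h' => ⟨natDegree_add_le_of_degree_le h.1 h'.1, fun l => by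
      rw [coeff_add]
      exact (MvPolynomial.totalDegree_add _ _).trans (max_le (h.2 l) (h'.2 l))⟩)
    (fun n m p p' h h' => ⟨natDegree_mul_le_of_le h.1 h'.1, fun l => by
      rw [coeff_mul]
      refine (MvPolynomial.totalDegree_finsetSum_le fun x _ => ?_)
      exact (MvPolynomial.totalDegree_mul _ _).trans (add_le_add (h.2 _) (h'.2 _))⟩)
    (C.comp MvPolynomial.C) (fun c => ⟨by simp, fun l => by
      rw [RingHom.comp_apply, coeff_C]
      split_ifs <;> simp⟩)
    (fun k => C (MvPolynomial.C (a k)) + C (MvPolynomial.X k) * X) 1 (fun k => ⟨by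
      refine natDegree_add_le_of_degree_le (by simp) ?_
      exact (natDegree_C_mul_le _ _).trans natDegree_X_le, fun l => by
      rw [coeff_add, coeff_C_mul, coeff_C, coeff_X]
      refine (MvPolynomial.totalDegree_add _ _).trans (max_le ?_ ?_) <;> split_ifs <;> simp⟩) q
  rw [one_mul] at key
  exact key

theorem aeval_deg {σ K : Type} [Field K] {r : ℕ} (s : σ → MvPolynomial (Fin r) K) (E : ℕ)
    (hs : ∀ z, (s z).totalDegree ≤ E) (f : MvPolynomial σ K) :
    (MvPolynomial.aeval s f).totalDegree ≤ E * f.totalDegree :=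
  gen (fun n (p : MvPolynomial (Fin r) K) => p.totalDegree ≤ n) (fun _ _ _ h hb => hb.trans h)
    (fun n => by simp)
    (fun _ _ _ h h' => (MvPolynomial.totalDegree_add _ _).trans (max_le h h'))
    (fun _ _ _ _ h h' => (MvPolynomial.totalDegree_mul _ _).trans (add_le_add h h'))
    (algebraMap K _) (fun c => by simp) s E hs f

theorem sp_coeff {K W : Type} [Field K] [Field W] [Algebra K W] {r : ℕ} (a : Fin r → K)
    (v : Fin r → W) (q : MvPolynomial (Fin r) K) :
    lin (fun k => algebraMap K W (a k)) v (MvPolynomial.map (algebraMap K W) q) =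
      (Lg a q).map (MvPolynomial.aeval v : MvPolynomial (Fin r) K →ₐ[K] W).toRingHom := by
  have e : (lin (fun k => algebraMap K W (a k)) v).comp (MvPolynomial.map (algebraMap K W)) =
      (mapRingHom (MvPolynomial.aeval v : MvPolynomial (Fin r) K →ₐ[K] W).toRingHom).comp
        (Lg a) := by
    refine MvPolynomial.ringHom_ext (fun c => ?_) fun k => ?_ <;> simp [lin, Lg]
  exact RingHom.congr_fun e q

theorem crit {K : Type} [Field K] {r g E : ℕ} (F : Finset (MvPolynomial (Fin g × Fin (E + 1)) K))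
    (hF : ∀ (W : Type) [Field W] [IsAlgClosed W] [Algebra K W] (R : W[X][X]), R.Monic →
      R.natDegree = g → (∀ k, (R.coeff k).natDegree ≤ E) →
      (Irreducible R ↔ ∃ f ∈ F,
        MvPolynomial.aeval (fun z : Fin g × Fin (E + 1) => (R.coeff z.1).coeff z.2) f ≠ 0))
    (R : (MvPolynomial (Fin r) K)[X]) (a : Fin r → K) (hm : R.Monic) (hd : R.natDegree = g)
    (hE : ∀ k, (R.coeff k).totalDegree ≤ E) (W : Type) [Field W] [IsAlgClosed W] [Algebra K W]
    (v : Fin r → W) :
    Irreducible ((R.map (MvPolynomial.map (algebraMap K W))).map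
      (lin (fun k => algebraMap K W (a k)) v)) ↔ ∃ f ∈ F, MvPolynomial.aeval v
        (MvPolynomial.aeval (fun z : Fin g × Fin (E + 1) => (Lg a (R.coeff z.1)).coeff z.2) f)
          ≠ 0 := by
  rw [hF W _ ((hm.map _).map _) (by rw [(hm.map _).natDegree_map, hm.natDegree_map, hd])
    fun k => by
      rw [coeff_map, coeff_map, sp_coeff]
      exact natDegree_map_le.trans ((Lg_deg a _).1.trans (hE k))]
  refine exists_congr fun f => and_congr_right fun _ => ?_
  rw [← AlgHom.comp_apply, MvPolynomial.comp_aeval]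
  simp only [coeff_map, sp_coeff]
  rfl

end AS3

theorem s3 (h1 : S1) (h2 : S2) : S3 := by
  intro K _ _ r g E hg
  obtain ⟨F, hF⟩ := h1 K g E hg
  refine ⟨E * F.sup MvPolynomial.totalDegree, fun R a hm hd hE hI hS => ?_⟩
  obtain ⟨y, hy⟩ := IsAlgClosed.exists_root (R.map (MvPolynomial.eval a))
    (natDegree_pos_iff_degree_pos.1 (by rw [hm.natDegree_map, hd]; exact hg)).ne'
  have hy' : (derivative (R.map (MvPolynomial.eval a))).eval y ≠ 0 := fun e => by
    obtain ⟨u, w, huw⟩ := hS
    have := congrArg (eval y) huw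
    rw [eval_add, eval_mul, eval_mul, e, hy.eq_zero] at this
    simp at this
  let A := MvPolynomial (Fin r) K
  let W := AlgebraicClosure (FractionRing A)
  let φ : A →ₐ[K] W :=
    (IsScalarTower.toAlgHom K (FractionRing A) W).comp (IsScalarTower.toAlgHom K A (FractionRing A))
  have hφ : Function.Injective φ :=
    (algebraMap (FractionRing A) W).injective.comp (IsFractionRing.injective A (FractionRing A))
  have hv : AlgebraicIndependent K (φ ∘ MvPolynomial.X) :=
    (MvPolynomial.algebraicIndependent_X (Fin r) K).map' hφ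
  obtain ⟨f, hf, hne⟩ := (AS3.crit F hF R a hm hd hE W _).1 (h2 K r R a y hm hI hy hy' W _ hv)
  refine ⟨MvPolynomial.aeval
    (fun z : Fin g × Fin (E + 1) => (AS3.Lg a (R.coeff z.1)).coeff z.2) f,
    fun e => hne (by rw [e, map_zero]), ?_, fun v hv' => ?_⟩
  · exact (AS3.aeval_deg _ E (fun z => ((AS3.Lg_deg a _).2 _).trans (hE _)) f).trans
      (Nat.mul_le_mul_left _ (le_sup (f := MvPolynomial.totalDegree) hf))
  · have := (AS3.crit F hF R a hm hd hE K v).2 ⟨f, hf, by
      rwa [MvPolynomial.aeval_eq_eval]⟩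
    have e : MvPolynomial.map (algebraMap K K) = RingHom.id (MvPolynomial (Fin r) K) :=
      RingHom.ext fun q => MvPolynomial.map_id q
    rw [e, Polynomial.map_id] at this
    exact this

end Pool.Agent.MP_a9d3bd_g
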