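import Pool.Agent.MP_a9d3bd_g.UDefs

namespace Pool.Agent.MP_a9d3bd_g

open Finset

namespace AS4

section
variable {J B : Type} [CommRing B] (p : J → Prop) [DecidablePred p]

/-- the images of the variables -/
noncomputable def gv (B : Type) [CommRing B] (j : J) :
    MvPolynomial {j // p j} (MvPolynomial {j // ¬ p j} B) :=
  if h : p j then MvPolynomial.X ⟨j, h⟩ else MvPolynomial.C (MvPolynomial.X ⟨j, h⟩)

/-- splitting the variables -/
noncomputable def sp (B : Type) [CommRing B] :
    MvPolynomial J B →+* MvPolynomial {j // p j} (MvPolynomial {j // ¬ p j} B) :=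
  MvPolynomial.eval₂Hom (MvPolynomial.C.comp MvPolynomial.C) (gv p B)

/-- joining the variables -/
noncomputable def jn (B : Type) [CommRing B] :
    MvPolynomial {j // p j} (MvPolynomial {j // ¬ p j} B) →+* MvPolynomial J B :=
  MvPolynomial.eval₂Hom
    (MvPolynomial.rename (R := B) (Subtype.val : {j // ¬ p j} → J)).toRingHom
    fun j => MvPolynomial.X j.1

omit [DecidablePred p] in
theorem jn_C (c : MvPolynomial {j // ¬ p j} B) :
    jn p B (MvPolynomial.C c) = MvPolynomial.rename Subtype.val c := by
  simp [jn]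

omit [DecidablePred p] in
theorem jn_X (j : {j // p j}) : jn p B (MvPolynomial.X j) = MvPolynomial.X j.1 := by
  simp [jn]

theorem sp_C (b : B) : sp p B (MvPolynomial.C b) = MvPolynomial.C (MvPolynomial.C b) := by
  simp [sp]

theorem sp_X (j : J) : sp p B (MvPolynomial.X j) = gv p B j := by
  simp [sp]

theorem jn_sp (Φ : MvPolynomial J B) : jn p B (sp p B Φ) = Φ := by
  induction Φ using MvPolynomial.induction_on with
  | C b => rw [sp_C, jn_C, MvPolynomial.rename_C]
  | add a b ha hb => rw [map_add, map_add, ha, hb]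
  | mul_X a j ha =>
    rw [map_mul, map_mul, ha, sp_X]
    congr 1
    unfold gv
    split_ifs with h
    · exact jn_X p _
    · rw [jn_C, MvPolynomial.rename_X]

theorem sp_rename (σ : J → J)
    (ψ : MvPolynomial {j // p j} (MvPolynomial {j // ¬ p j} B) →+*
      MvPolynomial {j // p j} (MvPolynomial {j // ¬ p j} B))
    (h1 : ∀ b : B, ψ (MvPolynomial.C (MvPolynomial.C b)) = MvPolynomial.C (MvPolynomial.C b))
    (h2 : ∀ j, ψ (gv p B j) = gv p B (σ j)) (Φ : MvPolynomial J B) :
    ψ (sp p B Φ) = sp p B (MvPolynomial.rename σ Φ) := by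
  induction Φ using MvPolynomial.induction_on with
  | C b => rw [MvPolynomial.rename_C, sp_C, h1]
  | add a b ha hb => rw [map_add, map_add, map_add, map_add, ha, hb]
  | mul_X a j ha =>
    rw [map_mul, map_mul, map_mul, map_mul, ha, MvPolynomial.rename_X, sp_X, sp_X, h2]

end

theorem map_ae {σ R : Type} [Fintype σ] [CommRing R] (n : ℕ) (φ : R →+* R)
    (Θ : MvPolynomial (Fin n) R) :
    MvPolynomial.map φ (MvPolynomial.aeval (fun i : Fin n => MvPolynomial.esymm σ R (i + 1)) Θ) =
      MvPolynomial.aeval (fun i : Fin n => MvPolynomial.esymm σ R (i + 1))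
        (MvPolynomial.map φ Θ) := by
  induction Θ using MvPolynomial.induction_on with
  | C b => simp
  | add a b ha hb => rw [map_add, map_add, map_add, map_add, ha, hb]
  | mul_X a j ha =>
    rw [map_mul, map_mul, map_mul, map_mul, ha, MvPolynomial.map_X, MvPolynomial.aeval_X,
      MvPolynomial.map_esymm]

theorem es_coeff {σ R : Type} [Fintype σ] [CommRing R] (k : ℕ) (hk : k ≤ Fintype.card σ) :
    MvPolynomial.esymm σ R k = (-1) ^ k * (∏ j : σ, (Polynomial.X -
      Polynomial.C (MvPolynomial.X j : MvPolynomial σ R))).coeff (Fintype.card σ - k) := by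
  have hc : Multiset.card ((univ : Finset σ).val.map (MvPolynomial.X : σ → MvPolynomial σ R)) =
      Fintype.card σ := by
    rw [Multiset.card_map]
    rfl
  have h := Multiset.prod_X_sub_C_coeff
    ((univ : Finset σ).val.map (MvPolynomial.X : σ → MvPolynomial σ R))
    (k := Fintype.card σ - k) (by rw [hc]; exact Nat.sub_le _ _)
  rw [hc, Nat.sub_sub_self hk, Multiset.map_map] at h
  rw [Finset.prod_eq_multiset_prod]
  change _ = _ * Polynomial.coeff (Multiset.map ((fun t => Polynomial.X - Polynomial.C t) ∘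
    MvPolynomial.X) univ.val).prod _
  rw [h, ← mul_assoc, ← mul_pow, MvPolynomial.esymm_eq_multiset_esymm]
  simp

theorem main (ι B : Type) [DecidableEq ι] [CommRing B] (n : ℕ) :
    ∀ (J : Type) [Fintype J] [DecidableEq J] (blk : J → ι), Fintype.card J < n →
    ∀ Φ : MvPolynomial J B, (∀ σ ∈ Gpb blk, MvPolynomial.rename σ Φ = Φ) →
    Φ ∈ Algebra.adjoin B (Set.range fun z : ι × ℕ =>
      (Pb blk (MvPolynomial.X : J → MvPolynomial J B) z.1).coeff z.2) := by
  induction n with
  | zero => intro J _ _ blk h; exact (Nat.not_lt_zero _ h).elim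
  | succ n ih =>
    intro J _ _ blk hn Φ hΦ
    rcases isEmpty_or_nonempty J with hJ | ⟨⟨j0⟩⟩
    · rw [MvPolynomial.eq_C_of_isEmpty Φ]
      exact Subalgebra.algebraMap_mem _ _
    set S := Algebra.adjoin B (Set.range fun z : ι × ℕ =>
      (Pb blk (MvPolynomial.X : J → MvPolynomial J B) z.1).coeff z.2) with hS
    have hgen : ∀ i k, (Pb blk (MvPolynomial.X : J → MvPolynomial J B) i).coeff k ∈ S :=
      fun i k => Algebra.subset_adjoin ⟨(i, k), rfl⟩
    let p : J → Prop := fun j => blk j = blk j0
    have hsym : (sp p B Φ).IsSymmetric := by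
      intro τ
      have k := sp_rename p (Equiv.Perm.ofSubtype τ : Equiv.Perm J)
        (MvPolynomial.rename (R := MvPolynomial {j // ¬ p j} B) τ).toRingHom
        (fun b => MvPolynomial.rename_C _ _) (by
          intro j
          by_cases h : p j
          · rw [Equiv.Perm.ofSubtype_apply_of_mem τ h]
            unfold gv
            rw [dif_pos h, dif_pos (τ ⟨j, h⟩).2]
            exact MvPolynomial.rename_X _ _
          · rw [Equiv.Perm.ofSubtype_apply_of_not_mem τ h]
            unfold gv
            rw [dif_neg h]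
            exact MvPolynomial.rename_C _ _) Φ
      rw [hΦ] at k
      · exact k
      · refine mem_filter.2 ⟨mem_univ _, fun j => ?_⟩
        by_cases h : p j
        · rw [Equiv.Perm.ofSubtype_apply_of_mem τ h]
          exact (τ ⟨j, h⟩).2.trans h.symm
        · rw [Equiv.Perm.ofSubtype_apply_of_not_mem τ h]
    obtain ⟨Θ, hΘ⟩ := MvPolynomial.esymmAlgHom_surjective (σ := {j // p j})
      (MvPolynomial {j // ¬ p j} B) le_rfl ⟨sp p B Φ, hsym⟩
    have hΘ' := congrArg Subtype.val hΘ
    rw [MvPolynomial.esymmAlgHom_apply] at hΘ'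
    change _ = sp p B Φ at hΘ'
    have hinv : ∀ ρ ∈ Gpb (fun j : {j // ¬ p j} => blk j.1), ∀ d,
        MvPolynomial.rename ρ (Θ.coeff d) = Θ.coeff d := by
      intro ρ hρ d
      have hρ' := (mem_filter.1 hρ).2
      have k := sp_rename p (Equiv.Perm.ofSubtype ρ : Equiv.Perm J)
        (MvPolynomial.map (MvPolynomial.rename (R := B) ρ).toRingHom)
        (fun b => by
          rw [MvPolynomial.map_C]
          exact congrArg _ (MvPolynomial.rename_C _ _)) (by
          intro j
          by_cases h : p j
          · rw [Equiv.Perm.ofSubtype_apply_of_not_mem ρ (not_not.2 h)]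
            unfold gv
            rw [dif_pos h]
            exact MvPolynomial.map_X _ _
          · rw [Equiv.Perm.ofSubtype_apply_of_mem ρ h]
            unfold gv
            rw [dif_neg h, dif_neg (ρ ⟨j, h⟩).2, MvPolynomial.map_C]
            exact congrArg _ (MvPolynomial.rename_X _ _)) Φ
      rw [hΦ] at k
      · rw [← hΘ', map_ae] at k
        have k2 : MvPolynomial.map (MvPolynomial.rename (R := B) ρ).toRingHom Θ = Θ := by
          refine MvPolynomial.esymmAlgHom_injective (σ := {j // p j})
            (MvPolynomial {j // ¬ p j} B) le_rfl (Subtype.ext ?_)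
          rw [MvPolynomial.esymmAlgHom_apply, MvPolynomial.esymmAlgHom_apply]
          exact k
        have k3 := congrArg (MvPolynomial.coeff d) k2
        rw [MvPolynomial.coeff_map] at k3
        exact k3
      · refine mem_filter.2 ⟨mem_univ _, fun j => ?_⟩
        by_cases h : p j
        · rw [Equiv.Perm.ofSubtype_apply_of_not_mem ρ (not_not.2 h)]
        · rw [Equiv.Perm.ofSubtype_apply_of_mem ρ h]
          exact hρ' ⟨j, h⟩
    have hlt : Fintype.card {j // ¬ p j} < n :=
      lt_of_lt_of_le (Fintype.card_subtype_lt (x := j0) (not_not.2 rfl)) (Nat.lt_succ_iff.1 hn)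
    have hle : Algebra.adjoin B (Set.range fun z : ι × ℕ => (Pb (fun j : {j // ¬ p j} => blk j.1)
        (MvPolynomial.X : {j // ¬ p j} → MvPolynomial {j // ¬ p j} B) z.1).coeff z.2) ≤
        S.comap (MvPolynomial.rename (Subtype.val : {j // ¬ p j} → J)) := by
      refine Algebra.adjoin_le ?_
      rintro _ ⟨⟨i, k⟩, rfl⟩
      change (MvPolynomial.rename (R := B) (Subtype.val : {j // ¬ p j} → J)).toRingHom _ ∈ S
      rw [← Polynomial.coeff_map]
      unfold Pb
      rw [Polynomial.map_prod]
      by_cases hi : i = blk j0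
      · rw [filter_eq_empty_iff.2 fun j _ h => j.2 (h.trans hi), prod_empty, Polynomial.coeff_one]
        split_ifs
        · exact one_mem _
        · exact zero_mem _
      · refine (congrArg (fun q => Polynomial.coeff q k ∈ S) ?_).mpr (hgen i k)
        unfold Pb
        refine prod_bij (fun j _ => j.1) (fun j hj => mem_filter.2 ⟨mem_univ _, (mem_filter.1 hj).2⟩)
          (fun a _ b _ h => Subtype.ext h) (fun j hj => ?_) (fun j _ => by simp)
        have hj' := (mem_filter.1 hj).2
        exact ⟨⟨j, fun h => hi (hj'.symm.trans h)⟩, mem_filter.2 ⟨mem_univ _, hj'⟩, rfl⟩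
    have hes : ∀ k, k ≤ Fintype.card {j // p j} →
        jn p B (MvPolynomial.esymm {j // p j} (MvPolynomial {j // ¬ p j} B) k) ∈ S := by
      intro k hk
      rw [es_coeff k hk, map_mul, map_pow, map_neg, map_one, ← Polynomial.coeff_map,
        Polynomial.map_prod]
      refine mul_mem (pow_mem (neg_mem (one_mem _)) _) ?_
      refine (congrArg (fun q => Polynomial.coeff q (Fintype.card {j // p j} - k) ∈ S) ?_).mpr
        (hgen (blk j0) _)
      unfold Pb
      refine prod_bij (fun j _ => j.1) (fun j _ => mem_filter.2 ⟨mem_univ _, j.2⟩)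
        (fun a _ b _ h => Subtype.ext h) (fun j hj => ?_) (fun j _ => by simp [jn_X])
      exact ⟨⟨j, (mem_filter.1 hj).2⟩, mem_univ _, rfl⟩
    rw [← jn_sp p Φ, ← hΘ', MvPolynomial.aeval_def, MvPolynomial.eval₂_eq, map_sum]
    refine sum_mem fun d _ => ?_
    rw [map_mul, map_prod]
    refine mul_mem ?_ (prod_mem fun i _ => ?_)
    · rw [MvPolynomial.algebraMap_eq, jn_C]
      exact hle (ih _ _ hlt _ fun ρ hρ => hinv ρ hρ d)
    · rw [map_pow]
      exact pow_mem (hes _ i.2) _

end AS4

theorem s4 : S4 := by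
  intro J ι _ _ _ blk B _ Φ hΦ
  have h := AS4.main ι B _ J blk (Nat.lt_succ_self _) Φ hΦ
  rw [Algebra.adjoin_range_eq_range_aeval] at h
  exact h

end Pool.Agent.MP_a9d3bd_g
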