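import Pool.Agent.MP_a9d3bd_g.UDefs

namespace Pool.Agent.MP_a9d3bd_g

open Polynomial Finset

namespace AS5

variable {J ι : Type} [Fintype J] [DecidableEq J] [DecidableEq ι]

/-- interpolation polynomial -/
noncomputable def W {A : Type} [CommRing A] (G : Finset (Equiv.Perm J)) (y : Equiv.Perm J → A)
    (σ : Equiv.Perm J) : A[X] :=
  ∑ t ∈ G, C (y (t * σ) * ∏ t₂ ∈ G.erase t, ∏ ρ ∈ G.erase t₂, (y t₂ - y ρ)) *
    ∏ ρ ∈ G.erase t, (X - C (y ρ))

/-- the numerators of the conjugates -/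
noncomputable def Hs {A : Type} [CommRing A] (blk : J → ι) (c x : J → A) (σ : Equiv.Perm J) :
    A[X] := C (∏ j, ∏ j' ∈ univ.erase j, (x j - x j')) * W (Gpb blk) (yy c x) σ

theorem eval_Hs {A : Type} [CommRing A] (blk : J → ι) (c x : J → A) (σ τ : Equiv.Perm J)
    (hτ : τ ∈ Gpb blk) : (Hs blk c x σ).eval (yy c x τ) = Ds blk c x * yy c x (τ * σ) := by
  unfold Hs W Ds
  rw [eval_mul, eval_C, eval_finsetSum, sum_eq_single_of_mem τ hτ, ← mul_prod_erase _ _ hτ,
    eval_mul, eval_C, eval_prod]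
  · simp only [eval_sub, eval_X, eval_C]
    ring
  · intro t _ ht
    rw [eval_mul, eval_prod]
    exact mul_eq_zero_of_right _ (prod_eq_zero (mem_erase.2 ⟨ht.symm, hτ⟩) (by simp))

omit [DecidableEq J] in
theorem map_yy {A A' : Type} [CommRing A] [CommRing A'] (f : A →+* A') (c x : J → A)
    (σ : Equiv.Perm J) : f (yy c x σ) = yy (fun j => f (c j)) (fun j => f (x j)) σ := by
  simp [yy]

omit [DecidableEq J] in
theorem map_Pb {A A' : Type} [CommRing A] [CommRing A'] (f : A →+* A') (blk : J → ι) (x : J → A)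
    (i : ι) : (Pb blk x i).map f = Pb blk (fun j => f (x j)) i := by
  simp [Pb, Polynomial.map_prod]

theorem map_Rs {A A' : Type} [CommRing A] [CommRing A'] (f : A →+* A') (blk : J → ι)
    (c x : J → A) : (Rs blk c x).map f = Rs blk (fun j => f (c j)) (fun j => f (x j)) := by
  simp [Rs, Polynomial.map_prod, map_yy f]

theorem map_Ds {A A' : Type} [CommRing A] [CommRing A'] (f : A →+* A') (blk : J → ι)
    (c x : J → A) : f (Ds blk c x) = Ds blk (fun j => f (c j)) (fun j => f (x j)) := by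
  simp [Ds, map_yy]

theorem map_Hs {A A' : Type} [CommRing A] [CommRing A'] (f : A →+* A') (blk : J → ι)
    (c x : J → A) (σ : Equiv.Perm J) :
    (Hs blk c x σ).map f = Hs blk (fun j => f (c j)) (fun j => f (x j)) σ := by
  simp only [Hs, W, Polynomial.map_mul, Polynomial.map_sum, Polynomial.map_prod,
    Polynomial.map_sub, map_C, map_X, map_mul, map_prod, map_sub, map_yy f]

theorem mem_mul (blk : J → ι) {π : Equiv.Perm J} (hπ : π ∈ Gpb blk) (s : Equiv.Perm J) :
    s ∈ Gpb blk ↔ π * s ∈ Gpb blk := by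
  simp only [Gpb, mem_filter, mem_univ, true_and, Equiv.Perm.mul_apply] at hπ ⊢
  simp only [hπ]

theorem prod_er {M : Type} [CommMonoid M] (blk : J → ι) {π : Equiv.Perm J} (hπ : π ∈ Gpb blk)
    (t : Equiv.Perm J) (f g : Equiv.Perm J → M) (h : ∀ s, f s = g (π * s)) :
    ∏ s ∈ (Gpb blk).erase t, f s = ∏ s ∈ (Gpb blk).erase (π * t), g s :=
  prod_equiv (Equiv.mulLeft π) (fun s => by
    simp only [mem_erase, Equiv.coe_mulLeft, ne_eq, mul_right_inj, ← mem_mul blk hπ])
    fun s _ => h s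

omit [DecidableEq J] in
theorem yy_perm {A : Type} [CommRing A] (c x : J → A) (π s : Equiv.Perm J) :
    yy c (fun j => x (π j)) s = yy c x (π * s) := rfl

theorem del_perm {A : Type} [CommRing A] (x : J → A) (π : Equiv.Perm J) :
    ∏ j, ∏ j' ∈ univ.erase j, (x (π j) - x (π j')) = ∏ j, ∏ j' ∈ univ.erase j, (x j - x j') :=
  prod_equiv π (by simp) fun j _ => prod_equiv π (by simp) fun _ _ => rfl

theorem Rs_perm {A : Type} [CommRing A] (blk : J → ι) (c x : J → A) {π : Equiv.Perm J}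
    (hπ : π ∈ Gpb blk) : Rs blk c (fun j => x (π j)) = Rs blk c x :=
  prod_equiv (Equiv.mulLeft π) (mem_mul blk hπ) fun _ _ => rfl

theorem Ds_perm {A : Type} [CommRing A] (blk : J → ι) (c x : J → A) {π : Equiv.Perm J}
    (hπ : π ∈ Gpb blk) : Ds blk c (fun j => x (π j)) = Ds blk c x := by
  unfold Ds
  rw [del_perm]
  congr 1
  exact prod_equiv (Equiv.mulLeft π) (mem_mul blk hπ) fun t _ =>
    prod_er blk hπ t _ _ fun _ => rfl

theorem Hs_perm {A : Type} [CommRing A] (blk : J → ι) (c x : J → A) {π : Equiv.Perm J}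
    (hπ : π ∈ Gpb blk) (σ : Equiv.Perm J) : Hs blk c (fun j => x (π j)) σ = Hs blk c x σ := by
  unfold Hs W
  rw [del_perm]
  congr 1
  refine sum_equiv (Equiv.mulLeft π) (mem_mul blk hπ) fun t _ => ?_
  rw [Equiv.coe_mulLeft, yy_perm, ← mul_assoc]
  congr 1
  · congr 2
    exact prod_er blk hπ t _ _ fun s => prod_er blk hπ s _ _ fun _ => rfl
  · exact prod_er blk hπ t _ _ fun _ => rfl

/-- the universal ring -/
abbrev U (J : Type) : Type := MvPolynomial J (MvPolynomial J ℤ)

/-- evaluation of the universal ring -/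
noncomputable def ev {A : Type} [CommRing A] (c x : J → A) : U J →+* A :=
  MvPolynomial.eval₂Hom (MvPolynomial.eval₂Hom (Int.castRingHom A) c) x

theorem desc (h4 : S4) (blk : J → ι) (D : ℕ) (Φ : U J)
    (hΦ : ∀ σ ∈ Gpb blk, MvPolynomial.rename σ Φ = Φ) :
    ∃ n : ℕ, ∀ (K : Type) [Field K] (r : ℕ) (c : J → K) (P : ι → (MvPolynomial (Fin r) K)[X]),
      (∀ i k, ((P i).coeff k).totalDegree ≤ D) → ∃ t : MvPolynomial (Fin r) K,
        t.totalDegree ≤ n ∧ ∀ (A : Type) [CommRing A] (θ : MvPolynomial (Fin r) K →+* A)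
          (x : J → A), (∀ i, (P i).map θ = Pb blk x i) →
            θ t = ev (fun j => θ (MvPolynomial.C (c j))) x Φ := by
  obtain ⟨Ψ, rfl⟩ := h4 J ι blk _ Φ hΦ
  refine ⟨∑ d ∈ Ψ.support, ∑ z ∈ d.support, d z * D, fun K _ r c P hP =>
    ⟨MvPolynomial.eval₂ (MvPolynomial.C.comp (MvPolynomial.eval₂Hom (Int.castRingHom K) c))
      (fun z : ι × ℕ => (P z.1).coeff z.2) Ψ, ?_, fun A _ θ x hx => ?_⟩⟩
  · rw [MvPolynomial.eval₂_eq]
    refine (MvPolynomial.totalDegree_finsetSum _ _).trans (Finset.sup_le fun d hd => ?_)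
    refine le_trans ?_ (single_le_sum (f := fun d : ι × ℕ →₀ ℕ => ∑ z ∈ d.support, d z * D)
      (fun _ _ => Nat.zero_le _) hd)
    refine (MvPolynomial.totalDegree_mul _ _).trans ?_
    rw [RingHom.comp_apply, MvPolynomial.totalDegree_C, zero_add]
    refine (MvPolynomial.totalDegree_finsetProd _ _).trans (sum_le_sum fun z _ => ?_)
    exact (MvPolynomial.totalDegree_pow _ _).trans (Nat.mul_le_mul_left _ (hP _ _))
  · rw [MvPolynomial.aeval_def, MvPolynomial.eval₂_comp_left, MvPolynomial.eval₂_comp_left]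
    congr 1
    · refine MvPolynomial.ringHom_ext' (RingHom.ext_int _ _) fun j => ?_
      simp [ev]
    · funext z
      simp only [Function.comp]
      rw [← coeff_map, ← coeff_map, hx, map_Pb]
      simp [ev]

theorem descP (h4 : S4) (blk : J → ι) (D m : ℕ) (F : (U J)[X]) (hm : F.degree < m)
    (hF : ∀ σ ∈ Gpb blk, F.map (MvPolynomial.rename σ).toRingHom = F) :
    ∃ n : ℕ, ∀ (K : Type) [Field K] (r : ℕ) (c : J → K) (P : ι → (MvPolynomial (Fin r) K)[X]),
      (∀ i k, ((P i).coeff k).totalDegree ≤ D) → ∃ T : (MvPolynomial (Fin r) K)[X],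
        T.degree < m ∧ (∀ k, (T.coeff k).totalDegree ≤ n) ∧
        ∀ (A : Type) [CommRing A] (θ : MvPolynomial (Fin r) K →+* A)
          (x : J → A), (∀ i, (P i).map θ = Pb blk x i) →
            T.map θ = F.map (ev (fun j => θ (MvPolynomial.C (c j))) x) := by
  choose n hn using fun k => desc h4 blk D (F.coeff k) fun σ hσ => by
    have := congrArg (fun p => p.coeff k) (hF σ hσ)
    simpa [coeff_map] using this
  refine ⟨∑ k ∈ range m, n k, fun K _ r c P hP => ?_⟩
  choose t ht1 ht2 using fun k => hn k K r c P hP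
  have hc : ∀ k, (∑ l ∈ range m, monomial l (t l)).coeff k = if k < m then t k else 0 := by
    intro k
    simp [coeff_monomial]
  refine ⟨∑ l ∈ range m, monomial l (t l), ?_, fun k => ?_, fun A _ θ x hx => ?_⟩
  · exact (degree_lt_iff_coeff_zero _ _).2 fun k hk => by rw [hc, if_neg (by omega)]
  · rw [hc]
    split_ifs with h
    · exact (ht1 k).trans (single_le_sum (fun _ _ => Nat.zero_le _) (mem_range.2 h))
    · simp
  · ext k
    rw [coeff_map, coeff_map, hc]
    split_ifs with h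
    · exact ht2 k A θ x hx
    · rw [(degree_lt_iff_coeff_zero _ _).1 hm k (by omega), map_zero, map_zero]

theorem monic_Rs {A : Type} [CommRing A] (blk : J → ι) (c x : J → A) : (Rs blk c x).Monic :=
  monic_prod_of_monic _ _ fun _ _ => monic_X_sub_C _

end AS5

open AS5 in
theorem s5 (h4 : S4) : S5 := by
  intro J ι _ _ _ blk D
  let cU : J → U J := fun j => MvPolynomial.C (MvPolynomial.X j)
  let xU : J → U J := MvPolynomial.X
  have e1 : ∀ π : Equiv.Perm J,
      (fun j => (MvPolynomial.rename π).toRingHom (cU j)) = cU := fun π => by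
    funext j; simp [cU]
  have e2 : ∀ π : Equiv.Perm J,
      (fun j => (MvPolynomial.rename π).toRingHom (xU j)) = fun j => xU (π j) := fun π => by
    funext j; simp [xU]
  have e3 : ∀ (A : Type) [CommRing A] (c x : J → A), (fun j => ev c x (cU j)) = c :=
    fun A _ c x => by funext j; simp [cU, ev]
  have e4 : ∀ (A : Type) [CommRing A] (c x : J → A), (fun j => ev c x (xU j)) = x :=
    fun A _ c x => by funext j; simp [xU, ev]
  have hdeg : (Rs blk cU xU).natDegree = (Gpb blk).card := by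
    unfold Rs
    rw [natDegree_prod_of_monic _ _ fun _ _ => monic_X_sub_C _]
    simp
  obtain ⟨nR, hR⟩ := descP h4 blk D (Gpb blk).card (Rs blk cU xU - X ^ (Gpb blk).card) (by
      have h := degree_sub_lt_left (p := Rs blk cU xU) (q := X ^ (Gpb blk).card)
        (by rw [degree_X_pow, degree_eq_natDegree (monic_Rs blk cU xU).ne_zero, hdeg])
        (monic_Rs blk cU xU).ne_zero
        (by rw [(monic_Rs blk cU xU).leadingCoeff, leadingCoeff_X_pow])
      rwa [degree_eq_natDegree (monic_Rs blk cU xU).ne_zero, hdeg] at h)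
    fun π hπ => by
      rw [Polynomial.map_sub, Polynomial.map_pow, map_X, map_Rs, e1, e2, Rs_perm blk _ _ hπ]
  obtain ⟨nd, hd⟩ := desc h4 blk D (Ds blk cU xU) fun π hπ => by
    have := map_Ds (MvPolynomial.rename π).toRingHom blk cU xU
    rw [e1, e2, Ds_perm blk _ _ hπ] at this
    exact this
  choose nh hh using fun σ => descP h4 blk D ((Hs blk cU xU σ).natDegree + 1) (Hs blk cU xU σ)
    (degree_le_natDegree.trans_lt (by exact_mod_cast Nat.lt_succ_self _)) fun π hπ => by
      rw [map_Hs, e1, e2, Hs_perm blk _ _ hπ]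
  refine ⟨nR + nd + ∑ σ, (nh σ + (Hs blk cU xU σ).natDegree), fun K _ r c P hP => ?_⟩
  obtain ⟨T, hT1, hT2, hT3⟩ := hR K r c P hP
  obtain ⟨d, hd1, hd2⟩ := hd K r c P hP
  choose h hh1 hh2 hh3 using fun σ => hh σ K r c P hP
  have hs : ∀ σ, nh σ + (Hs blk cU xU σ).natDegree ≤
      ∑ σ, (nh σ + (Hs blk cU xU σ).natDegree) := fun σ =>
    single_le_sum (f := fun σ => nh σ + (Hs blk cU xU σ).natDegree) (fun _ _ => Nat.zero_le _)
      (mem_univ σ)
  refine ⟨X ^ (Gpb blk).card + T, h, d, monic_X_pow_add hT1, ?_, fun k => ?_, fun σ => ?_,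
    fun σ k => ?_, by omega, fun A _ θ x hx => ⟨?_, ?_, fun σ _ τ hτ => ?_⟩⟩
  · rw [natDegree_add_eq_left_of_degree_lt (by rwa [degree_X_pow]), natDegree_X_pow]
  · rw [coeff_add]
    refine (MvPolynomial.totalDegree_add _ _).trans (max_le ?_ ((hT2 k).trans (by omega)))
    rw [coeff_X_pow]
    split_ifs <;> simp
  · have h1 : (h σ).natDegree ≤ (Hs blk cU xU σ).natDegree :=
      natDegree_le_iff_coeff_eq_zero.2 fun k hk =>
        (degree_lt_iff_coeff_zero _ _).1 (hh1 σ) k (by omega)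
    have := hs σ
    omega
  · have := hs σ
    have := hh2 σ k
    omega
  · rw [Polynomial.map_add, hT3 A θ x hx, Polynomial.map_sub, Polynomial.map_pow,
      Polynomial.map_pow, map_X, map_X, map_Rs, e3, e4]
    ring
  · rw [hd2 A θ x hx, map_Ds, e3, e4]
  · rw [hh3 σ A θ x hx, hd2 A θ x hx, map_Ds, map_Hs, e3, e4, eval_Hs blk _ _ σ τ hτ]

end Pool.Agent.MP_a9d3bd_g
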