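import Pool.Agent.MP_a9d3bd_g.UDefs
import Pool.Agent.Mg.F43e117.G9ab808

namespace Pool.Agent.MP_a9d3bd_g

open Polynomial Finset

namespace AS6

theorem enum {J K : Type} [DecidableEq J] [Nonempty K] (s : Finset J) :
    ∀ m : Multiset K, m.card = s.card → ∃ x : J → K, s.val.map x = m := by
  induction s using Finset.induction_on with
  | empty => exact fun m h => ⟨fun _ => Classical.arbitrary K, (Multiset.card_eq_zero.1 h).symm⟩
  | insert a s ha ih =>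
    intro m h
    rw [card_insert_of_notMem ha] at h
    obtain ⟨b, hb⟩ := Multiset.card_pos_iff_exists_mem.1 (show 0 < m.card by omega)
    obtain ⟨m, rfl⟩ := Multiset.exists_cons_of_mem hb
    obtain ⟨x, hx⟩ := ih m (by simpa using h)
    refine ⟨Function.update x a b, ?_⟩
    rw [insert_val_of_notMem ha, Multiset.map_cons, Function.update_self, ← hx]
    exact congrArg _ (Multiset.map_congr rfl fun j hj =>
      Function.update_of_ne (ne_of_mem_of_not_mem (show j ∈ s from hj) ha) _ _)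

variable {J ι : Type} [Fintype J] [DecidableEq J] [DecidableEq ι] {blk : J → ι}

theorem mem_Gp {σ : Equiv.Perm J} : σ ∈ Gpb blk ↔ ∀ j, blk (σ j) = blk j := by simp [Gpb]

theorem mul_Gp {σ τ : Equiv.Perm J} (h : σ ∈ Gpb blk) (k : τ ∈ Gpb blk) : σ * τ ∈ Gpb blk :=
  mem_Gp.2 fun j => (mem_Gp.1 h _).trans (mem_Gp.1 k j)

theorem inv_Gp {σ : Equiv.Perm J} (h : σ ∈ Gpb blk) : σ⁻¹ ∈ Gpb blk :=
  mem_Gp.2 fun j => by rw [← mem_Gp.1 h (σ⁻¹ j)]; simp

theorem pt {p f : ℕ} [Fact p.Prime] {K : Type} [Field K] [IsAlgClosed K] [CharP K p]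
    {c : J → K} {P : ι → K[X][X]} {R : K[X][X]} {h : Equiv.Perm J → K[X][X]} {d : K[X]}
    (hc : ∀ j, c j ^ p ^ f = c j) (hm : ∀ i, (P i).Monic)
    (hn : ∀ i, (P i).natDegree = (univ.filter fun j => blk j = i).card)
    (hr : ∀ i k l, ((P i).coeff k).coeff l ^ p ^ f = ((P i).coeff k).coeff l)
    (hR : Res blk (fun j => C (c j)) P R h d) (t : K) (ht : t ^ p ^ f = t ∧ d.eval t ≠ 0) :
    ∃ π ∈ Gpb blk, ∃ Y : Equiv.Perm J → K, Set.InjOn Y (Gpb blk) ∧
      (∀ y, R.evalEval t y = 0 ↔ ∃ τ ∈ Gpb blk, Y τ = y) ∧ (R.map (evalRingHom t)).Separable ∧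
      (∀ τ, Y τ ^ p ^ f = Y (π * τ)) ∧
      (∀ σ ∈ Gpb blk, ∀ τ ∈ Gpb blk, (h σ).evalEval t (Y τ) = d.eval t * Y (τ * σ)) ∧
      (π = 1 ↔ ∀ i z, (P i).evalEval t z = 0 → z ^ p ^ f = z) := by
  choose x0 hx0 using fun i => enum (univ.filter fun j => blk j = i)
    ((P i).map (evalRingHom t)).roots (by
      rw [← (IsAlgClosed.splits _).natDegree_eq_card_roots, (hm i).natDegree_map, hn])
  obtain ⟨x, hx⟩ : ∃ x : J → K, ∀ i, (P i).map (evalRingHom t) = Pb blk x i := by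
    refine ⟨fun j => x0 (blk j) j, fun i => ?_⟩
    rw [(IsAlgClosed.splits _).eq_prod_roots_of_monic ((hm i).map (evalRingHom t)), ← hx0,
      Multiset.map_map, Pb, ← prod_eq_multiset_prod]
    exact prod_congr rfl fun j hj => by rw [(mem_filter.1 hj).2]; rfl
  obtain ⟨r1, r2, r3⟩ := hR K (evalRingHom t) x hx
  simp only [coe_evalRingHom, eval_C, map_evalRingHom_eval] at r1 r2 r3
  have d0 := mul_ne_zero_iff.1 (r2 ▸ ht.2 : Ds blk c x ≠ 0)
  have i1 : Set.InjOn (yy c x) (Gpb blk) := fun τ h1 ρ h2 e => by_contra fun k =>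
    prod_ne_zero_iff.1 (prod_ne_zero_iff.1 d0.1 τ h1) ρ (mem_erase.2 ⟨Ne.symm k, h2⟩)
      (sub_eq_zero.2 e)
  have i2 : Function.Injective x := fun j j' e => by_contra fun k =>
    prod_ne_zero_iff.1 (prod_ne_zero_iff.1 d0.2 j (mem_univ _)) j'
      (mem_erase.2 ⟨Ne.symm k, mem_univ _⟩) (sub_eq_zero.2 e)
  have rt : ∀ i z, (P i).evalEval t z = 0 ↔ ∃ j, blk j = i ∧ x j = z := fun i z => by
    rw [← map_evalRingHom_eval, hx, Pb, eval_prod, prod_eq_zero_iff]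
    simp [sub_eq_zero, eq_comm]
  have fr : ∀ z : K, iterateFrobenius K p f z = z ^ p ^ f := fun _ => rfl
  have st : ∀ i z, (P i).evalEval t z = 0 → (P i).evalEval t (z ^ p ^ f) = 0 := fun i z hz => by
    have e : (P i).map (mapRingHom (iterateFrobenius K p f)) = P i := by
      ext k l
      rw [coeff_map, coe_mapRingHom, coeff_map, fr, hr]
    have k := map_mapRingHom_evalEval (iterateFrobenius K p f) (P i) t z
    rwa [e, hz, map_zero, fr, fr, ht.1] at k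
  choose π0 p1 p2 using fun j => (rt _ _).1 (st (blk j) (x j) ((rt _ _).2 ⟨j, rfl, rfl⟩))
  have i3 : Function.Injective π0 := fun j j' e => i2 ((iterateFrobenius K p f).injective (by
    rw [fr, fr, ← p2, ← p2, e]))
  refine ⟨Equiv.ofBijective π0 (Finite.injective_iff_bijective.1 i3), mem_Gp.2 p1, yy c x, i1,
    fun y => ?_, ?_, fun τ => ?_, r3, fun e i z hz => ?_, fun e => ?_⟩
  · rw [← map_evalRingHom_eval, r1, Rs, eval_prod, prod_eq_zero_iff]
    simp only [eval_sub, eval_X, eval_C, sub_eq_zero, eq_comm (a := y)]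
  · rw [r1, Rs]
    exact separable_prod_X_sub_C_iff'.2 fun τ h1 ρ h2 e => i1 h1 h2 e
  · rw [← fr, yy, map_sum]
    exact sum_congr rfl fun j _ => by rw [map_mul, fr, fr, hc, ← p2]; rfl
  · obtain ⟨j, -, rfl⟩ := (rt _ _).1 hz
    rw [← p2]
    exact congrArg x (DFunLike.congr_fun e j)
  · exact Equiv.ext fun j => i2 ((p2 j).trans (e _ _ ((rt _ _).2 ⟨j, rfl, rfl⟩)))

end AS6

open AS6 in
theorem s6 : S6 := by
  classical
  intro J ι _ _ _ _ blk N ε hε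
  have o1 : (1 : Equiv.Perm J) ∈ Gpb blk := mem_Gp.2 fun _ => rfl
  obtain ⟨g, hg⟩ : ∃ g : ℕ, (Gpb blk).card = g := ⟨_, rfl⟩
  have g1 : (1 : ℝ) ≤ g := by exact_mod_cast hg ▸ card_pos.2 ⟨1, o1⟩
  obtain ⟨L, hL⟩ := exists_nat_gt (6 * g / ε)
  have L0 : (0 : ℝ) < L := lt_trans (by positivity) hL
  obtain ⟨q1, hq1⟩ := exists_nat_ge (2 * g * N / ε)
  obtain ⟨q0, hq0⟩ := Pool.Agent.MP_9b2bac_nt.Z.stepanovL L (Nat.cast_pos.1 L0) g N
  refine ⟨q0 + q1 + 2, fun p f _ K _ _ _ hq c P R h d hc hm hn hr m1 m2 m3 m4 m5 m6 hR hi hd => ?_⟩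
  obtain ⟨S, s1, s2⟩ := fq p f K (by omega)
  choose! π a1 Y a2 a3 a4 a5 a6 a7 using pt hc hm hn hr hR
  obtain ⟨T, hT⟩ : ∃ T : Finset K, T = S.filter fun t => d.eval t ≠ 0 := ⟨_, rfl⟩
  have mT : ∀ t, t ∈ T ↔ t ^ p ^ f = t ∧ d.eval t ≠ 0 := fun t => by rw [hT, mem_filter, s2]
  have cT : p ^ f ≤ T.card + N := by
    have k : S ⊆ T ∪ d.roots.toFinset := fun t ht => by
      by_cases e : d.eval t = 0
      · exact mem_union_right _ (Multiset.mem_toFinset.2 ((mem_roots hd).2 e))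
      · exact mem_union_left _ (hT ▸ mem_filter.2 ⟨ht, e⟩)
    have k1 := (card_le_card k).trans (card_union_le _ _)
    have k2 := (Multiset.toFinset_card_le _).trans ((card_roots' d).trans m6)
    omega
  have up : ∀ σ ∈ Gpb blk, (((T ×ˢ Gpb blk).filter fun z => z.2⁻¹ * π z.1 * z.2 = σ).card : ℝ) ≤
      (p ^ f : ℕ) + 3 * (p ^ f : ℕ) / L := fun σ hσ => by
    have k := hq0 p f K (by omega) R (h σ) d m1 (m2.trans hg) hi m3 (m4 σ) (m5 σ) m6
    refine le_trans (Nat.cast_le.2 (le_trans ?_ k)) (Nat.cast_div_le.trans_eq (by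
      push_cast
      field_simp))
    rw [← Set.ncard_coe_finset]
    refine Set.ncard_le_ncard_of_injOn (fun z => (z.1, Y z.1 z.2)) (fun z hz => ?_)
      (fun z hz w hw e => ?_) (((T ×ˢ Gpb blk).image fun z => (z.1, Y z.1 z.2)).finite_toSet.subset
        fun z hz => ?_)
    · obtain ⟨h1, h2⟩ := mem_filter.1 (mem_coe.1 hz)
      obtain ⟨h3, h4⟩ := mem_product.1 h1
      have h5 := (mT _).1 h3
      refine ⟨h5.1, (a3 _ h5 _).2 ⟨_, h4, rfl⟩, a4 _ h5, h5.2, ?_⟩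
      rw [a5 _ h5, a6 _ h5 σ hσ _ h4, ← h2, mul_assoc, mul_inv_cancel_left]
    · obtain ⟨h3, h4⟩ := mem_product.1 (mem_filter.1 (mem_coe.1 hz)).1
      obtain ⟨e1, e2⟩ := Prod.ext_iff.1 e
      dsimp only at e1 e2
      rw [← e1] at e2
      exact Prod.ext e1 (a2 _ ((mT _).1 h3) h4 (mem_product.1 (mem_filter.1 (mem_coe.1 hw)).1).2 e2)
    · obtain ⟨τ, h1, h2⟩ := (a3 z.1 ⟨hz.1, hz.2.2.2.1⟩ _).1 hz.2.1
      exact mem_coe.2 (mem_image.2 ⟨(z.1, τ), mem_product.2 ⟨(mT _).2 ⟨hz.1, hz.2.2.2.1⟩, h1⟩,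
        Prod.ext rfl h2⟩)
  have tot := card_eq_sum_card_fiberwise (s := T ×ˢ Gpb blk) (t := Gpb blk)
    (f := fun z => z.2⁻¹ * π z.1 * z.2) fun z hz => by
      obtain ⟨h3, h4⟩ := mem_product.1 (mem_coe.1 hz)
      exact mem_coe.2 (mul_Gp (mul_Gp (inv_Gp h4) (a1 _ ((mT _).1 h3))) h4)
  have e1 : ((T ×ˢ Gpb blk).filter fun z => z.2⁻¹ * π z.1 * z.2 = 1) =
      (T.filter fun t => π t = 1) ×ˢ Gpb blk := by
    ext z
    simp only [mem_filter, mem_product, mul_eq_one_iff_eq_inv, mul_eq_left]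
    tauto
  have e2 : {t : K | t ^ p ^ f = t ∧ d.eval t ≠ 0 ∧
      ∀ i z, (P i).evalEval t z = 0 → z ^ p ^ f = z} = ↑(T.filter fun t => π t = 1) := by
    ext t
    rw [mem_coe, mem_filter, mT, Set.mem_ofPred_eq, ← and_assoc]
    exact and_congr_right fun k => (a7 t k).symm
  have u1 := up 1 o1
  have u2 := sum_le_card_nsmul ((Gpb blk).erase 1) _ _ fun σ hσ => up σ (mem_of_mem_erase hσ)
  rw [← add_sum_erase _ _ o1, e1, card_product, card_product, hg] at tot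
  rw [e1, card_product, hg] at u1
  rw [card_erase_of_mem o1, hg, nsmul_eq_mul, Nat.cast_pred (by exact_mod_cast g1), ← Nat.cast_sum]
    at u2
  rw [e2, Set.ncard_coe_finset, hg, ← Nat.cast_pow]
  have t1 := congrArg (Nat.cast (R := ℝ)) tot
  have t2 := (Nat.cast_le (α := ℝ)).2 cT
  have t3 : (q1 : ℝ) ≤ (p ^ f : ℕ) := Nat.cast_le.2 (by omega)
  rw [Nat.cast_add, Nat.cast_mul, Nat.cast_mul] at t1
  rw [Nat.cast_mul] at u1
  rw [Nat.cast_add] at t2
  generalize ((p ^ f : ℕ) : ℝ) = q at *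
  have q0' : 0 ≤ q := le_trans (Nat.cast_nonneg _) t3
  have b1 : g * (3 * q / L) ≤ ε * q / 2 := by
    rw [div_lt_iff₀ hε] at hL
    rw [← mul_div_assoc, div_le_iff₀ L0]
    nlinarith [mul_le_mul_of_nonneg_left hL.le q0']
  have b2 : (g : ℝ) * N ≤ ε * q / 2 := by
    have := (div_le_iff₀ hε).1 (hq1.trans t3)
    linarith
  have b3 : 0 ≤ 3 * q / L := by positivity
  have b4 := mul_le_mul_of_nonneg_left t2 (show (0 : ℝ) ≤ g by linarith)
  have b5 := mul_le_mul_of_nonneg_right g1 b3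
  have b6 : 0 ≤ ε * q := by positivity
  rw [abs_le]
  constructor <;> nlinarith

end Pool.Agent.MP_a9d3bd_g
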