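import Pool.Agent.MP_a9d3bd_g.UDefs

namespace Pool.Agent.MP_a9d3bd_g

open Polynomial Finset

namespace AS7

theorem pick {J M : Type} [Fintype J] [DecidableEq J] [Field M] (x : J → M)
    (hx : Function.Injective x) (S : Finset M)
    (hS : (univ : Finset (Equiv.Perm J)).offDiag.card * Fintype.card J < S.card) :
    ∃ z ∈ S, Function.Injective (yy (fun j => z ^ (Fintype.equivFin J j).1) x) := by
  obtain ⟨F, hF⟩ : ∃ F : Equiv.Perm J × Equiv.Perm J → M[X], ∀ q, F q =
    ∑ j, monomial (Fintype.equivFin J j).1 (x (q.1 j) - x (q.2 j)) := ⟨_, fun _ => rfl⟩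
  have h1 : ∀ q, (F q).natDegree ≤ Fintype.card J := fun q => by
    rw [hF]
    exact natDegree_sum_le_of_forall_le _ _ fun j _ =>
      (natDegree_monomial_le _).trans (Fintype.equivFin J j).2.le
  have h2 : ∀ q ∈ (univ : Finset (Equiv.Perm J)).offDiag, F q ≠ 0 := fun q hq h => by
    refine (mem_offDiag.1 hq).2.2 (Equiv.ext fun j => hx ?_)
    have h3 := congrArg (fun p => p.coeff (Fintype.equivFin J j).1) h
    simp only [hF, finsetSum_coeff, coeff_monomial, coeff_zero, Fin.val_inj,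
      EmbeddingLike.apply_eq_iff_eq, sum_ite_eq', mem_univ, if_true] at h3
    exact sub_eq_zero.1 h3
  by_contra hc
  refine prod_ne_zero_iff.2 h2 (eq_zero_of_natDegree_lt_card_of_eval_eq_zero' _ S
    (fun z hz => ?_) (lt_of_le_of_lt ((natDegree_prod_le _ _).trans ?_) hS))
  · by_contra h0
    refine hc ⟨z, hz, fun s t hst => by_contra fun hne => h0 ?_⟩
    rw [eval_prod]
    refine prod_eq_zero (i := (s, t)) (mem_offDiag.2 ⟨mem_univ _, mem_univ _, hne⟩) ?_
    rw [hF, eval_finsetSum, ← sub_eq_zero.2 hst, yy, yy, ← sum_sub_distrib]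
    exact sum_congr rfl fun j _ => by rw [eval_monomial]; ring
  · exact (sum_le_card_nsmul _ _ _ fun q _ => h1 q).trans_eq (smul_eq_mul _ _)

end AS7

theorem s7 : S7 := by
  intro J ι _ _ _ blk
  refine ⟨(univ : Finset (Equiv.Perm J)).offDiag.card * Fintype.card J + 2, ?_⟩
  rintro p f _ K _ _ _ hq B _ κ P ⟨M, _, θ, x, hθ, hx, hP, hψ⟩
  classical
  obtain ⟨S, hS, hS'⟩ := fq p f K (by omega)
  obtain ⟨_, hz, hy⟩ := AS7.pick x hx (S.image (θ.comp κ))
    (by rw [card_image_of_injective _ (θ.comp κ).injective]; omega)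
  obtain ⟨z, hz', rfl⟩ := mem_image.1 hz
  refine ⟨fun j => z ^ (Fintype.equivFin J j).1, fun j => by
    rw [← pow_mul, mul_comm, pow_mul, (hS' z).1 hz'], fun R h d hR hres => ?_⟩
  obtain ⟨r1, r2, -⟩ := hres M θ x hP
  have e : (fun j => (θ.comp κ) z ^ (Fintype.equivFin J j).1) =
      fun j => θ (κ (z ^ (Fintype.equivFin J j).1)) := funext fun j => by simp
  rw [e] at hy
  obtain ⟨c, hc⟩ : ∃ c : J → B, c = fun j => κ (z ^ (Fintype.equivFin J j).1) := ⟨_, rfl⟩
  have e2 : (fun j => θ (κ (z ^ (Fintype.equivFin J j).1))) = fun j => θ (c j) := by rw [hc]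
  rw [e2] at hy r1 r2
  have := hθ.isDomain θ
  have h1 : (1 : Equiv.Perm J) ∈ Gpb blk := mem_filter.2 ⟨mem_univ _, fun _ => rfl⟩
  have h2 : (R.map θ).eval (yy (fun j => θ (c j)) x 1) = 0 := by
    rw [r1, Rs, eval_prod]
    exact prod_eq_zero h1 (by simp)
  have h3 : R.natDegree = (Gpb blk).card := by
    rw [← hR.natDegree_map θ, r1, Rs, natDegree_prod_of_monic _ _ fun σ _ => monic_X_sub_C _]
    simp
  have h4 : ∀ a b : B[X], a.Monic → b.Monic → a * b = R →
      (a.map θ).eval (yy (fun j => θ (c j)) x 1) = 0 → b = 1 := fun a b ha hb hab h0 => by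
    have h5 : (Gpb blk).card ≤ a.natDegree := by
      by_contra hlt
      refine (ha.map θ).ne_zero (eq_zero_of_natDegree_lt_card_of_eval_eq_zero' _
        ((Gpb blk).image (yy (fun j => θ (c j)) x)) (fun w hw => ?_) ?_)
      · obtain ⟨σ, hσ, rfl⟩ := mem_image.1 hw
        obtain ⟨ψ, p1, p2⟩ := hψ σ hσ
        have h6 := congrArg ψ h0
        have h7 : ψ (yy (fun j => θ (c j)) x 1) = yy (fun j => θ (c j)) x σ := by
          simp only [yy, map_sum, map_mul, p1, p2, Equiv.Perm.one_apply]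
        rw [eval_map, hom_eval₂, map_zero, h7, RingHom.ext (f := ψ.comp θ) (g := θ) p1] at h6
        rw [eval_map, h6]
      · rw [card_image_of_injective _ hy, ha.natDegree_map]
        exact not_le.1 hlt
    have h6 := ha.natDegree_mul hb
    rw [hab, h3] at h6
    exact eq_one_of_monic_natDegree_zero hb (by omega)
  refine ⟨(irreducible_of_monic hR fun h => ?_).2 fun a b ha hb hab => ?_, fun h => ?_⟩
  · simp [h] at h2
  · rw [← hab, Polynomial.map_mul, eval_mul] at h2
    exact (mul_eq_zero.1 h2).elim (fun h => .inr (h4 a b ha hb hab h))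
      fun h => .inl (h4 b a hb ha (by rw [mul_comm, hab]) h)
  · rw [h, map_zero, Ds] at r2
    refine mul_ne_zero (prod_ne_zero_iff.2 fun τ _ => prod_ne_zero_iff.2 fun ρ hρ => ?_)
      (prod_ne_zero_iff.2 fun j _ => prod_ne_zero_iff.2 fun j' hj => ?_) r2.symm
    · exact sub_ne_zero.2 (hy.ne (mem_erase.1 hρ).1.symm)
    · exact sub_ne_zero.2 (hx.ne (mem_erase.1 hj).1.symm)

end Pool.Agent.MP_a9d3bd_g
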