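import Pool.Agent.MP_a9d3bd_g.UDefs

namespace Pool.Agent.MP_a9d3bd_g

open Polynomial Finset

namespace AS8

open Classical in
theorem sz {K : Type} [Field K] {r N : ℕ} {ν : MvPolynomial (Fin r) K} (h : ν ≠ 0)
    (hN : ν.totalDegree ≤ N) (S : Finset K) (hS : 0 < S.card) :
    (((Fintype.piFinset fun _ : Fin r => S).filter fun f => MvPolynomial.eval f ν = 0).card : ℝ) *
      S.card ≤ N * (S.card : ℝ) ^ r := by
  have h1 := MvPolynomial.schwartz_zippel_totalDegree h S
  rw [div_le_div_iff₀ (by positivity) (by positivity)] at h1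
  have h2 : ((Fintype.piFinset fun _ : Fin r => S).filter
      fun f => MvPolynomial.eval f ν = 0).card * S.card ≤ ν.totalDegree * S.card ^ r := by
    exact_mod_cast h1
  exact_mod_cast h2.trans (Nat.mul_le_mul_right _ hN)

open Classical in
theorem line {K : Type} [Field K] (p f : ℕ) [Fact p.Prime] [CharP K p] {r : ℕ} (S : Finset K)
    (hS : ∀ x, x ∈ S ↔ x ^ p ^ f = x) (T : Set (Fin r → K)) (a : Fin r → K)
    (ha : ∀ k, a k ^ p ^ f = a k) (t : K) (ht : t ∈ S) (h0 : t ≠ 0) :
    ((Fintype.piFinset fun _ : Fin r => S).filter fun v => (fun k => a k + v k * t) ∈ T).card =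
      ((Fintype.piFinset fun _ : Fin r => S).filter fun u => u ∈ T).card := by
  have ht' := (hS t).1 ht
  refine card_nbij' (fun v k => a k + v k * t) (fun u k => (u k - a k) * t⁻¹) ?_ ?_ ?_ ?_
  · intro v hv
    simp only [coe_filter, Fintype.mem_piFinset, Set.mem_ofPred_eq, hS] at hv ⊢
    refine ⟨fun k => ?_, hv.2⟩
    rw [add_pow_char_pow, mul_pow, ha, hv.1, ht']
  · intro u hu
    simp only [coe_filter, Fintype.mem_piFinset, Set.mem_ofPred_eq, hS] at hu ⊢
    refine ⟨fun k => ?_, ?_⟩
    · rw [mul_pow, sub_pow_char_pow, inv_pow, ha, hu.1, ht']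
    · have : (fun k => a k + (u k - a k) * t⁻¹ * t) = u := by
        funext k
        field_simp
        ring
      rw [this]
      exact hu.2
  · intro v _
    funext k
    field_simp
    ring
  · intro u _
    funext k
    field_simp
    ring

theorem fin (g N q M A B Z c s ε : ℝ) (hg : 0 ≤ g) (hq : 0 < q) (hM : 0 ≤ M) (hA : 0 ≤ A)
    (hAM : A ≤ M) (hAB : A ≤ B) (hB : B ≤ A + Z) (hZ : Z * q ≤ N * M) (hc : 0 ≤ c) (hc' : c ≤ M)
    (hs : s = c + (q - 1) * A) (h1 : |g * s - q * M| ≤ ε * q * M + (g + 1) * (N * M))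
    (h2 : g * N + g + (g + 1) * N ≤ ε * q) : |g * B - M| ≤ 2 * ε * M := by
  have h3 := mul_le_mul_of_nonneg_right h2 hM
  obtain ⟨h4, h5⟩ := abs_le.1 h1
  have h6 : g * (q * A) ≤ g * (q * B) := by gcongr
  have h7 : g * (q * B) ≤ g * (q * A + N * M) := by
    gcongr
    nlinarith
  have h8 : g * (s - q * A) ≤ g * M := by
    gcongr
    linarith
  have h9 : g * (q * A - s) ≤ g * M := by
    gcongr
    linarith
  have hN : 0 ≤ g * (N * M) := by
    apply mul_nonneg hg
    nlinarith
  refine abs_le.2 ⟨?_, ?_⟩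
  · refine le_of_mul_le_mul_left ?_ hq
    nlinarith
  · refine le_of_mul_le_mul_left ?_ hq
    nlinarith

end AS8

theorem s8 : S8 := by
  classical
  intro r N g ε _ hε
  obtain ⟨n, hn⟩ := exists_nat_ge (((g : ℝ) * N + g + (g + 1) * N) / ε)
  refine ⟨n + 2, fun p f _ K _ _ _ hq T T' a ν d hν hνN hd hdN ha hT hT' hv => ?_⟩
  obtain ⟨S, hc, hS⟩ := fq p f K (by omega)
  have hc0 : 0 < S.card := by omega
  have hcR : (S.card : ℝ) = (p : ℝ) ^ f := by exact_mod_cast hc
  have z1 := AS8.sz hν hνN S hc0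
  have z2 := AS8.sz hd hdN S hc0
  have hl := AS8.line p f S hS T' a ha
  have hΓ : ∀ v : Fin r → K, v ∈ (Fintype.piFinset fun _ : Fin r => S) ↔
      ∀ k, v k ^ p ^ f = v k := fun v => by
    simp only [Fintype.mem_piFinset, hS]
  have hΓc : ((Fintype.piFinset fun _ : Fin r => S).card : ℝ) = (S.card : ℝ) ^ r := by simp
  generalize (Fintype.piFinset fun _ : Fin r => S) = Γ at z1 z2 hl hΓ hΓc
  have e1 : T.ncard = (Γ.filter fun u => u ∈ T).card := by
    rw [← Set.ncard_coe_finset]
    congr 1
    ext u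
    simp only [coe_filter, Set.mem_ofPred_eq, hΓ]
    exact ⟨fun h => ⟨(hT' u h).1, h⟩, fun h => h.2⟩
  have e2 : ∀ v : Fin r → K, {t : K | t ^ p ^ f = t ∧ (fun k => a k + v k * t) ∈ T'}.ncard =
      (S.filter fun t => (fun k => a k + v k * t) ∈ T').card := fun v => by
    rw [← Set.ncard_coe_finset]
    congr 1
    ext t
    simp only [coe_filter, Set.mem_ofPred_eq, hS]
  have h0 : (0 : K) ∈ S := (hS 0).2 (zero_pow (by omega))
  have e3 : ∑ v ∈ Γ, (S.filter fun t => (fun k => a k + v k * t) ∈ T').card =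
      (Γ.filter fun v => (fun k => a k + v k * 0) ∈ T').card +
        (S.card - 1) * (Γ.filter fun u => u ∈ T').card := by
    calc _ = ∑ t ∈ S, (Γ.filter fun v => (fun k => a k + v k * t) ∈ T').card := by
          simp only [card_filter]
          exact sum_comm
      _ = _ := by
          rw [← add_sum_erase S _ h0, ← card_erase_of_mem h0, ← smul_eq_mul, ← sum_const]
          congr 1
          exact sum_congr rfl fun t ht => hl t (mem_of_mem_erase ht) (ne_of_mem_erase ht)
  have e4 : (Γ.filter fun u => u ∈ T).card ≤ (Γ.filter fun u => u ∈ T').card +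
      (Γ.filter fun u => MvPolynomial.eval u d = 0).card := by
    refine le_trans (card_le_card fun u hu => ?_) (card_union_le _ _)
    obtain ⟨h1, h2⟩ := mem_filter.1 hu
    by_cases h3 : MvPolynomial.eval u d = 0
    · exact mem_union_right _ (mem_filter.2 ⟨h1, h3⟩)
    · exact mem_union_left _ (mem_filter.2 ⟨h1, (hT' u h2).2 h3⟩)
  simp only [e2] at hv
  rw [e1]
  rw [← hcR] at hv ⊢
  have hqR : (0 : ℝ) < S.card := by exact_mod_cast hc0
  have hle : ∀ P : (Fin r → K) → Prop, ((Γ.filter P).card : ℝ) ≤ (S.card : ℝ) ^ r := fun P => by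
    rw [← hΓc]
    exact_mod_cast card_filter_le _ _
  refine AS8.fin g N S.card _ (Γ.filter fun u => u ∈ T').card _
    (Γ.filter fun u => MvPolynomial.eval u d = 0).card
    (Γ.filter fun v => (fun k => a k + v k * 0) ∈ T').card
    (∑ v ∈ Γ, ((S.filter fun t => (fun k => a k + v k * t) ∈ T').card : ℝ)) ε (by positivity) hqR
    (by positivity) (by positivity) (hle _) ?_ (by exact_mod_cast e4) z2 (by positivity) (hle _)
    ?_ ?_ ?_
  · exact_mod_cast card_le_card fun u hu =>
      mem_filter.2 ⟨(mem_filter.1 hu).1, hT (mem_filter.1 hu).2⟩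
  · have := congrArg (Nat.cast : ℕ → ℝ) e3
    push_cast [Nat.cast_sub (show 1 ≤ S.card from hc0)] at this
    exact this
  · have e5 : (g : ℝ) * ∑ v ∈ Γ, ((S.filter fun t => (fun k => a k + v k * t) ∈ T').card : ℝ) -
        S.card * (S.card : ℝ) ^ r =
        ∑ v ∈ Γ, ((g : ℝ) * ((S.filter fun t => (fun k => a k + v k * t) ∈ T').card : ℝ) -
          S.card) := by
      rw [sum_sub_distrib, mul_sum, sum_const, nsmul_eq_mul, hΓc, mul_comm (S.card : ℝ)]
    rw [e5]
    calc _ ≤ ∑ v ∈ Γ, (ε * S.card +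
          if MvPolynomial.eval v ν = 0 then ((g : ℝ) + 1) * S.card else 0) := by
          refine (abs_sum_le_sum_abs _ _).trans (sum_le_sum fun v hv' => ?_)
          split_ifs with h3
          · have h4 : ((S.filter fun t => (fun k => a k + v k * t) ∈ T').card : ℝ) ≤ S.card := by
              exact_mod_cast card_filter_le _ _
            have h5 : (0 : ℝ) ≤ g * (S.filter fun t => (fun k => a k + v k * t) ∈ T').card := by
              positivity
            have h6 := mul_le_mul_of_nonneg_left h4 (Nat.cast_nonneg g)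
            have h7 : 0 ≤ ε * S.card := by positivity
            have h8 : (0 : ℝ) ≤ g * S.card := by positivity
            exact abs_le.2 ⟨by linarith, by linarith⟩
          · rw [add_zero]
            exact hv v ((hΓ v).1 hv') h3
      _ ≤ _ := by
          rw [sum_add_distrib, ← sum_filter, sum_const, sum_const, nsmul_eq_mul, nsmul_eq_mul, hΓc]
          have h4 := mul_le_mul_of_nonneg_left z1 (show (0 : ℝ) ≤ g + 1 by positivity)
          linarith
  · have h1 : (n : ℝ) ≤ S.card := by exact_mod_cast (show n ≤ S.card by omega)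
    have h2 := (div_le_iff₀ hε).1 (hn.trans h1)
    linarith

end Pool.Agent.MP_a9d3bd_g
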