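import Pool.Agent.MP_a9d3bd_g.UCC
import Pool.Agent.MP_a9d3bd_g.AS1
import Pool.Agent.MP_a9d3bd_g.AS2
import Pool.Agent.MP_a9d3bd_g.AS3
import Pool.Agent.MP_a9d3bd_g.AS4
import Pool.Agent.MP_a9d3bd_g.AS5
import Pool.Agent.MP_a9d3bd_g.AS6
import Pool.Agent.MP_a9d3bd_g.AS7
import Pool.Agent.MP_a9d3bd_g.AS8

namespace Pool.Agent.MP_a9d3bd_g

open Polynomial

/-- A6: Chebotarev over an affine space, uniform in the degrees. -/
theorem CC (p n D M : ℕ) [Fact p.Prime] (hM : 0 < M) (ε : ℝ) (hε : 0 < ε) (K : Type) [Field K]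
    [IsAlgClosed K] [CharP K p] : ∃ q₀ : ℕ, ∀ f : ℕ, q₀ ≤ p ^ f →
    ∀ (ι : Type) [Fintype ι] [DecidableEq ι] (h : ι → (MvPolynomial (Fin M) K)[X]),
    (∀ i, (h i).Monic) → Full n h → (∀ i a, ((h i).coeff a).totalDegree ≤ D) →
    (∀ i a d, MvPolynomial.coeff d ((h i).coeff a) ^ p ^ f = MvPolynomial.coeff d ((h i).coeff a)) →
    |({t : Fin M → K | (∀ i, t i ^ p ^ f = t i) ∧
        Spl (p ^ f) n ((∏ i, h i).map (MvPolynomial.eval t))}.ncard : ℝ) *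
      ∏ i, ((h i).natDegree.factorial : ℝ) - (p ^ f : ℝ) ^ M| ≤ ε * (p ^ f : ℝ) ^ M :=
  cc_of_uc (uc (s3 s1 s2) (s5 s4) s6 s7 s8) p n D M hM ε hε K

end Pool.Agent.MP_a9d3bd_g
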