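import Pool.Agent.MP_a9d3bd_g.GxSt

namespace Pool.Agent.MP_a9d3bd_g.Gx

open Polynomial

section

open Finset in
theorem gINE : INE_st := by
  intro R B K G _ _ _ _ _ _ _ hG hinv hinj φ hs D hD x y z hx hy hz hDx
  classical
  by_contra h0
  have h1 : ∀ g : G, g ≠ 1 → ∃ c : B, φ c = 1 ∧ φ (g • c) = 0 := by
    intro g hg
    obtain ⟨b, hb⟩ := not_forall.1 fun h => h0 ⟨g, hg, h⟩
    obtain ⟨r, hr⟩ := hs (φ (g • b))
    obtain ⟨s, hs'⟩ := hs (φ b - φ (g • b))⁻¹
    refine ⟨algebraMap R B s * (b - algebraMap R B r), ?_, ?_⟩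
    · rw [map_mul, map_sub, hr, hs', inv_mul_cancel₀ (sub_ne_zero.2 (Ne.symm hb))]
    · rw [smul_mul', smul_sub, hG g r, map_mul, map_sub, hr, sub_self, mul_zero]
  choose! c c1 c2 using h1
  obtain ⟨e, e1, e2⟩ : ∃ e : B, φ e = 1 ∧ ∀ g : G, g ≠ 1 → φ (g • e) = 0 := by
    refine ⟨∏ g ∈ univ.erase (1 : G), c g, ?_, fun g hg => ?_⟩
    · rw [map_prod]
      exact prod_eq_one fun g hg => c1 g (ne_of_mem_erase hg)
    · rw [smul_prod', map_prod]
      exact prod_eq_zero (mem_erase.2 ⟨hg, mem_univ g⟩) (c2 g hg)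
  have nrm : ∀ b : B, φ b = 0 → (∀ g : G, g ≠ 1 → φ (g • b) = 1) →
      ∃ (p : R) (t : B), φ (algebraMap R B p) = 0 ∧ φ t = 1 ∧ t * b = algebraMap R B p := by
    intro b b0 b1
    obtain ⟨p, hp⟩ := hinv (∏ g : G, g • b) fun g => by
      rw [smul_prod']
      exact Fintype.prod_bijective _ (Group.mulLeft_bijective g) _ _ fun h => (mul_smul g h b).symm
    have h2 : (∏ g ∈ univ.erase (1 : G), g • b) * b = algebraMap R B p := by
      rw [hp, ← prod_erase_mul univ _ (mem_univ (1 : G)), one_smul]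
    refine ⟨p, _, by rw [← h2, map_mul, b0, mul_zero], ?_, h2⟩
    rw [map_prod]
    exact prod_eq_one fun g hg => b1 g (ne_of_mem_erase hg)
  have tr : ∀ b : B, ∃ r, algebraMap R B r = ∑ g : G, g • b := fun b => hinv _ fun g => by
    rw [smul_sum]
    exact Fintype.sum_bijective _ (Group.mulLeft_bijective g) _ _ fun h => (mul_smul g h b).symm
  choose T hT using tr
  have key : ∀ (p q : R) (b : B), φ (algebraMap R B p) = 0 → φ (algebraMap R B q) = 0 →
      D (p * q * T b) = 0 := by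
    intro p q b hp hq
    rw [mul_assoc, hD, hp, map_mul (algebraMap R B), map_mul φ, hq, zero_mul, zero_mul, zero_mul,
      add_zero]
  have n1 : ∀ b : B, φ b = 0 → ∃ (p : R) (t : B), φ (algebraMap R B p) = 0 ∧ φ t = 1 ∧
      t * (e * b + (1 - e)) = algebraMap R B p := fun b hb => nrm _
    (by rw [map_add, map_mul, hb, map_sub, map_one, e1]; ring) fun g hg => by
      rw [smul_add, smul_mul', smul_sub, smul_one, map_add, map_mul, map_sub, map_one, e2 g hg]
      ring
  obtain ⟨p0, t0, a0, b0, d0⟩ := n1 0 (map_zero φ)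
  obtain ⟨p1, t1, a1, b1, d1⟩ := n1 y hy
  obtain ⟨p2, t2, a2, b2, d2⟩ := n1 z hz
  have eq : x * T (e * e * t0 * t0 * t1 * t2) = p1 * p2 * T (t0 * t0) - p1 * p0 * T (t0 * t2) -
      p0 * p2 * T (t0 * t1) + p0 * p0 * T (t1 * t2) := by
    apply hinj
    simp only [map_mul, map_add, map_sub, hT, mul_sum, ← sum_sub_distrib, ← sum_add_distrib]
    refine sum_congr rfl fun g _ => ?_
    rw [← hG g x, ← hG g p0, ← hG g p1, ← hG g p2]
    simp only [← smul_mul', ← smul_sub, ← smul_add]
    rw [hx, ← d0, ← d1, ← d2]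
    congr 1
    ring
  have h3 : φ (algebraMap R B (T (e * e * t0 * t0 * t1 * t2))) = 1 := by
    rw [hT, map_sum, sum_eq_single (1 : G)]
    · simp only [one_smul, map_mul, e1, b0, b1, b2, mul_one]
    · intro g _ hg
      simp only [smul_mul', map_mul, e2 g hg, zero_mul]
    · exact fun h => absurd (mem_univ _) h
  have h4 := congrArg D eq
  rw [hD, h3, hx, map_mul, hy, map_add, map_sub, map_sub, key _ _ _ a1 a2, key _ _ _ a1 a0,
    key _ _ _ a0 a2, key _ _ _ a0 a0] at h4
  exact hDx (by simpa using h4)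

end

section

theorem ext_GPHI {R B K : Type} [CommRing R] [CommRing B] [Field K] [IsAlgClosed K] [Algebra R B]
    [Algebra.IsIntegral R B] (hi : Function.Injective (algebraMap R B)) (e : R →+* K)
    (he : Function.Surjective e) : ∃ φ : B →+* K, ∀ r, φ (algebraMap R B r) = e r := by
  have hP := RingHom.ker_isMaximal_of_surjective e he
  obtain ⟨Q, hQ, hc⟩ := Ideal.exists_ideal_over_maximal_of_isIntegral (S := B) (RingHom.ker e)
    (by rw [(RingHom.injective_iff_ker_eq_bot _).1 hi]; exact bot_le)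
  have hk : ∀ r, e r = 0 → ((Ideal.Quotient.mk Q).comp (algebraMap R B)) r = 0 := by
    intro r hr
    have : r ∈ Q.comap (algebraMap R B) := by
      rw [hc]
      exact hr
    exact Ideal.Quotient.eq_zero_iff_mem.2 this
  obtain ⟨ψ, hψ⟩ : ∃ ψ : K →+* B ⧸ Q, ∀ r, ψ (e r) = Ideal.Quotient.mk Q (algebraMap R B r) :=
    ⟨e.liftOfSurjective he ⟨_, fun r hr => hk r hr⟩, fun r =>
      e.liftOfRightInverse_comp_apply _ _ _ r⟩
  have hint : ψ.IsIntegral := by
    intro x
    obtain ⟨b, rfl⟩ := Ideal.Quotient.mk_surjective x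
    obtain ⟨p, hp, h0⟩ := Algebra.IsIntegral.isIntegral (R := R) b
    refine ⟨p.map e, hp.map e, ?_⟩
    have h1 : ψ.comp e = (Ideal.Quotient.mk Q).comp (algebraMap R B) := RingHom.ext hψ
    rw [eval₂_map, h1, ← hom_eval₂, h0, map_zero]
  have hb := IsAlgClosed.ringHom_bijective_of_isIntegral ψ hint
  refine ⟨(RingEquiv.ofBijective ψ hb).symm.toRingHom.comp (Ideal.Quotient.mk Q), fun r => ?_⟩
  change (RingEquiv.ofBijective ψ hb).symm (Ideal.Quotient.mk Q (algebraMap R B r)) = e r
  rw [← hψ]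
  exact (RingEquiv.ofBijective ψ hb).symm_apply_apply (e r)

theorem gPHI : PHI_st := by
  intro K L _ _ _ M _ t hi
  refine ext_GPHI (fun a b h => hi (congrArg Subtype.val h)) (MvPolynomial.eval t) fun c => ?_
  exact ⟨MvPolynomial.C c, MvPolynomial.eval_C c⟩

end

section

theorem gDBL : DBL_st := by
  intro K _ n y s g h hg hs
  classical
  have g0 : g ≠ 0 := hg.ne_zero
  have nd : g.roots.Nodup := nodup_roots hg
  have hr : Finset.univ.val.map y = s ::ₘ g.roots := by
    have e := roots_multiset_prod_X_sub_C (Finset.univ.val.map y)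
    rw [Multiset.map_map] at e
    change (∏ j, (X - C (y j))).roots = _ at e
    rw [← e, h, roots_mul (mul_ne_zero (X_sub_C_ne_zero s) g0), roots_X_sub_C,
      Multiset.singleton_add]
  have cnt : ∀ c, (Finset.univ.filter fun j => c = y j).card = (s ::ₘ g.roots).count c :=
    fun c => by
      rw [← hr, Multiset.count_map]
      rfl
  have h2 := cnt s
  rw [Multiset.count_cons_self, Multiset.count_eq_one_of_mem nd ((mem_roots g0).2 hs)] at h2
  obtain ⟨a, b, ab, e⟩ := Finset.card_eq_two.1 h2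
  have m : ∀ j, y j = s ↔ j = a ∨ j = b := fun j => by
    have := Finset.ext_iff.1 e j
    simpa [eq_comm] using this
  have ha : y a = s := (m a).2 (Or.inl rfl)
  have hb : y b = s := (m b).2 (Or.inr rfl)
  refine ⟨a, b, ab, ha, hb, fun σ h1 hσ => ?_⟩
  have fix : ∀ j, j ≠ a → j ≠ b → σ j = j := fun j ja jb => by
    have ns : y j ≠ s := fun c => ((m j).1 c).elim ja jb
    have h3 := cnt (y j)
    rw [Multiset.count_cons_of_ne ns] at h3
    exact Finset.card_le_one.1 (h3.trans_le (Multiset.nodup_iff_count_le_one.1 nd _)) _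
      (by simp [hσ]) _ (by simp)
  have sa := (m (σ a)).1 ((hσ a).trans ha)
  have sb := (m (σ b)).1 ((hσ b).trans hb)
  have ne : σ a ≠ σ b := σ.injective.ne ab
  have k : σ a = b ∧ σ b = a := by
    rcases sa with sa | sa <;> rcases sb with sb | sb
    · exact (ne (sa.trans sb.symm)).elim
    · refine (h1 (Equiv.ext fun j => ?_)).elim
      by_cases ja : j = a
      · rw [ja, sa]; rfl
      by_cases jb : j = b
      · rw [jb, sb]; rfl
      exact fix j ja jb
    · exact ⟨sa, sb⟩
    · exact (ne (sa.trans sb.symm)).elim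
  refine Equiv.ext fun j => ?_
  by_cases ja : j = a
  · rw [ja, k.1, Equiv.swap_apply_left]
  by_cases jb : j = b
  · rw [jb, k.2, Equiv.swap_apply_right]
  rw [fix j ja jb, Equiv.swap_apply_of_ne_of_ne ja jb]

end

section

theorem core_GSWP (h1 : INE_st) (h3 : DBL_st) (R F K L : Type) [CommRing R] [IsDomain R]
    [IsIntegrallyClosed R] [Field F] [Algebra R F] [IsFractionRing R F] [Field K] [Field L]
    [Algebra R L] [Algebra F L] [IsScalarTower R F L] [IsGalois F L] [FiniteDimensional F L]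
    (n : ℕ) (f : R[X]) (z : Fin n → L) (e : R →+* K) (c : K →+* R) (hc : ∀ x, e (c x) = x)
    (s : K) (g : K[X]) (hf : f.Monic) (hz : Function.Injective z)
    (hfz : f.map (algebraMap R L) = ∏ j, (X - C (z j)))
    (hG : ∀ γ : L ≃ₐ[F] L, (∀ j, γ (z j) = z j) → γ = 1)
    (hfe : f.map e = (X - C s) * g) (hg : g.Separable) (hgs : g.eval s = 0)
    (D : R →+ K) (hD : ∀ a b, D (a * b) = e a * D b + e b * D a) (hD0 : D (f.eval (c s)) ≠ 0)
    (φ : integralClosure R L →+* K) (hφ : ∀ r, φ (algebraMap R (integralClosure R L) r) = e r) :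
    ∃ a b, a ≠ b ∧ (∃ γ : L ≃ₐ[F] L, ∀ j, γ (z j) = z (Equiv.swap a b j)) ∧
      ∀ q : R[X], (q.map (algebraMap R L)).eval (z a) = 0 ∨
        (q.map (algebraMap R L)).eval (z b) = 0 → (q.map e).eval s = 0 := by
  classical
  have hRL : Function.Injective (algebraMap R L) := by
    rw [IsScalarTower.algebraMap_eq R F L]
    exact (algebraMap F L).injective.comp (IsFractionRing.injective R F)
  have hroot : ∀ x : L, (f.map (algebraMap R L)).eval x = 0 ↔ ∃ j, z j = x := by
    intro x
    rw [hfz, eval_prod, Finset.prod_eq_zero_iff]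
    simp only [Finset.mem_univ, true_and, eval_sub, eval_X, eval_C, sub_eq_zero]
    exact exists_congr fun j => eq_comm
  have hint : ∀ j, z j ∈ integralClosure R L := fun j =>
    ⟨f, hf, by rw [← eval_map]; exact (hroot _).2 ⟨j, rfl⟩⟩
  let w : Fin n → integralClosure R L := fun j => ⟨z j, hint j⟩
  have hval : Function.Injective (algebraMap (integralClosure R L) L) := Subtype.val_injective
  have hcomp : (algebraMap (integralClosure R L) L).comp (algebraMap R (integralClosure R L)) =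
      algebraMap R L := (IsScalarTower.algebraMap_eq R (integralClosure R L) L).symm
  have hφc : φ.comp (algebraMap R (integralClosure R L)) = e := RingHom.ext hφ
  have hfw : f.map (algebraMap R (integralClosure R L)) = ∏ j, (X - C (w j)) := by
    apply Polynomial.map_injective _ hval
    rw [map_map, hcomp, hfz, Polynomial.map_prod]
    refine Finset.prod_congr rfl fun j _ => ?_
    rw [Polynomial.map_sub, map_X, map_C]
    rfl
  have hfy : ∏ j, (X - C (φ (w j))) = (X - C s) * g := by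
    rw [← hfe, ← hφc, ← map_map, hfw, Polynomial.map_prod]
    refine Finset.prod_congr rfl fun j _ => ?_
    rw [Polynomial.map_sub, map_X, map_C]
  obtain ⟨a, b, hab, ha, hb, hσ⟩ := h3 K n (fun j => φ (w j)) s g hfy hg hgs
  have hev : ∀ (q : R[X]) (j : Fin n), (q.map (algebraMap R L)).eval (z j) = 0 →
      (q.map e).eval (φ (w j)) = 0 := by
    intro q j hq
    have h0 : (q.map (algebraMap R (integralClosure R L))).eval (w j) = 0 := by
      apply hval
      rw [map_zero, ← eval_map_apply, map_map, hcomp]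
      exact hq
    rw [← hφc, ← map_map, eval_map_apply, h0, map_zero]
  refine ⟨a, b, hab, ?_, ?_⟩
  · have hx : algebraMap R (integralClosure R L) (f.eval (c s)) =
        (algebraMap R (integralClosure R L) (c s) - w a) *
          ∏ j ∈ Finset.univ.erase a, (algebraMap R (integralClosure R L) (c s) - w j) := by
      rw [← eval_map_apply, hfw, eval_prod, ← Finset.mul_prod_erase _ _ (Finset.mem_univ a)]
      simp only [eval_sub, eval_X, eval_C]
    obtain ⟨γ, hγ1, hγ⟩ := h1 R (integralClosure R L) K (L ≃ₐ[F] L)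
      (fun γ r => Subtype.ext (by
        change γ (algebraMap R L r) = algebraMap R L r
        rw [IsScalarTower.algebraMap_apply R F L, AlgEquiv.commutes]))
      (fun x hx => by
        obtain ⟨y, hy⟩ := (IsGalois.mem_range_algebraMap_iff_fixed (F := F) (x : L)).2
          fun γ => congrArg Subtype.val (hx γ)
        have hyi : IsIntegral R y := by
          have h5 : IsIntegral R (algebraMap F L y) := by rw [hy]; exact x.2
          exact (isIntegral_algebraMap_iff (algebraMap F L).injective).1 h5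
        obtain ⟨r, hr⟩ := IsIntegrallyClosed.algebraMap_eq_of_integral hyi
        refine ⟨r, Subtype.ext ?_⟩
        change algebraMap R L r = (x : L)
        rw [IsScalarTower.algebraMap_apply R F L, hr, hy])
      (fun x y hxy => hRL (congrArg Subtype.val hxy)) φ
      (fun x => ⟨c x, by rw [hφ, hc]⟩) D (fun x y => by rw [hφ, hφ, hD]) _ _ _ hx
      (by rw [map_sub, hφ, hc, ha, sub_self])
      (by
        rw [map_prod]
        refine Finset.prod_eq_zero (Finset.mem_erase.2 ⟨hab.symm, Finset.mem_univ b⟩) ?_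
        rw [map_sub, hφ, hc, hb, sub_self]) hD0
    have hperm : ∀ j, ∃ i, z i = γ (z j) := by
      intro j
      apply (hroot _).1
      have hm : (γ : L →+* L).comp (algebraMap R L) = algebraMap R L := by
        ext r
        change γ (algebraMap R L r) = algebraMap R L r
        rw [IsScalarTower.algebraMap_apply R F L, AlgEquiv.commutes]
      have h6 := eval_map_apply (p := f.map (algebraMap R L)) (γ : L →+* L) (z j)
      rw [map_map, hm, (hroot _).2 ⟨j, rfl⟩, map_zero] at h6
      exact h6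
    choose τ hτ using hperm
    have hτi : Function.Injective τ := by
      intro i j hij
      apply hz
      apply γ.injective
      rw [← hτ, ← hτ, hij]
    let σ : Equiv.Perm (Fin n) := Equiv.ofBijective τ (Finite.injective_iff_bijective.1 hτi)
    have hσ1 : σ ≠ 1 := by
      intro h
      apply hγ1
      apply hG
      intro j
      have h7 : τ j = j := congrArg (fun p : Equiv.Perm (Fin n) => p j) h
      rw [← hτ, h7]
    have hσ2 : σ = Equiv.swap a b := by
      refine hσ σ hσ1 fun j => ?_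
      have h8 : w (τ j) = γ • w j := Subtype.ext (hτ j)
      change φ (w (τ j)) = φ (w j)
      rw [h8, hγ]
    refine ⟨γ, fun j => ?_⟩
    rw [← hσ2, ← hτ]
    rfl
  · intro q hq
    rcases hq with hq | hq
    · have := hev q a hq
      rwa [show φ (w a) = s from ha] at this
    · have := hev q b hq
      rwa [show φ (w b) = s from hb] at this

theorem gSWP (h1 : INE_st) (h2 : PHI_st) (h3 : DBL_st) : SWP_st := by
  intro K L _ _ _ M n _ _ _ _ _ f z t s g hf hz hfz hG hfe hg hgs hk
  obtain ⟨k, hk⟩ := hk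
  have hRL : Function.Injective (algebraMap (MP M K) L) := by
    rw [IsScalarTower.algebraMap_eq (MP M K) (FP M K) L]
    exact (algebraMap (FP M K) L).injective.comp (IsFractionRing.injective (MP M K) (FP M K))
  obtain ⟨φ, hφ⟩ := h2 K L M t hRL
  let D : MP M K →+ K :=
    { toFun := fun p => MvPolynomial.eval t (MvPolynomial.pderiv k p)
      map_zero' := by simp
      map_add' := fun a b => by simp }
  refine core_GSWP h1 h3 (MP M K) (FP M K) K L n f z (MvPolynomial.eval t) MvPolynomial.C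
    (fun x => MvPolynomial.eval_C x) s g hf hz hfz hG hfe hg hgs D ?_ hk φ hφ
  intro a b
  change MvPolynomial.eval t (MvPolynomial.pderiv k (a * b)) =
    MvPolynomial.eval t a * MvPolynomial.eval t (MvPolynomial.pderiv k b) +
      MvPolynomial.eval t b * MvPolynomial.eval t (MvPolynomial.pderiv k a)
  rw [Derivation.leibniz, smul_eq_mul, smul_eq_mul, map_add, map_mul, map_mul]

end

section

theorem ev_eq_GEXT {k W : Type} [CommRing k] [CommRing W] (φ : k →+* W) (Q : k[X][X]) (x y : W) :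
    ev φ Q x y = Q.eval₂ (eval₂RingHom φ x) y := by
  rw [ev, ← eval₂_evalRingHom, eval₂_map]
  congr 1
  ext <;> simp

theorem one_GEXT (h1 : KER_st) (k W : Type) [Field k] [Field W] (φ : k →+* W) (P : k[X][X])
    [IsDomain (AdjoinRoot P)] (x y : W) (hP : Irreducible P) (hu : IsUnit P.leadingCoeff)
    (hx : Trn φ x) (h0 : ev φ P x y = 0) :
    ∃ ψ : FractionRing (AdjoinRoot P) →+* W,
      (∀ Q : k[X][X], ψ (algebraMap (AdjoinRoot P) _ (AdjoinRoot.mk P Q)) =
        Q.eval₂ (eval₂RingHom φ x) y) ∧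
      ∀ E : Subfield W, (∀ c, φ c ∈ E) → x ∈ E → y ∈ E → ∀ c, ψ c ∈ E := by
  have h0' : P.eval₂ (eval₂RingHom φ x) y = 0 := by rw [← ev_eq_GEXT, h0]
  have hinj : Function.Injective (AdjoinRoot.lift (eval₂RingHom φ x) y h0') := by
    rw [injective_iff_map_eq_zero]
    intro a ha
    obtain ⟨Q, rfl⟩ := AdjoinRoot.mk_surjective a
    rw [AdjoinRoot.lift_mk, ← ev_eq_GEXT] at ha
    exact AdjoinRoot.mk_eq_zero.2 (h1 k W φ P Q x y hP hu hx h0 ha)
  have hψ : ∀ Q : k[X][X], IsFractionRing.lift (K := FractionRing (AdjoinRoot P)) hinj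
      (algebraMap (AdjoinRoot P) _ (AdjoinRoot.mk P Q)) = Q.eval₂ (eval₂RingHom φ x) y :=
    fun Q => by rw [IsFractionRing.lift_algebraMap, AdjoinRoot.lift_mk]
  refine ⟨IsFractionRing.lift hinj, hψ, fun E hE hxE hyE c => ?_⟩
  have hq : ∀ q : k[X], eval₂RingHom φ x q ∈ E := fun q => by
    rw [coe_eval₂RingHom, eval₂_eq_sum_range]
    exact sum_mem fun i _ => mul_mem (hE _) (pow_mem hxE _)
  have hQ : ∀ a : AdjoinRoot P, IsFractionRing.lift (K := FractionRing (AdjoinRoot P)) hinj
      (algebraMap (AdjoinRoot P) _ a) ∈ E := fun a => by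
    obtain ⟨Q, rfl⟩ := AdjoinRoot.mk_surjective a
    rw [hψ, eval₂_eq_sum_range]
    exact sum_mem fun i _ => mul_mem (hq _) (pow_mem hyE _)
  obtain ⟨a, b, -, rfl⟩ := IsFractionRing.div_surjective (A := AdjoinRoot P) c
  rw [map_div₀]
  exact div_mem (hQ a) (hQ b)

theorem gEXT (h1 : KER_st) : EXT_st := by
  intro k W _ _ φ φ' P x y x' y' hP hu hx hx' h0 h0'
  have : IsDomain (AdjoinRoot P) := AdjoinRoot.isDomain_of_prime hP.prime
  obtain ⟨ψ, hψ, hE⟩ := one_GEXT h1 k W φ P x y hP hu hx h0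
  obtain ⟨ψ', hψ', hE'⟩ := one_GEXT h1 k W φ' P x' y' hP hu hx' h0'
  refine ⟨FractionRing (AdjoinRoot P), inferInstance,
    (algebraMap (AdjoinRoot P) _).comp ((AdjoinRoot.mk P).comp (C.comp C)), ψ, ψ',
    algebraMap (AdjoinRoot P) _ (AdjoinRoot.mk P (C X)),
    algebraMap (AdjoinRoot P) _ (AdjoinRoot.mk P X), ?_, ?_, ?_, ?_, ?_, ?_, hE, hE'⟩
  · refine RingHom.ext fun c => ?_
    simp only [RingHom.comp_apply]
    rw [hψ, eval₂_C, coe_eval₂RingHom, eval₂_C]
  · refine RingHom.ext fun c => ?_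
    simp only [RingHom.comp_apply]
    rw [hψ', eval₂_C, coe_eval₂RingHom, eval₂_C]
  · rw [hψ, eval₂_C, coe_eval₂RingHom, eval₂_X]
  · rw [hψ, eval₂_X]
  · rw [hψ', eval₂_C, coe_eval₂RingHom, eval₂_X]
  · rw [hψ', eval₂_X]

end

section

theorem gAUT : AUT_st := by
  intro K L k _ _ _ M _ _ _ _ _ _ j ψ ψ' T h1 h1' h2 h2'
  have key : ∀ φ : k →+* L, φ.comp j = algebraMap K L →
      (∀ i, φ (T i) = algebraMap (MP M K) L (MvPolynomial.X i)) →
      φ.comp (MvPolynomial.eval₂Hom j T) = algebraMap (MP M K) L := by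
    intro φ a b
    refine MvPolynomial.ringHom_ext (fun c => ?_) fun i => ?_
    · rw [RingHom.comp_apply, MvPolynomial.eval₂Hom_C, ← RingHom.comp_apply, a]
      exact IsScalarTower.algebraMap_apply K (MP M K) L c
    · rw [RingHom.comp_apply, MvPolynomial.eval₂Hom_X', b]
  have hL : Function.Injective (algebraMap (MP M K) L) := by
    rw [IsScalarTower.algebraMap_eq (MP M K) (FP M K) L, RingHom.coe_comp]
    exact (algebraMap (FP M K) L).injective.comp (IsFractionRing.injective (MP M K) (FP M K))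
  have he : Function.Injective (MvPolynomial.eval₂Hom j T : MP M K →+* k) := by
    rw [← key ψ h1 h2, RingHom.coe_comp] at hL
    exact hL.of_comp
  have key2 : ∀ φ : k →+* L, φ.comp (MvPolynomial.eval₂Hom j T) = algebraMap (MP M K) L →
      φ.comp (IsFractionRing.lift (K := FP M K) he) = algebraMap (FP M K) L := by
    intro φ a
    refine IsLocalization.ringHom_ext (nonZeroDivisors (MP M K)) (RingHom.ext fun x => ?_)
    rw [RingHom.comp_apply, RingHom.comp_apply, IsFractionRing.lift_algebraMap,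
      ← RingHom.comp_apply, a, RingHom.comp_apply]
    exact IsScalarTower.algebraMap_apply (MP M K) (FP M K) L x
  have k1 := key2 ψ (key ψ h1 h2)
  have k2 := key2 ψ' (key ψ' h1' h2')
  let _ : Algebra (FP M K) k := (IsFractionRing.lift (K := FP M K) he).toAlgebra
  let _ : Algebra k L := ψ.toAlgebra
  have : IsScalarTower (FP M K) k L := IsScalarTower.of_algebraMap_eq' k1.symm
  let φ : k →ₐ[FP M K] L := { ψ' with commutes' := fun r => RingHom.congr_fun k2 r }
  let γ : L →ₐ[FP M K] L := AlgHom.liftNormal φ L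
  refine ⟨AlgEquiv.ofBijective γ (Algebra.IsAlgebraic.algHom_bijective γ), fun c => ?_⟩
  exact AlgHom.liftNormal_commutes φ L c

end

section

theorem card_GTWO (M : ℕ) :
    (Finset.univ.filter fun i : Fin M => 2 ≤ i.1).card ≤ M - 2 := by
  rw [← Nat.card_Ico]
  refine Finset.card_le_card_of_injOn (fun i => i.1) (fun i hi => ?_) fun i _ j _ h => Fin.ext h
  have hi' : 2 ≤ i.1 := by simpa using hi
  simpa using hi'

theorem gTWO (h1 : TRD_st) (h2 : LIN_st) : TWO_st := by
  classical
  intro K W _ _ _ M P a w t x y hM ht hP hxy hx hy sx sy k _ ψ hψ q hq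
  by_contra q0
  have hc : (insert x ((Finset.univ.filter fun i : Fin M => 2 ≤ i.1).image t)).card < M := by
    have a1 := Finset.card_insert_le x ((Finset.univ.filter fun i : Fin M => 2 ≤ i.1).image t)
    have a2 := Finset.card_image_le (s := Finset.univ.filter fun i : Fin M => 2 ≤ i.1) (f := t)
    have a3 := card_GTWO M
    omega
  obtain ⟨E, e1, e2, e3, i, hi⟩ := h1 K W M t _ ht hc
  obtain ⟨-, -, l3, l4⟩ := h2 K W M t a w E e1
  have xE : x ∈ E := e2 x (Finset.mem_insert_self _ _)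
  have tE : ∀ i : Fin M, 2 ≤ i.1 → t i ∈ E := fun i hi =>
    e2 _ (Finset.mem_insert_of_mem (Finset.mem_image_of_mem t (by simpa using hi)))
  rw [sub_eval] at sx sy
  have ax := l4 P hP e3 x xE _ sx
  have cE := hψ E e1 tE xE ax
  have yE : y ∈ E := by
    refine e3 (q.map ψ) ((Polynomial.map_ne_zero_iff ψ.injective).2 q0) (fun n => ?_) y ?_
    · rw [coeff_map]
      exact cE _
    · rw [eval_map]
      exact hq
  exact hi (l3 x xE y yE hxy hx hy ax (l4 P hP e3 y yE _ sy) tE i)

end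

section

theorem coeff_GFIX {W : Type} [CommRing W] {M : ℕ} (t : Fin M → W) (n : ℕ) :
    (gam t).coeff n = ∑ k : Fin M, if n = k.1 then t k else 0 := by
  simp only [gam, finsetSum_coeff, coeff_C_mul, coeff_X_pow, mul_ite, mul_one, mul_zero]

theorem coeff2_GFIX {W : Type} [CommRing W] {M : ℕ} (t : Fin M → W) (i : Fin M) :
    (gam t).coeff i.1 = t i := by
  rw [coeff_GFIX, Finset.sum_eq_single i]
  · simp
  · intro b _ hb
    rw [if_neg]
    exact fun h => hb (Fin.ext h.symm)
  · intro h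
    exact absurd (Finset.mem_univ i) h

theorem two_GFIX {W : Type} [Field W] {M : ℕ} (s t : Fin M → W) (x y : W) (hxy : x ≠ y)
    (hx : (gam s).eval x = (gam t).eval x) (hy : (gam s).eval y = (gam t).eval y)
    (h : ∀ i : Fin M, 2 ≤ i.1 → s i = t i) (i : Fin M) : s i = t i := by
  classical
  have h0 : gam s - gam t = 0 := by
    refine eq_zero_of_natDegree_lt_card_of_eval_eq_zero' _ {x, y} ?_ ?_
    · intro z hz
      rcases Finset.mem_insert.1 hz with rfl | hz
      · rw [eval_sub, hx, sub_self]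
      · rw [Finset.mem_singleton.1 hz, eval_sub, hy, sub_self]
    · rw [Finset.card_pair hxy]
      refine Nat.lt_succ_of_le ?_
      rw [natDegree_le_iff_coeff_eq_zero]
      intro n hn
      rw [coeff_sub, coeff_GFIX, coeff_GFIX, sub_eq_zero]
      refine Finset.sum_congr rfl fun k _ => ?_
      split_ifs with hk
      · exact h k (by omega)
      · rfl
  rw [← coeff2_GFIX s i, ← coeff2_GFIX t i, sub_eq_zero.1 h0]

theorem ev_GFIX {K W k : Type} [Field K] [Field W] [Algebra K W] [Field k] [Algebra K k] {M : ℕ}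
    (a w : K[X]) (T : Fin M → k) (ψ : k →+* W) (hψ : ψ.comp (algebraMap K k) = algebraMap K W)
    (u : k) : (alp a w fun i => ψ (T i)).eval (ψ u) = ψ ((alp a w T).eval u) := by
  rw [← alp_map ψ hψ, eval_map, eval₂_at_apply]

theorem aev_GFIX {K W k : Type} [Field K] [Field W] [Algebra K W] [Field k] [Algebra K k]
    (w : K[X]) (ψ : k →+* W) (hψ : ψ.comp (algebraMap K k) = algebraMap K W)
    (u : k) : aeval (ψ u) w = ψ (aeval u w) := by
  rw [aeval_def, aeval_def, ← hψ, hom_eval₂]

theorem gFIX (h1 : LIN_st) : FIX_st := by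
  intro K W k _ _ _ _ M a w t j ψ ψ' u₁ v₁ u₂ v₂ hψ hψ' hne hw1 hw2 e1 e2 e1' e2' hT
  have hE := (h1 K W M t a w ψ.fieldRange (fun c => ⟨j c, by rw [← hψ]; rfl⟩)).2.2.1
    (ψ u₁) ⟨u₁, rfl⟩ (ψ u₂) ⟨u₂, rfl⟩ (fun h => hne (ψ.injective h)) hw1 hw2 ⟨v₁, e1⟩ ⟨v₂, e2⟩
    (fun i hi => by
      obtain ⟨T, h, -⟩ := hT i hi
      exact ⟨T, h⟩)
  choose T hTt using hE
  have hT2 : ∀ i : Fin M, 2 ≤ i.1 → ψ' (T i) = t i := by
    intro i hi
    obtain ⟨S, hS, hS'⟩ := hT i hi
    have : T i = S := ψ.injective ((hTt i).trans hS.symm)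
    rw [this, hS']
  let _ : Algebra K k := j.toAlgebra
  have hψ0 : ψ.comp (algebraMap K k) = algebraMap K W := hψ
  have hψ1 : ψ'.comp (algebraMap K k) = algebraMap K W := hψ'
  have ht : t = fun i => ψ (T i) := funext fun i => (hTt i).symm
  have key : ∀ u v : k, aeval (ψ u) w ≠ 0 → ψ v = (alp a w t).eval (ψ u) →
      ψ' v = (alp a w t).eval (ψ' u) →
      (gam fun i => ψ' (T i)).eval (ψ' u) = (gam t).eval (ψ' u) := by
    intro u v hw e e'
    have hv : v = (alp a w T).eval u := by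
      apply ψ.injective
      rw [e, ← ev_GFIX a w T ψ hψ0 u, ← ht]
    have hw' : aeval (ψ' u) w ≠ 0 := by
      rw [aev_GFIX w ψ hψ0] at hw
      rw [aev_GFIX w ψ' hψ1]
      intro h
      apply hw
      rw [(map_eq_zero ψ').1 h, map_zero]
    rw [hv, ← ev_GFIX a w T ψ' hψ1 u] at e'
    simp only [alp, eval_add, eval_mul, eval_map_algebraMap] at e'
    exact mul_left_cancel₀ hw' (add_left_cancel e')
  intro i
  exact ⟨T i, hTt i, two_GFIX (fun i => ψ' (T i)) t (ψ' u₁) (ψ' u₂)
    (fun h => hne (ψ'.injective h)) (key u₁ v₁ hw1 e1 e1') (key u₂ v₂ hw2 e2 e2') hT2 i⟩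

end

section

theorem ev_GT2 {K k W : Type} [CommRing K] [CommRing k] [CommRing W] (j : K →+* k) (ψ : k →+* W)
    (P : K[X][X]) (x y : W) : ev ψ (P.map (mapRingHom j)) x y = ev (ψ.comp j) P x y := by
  rw [ev, ev, map_map, mapRingHom_comp]

theorem lead_GT2 {K k : Type} [Field K] [Field k] (j : K →+* k) (P : K[X][X])
    (h : IsUnit P.leadingCoeff) : IsUnit (P.map (mapRingHom j)).leadingCoeff := by
  rw [leadingCoeff_map_of_injective (map_injective j j.injective)]
  exact h.map _

theorem gT2 (h1 : EXT_st) (h2 : AUT_st) (h3 : TWO_st) (h4 : FIX_st) : T2_st := by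
  intro K L _ _ M _ _ _ _ _ _ P a w hM hl hirr x y x' y' hxy hxy' hz
  have hinj : Function.Injective (algebraMap (MP M K) L) := by
    rw [IsScalarTower.algebraMap_eq (MP M K) (FP M K) L]
    exact (algebraMap (FP M K) L).injective.comp (IsFractionRing.injective (MP M K) (FP M K))
  have hind := ind_X (K := K) hinj
  obtain ⟨wx, sx⟩ := hz x (by simp)
  obtain ⟨wy, sy⟩ := hz y (by simp)
  obtain ⟨wx', sx'⟩ := hz x' (by simp)
  obtain ⟨wy', sy'⟩ := hz y' (by simp)
  obtain ⟨t, ht⟩ : ∃ t : Fin M → L, t = fun k => algebraMap (MP M K) L (MvPolynomial.X k) :=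
    ⟨_, rfl⟩
  rw [← ht] at hind sx sy sx' sy'
  let k0 : Subfield L :=
    Subfield.closure (Set.range (algebraMap K L) ∪ {z | ∃ i : Fin M, 2 ≤ i.1 ∧ t i = z})
  have m1 : ∀ c, algebraMap K L c ∈ k0 := fun c => Subfield.subset_closure (Or.inl ⟨c, rfl⟩)
  have m2 : ∀ i : Fin M, 2 ≤ i.1 → t i ∈ k0 := fun i hi =>
    Subfield.subset_closure (Or.inr ⟨i, hi, rfl⟩)
  let j0 : K →+* k0 := (algebraMap K L).codRestrict k0 m1
  have e0 : k0.subtype.comp j0 = algebraMap K L := RingHom.ext fun _ => rfl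
  have hE0 : ∀ E : Subfield L, (∀ c, algebraMap K L c ∈ E) → (∀ i : Fin M, 2 ≤ i.1 → t i ∈ E) →
      ∀ c : k0, k0.subtype c ∈ E := by
    intro E a1 a2 c
    have : k0 ≤ E := Subfield.closure_le.2 (by
      rintro _ (⟨c, rfl⟩ | ⟨i, hi, rfl⟩)
      · exact a1 c
      · exact a2 i hi)
    exact this c.2
  have tx : Trn k0.subtype x := h3 K L M P a w t y x hM hind hl hxy.symm wy wx sy sx k0 _
    fun E a1 a2 _ _ => hE0 E a1 a2
  have tx' : Trn k0.subtype x' := h3 K L M P a w t y' x' hM hind hl hxy'.symm wy' wx' sy' sx' k0 _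
    fun E a1 a2 _ _ => hE0 E a1 a2
  have vx := (sub_eval P a w t x).symm.trans sx
  have vy := (sub_eval P a w t y).symm.trans sy
  have vx' := (sub_eval P a w t x').symm.trans sx'
  have vy' := (sub_eval P a w t y').symm.trans sy'
  obtain ⟨k1, _, j1, ψ1, ψ1', u1, v1, c1, c1', a1, b1, a1', b1', g1, g1'⟩ :=
    h1 k0 L k0.subtype k0.subtype (P.map (mapRingHom j0)) x _ x' _ (hirr _ j0) (lead_GT2 j0 P hl)
      tx tx' (by rw [ev_GT2, e0]; exact vx) (by rw [ev_GT2, e0]; exact vx')
  have e1 : ψ1.comp (j1.comp j0) = algebraMap K L := by rw [← RingHom.comp_assoc, c1, e0]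
  have e1' : ψ1'.comp (j1.comp j0) = algebraMap K L := by rw [← RingHom.comp_assoc, c1', e0]
  have ty : Trn ψ1 y := h3 K L M P a w t x y hM hind hl hxy wx wy sx sy k1 _
    fun E p1 p2 p3 p4 => g1 E (hE0 E p1 p2) p3 p4
  have ty' : Trn ψ1' y' := h3 K L M P a w t x' y' hM hind hl hxy' wx' wy' sx' sy' k1 _
    fun E p1 p2 p3 p4 => g1' E (hE0 E p1 p2) p3 p4
  obtain ⟨k2, _, j2, ψ2, ψ2', u2, v2, c2, c2', a2, b2, a2', b2', -, -⟩ :=
    h1 k1 L ψ1 ψ1' (P.map (mapRingHom (j1.comp j0))) y _ y' _ (hirr _ _) (lead_GT2 _ P hl)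
      ty ty' (by rw [ev_GT2, e1]; exact vy) (by rw [ev_GT2, e1']; exact vy')
  have e2 : ψ2.comp (j2.comp (j1.comp j0)) = algebraMap K L := by
    rw [← RingHom.comp_assoc, c2, e1]
  have e2' : ψ2'.comp (j2.comp (j1.comp j0)) = algebraMap K L := by
    rw [← RingHom.comp_assoc, c2', e1']
  have d2 : ∀ c, ψ2 (j2 c) = ψ1 c := fun c => RingHom.congr_fun c2 c
  have d2' : ∀ c, ψ2' (j2 c) = ψ1' c := fun c => RingHom.congr_fun c2' c
  have f1 : ψ2 (j2 u1) = x := (d2 u1).trans a1
  have f1' : ψ2' (j2 u1) = x' := (d2' u1).trans a1'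
  have hT := h4 K L k2 M a w t _ ψ2 ψ2' (j2 u1) (j2 v1) u2 v2 e2 e2'
    (fun e => hxy (by rw [← f1, e, a2])) (by rw [f1]; exact wx) (by rw [a2]; exact wy)
    (by rw [f1, d2, b1]) (by rw [a2, b2]) (by rw [f1', d2', b1']) (by rw [a2', b2'])
    fun i hi => ⟨j2 (j1 ⟨t i, m2 i hi⟩), (d2 _).trans (RingHom.congr_fun c1 _),
      (d2' _).trans (RingHom.congr_fun c1' _)⟩
  choose T hT1 hT2 using hT
  obtain ⟨γ, hγ⟩ := h2 K L k2 M _ ψ2 ψ2' T e2 e2' (fun i => (hT1 i).trans (congrFun ht i))
    fun i => (hT2 i).trans (congrFun ht i)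
  exact ⟨γ, by rw [← f1, hγ, f1'], by rw [← a2, hγ, a2']⟩

end

section

theorem prod_GENUM {L : Type} [Field L] {n : ℕ} (g : L[X]) (hm : g.Monic) (hs : g.Splits)
    (hp : g.Separable) (z : Fin n → L) (hz : Function.Injective z) (s : Finset (Fin n))
    (h1 : ∀ j, j ∈ s ↔ g.eval (z j) = 0) (h2 : ∀ x, g.eval x = 0 → ∃ j, z j = x) :
    g = ∏ j ∈ s, (X - C (z j)) := by
  classical
  have e : g.roots = (s.image z).val := by
    refine (Multiset.Nodup.ext (nodup_roots hp) (s.image z).nodup).2 fun x => ?_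
    rw [mem_roots hm.ne_zero, IsRoot.def, Finset.mem_val, Finset.mem_image]
    constructor
    · intro hx
      obtain ⟨j, rfl⟩ := h2 x hx
      exact ⟨j, (h1 j).2 hx, rfl⟩
    · rintro ⟨j, hj, rfl⟩
      exact (h1 j).1 hj
  rw [← Finset.prod_image (f := fun x => X - C x) fun a _ b _ h => hz h]
  conv_lhs => rw [hs.eq_prod_roots_of_monic hm, e]
  rfl

theorem gENUM : ENUM_st := by
  intro L ι _ _ _ f hm hs hp
  classical
  have pm : (∏ i, f i).Monic := monic_prod_of_monic _ _ fun i _ => hm i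
  have dv : ∀ i, f i ∣ ∏ i, f i := fun i => Finset.dvd_prod_of_mem f (Finset.mem_univ i)
  have hc : Fintype.card ((∏ i, f i).roots.toFinset) = ∑ i, (f i).natDegree := by
    rw [Fintype.card_coe, Multiset.toFinset_card_of_nodup (nodup_roots hp),
      ← hs.natDegree_eq_card_roots, natDegree_prod_of_monic _ _ fun i _ => hm i]
  obtain ⟨z, hz, hz1, hz2⟩ : ∃ z : Fin (∑ i, (f i).natDegree) → L, Function.Injective z ∧
      (∀ j, (∏ i, f i).eval (z j) = 0) ∧ ∀ x, (∏ i, f i).eval x = 0 → ∃ j, z j = x := by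
    refine ⟨fun j => ((Fintype.equivFinOfCardEq hc).symm j : L),
      Subtype.val_injective.comp (Equiv.injective _), fun j => ?_, fun x hx => ?_⟩
    · exact (mem_roots pm.ne_zero).1
        (Multiset.mem_toFinset.1 ((Fintype.equivFinOfCardEq hc).symm j).2)
    · exact ⟨Fintype.equivFinOfCardEq hc
        ⟨x, Multiset.mem_toFinset.2 ((mem_roots pm.ne_zero).2 hx)⟩, by simp⟩
  have ex : ∀ j, ∃ i, (f i).eval (z j) = 0 := fun j => by
    have := hz1 j
    rw [eval_prod, Finset.prod_eq_zero_iff] at this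
    obtain ⟨i, -, hi⟩ := this
    exact ⟨i, hi⟩
  choose bl hbl using ex
  have key : ∀ i j, (f i).eval (z j) = 0 ↔ bl j = i := fun i j => by
    refine ⟨fun h => by_contra fun ne => ?_, fun h => h ▸ hbl j⟩
    have d : f (bl j) * f i ∣ ∏ i, f i := by
      rw [← Finset.prod_pair ne]
      exact Finset.prod_dvd_prod_of_subset _ _ _ (Finset.subset_univ _)
    obtain ⟨a, b, e⟩ := (hp.of_dvd d).isCoprime
    have := congrArg (eval (z j)) e
    simp [h, hbl j] at this
  refine ⟨z, bl, hz, prod_GENUM _ pm hs hp z hz _ (fun j => by simp [hz1 j]) hz2, fun i => ?_, key⟩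
  refine prod_GENUM _ (hm i) (hs.of_dvd pm.ne_zero (dv i)) (hp.of_dvd (dv i)) z hz _
    (fun j => by simp [key]) fun x hx => hz2 x ?_
  exact eval_eq_zero_of_dvd_of_eval_eq_zero (dv i) hx

end

section

theorem gGRP : GRP_st := by
  intro ι n bl S h2 hs
  have hsw : ∀ a b, a ≠ b → bl b = bl a → Equiv.swap a b ∈ S := by
    intro a b hab hb
    obtain ⟨c, d, hcd, hc, hd, hm⟩ := hs a
    obtain ⟨σ, hσ, h3, h4⟩ := h2 c d a b hcd hab (hd.trans hc.symm) hc.symm (hb.trans hc.symm)
    rw [← h3, ← h4, Equiv.swap_apply_apply]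
    exact S.mul_mem (S.mul_mem hσ hm) (S.inv_mem hσ)
  have key : ∀ (m : ℕ) (σ : Equiv.Perm (Fin n)), σ.support.card = m →
      (∀ j, bl (σ j) = bl j) → σ ∈ S := by
    intro m
    induction m using Nat.strong_induction_on with
    | _ m ih =>
      intro σ hm hσ
      by_cases h1 : σ = 1
      · rw [h1]; exact S.one_mem
      · obtain ⟨a, ha⟩ : ∃ a, σ a ≠ a := by
          by_contra hc
          exact h1 (Equiv.ext fun a => by_contra fun h => hc ⟨a, h⟩)
        have h5 := Equiv.Perm.card_support_swap_mul ha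
        have h6 : Equiv.swap a (σ a) ∈ S := hsw a (σ a) ha.symm (hσ a)
        have h7 : Equiv.swap a (σ a) * σ ∈ S := by
          refine ih _ (hm ▸ h5) _ rfl fun j => ?_
          rw [Equiv.Perm.mul_apply, ← hσ j, Equiv.swap_apply_def]
          split_ifs with e1 e2
          · rw [e1, hσ]
          · rw [e2, hσ]
          · rfl
        have h8 := S.mul_mem h6 h7
        rwa [← mul_assoc, Equiv.swap_mul_self, one_mul] at h8
  exact fun σ hσ => key _ σ rfl hσ

end

section

theorem perm_GMain {F L : Type} [Field F] [Field L] [Algebra F L] {n : ℕ} {z : Fin n → L}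
    (hz : Function.Injective z) {p : F[X]} (hp : p.map (algebraMap F L) = ∏ j, (X - C (z j)))
    (g : L ≃ₐ[F] L) : ∃ σ : Equiv.Perm (Fin n), ∀ j, g (z j) = z (σ j) := by
  have h1 : ∀ x : L, aeval x p = 0 ↔ ∃ j, x = z j := by
    intro x
    rw [← eval_map_algebraMap, hp, eval_prod, Finset.prod_eq_zero_iff]
    simp [sub_eq_zero]
  have h2 : ∀ j, ∃ j', g (z j) = z j' := fun j => (h1 _).1 (by
    rw [aeval_algEquiv, AlgHom.comp_apply, (h1 _).2 ⟨j, rfl⟩, map_zero])
  choose s hs using h2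
  refine ⟨Equiv.ofBijective s (Finite.injective_iff_bijective.1 fun a b e => hz ?_), hs⟩
  exact g.injective (by rw [hs, hs, e])

theorem main_GMain (hSEPH : SEPH_st) (hTANG : TANG_st) (hSWP : SWP_st) (hT2 : T2_st)
    (hENUM : ENUM_st) (hGRP : GRP_st) {K : Type} [Field K] [IsAlgClosed K] {M : ℕ} (hM : 4 ≤ M)
    {ι : Type} [Fintype ι] [DecidableEq ι] {H : ι → K[X][X]} {J : Finset K} {a : K[X]}
    {h : ι → (MP M K)[X]} {u : ι → K[X]} (hD : Dat H J a h u)
    (hGI : ∀ (i : ι) (W : Type) [Field W] (f : K →+* W), Irreducible ((H i).map (mapRingHom f))) :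
    Full (∑ i, (h i).natDegree) h := by
  obtain ⟨s1, s2⟩ := hSEPH K ι M H J a h u hD (by omega)
  set p := (∏ i, h i).map (algebraMap (MP M K) (FP M K)) with hp
  have : IsGalois (FP M K) p.SplittingField := IsGalois.of_separable_splitting_field s1
  have : IsScalarTower K (MP M K) p.SplittingField := IsScalarTower.of_algebraMap_eq fun x => by
    rw [IsScalarTower.algebraMap_apply (MP M K) (FP M K) p.SplittingField,
      ← IsScalarTower.algebraMap_apply K (MP M K) (FP M K),
      ← IsScalarTower.algebraMap_apply K (FP M K) p.SplittingField]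
  have inj : Function.Injective (algebraMap (MP M K) p.SplittingField) := by
    rw [IsScalarTower.algebraMap_eq (MP M K) (FP M K) p.SplittingField, RingHom.coe_comp]
    exact (algebraMap (FP M K) p.SplittingField).injective.comp (IsFractionRing.injective _ _)
  have e0 : (∏ i, h i).map (algebraMap (MP M K) p.SplittingField) =
      p.map (algebraMap (FP M K) p.SplittingField) := by
    rw [hp, map_map, ← IsScalarTower.algebraMap_eq]
  have e1 : ∏ i, (h i).map (algebraMap (MP M K) p.SplittingField) =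
      p.map (algebraMap (FP M K) p.SplittingField) := by
    rw [← e0, Polynomial.map_prod]
  have e2 : ∑ i, (h i).natDegree =
      ∑ i, ((h i).map (algebraMap (MP M K) p.SplittingField)).natDegree :=
    Finset.sum_congr rfl fun i _ => ((hD.mon i).natDegree_map _).symm
  obtain ⟨z, bl, z1, z2, z3, z4⟩ := hENUM p.SplittingField ι
    (fun i => (h i).map (algebraMap (MP M K) p.SplittingField)) (fun i => (hD.mon i).map _)
    (by rw [e1]; exact SplittingField.splits p) (by rw [e1]; exact s1.map)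
  rw [e2]
  rw [e1] at z2
  refine ⟨p.SplittingField, inferInstance, inferInstance, inferInstance, inferInstance, z, bl, z1,
    fun i => by rw [← IsScalarTower.algebraMap_eq]; exact z3 i, ?_⟩
  let S : Subgroup (Equiv.Perm
      (Fin (∑ i, ((h i).map (algebraMap (MP M K) p.SplittingField)).natDegree))) :=
    { carrier := {σ | ∃ g : p.SplittingField ≃ₐ[FP M K] p.SplittingField,
        ∀ j, g (z j) = z (σ j)}
      one_mem' := ⟨1, fun _ => rfl⟩
      mul_mem' := by
        rintro σ τ ⟨g, hg⟩ ⟨g', hg'⟩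
        exact ⟨g * g', fun j => by rw [AlgEquiv.mul_apply, hg', hg, Equiv.Perm.mul_apply]⟩
      inv_mem' := by
        rintro σ ⟨g, hg⟩
        refine ⟨g.symm, fun j => g.injective ?_⟩
        rw [AlgEquiv.apply_symm_apply, hg, Equiv.Perm.coe_inv, Equiv.apply_symm_apply] }
  refine hGRP ι _ bl S (fun b c b' c' h1 h2 h3 h4 h5 => ?_) fun c => ?_
  · obtain ⟨g, g1, g2⟩ := hT2 K p.SplittingField M (H (bl b)) a (wJ J) (by omega)
      (hD.crv.lead _) (hGI _) (z b) (z c) (z b') (z c') (z1.ne h1) (z1.ne h2) (by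
        intro x hx
        refine s2 p.SplittingField inj (bl b) x ?_
        rcases hx with rfl | rfl | rfl | rfl
        exacts [(z4 _ _).2 rfl, (z4 _ _).2 h3, (z4 _ _).2 h4, (z4 _ _).2 h5])
    obtain ⟨σ, hσ⟩ := perm_GMain z1 z2 g
    exact ⟨σ, ⟨g, hσ⟩, z1 (by rw [← hσ, g1]), z1 (by rw [← hσ, g2])⟩
  · obtain ⟨t, s, g, t1, t2, t3, t4, t5⟩ := hTANG K ι M H J a h u hD hM (bl c)
    obtain ⟨b, b', b1, b2, b3⟩ := hSWP K p.SplittingField M _ (∏ i, h i) z t s g
      (monic_prod_of_monic _ _ fun i _ => hD.mon i) z1 (e0.trans z2) (fun γ hγ => by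
        refine Gal.ext p (σ := γ) (τ := 1) fun x hx => ?_
        have hx' := (mem_rootSet.1 hx).2
        rw [← eval_map_algebraMap, z2, eval_prod, Finset.prod_eq_zero_iff] at hx'
        obtain ⟨j, -, hj⟩ := hx'
        rw [eval_sub, eval_X, eval_C, sub_eq_zero] at hj
        rw [hj]
        exact hγ j) t1 t2 t3 t5
    refine ⟨b, b', b1, ?_, ?_, b2⟩
    · by_contra e
      exact t4 _ e (b3 _ (Or.inl ((z4 _ _).2 rfl)))
    · by_contra e
      exact t4 _ e (b3 _ (Or.inr ((z4 _ _).2 rfl)))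

end

end Pool.Agent.MP_a9d3bd_g.Gx
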