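import Pool.Agent.MP_a9d3bd_g.GxA
import Pool.Agent.MP_a9d3bd_g.GxB
import Pool.Agent.MP_a9d3bd_g.AGI2

namespace Pool.Agent.MP_a9d3bd_g

open Polynomial Gx

open Classical in
/-- A7: the Galois group. -/
theorem GAL {K : Type} [Field K] [IsAlgClosed K] {M : ℕ} (hM : 4 ≤ M) {ι : Type} [Fintype ι]
    [DecidableEq ι] {H : ι → K[X][X]} (hH : Crv H) (J : Finset K) (a₀ : K[X])
    (hJ : ∀ r ∈ J, (∏ i, H i).evalEval r (a₀.eval r) = 0 →
      (derivative (∏ i, H i)).evalEval r (a₀.eval r) ≠ 0)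
    (h : ι → (MvPolynomial (Fin M) K)[X]) (hm : ∀ i, (h i).Monic) (c : ι → K) (hc : ∀ i, c i ≠ 0)
    (hh : ∀ i, ((H i).map (mapRingHom (MvPolynomial.C : K →+* MvPolynomial (Fin M) K))).eval
        (a₀.map MvPolynomial.C + (∏ r ∈ J, (X - C (MvPolynomial.C r))) *
          ∑ k : Fin M, C (MvPolynomial.X k) * X ^ (k : ℕ)) =
      C (MvPolynomial.C (c i)) * (∏ r ∈ J.filter (fun r => (H i).evalEval r (a₀.eval r) = 0),
        (X - C (MvPolynomial.C r))) * h i) :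
    Full (∑ i, (h i).natDegree) h := by
  have e : ∀ s : Finset K, (wJ s).map (MvPolynomial.C : K →+* MvPolynomial (Fin M) K) =
      ∏ r ∈ s, (X - C (MvPolynomial.C r)) := fun s => by
    simp only [wJ, Polynomial.map_prod, Polynomial.map_sub, map_X, map_C]
  refine main_GMain (gSEPH (gSEPG gKER gTRD gLIN) (gNJ gMULT))
    (gTANG gPT gSPEC gTG1 (gTG2 (gSEPG gKER gTRD gLIN) gMULT (gNJ gMULT)) gDER)
    (gSWP gINE gPHI gDBL) (gT2 (gEXT gKER) gAUT (gTWO gTRD gLIN) (gFIX gLIN)) gENUM gGRP hM (H := H) (J := J) (a := a₀)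
    (u := fun i => C (c i) * wJ (J.filter fun r => (H i).evalEval r (a₀.eval r) = 0))
    ⟨hH, hm, fun i => ?_, fun i r hr h0 => ?_, fun i r hr => ?_, hJ⟩ fun i W _ f => ?_
  · rw [sub, alp, gam, MvPolynomial.algebraMap_eq, e, hh, Polynomial.map_mul, map_C, e]
  · rw [eval_mul, wJ, eval_prod, Finset.prod_eq_zero (i := r) (Finset.mem_filter.2 ⟨hr, h0⟩)
      (by simp), mul_zero]
  · rw [eval_mul, eval_C, wJ, eval_prod]
    refine mul_ne_zero (hc i) (Finset.prod_ne_zero_iff.2 fun s hs => ?_)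
    rw [eval_sub, eval_X, eval_C, sub_ne_zero]
    exact fun e => hr (e ▸ (Finset.mem_filter.1 hs).1)
  · obtain ⟨x, y, h1, -, -, h2, -⟩ := gPT K ι H 1 i hH one_ne_zero
    let := f.toAlgebra
    exact GI2 (hH.lead i) (hH.irr i) h1 h2

end Pool.Agent.MP_a9d3bd_g
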