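import Pool.Agent.MP_a9d3bd_g.ADefs

namespace Pool.Agent.MP_a9d3bd_g

open Polynomial

variable {K : Type} [Field K]

/-- The polynomial `∑ t i S ^ i`. -/
noncomputable def CT_gm {A : Type} [CommRing A] {M : ℕ} (t : Fin M → A) : A[X] :=
  ∑ k : Fin M, C (t k) * X ^ (k : ℕ)

theorem CT_gm_coeff {A : Type} [CommRing A] {M : ℕ} (t : Fin M → A) (k : Fin M) :
    (CT_gm t).coeff k = t k := by
  simp only [CT_gm, finsetSum_coeff, coeff_C_mul_X_pow]
  rw [Finset.sum_eq_single k]
  · simp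
  · intro b _ hb
    rw [if_neg]
    exact fun h => hb (Fin.ext h.symm)
  · simp

theorem CT_gm_deg {A : Type} [CommRing A] {M : ℕ} (t : Fin M → A) : (CT_gm t).degree < M :=
  degree_sum_fin_lt t

theorem CT_gm_self {A : Type} [CommRing A] {M : ℕ} {P : A[X]} (h : P.degree < M) :
    CT_gm (fun k : Fin M => P.coeff k) = P := by
  ext n
  by_cases hn : n < M
  · exact CT_gm_coeff (fun k : Fin M => P.coeff k) ⟨n, hn⟩
  · have hn' : (M : WithBot ℕ) ≤ n := by exact_mod_cast not_lt.1 hn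
    rw [coeff_eq_zero_of_degree_lt ((CT_gm_deg _).trans_le hn'),
      coeff_eq_zero_of_degree_lt (h.trans_le hn')]

theorem CT_gm_map {A B : Type} [CommRing A] [CommRing B] {M : ℕ} (t : Fin M → A) (φ : A →+* B) :
    (CT_gm t).map φ = CT_gm fun k => φ (t k) := by
  simp [CT_gm, Polynomial.map_sum]

theorem CT_gm_inj {A : Type} [CommRing A] {M : ℕ} :
    Function.Injective (CT_gm : (Fin M → A) → A[X]) := fun t t' h => funext fun k => by
  rw [← CT_gm_coeff t, h, CT_gm_coeff]

theorem CT_gm_rat {M : ℕ} (φ : K →+* K) (t : Fin M → K) :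
    (CT_gm t).map φ = CT_gm t ↔ ∀ k, φ (t k) = t k := by
  rw [CT_gm_map]
  exact ⟨fun h k => congrFun (CT_gm_inj h) k, fun h => by simp only [h]⟩

theorem CT_al {e : ℕ} (ρ : K) (t : Fin e → K) : al ρ t = C ρ * X ^ e + CT_gm t := rfl

theorem CT_w_map {φ : K →+* K} {J : Finset K} (hJ : ∀ r ∈ J, φ r = r) :
    (∏ r ∈ J, (X - C r)).map φ = ∏ r ∈ J, (X - C r) := by
  rw [Polynomial.map_prod]
  exact Finset.prod_congr rfl fun r hr => by simp [hJ r hr]

theorem CT_a0 (φ : K →+* K) (e : ℕ) {ρ : K} (hρ : φ ρ = ρ) (J : Finset (K × K))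
    (hi : Set.InjOn Prod.fst (J : Set (K × K))) (hJ : ∀ x ∈ J, φ x.1 = x.1 ∧ φ x.2 = x.2) :
    ∃ b : K[X], b.degree < J.card ∧ b.map φ = b ∧ ∀ x ∈ J, (C ρ * X ^ e + b).eval x.1 = x.2 := by
  classical
  have h1 := Lagrange.degree_interpolate_lt (fun x : K × K => x.2 - ρ * x.1 ^ e) hi
  have h2 := fun x (hx : x ∈ J) =>
    Lagrange.eval_interpolate_at_node (fun x : K × K => x.2 - ρ * x.1 ^ e) hi hx
  refine ⟨_, h1, eq_of_degrees_lt_of_eval_index_eq J hi (degree_map_le.trans_lt h1) h1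
    fun x hx => ?_, fun x hx => by rw [eval_add, h2 x hx]; simp⟩
  conv_lhs => rw [← (hJ x hx).1, eval_map_apply, h2 x hx]
  rw [h2 x hx, map_sub, map_mul, map_pow, (hJ x hx).1, (hJ x hx).2, hρ]

theorem CT_dvd {A : Type} [CommRing A] [Algebra K A] (J : Finset K) {P : A[X]}
    (h : ∀ r ∈ J, P.eval (algebraMap K A r) = 0) :
    (∏ r ∈ J, (X - C (algebraMap K A r))) ∣ P := by
  refine Finset.prod_dvd_of_coprime (fun r _ s _ hrs => ?_) fun r hr => dvd_iff_isRoot.2 (h r hr)
  refine isCoprime_X_sub_C_of_isUnit_sub ?_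
  rw [← map_sub]
  exact (IsUnit.mk0 _ (sub_ne_zero.2 hrs)).map _

theorem CT_bij [DecidableEq K] (φ : K →+* K) {e M : ℕ} (ρ : K) (J : Finset (K × K))
    (hM : M + J.card = e)
    (hi : Set.InjOn Prod.fst (J : Set (K × K))) (hJ : ∀ x ∈ J, φ x.1 = x.1) {b : K[X]}
    (hb : b.degree < J.card) (hφ : b.map φ = b) (hv : ∀ x ∈ J, (C ρ * X ^ e + b).eval x.1 = x.2)
    (Q : K[X] → Prop) :
    {t : Fin e → K | (∀ i, φ (t i) = t i) ∧ (∀ x ∈ J, (al ρ t).eval x.1 = x.2) ∧
        Q (al ρ t)}.ncard =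
      {t : Fin M → K | (∀ i, φ (t i) = t i) ∧
        Q (C ρ * X ^ e + b + (∏ r ∈ J.image Prod.fst, (X - C r)) * CT_gm t)}.ncard := by
  set w : K[X] := ∏ r ∈ J.image Prod.fst, (X - C r) with hw
  have hwm : w.Monic := monic_prod_of_monic _ _ fun r _ => monic_X_sub_C r
  have hwd : w.degree = J.card := by
    rw [degree_eq_natDegree hwm.ne_zero, hw, natDegree_finsetProd_X_sub_C_eq_card,
      Finset.card_image_of_injOn hi]
  have hwφ : w.map φ = w := CT_w_map fun r hr => by
    obtain ⟨x, hx, rfl⟩ := Finset.mem_image.1 hr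
    exact hJ x hx
  have hbe : b.degree < e := hb.trans_le (by exact_mod_cast (by omega : J.card ≤ e))
  have i1 : Function.Injective fun t : Fin e → K => al ρ t := fun t t' h =>
    CT_gm_inj (add_left_cancel h)
  have i2 : Function.Injective fun t : Fin M → K => C ρ * X ^ e + b + w * CT_gm t := fun t t' h =>
    CT_gm_inj (mul_left_cancel₀ hwm.ne_zero (add_left_cancel h))
  rw [← Set.ncard_image_of_injective _ i1, ← Set.ncard_image_of_injective _ i2]
  congr 1
  ext P
  constructor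
  · rintro ⟨t, ⟨h1, h2, h3⟩, rfl⟩
    obtain ⟨g, hg⟩ : w ∣ CT_gm t - b := by
      refine CT_dvd (A := K) _ fun r hr => ?_
      obtain ⟨x, hx, rfl⟩ := Finset.mem_image.1 hr
      have h4 := h2 x hx
      rw [← hv x hx, CT_al, eval_add, eval_add] at h4
      simpa [sub_eq_zero] using add_left_cancel h4
    have hd : g.degree < M := by
      have h5 : (w * g).degree < e := hg ▸ (degree_sub_le _ _).trans_lt (max_lt (CT_gm_deg t) hbe)
      rw [degree_mul, hwd, ← hM, add_comm M, Nat.cast_add] at h5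
      exact lt_of_add_lt_add_left h5
    have hP : C ρ * X ^ e + b + w * CT_gm (fun k : Fin M => g.coeff k) = al ρ t := by
      rw [CT_gm_self hd, ← hg, CT_al]
      ring
    refine ⟨fun k => g.coeff k, ⟨(CT_gm_rat φ _).1 ?_, hP ▸ h3⟩, hP⟩
    rw [CT_gm_self hd]
    refine mul_left_cancel₀ hwm.ne_zero ?_
    rw [← hg, ← hwφ, ← Polynomial.map_mul, ← hg, Polynomial.map_sub, hφ, (CT_gm_rat φ t).2 h1]
  · rintro ⟨t, ⟨h1, h3⟩, rfl⟩
    have hd : (b + w * CT_gm t).degree < e := by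
      refine (degree_add_le _ _).trans_lt (max_lt hbe ?_)
      rw [degree_mul, hwd, ← hM, add_comm M, Nat.cast_add]
      exact WithBot.add_lt_add_left (WithBot.natCast_ne_bot _) (CT_gm_deg t)
    have hP : al ρ (fun k : Fin e => (b + w * CT_gm t).coeff k) =
        C ρ * X ^ e + b + w * CT_gm t := by
      rw [CT_al, CT_gm_self hd, add_assoc]
    refine ⟨fun k => (b + w * CT_gm t).coeff k, ⟨(CT_gm_rat φ _).1 ?_, fun x hx => ?_, hP ▸ h3⟩, hP⟩
    · rw [CT_gm_self hd, Polynomial.map_add, Polynomial.map_mul, hφ, hwφ, (CT_gm_rat φ t).2 h1]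
    · have : w.eval x.1 = 0 := by
        rw [hw, eval_prod]
        exact Finset.prod_eq_zero (Finset.mem_image_of_mem _ hx) (by simp)
      rw [hP, eval_add, eval_mul, this, zero_mul, add_zero, hv x hx]

theorem CT_top {A : Type} [CommRing A] (ψ : K →+* A) {e : ℕ} {H : K[X][X]}
    (wt : ∀ a, H.coeff a ≠ 0 → (H.coeff a).natDegree + e * a ≤ e * H.natDegree) {α : A[X]} {ρ : K}
    (h1 : α.natDegree ≤ e) (h2 : α.coeff e = ψ ρ) :
    ((H.map (mapRingHom ψ)).eval α).natDegree ≤ e * H.natDegree ∧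
    ((H.map (mapRingHom ψ)).eval α).coeff (e * H.natDegree) =
      ψ (∑ a ∈ Finset.range (H.natDegree + 1), (H.coeff a).coeff (e * (H.natDegree - a)) * ρ ^ a) := by
  rw [eval_map, eval₂_eq_sum_range]
  have h3 : ∀ a ∈ Finset.range (H.natDegree + 1),
      (mapRingHom ψ (H.coeff a)).natDegree ≤ e * (H.natDegree - a) ∧ (α ^ a).natDegree ≤ a * e ∧
      e * H.natDegree = e * (H.natDegree - a) + a * e := fun a ha => by
    have ha' : a ≤ H.natDegree := Nat.lt_succ_iff.1 (Finset.mem_range.1 ha)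
    have h4 : e * H.natDegree = e * (H.natDegree - a) + a * e := by
      rw [mul_comm a, ← mul_add, Nat.sub_add_cancel ha']
    refine ⟨?_, natDegree_pow_le_of_le a h1, h4⟩
    by_cases h0 : H.coeff a = 0
    · simp [h0]
    · have := wt a h0
      rw [mul_comm e a] at this
      exact natDegree_map_le.trans (by omega)
  constructor
  · refine natDegree_sum_le_of_forall_le _ _ fun a ha => ?_
    obtain ⟨h4, h5, h6⟩ := h3 a ha
    exact h6 ▸ natDegree_mul_le.trans (add_le_add h4 h5)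
  · rw [finsetSum_coeff, map_sum]
    refine Finset.sum_congr rfl fun a ha => ?_
    obtain ⟨h4, h5, h6⟩ := h3 a ha
    conv_lhs => rw [h6]
    rw [coeff_mul_add_eq_of_natDegree_le h4 h5, coeff_pow_of_natDegree_le h1, h2]
    simp

/-- All coefficients have total degree at most `n`. -/
def CT_TD {σ : Type} (n : ℕ) (P : (MvPolynomial σ K)[X]) : Prop :=
  ∀ a, (P.coeff a).totalDegree ≤ n

section TD

variable {σ : Type} {n m : ℕ} {P Q : (MvPolynomial σ K)[X]}

theorem CT_TD.mono (h : CT_TD n P) (hn : n ≤ m) : CT_TD m P := fun a => (h a).trans hn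

theorem CT_TD.add (h : CT_TD n P) (h' : CT_TD n Q) : CT_TD n (P + Q) := fun a => by
  rw [coeff_add]
  exact (MvPolynomial.totalDegree_add _ _).trans (max_le (h a) (h' a))

theorem CT_TD.mul (h : CT_TD n P) (h' : CT_TD m Q) : CT_TD (n + m) (P * Q) := fun a => by
  rw [coeff_mul]
  exact MvPolynomial.totalDegree_finsetSum_le fun c _ =>
    (MvPolynomial.totalDegree_mul _ _).trans (add_le_add (h _) (h' _))

theorem CT_TD.const (P : K[X]) : CT_TD 0 (P.map (MvPolynomial.C : K →+* MvPolynomial σ K)) :=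
  fun a => by simp

theorem CT_TD.sum {ι : Type} (s : Finset ι) {F : ι → (MvPolynomial σ K)[X]}
    (h : ∀ i ∈ s, CT_TD n (F i)) : CT_TD n (∑ i ∈ s, F i) := fun a => by
  rw [finsetSum_coeff]
  exact MvPolynomial.totalDegree_finsetSum_le fun i hi => h i hi a

theorem CT_TD.prod {ι : Type} (s : Finset ι) {F : ι → (MvPolynomial σ K)[X]} {d : ι → ℕ}
    (h : ∀ i ∈ s, CT_TD (d i) (F i)) : CT_TD (∑ i ∈ s, d i) (∏ i ∈ s, F i) := by
  classical
  induction s using Finset.induction_on with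
  | empty => simpa using CT_TD.const (σ := σ) (1 : K[X])
  | insert a s ha ih =>
    rw [Finset.sum_insert ha, Finset.prod_insert ha]
    exact (h a (by simp)).mul (ih fun i hi => h i (by simp [hi]))

theorem CT_TD.pow (h : CT_TD 1 P) (a : ℕ) : CT_TD a (P ^ a) := by
  simpa using CT_TD.prod (Finset.range a) (F := fun _ => P) (d := fun _ => 1) fun _ _ => h

theorem CT_TD.eval (h : CT_TD 1 P) (H : K[X][X]) :
    CT_TD H.natDegree ((H.map (mapRingHom MvPolynomial.C)).eval P) := by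
  rw [eval_map, eval₂_eq_sum_range]
  refine CT_TD.sum _ fun a ha => ((CT_TD.const (H.coeff a)).mul (h.pow a)).mono ?_
  simpa [Nat.lt_succ_iff] using ha

theorem CT_TD.div1 {r : K} (h : CT_TD n ((X - C (MvPolynomial.C r)) * P)) : CT_TD n P := by
  have key : ∀ k a, P.natDegree < a + k → (P.coeff a).totalDegree ≤ n := by
    intro k
    induction k with
    | zero => intro a ha; simp [coeff_eq_zero_of_natDegree_lt (show P.natDegree < a from ha)]
    | succ k ih =>
      intro a ha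
      have h1 := h (a + 1)
      rw [coeff_X_sub_C_mul] at h1
      rw [← sub_add_cancel (P.coeff a) (MvPolynomial.C r * P.coeff (a + 1))]
      refine (MvPolynomial.totalDegree_add _ _).trans (max_le h1 ?_)
      refine (MvPolynomial.totalDegree_mul _ _).trans ?_
      simpa using ih (a + 1) (by omega)
  exact fun a => key (P.natDegree + 1) a (by omega)

theorem CT_TD.div (J : Finset K) :
    ∀ {P : (MvPolynomial σ K)[X]},
      CT_TD n ((∏ r ∈ J, (X - C (MvPolynomial.C r))) * P) → CT_TD n P := by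
  classical
  induction J using Finset.induction_on with
  | empty => intro P h; simpa using h
  | insert a s ha ih =>
    intro P h
    rw [Finset.prod_insert ha, mul_assoc] at h
    exact ih h.div1

theorem CT_TD.at (h : CT_TD n P) (r : K) : (P.eval (MvPolynomial.C r)).totalDegree ≤ n := by
  rw [eval_eq_sum_range]
  refine MvPolynomial.totalDegree_finsetSum_le fun a _ =>
    (MvPolynomial.totalDegree_mul _ _).trans ?_
  rw [← map_pow, MvPolynomial.totalDegree_C]
  exact h a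

theorem CT_TD.gm {M : ℕ} : CT_TD 1 (CT_gm (MvPolynomial.X : Fin M → MvPolynomial (Fin M) K)) := by
  intro a
  by_cases ha : a < M
  · exact (congrArg _ (CT_gm_coeff _ ⟨a, ha⟩)).le.trans (by simp)
  · have : (M : WithBot ℕ) ≤ a := by exact_mod_cast not_lt.1 ha
    simp [coeff_eq_zero_of_degree_lt ((CT_gm_deg _).trans_le this)]

end TD

theorem CT_fix (p f : ℕ) [Fact p.Prime] [IsAlgClosed K] [CharP K p] (hq : 1 < p ^ f) :
    ∃ S : Finset K, S.card = p ^ f ∧ ∀ x, x ∈ S ↔ x ^ p ^ f = x := by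
  classical
  have hf : f ≠ 0 := by rintro rfl; simp at hq
  have h0 := FiniteField.X_pow_card_sub_X_ne_zero K hq
  refine ⟨(X ^ p ^ f - X : K[X]).roots.toFinset, ?_, fun x => by simp [h0, sub_eq_zero]⟩
  rw [Multiset.toFinset_card_of_nodup
    (nodup_roots (galois_poly_separable p _ (dvd_pow_self p hf))),
    ← (IsAlgClosed.splits _).natDegree_eq_card_roots, FiniteField.X_pow_card_sub_X_natDegree_eq K hq]

theorem CT_fin {q : ℕ} {S : Finset K} (hS : ∀ x, x ∈ S ↔ x ^ q = x) {M : ℕ}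
    (Q : (Fin M → K) → Prop) : {t : Fin M → K | (∀ i, t i ^ q = t i) ∧ Q t}.Finite :=
  (Fintype.piFinset fun _ : Fin M => S).finite_toSet.subset fun t ht => by
    simpa [hS] using ht.1

theorem CT_sz {q : ℕ} (hq : 0 < q) {S : Finset K} (hc : S.card = q) (hS : ∀ x, x ∈ S ↔ x ^ q = x)
    {M D : ℕ} {P : MvPolynomial (Fin M) K} (hP : P ≠ 0) (hD : P.totalDegree ≤ D) :
    ({t : Fin M → K | (∀ i, t i ^ q = t i) ∧ MvPolynomial.eval t P = 0}.ncard : ℝ) * q ≤
      D * (q : ℝ) ^ M := by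
  classical
  have h := MvPolynomial.schwartz_zippel_totalDegree hP S
  have h1 : {t : Fin M → K | (∀ i, t i ^ q = t i) ∧ MvPolynomial.eval t P = 0} =
      ↑((Fintype.piFinset fun _ : Fin M => S).filter fun t => MvPolynomial.eval t P = 0) := by
    ext t
    simp [hS]
  rw [h1, Set.ncard_coe_finset]
  rw [hc, div_le_div_iff₀ (by positivity) (by positivity)] at h
  have h2 := h.trans (mul_le_mul_left (Nat.cast_le.2 hD) _)
  exact_mod_cast h2

theorem CT_spl1 {q n : ℕ} {J : Finset K} {c : K} {h : K[X]}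
    (hs : Spl q (n + J.card) (C c * (∏ r ∈ J, (X - C r)) * h)) : Spl q n h := by
  classical
  obtain ⟨s, h1, h2, c', hc', h3⟩ := hs
  have h0 : C c' * ∏ x ∈ s, (X - C x) ≠ 0 := mul_ne_zero (C_ne_zero.2 hc')
    (monic_prod_of_monic _ _ fun r _ => monic_X_sub_C r).ne_zero
  have hc : c ≠ 0 := by
    rintro rfl
    exact h0 (by rw [← h3]; simp)
  have hJ : J ⊆ s := fun r hr => by
    have h4 := congrArg (eval r) h3
    rw [eval_mul, eval_mul, eval_prod, Finset.prod_eq_zero hr (by simp), eval_mul, eval_prod] at h4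
    simpa [hc', Finset.prod_eq_zero_iff, sub_eq_zero] using h4.symm
  refine ⟨s \ J, by rw [Finset.card_sdiff_of_subset hJ]; omega,
    fun x hx => h2 x (Finset.mem_sdiff.1 hx).1, c⁻¹ * c', mul_ne_zero (inv_ne_zero hc) hc', ?_⟩
  rw [← Finset.prod_sdiff hJ] at h3
  refine mul_left_cancel₀ (mul_ne_zero (C_ne_zero.2 hc)
    (monic_prod_of_monic J _ fun r _ => monic_X_sub_C r).ne_zero) ?_
  rw [h3, C_mul]
  have : C c * C c⁻¹ = (1 : K[X]) := by rw [← C_mul, mul_inv_cancel₀ hc, C_1]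
  linear_combination (-(C c' * (∏ x ∈ s \ J, (X - C x)) * ∏ x ∈ J, (X - C x))) * this

theorem CT_spl2 {q n : ℕ} {J : Finset K} (hJ : ∀ r ∈ J, r ^ q = r) {c : K} (hc : c ≠ 0) {h : K[X]}
    (hs : Spl q n h) (hr : ∀ r ∈ J, h.eval r ≠ 0) :
    Spl q (n + J.card) (C c * (∏ r ∈ J, (X - C r)) * h) := by
  classical
  obtain ⟨s, h1, h2, c', hc', h3⟩ := hs
  have hd : Disjoint s J := Finset.disjoint_left.2 fun r h4 h5 => hr r h5 (by
    rw [h3, eval_mul, eval_prod, Finset.prod_eq_zero h4 (by simp), mul_zero])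
  refine ⟨s ∪ J, by rw [Finset.card_union_of_disjoint hd, h1], fun x hx => ?_, c * c',
    mul_ne_zero hc hc', ?_⟩
  · exact (Finset.mem_union.1 hx).elim (h2 x) (hJ x)
  · rw [Finset.prod_union hd, h3, C_mul]
    ring

theorem CT_two {ι : Type} [Fintype ι] [DecidableEq ι] {H : ι → K[X][X]} {x y : K} {i j : ι}
    (hi : (H i).evalEval x y = 0) (hj : (H j).evalEval x y = 0)
    (h : (derivative (∏ i, H i)).evalEval x y ≠ 0) : i = j := by
  by_contra hij
  refine h ?_
  rw [← Finset.mul_prod_erase _ _ (Finset.mem_univ i),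
    ← Finset.mul_prod_erase _ _ (Finset.mem_erase.2 ⟨Ne.symm hij, Finset.mem_univ j⟩)]
  simp [derivative_mul, evalEval_add, evalEval_mul, hi, hj]

end Pool.Agent.MP_a9d3bd_g
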