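import Pool.Agent.MP_a9d3bd_g.ACT1

namespace Pool.Agent.MP_a9d3bd_g

open Polynomial

variable {K : Type} [Field K]

theorem CT_ev {A : Type} [CommRing A] (H : A[X][X]) (α : A[X]) (x : A) :
    (H.eval α).eval x = H.evalEval x (α.eval x) := by
  rw [← eval₂_evalRingHom]
  exact (eval₂_at_apply (evalRingHom x) α).symm

open Classical in
theorem CT_h (φ : K →+* K) {e M : ℕ} {H : K[X][X]} (hH : H.map (mapRingHom φ) = H)
    (wt : ∀ a, H.coeff a ≠ 0 → (H.coeff a).natDegree + e * a ≤ e * H.natDegree) {ρ : K}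
    (top : ∑ a ∈ Finset.range (H.natDegree + 1),
      (H.coeff a).coeff (e * (H.natDegree - a)) * ρ ^ a ≠ 0) (hρ : φ ρ = ρ)
    (J : Finset K) (hM : M + J.card = e) (hJ : ∀ r ∈ J, φ r = r) {b : K[X]} (hb : b.degree < e)
    (hφ : b.map φ = b) :
    ∃ (h : (MvPolynomial (Fin M) K)[X]) (c : K), h.Monic ∧ c ≠ 0 ∧
      (H.map (mapRingHom (MvPolynomial.C : K →+* MvPolynomial (Fin M) K))).eval
        ((C ρ * X ^ e + b).map MvPolynomial.C + (∏ r ∈ J, (X - C (MvPolynomial.C r))) *
          CT_gm MvPolynomial.X) =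
      C (MvPolynomial.C c) * (∏ r ∈ J.filter (fun r => H.evalEval r ((C ρ * X ^ e + b).eval r) = 0),
        (X - C (MvPolynomial.C r))) * h ∧
      h.natDegree + (J.filter (fun r => H.evalEval r ((C ρ * X ^ e + b).eval r) = 0)).card =
        e * H.natDegree ∧ CT_TD H.natDegree h ∧ h.map (MvPolynomial.map φ) = h := by
  set A := MvPolynomial (Fin M) K
  set J' := J.filter (fun r => H.evalEval r ((C ρ * X ^ e + b).eval r) = 0) with hJ'
  set w : A[X] := ∏ r ∈ J, (X - C (MvPolynomial.C r)) with hw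
  set w' : A[X] := ∏ r ∈ J', (X - C (MvPolynomial.C r)) with hw'
  set α : A[X] := (C ρ * X ^ e + b).map MvPolynomial.C + w * CT_gm MvPolynomial.X with hα
  set F : A[X] := (H.map (mapRingHom MvPolynomial.C)).eval α with hF
  have hwm : w.Monic := monic_prod_of_monic _ _ fun r _ => monic_X_sub_C _
  have hwm' : w'.Monic := monic_prod_of_monic _ _ fun r _ => monic_X_sub_C _
  have hlow : (b.map MvPolynomial.C + w * CT_gm MvPolynomial.X : A[X]).degree < e := by
    refine (degree_add_le _ _).trans_lt (max_lt (degree_map_le.trans_lt hb) ?_)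
    rw [degree_mul, degree_eq_natDegree hwm.ne_zero, hw, natDegree_finsetProd_X_sub_C_eq_card,
      ← hM, add_comm M, Nat.cast_add]
    exact WithBot.add_lt_add_left (WithBot.natCast_ne_bot _) (CT_gm_deg _)
  have hα' : α = C (MvPolynomial.C ρ) * X ^ e + (b.map MvPolynomial.C + w * CT_gm MvPolynomial.X) := by
    simp [hα, add_assoc]
  obtain ⟨d1, d2⟩ := CT_top (MvPolynomial.C : K →+* A) wt (α := α) (ρ := ρ)
    (hα' ▸ (natDegree_add_le _ _).trans (max_le (natDegree_C_mul_X_pow_le _ _)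
      (natDegree_le_of_degree_le hlow.le)))
    (by rw [hα', coeff_add, coeff_eq_zero_of_degree_lt hlow]; simp)
  set c := ∑ a ∈ Finset.range (H.natDegree + 1), (H.coeff a).coeff (e * (H.natDegree - a)) * ρ ^ a
  obtain ⟨G, hG⟩ : w' ∣ F := by
    refine CT_dvd (A := A) J' fun r hr => ?_
    obtain ⟨h1, h2⟩ := Finset.mem_filter.1 hr
    have h3 : α.eval (MvPolynomial.C r) = MvPolynomial.C ((C ρ * X ^ e + b).eval r) := by
      rw [hα, eval_add, eval_mul, hw, eval_prod, Finset.prod_eq_zero h1 (by simp), zero_mul,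
        add_zero, eval_map_apply]
    change F.eval (MvPolynomial.C r) = 0
    rw [hF, CT_ev, h3, map_mapRingHom_evalEval, h2, map_zero]
  have hc : (MvPolynomial.C c : A) ≠ 0 := by simpa using top
  have hu : (C (MvPolynomial.C c) : A[X]) * C (MvPolynomial.C c⁻¹) = 1 := by
    rw [← C_mul, ← map_mul, mul_inv_cancel₀ top, map_one, C_1]
  have hFd : F.natDegree = e * H.natDegree := natDegree_eq_of_le_of_coeff_ne_zero d1 (d2 ▸ hc)
  have hFl : F.leadingCoeff = MvPolynomial.C c := by rw [leadingCoeff, hFd, d2]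
  have hfac : F = C (MvPolynomial.C c) * w' * (C (MvPolynomial.C c⁻¹) * G) := by
    linear_combination hG - w' * G * hu
  have hmon : (C (MvPolynomial.C c⁻¹) * G : A[X]).Monic := by
    rw [hfac, leadingCoeff_mul, leadingCoeff_mul, leadingCoeff_C, hwm'.leadingCoeff,
      mul_one] at hFl
    exact mul_left_cancel₀ hc (hFl.trans (mul_one _).symm)
  refine ⟨_, c, hmon, top, hfac, ?_, ?_, ?_⟩
  · rw [← hFd, hfac, mul_assoc, natDegree_C_mul hc, hwm'.natDegree_mul hmon, hw',
      natDegree_finsetProd_X_sub_C_eq_card, add_comm]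
  · have h1 : CT_TD 1 α := ((CT_TD.const _).mono (Nat.zero_le 1)).add (by
      have := (CT_TD.const (σ := Fin M) (∏ r ∈ J, (X - C r))).mul CT_TD.gm
      simpa [Polynomial.map_prod] using this)
    have h2 : CT_TD H.natDegree (w' * G) := hG ▸ h1.eval H
    have h3 := (CT_TD.const (σ := Fin M) (C c⁻¹)).mul (CT_TD.div J' h2)
    simpa using h3
  · have hww : ∀ I : Finset K, I ⊆ J → (∏ r ∈ I, (X - C (MvPolynomial.C r)) : A[X]).map
        (MvPolynomial.map φ) = ∏ r ∈ I, (X - C (MvPolynomial.C r)) := fun I hI => by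
      rw [Polynomial.map_prod]
      exact Finset.prod_congr rfl fun r hr => by simp [hJ r (hI hr)]
    have hcm : (MvPolynomial.map φ : A →+* A).comp MvPolynomial.C = MvPolynomial.C.comp φ :=
      RingHom.ext fun a => by simp
    have h1 : α.map (MvPolynomial.map φ) = α := by
      rw [hα, Polynomial.map_add, Polynomial.map_mul, hww J le_rfl, CT_gm_map, Polynomial.map_map,
        hcm, ← Polynomial.map_map]
      simp [hρ, hφ, hw]
    have h2 : F.map (MvPolynomial.map φ) = F := by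
      have h3 := hom_eval₂ H (mapRingHom (MvPolynomial.C : K →+* A))
        (mapRingHom (MvPolynomial.map φ : A →+* A)) α
      rw [hF, eval_map]
      refine h3.trans ?_
      rw [mapRingHom_comp, hcm, ← mapRingHom_comp, ← eval₂_map, hH, coe_mapRingHom, h1]
    have h4 : φ c = c := by
      have := congrArg (coeff · (e * H.natDegree)) h2
      simp only [coeff_map] at this
      rw [d2] at this
      simpa using this
    rw [hfac, Polynomial.map_mul, Polynomial.map_mul, hww J' (Finset.filter_subset _ _),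
      map_C, MvPolynomial.map_C, h4] at h2
    exact mul_left_cancel₀ (mul_ne_zero (C_ne_zero.2 hc) hwm'.ne_zero) h2

/-- The statement `CC`. -/
def StCC (p : ℕ) (K : Type) [Field K] : Prop :=
  ∀ (n D M : ℕ), 0 < M → ∀ ε : ℝ, 0 < ε → ∃ q₀ : ℕ, ∀ f : ℕ, q₀ ≤ p ^ f →
    ∀ (ι : Type) [Fintype ι] [DecidableEq ι] (h : ι → (MvPolynomial (Fin M) K)[X]),
    (∀ i, (h i).Monic) → Full n h → (∀ i a, ((h i).coeff a).totalDegree ≤ D) →
    (∀ i a d, MvPolynomial.coeff d ((h i).coeff a) ^ p ^ f = MvPolynomial.coeff d ((h i).coeff a)) →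
    |({t : Fin M → K | (∀ i, t i ^ p ^ f = t i) ∧
        Spl (p ^ f) n ((∏ i, h i).map (MvPolynomial.eval t))}.ncard : ℝ) *
      ∏ i, ((h i).natDegree.factorial : ℝ) - (p ^ f : ℝ) ^ M| ≤ ε * (p ^ f : ℝ) ^ M

open Classical in
/-- The statement `GAL`. -/
def StGAL (K : Type) [Field K] : Prop :=
  ∀ (M : ℕ), 4 ≤ M → ∀ {ι : Type} [Fintype ι]
    [DecidableEq ι] {H : ι → K[X][X]}, Crv H → ∀ (J : Finset K) (a₀ : K[X]),
    (∀ r ∈ J, (∏ i, H i).evalEval r (a₀.eval r) = 0 →
      (derivative (∏ i, H i)).evalEval r (a₀.eval r) ≠ 0) →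
    ∀ (h : ι → (MvPolynomial (Fin M) K)[X]), (∀ i, (h i).Monic) → ∀ (c : ι → K), (∀ i, c i ≠ 0) →
    (∀ i, ((H i).map (mapRingHom (MvPolynomial.C : K →+* MvPolynomial (Fin M) K))).eval
        (a₀.map MvPolynomial.C + (∏ r ∈ J, (X - C (MvPolynomial.C r))) *
          ∑ k : Fin M, C (MvPolynomial.X k) * X ^ (k : ℕ)) =
      (C (MvPolynomial.C (c i)) : (MvPolynomial (Fin M) K)[X]) *
        (∏ r ∈ J.filter (fun r => (H i).evalEval r (a₀.eval r) = 0),
          (X - C (MvPolynomial.C r) : (MvPolynomial (Fin M) K)[X])) * h i) →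
    Full (∑ i, (h i).natDegree) h

theorem CT_spec {M : ℕ} (t : Fin M → K) (H : K[X][X]) (a : K[X]) (J : Finset K) :
    ((H.map (mapRingHom (MvPolynomial.C : K →+* MvPolynomial (Fin M) K))).eval
        (a.map MvPolynomial.C + (∏ r ∈ J, (X - C (MvPolynomial.C r))) *
          CT_gm MvPolynomial.X)).map (MvPolynomial.eval t) =
      H.eval (a + (∏ r ∈ J, (X - C r)) * CT_gm t) := by
  have hcm : (MvPolynomial.eval t).comp MvPolynomial.C = RingHom.id K :=
    RingHom.ext fun a => by simp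
  rw [eval_map]
  refine (hom_eval₂ H (mapRingHom MvPolynomial.C) (mapRingHom (MvPolynomial.eval t)) _).trans ?_
  rw [mapRingHom_comp, hcm, mapRingHom_id, eval₂_id, coe_mapRingHom, Polynomial.map_add,
    Polynomial.map_mul, CT_gm_map, Polynomial.map_map, hcm, Polynomial.map_id, Polynomial.map_prod]
  simp

theorem CT_ne {M : ℕ} (hM : 0 < M) {H : K[X][X]} {a : K[X]} {J : Finset K} {c : K}
    {h : (MvPolynomial (Fin M) K)[X]}
    (hh : ∀ t : Fin M → K, H.eval (a + (∏ r ∈ J, (X - C r)) * CT_gm t) =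
      C c * (∏ r ∈ J, (X - C r)) * h.map (MvPolynomial.eval t)) {r : K} (hr : r ∈ J)
    (hd : (derivative H).evalEval r (a.eval r) ≠ 0) : h.eval (MvPolynomial.C r) ≠ 0 := by
  intro h0
  have h1 : ∀ t : Fin M → K, (h.map (MvPolynomial.eval t)).eval r = 0 := fun t => by
    have := eval_map_apply (p := h) (MvPolynomial.eval t) (MvPolynomial.C r)
    rw [h0] at this
    simpa using this
  set w : K[X] := ∏ r ∈ J, (X - C r) with hw
  have hwm : w.Monic := monic_prod_of_monic _ _ fun r _ => monic_X_sub_C _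
  have h2 := hh fun k => (0 : K[X]).coeff k
  have h3 := hh fun k => (1 : K[X]).coeff k
  rw [CT_gm_self (by simp), mul_zero, add_zero] at h2
  rw [CT_gm_self (by simpa using hM), mul_one] at h3
  obtain ⟨k, hk⟩ := binomExpansion H a w
  have h4 : (derivative H).eval a + k * w = C c * (h.map (MvPolynomial.eval fun k : Fin M =>
      (1 : K[X]).coeff k) - h.map (MvPolynomial.eval fun k : Fin M => (0 : K[X]).coeff k)) :=
    mul_left_cancel₀ hwm.ne_zero (by linear_combination h3 - h2 - hk)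
  have h5 := congrArg (eval r) h4
  rw [eval_add, eval_mul, eval_mul, eval_sub, h1, h1, hw, eval_prod,
    Finset.prod_eq_zero hr (by simp), CT_ev] at h5
  exact hd (by simpa using h5)

theorem CT_num {q : ℝ} {M : ℕ} {a b B D ε P : ℝ} (hq : 0 < q) (hP : 0 ≤ P) (hPB : P ≤ B)
    (hab : a ≤ b) (h1 : (b - a) * q ≤ 2 * (D * q ^ M)) (h2 : |b * P - q ^ M| ≤ ε / 2 * q ^ M)
    (hD : 0 ≤ D) (h3 : 4 * D * B ≤ ε * q) : |a * P - q ^ M| ≤ ε * q ^ M := by
  have h4 : (b - a) * P ≤ ε / 2 * q ^ M := by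
    refine le_of_mul_le_mul_right ?_ hq
    have h5 : 0 ≤ q ^ M := by positivity
    calc (b - a) * P * q = (b - a) * q * P := by ring
      _ ≤ 2 * (D * q ^ M) * B := mul_le_mul h1 hPB hP (by positivity)
      _ = 4 * D * B * (q ^ M / 2) := by ring
      _ ≤ ε * q * (q ^ M / 2) := mul_le_mul_of_nonneg_right h3 (by positivity)
      _ = _ := by ring
  have h6 : 0 ≤ (b - a) * P := mul_nonneg (sub_nonneg.2 hab) hP
  rw [abs_le] at h2 ⊢
  constructor <;> nlinarith [h2.1, h2.2]

open Classical in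
theorem CT_of (p D e : ℕ) [Fact p.Prime] (he : 6 ≤ e) (ε : ℝ) (hε : 0 < ε) (K : Type) [Field K]
    [IsAlgClosed K] [CharP K p] (hCC : StCC p K) (hGAL : StGAL K) : ∃ q₀ : ℕ, ∀ f : ℕ, q₀ ≤ p ^ f →
    ∀ (ι : Type) [Fintype ι] [DecidableEq ι] (H : ι → K[X][X]) (ρ : K), Fam (p ^ f) D e ρ H →
    ∀ (J : Finset (K × K)) (bl : K × K → ι), J.card ≤ 2 → Set.InjOn Prod.fst (J : Set (K × K)) →
    (∀ x ∈ J, x.1 ^ p ^ f = x.1 ∧ x.2 ^ p ^ f = x.2 ∧ (H (bl x)).evalEval x.1 x.2 = 0 ∧
      (derivative (∏ i, H i)).evalEval x.1 x.2 ≠ 0) →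
    |({t : Fin e → K | (∀ i, t i ^ p ^ f = t i) ∧ (∀ x ∈ J, (al ρ t).eval x.1 = x.2) ∧
        Spl (p ^ f) (e * ∑ i, (H i).natDegree) ((∏ i, H i).eval (al ρ t))}.ncard : ℝ) *
      ∏ i, ((e * (H i).natDegree - (J.filter (fun x => bl x = i)).card).factorial : ℝ) -
      (p ^ f : ℝ) ^ (e - J.card)| ≤ ε * (p ^ f : ℝ) ^ (e - J.card) := by
  choose Q hQ using fun (z : ℕ × ℕ) => hCC z.1 D (z.2 + 1) (Nat.succ_pos _) (ε / 2) (by positivity)
  obtain ⟨q₁, hq₁⟩ := exists_nat_ge (4 * D * (e * D).factorial / ε : ℝ)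
  refine ⟨max (max 2 q₁) ((Finset.range (e * D + 1) ×ˢ Finset.range e).sup Q), ?_⟩
  intro f hf ι _ _ H ρ hF J bl hJ2 hi hJ
  have hq : 1 < p ^ f := (le_max_left _ _).trans ((le_max_left _ _).trans hf)
  obtain ⟨S, hSc, hS⟩ := CT_fix (K := K) p f hq
  set φ : K →+* K := iterateFrobenius K p f
  obtain ⟨M, hM⟩ : ∃ M, M + 1 + J.card = e := ⟨e - J.card - 1, by omega⟩
  obtain ⟨b, hb, hbφ, hv⟩ := CT_a0 φ e hF.rho J hi fun x hx => ⟨(hJ x hx).1, (hJ x hx).2.1⟩
  have hI : ∀ {r}, r ∈ J.image Prod.fst → ∃ x ∈ J, x.1 = r := fun hr => Finset.mem_image.1 hr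
  have hIc : (J.image Prod.fst).card = J.card := Finset.card_image_of_injOn hi
  have hIφ : ∀ r ∈ J.image Prod.fst, φ r = r := fun r hr => by
    obtain ⟨x, hx, rfl⟩ := hI hr
    exact (hJ x hx).1
  choose h c hm hc hh hd htd hφ using fun i => CT_h φ (M := M + 1) (H := H i)
    (by ext a b; simpa [φ, iterateFrobenius_def] using hF.rat i a b) (hF.wt i) (hF.top i) hF.rho
    (J.image Prod.fst) (hIc ▸ hM) hIφ
    (hb.trans_le (by exact_mod_cast (by omega : J.card ≤ e))) hbφ
  set a := C ρ * X ^ e + b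
  have hfil : ∀ i, (J.image Prod.fst).filter (fun r => (H i).evalEval r (a.eval r) = 0) =
      (J.filter (fun x => bl x = i)).image Prod.fst := fun i => by
    rw [Finset.filter_image]
    refine congrArg _ (Finset.filter_congr fun x hx => ?_)
    rw [hv x hx]
    exact ⟨fun h => CT_two (hJ x hx).2.2.1 h (hJ x hx).2.2.2, fun h => h ▸ (hJ x hx).2.2.1⟩
  have hcard : ∀ i, (h i).natDegree + (J.filter (fun x => bl x = i)).card = e * (H i).natDegree :=
    fun i => by
      rw [← hd i, hfil, Finset.card_image_of_injOn (hi.mono (by simp [Set.subset_def]; tauto))]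
  have hn : ∑ i, (h i).natDegree + (J.image Prod.fst).card = e * ∑ i, (H i).natDegree := by
    rw [hIc, Finset.mul_sum, ← Finset.sum_congr rfl fun i _ => hcard i, Finset.sum_add_distrib,
      ← Finset.card_eq_sum_card_fiberwise (fun x _ => Finset.mem_univ (bl x))]
  have hsp : ∀ t : Fin (M + 1) → K, (∏ i, H i).eval (a + (∏ r ∈ J.image Prod.fst, (X - C r)) *
      CT_gm t) = C (∏ i, c i) * (∏ r ∈ J.image Prod.fst, (X - C r)) *
        (∏ i, h i).map (MvPolynomial.eval t) := fun t => by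
    rw [eval_prod, map_prod, Polynomial.map_prod, Finset.prod_image hi,
      ← Finset.prod_fiberwise J bl, ← Finset.prod_mul_distrib, ← Finset.prod_mul_distrib,
      Finset.prod_fiberwise J bl, ← Finset.prod_image (f := fun r => X - C r) hi]
    refine Finset.prod_congr rfl fun i _ => ?_
    rw [← CT_spec, hh i, hfil, Finset.prod_image (hi.mono (by simp [Set.subset_def]; tauto))]
    simp [Polynomial.map_prod]
  have hle : ∑ i, (h i).natDegree ≤ e * D :=
    (Nat.le_add_right _ _).trans (hn.le.trans (Nat.mul_le_mul_left e hF.deg))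
  have hfull := hGAL (M + 1) (by omega) hF.crv (J.image Prod.fst) a (fun r hr _ => by
    obtain ⟨x, hx, rfl⟩ := hI hr
    rw [hv x hx]
    exact (hJ x hx).2.2.2) h hm c hc hh
  have hcc := hQ (∑ i, (h i).natDegree, M) f ((Finset.le_sup (f := Q) (by
      simp only [Finset.mem_product, Finset.mem_range]; omega)).trans ((le_max_right _ _).trans hf))
    ι h hm hfull (fun i a => (htd i a).trans ((Finset.single_le_sum
      (f := fun i => (H i).natDegree) (fun _ _ => Nat.zero_le _) (Finset.mem_univ i)).trans hF.deg))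
    fun i a d => by
      have := congrArg (fun P => MvPolynomial.coeff d (coeff P a)) (hφ i)
      simpa [MvPolynomial.coeff_map, φ, iterateFrobenius_def] using this
  have hbij := CT_bij φ ρ J hM hi (fun x hx => (hJ x hx).1) hb hbφ hv
    fun P => Spl (p ^ f) (e * ∑ i, (H i).natDegree) ((∏ i, H i).eval P)
  simp only [φ, iterateFrobenius_def] at hbij
  have hsub' : ∀ i, e * (H i).natDegree - (J.filter (fun x => bl x = i)).card = (h i).natDegree :=
    fun i => by rw [← hcard i, Nat.add_sub_cancel]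
  rw [hbij, show e - J.card = M + 1 by omega]
  simp only [a] at hsp
  simp only [hsp, ← hn, hsub']
  have hq0 : (0 : ℝ) < (p : ℝ) ^ f := by exact_mod_cast (zero_lt_one.trans hq)
  refine CT_num (B := (e * D).factorial) (D := D) hq0 (by positivity) ?_ ?_ ?_ hcc (by positivity) ?_
  · exact_mod_cast (Nat.le_of_dvd (Nat.factorial_pos _)
      (Nat.prod_factorial_dvd_factorial_sum _ _)).trans (Nat.factorial_le hle)
  · exact Nat.cast_le.2 (Set.ncard_le_ncard (fun t ht => ⟨ht.1, CT_spl1 ht.2⟩) (CT_fin hS _))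
  · set Z : K → Set (Fin (M + 1) → K) := fun r => {t | (∀ i, t i ^ p ^ f = t i) ∧
      MvPolynomial.eval t ((∏ i, h i).eval (MvPolynomial.C r)) = 0}
    have hZ : ∀ r ∈ J.image Prod.fst, ((Z r).ncard : ℝ) * (p ^ f : ℝ) ≤ D * (p ^ f : ℝ) ^ (M + 1) :=
      fun r hr => by
        obtain ⟨x, hx, rfl⟩ := hI hr
        have := CT_sz (zero_lt_one.trans hq) hSc hS (CT_ne (Nat.succ_pos M) hsp hr
          (by rw [hv x hx]; exact (hJ x hx).2.2.2))
          (((CT_TD.prod Finset.univ fun i _ => htd i).at x.1).trans hF.deg)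
        exact_mod_cast this
    have hsub : {t : Fin (M + 1) → K | (∀ i, t i ^ p ^ f = t i) ∧
        Spl (p ^ f) (∑ i, (h i).natDegree) ((∏ i, h i).map (MvPolynomial.eval t))} ⊆
        {t : Fin (M + 1) → K | (∀ i, t i ^ p ^ f = t i) ∧
          Spl (p ^ f) (∑ i, (h i).natDegree + (J.image Prod.fst).card) (C (∏ i, c i) *
            (∏ r ∈ J.image Prod.fst, (X - C r)) * (∏ i, h i).map (MvPolynomial.eval t))} ∪
          ⋃ r ∈ J.image Prod.fst, Z r := fun t ht => by
      by_cases h0 : ∀ r ∈ J.image Prod.fst, ((∏ i, h i).map (MvPolynomial.eval t)).eval r ≠ 0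
      · exact Or.inl ⟨ht.1, CT_spl2 hIφ (Finset.prod_ne_zero_iff.2 fun i _ => hc i) ht.2 h0⟩
      · push Not at h0
        obtain ⟨r, hr, h0⟩ := h0
        refine Or.inr (Set.mem_biUnion hr ⟨ht.1, ?_⟩)
        rw [← eval_map_apply]
        simpa using h0
    have h1 := (Set.ncard_le_ncard hsub ((CT_fin hS _).union ((Finset.finite_toSet _).biUnion
      fun r _ => CT_fin hS _))).trans ((Set.ncard_union_le _ _).trans
        (Nat.add_le_add_left (Finset.set_ncard_biUnion_le _ _) _))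
    have h2 := (Nat.cast_le (α := ℝ)).2 h1
    rw [Nat.cast_add, Nat.cast_sum, ← sub_le_iff_le_add'] at h2
    refine (mul_le_mul_of_nonneg_right h2 hq0.le).trans ?_
    rw [Finset.sum_mul]
    refine (Finset.sum_le_card_nsmul _ _ _ hZ).trans ?_
    rw [nsmul_eq_mul, hIc]
    exact mul_le_mul_of_nonneg_right (by exact_mod_cast hJ2) (by positivity)
  · rw [div_le_iff₀ hε, mul_comm _ ε] at hq₁
    refine hq₁.trans (mul_le_mul_of_nonneg_left ?_ hε.le)
    exact_mod_cast (le_max_right _ _).trans ((le_max_left _ _).trans hf)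

end Pool.Agent.MP_a9d3bd_g
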