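import Pool.Agent.MP_a9d3bd_g.BDefs

namespace Pool.Agent.MP_a9d3bd_g

open Polynomial

open Classical in
/-- The counting statement for the parameters `p, D, e`. -/
def CTs (p D e : ℕ) (K : Type) [Field K] : Prop :=
  ∀ ε : ℝ, 0 < ε → ∃ q₀ : ℕ, ∀ f : ℕ, q₀ ≤ p ^ f →
    ∀ (ι : Type) [Fintype ι] [DecidableEq ι] (H : ι → K[X][X]) (ρ : K), Fam (p ^ f) D e ρ H →
    ∀ (J : Finset (K × K)) (bl : K × K → ι), J.card ≤ 2 → Set.InjOn Prod.fst (J : Set (K × K)) →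
    (∀ x ∈ J, x.1 ^ p ^ f = x.1 ∧ x.2 ^ p ^ f = x.2 ∧ (H (bl x)).evalEval x.1 x.2 = 0 ∧
      (derivative (∏ i, H i)).evalEval x.1 x.2 ≠ 0) →
    |({t : Fin e → K | (∀ i, t i ^ p ^ f = t i) ∧ (∀ x ∈ J, (al ρ t).eval x.1 = x.2) ∧
        Spl (p ^ f) (e * ∑ i, (H i).natDegree) ((∏ i, H i).eval (al ρ t))}.ncard : ℝ) *
      ∏ i, ((e * (H i).natDegree - (J.filter (fun x => bl x = i)).card).factorial : ℝ) -
      (p ^ f : ℝ) ^ (e - J.card)| ≤ ε * (p ^ f : ℝ) ^ (e - J.card)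

end Pool.Agent.MP_a9d3bd_g
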