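import Pool.Agent.MP_a9d3bd_g.ACT
import Pool.Agent.MP_a9d3bd_g.BDefs2

namespace Pool.Agent.MP_a9d3bd_g

/-- The counting statement for all `e ≥ 6`. -/
theorem CTall (p D e : ℕ) [Fact p.Prime] (he : 6 ≤ e) (K : Type) [Field K] [IsAlgClosed K]
    [CharP K p] : CTs p D e K := fun ε hε => CT p D e he ε hε K

/-- The counting statement for all large `e`. -/
theorem CTe (p D : ℕ) [Fact p.Prime] (K : Type) [Field K] [IsAlgClosed K] [CharP K p] :
    ∃ e₀ : ℕ, ∀ e, e₀ ≤ e → CTs p D e K := ⟨6, fun e he => CTall p D e he K⟩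

end Pool.Agent.MP_a9d3bd_g
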