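import Mathlib

namespace Pool.Agent.MP_a9d3bd_g

open Polynomial

variable {K : Type} [Field K]

/-- `h` has degree `n` and `n` distinct roots fixed by `x ↦ x ^ q`. -/
def Spl (q n : ℕ) (h : K[X]) : Prop :=
  ∃ s : Finset K, s.card = n ∧ (∀ x ∈ s, x ^ q = x) ∧ ∃ c : K, c ≠ 0 ∧ h = C c * ∏ x ∈ s, (X - C x)

/-- The polynomial `ρ S ^ e + ∑ t i S ^ i`. -/
noncomputable def al {e : ℕ} (ρ : K) (t : Fin e → K) : K[X] :=
  C ρ * X ^ e + ∑ i, C (t i) * X ^ (i : ℕ)

/-- Distinct irreducible separable plane curves, finite over the `S`-line. -/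
structure Crv {ι : Type} (H : ι → K[X][X]) : Prop where
  irr : ∀ i, Irreducible (H i)
  lead : ∀ i, IsUnit (H i).leadingCoeff
  sep : ∀ i, derivative (H i) ≠ 0
  ne : ∀ i j, i ≠ j → ¬ H i ∣ H j

/-- The curves are rational, of bounded degree, and `H i (S, ρ S ^ e + ...)` has degree
`e * deg H i`. -/
structure Fam (q D e : ℕ) (ρ : K) {ι : Type} [Fintype ι] (H : ι → K[X][X]) : Prop where
  crv : Crv H
  rat : ∀ i a b, ((H i).coeff a).coeff b ^ q = ((H i).coeff a).coeff b
  wt : ∀ i a, (H i).coeff a ≠ 0 → ((H i).coeff a).natDegree + e * a ≤ e * (H i).natDegree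
  top : ∀ i, ∑ a ∈ Finset.range ((H i).natDegree + 1),
    ((H i).coeff a).coeff (e * ((H i).natDegree - a)) * ρ ^ a ≠ 0
  deg : ∑ i, (H i).natDegree ≤ D
  rho : ρ ^ q = ρ

/-- The Galois group of the product of the `h i` is the product of the symmetric groups. -/
def Full {M : ℕ} {ι : Type} [DecidableEq ι] (n : ℕ) (h : ι → (MvPolynomial (Fin M) K)[X]) : Prop :=
  ∃ (L : Type) (_ : Field L) (_ : Algebra (FractionRing (MvPolynomial (Fin M) K)) L)
    (_ : IsGalois (FractionRing (MvPolynomial (Fin M) K)) L)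
    (_ : FiniteDimensional (FractionRing (MvPolynomial (Fin M) K)) L) (z : Fin n → L)
    (bl : Fin n → ι), Function.Injective z ∧
    (∀ i, (h i).map ((algebraMap (FractionRing (MvPolynomial (Fin M) K)) L).comp
        (algebraMap (MvPolynomial (Fin M) K) (FractionRing (MvPolynomial (Fin M) K)))) =
      ∏ j ∈ Finset.univ.filter (fun j => bl j = i), (X - C (z j))) ∧
    ∀ σ : Equiv.Perm (Fin n), (∀ j, bl (σ j) = bl j) →
      ∃ g : L ≃ₐ[FractionRing (MvPolynomial (Fin M) K)] L, ∀ j, g (z j) = z (σ j)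

end Pool.Agent.MP_a9d3bd_g
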