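import Pool.Agent.MP_a9d3bd_g.ADefs

namespace Pool.Agent.MP_a9d3bd_g

open Polynomial

theorem GI1_hom (K B : Type) [Field K] [IsAlgClosed K] [CommRing B] [Nontrivial B] [Algebra K B]
    [Algebra.FiniteType K B] : Nonempty (B →ₐ[K] K) := by
  obtain ⟨m, hm⟩ := Ideal.exists_maximal B
  let := Ideal.Quotient.field m
  have : Module.Finite K (B ⧸ m) := finite_of_finite_type_of_isJacobsonRing K (B ⧸ m)
  have bij := IsAlgClosed.algebraMap_bijective_of_isIntegral (k := K) (K := B ⧸ m)
  exact ⟨(AlgEquiv.ofBijective (Algebra.ofId K (B ⧸ m)) bij).symm.toAlgHom.comp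
    (Ideal.Quotient.mkₐ K m)⟩

theorem GI1_le {R S σ : Type} [CommRing R] [CommRing S] (f : R →+* S) (p : MvPolynomial σ R) :
    (MvPolynomial.map f p).totalDegree ≤ p.totalDegree :=
  Finset.sup_mono (MvPolynomial.support_map_subset f p)

theorem GI1_eq {R S σ : Type} [CommRing R] [CommRing S] {f : R →+* S} (hf : Function.Injective f)
    (p : MvPolynomial σ R) : (MvPolynomial.map f p).totalDegree = p.totalDegree := by
  unfold MvPolynomial.totalDegree
  rw [MvPolynomial.support_map_of_injective p hf]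

theorem GI1_unit {W σ : Type} [Field W] {F : MvPolynomial σ W} (h0 : F ≠ 0)
    (h : F.totalDegree = 0) : IsUnit F := by
  refine MvPolynomial.isUnit_iff_totalDegree_of_isReduced.2 ⟨Ne.isUnit fun e => h0 ?_, h⟩
  rw [MvPolynomial.totalDegree_eq_zero_iff_eq_C.1 h, e, map_zero]

/-- Irreducibility survives extension of an algebraically closed field. -/
theorem GI1 {K W σ : Type} [Field K] [IsAlgClosed K] [Field W] [Algebra K W] [Finite σ]
    {P : MvPolynomial σ K} (h : Irreducible P) :
    Irreducible (MvPolynomial.map (algebraMap K W) P) := by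
  classical
  have hinj : Function.Injective (algebraMap K W) := (algebraMap K W).injective
  have hP0 : MvPolynomial.map (algebraMap K W) P ≠ 0 := fun e =>
    h.ne_zero (MvPolynomial.map_injective _ hinj (by rw [e, map_zero]))
  refine ⟨fun hu => h.not_isUnit (GI1_unit h.ne_zero ?_), fun F G hFG => ?_⟩
  · rw [← GI1_eq hinj]
    exact (MvPolynomial.isUnit_iff_totalDegree_of_isReduced.1 hu).2
  have hF0 : F ≠ 0 := left_ne_zero_of_mul (hFG ▸ hP0)
  have hG0 : G ≠ 0 := right_ne_zero_of_mul (hFG ▸ hP0)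
  let B : Subalgebra K W := Algebra.adjoin K ((F.coeffs ∪ G.coeffs : Finset W) : Set W)
  have : Algebra.FiniteType K B :=
    (Subalgebra.fg_iff_finiteType B).1 ⟨F.coeffs ∪ G.coeffs, rfl⟩
  obtain ⟨φ⟩ := GI1_hom K B
  have hv : Function.Injective (algebraMap B W) := Subtype.val_injective
  obtain ⟨F1, hF1⟩ : F ∈ Set.range (MvPolynomial.map (algebraMap B W)) :=
    MvPolynomial.mem_range_map_iff_coeffs_subset.2 fun x hx =>
      ⟨⟨x, Algebra.subset_adjoin (Finset.mem_coe.2 (Finset.mem_union_left _ hx))⟩, rfl⟩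
  obtain ⟨G1, hG1⟩ : G ∈ Set.range (MvPolynomial.map (algebraMap B W)) :=
    MvPolynomial.mem_range_map_iff_coeffs_subset.2 fun x hx =>
      ⟨⟨x, Algebra.subset_adjoin (Finset.mem_coe.2 (Finset.mem_union_right _ hx))⟩, rfl⟩
  have e1 : MvPolynomial.map (algebraMap K B) P = F1 * G1 := by
    apply MvPolynomial.map_injective _ hv
    rw [map_mul, hF1, hG1, ← hFG, MvPolynomial.map_map, ← IsScalarTower.algebraMap_eq]
  have e2 : P = MvPolynomial.map (φ : B →+* K) F1 * MvPolynomial.map (φ : B →+* K) G1 := by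
    rw [← map_mul, ← e1, MvPolynomial.map_map, AlgHom.comp_algebraMap]
    exact (MvPolynomial.map_id P).symm
  have d1 := MvPolynomial.totalDegree_mul_of_isDomain hF0 hG0
  have d2 := MvPolynomial.totalDegree_mul_of_isDomain (left_ne_zero_of_mul (e2 ▸ h.ne_zero))
    (right_ne_zero_of_mul (e2 ▸ h.ne_zero))
  rw [← hFG, GI1_eq hinj] at d1
  rw [← e2] at d2
  have l1 := GI1_le (φ : B →+* K) F1
  have l2 := GI1_le (φ : B →+* K) G1
  have m1 := GI1_eq hv F1
  have m2 := GI1_eq hv G1
  rw [hF1] at m1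
  rw [hG1] at m2
  rcases h.isUnit_or_isUnit e2 with hu | hu
  · have := (MvPolynomial.isUnit_iff_totalDegree_of_isReduced.1 hu).2
    exact Or.inl (GI1_unit hF0 (by omega))
  · have := (MvPolynomial.isUnit_iff_totalDegree_of_isReduced.1 hu).2
    exact Or.inr (GI1_unit hG0 (by omega))

end Pool.Agent.MP_a9d3bd_g
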