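import Pool.Agent.MP_a9d3bd_g.ADefs

namespace Pool.Agent.MP_a9d3bd_g

open Polynomial

theorem NF_ext {A B W : Type} [CommRing A] [CommRing B] [Algebra A B] [Algebra.IsIntegral A B]
    [Field W] [IsAlgClosed W] (x : A →+* W) (h : RingHom.ker (algebraMap A B) ≤ RingHom.ker x) :
    ∃ y : B →+* W, ∀ a, y (algebraMap A B a) = x a := by
  have := RingHom.ker_isPrime x
  obtain ⟨Q, -, hQ, hc⟩ := Ideal.exists_ideal_over_prime_of_isIntegral (RingHom.ker x)
    (⊥ : Ideal B) (by rwa [← RingHom.ker_eq_comap_bot])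
  have h1 : ∀ a ∈ Q.comap (algebraMap A B), x a = 0 := fun a ha => by
    rw [hc] at ha
    exact ha
  let : Algebra (A ⧸ Q.comap (algebraMap A B)) W := (Ideal.Quotient.lift _ x h1).toAlgebra
  have inj : Function.Injective (algebraMap (A ⧸ Q.comap (algebraMap A B)) W) :=
    (Ideal.injective_lift_iff h1).2 hc.symm
  have : Algebra.IsIntegral (A ⧸ Q.comap (algebraMap A B)) (B ⧸ Q) := Algebra.IsIntegral.quotient
  have : FaithfulSMul (A ⧸ Q.comap (algebraMap A B)) W :=
    (faithfulSMul_iff_algebraMap_injective _ _).2 inj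
  have : FaithfulSMul (A ⧸ Q.comap (algebraMap A B)) (B ⧸ Q) :=
    (faithfulSMul_iff_algebraMap_injective _ _).2 Ideal.algebraMap_quotient_injective
  let l : (B ⧸ Q) →ₐ[A ⧸ Q.comap (algebraMap A B)] W := IsAlgClosed.lift
  exact ⟨l.toRingHom.comp (Ideal.Quotient.mk Q), fun a => l.commutes (Ideal.Quotient.mk _ a)⟩

theorem NF_swap {A : Type} [CommRing A] (F : A[X][X]) (i j : ℕ) :
    ((Bivariate.swap F).coeff i).coeff j = (F.coeff j).coeff i := by
  induction F using Polynomial.induction_on' with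
  | add p q hp hq => simp [hp, hq]
  | monomial n f =>
    rw [Bivariate.swap_monomial, coeff_mul_C, coeff_map, coeff_C_mul, coeff_X_pow, coeff_monomial]
    by_cases h : n = j
    · simp [h]
    · simp [h, Ne.symm h]

theorem NF_swap_le {A : Type} [CommRing A] (F : A[X][X]) (D : ℕ) :
    (Bivariate.swap F).natDegree ≤ D ↔ ∀ i, (F.coeff i).natDegree ≤ D := by
  simp only [natDegree_le_iff_coeff_eq_zero, ← NF_swap F]
  exact ⟨fun h i N hN => by rw [h N hN, coeff_zero], fun h N hN => ext fun i => h i N hN⟩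

theorem NF_bd {k : Type} [Field k] {F G : k[X][X]} (h : F ∣ G) (hG : G ≠ 0) {D : ℕ}
    (hD : ∀ i, (G.coeff i).natDegree ≤ D) : ∀ i, (F.coeff i).natDegree ≤ D :=
  (NF_swap_le F D).1 ((natDegree_le_of_dvd (map_dvd Bivariate.swap h)
    ((map_ne_zero_iff _ Bivariate.swap.injective).2 hG)).trans ((NF_swap_le G D).2 hD))

/-- The monic polynomial with the given lower coefficients. -/
noncomputable def NF_U {R : Type} [CommRing R] (n D : ℕ) (c : Fin n × Fin (D + 1) → R) : R[X][X] :=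
  X ^ n + ∑ i : Fin n, C (∑ j : Fin (D + 1), C (c (i, j)) * X ^ (j : ℕ)) * X ^ (i : ℕ)

theorem NF_monic {R : Type} [CommRing R] (n D : ℕ) (c : Fin n × Fin (D + 1) → R) :
    (NF_U n D c).Monic := monic_X_pow_add (degree_sum_fin_lt _)

theorem NF_deg {R : Type} [CommRing R] [Nontrivial R] (n D : ℕ) (c : Fin n × Fin (D + 1) → R) :
    (NF_U n D c).natDegree = n := by
  rw [NF_U, natDegree_add_eq_left_of_degree_lt, natDegree_X_pow]
  rw [degree_X_pow]
  exact degree_sum_fin_lt _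

theorem NF_map {R S : Type} [CommRing R] [CommRing S] (f : R →+* S) (n D : ℕ)
    (c : Fin n × Fin (D + 1) → R) :
    (NF_U n D c).map (mapRingHom f) = NF_U n D fun p => f (c p) := by
  simp only [NF_U, Polynomial.map_add, Polynomial.map_pow, map_X, Polynomial.map_sum,
    Polynomial.map_mul, map_C, coe_mapRingHom]

theorem NF_cf {R : Type} [CommRing R] {n : ℕ} (f : Fin n → R) (k : Fin n) :
    (∑ i : Fin n, C (f i) * X ^ (i : ℕ)).coeff k = f k := by
  simp [finsetSum_coeff, coeff_C_mul, coeff_X_pow, Fin.val_inj]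

theorem NF_coeff {R : Type} [CommRing R] (n D : ℕ) (c : Fin n × Fin (D + 1) → R)
    (p : Fin n × Fin (D + 1)) : ((NF_U n D c).coeff p.1).coeff p.2 = c p := by
  rw [NF_U, coeff_add, coeff_X_pow, if_neg p.1.2.ne, zero_add, NF_cf,
    NF_cf fun j => c (p.1, j)]

theorem NF_eq {R : Type} [CommRing R] {n D : ℕ} {F : R[X][X]} (h1 : F.Monic)
    (h2 : F.natDegree = n) (h3 : ∀ i, (F.coeff i).natDegree ≤ D) :
    NF_U n D (fun p => (F.coeff p.1).coeff p.2) = F := by
  conv_rhs => rw [h1.as_sum, h2, Finset.sum_range]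
  unfold NF_U
  refine congrArg _ (Finset.sum_congr rfl fun i _ => ?_)
  conv_rhs => rw [as_sum_range_C_mul_X_pow' (F.coeff i) (Nat.lt_succ_of_le (h3 i)),
    Finset.sum_range]

attribute [local instance] Polynomial.algebra in
theorem NF_int {A B : Type} [CommRing A] [CommRing B] [Algebra A B] (P : A[X][X]) (hP : P.Monic)
    {d D : ℕ} (a : Fin d × Fin (D + 1) → B)
    (h : NF_U d D a ∣ P.map (mapRingHom (algebraMap A B))) (p : Fin d × Fin (D + 1)) :
    IsIntegral A (a p) := by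
  rw [← NF_coeff d D a p]
  exact (isIntegral_coeff_of_dvd P _ hP (NF_monic d D a) h p.1).coeff p.2

theorem NF_step {A : Type} [CommRing A] (P : A[X][X]) (hP : P.Monic) (d e D : ℕ) :
    ∃ I : Ideal A, ∀ (W : Type) [Field W] [IsAlgClosed W] (x : A →+* W), I ≤ RingHom.ker x ↔
      ∃ a b, P.map (mapRingHom x) = NF_U d D a * NF_U e D b := by
  let B0 := MvPolynomial ((Fin d × Fin (D + 1)) ⊕ (Fin e × Fin (D + 1))) A
  let Z : B0[X][X] := P.map (mapRingHom MvPolynomial.C) -
    NF_U d D (fun p => MvPolynomial.X (Sum.inl p)) * NF_U e D fun p => MvPolynomial.X (Sum.inr p)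
  let I0 : Ideal B0 := Ideal.span (Set.range fun ij : ℕ × ℕ => (Z.coeff ij.1).coeff ij.2)
  have key : ∀ (T : Type) [CommRing T] (y : B0 →+* T), I0 ≤ RingHom.ker y ↔
      P.map (mapRingHom (y.comp MvPolynomial.C)) =
        NF_U d D (fun p => y (MvPolynomial.X (Sum.inl p))) *
          NF_U e D fun p => y (MvPolynomial.X (Sum.inr p)) := by
    intro T _ y
    rw [← NF_map, ← NF_map, ← Polynomial.map_mul, ← mapRingHom_comp, ← Polynomial.map_map,
      ← sub_eq_zero, ← Polynomial.map_sub, Ideal.span_le, Set.range_subset_iff]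
    simp only [Polynomial.ext_iff, coeff_map, coe_mapRingHom, coeff_zero, Prod.forall,
      SetLike.mem_coe, RingHom.mem_ker]
    rfl
  have h0 := (key (B0 ⧸ I0) (Ideal.Quotient.mk I0)).1 (Ideal.mk_ker (I := I0)).ge
  have hX : ∀ s, IsIntegral A (Ideal.Quotient.mk I0 (MvPolynomial.X s)) := by
    rintro (p | p)
    · exact NF_int P hP _ (Dvd.intro _ h0.symm) p
    · exact NF_int P hP _ (Dvd.intro_left _ h0.symm) p
  have : Algebra.IsIntegral A (B0 ⧸ I0) := ⟨fun z => by
    obtain ⟨z, rfl⟩ := Ideal.Quotient.mk_surjective z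
    induction z using MvPolynomial.induction_on with
    | C a => exact isIntegral_algebraMap (x := a)
    | add p q hp hq => rw [map_add]; exact hp.add hq
    | mul_X p s hp => rw [map_mul]; exact hp.mul (hX s)⟩
  refine ⟨RingHom.ker (algebraMap A (B0 ⧸ I0)), fun W _ _ x => ⟨fun h => ?_, ?_⟩⟩
  · obtain ⟨y, hy⟩ := NF_ext x h
    have h1 := (key W (y.comp (Ideal.Quotient.mk I0))).1 fun z hz => by
      rw [RingHom.mem_ker, RingHom.comp_apply, Ideal.Quotient.eq_zero_iff_mem.2 hz, map_zero]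
    have h2 : (y.comp (Ideal.Quotient.mk I0)).comp MvPolynomial.C = x := RingHom.ext hy
    rw [h2] at h1
    exact ⟨_, _, h1⟩
  · rintro ⟨a, b, h⟩ t ht
    have h2 : (MvPolynomial.eval₂Hom x (Sum.elim a b)).comp MvPolynomial.C = x :=
      RingHom.ext fun t => MvPolynomial.eval₂Hom_C _ _ t
    have h1 := (key W (MvPolynomial.eval₂Hom x (Sum.elim a b))).2 (by
      rw [h2, h]
      congr 2 <;> funext p
      · exact (MvPolynomial.eval₂Hom_X' x (Sum.elim a b) (Sum.inl p)).symm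
      · exact (MvPolynomial.eval₂Hom_X' x (Sum.elim a b) (Sum.inr p)).symm)
    have h3 : MvPolynomial.C t ∈ I0 := Ideal.Quotient.eq_zero_iff_mem.1 ht
    have h4 := h1 h3
    rw [RingHom.mem_ker, MvPolynomial.eval₂Hom_C] at h4
    exact h4

/-- A2 (file ANF.lean): Noether forms. -/
theorem NF (K : Type) [Field K] (n D : ℕ) (hn : 0 < n) :
    ∃ J : Finset (MvPolynomial (Fin n × Fin (D + 1)) K), ∀ (W : Type) [Field W] [IsAlgClosed W]
      [Algebra K W] (F : W[X][X]), F.Monic → F.natDegree = n → (∀ i, (F.coeff i).natDegree ≤ D) →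
      (Irreducible F ↔ ∃ Φ ∈ J, MvPolynomial.aeval
        (fun ij : Fin n × Fin (D + 1) => (F.coeff ij.1).coeff ij.2) Φ ≠ 0) := by
  choose I hI using fun d : ℕ => NF_step
    (NF_U n D (MvPolynomial.X : _ → MvPolynomial (Fin n × Fin (D + 1)) K)) (NF_monic _ _ _)
    d (n - d) D
  obtain ⟨J, hJ⟩ := IsNoetherian.noetherian ((Finset.Ioo 0 n).inf I)
  refine ⟨J, fun W _ _ _ F h1 h2 h3 => ?_⟩
  let x : MvPolynomial (Fin n × Fin (D + 1)) K →+* W := (MvPolynomial.aeval
    (fun ij : Fin n × Fin (D + 1) => (F.coeff ij.1).coeff ij.2)).toRingHom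
  have hx : (NF_U n D MvPolynomial.X).map (mapRingHom x) = F := by
    rw [NF_map, ← NF_eq h1 h2 h3]
    congr 1
    funext p
    exact MvPolynomial.aeval_X _ p
  have h4 : (∀ Φ ∈ J, x Φ = 0) ↔
      ∃ d ∈ Finset.Ioo 0 n, ∃ a b, F = NF_U d D a * NF_U (n - d) D b := by
    have h5 : (∀ Φ ∈ J, x Φ = 0) ↔ (Finset.Ioo 0 n).inf I ≤ RingHom.ker x := by
      rw [← hJ, Submodule.span_le]
      exact Iff.rfl
    rw [h5, (RingHom.ker_isPrime x).inf_le']
    simp only [hI, hx]
  rw [← not_iff_not]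
  push Not
  refine Iff.trans ?_ h4.symm
  rw [h1.irreducible_iff_natDegree]
  constructor
  · intro h
    have h6 : F ≠ 1 := fun e => by
      rw [e, natDegree_one] at h2
      omega
    push Not at h
    obtain ⟨f, g, hf, hg, e, h7, h8⟩ := h h6
    have h9 := hf.natDegree_mul hg
    rw [e, h2] at h9
    refine ⟨f.natDegree, Finset.mem_Ioo.2 (by omega), fun p => (f.coeff p.1).coeff p.2,
      fun p => (g.coeff p.1).coeff p.2, ?_⟩
    rw [NF_eq hf rfl (NF_bd (Dvd.intro _ e) h1.ne_zero h3),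
      NF_eq hg (by omega) (NF_bd (Dvd.intro_left _ e) h1.ne_zero h3), e]
  · rintro ⟨d, hd, a, b, e⟩ h
    have h6 := h.2 _ _ (NF_monic _ _ a) (NF_monic _ _ b) e.symm
    rw [NF_deg, NF_deg] at h6
    rw [Finset.mem_Ioo] at hd
    omega

end Pool.Agent.MP_a9d3bd_g
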