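import Pool.Agent.MP_a9d3bd_g.UDefs

namespace Pool.Agent.MP_a9d3bd_g

open Polynomial Finset

namespace AUC

theorem exmap {J K : Type} [Zero K] (s : Finset J) :
    ∀ m : Multiset K, m.card = s.card → ∃ e : J → K, s.val.map e = m := by
  classical
  induction s using Finset.induction_on with
  | empty => exact fun m hm => ⟨0, by simpa [eq_comm] using hm⟩
  | insert a s ha ih =>
    intro m hm
    rw [card_insert_of_notMem ha] at hm
    obtain ⟨b, m', rfl⟩ : ∃ b m', m = b ::ₘ m' := by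
      obtain ⟨b, hb⟩ := Multiset.card_pos_iff_exists_mem.1 (show 0 < m.card by omega)
      obtain ⟨m', rfl⟩ := Multiset.exists_cons_of_mem hb
      exact ⟨b, m', rfl⟩
    obtain ⟨e, he⟩ := ih m' (by simpa using hm)
    refine ⟨Function.update e a b, ?_⟩
    rw [insert_val_of_notMem ha, Multiset.map_cons, Function.update_self, ← he]
    refine congrArg _ (Multiset.map_congr rfl fun j hj => Function.update_of_ne ?_ _ _)
    rintro rfl
    exact ha hj

theorem label {J ι K : Type} [Fintype J] [DecidableEq ι] [Field K] [IsAlgClosed K] (blk : J → ι)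
    (P : ι → K[X]) (hm : ∀ i, (P i).Monic)
    (hd : ∀ i, (P i).natDegree = (univ.filter fun j => blk j = i).card) :
    ∃ x : J → K, ∀ i, P i = Pb blk x i := by
  have : ∀ i, ∃ e : J → K, (univ.filter fun j => blk j = i).val.map e = (P i).roots := fun i =>
    exmap _ _ (by rw [← (IsAlgClosed.splits _).natDegree_eq_card_roots, hd])
  choose e he using this
  refine ⟨fun j => e (blk j) j, fun i => ?_⟩
  rw [Pb, (IsAlgClosed.splits (P i)).eq_prod_roots_of_monic (hm i), ← he i, Multiset.map_map,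
    Finset.prod_eq_multiset_prod]
  refine congrArg _ (Multiset.map_congr rfl fun j hj => ?_)
  rw [(mem_filter.1 hj).2]
  rfl

theorem ds_ne {J ι A : Type} [Fintype J] [DecidableEq J] [DecidableEq ι] [CommRing A]
    {blk : J → ι} {c x : J → A} (h : Ds blk c x ≠ 0) :
    Function.Injective x ∧ Set.InjOn (yy c x) (Gpb blk) := by
  constructor
  · intro j j' e
    by_contra hne
    refine h (mul_eq_zero_of_right _ (prod_eq_zero (mem_univ j) (prod_eq_zero (i := j')
      (mem_erase.2 ⟨Ne.symm hne, mem_univ _⟩) (sub_eq_zero.2 e))))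
  · intro τ hτ ρ hρ e
    by_contra hne
    refine h (mul_eq_zero_of_left (prod_eq_zero hτ (prod_eq_zero (i := ρ)
      (mem_erase.2 ⟨Ne.symm hne, hρ⟩) (sub_eq_zero.2 e))) _)

theorem prod_Pb {J ι A : Type} [Fintype J] [Fintype ι] [DecidableEq ι] [CommRing A] (blk : J → ι)
    (x : J → A) : ∏ i, Pb blk x i = ∏ j, (X - C (x j)) :=
  prod_fiberwise_of_maps_to (fun _ _ => mem_univ _) _

theorem eval_lin {K : Type} [CommRing K] {r : ℕ} (a v : Fin r → K) (t : K) :
    (evalRingHom t).comp (lin a v) = MvPolynomial.eval fun k => a k + v k * t := by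
  ext k <;> simp [lin]

theorem deg_lin {K : Type} [CommRing K] {r : ℕ} (a v : Fin r → K) (q : MvPolynomial (Fin r) K) :
    (lin a v q).natDegree ≤ q.totalDegree := by
  conv_lhs => rw [q.as_sum, map_sum]
  refine natDegree_sum_le_of_forall_le _ _ fun m hm => ?_
  refine le_trans ?_ (MvPolynomial.le_totalDegree hm)
  rw [lin, MvPolynomial.eval₂Hom_monomial]
  refine (natDegree_C_mul_le _ _).trans ((natDegree_prod_le _ _).trans (sum_le_sum fun k _ => ?_))
  refine natDegree_pow_le.trans ?_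
  have : (C (a k) + C (v k) * X).natDegree ≤ 1 := by
    rw [add_comm]; exact natDegree_linear_le
  simpa using Nat.mul_le_mul_left (m k) this

theorem frob_lin {K : Type} [CommRing K] {r : ℕ} (φ : K →+* K) (a v : Fin r → K)
    (ha : ∀ k, φ (a k) = a k) (hv : ∀ k, φ (v k) = v k) (q : MvPolynomial (Fin r) K)
    (hq : ∀ m, φ (q.coeff m) = q.coeff m) (l : ℕ) :
    φ ((lin a v q).coeff l) = (lin a v q).coeff l := by
  have h1 : (mapRingHom φ).comp (lin a v) = (lin a v).comp (MvPolynomial.map φ) := by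
    ext k <;> simp [lin, ha, hv]
  have h2 : MvPolynomial.map φ q = q := by ext m; rw [MvPolynomial.coeff_map, hq]
  have h3 := DFunLike.congr_fun h1 q
  rw [RingHom.comp_apply, RingHom.comp_apply, h2, coe_mapRingHom] at h3
  rw [← coeff_map, h3]

theorem ex_pt {K : Type} [Field K] {r : ℕ} (d : MvPolynomial (Fin r) K) (hd : d ≠ 0)
    (S : Finset K) (hS : d.totalDegree < S.card) :
    ∃ a : Fin r → K, (∀ k, a k ∈ S) ∧ MvPolynomial.eval a d ≠ 0 := by
  classical
  by_contra h
  push Not at h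
  have h1 := MvPolynomial.schwartz_zippel_totalDegree hd S
  rw [filter_true_of_mem fun a ha => h a (Fintype.mem_piFinset.1 ha), Fintype.card_piFinset] at h1
  have h2 : (0 : ℚ≥0) < S.card := by exact_mod_cast (Nat.zero_le _).trans_lt hS
  simp only [prod_const, card_univ, Fintype.card_fin, Nat.cast_pow] at h1
  rw [div_self (pow_pos h2 r).ne', one_le_div h2] at h1
  exact absurd hS (not_lt.2 (by exact_mod_cast h1))

end AUC

open AUC in
theorem uc (h3 : S3) (h5 : S5) (h6 : S6) (h7 : S7) (h8 : S8) : UC := by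
  intro J ι _ _ _ _ blk K _ _ p _ _ r D ε hr hε
  have hg : 0 < (Gpb blk).card := card_pos.2 ⟨1, by simp [Gpb]⟩
  obtain ⟨N, h5⟩ := h5 J ι blk D
  obtain ⟨N₃, h3⟩ := h3 K r _ N hg
  obtain ⟨q₆, h6⟩ := h6 J ι blk N (ε / 2) (half_pos hε)
  obtain ⟨q₇, h7⟩ := h7 J ι blk
  obtain ⟨q₈, h8⟩ := h8 r (max N₃ N) (Gpb blk).card (ε / 2) hr (half_pos hε)
  refine ⟨q₆ + q₇ + q₈ + N + 2, fun f hq P hD hP hG => ?_⟩
  obtain ⟨c, hc, h7⟩ := h7 p f K (by omega) _ MvPolynomial.C P hG
  obtain ⟨R, h, d, hm, hn, b1, b2, b3, b4, hR⟩ := h5 K r c P hD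
  obtain ⟨hi, hd⟩ := h7 R h d hm hR
  obtain ⟨M, _, θ, x, hθ, -, hx, -⟩ := hG
  have Pm : ∀ i, (P i).Monic := fun i =>
    hθ.monic_map_iff.2 (hx i ▸ monic_prod_of_monic _ _ fun _ _ => monic_X_sub_C _)
  have Pd : ∀ i, (P i).natDegree = (univ.filter fun j => blk j = i).card := fun i => by
    rw [← natDegree_map_eq_of_injective hθ, hx, Pb, natDegree_finsetProd_X_sub_C_eq_card]
  have lab : ∀ u : Fin r → K, ∃ ξ : J → K, ∀ i, (P i).map (MvPolynomial.eval u) = Pb blk ξ i :=
    fun u => label blk _ (fun i => (Pm i).map _) fun i => by rw [(Pm i).natDegree_map, Pd]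
  obtain ⟨S, hS, hSm⟩ := fq p f K (by omega)
  obtain ⟨a, ha, hda⟩ := ex_pt d hd S (by omega)
  replace ha := fun k => (hSm _).1 (ha k)
  have sep : (R.map (MvPolynomial.eval a)).Separable := by
    obtain ⟨ξ, hξ⟩ := lab a
    obtain ⟨e1, e2, -⟩ := hR K _ ξ hξ
    rw [e1, Rs, separable_prod_X_sub_C_iff']
    exact fun τ hτ ρ hρ e => (ds_ne (e2 ▸ hda)).2 hτ hρ e
  obtain ⟨ν, hν, hνd, hν'⟩ := h3 R a hm hn b1 hi sep
  have key := h8 p f K (by omega) {u : Fin r → K | (∀ k, u k ^ p ^ f = u k) ∧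
      ((∏ i, P i).map (MvPolynomial.eval u)).Separable ∧
      ∀ i z, ((P i).map (MvPolynomial.eval u)).eval z = 0 → z ^ p ^ f = z}
    {u : Fin r → K | (∀ k, u k ^ p ^ f = u k) ∧ MvPolynomial.eval u d ≠ 0 ∧
      ∀ i z, ((P i).map (MvPolynomial.eval u)).eval z = 0 → z ^ p ^ f = z}
    a ν d hν (hνd.trans (le_max_left _ _)) hd (b4.trans (le_max_right _ _)) ha
    (fun u hu => ⟨hu.1, by
      obtain ⟨ξ, hξ⟩ := lab u
      obtain ⟨-, e2, -⟩ := hR K _ ξ hξ
      rw [Polynomial.map_prod, prod_congr rfl fun i _ => hξ i, prod_Pb,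
        separable_prod_X_sub_C_iff]
      exact (ds_ne (e2 ▸ hu.2.1)).1, hu.2.2⟩)
    (fun u hu => ⟨hu.1, fun h => ⟨hu.1, h, hu.2.2⟩⟩) (fun v hv hνv => ?_)
  · linarith
  have ev : ∀ (t : K) q, (lin a v q).eval t = MvPolynomial.eval (fun k => a k + v k * t) q :=
    fun t q => DFunLike.congr_fun (eval_lin a v t) q
  have k6 := h6 p f K (by omega) c (fun i => (P i).map (lin a v)) (R.map (lin a v))
    (fun σ => (h σ).map (lin a v)) (lin a v d) hc (fun i => (Pm i).map _)
    (fun i => by rw [(Pm i).natDegree_map, Pd])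
    (fun i k l => by
      rw [coeff_map]
      exact frob_lin (iterateFrobenius K p f) a v ha hv _ (hP i k) l)
    (hm.map _) (by rw [hm.natDegree_map, hn])
    (fun k => by rw [coeff_map]; exact (deg_lin _ _ _).trans (b1 k))
    (fun σ => natDegree_map_le.trans (b2 σ))
    (fun σ k => by rw [coeff_map]; exact (deg_lin _ _ _).trans (b3 σ k))
    ((deg_lin _ _ _).trans b4)
    (fun A _ θ' y hy => by
      have := hR A (θ'.comp (lin a v)) y fun i => by rw [← hy i, Polynomial.map_map]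
      simpa only [Polynomial.map_map, RingHom.comp_apply, lin, MvPolynomial.eval₂Hom_C] using this)
    (hν' v hνv) (fun h0 => hda (by simpa [h0] using (ev 0 d).symm))
  convert k6 using 6
  ext t
  simp only [Set.mem_ofPred_eq]
  refine and_congr_right fun ht => ?_
  have e1 : ∀ i z, ((P i).map (lin a v)).evalEval t z =
      ((P i).map (MvPolynomial.eval fun k => a k + v k * t)).eval z := fun i z => by
    rw [← eval_lin, ← Polynomial.map_map, map_evalRingHom_eval]
  simp only [e1, ev]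
  refine and_iff_right fun k => ?_
  rw [add_pow_char_pow, mul_pow, ha, hv, ht]

end Pool.Agent.MP_a9d3bd_g
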