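import Pool.Agent.MP_a9d3bd_g.BConSt

namespace Pool.Agent.MP_a9d3bd_g

open Polynomial Finset

theorem CONSTCore_mark {P E : Type} [DecidableEq P] (A : Finset E) (Y : Finset P)
    (inc : E → Finset P) (N : ℕ) (h : ∀ t ∈ A, (inc t).card ≤ N) :
    ∑ y ∈ Y, ((A.filter fun t => y ∈ inc t).card : ℝ) ≤ N * A.card := by
  have h1 : ∑ y ∈ Y, (A.filter fun t => y ∈ inc t).card ≤ N * A.card := by
    simp only [card_filter]
    rw [sum_comm, mul_comm, ← smul_eq_mul]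
    refine sum_le_card_nsmul _ _ _ fun t ht => ?_
    rw [← card_filter]
    exact (card_le_card fun y hy => (mem_filter.1 hy).2).trans (h t ht)
  exact_mod_cast h1

theorem CONSTCore_cov {P E : Type} [DecidableEq E] (A A' : Finset E) (Y : Finset P)
    (f : P → Finset E) (b : ℝ) (h : ∀ t ∈ A, t ∈ A' ∨ ∃ z ∈ Y, t ∈ f z)
    (hb : ∀ z ∈ Y, ((f z).card : ℝ) ≤ b) : (A.card : ℝ) ≤ A'.card + Y.card * b := by
  have h1 : A ⊆ A' ∪ Y.biUnion f := fun t ht =>
    mem_union.2 ((h t ht).imp id fun k => mem_biUnion.2 k)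
  have h2 : A.card ≤ A'.card + ∑ z ∈ Y, (f z).card :=
    (card_le_card h1).trans ((card_union_le _ _).trans (Nat.add_le_add_left card_biUnion_le _))
  have h3 : (A.card : ℝ) ≤ A'.card + ∑ z ∈ Y, ((f z).card : ℝ) := by exact_mod_cast h2
  have h4 := sum_le_card_nsmul Y (fun z => ((f z).card : ℝ)) b hb
  rw [nsmul_eq_mul] at h4
  linarith

theorem CONSTCore_un {E : Type} [DecidableEq E] (A A' A'' : Finset E)
    (h : ∀ t ∈ A, t ∈ A' ∨ t ∈ A'') : (A.card : ℝ) ≤ A'.card + A''.card := by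
  have h1 : A ⊆ A' ∪ A'' := fun t ht => mem_union.2 (h t ht)
  exact_mod_cast (card_le_card h1).trans (card_union_le _ _)

theorem CONSTCore_le {E : Type} {A A' : Finset E} (h : ∀ t ∈ A, t ∈ A') :
    (A.card : ℝ) ≤ A'.card := by
  exact_mod_cast card_le_card h

theorem CONST_core (hB : CONST_Blk) : CONST_Core := by
  intro D N K₀ K₁ M hM
  have hD : (0 : ℝ) ≤ D := Nat.cast_nonneg D
  have hN : (0 : ℝ) ≤ N := Nat.cast_nonneg N
  have hK0 : (0 : ℝ) ≤ K₀ := Nat.cast_nonneg K₀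
  have hK1 : (0 : ℝ) ≤ K₁ := Nat.cast_nonneg K₁
  have hM0 : 0 < M := by linarith
  obtain ⟨W, hW⟩ : ∃ W : ℝ, W = 10 + 4 * D + 4 * N := ⟨_, rfl⟩
  have hW0 : 0 < W := by rw [hW]; positivity
  obtain ⟨ε, hε⟩ : ∃ ε : ℝ, ε = 1 / (2 * M * W) := ⟨_, rfl⟩
  have hε0 : 0 < ε := by rw [hε]; positivity
  have hMε : 1 / M = 2 * W * ε := by
    rw [hε]
    field_simp
  obtain ⟨K₂, hK₂⟩ : ∃ K₂ : ℝ, K₂ = K₁ + N * K₀ / ε := ⟨_, rfl⟩
  have hK2 : 0 ≤ K₂ := by rw [hK₂]; positivity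
  refine ⟨ε, hε0, ⌈(1 + K₀ + K₂) / ε⌉₊, ?_⟩
  intro q u hq hu P E ι _ _ _ P0 Z Sp B inc sm cl c d n h1 h2 h3 h4 h5 h6 h7 h8 h9 h10 h11 φ κ h12
    x0 hx0 y0 hy0 hx1 hy1 hcl
  have hq1 : 1 + K₀ + K₂ ≤ ε * q := by
    have := (Nat.le_ceil ((1 + K₀ + K₂) / ε)).trans hq
    rw [div_le_iff₀ hε0] at this
    linarith
  have hq0 : 0 < q := by
    have : 0 < ε * q := by linarith
    exact (mul_pos_iff_of_pos_left hε0).1 this
  obtain ⟨a, ha⟩ : ∃ a : ℝ, a = ε * (q * u) := ⟨_, rfl⟩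
  have ha0 : 0 < a := by rw [ha]; positivity
  have hau : (1 + K₀ + K₂) * u ≤ a := by
    rw [ha, ← mul_assoc]
    exact mul_le_mul_of_nonneg_right hq1 hu.le
  have k0u : 0 ≤ K₀ * u := by positivity
  have k2u : 0 ≤ K₂ * u := by positivity
  have hua : u ≤ a := by linarith
  have hK0a : K₀ * u ≤ a := by linarith
  have hK2a : K₂ * u ≤ a := by linarith
  have hquM : q * u / M = 2 * W * a := by
    rw [ha, div_eq_mul_one_div, hMε]
    ring
  rw [← ha] at h9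
  obtain ⟨Hv, hHv⟩ : ∃ Hv : Finset P, Hv = P0.filter fun x =>
    a < (((Sp ∩ B).filter fun t => x ∈ inc t).card : ℝ) := ⟨_, rfl⟩
  have hHc : (Hv.card : ℝ) ≤ N * K₀ / ε := by
    have m1 := CONSTCore_mark (Sp ∩ B) Hv inc N fun t ht => (h1 t (mem_inter.1 ht).1).1
    have m2 := card_nsmul_le_sum Hv
      (fun x => (((Sp ∩ B).filter fun t => x ∈ inc t).card : ℝ)) a fun x hx => by
        rw [hHv] at hx
        exact (mem_filter.1 hx).2.le
    rw [nsmul_eq_mul] at m2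
    have m3 : ((Sp ∩ B).card : ℝ) ≤ K₀ * (q * u) :=
      (CONSTCore_le fun t ht => (mem_inter.1 ht).2).trans h5
    have m4 : (Hv.card : ℝ) * a ≤ N * (K₀ * (q * u)) :=
      m2.trans (m1.trans (mul_le_mul_of_nonneg_left m3 hN))
    rw [le_div_iff₀ hε0]
    refine le_of_mul_le_mul_right ?_ (mul_pos hq0 hu)
    rw [ha] at m4
    linarith
  have hZ2 : ((Z ∪ Hv).card : ℝ) ≤ K₂ := by
    have m1 := CONSTCore_un (Z ∪ Hv) Z Hv fun t ht => mem_union.1 ht
    have m2 : (Z.card : ℝ) ≤ K₁ := by exact_mod_cast h4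
    linarith
  obtain ⟨S, hS⟩ : ∃ S : Finset P, S = P0 \ (Z ∪ Hv) := ⟨_, rfl⟩
  have mS : ∀ x, x ∈ S ↔ x ∈ P0 ∧ x ∉ Z ∪ Hv := fun x => by rw [hS, mem_sdiff]
  have inS : ∀ x ∈ P0 \ Z, (((Sp ∩ B).filter fun t => x ∈ inc t).card : ℝ) ≤ K₀ * u → x ∈ S := by
    intro x hx hx'
    refine (mS x).2 ⟨(mem_sdiff.1 hx).1, fun k => ?_⟩
    rcases mem_union.1 k with k | k
    · exact (mem_sdiff.1 hx).2 k
    · rw [hHv] at k
      have := (mem_filter.1 k).2
      linarith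
  obtain ⟨T, hT⟩ : ∃ T : Finset E, T = Sp.filter fun t => t ∉ B ∧ inc t ⊆ S := ⟨_, rfl⟩
  have mT : ∀ t, t ∈ T ↔ t ∈ Sp ∧ t ∉ B ∧ inc t ⊆ S := fun t => by rw [hT, mem_filter]
  have cov : ∀ t ∈ Sp, t ∉ T → t ∈ B ∨ ∃ z ∈ Z ∪ Hv, z ∈ inc t := by
    intro t ht hn
    by_cases hb : t ∈ B
    · exact Or.inl hb
    · right
      by_contra hc
      refine hn ((mT t).2 ⟨ht, hb, fun z hz => ?_⟩)
      have hz2 : z ∉ Z ∪ Hv := fun k => hc ⟨z, k, hz⟩
      refine (mS z).2 ⟨?_, hz2⟩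
      rcases mem_union.1 ((h1 t ht).2 hz) with k | k
      · exact k
      · exact (hz2 (mem_union_left _ k)).elim
  have hTc : (2 * W - 2) * a * q ≤ T.card := by
    have m1 := CONSTCore_cov Sp (T ∪ B) (Z ∪ Hv) (fun z => Sp.filter fun t => z ∈ inc t) (q * u)
      (fun t ht => by
        by_cases k : t ∈ T
        · exact Or.inl (mem_union_left _ k)
        · rcases cov t ht k with k | ⟨z, hz, k⟩
          · exact Or.inl (mem_union_right _ k)
          · exact Or.inr ⟨z, hz, mem_filter.2 ⟨ht, k⟩⟩) fun z _ => h6 z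
    have m2 := CONSTCore_un (T ∪ B) T B fun t ht => mem_union.1 ht
    have m3 : ((Z ∪ Hv).card : ℝ) * (q * u) ≤ K₂ * (q * u) :=
      mul_le_mul_of_nonneg_right hZ2 (mul_pos hq0 hu).le
    have m4 : (1 / M - ε) * (q ^ 2 * u) = (2 * W - 1) * a * q := by
      rw [hMε, ha]
      ring
    have m5 : (1 + K₀ + K₂) * u * q ≤ a * q := mul_le_mul_of_nonneg_right hau hq0.le
    have m6 : 0 < u * q := mul_pos hu hq0
    rw [m4] at h8
    nlinarith
  have hR : ∀ x ∈ S, (((Sp.filter fun t => x ∈ inc t) \ T).card : ℝ) ≤ 2 * a := by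
    intro x hx
    obtain ⟨hxP, hxZ⟩ := (mS x).1 hx
    have m1 := CONSTCore_cov ((Sp.filter fun t => x ∈ inc t) \ T)
      ((Sp ∩ B).filter fun t => x ∈ inc t) (Z ∪ Hv)
      (fun z => Sp.filter fun t => x ∈ inc t ∧ z ∈ inc t) u
      (fun t ht => by
        obtain ⟨k1, k2⟩ := mem_sdiff.1 ht
        obtain ⟨k3, k4⟩ := mem_filter.1 k1
        rcases cov t k3 k2 with k | ⟨z, hz, k⟩
        · exact Or.inl (mem_filter.2 ⟨mem_inter.2 ⟨k3, k⟩, k4⟩)
        · exact Or.inr ⟨z, hz, mem_filter.2 ⟨k3, k4, k⟩⟩)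
      fun z hz => h7 x z fun e => hxZ (e ▸ hz)
    have m2 : (((Sp ∩ B).filter fun t => x ∈ inc t).card : ℝ) ≤ a := by
      by_contra hc
      refine hxZ (mem_union_right _ ?_)
      rw [hHv]
      exact mem_filter.2 ⟨hxP, not_le.1 hc⟩
    have m3 : ((Z ∪ Hv).card : ℝ) * u ≤ K₂ * u := mul_le_mul_of_nonneg_right hZ2 hu.le
    linarith
  have hdeg : ∀ x ∈ S, ((T.filter fun t => x ∈ inc t).card : ℝ) ≤
      (Sp.filter fun t => x ∈ inc t).card ∧ ((Sp.filter fun t => x ∈ inc t).card : ℝ) ≤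
      (T.filter fun t => x ∈ inc t).card + 2 * a := by
    intro x hx
    refine ⟨CONSTCore_le fun t ht =>
      mem_filter.2 ⟨((mT t).1 (mem_filter.1 ht).1).1, (mem_filter.1 ht).2⟩, ?_⟩
    have m1 := CONSTCore_un (Sp.filter fun t => x ∈ inc t) (T.filter fun t => x ∈ inc t)
      ((Sp.filter fun t => x ∈ inc t) \ T) fun t ht => by
        by_cases k : t ∈ T
        · exact Or.inl (mem_filter.2 ⟨k, (mem_filter.1 ht).2⟩)
        · exact Or.inr (mem_sdiff.2 ⟨ht, k⟩)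
    have m2 := hR x hx
    linarith
  have hSc : (S.card : ℝ) ≤ D * q := (CONSTCore_le fun x hx => ((mS x).1 hx).1).trans h3
  refine hB P E ι S T inc (fun l hl => ((mT l).1 hl).2.2) cl c (fun i j => (h11 i j).1)
    (2 * W * a - 3 * a) ((2 * D + 2 * N) * a) a (3 * a) d n
    (fun l hl => h2 l ((mT l).1 hl).1 fun z hz => ((mS z).1 (((mT l).1 hl).2.2 hz)).1)
    (fun x hx => ?_) (fun x hx => ?_) (fun x hx => ?_) (fun i => (h11 i i).2.2.trans hua) ?_ φ κ
    (fun l hl => h12 l ((mT l).1 hl).1 ((mT l).1 hl).2.1 fun z hz => ?_) x0 (inS x0 hx0 hx1)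
    y0 (inS y0 hy0 hy1) hcl
  · obtain ⟨m1, m2⟩ := h9 x ((mS x).1 hx).1
    have m3 := (abs_le.1 m1).1
    have m4 := (hdeg x hx).2
    linarith
  · obtain ⟨m1, -⟩ := h9 x ((mS x).1 hx).1
    obtain ⟨m2, m3⟩ := abs_le.1 m1
    obtain ⟨m4, m5⟩ := hdeg x hx
    exact abs_le.2 ⟨by linarith, by linarith⟩
  · obtain ⟨m1, m2⟩ := h10 x ((mS x).1 hx).1
    have row : ∀ y ∈ S.erase x,
        |((T.filter fun l => x ∈ inc l ∧ y ∈ inc l).card : ℝ) - c (cl x) (cl y)| ≤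
          ε * u + (if y ∈ sm x then u else 0) +
            ((((Sp.filter fun t => x ∈ inc t) \ T).filter fun t => y ∈ inc t).card : ℝ) := by
      intro y hy
      obtain ⟨hyx, hyS⟩ := mem_erase.1 hy
      have r1 : ((T.filter fun l => x ∈ inc l ∧ y ∈ inc l).card : ℝ) ≤
          (Sp.filter fun l => x ∈ inc l ∧ y ∈ inc l).card := CONSTCore_le fun t ht =>
        mem_filter.2 ⟨((mT t).1 (mem_filter.1 ht).1).1, (mem_filter.1 ht).2⟩
      have r2 := CONSTCore_un (Sp.filter fun l => x ∈ inc l ∧ y ∈ inc l)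
        (T.filter fun l => x ∈ inc l ∧ y ∈ inc l)
        (((Sp.filter fun t => x ∈ inc t) \ T).filter fun t => y ∈ inc t) fun t ht => by
          obtain ⟨k1, k2⟩ := mem_filter.1 ht
          by_cases k : t ∈ T
          · exact Or.inl (mem_filter.2 ⟨k, k2⟩)
          · exact Or.inr (mem_filter.2 ⟨mem_sdiff.2 ⟨mem_filter.2 ⟨k1, k2.1⟩, k⟩, k2.2⟩)
      have r3 : |((Sp.filter fun l => x ∈ inc l ∧ y ∈ inc l).card : ℝ) - c (cl x) (cl y)| ≤
          ε * u + (if y ∈ sm x then u else 0) := by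
        have r4 : 0 < ε * u := mul_pos hε0 hu
        split_ifs with k
        · have r5 := h7 x y hyx.symm
          obtain ⟨-, r6, r7⟩ := h11 (cl x) (cl y)
          have r8 : (0 : ℝ) ≤ (Sp.filter fun l => x ∈ inc l ∧ y ∈ inc l).card := Nat.cast_nonneg _
          exact abs_le.2 ⟨by linarith, by linarith⟩
        · rw [add_zero]
          exact m2 y ((mS y).1 hyS).1 k
      obtain ⟨r5, r6⟩ := abs_le.1 r3
      have r7 : (0 : ℝ) ≤
          (((Sp.filter fun t => x ∈ inc t) \ T).filter fun t => y ∈ inc t).card := Nat.cast_nonneg _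
      exact abs_le.2 ⟨by linarith, by linarith⟩
    refine (sum_le_sum row).trans ?_
    rw [sum_add_distrib, sum_add_distrib, sum_const, nsmul_eq_mul, ← sum_filter, sum_const,
      nsmul_eq_mul]
    have s1 : ((S.erase x).card : ℝ) ≤ D * q :=
      (CONSTCore_le fun y hy => (mem_erase.1 hy).2).trans hSc
    have s2 : ((S.erase x).card : ℝ) * (ε * u) ≤ D * a := by
      refine (mul_le_mul_of_nonneg_right s1 (mul_pos hε0 hu).le).trans (le_of_eq ?_)
      rw [ha]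
      ring
    have s3 : (((S.erase x).filter fun y => y ∈ sm x).card : ℝ) ≤ D :=
      (CONSTCore_le fun y hy => (mem_filter.1 hy).2).trans (by exact_mod_cast m1)
    have s4 : (((S.erase x).filter fun y => y ∈ sm x).card : ℝ) * u ≤ D * a :=
      mul_le_mul s3 hua hu.le hD
    have s5 := CONSTCore_mark ((Sp.filter fun t => x ∈ inc t) \ T) (S.erase x) inc N
      fun t ht => (h1 t (mem_filter.1 (mem_sdiff.1 ht).1).1).1
    have s6 := mul_le_mul_of_nonneg_left (hR x hx) hN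
    linarith
  · have f1 : 2 * W * a - 3 * a - (2 * D + 2 * N) * a - a = (16 + 6 * D + 6 * N) * a := by
      rw [hW]
      ring
    have f2 : (2 * W - 2) * a * q = (18 + 8 * D + 8 * N) * a * q := by
      rw [hW]
      ring
    rw [f1]
    rw [f2] at hTc
    have f3 : (S.card : ℝ) * (3 * a) ^ 2 ≤ D * q * (3 * a) ^ 2 :=
      mul_le_mul_of_nonneg_right hSc (sq_nonneg _)
    have f4 := mul_le_mul_of_nonneg_left hTc (by positivity : 0 ≤ (16 + 6 * D + 6 * N) * a)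
    refine f3.trans_lt (lt_of_lt_of_le ?_ f4)
    have f5 : (9 : ℝ) * D < (16 + 6 * D + 6 * N) * (18 + 8 * D + 8 * N) := by
      nlinarith [mul_nonneg hD hD, mul_nonneg hD hN, mul_nonneg hN hN]
    have f6 := mul_lt_mul_of_pos_right f5 (by positivity : 0 < a ^ 2 * q)
    calc _ = 9 * D * (a ^ 2 * q) := by ring
      _ < _ := f6
      _ = _ := by ring
  · obtain ⟨k1, k2⟩ := (mS z).1 (((mT l).1 hl).2.2 hz)
    exact mem_sdiff.2 ⟨k1, fun k => k2 (mem_union_left _ k)⟩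

end Pool.Agent.MP_a9d3bd_g
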