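import Pool.Agent.MP_a9d3bd_g.BConSt

namespace Pool.Agent.MP_a9d3bd_g

open Polynomial Finset

theorem CONST_lag : CONST_Lag := by
  classical
  intro K _ q e ρ A J hq hJ hi hA
  have h0 := FiniteField.X_pow_card_sub_X_ne_zero K (p := q) hq
  have c1 : (X ^ q - X : K[X]).roots.toFinset.card ≤ q :=
    (Multiset.toFinset_card_le _).trans ((card_roots' _).trans
      (FiniteField.X_pow_card_sub_X_natDegree_eq K hq).le)
  refine le_trans (card_le_card_of_injOn
    (t := Fintype.piFinset fun _ : Fin (e - J.card) => (X ^ q - X : K[X]).roots.toFinset)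
    (fun t k => t ⟨J.card + k, by omega⟩) (fun t ht => ?_) fun t ht t' ht' h => ?_) ?_
  · refine mem_coe.2 (Fintype.mem_piFinset.2 fun k => ?_)
    simp [h0, (hA t ht).1]
  · have e1 : al ρ t - al ρ t' = ∑ i : Fin e, C (t i - t' i) * X ^ (i : ℕ) := by
      simp only [al, add_sub_add_left_eq_sub, ← sum_sub_distrib, map_sub, sub_mul]
    have e2 : ∀ i : Fin e, (al ρ t - al ρ t').coeff i = t i - t' i := fun i => by
      rw [e1, finsetSum_coeff, sum_eq_single i]
      · rw [coeff_C_mul_X_pow, if_pos rfl]
      · exact fun j _ hj => by rw [coeff_C_mul_X_pow, if_neg fun k => hj (Fin.ext k.symm)]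
      · simp
    have e3 : al ρ t - al ρ t' = 0 := by
      refine eq_zero_of_degree_lt_of_eval_finset_eq_zero (J.image Prod.fst) ?_ fun s hs => ?_
      · rw [card_image_of_injOn hi, degree_lt_iff_coeff_zero]
        intro m hm
        by_cases k : m < e
        · have k1 := congrFun h ⟨m - J.card, by omega⟩
          simp only [Nat.add_sub_cancel' hm] at k1
          exact (e2 ⟨m, k⟩).trans (sub_eq_zero.2 k1)
        · rw [e1, finsetSum_coeff]
          exact sum_eq_zero fun j _ => by rw [coeff_C_mul_X_pow, if_neg (by omega)]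
      · obtain ⟨x, hx, rfl⟩ := mem_image.1 hs
        rw [eval_sub, (hA t ht).2 x hx, (hA t' ht').2 x hx, sub_self]
    exact funext fun i => sub_eq_zero.1 (by rw [← e2, e3, coeff_zero])
  · rw [Fintype.card_piFinset, prod_const, card_univ, Fintype.card_fin]
    exact Nat.pow_le_pow_left c1 _

end Pool.Agent.MP_a9d3bd_g
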