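import Pool.Agent.MP_a9d3bd_g.BConSt

namespace Pool.Agent.MP_a9d3bd_g

open Polynomial Finset

theorem CONSTPts_fq (K : Type) [Field K] (q : ℕ) (hq : 2 ≤ q) :
    ∃ Fq : Finset K, Fq.card ≤ q ∧ ∀ x, x ∈ Fq ↔ x ^ q = x := by
  classical
  have h0 : (X ^ q - X : K[X]) ≠ 0 := FiniteField.X_pow_card_sub_X_ne_zero K (by omega)
  refine ⟨(X ^ q - X : K[X]).roots.toFinset, ?_, fun x => ?_⟩
  · refine (Multiset.toFinset_card_le _).trans ((card_roots' _).trans ?_)
    exact (FiniteField.X_pow_card_sub_X_natDegree_eq K (by omega)).le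
  · rw [Multiset.mem_toFinset, mem_roots h0, IsRoot.def, eval_sub, eval_pow, eval_X, sub_eq_zero]

theorem CONSTPts_fib {K : Type} [Field K] (G : K[X][X]) (hG : IsUnit G.leadingCoeff) (s : K) :
    ∃ R : Finset K, R.card ≤ G.natDegree ∧ ∀ y, G.evalEval s y = 0 → y ∈ R := by
  classical
  have h0 : G.map (evalRingHom s) ≠ 0 := by
    intro h
    have h1 := congrArg (fun g : K[X] => g.coeff G.natDegree) h
    simp only [coeff_map, coeff_zero] at h1
    exact (hG.map (evalRingHom s)).ne_zero h1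
  refine ⟨(G.map (evalRingHom s)).roots.toFinset, ?_, fun y hy => ?_⟩
  · exact (Multiset.toFinset_card_le _).trans ((card_roots' _).trans natDegree_map_le)
  · rw [Multiset.mem_toFinset, mem_roots h0, IsRoot.def, map_evalRingHom_eval]
    exact hy

theorem CONST_pts : CONST_Pts := by
  classical
  intro p f _ K _ _ D e ι _ H ρ hF hq
  have hne : ∀ i, H i ≠ 0 := fun i => (hF.crv.irr i).ne_zero
  have hdeg : (∏ i, H i).natDegree = ∑ i, (H i).natDegree :=
    natDegree_prod _ _ fun i _ => hne i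
  have hlead : IsUnit (∏ i, H i).leadingCoeff := by
    rw [leadingCoeff_prod]
    exact IsUnit.prod_iff.2 fun i _ => hF.crv.lead i
  obtain ⟨Fq, hc, hFq⟩ := CONSTPts_fq K (p ^ f) hq
  choose R hR hR' using CONSTPts_fib (∏ i, H i) hlead
  have hRD : ∀ s, (R s).card ≤ D := fun s => (hR s).trans (hdeg.le.trans hF.deg)
  refine ⟨hdeg, ?_, ?_, ?_, ?_⟩
  · refine ⟨(Fq.biUnion fun s => (R s).image fun y => (s, y)).filter
      fun x => x ∈ Pts (p ^ f) (∏ i, H i), fun x => ?_, ?_, fun s => ?_⟩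
    · rw [mem_filter]
      refine ⟨fun h => h.2, fun h => ⟨mem_biUnion.2 ⟨x.1, (hFq _).2 h.1, ?_⟩, h⟩⟩
      exact mem_image.2 ⟨x.2, hR' _ _ h.2.2.1, rfl⟩
    · refine (card_filter_le _ _).trans ((card_biUnion_le_card_mul _ _ D fun s _ =>
        card_image_le.trans (hRD s)).trans ?_)
      rw [mul_comm]
      exact Nat.mul_le_mul_left D hc
    · refine le_trans (card_le_card (t := (R s).image fun y => (s, y)) fun x hx => ?_)
        (card_image_le.trans (hRD s))
      obtain ⟨h1, h2⟩ := mem_filter.1 hx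
      obtain ⟨s', -, h3⟩ := mem_biUnion.1 (mem_filter.1 h1).1
      obtain ⟨y, hy, rfl⟩ := mem_image.1 h3
      obtain rfl : s' = s := h2
      exact mem_image.2 ⟨y, hy, rfl⟩
  · intro x hx
    obtain ⟨-, -, h1, h2⟩ := hx
    rw [evalEval_prod, prod_eq_zero_iff] at h1
    obtain ⟨i, -, hi⟩ := h1
    refine ⟨i, hi, fun j hj => ?_⟩
    by_contra hji
    apply h2
    rw [← mul_prod_erase univ H (mem_univ i),
      ← mul_prod_erase (univ.erase i) H (mem_erase.2 ⟨hji, mem_univ j⟩), derivative_mul,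
      evalEval_add, evalEval_mul, evalEval_mul, evalEval_mul, hi, hj]
    simp
  · intro t s ht hs
    have h := hF.rho
    simp only [al, eval_add, eval_mul, eval_C, eval_pow, eval_X, eval_finsetSum]
    rw [add_pow_char_pow, sum_pow_char_pow, mul_pow, h, ← pow_mul, mul_comm e, pow_mul, hs]
    congr 1
    refine sum_congr rfl fun i _ => ?_
    rw [mul_pow, ht, ← pow_mul, mul_comm (i : ℕ), pow_mul, hs]
  · refine (Set.Finite.pi (t := fun _ : Fin e => (Fq : Set K)) fun _ => Fq.finite_toSet).subset ?_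
    intro t ht i _
    exact mem_coe.2 ((hFq _).2 (ht i))

end Pool.Agent.MP_a9d3bd_g
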