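import Pool.Agent.MP_a9d3bd_g.BConSt

namespace Pool.Agent.MP_a9d3bd_g

open Polynomial Finset

theorem CONSTRam_prod {K ι : Type} [Field K] (H : ι → K[X][X]) (b : ι → ℕ)
    (h : ∀ i a, ((H i).coeff a).natDegree ≤ b i) (s : Finset ι) :
    ∀ a, ((∏ i ∈ s, H i).coeff a).natDegree ≤ ∑ i ∈ s, b i := by
  classical
  induction s using Finset.induction_on with
  | empty =>
    intro a
    rw [prod_empty, coeff_one]
    split_ifs <;> simp
  | insert i s hi ih =>
    intro a
    rw [prod_insert hi, sum_insert hi, coeff_mul]
    exact natDegree_sum_le_of_forall_le _ _ fun z _ =>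
      natDegree_mul_le.trans (add_le_add (h _ _) (ih _))

theorem CONSTRam_res {K : Type} [Field K] (f g : K[X][X]) (m n B : ℕ)
    (hf : ∀ a, (f.coeff a).natDegree ≤ B) (hg : ∀ a, (g.coeff a).natDegree ≤ B) :
    (resultant f g m n).natDegree ≤ (m + n) * B := by
  have hM : ∀ i j, (sylvester f g m n i j).natDegree ≤ B := fun i j => by
    induction j using Fin.addCases with
    | left j =>
      simp only [sylvester, Matrix.of_apply, Fin.addCases_left]
      split_ifs
      exacts [hg _, by simp]
    | right j =>
      simp only [sylvester, Matrix.of_apply, Fin.addCases_right]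
      split_ifs
      exacts [hf _, by simp]
  rw [resultant, Matrix.det_apply']
  refine natDegree_sum_le_of_forall_le _ _ fun σ _ => natDegree_mul_le.trans ?_
  rw [natDegree_intCast, zero_add]
  refine (natDegree_prod_le _ _).trans ?_
  simpa using sum_le_card_nsmul univ (fun i => (sylvester f g m n (σ i) i).natDegree) B
    fun i _ => hM _ _

theorem CONSTRam_ne {K ι : Type} [Field K] [Fintype ι] {H : ι → K[X][X]} (h : Crv H) :
    resultant (∏ i, H i) (derivative (∏ i, H i)) ≠ 0 := by
  let φ := algebraMap K[X] (FractionRing K[X])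
  have hφ : Function.Injective φ := IsFractionRing.injective _ _
  have hp : ∀ i, (H i).IsPrimitive := fun i =>
    (h.irr i).isPrimitive fun e => h.sep i (derivative_of_natDegree_zero e)
  have hi : ∀ i, Irreducible ((H i).map φ) := fun i =>
    (hp i).irreducible_iff_irreducible_map_fraction_map.1 (h.irr i)
  have hs : ((∏ i, H i).map φ).Separable := by
    rw [Polynomial.map_prod]
    refine separable_prod (fun i j hij => (hi i).coprime_iff_not_dvd.2 fun hd =>
      h.ne i j hij ((hp i).dvd_of_fraction_map_dvd_fraction_map hd)) fun i => ?_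
    rw [separable_iff_derivative_ne_zero (hi i), derivative_map]
    exact (Polynomial.map_ne_zero_iff hφ).2 (h.sep i)
  intro e
  have h1 := resultant_ne_zero _ _ hs
  rw [derivative_map, natDegree_map_eq_of_injective hφ, natDegree_map_eq_of_injective hφ,
    resultant_map_map, e, map_zero] at h1
  exact h1 rfl

theorem CONST_ram : CONST_Ram := by
  classical
  intro D e
  refine ⟨(D + D) * (e * D) * D, fun K _ q ι _ H ρ hF => ?_⟩
  obtain ⟨G, hG⟩ : ∃ G, G = ∏ i, H i := ⟨_, rfl⟩
  have hR : resultant G (derivative G) ≠ 0 := hG ▸ CONSTRam_ne hF.crv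
  have hm : G.natDegree ≤ D := hG ▸ (natDegree_prod_le _ _).trans hF.deg
  have hm' : (derivative G).natDegree ≤ D :=
    (natDegree_derivative_le G).trans ((Nat.sub_le _ _).trans hm)
  have hc : ∀ a, (G.coeff a).natDegree ≤ e * D := fun a => by
    rw [hG]
    refine (CONSTRam_prod H (fun i => e * (H i).natDegree) (fun i a => ?_) univ a).trans ?_
    · by_cases h0 : (H i).coeff a = 0
      · simp [h0]
      · exact (Nat.le_add_right _ _).trans (hF.wt i a h0)
    · rw [← mul_sum]
      exact Nat.mul_le_mul_left e hF.deg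
  have hc' : ∀ a, ((derivative G).coeff a).natDegree ≤ e * D := fun a => by
    rw [coeff_derivative, ← Nat.cast_succ]
    refine natDegree_mul_le.trans ?_
    rw [natDegree_natCast, add_zero]
    exact hc _
  have hd : (resultant G (derivative G)).natDegree ≤ (D + D) * (e * D) :=
    (CONSTRam_res _ _ _ _ _ hc hc').trans (Nat.mul_le_mul_right _ (add_le_add hm hm'))
  have hu : IsUnit G.leadingCoeff := by
    rw [hG, leadingCoeff_prod]
    exact IsUnit.prod_iff.2 fun i _ => hF.crv.lead i
  have hs : ∀ s : K, G.map (evalRingHom s) ≠ 0 := fun s e0 => by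
    have h1 := congrArg (fun p => p.coeff G.natDegree) e0
    simp only [coeff_map, coeff_zero] at h1
    exact (hu.map (evalRingHom s)).ne_zero h1
  rw [← hG]
  refine ⟨(resultant G (derivative G)).roots.toFinset.biUnion fun s =>
    (G.map (evalRingHom s)).roots.toFinset.image fun y => (s, y), ?_, fun x h0 h1 => ?_⟩
  · refine (card_biUnion_le_card_mul _ _ D fun s _ => card_image_le.trans ?_).trans
      (Nat.mul_le_mul_right D ((Multiset.toFinset_card_le _).trans ((card_roots' _).trans hd)))
    exact (Multiset.toFinset_card_le _).trans ((card_roots' _).trans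
      (natDegree_map_le.trans hm))
  · have hr : (G.map (evalRingHom x.1)).IsRoot x.2 := by
      rw [IsRoot, map_evalRingHom_eval]
      exact h0
    have hpos : G.natDegree ≠ 0 :=
      ((natDegree_pos_iff_degree_pos.2 (degree_pos_of_root (hs _) hr)).trans_le
        natDegree_map_le).ne'
    obtain ⟨a, b, -, -, hab⟩ :=
      exists_mul_add_mul_eq_C_resultant G (derivative G) le_rfl le_rfl (Or.inl hpos)
    have h2 := congrArg (evalEval x.1 x.2) hab
    rw [evalEval_add, evalEval_mul, evalEval_mul, h0, h1, zero_mul, zero_mul, add_zero,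
      evalEval_C] at h2
    refine mem_biUnion.2 ⟨x.1, ?_, mem_image.2 ⟨x.2, ?_, rfl⟩⟩
    · exact Multiset.mem_toFinset.2 ((mem_roots hR).2 h2.symm)
    · exact Multiset.mem_toFinset.2 ((mem_roots (hs _)).2 hr)

end Pool.Agent.MP_a9d3bd_g
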