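import Pool.Agent.MP_a9d3bd_g.BConSt

namespace Pool.Agent.MP_a9d3bd_g

open Polynomial Finset

theorem CONSTSec_al {K : Type} [Field K] {e : ℕ} (ρ : K) (t : Fin e → K) :
    (al ρ t).natDegree ≤ e := by
  unfold al
  refine (natDegree_add_le _ _).trans (max_le ?_ ?_)
  · exact natDegree_C_mul_X_pow_le _ _
  · refine natDegree_sum_le_of_forall_le _ _ fun i _ => ?_
    exact (natDegree_C_mul_X_pow_le _ _).trans i.2.le

theorem CONSTSec_deg {K : Type} [Field K] {e : ℕ} (F : K[X][X]) (a : K[X]) (ha : a.natDegree ≤ e)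
    (hw : ∀ k, F.coeff k ≠ 0 → (F.coeff k).natDegree + e * k ≤ e * F.natDegree) :
    (F.eval a).natDegree ≤ e * F.natDegree := by
  rw [eval_eq_sum_range]
  refine natDegree_sum_le_of_forall_le _ _ fun k _ => ?_
  by_cases h : F.coeff k = 0
  · simp [h]
  · refine natDegree_mul_le.trans (le_trans ?_ (hw k h))
    refine Nat.add_le_add_left (natDegree_pow_le.trans ?_) _
    rw [Nat.mul_comm e k]
    exact Nat.mul_le_mul_left _ ha

theorem CONSTSec_ev {K : Type} [Field K] (F : K[X][X]) (a : K[X]) (s : K) :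
    F.evalEval s (a.eval s) = (F.eval a).eval s := by
  induction F using Polynomial.induction_on' with
  | add f g hf hg => rw [evalEval_add, eval_add, eval_add, hf, hg]
  | monomial n c =>
    rw [← C_mul_X_pow_eq_monomial]
    simp [evalEval]

theorem CONST_sec : CONST_Sec := by
  classical
  intro K _ q D e ι _ H ρ t hF hS
  obtain ⟨s, hcard, hq, c, hc, hh⟩ := hS
  have hne : (∏ i, H i).eval (al ρ t) ≠ 0 := by
    rw [hh]
    exact mul_ne_zero (C_ne_zero.2 hc) (monic_prod_of_monic _ _ fun x _ => monic_X_sub_C x).ne_zero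
  have hr : ((∏ i, H i).eval (al ρ t)).roots.toFinset = s := by
    rw [hh, roots_C_mul _ hc, roots_prod_X_sub_C]
    simp
  have hmem : ∀ x, ((∏ i, H i).eval (al ρ t)).eval x = 0 → x ∈ s := by
    intro x hx
    rw [← hr, Multiset.mem_toFinset, mem_roots hne]
    exact hx
  have hmem' : ∀ x ∈ s, ((∏ i, H i).eval (al ρ t)).eval x = 0 := by
    intro x hx
    rw [← hr, Multiset.mem_toFinset, mem_roots hne] at hx
    exact hx
  have hgi : ∀ i, (H i).eval (al ρ t) ≠ 0 := by
    intro i hi
    apply hne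
    rw [eval_prod]
    exact prod_eq_zero (mem_univ i) hi
  have hle : ∀ i ∈ (univ : Finset ι), (s.filter
      fun x => (H i).evalEval x ((al ρ t).eval x) = 0).card ≤ e * (H i).natDegree := by
    intro i _
    refine le_trans ?_ (CONSTSec_deg (H i) (al ρ t) (CONSTSec_al ρ t) (hF.wt i))
    refine le_trans (card_le_card ?_)
      ((Multiset.toFinset_card_le _).trans (card_roots' ((H i).eval (al ρ t))))
    intro x hx
    rw [Multiset.mem_toFinset, mem_roots (hgi i), IsRoot.def, ← CONSTSec_ev]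
    exact (mem_filter.1 hx).2
  have hcov : s ⊆ (univ : Finset ι).biUnion fun i =>
      s.filter fun x => (H i).evalEval x ((al ρ t).eval x) = 0 := by
    intro x hx
    have h0 := hmem' x hx
    rw [eval_prod, eval_prod, prod_eq_zero_iff] at h0
    obtain ⟨i, -, hi⟩ := h0
    exact mem_biUnion.2 ⟨i, mem_univ i, mem_filter.2 ⟨hx, by rw [CONSTSec_ev]; exact hi⟩⟩
  have hsum : ∑ i, (s.filter fun x => (H i).evalEval x ((al ρ t).eval x) = 0).card =
      ∑ i, e * (H i).natDegree := by
    refine le_antisymm (sum_le_sum hle) ?_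
    rw [← mul_sum, ← hcard]
    exact (card_le_card hcov).trans card_biUnion_le
  refine ⟨hne, ?_, fun x hx => hq x (hmem x hx), fun i => ?_⟩
  · rw [hr, hcard]
    exact Nat.mul_le_mul_left _ hF.deg
  · rw [hr]
    exact (sum_eq_sum_iff_of_le hle).1 hsum i (mem_univ i)

end Pool.Agent.MP_a9d3bd_g
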