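import Pool.Agent.MP_a9d3bd_g.BDefs2

namespace Pool.Agent.MP_a9d3bd_g

open Polynomial Finset

/-- B1 (file BGram.lean). -/
theorem gram {P E ι : Type} [DecidableEq P] (S : Finset P) (T : Finset E) (inc : E → Finset P)
    (hinc : ∀ l ∈ T, inc l ⊆ S) (cl : P → ι) (c : ι → ι → ℝ) (hc : ∀ i j, c i j = c j i)
    (l₀ η cm : ℝ) (hD : ∀ x ∈ S, l₀ ≤ (T.filter fun l => x ∈ inc l).card)
    (hN : ∀ x ∈ S, ∑ y ∈ S.erase x,
      |((T.filter fun l => x ∈ inc l ∧ y ∈ inc l).card : ℝ) - c (cl x) (cl y)| ≤ η)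
    (hcm : ∀ i, c i i ≤ cm) (φ : P → ℝ)
    (h0 : 0 ≤ ∑ x ∈ S, ∑ y ∈ S, c (cl x) (cl y) * φ x * φ y) :
    (l₀ - η - cm) * ∑ x ∈ S, φ x ^ 2 ≤ ∑ l ∈ T, (∑ x ∈ inc l, φ x) ^ 2 := by
  obtain ⟨e, he⟩ : ∃ e : P → P → ℝ, ∀ x y, e x y =
    ((T.filter fun l => x ∈ inc l ∧ y ∈ inc l).card : ℝ) - c (cl x) (cl y) := ⟨_, fun _ _ => rfl⟩
  have es : ∀ x y, e x y = e y x := fun x y => by rw [he, he, hc]; simp only [and_comm]
  have h1 : ∑ l ∈ T, (∑ x ∈ inc l, φ x) ^ 2 = ∑ x ∈ S, ∑ y ∈ S,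
      ((T.filter fun l => x ∈ inc l ∧ y ∈ inc l).card : ℝ) * (φ x * φ y) := by
    have k : ∀ l ∈ T, (∑ x ∈ inc l, φ x) ^ 2 = ∑ x ∈ S, ∑ y ∈ S,
        if x ∈ inc l ∧ y ∈ inc l then φ x * φ y else 0 := fun l hl => by
      have k1 : ∑ x ∈ inc l, φ x = ∑ x ∈ S, if x ∈ inc l then φ x else 0 := by
        rw [← sum_filter, filter_mem_eq_inter, inter_eq_right.2 (hinc l hl)]
      rw [k1, sq, sum_mul_sum]
      exact sum_congr rfl fun x _ => sum_congr rfl fun y _ => (ite_zero_mul_ite_zero _ _ _ _)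
    rw [sum_congr rfl k, sum_comm]
    refine sum_congr rfl fun x _ => ?_
    rw [sum_comm]
    exact sum_congr rfl fun y _ => by rw [← sum_filter, sum_const, nsmul_eq_mul]
  have h2 : ∑ x ∈ S, ∑ y ∈ S.erase x, |e x y| * φ x ^ 2 ≤ η * ∑ x ∈ S, φ x ^ 2 := by
    rw [mul_sum]
    refine sum_le_sum fun x hx => ?_
    rw [← sum_mul]
    exact mul_le_mul_of_nonneg_right (by simpa only [he] using hN x hx) (sq_nonneg _)
  have h3 : ∑ x ∈ S, ∑ y ∈ S.erase x, |e x y| * φ y ^ 2 =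
      ∑ x ∈ S, ∑ y ∈ S.erase x, |e x y| * φ x ^ 2 := by
    rw [sum_comm' (t' := S) (s' := fun y => S.erase y) fun x y => by
      simp only [mem_erase, ne_comm (a := x)]
      tauto]
    exact sum_congr rfl fun x _ => sum_congr rfl fun y _ => by rw [es]
  have h4 : ∀ x ∈ S, (l₀ - cm) * φ x ^ 2 - (∑ y ∈ S.erase x, |e x y| * φ x ^ 2 +
      ∑ y ∈ S.erase x, |e x y| * φ y ^ 2) / 2 ≤ ∑ y ∈ S, e x y * (φ x * φ y) := fun x hx => by
    rw [← add_sum_erase _ _ hx, ← sum_add_distrib, sum_div, sub_eq_add_neg, ← sum_neg_distrib]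
    refine add_le_add ?_ (sum_le_sum fun y _ => ?_)
    · rw [← sq, he]
      simp only [and_self]
      exact mul_le_mul_of_nonneg_right (sub_le_sub (hD x hx) (hcm _)) (sq_nonneg _)
    · rcases abs_cases (e x y) with ⟨k, k'⟩ | ⟨k, k'⟩ <;> rw [k]
      · nlinarith [mul_nonneg k' (sq_nonneg (φ x + φ y))]
      · nlinarith [mul_nonneg (neg_pos.2 k').le (sq_nonneg (φ x - φ y))]
  have h5 := sum_le_sum h4
  rw [sum_sub_distrib, ← mul_sum, ← sum_div, sum_add_distrib, h3] at h5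
  simp only [he, sub_mul, sum_sub_distrib] at h5
  simp only [he] at h2
  simp only [mul_assoc] at h0
  rw [h1]
  linarith

end Pool.Agent.MP_a9d3bd_g
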