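import Pool.Agent.MP_a9d3bd_g.BDefs2
import Pool.Agent.MP_a9d3bd_g.BGram

namespace Pool.Agent.MP_a9d3bd_g

open Polynomial Finset

theorem blockconst_mean {P ι : Type} [DecidableEq ι] (S : Finset P) (cl : P → ι) (φ : P → ℝ) :
    ∃ m : ι → ℝ, ∀ g : ι → ℝ, ∑ x ∈ S, g (cl x) * (φ x - m (cl x)) = 0 := by
  refine ⟨fun i => (∑ x ∈ S.filter (fun x => cl x = i), φ x) /
    (S.filter fun x => cl x = i).card, fun g => ?_⟩
  rw [← sum_fiberwise_of_maps_to (s := S) (t := S.image cl) (g := cl)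
    (fun x hx => mem_image_of_mem cl hx)]
  refine sum_eq_zero fun i hi => ?_
  obtain ⟨x0, hx0, e0⟩ := mem_image.1 hi
  have hpos : ((S.filter fun x => cl x = i).card : ℝ) ≠ 0 := by
    have : 0 < (S.filter fun x => cl x = i).card := card_pos.2 ⟨x0, mem_filter.2 ⟨hx0, e0⟩⟩
    exact_mod_cast this.ne'
  rw [sum_congr rfl (g := fun x => g i * (φ x - (∑ x ∈ S.filter (fun x => cl x = i), φ x) /
    (S.filter fun x => cl x = i).card)) (fun x hx => by rw [(mem_filter.1 hx).2]),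
    ← mul_sum, sum_sub_distrib, sum_const, nsmul_eq_mul, mul_div_cancel₀ _ hpos, sub_self,
    mul_zero]

/-- B3 (file BConst.lean), uses `gram`. -/
theorem blockconst {P E ι : Type} [DecidableEq P] [DecidableEq ι] (S : Finset P) (T : Finset E)
    (inc : E → Finset P) (hinc : ∀ l ∈ T, inc l ⊆ S) (cl : P → ι) (c : ι → ι → ℝ)
    (hc : ∀ i j, c i j = c j i) (l₀ η cm ε : ℝ) (d : ι → ℝ) (n : ι → ℕ)
    (hn : ∀ l ∈ T, ∀ i, ((inc l).filter fun x => cl x = i).card = n i)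
    (hD : ∀ x ∈ S, l₀ ≤ (T.filter fun l => x ∈ inc l).card)
    (hd : ∀ x ∈ S, |((T.filter fun l => x ∈ inc l).card : ℝ) - d (cl x)| ≤ ε)
    (hN : ∀ x ∈ S, ∑ y ∈ S.erase x,
      |((T.filter fun l => x ∈ inc l ∧ y ∈ inc l).card : ℝ) - c (cl x) (cl y)| ≤ η)
    (hcm : ∀ i, c i i ≤ cm) (hlt : S.card * ε ^ 2 < (l₀ - η - cm) * T.card) (φ : P → ℝ) (κ : ℝ)
    (h : ∀ l ∈ T, ∑ x ∈ inc l, φ x = κ) : ∀ x ∈ S, ∀ y ∈ S, cl x = cl y → φ x = φ y := by
  obtain ⟨m, hm⟩ := blockconst_mean S cl φ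
  obtain ⟨ψ, hψ⟩ : ∃ ψ : P → ℝ, ψ = fun x => φ x - m (cl x) := ⟨_, rfl⟩
  have hψ' : ∀ x, φ x - m (cl x) = ψ x := fun x => by rw [hψ]
  simp only [hψ'] at hm
  obtain ⟨k, hk⟩ : ∃ k : ℝ, ∀ l ∈ T, ∑ x ∈ inc l, ψ x = k := by
    refine ⟨κ - ∑ i ∈ S.image cl, n i * m i, fun l hl => ?_⟩
    have e : ∑ x ∈ inc l, m (cl x) = ∑ i ∈ S.image cl, n i * m i := by
      rw [← sum_fiberwise_of_maps_to (s := inc l) (t := S.image cl) (g := cl)
        (fun x hx => mem_image_of_mem cl (hinc l hl hx))]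
      refine sum_congr rfl fun i _ => ?_
      rw [sum_congr rfl (g := fun _ => m i) (fun x hx => by rw [(mem_filter.1 hx).2]),
        sum_const, nsmul_eq_mul, hn l hl i]
    rw [← h l hl, ← e, ← sum_sub_distrib]
    exact sum_congr rfl fun x _ => (hψ' x).symm
  have h0 : 0 ≤ ∑ x ∈ S, ∑ y ∈ S, c (cl x) (cl y) * ψ x * ψ y := by
    refine le_of_eq (sum_eq_zero fun x _ => ?_).symm
    rw [sum_congr rfl (g := fun y => ψ x * (c (cl x) (cl y) * ψ y)) (fun y _ => by ring),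
      ← mul_sum, hm (c (cl x)), mul_zero]
  have hg := gram S T inc hinc cl c hc l₀ η cm hD hN hcm ψ h0
  have e0 : ∑ l ∈ T, (∑ x ∈ inc l, ψ x) ^ 2 = T.card * k ^ 2 := by
    rw [← nsmul_eq_mul, ← sum_const]
    exact sum_congr rfl fun l hl => by rw [hk l hl]
  rw [e0] at hg
  have e1 : (T.card : ℝ) * k =
      ∑ x ∈ S, (((T.filter fun l => x ∈ inc l).card : ℝ) - d (cl x)) * ψ x := by
    have a1 : (T.card : ℝ) * k = ∑ l ∈ T, ∑ x ∈ S, if x ∈ inc l then ψ x else 0 := by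
      rw [← nsmul_eq_mul, ← sum_const]
      refine sum_congr rfl fun l hl => ?_
      rw [← sum_filter, filter_mem_eq_inter, inter_eq_right.2 (hinc l hl), hk l hl]
    simp only [sub_mul]
    rw [sum_sub_distrib, hm d, sub_zero, a1, sum_comm]
    refine sum_congr rfl fun x _ => ?_
    rw [← sum_filter, sum_const, nsmul_eq_mul]
  have e2 : ((T.card : ℝ) * k) ^ 2 ≤ S.card * ε ^ 2 * ∑ x ∈ S, ψ x ^ 2 := by
    rw [e1]
    refine (sum_mul_sq_le_sq_mul_sq _ _ _).trans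
      (mul_le_mul_of_nonneg_right ?_ (sum_nonneg fun _ _ => sq_nonneg _))
    rw [← nsmul_eq_mul, ← sum_const]
    refine sum_le_sum fun x hx => ?_
    rw [← sq_abs]
    exact pow_le_pow_left₀ (abs_nonneg _) (hd x hx) 2
  have e3 : ∑ x ∈ S, ψ x ^ 2 ≤ 0 := by
    by_contra hp
    have p1 := mul_lt_mul_of_pos_right hlt (not_le.1 hp)
    have p2 := mul_le_mul_of_nonneg_left hg (Nat.cast_nonneg (α := ℝ) T.card)
    linarith
  have e4 : ∀ x ∈ S, ψ x = 0 := fun x hx => by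
    have := (single_le_sum (f := fun x => ψ x ^ 2) (fun _ _ => sq_nonneg _) hx).trans e3
    exact pow_eq_zero_iff (two_ne_zero) |>.1 (le_antisymm this (sq_nonneg _))
  intro x hx y hy e
  have b1 := hψ' x
  have b2 := hψ' y
  rw [e4 x hx, e] at b1
  rw [e4 y hy] at b2
  linarith

end Pool.Agent.MP_a9d3bd_g
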