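import Pool.Agent.MP_a9d3bd_g.BConM
import Pool.Agent.MP_a9d3bd_g.BConst
import Pool.Agent.MP_a9d3bd_g.BConRam
import Pool.Agent.MP_a9d3bd_g.BConLag
import Pool.Agent.MP_a9d3bd_g.BConSec
import Pool.Agent.MP_a9d3bd_g.BConPts
import Pool.Agent.MP_a9d3bd_g.BConCore

namespace Pool.Agent.MP_a9d3bd_g

open Polynomial Finset

open Classical in
theorem CONST (p D e K₀ : ℕ) [Fact p.Prime] (he : 6 ≤ e) (K : Type) [Field K] [IsAlgClosed K]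
    [CharP K p] (hCT : CTs p D e K) : ∃ q₀ : ℕ, ∀ f : ℕ, q₀ ≤ p ^ f →
    ∀ (ι : Type) [Fintype ι] [DecidableEq ι] (H : ι → K[X][X]) (ρ : K), Fam (p ^ f) D e ρ H →
    ∀ (Ex : Finset (K × K)) (B : Finset (Fin e → K)), Ex.card ≤ K₀ →
    B.card ≤ K₀ * (p ^ f) ^ (e - 1) →
    ∀ (φ : K × K → ℝ) (κ : ℝ),
    (∀ t ∈ Edg (p ^ f) e ρ (∏ i, H i) (Pts (p ^ f) (∏ i, H i) \ Ex), t ∉ B →
      ∑ s ∈ ((∏ i, H i).eval (al ρ t)).roots.toFinset, φ (s, (al ρ t).eval s) = κ) →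
    ∀ x ∈ Pts (p ^ f) (∏ i, H i) \ Ex, ∀ y ∈ Pts (p ^ f) (∏ i, H i) \ Ex,
      (B.filter fun t => (al ρ t).eval x.1 = x.2).card ≤ K₀ * (p ^ f) ^ (e - 2) →
      (B.filter fun t => (al ρ t).eval y.1 = y.2).card ≤ K₀ * (p ^ f) ^ (e - 2) →
      ∀ i, (H i).evalEval x.1 x.2 = 0 → (H i).evalEval y.1 y.2 = 0 → φ x = φ y :=
  CONST_main CONST_ram CONST_lag CONST_sec CONST_pts
    (CONST_core fun _ _ _ _ _ => blockconst) p D e K₀ he K hCT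

end Pool.Agent.MP_a9d3bd_g
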