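import Pool.Agent.MP_a9d3bd_g.BConSt

namespace Pool.Agent.MP_a9d3bd_g

open Polynomial Finset

theorem CONST_ev {K : Type} [Field K] (G : K[X][X]) (a : K[X]) (s : K) :
    (G.eval a).eval s = G.evalEval s (a.eval s) := by
  have h1 := eval₂_hom (p := G) (evalRingHom s) a
  have h2 := eval₂_hom (p := G) (evalRingHom s) (C (a.eval s))
  simp only [coe_evalRingHom, eval_C] at h1 h2
  rw [← h1, h2]

theorem CONST_fac {ι : Type} [Fintype ι] (b a : ι → ℕ) {e D : ℕ} (h : ∑ i, b i ≤ D) :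
    (1 : ℝ) ≤ ∏ i, ((e * b i - a i).factorial : ℝ) ∧
      ∏ i, ((e * b i - a i).factorial : ℝ) ≤ (e * D).factorial := by
  have h1 : 0 < ∏ i, (e * b i - a i).factorial := prod_pos fun i _ => Nat.factorial_pos _
  have h2 : ∏ i, (e * b i - a i).factorial ≤ (e * D).factorial := by
    refine (Nat.le_of_dvd (Nat.factorial_pos _) (Nat.prod_factorial_dvd_factorial_sum _ _)).trans
      (Nat.factorial_le ?_)
    refine (sum_le_sum fun i _ => Nat.sub_le _ _).trans ?_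
    rw [← mul_sum]
    exact Nat.mul_le_mul_left _ h
  exact ⟨by exact_mod_cast h1, by exact_mod_cast h2⟩

theorem CONST_div {c F w ε : ℝ} (hF : 1 ≤ F) (h : |c * F - w| ≤ ε * w) : |c - w / F| ≤ ε * w := by
  have F0 : 0 < F := by linarith
  have e : c - w / F = (c * F - w) / F := by field_simp
  rw [e, abs_div, abs_of_pos F0]
  exact (div_le_self (abs_nonneg _) hF).trans h

open Classical in
theorem CONST_main (hR : CONST_Ram) (hL : CONST_Lag) (hS : CONST_Sec) (hP : CONST_Pts)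
    (hC : CONST_Core) (p D e K₀ : ℕ) [Fact p.Prime] (he : 6 ≤ e) (K : Type) [Field K]
    [CharP K p] (hCT : CTs p D e K) : ∃ q₀ : ℕ, ∀ f : ℕ, q₀ ≤ p ^ f →
    ∀ (ι : Type) [Fintype ι] [DecidableEq ι] (H : ι → K[X][X]) (ρ : K), Fam (p ^ f) D e ρ H →
    ∀ (Ex : Finset (K × K)) (B : Finset (Fin e → K)), Ex.card ≤ K₀ →
    B.card ≤ K₀ * (p ^ f) ^ (e - 1) →
    ∀ (φ : K × K → ℝ) (κ : ℝ),
    (∀ t ∈ Edg (p ^ f) e ρ (∏ i, H i) (Pts (p ^ f) (∏ i, H i) \ Ex), t ∉ B →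
      ∑ s ∈ ((∏ i, H i).eval (al ρ t)).roots.toFinset, φ (s, (al ρ t).eval s) = κ) →
    ∀ x ∈ Pts (p ^ f) (∏ i, H i) \ Ex, ∀ y ∈ Pts (p ^ f) (∏ i, H i) \ Ex,
      (B.filter fun t => (al ρ t).eval x.1 = x.2).card ≤ K₀ * (p ^ f) ^ (e - 2) →
      (B.filter fun t => (al ρ t).eval y.1 = y.2).card ≤ K₀ * (p ^ f) ^ (e - 2) →
      ∀ i, (H i).evalEval x.1 x.2 = 0 → (H i).evalEval y.1 y.2 = 0 → φ x = φ y := by
  obtain ⟨K₁, hK₁⟩ := hR D e
  have M1 : (1 : ℝ) ≤ (e * D).factorial := by exact_mod_cast Nat.factorial_pos _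
  obtain ⟨ε, ε0, q₀, hcore⟩ := hC D (e * D) K₀ (K₁ + K₀) _ M1
  obtain ⟨q₁, hq₁⟩ := hCT ε ε0
  refine ⟨max (max q₀ q₁) 2, fun f hf ι _ _ H ρ hF Ex B hEx hB φ κ hφ x hx y hy bx by' i xi yi => ?_⟩
  have f0 : q₀ ≤ p ^ f := (le_max_left _ _).trans ((le_max_left _ _).trans hf)
  have f1 : q₁ ≤ p ^ f := (le_max_right _ _).trans ((le_max_left _ _).trans hf)
  have f2 : 2 ≤ p ^ f := (le_max_right _ _).trans hf
  obtain ⟨Zr, z1, z2⟩ := hK₁ K _ ι H ρ hF
  obtain ⟨p1, ⟨P0, p2, p3, p4⟩, p5, p6, p7⟩ := hP p f K D e ι H ρ hF f2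
  have ct := hq₁ f f1 ι H ρ hF
  have sec := fun t => hS K _ D e ι H ρ t hF
  obtain ⟨G, hG⟩ : ∃ G, G = ∏ i, H i := ⟨_, rfl⟩
  rw [← hG] at hφ hx hy z2 p1 p2 p5 ct sec
  obtain ⟨Q, hQ⟩ : ∃ Q : ℝ, Q = (p : ℝ) ^ f := ⟨_, rfl⟩
  have cQ : ((p ^ f : ℕ) : ℝ) = Q := by rw [hQ]; push_cast; rfl
  rw [← hQ] at ct
  have Q0 : 0 < Q := by rw [← cQ]; exact_mod_cast (by omega : 0 < p ^ f)
  have u0 : 0 < Q ^ (e - 2) := pow_pos Q0 _
  have w1 : Q ^ (e - 1) = Q * Q ^ (e - 2) := by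
    rw [← pow_succ']; congr 1; omega
  have w0 : Q ^ (e - 0) = Q ^ 2 * Q ^ (e - 2) := by
    rw [← pow_add]; congr 1; omega
  obtain ⟨Sp, hSp⟩ : ∃ Sp : Finset (Fin e → K), ∀ t, t ∈ Sp ↔ (∀ i, t i ^ p ^ f = t i) ∧
      Spl (p ^ f) (e * ∑ i, (H i).natDegree) (G.eval (al ρ t)) :=
    ⟨p7.toFinset.filter fun t => Spl (p ^ f) (e * ∑ i, (H i).natDegree) (G.eval (al ρ t)),
      fun t => by simp⟩
  obtain ⟨inc, hinc⟩ : ∃ inc : (Fin e → K) → Finset (K × K), ∀ t, inc t =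
      (G.eval (al ρ t)).roots.toFinset.image fun s => (s, (al ρ t).eval s) := ⟨_, fun _ => rfl⟩
  have inj : ∀ t : Fin e → K, Function.Injective fun s => (s, (al ρ t).eval s) :=
    fun t a b h => congrArg Prod.fst h
  have i1 : ∀ t z, z ∈ inc t → (al ρ t).eval z.1 = z.2 := fun t z hz => by
    rw [hinc] at hz
    obtain ⟨s, -, rfl⟩ := mem_image.1 hz
    rfl
  have i2 : ∀ t ∈ Sp, ∀ z, z ∈ inc t ↔ (al ρ t).eval z.1 = z.2 ∧ G.evalEval z.1 z.2 = 0 := by
    intro t ht z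
    have h0 := (sec t ((hSp t).1 ht).2).1
    rw [hinc, mem_image]
    constructor
    · rintro ⟨s, hs, rfl⟩
      exact ⟨rfl, (CONST_ev G _ s).symm.trans ((mem_roots h0).1 (Multiset.mem_toFinset.1 hs))⟩
    · rintro ⟨h1, h2⟩
      refine ⟨z.1, Multiset.mem_toFinset.2 ((mem_roots h0).2 ?_), Prod.ext rfl h1⟩
      rw [IsRoot, CONST_ev, h1, h2]
  obtain ⟨cl, hcl⟩ : ∃ cl : K × K → ι, ∀ z ∈ P0, ∀ j, cl z = j ↔ (H j).evalEval z.1 z.2 = 0 := by
    have : Nonempty ι := ⟨i⟩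
    choose! cl h1 h2 using p5
    exact ⟨cl, fun z hz j => ⟨fun h => h ▸ h1 z ((p2 z).1 hz),
      fun h => (h2 z ((p2 z).1 hz) j h).symm⟩⟩
  have key : ∀ J : Finset (K × K), J ⊆ P0 → J.card ≤ 2 → Set.InjOn Prod.fst (J : Set (K × K)) →
      |((Sp.filter fun t => ∀ z ∈ J, z ∈ inc t).card : ℝ) - Q ^ (e - J.card) /
        ∏ i, ((e * (H i).natDegree - (J.filter fun z => cl z = i).card).factorial : ℝ)| ≤
        ε * Q ^ (e - J.card) := by
    intro J h1 h2 h3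
    refine CONST_div (CONST_fac _ _ hF.deg).1 ?_
    have h4 := ct J cl h2 h3 fun z hz => ⟨((p2 z).1 (h1 hz)).1, ((p2 z).1 (h1 hz)).2.1,
      (hcl z (h1 hz) _).1 rfl, ((p2 z).1 (h1 hz)).2.2.2⟩
    rw [← Set.ncard_coe_finset]
    convert h4 using 6
    ext t
    simp only [coe_filter, Set.mem_ofPred_eq]
    constructor
    · rintro ⟨a, b⟩
      exact ⟨((hSp t).1 a).1, fun z hz => i1 t z (b z hz), ((hSp t).1 a).2⟩
    · rintro ⟨a, b, c⟩
      have ht := (hSp t).2 ⟨a, c⟩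
      exact ⟨ht, fun z hz => (i2 t ht z).2 ⟨b z hz, ((p2 z).1 (h1 hz)).2.2.1⟩⟩
  have lag : ∀ (J : Finset (K × K)) (A : Finset (Fin e → K)), A ⊆ Sp → J.card ≤ 2 →
      Set.InjOn Prod.fst (J : Set (K × K)) → (∀ t ∈ A, ∀ z ∈ J, z ∈ inc t) →
      (A.card : ℝ) ≤ Q ^ (e - J.card) := fun J A h1 h2 h3 h4 => by
    rw [← cQ]
    exact_mod_cast hL K _ e ρ A J f2 (by omega) h3 fun t ht =>
      ⟨((hSp t).1 (h1 ht)).1, fun z hz => i1 t z (h4 t ht z hz)⟩
  have ij : ∀ a b : K × K, a.1 ≠ b.1 →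
      Set.InjOn Prod.fst (({a, b} : Finset (K × K)) : Set (K × K)) := by
    intro a b h u hu v hv huv
    simp only [coe_insert, coe_singleton, Set.mem_insert_iff, Set.mem_singleton_iff] at hu hv
    rcases hu with rfl | rfl <;> rcases hv with rfl | rfl
    exacts [rfl, absurd huv h, absurd huv.symm h, rfl]
  have mem : ∀ z ∈ Pts (p ^ f) G \ (Ex : Set (K × K)), z ∈ P0 \ ((Zr \ P0) ∪ Ex) := fun z hz => by
    have := (p2 z).2 hz.1
    have h2 : z ∉ Ex := hz.2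
    simp [this, h2]
  have thr : ∀ z : K × K, (B.filter fun t => (al ρ t).eval z.1 = z.2).card ≤
      K₀ * (p ^ f) ^ (e - 2) →
      (((Sp ∩ B).filter fun t => z ∈ inc t).card : ℝ) ≤ K₀ * Q ^ (e - 2) := fun z h => by
    rw [← cQ]
    exact_mod_cast (card_le_card fun t ht => mem_filter.2
      ⟨(mem_inter.1 (mem_filter.1 ht).1).2, i1 t z (mem_filter.1 ht).2⟩).trans h
  refine hcore Q (Q ^ (e - 2)) (by rw [← cQ]; exact_mod_cast f0) u0 (K × K) (Fin e → K) ι P0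
    ((Zr \ P0) ∪ Ex) Sp B inc (fun z => P0.filter fun w => w.1 = z.1) cl
    (fun j k => Q ^ (e - 2) / ∏ i, ((e * (H i).natDegree -
      ((if j = i then 1 else 0) + if k = i then 1 else 0)).factorial : ℝ))
    (fun j => Q * Q ^ (e - 2) /
      ∏ i, ((e * (H i).natDegree - if j = i then 1 else 0).factorial : ℝ))
    (fun i => e * (H i).natDegree) (fun t ht => ⟨?_, fun z hz => ?_⟩) (fun t ht hs j => ?_)
    (by rw [← cQ]; exact_mod_cast p3)
    ((card_union_le _ _).trans (add_le_add ((card_le_card sdiff_subset).trans z1) hEx))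
    (by rw [← w1, ← cQ]; exact_mod_cast hB) (fun z => ?_) (fun a b ab => ?_) ?_
    (fun z hz => ⟨?_, ?_⟩) (fun z hz => ⟨p4 _, fun w hw hzw => ?_⟩) (fun j k => ⟨?_, ?_, ?_⟩) φ κ
    (fun t ht hb hs => ?_) x (mem x hx) y (mem y hy) (thr x bx) (thr y by')
    (((hcl x ((p2 x).2 hx.1) i).2 xi).trans ((hcl y ((p2 y).2 hy.1) i).2 yi).symm)
  · rw [hinc]
    exact card_image_le.trans (sec t ((hSp t).1 ht).2).2.1
  · obtain ⟨a1, a2⟩ := (i2 t ht z).1 hz
    have a3 : z.1 ^ p ^ f = z.1 := (sec t ((hSp t).1 ht).2).2.2.1 _ (by rw [CONST_ev, a1, a2])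
    by_cases a4 : z ∈ P0
    · exact mem_union_left _ a4
    · refine mem_union_right _ (mem_union_left _ (mem_sdiff.2 ⟨z2 z a2 ?_, a4⟩))
      by_contra a5
      exact a4 ((p2 z).2 ⟨a3, a1 ▸ p6 t z.1 ((hSp t).1 ht).1 a3, a2, a5⟩)
  · rw [← (sec t ((hSp t).1 ht).2).2.2.2 j, ← card_image_of_injective _ (inj t)]
    congr 1
    ext z
    rw [mem_filter, mem_image]
    constructor
    · rintro ⟨a1, a2⟩
      have a3 := (hcl z (hs a1) j).1 a2
      rw [hinc] at a1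
      obtain ⟨s, hs', rfl⟩ := mem_image.1 a1
      exact ⟨s, mem_filter.2 ⟨hs', a3⟩, rfl⟩
    · rintro ⟨s, hs', rfl⟩
      have a1 : (s, (al ρ t).eval s) ∈ inc t := by
        rw [hinc]
        exact mem_image_of_mem _ (mem_filter.1 hs').1
      exact ⟨a1, (hcl _ (hs a1) j).2 (mem_filter.1 hs').2⟩
  · rw [← w1]
    simpa using lag {z} (Sp.filter fun t => z ∈ inc t) (filter_subset _ _) (by simp) (by simp)
      fun t ht w hw => mem_singleton.1 hw ▸ (mem_filter.1 ht).2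
  · by_cases h : a.1 = b.1
    · rw [filter_false_of_mem fun t _ ht =>
        ab (Prod.ext h (by rw [← i1 t a ht.1, ← i1 t b ht.2, h]))]
      simpa using u0.le
    · have := lag {a, b} (Sp.filter fun t => a ∈ inc t ∧ b ∈ inc t) (filter_subset _ _)
        card_le_two (ij a b h) fun t ht w hw => by
          rcases mem_insert.1 hw with rfl | hw
          exacts [(mem_filter.1 ht).2.1, mem_singleton.1 hw ▸ (mem_filter.1 ht).2.2]
      rwa [card_pair ab] at this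
  · have a1 := (abs_le.1 (key ∅ (empty_subset _) (by simp) (by simp))).1
    have a2 := CONST_fac (e := e) (fun i => (H i).natDegree)
      (fun i => ((∅ : Finset (K × K)).filter fun z => cl z = i).card) hF.deg
    rw [card_empty, w0, filter_true_of_mem (by simp)] at a1
    have a3 := div_le_div_of_nonneg_left (by positivity : 0 ≤ Q ^ 2 * Q ^ (e - 2))
      (by linarith [a2.1]) a2.2
    rw [sub_mul, one_div_mul_eq_div]
    linarith
  · have a1 := key {z} (singleton_subset_iff.2 hz) (by simp) (by simp)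
    rw [card_singleton, w1] at a1
    simpa [filter_singleton, apply_ite card] using a1
  · have a2 := CONST_fac (e := e) (fun i => (H i).natDegree)
      (fun i => if cl z = i then 1 else 0) hF.deg
    exact div_le_div_of_nonneg_left (by positivity) (by linarith [a2.1]) a2.2
  · have h : z.1 ≠ w.1 := fun h => hzw (mem_filter.2 ⟨hw, h.symm⟩)
    have zw : z ≠ w := fun h' => h (congrArg Prod.fst h')
    have a1 := key {z, w} (insert_subset hz (singleton_subset_iff.2 hw)) card_le_two (ij z w h)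
    have a2 : ∀ i, (({z, w} : Finset (K × K)).filter fun v => cl v = i).card =
        (if cl z = i then 1 else 0) + if cl w = i then 1 else 0 := fun i => by
      rw [card_filter, sum_pair zw]
    rw [card_pair zw] at a1
    simpa [a2] using a1
  · simp only [add_comm]
  · positivity
  · exact div_le_self u0.le (CONST_fac _ _ hF.deg).1
  · rw [hinc, sum_image fun a _ b _ h => inj t h]
    refine hφ t ⟨((hSp t).1 ht).1, p1 ▸ ((hSp t).1 ht).2, fun s hs' => ?_⟩ hb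
    have a1 := mem_sdiff.1 (hs ((i2 t ht (s, (al ρ t).eval s)).2 ⟨rfl, (CONST_ev G _ s).symm.trans hs'⟩))
    exact ⟨(p2 _).1 a1.1, fun a2 => a1.2 (mem_union_right _ a2)⟩

end Pool.Agent.MP_a9d3bd_g
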