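import Pool.Agent.MP_a9d3bd_g.BDefs2

namespace Pool.Agent.MP_a9d3bd_g

open Polynomial Finset

def CONST_Blk : Prop := ∀ (P E ι : Type) [DecidableEq P] [DecidableEq ι] (S : Finset P)
    (T : Finset E) (inc : E → Finset P) (_ : ∀ l ∈ T, inc l ⊆ S) (cl : P → ι) (c : ι → ι → ℝ)
    (_ : ∀ i j, c i j = c j i) (l₀ η cm ε : ℝ) (d : ι → ℝ) (n : ι → ℕ)
    (_ : ∀ l ∈ T, ∀ i, ((inc l).filter fun x => cl x = i).card = n i)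
    (_ : ∀ x ∈ S, l₀ ≤ (T.filter fun l => x ∈ inc l).card)
    (_ : ∀ x ∈ S, |((T.filter fun l => x ∈ inc l).card : ℝ) - d (cl x)| ≤ ε)
    (_ : ∀ x ∈ S, ∑ y ∈ S.erase x,
      |((T.filter fun l => x ∈ inc l ∧ y ∈ inc l).card : ℝ) - c (cl x) (cl y)| ≤ η)
    (_ : ∀ i, c i i ≤ cm) (_ : S.card * ε ^ 2 < (l₀ - η - cm) * T.card) (φ : P → ℝ) (κ : ℝ)
    (_ : ∀ l ∈ T, ∑ x ∈ inc l, φ x = κ), ∀ x ∈ S, ∀ y ∈ S, cl x = cl y → φ x = φ y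

def CONST_Ram : Prop := ∀ D e : ℕ, ∃ K₁ : ℕ, ∀ (K : Type) [Field K] (q : ℕ) (ι : Type) [Fintype ι]
  (H : ι → K[X][X]) (ρ : K), Fam q D e ρ H → ∃ Z : Finset (K × K), Z.card ≤ K₁ ∧
    ∀ x : K × K, (∏ i, H i).evalEval x.1 x.2 = 0 →
      (derivative (∏ i, H i)).evalEval x.1 x.2 = 0 → x ∈ Z

def CONST_Lag : Prop := ∀ (K : Type) [Field K] (q e : ℕ) (ρ : K) (A : Finset (Fin e → K))
  (J : Finset (K × K)), 2 ≤ q → J.card ≤ e → Set.InjOn Prod.fst (J : Set (K × K)) →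
  (∀ t ∈ A, (∀ i, t i ^ q = t i) ∧ ∀ x ∈ J, (al ρ t).eval x.1 = x.2) → A.card ≤ q ^ (e - J.card)

open Classical in
def CONST_Sec : Prop := ∀ (K : Type) [Field K] (q D e : ℕ) (ι : Type) [Fintype ι]
  (H : ι → K[X][X]) (ρ : K) (t : Fin e → K), Fam q D e ρ H →
  Spl q (e * ∑ i, (H i).natDegree) ((∏ i, H i).eval (al ρ t)) →
  (∏ i, H i).eval (al ρ t) ≠ 0 ∧ ((∏ i, H i).eval (al ρ t)).roots.toFinset.card ≤ e * D ∧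
    (∀ s, ((∏ i, H i).eval (al ρ t)).eval s = 0 → s ^ q = s) ∧
    ∀ i, (((∏ i, H i).eval (al ρ t)).roots.toFinset.filter
      fun s => (H i).evalEval s ((al ρ t).eval s) = 0).card = e * (H i).natDegree

open Classical in
def CONST_Pts : Prop := ∀ (p f : ℕ) [Fact p.Prime] (K : Type) [Field K] [CharP K p] (D e : ℕ)
  (ι : Type) [Fintype ι] (H : ι → K[X][X]) (ρ : K), Fam (p ^ f) D e ρ H → 2 ≤ p ^ f →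
  (∏ i, H i).natDegree = ∑ i, (H i).natDegree ∧
  (∃ P0 : Finset (K × K), (∀ x, x ∈ P0 ↔ x ∈ Pts (p ^ f) (∏ i, H i)) ∧ P0.card ≤ D * p ^ f ∧
    ∀ s, (P0.filter fun x => x.1 = s).card ≤ D) ∧
  (∀ x ∈ Pts (p ^ f) (∏ i, H i), ∃! i, (H i).evalEval x.1 x.2 = 0) ∧
  (∀ (t : Fin e → K) (s : K), (∀ i, t i ^ p ^ f = t i) → s ^ p ^ f = s →
    (al ρ t).eval s ^ p ^ f = (al ρ t).eval s) ∧
  {t : Fin e → K | ∀ i, t i ^ p ^ f = t i}.Finite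

def CONST_Core : Prop := ∀ (D N K₀ K₁ : ℕ) (M : ℝ), 1 ≤ M → ∃ ε : ℝ, 0 < ε ∧ ∃ q₀ : ℕ,
  ∀ q u : ℝ, q₀ ≤ q → 0 < u →
  ∀ (P E ι : Type) [DecidableEq P] [DecidableEq E] [DecidableEq ι] (P0 Z : Finset P)
    (Sp B : Finset E) (inc : E → Finset P) (sm : P → Finset P) (cl : P → ι) (c : ι → ι → ℝ)
    (d : ι → ℝ) (n : ι → ℕ),
  (∀ t ∈ Sp, (inc t).card ≤ N ∧ inc t ⊆ P0 ∪ Z) →
  (∀ t ∈ Sp, inc t ⊆ P0 → ∀ i, ((inc t).filter fun x => cl x = i).card = n i) →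
  (P0.card : ℝ) ≤ D * q → Z.card ≤ K₁ → (B.card : ℝ) ≤ K₀ * (q * u) →
  (∀ z, ((Sp.filter fun t => z ∈ inc t).card : ℝ) ≤ q * u) →
  (∀ x z, x ≠ z → ((Sp.filter fun t => x ∈ inc t ∧ z ∈ inc t).card : ℝ) ≤ u) →
  (1 / M - ε) * (q ^ 2 * u) ≤ Sp.card →
  (∀ x ∈ P0, |((Sp.filter fun t => x ∈ inc t).card : ℝ) - d (cl x)| ≤ ε * (q * u) ∧
    q * u / M ≤ d (cl x)) →
  (∀ x ∈ P0, (sm x).card ≤ D ∧ ∀ y ∈ P0, y ∉ sm x →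
    |((Sp.filter fun t => x ∈ inc t ∧ y ∈ inc t).card : ℝ) - c (cl x) (cl y)| ≤ ε * u) →
  (∀ i j, c i j = c j i ∧ 0 ≤ c i j ∧ c i j ≤ u) →
  ∀ (φ : P → ℝ) (κ : ℝ), (∀ t ∈ Sp, t ∉ B → inc t ⊆ P0 \ Z → ∑ x ∈ inc t, φ x = κ) →
  ∀ x ∈ P0 \ Z, ∀ y ∈ P0 \ Z, (((Sp ∩ B).filter fun t => x ∈ inc t).card : ℝ) ≤ K₀ * u →
    (((Sp ∩ B).filter fun t => y ∈ inc t).card : ℝ) ≤ K₀ * u → cl x = cl y → φ x = φ y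

end Pool.Agent.MP_a9d3bd_g
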