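import Pool.Agent.MP_a9d3bd_g.ADefs

namespace Pool.Agent.MP_a9d3bd_g

open Polynomial

variable {K : Type} [Field K]

/-- Rational points of the curve at which the projection to the `S`-line is unramified. -/
def Pts (q : ℕ) (H : K[X][X]) : Set (K × K) :=
  {x | x.1 ^ q = x.1 ∧ x.2 ^ q = x.2 ∧ H.evalEval x.1 x.2 = 0 ∧
    (derivative H).evalEval x.1 x.2 ≠ 0}

/-- Rational sections that cut the curve in the maximal number of rational points, all in `P`. -/
def Edg (q e : ℕ) (ρ : K) (H : K[X][X]) (P : Set (K × K)) : Set (Fin e → K) :=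
  {t | (∀ i, t i ^ q = t i) ∧ Spl q (e * H.natDegree) (H.eval (al ρ t)) ∧
    ∀ s, (H.eval (al ρ t)).eval s = 0 → (s, (al ρ t).eval s) ∈ P}

end Pool.Agent.MP_a9d3bd_g
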