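import Pool.Agent.MP_a9d3bd_g.BGap0
import Pool.Agent.MP_a9d3bd_g.BGram

namespace Pool.Agent.MP_a9d3bd_g

open Polynomial Finset

theorem GAP_cnt {K : Type} [Field K] {p f e : ℕ} [Fact p.Prime] [CharP K p] (hq : 2 ≤ p ^ f)
    {H : K[X][X]} {ρ : K} (hρ : ρ ^ p ^ f = ρ) (Z : Finset (K × K))
    (hZ : ∀ x : K × K, H.evalEval x.1 x.2 = 0 → (derivative H).evalEval x.1 x.2 = 0 → x ∈ Z)
    (J : Finset (K × K)) (hJ : ∀ x ∈ J, x ∈ Pts (p ^ f) H) (hc : J.card + 1 ≤ e)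
    (T : Finset (Fin e → K)) (hT : ∀ t, t ∈ T ↔ t ∈ Edg (p ^ f) e ρ H (Pts (p ^ f) H) ∧
      ∀ x ∈ J, (al ρ t).eval x.1 = x.2) (N : ℕ)
    (hN : N = {t : Fin e → K | (∀ i, t i ^ p ^ f = t i) ∧ (∀ x ∈ J, (al ρ t).eval x.1 = x.2) ∧
      Spl (p ^ f) (e * H.natDegree) (H.eval (al ρ t))}.ncard) :
    T.card ≤ N ∧ N ≤ T.card + Z.card * (p ^ f) ^ (e - (J.card + 1)) := by
  classical
  have h0 : N = ((GAP_L (p ^ f) e ρ J).filter fun t =>
      Spl (p ^ f) (e * H.natDegree) (H.eval (al ρ t))).card := by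
    rw [hN, ← Set.ncard_coe_finset]
    congr 1
    ext t
    simp only [Set.mem_ofPred_eq, coe_filter, GAP_mem_L hq, and_assoc]
  rw [h0]
  refine ⟨card_le_card fun t ht => ?_, ?_⟩
  · obtain ⟨h1, h2⟩ := (hT t).1 ht
    exact mem_filter.2 ⟨(GAP_mem_L hq).2 ⟨h1.1, h2⟩, h1.2.1⟩
  · refine (card_le_card (t := T ∪ (Z \ J).biUnion fun z => GAP_L (p ^ f) e ρ (insert z J))
      fun t ht => ?_).trans ((card_union_le _ _).trans (Nat.add_le_add_left ?_ _))
    · obtain ⟨h1, h2⟩ := mem_filter.1 ht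
      rw [GAP_mem_L hq] at h1
      by_cases h3 : ∀ s, (H.eval (al ρ t)).eval s = 0 → (s, (al ρ t).eval s) ∈ Pts (p ^ f) H
      · exact mem_union_left _ ((hT t).2 ⟨⟨h1.1, h2, h3⟩, h1.2⟩)
      · push Not at h3
        obtain ⟨s, h4, h5⟩ := h3
        have h6 := GAP_root h2 h4
        rw [GAP_ev] at h4
        have h7 : (derivative H).evalEval s ((al ρ t).eval s) = 0 := by
          by_contra h
          exact h5 ⟨h6, GAP_rat hρ h1.1 h6, h4, h⟩
        refine mem_union_right _ (mem_biUnion.2 ⟨(s, (al ρ t).eval s), mem_sdiff.2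
          ⟨hZ _ h4 h7, fun h => h5 (hJ _ h)⟩, (GAP_mem_L hq).2 ⟨h1.1, fun x hx => ?_⟩⟩)
        rcases mem_insert.1 hx with rfl | hx
        exacts [rfl, h1.2 x hx]
    · refine (card_biUnion_le_card_mul _ _ ((p ^ f) ^ (e - (J.card + 1))) fun z hz => ?_).trans
        (Nat.mul_le_mul_right _ (card_le_card sdiff_subset))
      have h1 := card_insert_of_notMem (mem_sdiff.1 hz).2
      rw [← h1]
      exact GAP_lag hq ρ _ (h1 ▸ hc)

theorem GAP_num {T N F Q ε W : ℝ} (hF : 1 ≤ F) (h1 : T ≤ N) (h2 : N ≤ T + W)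
    (h3 : |N * F - Q| ≤ ε * Q) : |T - Q / F| ≤ ε * Q + W := by
  have hF0 : 0 < F := by linarith
  have h4 : |N - Q / F| ≤ ε * Q := by
    have h5 : N - Q / F = (N * F - Q) / F := by field_simp
    rw [h5, abs_div, abs_of_pos hF0]
    exact (div_le_self (abs_nonneg _) hF).trans h3
  rw [abs_le] at h4 ⊢
  constructor <;> linarith [h4.1, h4.2]

open Classical in
/-- File BGap.lean, uses `gram`. -/
theorem GAP (p D e : ℕ) [Fact p.Prime] (he : 6 ≤ e) (K : Type) [Field K] [IsAlgClosed K]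
    [CharP K p] (hCT : CTs p D e K) : ∃ c₀ : ℝ, 0 < c₀ ∧ ∃ K₁ q₀ : ℕ, ∀ f : ℕ, q₀ ≤ p ^ f →
    ∀ (H : K[X][X]) (ρ : K), Fam (p ^ f) D e ρ (fun _ : Unit => H) →
    {x : K × K | H.evalEval x.1 x.2 = 0 ∧ (derivative H).evalEval x.1 x.2 = 0}.Finite ∧
    {x : K × K | H.evalEval x.1 x.2 = 0 ∧ (derivative H).evalEval x.1 x.2 = 0}.ncard ≤ K₁ ∧
    ∀ (P : Finset (K × K)) (E : Finset (Fin e → K)), (∀ x, x ∈ P ↔ x ∈ Pts (p ^ f) H) →
      (∀ t, t ∈ E ↔ t ∈ Edg (p ^ f) e ρ H (Pts (p ^ f) H)) →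
      (∀ x ∈ P, ∃ t ∈ E, (al ρ t).eval x.1 = x.2) ∧
      ∀ φ : K × K → ℝ, c₀ * (p ^ f : ℝ) ^ (e - 1) * ∑ x ∈ P, φ x ^ 2 ≤
        ∑ t ∈ E, (∑ x ∈ P.filter (fun x => (al ρ t).eval x.1 = x.2), φ x) ^ 2 := by
  obtain ⟨F, hF⟩ : ∃ F : ℕ, F = (e * D).factorial := ⟨_, rfl⟩
  have hF0 : (0 : ℝ) < F := by rw [hF]; exact_mod_cast Nat.factorial_pos _
  obtain ⟨K₁, hK₁⟩ : ∃ K₁ : ℕ, K₁ = 2 * D * (e * D) * D := ⟨_, rfl⟩
  obtain ⟨ε, hε⟩ : ∃ ε : ℝ, ε = 1 / (4 * (D + 1) * F) := ⟨_, rfl⟩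
  have hε0 : 0 < ε := by rw [hε]; positivity
  obtain ⟨q₁, hq₁⟩ := hCT ε hε0
  refine ⟨1 / (2 * F), by positivity, K₁, q₁ + 2 + 4 * F * (K₁ + D + D * K₁ + 1),
    fun f hf H ρ hH => ?_⟩
  have hq : 2 ≤ p ^ f := by omega
  have hl := hH.crv.lead ()
  have hm : H.natDegree ≤ D := by simpa using hH.deg
  have hm0 : H.natDegree ≠ 0 := fun h => hH.crv.sep () (derivative_of_natDegree_zero h)
  have hB : ∀ a, (H.coeff a).natDegree ≤ e * D := fun a => by
    by_cases h : H.coeff a = 0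
    · rw [h, natDegree_zero]; exact Nat.zero_le _
    · exact (Nat.le_add_right _ _).trans ((hH.wt () a h).trans (Nat.mul_le_mul_left _ hm))
  obtain ⟨A, hA1, hA2⟩ := GAP_res H _ hB hm0 (GAP_sep (hH.crv.irr ()) hl (hH.crv.sep ()))
  have hZ : ∀ x : K × K, H.evalEval x.1 x.2 = 0 → (derivative H).evalEval x.1 x.2 = 0 →
      x ∈ GAP_cv H A := fun x h1 h2 => GAP_mem_cv hl (hA2 x h1 h2) h1
  have hZc : (GAP_cv H A).card ≤ K₁ := by
    rw [hK₁]
    exact (GAP_card_cv H A).trans (Nat.mul_le_mul (hA1.trans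
      (Nat.mul_le_mul_right _ (Nat.mul_le_mul_left _ hm))) hm)
  have hsub : {x : K × K | H.evalEval x.1 x.2 = 0 ∧ (derivative H).evalEval x.1 x.2 = 0} ⊆
      (GAP_cv H A : Set (K × K)) := fun x hx => hZ x hx.1 hx.2
  refine ⟨(finite_toSet _).subset hsub, (Set.ncard_le_ncard hsub (finite_toSet _)).trans
    ((Set.ncard_coe_finset _).le.trans hZc), fun P E hP hE => ?_⟩
  obtain ⟨q, hqq⟩ : ∃ q : ℝ, q = (p : ℝ) ^ f := ⟨_, rfl⟩
  have hqc : ((p ^ f : ℕ) : ℝ) = q := by rw [hqq, Nat.cast_pow]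
  have hq0 : 0 < q := by rw [← hqc]; exact_mod_cast (by omega : 0 < p ^ f)
  have app : ∀ (J : Finset (K × K)) (j : ℕ), J.card = j → j ≤ 2 → (∀ x ∈ J, x ∈ P) →
      Set.InjOn Prod.fst (J : Set (K × K)) → ∀ T : Finset (Fin e → K),
      (∀ t, t ∈ T ↔ t ∈ E ∧ ∀ x ∈ J, (al ρ t).eval x.1 = x.2) →
      |(T.card : ℝ) - q ^ (e - j) / (e * H.natDegree - j).factorial| ≤
        ε * q ^ (e - j) + K₁ * q ^ (e - (j + 1)) := by
    rintro J j rfl h1 h2 h3 T hT
    have h4 := hq₁ f (by omega) Unit (fun _ => H) ρ hH J (fun _ => ()) h1 h3 fun x hx => by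
      rw [Fintype.prod_unique]
      exact (hP x).1 (h2 x hx)
    simp only [Fintype.prod_unique, Fintype.sum_unique, filter_true, ← hqq] at h4
    obtain ⟨h5, h6⟩ := GAP_cnt hq hH.rho _ hZ J (fun x hx => (hP x).1 (h2 x hx)) (by omega) T
      (fun t => by rw [hT, hE]) _ rfl
    refine GAP_num (by exact_mod_cast Nat.factorial_pos _) (by exact_mod_cast h5)
      ?_ h4
    rw [← hqc]
    exact_mod_cast h6.trans (Nat.add_le_add_left (Nat.mul_le_mul_right _ hZc) _)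
  obtain ⟨u, hu⟩ : ∃ u : ℝ, u = q ^ (e - 3) := ⟨_, rfl⟩
  have hu0 : 0 < u := by rw [hu]; positivity
  have hu2 : q ^ (e - 2) = u * q := by rw [hu, ← pow_succ]; congr 1; omega
  have hu1 : q ^ (e - 1) = u * q * q := by rw [← hu2, ← pow_succ]; congr 1; omega
  obtain ⟨c, hc⟩ : ∃ c : ℝ, c = u * q / (e * H.natDegree - 2).factorial := ⟨_, rfl⟩
  have hc0 : 0 ≤ c := by rw [hc]; positivity
  have hc1 : c ≤ u * q := by
    rw [hc]
    exact div_le_self (by positivity) (by exact_mod_cast Nat.factorial_pos _)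
  have hD : ∀ x ∈ P, u * q * q / F - (ε * (u * q * q) + K₁ * (u * q)) ≤
      (E.filter fun t => x ∈ P.filter fun x => (al ρ t).eval x.1 = x.2).card := fun x hx => by
    have h1 := app {x} 1 (card_singleton x) (by omega) (by simpa using hx) (by simp)
      (E.filter fun t => x ∈ P.filter fun x => (al ρ t).eval x.1 = x.2) fun t => by simp [hx]
    rw [hu1, hu2] at h1
    have h2 : u * q * q / F ≤ u * q * q / (e * H.natDegree - 1).factorial := by
      refine div_le_div_of_nonneg_left (by positivity) (by exact_mod_cast Nat.factorial_pos _) ?_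
      rw [hF]
      exact_mod_cast Nat.factorial_le ((Nat.sub_le _ _).trans (Nat.mul_le_mul_left _ hm))
    linarith [(abs_le.1 h1).1]
  have hPc : (P.card : ℝ) ≤ q * D := by
    rw [← hqc]
    exact_mod_cast (card_le_card fun x hx => GAP_mem_cv hl ((GAP_mem_R hq).2 ((hP x).1 hx).1)
      ((hP x).1 hx).2.2.1).trans ((GAP_card_cv H _).trans (Nat.mul_le_mul (GAP_card_R hq) hm))
  have hN : ∀ x ∈ P, ∑ y ∈ P.erase x, |((E.filter fun t =>
      (x ∈ P.filter fun x => (al ρ t).eval x.1 = x.2) ∧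
        y ∈ P.filter fun x => (al ρ t).eval x.1 = x.2).card : ℝ) - c| ≤
      q * D * (ε * (u * q) + K₁ * u) + D * (u * q) := fun x hx => by
    have hA0 : 0 ≤ ε * (u * q) + K₁ * u := by positivity
    refine (sum_le_sum (g := fun y => (ε * (u * q) + K₁ * u) + if y.1 = x.1 then u * q else 0)
      fun y hy => ?_).trans ?_
    · obtain ⟨h1, h2⟩ := mem_erase.1 hy
      split_ifs with h3
      · rw [filter_false_of_mem fun t _ h => h1 (Prod.ext h3 (by
          rw [← (mem_filter.1 h.1).2, ← (mem_filter.1 h.2).2, h3])), card_empty, Nat.cast_zero,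
          zero_sub, abs_neg, abs_of_nonneg hc0]
        linarith
      · have h4 := app {x, y} 2 (card_pair h1.symm) le_rfl (by simp [hx, h2])
          (by
            rw [coe_pair]
            exact Set.injOn_pair.2 fun h => absurd h.symm h3)
          (E.filter fun t => (x ∈ P.filter fun x => (al ρ t).eval x.1 = x.2) ∧
            y ∈ P.filter fun x => (al ρ t).eval x.1 = x.2) fun t => by simp [hx, h2]
        rw [hu2, ← hu, ← hc] at h4
        rw [add_zero]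
        exact h4
    · rw [sum_add_distrib, sum_const, nsmul_eq_mul, ← sum_filter, sum_const, nsmul_eq_mul]
      refine add_le_add (mul_le_mul_of_nonneg_right (le_trans ?_ hPc) hA0)
        (mul_le_mul_of_nonneg_right ?_ (by positivity))
      · exact_mod_cast card_erase_le
      · have h1 : ((P.erase x).filter fun y => y.1 = x.1) ⊆ GAP_cv H {x.1} := fun y hy =>
          GAP_mem_cv hl (mem_singleton.2 (mem_filter.1 hy).2)
            ((hP y).1 (mem_of_mem_erase (mem_filter.1 hy).1)).2.2.1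
        have h2 := (card_le_card h1).trans (GAP_card_cv H _)
        rw [card_singleton, one_mul] at h2
        exact_mod_cast h2.trans hm
  have hbig : 4 * F * (K₁ + D + D * K₁ + 1) ≤ q := by
    rw [← hqc]
    exact_mod_cast (Nat.le_add_left _ _).trans hf
  have hnum : 1 / (2 * F) * (u * q * q) ≤ u * q * q / F - (ε * (u * q * q) + K₁ * (u * q)) -
      (q * D * (ε * (u * q) + K₁ * u) + D * (u * q)) - u * q := by
    have h1 : (K₁ + D + D * K₁ + 1 : ℝ) ≤ q / (4 * F) := by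
      rw [le_div_iff₀ (by positivity)]
      linarith
    have h2 := mul_le_mul_of_nonneg_left h1 (mul_pos hu0 hq0).le
    have h3 : ε * (D + 1) = 1 / (4 * F) := by rw [hε]; field_simp
    have h4 : ε * (D + 1) * (u * q * q) = u * q * q / F / 4 := by rw [h3]; field_simp
    have h5 : u * q * (q / (4 * F)) = u * q * q / F / 4 := by field_simp
    have h6 : 1 / (2 * F) * (u * q * q) = u * q * q / F / 2 := by field_simp
    rw [h6]
    rw [h5] at h2
    linarith
  refine ⟨fun x hx => ?_, fun φ => ?_⟩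
  · have h1 : (0 : ℝ) < 1 / (2 * F) * (u * q * q) := by positivity
    have h2 : (0 : ℝ) ≤ q * D * (ε * (u * q) + K₁ * u) + D * (u * q) := by positivity
    have h3 : (0 : ℝ) < (E.filter fun t => x ∈ P.filter fun x => (al ρ t).eval x.1 = x.2).card := by
      linarith [hD x hx, mul_pos hu0 hq0]
    obtain ⟨t, ht⟩ := card_pos.1 (Nat.cast_pos.1 h3)
    exact ⟨t, (mem_filter.1 ht).1, (mem_filter.1 (mem_filter.1 ht).2).2⟩
  · rw [← hqq, hu1]
    refine le_trans (mul_le_mul_of_nonneg_right hnum (sum_nonneg fun x _ => sq_nonneg _))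
      (gram P E (fun t => P.filter fun x => (al ρ t).eval x.1 = x.2) (fun _ _ => filter_subset _ _)
        (fun _ => ()) (fun _ _ => c) (fun _ _ => rfl) _ _ _ hD hN (fun _ => hc1) φ ?_)
    simp only [mul_assoc, ← mul_sum, ← sum_mul]
    exact mul_nonneg hc0 (mul_self_nonneg _)

end Pool.Agent.MP_a9d3bd_g
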