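import Pool.Agent.MP_a9d3bd_g.BDefs2

namespace Pool.Agent.MP_a9d3bd_g

open Polynomial Finset

section
variable {K : Type} [Field K]

open Classical in
/-- The elements fixed by the `q`-th power. -/
noncomputable def GAP_R (K : Type) [Field K] (q : ℕ) : Finset K := (X ^ q - X : K[X]).roots.toFinset

theorem GAP_ne {q : ℕ} (hq : 2 ≤ q) : (X ^ q - X : K[X]) ≠ 0 :=
  FiniteField.X_pow_card_sub_X_ne_zero K hq

theorem GAP_mem_R {q : ℕ} (hq : 2 ≤ q) {x : K} : x ∈ GAP_R K q ↔ x ^ q = x := by
  simp [GAP_R, GAP_ne hq, sub_eq_zero]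

theorem GAP_card_R {q : ℕ} (hq : 2 ≤ q) : (GAP_R K q).card ≤ q := by
  classical
  unfold GAP_R
  refine (Multiset.toFinset_card_le _).trans ((card_roots' _).trans ?_)
  exact (FiniteField.X_pow_card_sub_X_natDegree_eq K hq).le

open Classical in
/-- Rational sections through the points of `J`. -/
noncomputable def GAP_L (q e : ℕ) (ρ : K) (J : Finset (K × K)) : Finset (Fin e → K) :=
  (Fintype.piFinset fun _ => GAP_R K q).filter fun t => ∀ x ∈ J, (al ρ t).eval x.1 = x.2

theorem GAP_mem_L {q e : ℕ} (hq : 2 ≤ q) {ρ : K} {J : Finset (K × K)} {t : Fin e → K} :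
    t ∈ GAP_L q e ρ J ↔ (∀ i, t i ^ q = t i) ∧ ∀ x ∈ J, (al ρ t).eval x.1 = x.2 := by
  simp only [GAP_L, mem_filter, Fintype.mem_piFinset, GAP_mem_R hq]

theorem GAP_cf {R : Type} [CommRing R] {n : ℕ} (f : Fin n → R) (k : Fin n) :
    (∑ i : Fin n, C (f i) * X ^ (i : ℕ)).coeff k = f k := by
  simp [finsetSum_coeff, coeff_C_mul, coeff_X_pow, Fin.val_inj]

/-- Interpolation: at most `q ^ (e - #J)` rational sections pass through `J`. -/
theorem GAP_lag {q e : ℕ} (hq : 2 ≤ q) (ρ : K) (J : Finset (K × K)) (hJ : J.card ≤ e) :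
    (GAP_L q e ρ J).card ≤ q ^ (e - J.card) := by
  classical
  refine le_trans (card_le_card_of_injOn (t := Fintype.piFinset fun _ : Fin (e - J.card) =>
    GAP_R K q) (fun t k => t ⟨J.card + k, by have := k.2; omega⟩) ?_ ?_) ?_
  · intro t ht
    rw [mem_coe, GAP_mem_L hq] at ht
    exact mem_coe.2 (Fintype.mem_piFinset.2 fun k => (GAP_mem_R hq).2 (ht.1 _))
  · intro t ht t' ht' h
    rw [mem_coe, GAP_mem_L hq] at ht ht'
    have hinj : Set.InjOn Prod.fst (J : Set (K × K)) := fun x hx y hy hxy =>
      Prod.ext hxy (by rw [← ht.2 x hx, ← ht.2 y hy, hxy])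
    have h1 : ∀ i : Fin e, J.card ≤ i → t i = t' i := fun i hi => by
      have h2 := congrFun h ⟨i - J.card, by have := i.2; omega⟩
      simpa only [Nat.add_sub_cancel' hi] using h2
    have h2 : (∑ i : Fin e, C (t i - t' i) * X ^ (i : ℕ) : K[X]) = 0 := by
      refine eq_zero_of_degree_lt_of_eval_finset_eq_zero (J.image Prod.fst) ?_ fun s hs => ?_
      · rw [card_image_of_injOn hinj]
        refine (degree_sum_le _ _).trans_lt ((Finset.sup_lt_iff (WithBot.bot_lt_coe _)).2
          fun i _ => ?_)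
        rcases lt_or_ge (i : ℕ) J.card with hi | hi
        · exact (degree_C_mul_X_pow_le _ _).trans_lt (by exact_mod_cast hi)
        · rw [h1 i hi, sub_self, map_zero, zero_mul, degree_zero]
          exact WithBot.bot_lt_coe _
      · obtain ⟨x, hx, rfl⟩ := mem_image.1 hs
        have h3 := (ht.2 x hx).trans (ht'.2 x hx).symm
        simp only [al, eval_add, add_right_inj] at h3
        simp only [map_sub, sub_mul, sum_sub_distrib, eval_sub, h3, sub_self]
    funext i
    have h3 := GAP_cf (fun i => t i - t' i) i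
    rw [h2, coeff_zero] at h3
    exact sub_eq_zero.1 h3.symm
  · rw [Fintype.card_piFinset_const]
    exact Nat.pow_le_pow_left (GAP_card_R hq) _

open Classical in
/-- The points of the curve over a finite set of values of `S`. -/
noncomputable def GAP_cv (H : K[X][X]) (A : Finset K) : Finset (K × K) :=
  A.biUnion fun s => (H.map (evalRingHom s)).roots.toFinset.image fun y => (s, y)

theorem GAP_card_cv (H : K[X][X]) (A : Finset K) : (GAP_cv H A).card ≤ A.card * H.natDegree := by
  classical
  unfold GAP_cv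
  refine card_biUnion_le_card_mul _ _ _ fun s _ => card_image_le.trans ?_
  exact (Multiset.toFinset_card_le _).trans ((card_roots' _).trans natDegree_map_le)

theorem GAP_mem_cv {H : K[X][X]} (hH : IsUnit H.leadingCoeff) {A : Finset K} {x : K × K}
    (h1 : x.1 ∈ A) (h2 : H.evalEval x.1 x.2 = 0) : x ∈ GAP_cv H A := by
  classical
  unfold GAP_cv
  refine mem_biUnion.2 ⟨x.1, h1, mem_image.2 ⟨x.2, ?_, rfl⟩⟩
  rw [Multiset.mem_toFinset, mem_roots, IsRoot, map_evalRingHom_eval]
  · exact h2
  · intro h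
    have h3 := congrArg (coeff · H.natDegree) h
    simp only [coeff_map, coeff_zero, coeff_natDegree] at h3
    exact (hH.map (evalRingHom x.1)).ne_zero h3

theorem GAP_det {n : Type} [Fintype n] [DecidableEq n] (M : Matrix n n K[X]) (B : ℕ)
    (h : ∀ i j, (M i j).natDegree ≤ B) : M.det.natDegree ≤ Fintype.card n * B := by
  rw [Matrix.det_apply']
  refine natDegree_sum_le_of_forall_le _ _ fun σ _ => ?_
  refine natDegree_mul_le.trans ?_
  rw [natDegree_intCast, zero_add]
  refine (natDegree_prod_le _ _).trans ((sum_le_card_nsmul _ _ B fun i _ => h _ _).trans ?_)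
  rw [smul_eq_mul, card_univ]

/-- The ramified points lie over at most `2 m B` values of `S`. -/
theorem GAP_res (H : K[X][X]) (B : ℕ) (hB : ∀ a, (H.coeff a).natDegree ≤ B)
    (hm : H.natDegree ≠ 0) (hs : (H.map (algebraMap K[X] (FractionRing K[X]))).Separable) :
    ∃ A : Finset K, A.card ≤ 2 * H.natDegree * B ∧ ∀ x : K × K, H.evalEval x.1 x.2 = 0 →
      (derivative H).evalEval x.1 x.2 = 0 → x.1 ∈ A := by
  classical
  have hinj := IsFractionRing.injective K[X] (FractionRing K[X])
  have h0 : resultant H (derivative H) ≠ 0 := by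
    have h1 := resultant_ne_zero _ _ hs
    rw [derivative_map, natDegree_map_eq_of_injective hinj, natDegree_map_eq_of_injective hinj,
      resultant_map_map] at h1
    exact fun h => h1 (by rw [h, map_zero])
  have hB' : ∀ a, ((derivative H).coeff a).natDegree ≤ B := fun a => by
    rw [coeff_derivative]
    refine natDegree_mul_le.trans ?_
    rw [← Nat.cast_succ, natDegree_natCast, add_zero]
    exact hB _
  refine ⟨(resultant H (derivative H)).roots.toFinset, (Multiset.toFinset_card_le _).trans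
    ((card_roots' _).trans ((GAP_det _ B fun i j => ?_).trans ?_)), fun x h1 h2 => ?_⟩
  · refine j.addCases (fun j => ?_) fun j => ?_
    · simp only [sylvester, Matrix.of_apply, Fin.addCases_left]
      split_ifs
      exacts [hB' _, by simp]
    · simp only [sylvester, Matrix.of_apply, Fin.addCases_right]
      split_ifs
      exacts [hB _, by simp]
  · rw [Fintype.card_fin]
    have := natDegree_derivative_le H
    exact Nat.mul_le_mul_right _ (by omega)
  · obtain ⟨a, b, -, -, h⟩ := exists_mul_add_mul_eq_C_resultant H (derivative H) le_rfl le_rfl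
      (Or.inl hm)
    have h3 := congrArg (evalEval x.1 x.2) h
    rw [evalEval_add, evalEval_mul, evalEval_mul, h1, h2, zero_mul, zero_mul, add_zero,
      evalEval_C] at h3
    rw [Multiset.mem_toFinset, mem_roots h0]
    exact h3.symm

theorem GAP_sep {H : K[X][X]} (h1 : Irreducible H) (h2 : IsUnit H.leadingCoeff)
    (h3 : derivative H ≠ 0) : (H.map (algebraMap K[X] (FractionRing K[X]))).Separable := by
  have hinj := IsFractionRing.injective K[X] (FractionRing K[X])
  have hp : H.IsPrimitive := fun r hr =>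
    isUnit_of_dvd_unit ((C_dvd_iff_dvd_coeff r H).1 hr H.natDegree) h2
  rw [separable_iff_derivative_ne_zero (hp.irreducible_iff_irreducible_map_fraction_map.1 h1),
    derivative_map]
  exact (Polynomial.map_ne_zero_iff hinj).2 h3

theorem GAP_ev (H : K[X][X]) (a : K[X]) (s : K) : (H.eval a).eval s = H.evalEval s (a.eval s) := by
  rw [← eval₂_evalRingHom]
  exact (eval₂_hom (evalRingHom s) a).symm

theorem GAP_rat {p f e : ℕ} [Fact p.Prime] [CharP K p] {ρ s : K} {t : Fin e → K}
    (h1 : ρ ^ p ^ f = ρ) (h2 : ∀ i, t i ^ p ^ f = t i) (h3 : s ^ p ^ f = s) :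
    (al ρ t).eval s ^ p ^ f = (al ρ t).eval s := by
  have h4 : ∀ i : ℕ, (s ^ i) ^ p ^ f = s ^ i := fun i => by rw [← pow_mul, mul_comm, pow_mul, h3]
  simp only [al, eval_add, eval_mul, eval_C, eval_pow, eval_X, eval_finsetSum]
  rw [add_pow_char_pow, sum_pow_char_pow]
  simp only [mul_pow, h1, h2, h4]

theorem GAP_root {q n : ℕ} {h : K[X]} (hs : Spl q n h) {s : K} (h0 : h.eval s = 0) : s ^ q = s := by
  obtain ⟨A, -, h1, c, hc, rfl⟩ := hs
  rw [eval_mul, eval_C, eval_prod] at h0
  obtain ⟨x, hx, h2⟩ := prod_eq_zero_iff.1 ((mul_eq_zero.1 h0).resolve_left hc)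
  rw [eval_sub, eval_X, eval_C, sub_eq_zero] at h2
  rw [h2]
  exact h1 x hx

end

end Pool.Agent.MP_a9d3bd_g
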