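import Pool.Agent.MP_a9d3bd_g.BDefs2

namespace Pool.Agent.MP_a9d3bd_g

open Polynomial Finset

theorem radon_sq {X L : Type*} [DecidableEq X] (P : Finset X) (La : Finset L)
    (pts : L → Finset X) (g : X → ℝ) (h : ∀ l ∈ La, ∀ x ∈ pts l, g x ≠ 0 → x ∈ P) :
    ∑ l ∈ La, (∑ x ∈ pts l, g x) ^ 2 =
      ∑ x ∈ P, ∑ y ∈ P, (#{l ∈ La | x ∈ pts l ∧ y ∈ pts l} : ℝ) * (g x * g y) := by
  have h1 : ∀ l ∈ La, ∑ x ∈ pts l, g x = ∑ x ∈ P, if x ∈ pts l then g x else 0 := by
    intro l hl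
    rw [← sum_filter, ← sum_filter_of_ne (s := pts l) (p := (· ∈ P)) (h l hl)]
    refine sum_congr ?_ fun _ _ => rfl
    ext x
    simp only [mem_filter, and_comm]
  rw [sum_congr rfl fun l hl => by rw [h1 l hl, sq, sum_mul_sum], sum_comm]
  refine sum_congr rfl fun x _ => ?_
  rw [sum_comm]
  refine sum_congr rfl fun y _ => ?_
  rw [card_filter, Nat.cast_sum, sum_mul]
  refine sum_congr rfl fun l _ => ?_
  by_cases hx : x ∈ pts l <;> by_cases hy : y ∈ pts l <;> simp [hx, hy]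

theorem radon_cls {X C : Type*} [DecidableEq C] (P : Finset X) (Cs : Finset C) (cl : X → C)
    (hcl : ∀ x ∈ P, cl x ∈ Cs) (ν : C → ℝ) (g : X → ℝ) :
    ∑ x ∈ P, ∑ y ∈ P, (if cl x = cl y then ν (cl x) else 0) * (g x * g y) =
      ∑ c ∈ Cs, ν c * (∑ x ∈ P with cl x = c, g x) ^ 2 := by
  rw [← sum_fiberwise_of_maps_to hcl]
  refine sum_congr rfl fun c _ => ?_
  rw [sq, sum_mul_sum, mul_sum]
  refine sum_congr rfl fun x hx => ?_
  rw [mem_filter] at hx
  rw [mul_sum, sum_filter]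
  refine sum_congr rfl fun y _ => ?_
  rw [hx.2]
  by_cases h : cl y = c
  · simp [h]
  · simp [h, Ne.symm h]

/-- Radon bound from incidence numbers (`cl = id`: projective case; `cl` = slope: affine case). -/
theorem radon_gen {H L C : Type*} [DecidableEq H] [DecidableEq C] (Lx : Finset L) (Hx : Finset H)
    (mem : L → Finset H) (cl : H → C) (r : ℝ) (f : H → ℝ) (hs : ∀ a, f a ≠ 0 → a ∈ Hx)
    (h0 : ∑ a ∈ Hx, f a = 0) (diag : ∀ a ∈ Hx, (#{l ∈ Lx | a ∈ mem l} : ℝ) ≤ r)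
    (off : ∀ a ∈ Hx, ∀ b ∈ Hx, a ≠ b →
      #{l ∈ Lx | a ∈ mem l ∧ b ∈ mem l} = if cl a = cl b then 0 else 1) :
    ∑ l ∈ Lx, (∑ a ∈ mem l, f a) ^ 2 ≤ r * ∑ a ∈ Hx, f a ^ 2 := by
  rw [radon_sq Hx Lx mem f fun _ _ a _ => hs a]
  have h1 := radon_cls Hx (Hx.image cl) cl (fun x hx => mem_image_of_mem _ hx) (fun _ => 1) f
  have h2 : 0 ≤ ∑ c ∈ Hx.image cl, (1 : ℝ) * (∑ x ∈ Hx with cl x = c, f x) ^ 2 :=
    sum_nonneg fun _ _ => by positivity
  have h3 : ∑ a ∈ Hx, ∑ b ∈ Hx, f a * f b = 0 := by rw [← sum_mul_sum, h0, zero_mul]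
  rw [← h1] at h2
  have h4 : ∀ a ∈ Hx, ∑ b ∈ Hx, (#{l ∈ Lx | a ∈ mem l ∧ b ∈ mem l} : ℝ) * (f a * f b) ≤
      r * f a ^ 2 + ∑ b ∈ Hx, f a * f b -
        ∑ b ∈ Hx, (if cl a = cl b then (1 : ℝ) else 0) * (f a * f b) := by
    intro a ha
    have h5 : r * f a ^ 2 = ∑ b ∈ Hx, if a = b then r * f a ^ 2 else 0 := by
      rw [sum_ite_eq, if_pos ha]
    rw [h5, ← sum_add_distrib, ← sum_sub_distrib]
    refine sum_le_sum fun b hb => ?_
    by_cases h : a = b
    · subst h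
      simp only [and_self, if_true]
      nlinarith [mul_le_mul_of_nonneg_right (diag a ha) (mul_self_nonneg (f a))]
    · rw [off a ha b hb h, if_neg h]
      split_ifs <;> simp
  have h6 := sum_le_sum h4
  rw [sum_sub_distrib, sum_add_distrib, h3, ← mul_sum] at h6
  linarith

open Classical in
theorem radon_fib {k V : Type} [Field k] [Fintype k] [AddCommGroup V] [Module k V] [Fintype V]
    (ev : V →ₗ[k] k) (hev : ev ≠ 0) (θ : k) :
    Fintype.card k * (univ.filter fun v => ev v = θ).card ≤ Fintype.card V := by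
  obtain ⟨w, hw⟩ : ∃ w, ev w ≠ 0 := by
    by_contra h
    push Not at h
    exact hev (LinearMap.ext h)
  rw [← card_univ, ← card_product, ← card_univ]
  refine card_le_card_of_injOn (fun p => p.2 + p.1 • w) (fun _ _ => mem_coe.2 (mem_univ _))
    fun p hp p' hp' e => ?_
  have h1 := (mem_filter.1 (mem_product.1 (mem_coe.1 hp)).2).2
  have h2 := (mem_filter.1 (mem_product.1 (mem_coe.1 hp')).2).2
  have e' : p.2 + p.1 • w = p'.2 + p'.1 • w := e
  have h3 := congrArg ev e'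
  rw [map_add, map_add, map_smul, map_smul, h1, h2, add_right_inj, smul_eq_mul, smul_eq_mul] at h3
  have h4 := mul_right_cancel₀ hw h3
  rw [h4, add_left_inj] at e'
  exact Prod.ext h4 e'

open Classical in
/-- Radon bound in the link of a point (file BRadon.lean). -/
theorem radon {k V : Type} [Field k] [Fintype k] [AddCommGroup V] [Module k V] [Fintype V]
    (ev : V →ₗ[k] k) (hev : ev ≠ 0) (τ θ : k) (ψ : V × V → ℝ)
    (hs : ∀ l, ψ l ≠ 0 → ev l.1 = τ ∧ ev l.2 = θ) (h0 : ∑ l, ψ l = 0) :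
    (Fintype.card k : ℝ) * ∑ a : k × V, (∑ l ∈ univ.filter (fun l : V × V => l.1 + a.1 • l.2 = a.2),
      ψ l) ^ 2 ≤ Fintype.card V * ∑ l, ψ l ^ 2 := by
  obtain ⟨R, hR⟩ : ∃ R : k × V → ℝ,
      ∀ a, R a = ∑ l ∈ univ.filter (fun l : V × V => l.1 + a.1 • l.2 = a.2), ψ l := ⟨_, fun _ => rfl⟩
  simp only [← hR]
  have q0 : (0 : ℝ) < Fintype.card k := by exact_mod_cast Fintype.card_pos
  have sR : ∀ a, R a ≠ 0 → a ∈ univ.filter fun a : k × V => ev a.2 = τ + a.1 * θ := by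
    intro a ha
    rw [hR] at ha
    obtain ⟨l, hl, h⟩ := exists_ne_zero_of_sum_ne_zero ha
    refine mem_filter.2 ⟨mem_univ _, ?_⟩
    rw [← (mem_filter.1 hl).2, map_add, map_smul, (hs l h).1, (hs l h).2, smul_eq_mul]
  have eR : ∀ f : k × V → ℝ, ∑ a, R a * f a =
      ∑ l, ψ l * ∑ a ∈ univ.filter (fun a : k × V => l.1 + a.1 • l.2 = a.2), f a := by
    intro f
    simp only [hR, sum_filter, sum_mul, mul_sum]
    rw [sum_comm]
    exact sum_congr rfl fun l _ => sum_congr rfl fun a _ => by split_ifs <;> simp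
  have s0 : ∑ a ∈ univ.filter (fun a : k × V => ev a.2 = τ + a.1 * θ), R a = 0 := by
    rw [sum_filter_of_ne fun a _ h => (mem_filter.1 (sR a h)).2]
    have h := eR fun _ => 1
    simp only [mul_one, sum_filter, Fintype.sum_prod_type (α₁ := k), sum_ite_eq, mem_univ, if_true,
      ← sum_mul, h0, zero_mul] at h
    rwa [Fintype.sum_prod_type]
  have main := radon_gen (univ.filter fun l : V × V => ev l.1 = τ ∧ ev l.2 = θ)
    (univ.filter fun a : k × V => ev a.2 = τ + a.1 * θ)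
    (fun l => univ.filter fun a : k × V => l.1 + a.1 • l.2 = a.2) Prod.fst
    (Fintype.card V / Fintype.card k) R sR s0 (fun a _ => ?_) fun a ha b hb hab => ?_
  · rw [sum_filter_of_ne (s := univ) (f := fun a => R a ^ 2) fun a _ h =>
      (mem_filter.1 (sR a fun e => h (by rw [e]; norm_num))).2] at main
    have e1 : ∑ a, R a ^ 2 = ∑ l ∈ univ.filter (fun l : V × V => ev l.1 = τ ∧ ev l.2 = θ),
        ψ l * ∑ a ∈ univ.filter (fun a : k × V => l.1 + a.1 • l.2 = a.2), R a := by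
      rw [sum_filter_of_ne fun l _ h => hs l (left_ne_zero_of_mul h), ← eR]
      simp only [sq]
    have e2 := sum_mul_sq_le_sq_mul_sq (univ.filter fun l : V × V => ev l.1 = τ ∧ ev l.2 = θ) ψ
      fun l => ∑ a ∈ univ.filter (fun a : k × V => l.1 + a.1 • l.2 = a.2), R a
    rw [← e1, sum_filter_of_ne (s := univ) (f := fun l => ψ l ^ 2) fun l _ h =>
      hs l fun e => h (by rw [e]; norm_num)] at e2
    have p1 : 0 ≤ ∑ l, ψ l ^ 2 := sum_nonneg fun _ _ => sq_nonneg _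
    have p2 : 0 ≤ ∑ a, R a ^ 2 := sum_nonneg fun _ _ => sq_nonneg _
    have e3 := e2.trans (mul_le_mul_of_nonneg_left main p1)
    rcases p2.eq_or_lt with h | h
    · rw [← h, mul_zero]
      positivity
    · rw [sq, ← mul_assoc] at e3
      have e4 := le_of_mul_le_mul_right e3 h
      rw [← mul_div_assoc, le_div_iff₀ q0] at e4
      linarith
  · rw [le_div_iff₀ q0, mul_comm]
    refine le_trans ?_ (by exact_mod_cast radon_fib ev hev θ :
      (Fintype.card k : ℝ) * (univ.filter fun v => ev v = θ).card ≤ Fintype.card V)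
    refine mul_le_mul_of_nonneg_left (Nat.cast_le.2 (card_le_card_of_injOn Prod.snd
      (fun l hl => mem_coe.2 (mem_filter.2 ⟨mem_univ _,
        (mem_filter.1 (mem_filter.1 (mem_coe.1 hl)).1).2.2⟩)) fun l hl l' hl' e => ?_)) q0.le
    have h1 := (mem_filter.1 (mem_filter.1 (mem_coe.1 hl)).2).2
    have h2 := (mem_filter.1 (mem_filter.1 (mem_coe.1 hl')).2).2
    rw [e, ← h2, add_left_inj] at h1
    exact Prod.ext h1 e
  · have ha' := (mem_filter.1 ha).2
    have hb' := (mem_filter.1 hb).2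
    split_ifs with h
    · refine card_eq_zero.2 (filter_eq_empty_iff.2 fun l _ hl => hab (Prod.ext h ?_))
      rw [← (mem_filter.1 hl.1).2, ← (mem_filter.1 hl.2).2, h]
    · have hn : a.1 - b.1 ≠ 0 := sub_ne_zero.2 h
      refine card_eq_one.2 ⟨(a.2 - a.1 • ((a.1 - b.1)⁻¹ • (a.2 - b.2)),
        (a.1 - b.1)⁻¹ • (a.2 - b.2)), eq_singleton_iff_unique_mem.2 ⟨?_, fun l hl => ?_⟩⟩
      · simp only [mem_filter, mem_univ, true_and, map_sub, map_smul, ha', hb', smul_eq_mul]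
        refine ⟨⟨by field_simp; ring, by field_simp; ring⟩, sub_add_cancel _ _, ?_⟩
        rw [sub_add, ← sub_smul, smul_inv_smul₀ hn, sub_sub_cancel]
      · have h1 := (mem_filter.1 (mem_filter.1 hl).2.1).2
        have h2 := (mem_filter.1 (mem_filter.1 hl).2.2).2
        have h3 : (a.1 - b.1)⁻¹ • (a.2 - b.2) = l.2 := by
          rw [← h1, ← h2, add_sub_add_left_eq_sub, ← sub_smul, inv_smul_smul₀ hn]
        rw [h3, ← h1, add_sub_cancel_right]

end Pool.Agent.MP_a9d3bd_g
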