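import Pool.Agent.MP_a9d3bd_g.BDefs2
import Pool.Agent.MP_a9d3bd_g.BRadon

namespace Pool.Agent.MP_a9d3bd_g

open Polynomial Finset

/-- Least squares on a finite set. -/
theorem garland_lsq {Z : Type*} (Fl : Finset Z) (U : Submodule ℝ (Z → ℝ)) (Φ : Z → ℝ) :
    ∃ u ∈ U, ∀ v ∈ U, ∑ z ∈ Fl, v z * (Φ z - u z) = 0 := by
  let T : (Z → ℝ) →ₗ[ℝ] EuclideanSpace ℝ Fl :=
    { toFun := fun u => WithLp.toLp 2 fun z => u z
      map_add' := fun u v => by ext z; simp
      map_smul' := fun c u => by ext z; simp }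
  obtain ⟨y, hy, w, hw, h⟩ := Submodule.exists_add_mem_mem_orthogonal (K := U.map T) (T Φ)
  obtain ⟨u, hu, rfl⟩ := hy
  refine ⟨u, hu, fun v hv => ?_⟩
  have h1 := (Submodule.mem_orthogonal _ _).1 hw (T v) ⟨v, hv, rfl⟩
  have h2 : w = T Φ - T u := by rw [h]; abel
  rw [h2, PiLp.inner_apply] at h1
  rw [← Finset.sum_coe_sort Fl, ← h1]
  refine Finset.sum_congr rfl fun z _ => ?_
  simp [T, mul_comm]

/-- The residual of the least squares solution sums to zero in the link of every point. -/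
theorem garland_res {Z P : Type*} [DecidableEq P] (L : Finset Z) (inc : Z → Finset P)
    (ψ : Z → ℝ) : ∃ φ : P → ℝ, ∀ x,
      ∑ l ∈ L, (if x ∈ inc l then ψ l - ∑ y ∈ inc l, φ y else 0) = 0 := by
  let A : (P → ℝ) →ₗ[ℝ] (Z → ℝ) :=
    { toFun := fun φ l => ∑ y ∈ inc l, φ y
      map_add' := fun u v => by ext l; simp [sum_add_distrib]
      map_smul' := fun c u => by ext l; simp [mul_sum] }
  obtain ⟨u, ⟨φ, rfl⟩, h⟩ := garland_lsq L (LinearMap.range A) ψ
  refine ⟨φ, fun x => ?_⟩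
  have h1 := h (A (Pi.single x 1)) ⟨_, rfl⟩
  refine Eq.trans ?_ h1
  refine sum_congr rfl fun l _ => ?_
  simp only [A, LinearMap.coe_mk, AddHom.coe_mk, Pi.single_apply, sum_ite_eq']
  split_ifs <;> simp

/-- The local spectral gap bounds the norm by the norm of the link sums. -/
theorem garland_loc {Z P : Type*} [DecidableEq P] (M : Finset Z) (inc : Z → Finset P)
    (χ : Z → ℝ) (φ : P → ℝ) (lam : ℝ) (hlam : 0 < lam) (h : ∀ l ∈ M, χ l = ∑ x ∈ inc l, φ x)
    (gap : lam * ∑ x ∈ M.biUnion inc, φ x ^ 2 ≤ ∑ l ∈ M, (∑ x ∈ inc l, φ x) ^ 2) :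
    lam * ∑ l ∈ M, χ l ^ 2 ≤
      ∑ x ∈ M.biUnion inc, (∑ l ∈ M, if x ∈ inc l then χ l else 0) ^ 2 := by
  have e1 : ∑ l ∈ M, (∑ x ∈ inc l, φ x) ^ 2 = ∑ l ∈ M, χ l ^ 2 :=
    sum_congr rfl fun l hl => by rw [h l hl]
  have e2 : ∑ l ∈ M, χ l ^ 2 =
      ∑ x ∈ M.biUnion inc, φ x * ∑ l ∈ M, if x ∈ inc l then χ l else 0 := by
    simp_rw [mul_sum]
    rw [sum_comm]
    refine sum_congr rfl fun l hl => ?_
    simp_rw [mul_ite, mul_zero]
    rw [← sum_filter, ← sum_mul, sq]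
    congr 1
    rw [h l hl]
    refine sum_congr ?_ fun _ _ => rfl
    ext x
    simp only [mem_filter, mem_biUnion]
    exact ⟨fun hx => ⟨⟨l, hl, hx⟩, hx⟩, fun hx => hx.2⟩
  have cs := sum_mul_sq_le_sq_mul_sq (M.biUnion inc) φ
    fun x => ∑ l ∈ M, if x ∈ inc l then χ l else 0
  rw [← e2] at cs
  rw [e1] at gap
  set S := ∑ l ∈ M, χ l ^ 2 with hS
  set Q := ∑ x ∈ M.biUnion inc, (∑ l ∈ M, if x ∈ inc l then χ l else 0) ^ 2 with hQ
  have hS0 : 0 ≤ S := sum_nonneg fun _ _ => sq_nonneg _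
  have hQ0 : 0 ≤ Q := sum_nonneg fun _ _ => sq_nonneg _
  rcases hS0.eq_or_lt with h0 | h0
  · rw [← h0, mul_zero]; exact hQ0
  · have h1 : S * (lam * S) ≤ S * Q := by
      have h2 := mul_le_mul_of_nonneg_left cs hlam.le
      have h3 := mul_le_mul_of_nonneg_right gap hQ0
      nlinarith
    exact le_of_mul_le_mul_left h1 h0

/-- Splitting a link sum into the full sum and the few missing terms. -/
theorem garland_split {Z : Type*} (L M : Finset Z) (p q : Z → Prop) [DecidablePred p]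
    [DecidablePred q] [DecidablePred (· ∈ M)] [DecidablePred fun l => l ∉ M ∧ p l ∧ q l]
    (χ : Z → ℝ) (r : ℕ) (hM : ∀ l ∈ M, l ∈ L ∧ p l)
    (few : (L.filter fun l => l ∉ M ∧ p l ∧ q l).card ≤ r) :
    (∑ l ∈ M, if q l then χ l else 0) ^ 2 ≤
      2 * (∑ l ∈ L, if p l then (if q l then χ l else 0) else 0) ^ 2 +
        2 * r * ∑ l ∈ L, if p l then (if q l then χ l ^ 2 else 0) else 0 := by
  have e1 : (∑ l ∈ L, if p l then (if q l then χ l else 0) else 0) =
      (∑ l ∈ M, if q l then χ l else 0) + ∑ l ∈ L.filter fun l => l ∉ M ∧ p l ∧ q l, χ l := by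
    have e : (∑ l ∈ M, if q l then χ l else 0) =
        ∑ l ∈ L, if l ∈ M then (if q l then χ l else 0) else 0 := by
      rw [← sum_filter (p := (· ∈ M))]
      refine sum_congr ?_ fun _ _ => rfl
      ext l
      simp only [mem_filter]
      exact ⟨fun h => ⟨(hM l h).1, h⟩, fun h => h.2⟩
    rw [e, sum_filter, ← sum_add_distrib]
    refine sum_congr rfl fun l hl => ?_
    by_cases h1 : l ∈ M
    · simp [h1, (hM l h1).2]
    · by_cases h2 : p l <;> by_cases h3 : q l <;> simp [h1, h2, h3]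
  have e2 := sq_sum_le_card_mul_sum_sq (s := L.filter fun l => l ∉ M ∧ p l ∧ q l) (f := χ)
  have e3 : ∑ l ∈ L.filter fun l => l ∉ M ∧ p l ∧ q l, χ l ^ 2 ≤
      ∑ l ∈ L, if p l then (if q l then χ l ^ 2 else 0) else 0 := by
    rw [sum_filter]
    refine sum_le_sum fun l _ => ?_
    by_cases h1 : l ∈ M <;> by_cases h2 : p l <;> by_cases h3 : q l <;>
      simp [h1, h2, h3, sq_nonneg]
  have e4 : (0 : ℝ) ≤ ∑ l ∈ L.filter fun l => l ∉ M ∧ p l ∧ q l, χ l ^ 2 :=
    sum_nonneg fun _ _ => sq_nonneg _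
  have e5 : ((L.filter fun l => l ∉ M ∧ p l ∧ q l).card : ℝ) ≤ r := by exact_mod_cast few
  have e6 := mul_le_mul e5 e3 e4 (Nat.cast_nonneg r)
  rw [e1]
  nlinarith [sq_nonneg ((∑ l ∈ M, if q l then χ l else 0) +
    2 * ∑ l ∈ L.filter fun l => l ∉ M ∧ p l ∧ q l, χ l)]

open Classical in
/-- B2 (file BGar), uses `radon`. -/
theorem garland {k V P : Type} [Field k] [Fintype k] [AddCommGroup V] [Module k V] [Fintype V]
    (ev : P → V →ₗ[k] k) (τ θ : P → k) (L : Finset (V × V)) (inc : V × V → Finset P)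
    (L' : k × V → Finset (V × V)) (δ r m₀ : ℕ) (lam : ℝ) (hlam : 0 < lam)
    (hinc : ∀ l ∈ L, ∀ x ∈ inc l, ev x ≠ 0 ∧ ev x l.1 = τ x ∧ ev x l.2 = θ x)
    (hδ : ∀ l ∈ L, (inc l).card ≤ δ)
    (hL' : ∀ a, ∀ l ∈ L' a, l ∈ L ∧ l.1 + a.1 • l.2 = a.2)
    (many : ∀ l ∈ L, m₀ ≤ (univ.filter fun μ : k => l ∈ L' (μ, l.1 + μ • l.2)).card)
    (gap : ∀ a, ∀ φ : P → ℝ, lam * ∑ x ∈ (L' a).biUnion inc, φ x ^ 2 ≤
      ∑ l ∈ L' a, (∑ x ∈ inc l, φ x) ^ 2)
    (few : ∀ a, ∀ x ∈ (L' a).biUnion inc,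
      (L.filter fun l => l ∉ L' a ∧ l.1 + a.1 • l.2 = a.2 ∧ x ∈ inc l).card ≤ r)
    (num : 2 * δ * ((Fintype.card V : ℝ) / Fintype.card k + Fintype.card k * r) < m₀ * lam)
    (ψ : V × V → ℝ) (ex : ∀ a, ∃ φ : P → ℝ, ∀ l ∈ L' a, ψ l = ∑ x ∈ inc l, φ x) :
    ∃ φ : P → ℝ, ∀ l ∈ L, ψ l = ∑ x ∈ inc l, φ x := by
  obtain ⟨φ₀, ho⟩ := garland_res L inc ψ
  set χ : V × V → ℝ := fun l => ψ l - ∑ y ∈ inc l, φ₀ y with hχ
  have ho' : ∀ x, ∑ l ∈ L, (if x ∈ inc l then χ l else 0) = 0 := ho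
  have hk : (0 : ℝ) < Fintype.card k := by exact_mod_cast Fintype.card_pos
  set E : ℝ := ∑ l ∈ L, χ l ^ 2 with hE
  have hE0 : 0 ≤ E := sum_nonneg fun _ _ => sq_nonneg _
  have sA : m₀ * E ≤ ∑ a, ∑ l ∈ L' a, χ l ^ 2 := by
    have e : ∀ a, ∑ l ∈ L' a, χ l ^ 2 = ∑ l ∈ L, if l ∈ L' a then χ l ^ 2 else 0 := by
      intro a
      rw [← sum_filter]
      refine sum_congr ?_ fun _ _ => rfl
      ext l
      simp only [mem_filter]
      exact ⟨fun h => ⟨(hL' a l h).1, h⟩, fun h => h.2⟩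
    simp_rw [e]
    rw [sum_comm, hE, mul_sum]
    refine sum_le_sum fun l hl => ?_
    rw [← sum_filter, sum_const, nsmul_eq_mul]
    refine mul_le_mul_of_nonneg_right ?_ (sq_nonneg _)
    have h1 : (univ.filter fun μ : k => l ∈ L' (μ, l.1 + μ • l.2)).card ≤
        (univ.filter fun a : k × V => l ∈ L' a).card := by
      refine card_le_card_of_injOn (fun μ => (μ, l.1 + μ • l.2)) (fun μ hμ => ?_)
        fun μ _ ν _ h => (Prod.ext_iff.1 h).1
      simpa using hμ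
    exact_mod_cast (many l hl).trans h1
  set W : P → ℝ := fun x => ∑ l ∈ L, if x ∈ inc l then χ l ^ 2 else 0 with hW
  set F : k × V → P → ℝ := fun a x =>
    2 * (∑ l ∈ L, if l.1 + a.1 • l.2 = a.2 then (if x ∈ inc l then χ l else 0) else 0) ^ 2 +
      2 * r * ∑ l ∈ L, if l.1 + a.1 • l.2 = a.2 then (if x ∈ inc l then χ l ^ 2 else 0) else 0
    with hF
  have hF0 : ∀ a x, 0 ≤ F a x := fun a x => by
    have : (0 : ℝ) ≤ ∑ l ∈ L,
        if l.1 + a.1 • l.2 = a.2 then (if x ∈ inc l then χ l ^ 2 else 0) else 0 :=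
      sum_nonneg fun l _ => by split_ifs <;> positivity
    simp only [hF]
    positivity
  have sB : ∀ a, lam * ∑ l ∈ L' a, χ l ^ 2 ≤ ∑ x ∈ L.biUnion inc, F a x := by
    intro a
    obtain ⟨φ, hφ⟩ := ex a
    refine (garland_loc (L' a) inc χ (fun x => φ x - φ₀ x) lam hlam (fun l hl => ?_)
      (gap a _)).trans ((sum_le_sum fun x hx => ?_).trans
        (sum_le_sum_of_subset_of_nonneg (f := F a) ?_ fun x _ _ => hF0 a x))
    · rw [sum_sub_distrib, ← hφ l hl]
    · exact garland_split L (L' a) (fun l => l.1 + a.1 • l.2 = a.2) (fun l => x ∈ inc l) χ r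
        (hL' a) (few a x hx)
    · exact biUnion_subset_biUnion_of_subset_left inc fun l hl => (hL' a l hl).1
  have sC : ∀ x ∈ L.biUnion inc, ∑ a, F a x ≤
      2 * ((Fintype.card V : ℝ) / Fintype.card k + Fintype.card k * r) * W x := by
    intro x hx
    obtain ⟨l₀, hl₀, hx₀⟩ := mem_biUnion.1 hx
    have su : ∀ (g : V × V → ℝ), ∑ l, (if l ∈ L then g l else 0) = ∑ l ∈ L, g l := fun g => by
      rw [← sum_filter]
      refine sum_congr ?_ fun _ _ => rfl
      ext l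
      simp
    have h1 := radon (ev x) (hinc l₀ hl₀ x hx₀).1 (τ x) (θ x)
      (fun l => if l ∈ L then (if x ∈ inc l then χ l else 0) else 0)
      (fun l h => by
        by_cases h2 : l ∈ L
        · by_cases h3 : x ∈ inc l
          · exact (hinc l h2 x h3).2
          · simp [h3] at h
        · simp [h2] at h) (by rw [su]; exact ho' x)
    have h2 : ∑ l, (if l ∈ L then (if x ∈ inc l then χ l else 0) else 0) ^ 2 = W x := by
      simp only [hW]
      rw [← su]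
      refine sum_congr rfl fun l _ => ?_
      split_ifs <;> simp
    have h3 : ∀ a : k × V, ∑ l ∈ univ.filter (fun l : V × V => l.1 + a.1 • l.2 = a.2),
        (if l ∈ L then (if x ∈ inc l then χ l else 0) else 0) =
        ∑ l ∈ L, if l.1 + a.1 • l.2 = a.2 then (if x ∈ inc l then χ l else 0) else 0 := by
      intro a
      rw [← su, sum_filter]
      refine sum_congr rfl fun l _ => ?_
      split_ifs <;> rfl
    simp only [h3] at h1
    rw [h2] at h1
    have h4 : ∑ a : k × V, ∑ l ∈ L,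
        (if l.1 + a.1 • l.2 = a.2 then (if x ∈ inc l then χ l ^ 2 else 0) else 0) =
        Fintype.card k * W x := by
      simp only [hW]
      rw [sum_comm, mul_sum]
      refine sum_congr rfl fun l _ => ?_
      rw [Fintype.sum_prod_type]
      simp
    simp only [hF]
    rw [sum_add_distrib, ← mul_sum, ← mul_sum, h4]
    have h5 := (le_div_iff₀' hk).2 h1
    have h6 : (Fintype.card V : ℝ) * W x / Fintype.card k =
        (Fintype.card V : ℝ) / Fintype.card k * W x := by ring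
    rw [h6] at h5
    nlinarith
  have sD : ∑ x ∈ L.biUnion inc, W x ≤ δ * E := by
    simp only [hW]
    rw [sum_comm, hE, mul_sum]
    refine sum_le_sum fun l hl => ?_
    rw [← sum_filter, sum_const, nsmul_eq_mul]
    refine mul_le_mul_of_nonneg_right ?_ (sq_nonneg _)
    have h1 : ((L.biUnion inc).filter fun x => x ∈ inc l).card ≤ (inc l).card :=
      card_le_card fun x hx => (mem_filter.1 hx).2
    exact_mod_cast h1.trans (hδ l hl)
  have c0 : (0 : ℝ) ≤ 2 * ((Fintype.card V : ℝ) / Fintype.card k + Fintype.card k * r) := by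
    positivity
  have sE : m₀ * lam * E ≤
      2 * δ * ((Fintype.card V : ℝ) / Fintype.card k + Fintype.card k * r) * E := by
    have h1 := sum_le_sum fun a (_ : a ∈ (univ : Finset (k × V))) => sB a
    rw [← mul_sum, sum_comm] at h1
    have h2 := sum_le_sum sC
    rw [← mul_sum] at h2
    have h3 := mul_le_mul_of_nonneg_left sD c0
    have h4 := mul_le_mul_of_nonneg_left sA hlam.le
    nlinarith
  have hE1 : E = 0 := by
    by_contra h
    have := mul_lt_mul_of_pos_right num (lt_of_le_of_ne hE0 (Ne.symm h))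
    linarith
  refine ⟨φ₀, fun l hl => ?_⟩
  have h1 := (sum_eq_zero_iff_of_nonneg fun _ _ => sq_nonneg _).1 hE1 l hl
  have h2 : χ l = 0 := pow_eq_zero_iff (two_ne_zero) |>.1 h1
  simp only [hχ] at h2
  linarith

end Pool.Agent.MP_a9d3bd_g
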