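import Pool.Agent.MP_a9d3bd_g.CStep1A
import Pool.Agent.MP_a9d3bd_g.BGar
import Pool.Agent.MP_a9d3bd_g.BGap

namespace Pool.Agent.MP_a9d3bd_g

open MvPolynomial Pool.Agent.MP_a9d3bd_h Pool.Agent.MP_a9d3bd_q

variable {K : Type} [Field K] {e : ℕ} {H : R3 K} {W : Pr K (Fin 3)}
  {lam : Pr K (Fin 3) → R3 K → ℝ}

/-- Coordinates in the subfield, read in the field. -/
def STEP1_c {k : Subfield K} (t : Fin e → k) : Fin e → K := fun i => t i

theorem STEP1_cadd {k : Subfield K} (a b : Fin e → k) (μ : k) :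
    STEP1_c (a + μ • b) = STEP1_c a + (μ : K) • STEP1_c b := by
  funext i
  simp [STEP1_c]

theorem STEP1_cinj {k : Subfield K} : Function.Injective (STEP1_c (e := e) (k := k)) :=
  fun _ _ h => funext fun i => Subtype.ext (congrFun h i)

theorem STEP1_lift {k : Subfield K} {q : ℕ} (hk : ∀ x, x ∈ k ↔ x ^ q = x) {t : Fin e → K}
    (ht : ∀ i, t i ^ q = t i) : ∃ v : Fin e → k, STEP1_c v = t :=
  ⟨fun i => ⟨t i, (hk _).2 (ht i)⟩, rfl⟩

open Classical in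
/-- A retraction onto the subfield. -/
noncomputable def STEP1_r (k : Subfield K) (a : K) : k := if h : a ∈ k then ⟨a, h⟩ else 0

theorem STEP1_rr {k : Subfield K} {a : K} (h : a ∈ k) : (STEP1_r k a : K) = a := by
  simp [STEP1_r, h]

/-- Evaluation of the lower terms at the first coordinate of a point. -/
noncomputable def STEP1_evl (k : Subfield K) (e : ℕ) (x : Fin 3 → K) : (Fin e → k) →ₗ[k] k :=
  ∑ i : Fin e, STEP1_r k (x 0) ^ (i : ℕ) • LinearMap.proj i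

theorem STEP1_evv {k : Subfield K} {x : Fin 3 → K} (h : x 0 ∈ k) (t : Fin e → k) :
    (STEP1_evl k e x t : K) = ∑ i, STEP1_c t i * x 0 ^ (i : ℕ) := by
  simp only [STEP1_evl, LinearMap.sum_apply, LinearMap.smul_apply, LinearMap.proj_apply,
    smul_eq_mul, STEP1_c]
  push_cast
  simp only [STEP1_rr h, mul_comm]

theorem STEP1_hinc (h : Srf H W) (he : 2 ≤ e) {k : Subfield K} {q : ℕ}
    (hk : ∀ x, x ∈ k ↔ x ^ q = x) {μ : K} {a b : Fin e → k}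
    (hI : STEP1_In q H μ (STEP1_c a) (STEP1_c b)) {x : Fin 3 → K}
    (hx : x ∈ STEP1_inc H (STEP1_c a) (STEP1_c b)) : STEP1_evl k e x ≠ 0 ∧
      STEP1_evl k e x a = STEP1_r k (x 1) ∧
      STEP1_evl k e x b = STEP1_r k (x 2 - x 0 ^ e) := by
  have hs := STEP1_spl h he hI
  obtain ⟨s, h1, rfl⟩ := (STEP1_mem (STEP1_card hs).1).1 hx
  have h2 : STEP1_pt (STEP1_c a) (STEP1_c b) s 0 ∈ k := (hk _).2 (GAP_root hs h1)
  have key : ∀ (u : k) (w : K), (u : K) = w → u = STEP1_r k w := fun u w hw =>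
    Subtype.ext (by rw [STEP1_rr (hw ▸ u.2), hw])
  refine ⟨fun h0 => ?_, key _ _ ?_, key _ _ ?_⟩
  · have := STEP1_evv h2 (Pi.single (⟨0, by omega⟩ : Fin e) (1 : k))
    rw [h0, Finset.sum_eq_single (⟨0, by omega⟩ : Fin e)] at this
    · simp [STEP1_c] at this
    · intro i _ hi
      simp [STEP1_c, hi]
    · simp
  · rw [STEP1_evv h2]
    simp [STEP1_pt, STEP1_ev]
  · rw [STEP1_evv h2]
    simp [STEP1_pt, STEP1_ev]

theorem STEP1_cnt {k : Subfield K} [Fintype k] {A : Polynomial K} (hA : A ≠ 0) {N : ℕ}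
    (hN : A.natDegree ≤ N) (S : Finset k) (hS : ∀ μ : k, A.eval (μ : K) ≠ 0 → μ ∈ S) :
    Fintype.card k - N ≤ S.card := by
  classical
  have h1 : (Sᶜ).card ≤ A.roots.toFinset.card := by
    refine Finset.card_le_card_of_injOn (fun μ => (μ : K)) (fun μ hμ => ?_)
      fun a _ b _ hab => Subtype.ext hab
    have : A.eval (μ : K) = 0 := by
      by_contra h0
      exact (Finset.mem_compl.1 hμ) (hS μ h0)
    simpa [hA] using this
  have h2 := (Multiset.toFinset_card_le _).trans ((Polynomial.card_roots' A).trans hN)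
  have h3 := Finset.card_add_card_compl S
  omega

theorem STEP1_num {c₀ : ℝ} (hc : 0 < c₀) (δ K₁ N : ℕ) : ∃ q₀ : ℕ, ∀ q : ℕ, q₀ ≤ q → ∀ e : ℕ, 2 ≤ e →
    2 * (δ : ℝ) * (((q ^ e : ℕ) : ℝ) / q + q * ((K₁ * q ^ (e - 2) : ℕ) : ℝ)) <
      ((q - N : ℕ) : ℝ) * (c₀ * (q : ℝ) ^ (e - 1)) := by
  obtain ⟨M, hM⟩ := exists_nat_gt (2 * (δ : ℝ) * (1 + K₁) / c₀)
  refine ⟨M + N + 1, fun q hq e he => ?_⟩
  obtain ⟨d, rfl⟩ : ∃ d, e = d + 2 := ⟨e - 2, by omega⟩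
  have hq0 : (0 : ℝ) < q := by exact_mod_cast (by omega : 0 < q)
  have h1 : (M : ℝ) ≤ ((q - N : ℕ) : ℝ) := by exact_mod_cast (by omega : M ≤ q - N)
  have h2 : 2 * (δ : ℝ) * (1 + K₁) < ((q - N : ℕ) : ℝ) * c₀ := by
    rw [div_lt_iff₀ hc] at hM
    nlinarith
  have h3 : (((q ^ (d + 2) : ℕ) : ℝ) / q + q * ((K₁ * q ^ (d + 2 - 2) : ℕ) : ℝ)) =
      (1 + K₁) * (q : ℝ) ^ (d + 1) := by
    rw [Nat.add_sub_cancel]
    push_cast
    field_simp
    ring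
  rw [h3, show d + 2 - 1 = d + 1 from rfl, ← mul_assoc, ← mul_assoc]
  exact mul_lt_mul_of_pos_right h2 (by positivity)

/-- File CStep1.lean, uses FQ, garland, GAP, GOODN, STEP0, PHI (with g = 1), famM, memZ, memP. -/
theorem STEP1 (p D : ℕ) [Fact p.Prime] [IsAlgClosed K] [CharP K p]
    (halg : ∀ c : K, c ≠ 0 → ∃ n, 0 < n ∧ c ^ n = 1) (h : Srf H W) (hl : Ax H W lam)
    (he : 6 ≤ e) (hD : H.totalDegree ≤ D) (hCT : CTs p D e K) :
    ∃ q₀ : ℕ, ∀ f : ℕ, q₀ ≤ p ^ f → Rat3 (p ^ f) H → ∃ φb, Phb (p ^ f) e H lam φb := by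
  classical
  have he2 : 2 ≤ e := by omega
  obtain ⟨c₀, hc₀, K₁, q₁, hG⟩ := GAP p D e he K hCT
  obtain ⟨N₀, hN⟩ := STEP1_many (e := e) h he2
  obtain ⟨q₂, hnum⟩ := STEP1_num hc₀ (e * H.totalDegree) K₁ N₀
  refine ⟨q₁ + q₂ + N₀ + 3, fun f hq hR => ?_⟩
  have hf : 0 < f := by
    rcases Nat.eq_zero_or_pos f with rfl | h0
    · rw [pow_zero] at hq
      omega
    · exact h0
  obtain ⟨k, hk, hfin, hcard⟩ := FQ (K := K) p f hf
  let _ : Fintype k := Fintype.ofFinite k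
  have hck : Fintype.card k = p ^ f := by rw [← hcard, Nat.card_eq_fintype_card]
  have hGq := hG f (by omega)
  have hpq : ((p : ℝ) ^ f) = ((p ^ f : ℕ) : ℝ) := by push_cast; rfl
  rw [hpq] at hGq
  have hfam : ∀ (μ : k) (t : Fin e → k), Good H (μ : K) (STEP1_c t) →
      Fam (p ^ f) D e 1 (fun _ : Unit => sb (μ : K) (STEP1_c t) H) := fun μ t hg =>
    (famM h he2).2.2.2 _ D p f rfl hD hg hR ((hk _).1 μ.2) fun i => (hk _).1 (t i).2
  obtain ⟨q, hqq⟩ : ∃ q, q = p ^ f := ⟨_, rfl⟩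
  rw [← hqq] at hq hk hck hGq hfam ⊢
  have hq2 : 2 ≤ q := by omega
  let inc : (Fin e → k) × (Fin e → k) → Finset (Fin 3 → K) := fun l =>
    STEP1_inc H (STEP1_c l.1) (STEP1_c l.2)
  let L' : k × (Fin e → k) → Finset ((Fin e → k) × (Fin e → k)) := fun a =>
    Finset.univ.filter fun l => l.1 + a.1 • l.2 = a.2 ∧
      STEP1_In q H (a.1 : K) (STEP1_c l.1) (STEP1_c l.2)
  let L : Finset ((Fin e → k) × (Fin e → k)) :=
    Finset.univ.filter fun l => ∃ μ : k, STEP1_In q H (μ : K) (STEP1_c l.1) (STEP1_c l.2)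
  have mL' : ∀ a l, l ∈ L' a ↔ l.1 + a.1 • l.2 = a.2 ∧
      STEP1_In q H (a.1 : K) (STEP1_c l.1) (STEP1_c l.2) := by simp [L']
  have mL : ∀ l, l ∈ L ↔ ∃ μ : k, STEP1_In q H (μ : K) (STEP1_c l.1) (STEP1_c l.2) := by
    intro l
    simp only [L, Finset.mem_filter, Finset.mem_univ, true_and]
  have hcc : ∀ (a : k × (Fin e → k)) (l : (Fin e → k) × (Fin e → k)), l.1 + a.1 • l.2 = a.2 →
      STEP1_c l.1 + (a.1 : K) • STEP1_c l.2 = STEP1_c a.2 := fun a l h1 => by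
    rw [← h1, STEP1_cadd]
  have hgood : ∀ a l, l ∈ L' a → Good H (a.1 : K) (STEP1_c a.2) := fun a l h1 => by
    rw [← hcc a l ((mL' a l).1 h1).1]
    exact ((mL' a l).1 h1).2.1
  have hinj : ∀ (a : k × (Fin e → k)) (l l' : (Fin e → k) × (Fin e → k)), l.1 + a.1 • l.2 = a.2 →
      l'.1 + a.1 • l'.2 = a.2 → STEP1_c l.2 = STEP1_c l'.2 → l = l' := by
    intro a l l' h1 h2 h3
    have h4 := STEP1_cinj h3
    refine Prod.ext ?_ h4
    rw [h4, ← h2] at h1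
    exact add_right_cancel h1
  have hsur : ∀ a : k × (Fin e → k), Good H (a.1 : K) (STEP1_c a.2) → ∀ t₂ ∈ Edg q e 1
      (sb (a.1 : K) (STEP1_c a.2) H) (Pts q (sb (a.1 : K) (STEP1_c a.2) H)),
      ∃ l ∈ L' a, STEP1_c l.2 = t₂ := by
    intro a hg t₂ h2
    obtain ⟨v, rfl⟩ := STEP1_lift hk h2.1
    have h3 : a.2 - a.1 • v + a.1 • v = a.2 := sub_add_cancel _ _
    refine ⟨(a.2 - a.1 • v, v), (mL' _ _).2 ⟨h3, ?_⟩, rfl⟩
    have h4 := hcc a (a.2 - a.1 • v, v) h3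
    unfold STEP1_In
    rw [h4]
    exact ⟨hg, h2⟩
  have many : ∀ l ∈ L, ∀ S : Finset k, (∀ μ : k,
      STEP1_In q H (μ : K) (STEP1_c l.1) (STEP1_c l.2) → μ ∈ S) → q - N₀ ≤ S.card := by
    intro l h1 S hS
    obtain ⟨μ₀, h2⟩ := (mL l).1 h1
    obtain ⟨A, a1, a2, a3⟩ := hN q _ _ _ h2
    rw [← hck]
    exact STEP1_cnt a1 a2 S fun μ hμ => hS μ (a3 _ hμ)
  have hZ : ∀ l : (Fin e → k) × (Fin e → k), ∃ r : ℝ, ∀ μ : k,
      STEP1_In q H (μ : K) (STEP1_c l.1) (STEP1_c l.2) → ∀ Z,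
      IsM H (μ : K) (STEP1_c l.1 + (μ : K) • STEP1_c l.2) Z → r = lam Z (bb (STEP1_c l.2)) := by
    intro l
    by_cases h1 : l ∈ L
    swap
    · exact ⟨0, fun μ h2 => absurd ((mL l).2 ⟨μ, h2⟩) h1⟩
    obtain ⟨μ₁, h2⟩ := (mL l).1 h1
    obtain ⟨Z₁, z1⟩ := (memZ h h2.1).1
    refine ⟨lam Z₁ (bb (STEP1_c l.2)), fun μ₂ h3 Z₂ z2 => ?_⟩
    have : ∃ μ₃ : k, STEP1_In q H (μ₃ : K) (STEP1_c l.1) (STEP1_c l.2) ∧
        μ₃ ∉ ({μ₁, μ₂} : Finset k) := by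
      by_contra hc
      push Not at hc
      have h4 := (many l h1 _ hc).trans Finset.card_le_two
      omega
    obtain ⟨μ₃, h4, h5⟩ := this
    simp only [Finset.mem_insert, Finset.mem_singleton, not_or] at h5
    exact STEP0 halg h hl he2 (fun e1 => h5.1 (Subtype.ext e1)) (fun e1 => h5.2 (Subtype.ext e1))
      h2.1 h3.1 h4.1 z1 z2
  choose ψ hψ using hZ
  have hrep : ∀ a l, l ∈ L' a → ∀ Z, IsM H (a.1 : K) (STEP1_c a.2) Z → ∀ φ,
      Rep q H lam (a.1 : K) (STEP1_c a.2) Z φ → ψ l = ∑ x ∈ inc l, φ (x 0, x 2) := by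
    intro a l h1 Z z1 φ h2
    obtain ⟨h3, h4⟩ := (mL' a l).1 h1
    rw [← hcc a l h3] at z1 h2
    rw [hψ l a.1 h4 Z z1, h2 _ h4.2, STEP1_hh h he2]
    simp only [inc]
    rw [STEP1_sum]
    rfl
  have gap : ∀ a : k × (Fin e → k), Good H (a.1 : K) (STEP1_c a.2) → ∀ P : Finset (K × K),
      (∀ x, x ∈ P ↔ x ∈ Pts q (sb (a.1 : K) (STEP1_c a.2) H)) → ∀ φ : (Fin 3 → K) → ℝ,
      c₀ * (q : ℝ) ^ (e - 1) * ∑ y ∈ P, φ (up (a.1 : K) (STEP1_c a.2) y) ^ 2 ≤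
        ∑ l ∈ L' a, (∑ x ∈ inc l, φ x) ^ 2 := by
    intro a hg P hP φ
    obtain ⟨E, hE⟩ := (STEP1_fin (e := e) hq2 1 (sb (a.1 : K) (STEP1_c a.2) H)).2
    refine (((hGq _ _ (hfam _ _ hg)).2.2 P E hP hE).2
      (fun y => φ (up (a.1 : K) (STEP1_c a.2) y))).trans (le_of_eq ?_)
    symm
    refine Finset.sum_nbij (fun l => STEP1_c l.2) (fun l h1 => (hE _).2 ?_)
      (fun l h1 l' h2 h3 => hinj a l l' ((mL' a l).1 h1).1 ((mL' a l').1 h2).1 h3)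
      (fun t₂ h1 => hsur a hg t₂ ((hE _).1 h1)) fun l h1 => ?_
    · rw [← hcc a l ((mL' a l).1 h1).1]
      exact ((mL' a l).1 h1).2.2
    · rw [← STEP1_eq h he2 (hcc a l ((mL' a l).1 h1).1) ((mL' a l).1 h1).2 P hP φ]
  have hlam : 0 < c₀ * (q : ℝ) ^ (e - 1) := by
    have : (0 : ℝ) < q := by exact_mod_cast (by omega : 0 < q)
    positivity
  obtain ⟨φb, hφb⟩ := garland (STEP1_evl k e) (fun x => STEP1_r k (x 1))
    (fun x => STEP1_r k (x 2 - x 0 ^ e)) L inc L' (e * H.totalDegree) (K₁ * q ^ (e - 2)) (q - N₀)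
    (c₀ * (q : ℝ) ^ (e - 1)) hlam
    (fun l h1 x hx => by
      obtain ⟨μ, h2⟩ := (mL l).1 h1
      exact STEP1_hinc h he2 hk h2 hx)
    (fun l h1 => by
      obtain ⟨μ, h2⟩ := (mL l).1 h1
      exact Finset.card_image_le.trans (STEP1_card (STEP1_spl h he2 h2)).2)
    (fun a l h1 => ⟨(mL l).2 ⟨a.1, ((mL' a l).1 h1).2⟩, ((mL' a l).1 h1).1⟩)
    (fun l h1 => many l h1 _ fun μ h2 => by
      simp only [Finset.mem_filter, Finset.mem_univ, true_and]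
      exact (mL' _ l).2 ⟨rfl, h2⟩)
    (fun a φ => by
      rcases (L' a).eq_empty_or_nonempty with h0 | ⟨l₀, h0⟩
      · simp [h0]
      have hg := hgood a l₀ h0
      obtain ⟨P, hP⟩ := (STEP1_fin (e := e) hq2 1 (sb (a.1 : K) (STEP1_c a.2) H)).1
      refine le_trans (mul_le_mul_of_nonneg_left ?_ hlam.le) (gap a hg P hP φ)
      rw [← Finset.sum_image (f := fun x => φ x ^ 2) (s := P)
        (g := up (a.1 : K) (STEP1_c a.2)) (fun x _ y _ h1 => STEP1_upinj _ _ h1)]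
      refine Finset.sum_le_sum_of_subset_of_nonneg (fun x hx => ?_) fun _ _ _ => sq_nonneg _
      simp only [Finset.mem_biUnion] at hx
      obtain ⟨l, h1, h2⟩ := hx
      obtain ⟨y, h3, h4⟩ := STEP1_pts h he2 (hcc a l ((mL' a l).1 h1).1) ((mL' a l).1 h1).2 h2
      exact Finset.mem_image.2 ⟨y, (hP _).2 h3, h4⟩)
    (fun a x hx => by
      simp only [Finset.mem_biUnion] at hx
      obtain ⟨l, h1, h2⟩ := hx
      have hg := hgood a l h1
      obtain ⟨y, h3, rfl⟩ := STEP1_pts h he2 (hcc a l ((mL' a l).1 h1).1) ((mL' a l).1 h1).2 h2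
      obtain ⟨r1, r2, -⟩ := hGq _ _ (hfam _ _ hg)
      rw [← Finset.card_image_of_injOn (f := fun l => STEP1_c l.2)]
      · refine (STEP1_few h he2 hq2 hg r1.toFinset (fun x x1 x2 => r1.mem_toFinset.2 ⟨x1, x2⟩)
          h3 _ fun t₂ h4 => ?_).trans (Nat.mul_le_mul_right _ ?_)
        · obtain ⟨l', h5, rfl⟩ := Finset.mem_image.1 h4
          simp only [Finset.mem_filter] at h5
          obtain ⟨h6, h7, h8, h9⟩ := h5
          obtain ⟨μ', h10⟩ := (mL l').1 h6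
          exact ⟨_, μ', hcc a l' h8, h10, fun h11 => h7 ((mL' a l').2 ⟨h8, h11⟩), h9⟩
        · rwa [← Set.ncard_eq_toFinset_card _ r1]
      · intro l₁ h5 l₂ h6 h7
        simp only [Finset.coe_filter, Set.mem_ofPred_eq] at h5 h6
        exact hinj a l₁ l₂ h5.2.2.1 h6.2.2.1 h7)
    (by
      have := hnum q (by omega) e he2
      rw [Fintype.card_fun, Fintype.card_fin, hck]
      exact this)
    ψ
    (fun a => by
      rcases (L' a).eq_empty_or_nonempty with h0 | ⟨l₀, h0⟩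
      · exact ⟨0, by simp [h0]⟩
      have hg := hgood a l₀ h0
      obtain ⟨Z, z1⟩ := (memZ h hg).1
      obtain ⟨φ, h1⟩ := STEP1_rep halg h hl he2 (q := q) (by omega) hg z1
      exact ⟨fun x => φ (x 0, x 2), fun l h2 => hrep a l h2 Z z1 φ h1⟩)
  refine ⟨φb, fun μ t hμ ht hg Z z1 φ h1 y hy => ?_⟩
  obtain ⟨v, rfl⟩ := STEP1_lift hk ht
  obtain ⟨m, rfl⟩ : ∃ m : k, (m : K) = μ := ⟨⟨μ, (hk _).2 hμ⟩, rfl⟩
  obtain ⟨P, hP⟩ := (STEP1_fin (e := e) hq2 1 (sb (m : K) (STEP1_c v) H)).1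
  have h2 := gap (m, v) hg P hP fun x => φ (x 0, x 2) - φb x
  have h3 : ∑ l ∈ L' (m, v), (∑ x ∈ inc l, (φ (x 0, x 2) - φb x)) ^ 2 = 0 := by
    refine Finset.sum_eq_zero fun l h4 => ?_
    rw [Finset.sum_sub_distrib, ← hrep (m, v) l h4 Z z1 φ h1,
      ← hφb l ((mL l).2 ⟨m, ((mL' _ l).1 h4).2⟩), sub_self, sq, mul_zero]
  rw [h3] at h2
  have h4 := le_antisymm (nonpos_of_mul_nonpos_right h2 hlam)
    (Finset.sum_nonneg fun _ _ => sq_nonneg _)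
  have h5 := (Finset.sum_eq_zero_iff_of_nonneg fun _ _ => sq_nonneg _).1 h4 y ((hP _).2 hy)
  exact sub_eq_zero.1 (pow_eq_zero_iff two_ne_zero |>.1 h5)

end Pool.Agent.MP_a9d3bd_g
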