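import Pool.Agent.MP_a9d3bd_g.CStep2
import Pool.Agent.MP_a9d3bd_g.CStep1
import Pool.Agent.MP_a9d3bd_g.ACTe

namespace Pool.Agent.MP_a9d3bd_g

open MvPolynomial Pool.Agent.MP_a9d3bd_h Pool.Agent.MP_a9d3bd_q

variable {K : Type} [Field K] {e : ℕ} {H : R3 K} {W : Pr K (Fin 3)}
  {lam : Pr K (Fin 3) → R3 K → ℝ}

theorem core_fin [IsAlgClosed K] {Z : Pr K (Fin 3)} {F G g : R3 K} (hP : Pos H Z F G g) :
    (Function.support fun x : Fin 3 → K => dvc F Z (ak K x) - dvc G Z (ak K x)).Finite := by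
  refine (DEG0 hP.2.1 hP.2.2.2.2.1 hP.2.2.2.2.2.1).1.subset fun x hx => ?_
  by_cases h1 : dvc F Z (ak K x) = 0
  · have h2 : dvc G Z (ak K x) ≠ 0 := fun h2 => hx (by simp [h1, h2])
    obtain ⟨-, -, h3, h4⟩ := dvc_ne.1 h2
    exact ⟨h3, by rw [map_mul, show eval x G = 0 from h4, mul_zero]⟩
  · obtain ⟨-, -, h3, h4⟩ := dvc_ne.1 h1
    exact ⟨h3, by rw [map_mul, show eval x F = 0 from h4, zero_mul]⟩

theorem core (p : ℕ) [Fact p.Prime] [IsAlgClosed K] [CharP K p]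
    (halg : ∀ c : K, ∃ n, 0 < n ∧ c ^ p ^ n = c) (h : Srf H W) (hl : Ax H W lam)
    {ι : Type} [Fintype ι] (Z : ι → Pr K (Fin 3)) (F G g : ι → R3 K) (n : ι → ℚ)
    (hP : ∀ i, Pos H (Z i) (F i) (G i) (g i))
    (hz : ∀ x : Fin 3 → K,
      ∑ i, n i * (dvc (F i) (Z i) (ak K x) - dvc (G i) (Z i) (ak K x)) = 0) :
    ∑ i, (n i : ℝ) * (lam (Z i) (F i) - lam (Z i) (G i)) = 0 := by
  have hp : p.Prime := Fact.out
  obtain ⟨D, hD0, hD⟩ : ∃ D, H.totalDegree ≤ D ∧ ∀ i, H.totalDegree * (g i).totalDegree ≤ D :=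
    ⟨H.totalDegree + ∑ i, H.totalDegree * (g i).totalDegree, Nat.le_add_right _ _, fun i =>
      (Finset.single_le_sum (f := fun i => H.totalDegree * (g i).totalDegree)
        (fun _ _ => Nat.zero_le _) (Finset.mem_univ i)).trans (Nat.le_add_left _ _)⟩
  obtain ⟨e₀, he₀⟩ := CTe p D K
  have hCT := he₀ (max e₀ 6) (le_max_left _ _)
  have he : 6 ≤ max e₀ 6 := le_max_right _ _
  obtain ⟨q₁, h1⟩ := STEP1 p D (S2_root hp halg) h hl he hD0 hCT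
  choose q₂ n₂ h2 h3 using fun i => STEP2 p D halg h hl he hCT (hP i) (hD i)
  obtain ⟨n₁, h4, h5⟩ := S2_rat hp halg H
  obtain ⟨f, hf1, hf2, hf3, hf4⟩ : ∃ f, q₁ ≤ p ^ f ∧ n₁ ∣ f ∧ (∀ i, q₂ i ≤ p ^ f) ∧
      ∀ i, n₂ i ∣ f := by
    have h6 : 0 < n₁ * ∏ i, n₂ i := Nat.mul_pos h4 (Finset.prod_pos fun i _ => h2 i)
    have h7 : q₁ + ∑ i, q₂ i ≤ p ^ ((n₁ * ∏ i, n₂ i) * (q₁ + ∑ i, q₂ i)) :=
      (Nat.le_mul_of_pos_left _ h6).trans (Nat.lt_pow_self hp.one_lt).le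
    exact ⟨_, (Nat.le_add_right _ _).trans h7, (Dvd.intro _ rfl).mul_right _, fun i =>
      ((Finset.single_le_sum (f := q₂) (fun _ _ => Nat.zero_le _) (Finset.mem_univ i)).trans
        (Nat.le_add_left _ _)).trans h7, fun i =>
      ((Finset.dvd_prod_of_mem n₂ (Finset.mem_univ i)).mul_left _).mul_right _⟩
  obtain ⟨φb, hφ⟩ := h1 f hf1 (h5 f hf2)
  have h8 : ∀ i, (Function.support fun x : Fin 3 → K => (n i : ℝ) *
      (((dvc (F i) (Z i) (ak K x) - dvc (G i) (Z i) (ak K x) : ℚ) : ℝ) * φb x)).Finite := fun i =>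
    (core_fin (hP i)).subset fun x hx h0 => hx (by simp only [h0]; simp)
  have h9 : ∀ i, (n i : ℝ) * (lam (Z i) (F i) - lam (Z i) (G i)) = ∑ᶠ x : Fin 3 → K, (n i : ℝ) *
      (((dvc (F i) (Z i) (ak K x) - dvc (G i) (Z i) (ak K x) : ℚ) : ℝ) * φb x) := fun i => by
    rw [h3 i f (hf3 i) (hf4 i) φb hφ, mul_finsum' _ _
      ((core_fin (hP i)).subset fun x hx h0 => hx (by simp only [h0]; simp))]
  rw [Finset.sum_congr rfl fun i _ => h9 i, ← finsum_sum_comm _ _ fun i _ => h8 i]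
  refine finsum_eq_zero_of_forall_eq_zero fun x => ?_
  have h10 := congrArg (fun r : ℚ => (r : ℝ) * φb x) (hz x)
  simpa [Finset.sum_mul, mul_assoc] using h10

end Pool.Agent.MP_a9d3bd_g
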