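import Pool.Agent.MP_a9d3bd_g.BDefs2
import Pool.Agent.Mg.F53d700.G6fdc63

namespace Pool.Agent.MP_a9d3bd_g

open MvPolynomial Pool.Agent.MP_a9d3bd_h Pool.Agent.MP_a9d3bd_q

variable {K : Type} [Field K]

/-- Polynomials in `s, t, θ`. -/
abbrev R3 (K : Type) [Field K] : Type := MvPolynomial (Fin 3) K

/-- The top form of `G` is `c * s ^ e`. -/
def Tp (e : ℕ) (G : R3 K) : Prop :=
  G.totalDegree ≤ e ∧ ∃ c : K, c ≠ 0 ∧ homogeneousComponent e G = C c * X 0 ^ e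

/-- A curve on `V(H)` that is not contained in the singular locus. -/
def Cv (H : R3 K) (Z : Pr K (Fin 3)) : Prop :=
  H ∈ Z.asIdeal ∧ dim Z = 1 ∧ ∃ i, pderiv i H ∉ Z.asIdeal

/-- `F / G` is a unit at all places of `Z` at infinity. -/
def Inf (Z : Pr K (Fin 3)) (F G : R3 K) : Prop :=
  ∀ V : ValuationSubring Z.asIdeal.ResidueField, (∀ c, algebraMap (R3 K) _ (C c) ∈ V) →
    (∃ i, algebraMap (R3 K) _ (X i) ∉ V) →
    V.valuation (algebraMap (R3 K) _ F) = V.valuation (algebraMap (R3 K) _ G)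

/-- A plane curve `g(s,t) = 0` of degree `d`, monic in `t`, whose preimage in `V(H)` is generically
unramified over the `s`-line. -/
def Gp (H g : R3 K) : Prop :=
  g.degreeOf 2 = 0 ∧ coeff (Finsupp.single 1 g.totalDegree) g = 1 ∧
    ∀ Z : Pr K (Fin 3), H ∈ Z.asIdeal → g ∈ Z.asIdeal → dim Z = 1 →
      pderiv 1 g * pderiv 2 H ∉ Z.asIdeal

/-- A functional on pairs (curve, function) that kills the tame symbols. -/
structure Ax (H : R3 K) (W : Pr K (Fin 3)) (lam : Pr K (Fin 3) → R3 K → ℝ) : Prop where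
  mul : ∀ Z F G, Cv H Z → F ∉ Z.asIdeal → G ∉ Z.asIdeal → lam Z (F * G) = lam Z F + lam Z G
  congr : ∀ Z F G, Cv H Z → F ∉ Z.asIdeal → F - G ∈ Z.asIdeal → lam Z F = lam Z G
  tame : ∀ e F G G', Tp e G → Tp e G' → F ∉ W.asIdeal →
    (∀ Z : Pr K (Fin 3), H ∈ Z.asIdeal → dim Z = 1 → F * G * G' ∈ Z.asIdeal →
      Cv H Z ∧ (F ∈ Z.asIdeal → G * G' ∉ Z.asIdeal)) →
    ∑ᶠ Z, dvc F W Z * (lam Z G - lam Z G') = ∑ᶠ Z, (dvc G W Z - dvc G' W Z : ℚ) * lam Z F

/-- The surface: irreducible, monic in `θ` of its total degree `m ≥ 2`, separable. -/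
structure Srf (H : R3 K) (W : Pr K (Fin 3)) : Prop where
  irr : Irreducible H
  top : coeff (Finsupp.single 2 H.totalDegree) H = 1
  two : 2 ≤ H.totalDegree
  sep : pderiv 2 H ≠ 0
  eq : W.asIdeal = Ideal.span {H}

/-- `s - s(x)` generates the maximal ideal of `Z` at `x`. -/
def Nice (Z : Pr K (Fin 3)) (x : Fin 3 → K) : Prop :=
  ∀ f ∈ (ak K x).asIdeal, LM (ak K x) (Z.asIdeal ⊔ Ideal.span {X 0 - C (x 0)}) f

/-- At the places at infinity `F / G` has the valuation of `s ^ d`. -/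
def InfW (Z : Pr K (Fin 3)) (F G : R3 K) (d : ℕ) : Prop := Inf Z F (G * X 0 ^ d)

variable {e : ℕ}

/-- The member `t + μ θ - γ(s)`. -/
noncomputable def mem (μ : K) (t : Fin e → K) : R3 K :=
  X 1 + C μ * X 2 - Polynomial.aeval (X 0 : R3 K) (al μ t)

/-- The section `θ - γ₂(s)`. -/
noncomputable def bb (t : Fin e → K) : R3 K := X 2 - Polynomial.aeval (X 0 : R3 K) (al 1 t)

/-- Restriction to the member, in the coordinates `s, θ`. -/
noncomputable def sb (μ : K) (t : Fin e → K) : R3 K →ₐ[K] Polynomial (Polynomial K) :=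
  aeval ![Polynomial.C Polynomial.X,
    Polynomial.C (al μ t) - Polynomial.C (Polynomial.C μ) * Polynomial.X, Polynomial.X]

/-- The point of the member with coordinates `s, θ`. -/
noncomputable def up (μ : K) (t : Fin e → K) (y : K × K) : Fin 3 → K :=
  ![y.1, (al μ t).eval y.1 - μ * y.2, y.2]

/-- Good members. -/
def Good (H : R3 K) (μ : K) (t : Fin e → K) : Prop :=
  μ ≠ 0 ∧ Crv (fun _ : Unit => sb μ t H) ∧ (sb μ t H).natDegree = H.totalDegree

/-- `Z` is the curve of the member. -/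
def IsM (H : R3 K) (μ : K) (t : Fin e → K) (Z : Pr K (Fin 3)) : Prop :=
  ∀ F, F ∈ Z.asIdeal ↔ sb μ t H ∣ sb μ t F

/-- The plane projection `(s, t + μ θ)` on points. -/
def pr (μ : K) (x : Fin 3 → K) : K × K := (x 0, x 1 + μ * x 2)

/-- The plane projection `(s, t + μ θ)` on functions. -/
noncomputable def dn (μ : K) (P : Polynomial (Polynomial K)) : R3 K :=
  P.eval₂ (Polynomial.aeval (X 0 : R3 K)).toRingHom (X 1 + C μ * X 2)

/-- All coefficients are fixed by `x ↦ x ^ q`. -/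
def Rat3 (q : ℕ) (F : R3 K) : Prop := ∀ d, coeff d F ^ q = coeff d F

open Classical in
/-- `φ` represents `lam Z` on the split sections of the member. -/
def Rep (q : ℕ) (H : R3 K) (lam : Pr K (Fin 3) → R3 K → ℝ) (μ : K) (t : Fin e → K)
    (Z : Pr K (Fin 3)) (φ : K × K → ℝ) : Prop :=
  ∀ t₂ ∈ Edg q e 1 (sb μ t H) (Pts q (sb μ t H)), lam Z (bb t₂) =
    ∑ s ∈ ((sb μ t H).eval (al 1 t₂)).roots.toFinset, φ (s, (al 1 t₂).eval s)

/-- `φb` is the common value of all representing functions. -/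
def Phb (q e : ℕ) (H : R3 K) (lam : Pr K (Fin 3) → R3 K → ℝ) (φb : (Fin 3 → K) → ℝ) : Prop :=
  ∀ (μ : K) (t : Fin e → K), μ ^ q = μ → (∀ i, t i ^ q = t i) → Good H μ t → ∀ Z, IsM H μ t Z →
    ∀ φ, Rep q H lam μ t Z φ → ∀ y ∈ Pts q (sb μ t H), φ y = φb (up μ t y)

/-- A function on a curve in general position. -/
def Pos (H : R3 K) (Z : Pr K (Fin 3)) (F G g : R3 K) : Prop :=
  H ∈ Z.asIdeal ∧ dim Z = 1 ∧ g ∈ Z.asIdeal ∧ Gp H g ∧ F * G ∉ Z.asIdeal ∧ Inf Z F G ∧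
    ∀ x : Fin 3 → K, Z ≤ ak K x → eval x (F * G) = 0 → eval x (pderiv 1 g * pderiv 2 H) ≠ 0

end Pool.Agent.MP_a9d3bd_g
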