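import Pool.Agent.MP_a9d3bd_g.CDefs

namespace Pool.Agent.MP_a9d3bd_g

open MvPolynomial Pool.Agent.MP_a9d3bd_h Pool.Agent.MP_a9d3bd_q

variable {K : Type} [Field K] {e : ℕ} {H : R3 K} {W : Pr K (Fin 3)}
  {lam : Pr K (Fin 3) → R3 K → ℝ}

theorem DEG0_bij [IsAlgClosed K] {L : Type} [Field L] [Algebra K L] (h : FF K L 0) :
    Function.Bijective (algebraMap K L) := by
  have : Algebra.IsAlgebraic K L := trdeg_eq_zero_iff.1 (by simpa using h.tr)
  exact IsAlgClosed.algebraMap_bijective_of_isIntegral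

theorem DEG0_one [IsAlgClosed K] {L : Type} [Field L] [Algebra K L] (h : FF K L 0) :
    Module.finrank K L = 1 := by
  rw [← (LinearEquiv.ofBijective (Algebra.linearMap K L) (DEG0_bij h)).finrank_eq,
    Module.finrank_self]

theorem DEG0_rk [IsAlgClosed K] {L : Type} [Field L] [Algebra K L] (h : FF K L 0)
    (F : IntermediateField K L) : Module.finrank F L = 1 := by
  have h1 := Module.finrank_mul_finrank K F L
  rw [DEG0_one h] at h1
  exact Nat.eq_one_of_mul_eq_one_left h1

theorem DEG0_inj {σ : Type} : Function.Injective (fun x : σ → K => ak K x) := by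
  intro x y h
  funext i
  have h1 : (X i - C (x i) : MvPolynomial σ K) ∈ (ak K x).asIdeal := by
    rw [mem_ak]; simp
  have h2 : ak K x = ak K y := h
  rw [h2, mem_ak] at h1
  simp only [map_sub, aeval_X, aeval_C, Algebra.algebraMap_self, RingHom.id_apply] at h1
  exact (sub_eq_zero.1 h1).symm

theorem DEG0_ptd {σ : Type} (x : σ → K) : ptd (ak K x) = 0 := by
  have h : af K x = ⊥ := eq_bot_iff.2 fun z _ => IntermediateField.mem_bot.2 ⟨z, rfl⟩
  rw [ptd_ak, h, td_bot]

theorem DEG0_pt [IsAlgClosed K] {σ : Type} [Finite σ] {P : Pr K σ} (h : ptd P = 0) :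
    ∃ x : σ → K, ak K x = P := by
  have hE := ff_gn P
  rw [h] at hE
  choose x hx using fun i => (DEG0_bij hE).2 (gn P i)
  refine ⟨x, ?_⟩
  rw [← ak_map (Algebra.ofId K P.asIdeal.ResidueField) x]
  have h2 : (fun i => Algebra.ofId K P.asIdeal.ResidueField (x i)) = gn P := funext hx
  rw [h2, ak_gn]

open Classical in
theorem DEG0_da [IsAlgClosed K] {σ : Type} [Finite σ] {Z : Pr K σ} (hZ : ptd Z = 1)
    {F : MvPolynomial σ K} (hF : F ∉ Z.asIdeal) :
    ∑ᶠ P, dvc F Z P = ∑ᶠ O : DV K Z.asIdeal.ResidueField,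
      if O.Int (gn Z) then (O.ord (aeval (gn Z) F) : ℚ) * Module.finrank K O.K else 0 := by
  have hE := ff_gn Z
  rw [hZ] at hE
  have h1 : aeval (gn Z) F ≠ 0 := by rwa [Ne, ← mem_ak, ak_gn]
  have h3 := gra (j := 0) (Ψ := fun L _ _ _ => (Module.finrank K L : ℚ)) (fun _ => 1)
    (fun L _ _ hL z => by
      rw [DEG0_rk hL, DEG0_one hL, mul_one]) hE
    ((nda_iff hE (gn Z)).2 (by rw [← ptd_ak, ak_gn, hZ])) h1
  rw [ak_gn, af_gn, IntermediateField.finrank_top, Nat.cast_one, one_mul,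
    ← PF_pair _ (j := 0) hZ hF, pair_finsum] at h3
  simp only [dvL_pc, mul_one] at h3
  rw [← h3]
  rfl

/-- The divisor of a function that is a unit at infinity has degree zero. -/
theorem DEG0 [IsAlgClosed K] {Z : Pr K (Fin 3)} (hZ : ptd Z = 1) {F G : R3 K}
    (h0 : F * G ∉ Z.asIdeal) (hinf : Inf Z F G) :
    {x : Fin 3 → K | Z ≤ ak K x ∧ eval x (F * G) = 0}.Finite ∧
    ∑ᶠ x : Fin 3 → K, (dvc F Z (ak K x) - dvc G Z (ak K x)) = 0 := by
  classical
  have hF : F ∉ Z.asIdeal := fun h => h0 (Z.asIdeal.mul_mem_right G h)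
  have hG : G ∉ Z.asIdeal := fun h => h0 (Z.asIdeal.mul_mem_left F h)
  refine ⟨((dvc_fin (F * G) Z).preimage DEG0_inj.injOn).subset fun x hx => ?_, ?_⟩
  · refine dvc_ne.2 ⟨h0, by rw [hZ, DEG0_ptd], hx.1, ?_⟩
    rw [mem_ak, aeval_eq_eval]
    exact hx.2
  have hE := ff_gn Z
  rw [hZ] at hE
  have f1 : aeval (gn Z) F ≠ 0 := by rwa [Ne, ← mem_ak, ak_gn]
  have g1 : aeval (gn Z) G ≠ 0 := by rwa [Ne, ← mem_ak, ak_gn]
  have hs : Function.support (fun P => dvc F Z P - dvc G Z P) ⊆
      Set.range fun x : Fin 3 → K => ak K x := by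
    intro P hP
    have h2 : ptd P = 0 := by
      by_contra h3
      apply hP
      have a1 : dvc F Z P = 0 := by
        by_contra h4
        have := (dvc_ne.1 h4).2.1
        omega
      have a2 : dvc G Z P = 0 := by
        by_contra h4
        have := (dvc_ne.1 h4).2.1
        omega
      show dvc F Z P - dvc G Z P = 0
      rw [a1, a2, sub_zero]
    exact DEG0_pt h2
  have fin : ∀ h : Z.asIdeal.ResidueField, (Function.support
      fun O : DV K Z.asIdeal.ResidueField =>
        if O.Int (gn Z) then (O.ord h : ℚ) * Module.finrank K O.K else 0).Finite := fun h =>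
    (fs_one hE h).subset fun O hO h2 => hO (by
      show (if O.Int (gn Z) then (O.ord h : ℚ) * Module.finrank K O.K else 0) = 0
      rw [h2]; simp)
  rw [← finsum_mem_range (f := fun P => dvc F Z P - dvc G Z P) DEG0_inj, finsum_mem_def,
    Set.indicator_eq_self.2 hs, finsum_sub_distrib (dvc_fin F Z) (dvc_fin G Z),
    DEG0_da hZ hF, DEG0_da hZ hG, ← finsum_sub_distrib (fin _) (fin _)]
  refine Eq.trans (finsum_congr fun O => ?_)
    (prod_formula hE (aeval (gn Z) F / aeval (gn Z) G))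
  by_cases hO : O.Int (gn Z)
  · rw [if_pos hO, if_pos hO, O.ord_div f1 g1]
    push_cast
    ring
  · rw [if_neg hO, if_neg hO, sub_zero]
    have hv := hinf O.O (fun c => by
      have := O.const c
      rwa [IsScalarTower.algebraMap_apply K (R3 K) Z.asIdeal.ResidueField] at this)
      (not_forall.1 hO)
    rw [← aeval_gn, ← aeval_gn] at hv
    have v1 : O.O.valuation (aeval (gn Z) G) ≠ 0 := (Valuation.ne_zero_iff _).2 g1
    have h5 : O.ord (aeval (gn Z) F / aeval (gn Z) G) = 0 := by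
      rw [O.ord_eq_zero_iff, ← O.O.valuation_le_one_iff, ← O.O.valuation_le_one_iff, map_inv₀,
        map_div₀, hv, div_self v1, inv_one]
      exact ⟨le_rfl, le_rfl⟩
    rw [h5]
    simp

end Pool.Agent.MP_a9d3bd_g
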