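import Pool.Agent.MP_a9d3bd_g.CDefs

namespace Pool.Agent.MP_a9d3bd_g

open MvPolynomial Pool.Agent.MP_a9d3bd_h Pool.Agent.MP_a9d3bd_q

variable {K : Type} [Field K] {H : R3 K} {W : Pr K (Fin 3)}

theorem dimW (h : Srf H W) : ptd W = 2 := by
  have hH : H ∈ W.asIdeal := h.eq ▸ Ideal.mem_span_singleton_self H
  have h0 : aff K (Fin 3) ≤ W := (bot_le : (⊥ : Ideal (R3 K)) ≤ W.asIdeal)
  have h3 : ptd (aff K (Fin 3)) = 3 := by simpa using ptd_aff (K := K) (σ := Fin 3)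
  have hne : aff K (Fin 3) ≠ W := fun e => by
    rw [← e] at hH
    exact h.irr.ne_zero hH
  have h1 := ptd_lt (lt_of_le_of_ne h0 hne)
  obtain ⟨P, -, a2, a3, a4⟩ := krull h0 hH
  have e : P = W := le_antisymm a2 (show W.asIdeal ≤ P.asIdeal by
    rw [h.eq]
    exact (Ideal.span_singleton_le_iff_mem _).2 a3)
  rw [e] at a4
  omega

end Pool.Agent.MP_a9d3bd_g
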