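import Pool.Agent.MP_a9d3bd_g.CS2Defs

namespace Pool.Agent.MP_a9d3bd_g

open MvPolynomial Pool.Agent.MP_a9d3bd_h Pool.Agent.MP_a9d3bd_q

variable {K : Type} [Field K] {e : ℕ} {H : R3 K} {W : Pr K (Fin 3)} {lam : Pr K (Fin 3) → R3 K → ℝ}

theorem DN_comp (x : Fin 3 → K) : (eval x).comp (Polynomial.aeval (X 0 : R3 K)).toRingHom =
    Polynomial.evalRingHom (x 0) := by
  ext <;> simp

theorem DN_ev (x : Fin 3 → K) (q : Polynomial K) :
    eval x (Polynomial.aeval (X 0 : R3 K) q) = q.eval (x 0) :=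
  DFunLike.congr_fun (DN_comp x) q

theorem DN (μ : K) : (∀ x P, eval x (dn μ P) = P.evalEval (pr μ x).1 (pr μ x).2) ∧
    (∀ (n : ℕ) (P : Fin n → Polynomial (Polynomial K)), dn μ (∏ i, P i) = ∏ i, dn μ (P i)) ∧
    (∀ (t : Fin e → K) P, Polynomial.aeval (X 0 : R3 K) (P.eval (al μ t)) - dn μ P ∈
      Ideal.span {mem μ t}) ∧
    (∀ (t : Fin e → K) x, eval x (mem μ t) = 0 ↔ pr μ x = (x 0, (al μ t).eval (x 0))) ∧
    ∀ (p f : ℕ) [Fact p.Prime] [CharP K p] (F : R3 K) (x : Fin 3 → K), Rat3 (p ^ f) F →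
      eval (fun i => x i ^ p ^ f) F = eval x F ^ p ^ f := by
  refine ⟨fun x P => ?_, fun n P => ?_, fun t P => ?_, fun t x => ?_, fun p f _ _ F x hF => ?_⟩
  · rw [dn, Polynomial.hom_eval₂, DN_comp, Polynomial.eval₂_evalRingHom]
    simp [pr]
  · exact Polynomial.eval₂_finsetProd _ _ _ _
  · have h1 : Polynomial.aeval (X 0 : R3 K) (P.eval (al μ t)) =
        (P.map (Polynomial.aeval (X 0 : R3 K)).toRingHom).eval
          (Polynomial.aeval (X 0 : R3 K) (al μ t)) := by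
      rw [Polynomial.eval_map]
      exact (Polynomial.eval₂_hom (Polynomial.aeval (X 0 : R3 K)).toRingHom (al μ t)).symm
    rw [Ideal.mem_span_singleton, h1, dn, ← Polynomial.eval_map, mem, ← dvd_neg, neg_sub]
    exact Polynomial.sub_dvd_eval_sub _ _ _
  · rw [mem, map_sub, DN_ev, sub_eq_zero, pr, Prod.mk.injEq]
    simp
  · rw [eval_eq', eval_eq', ← iterateFrobenius_def, map_sum]
    refine Finset.sum_congr rfl fun d _ => ?_
    rw [iterateFrobenius_def, mul_pow, hF d, ← Finset.prod_pow]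
    congr 1
    exact Finset.prod_congr rfl fun i _ => pow_right_comm _ _ _

end Pool.Agent.MP_a9d3bd_g
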