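import Pool.Agent.MP_a9d3bd_g.CDefs

namespace Pool.Agent.MP_a9d3bd_g

open MvPolynomial Pool.Agent.MP_a9d3bd_h Pool.Agent.MP_a9d3bd_q

variable {K : Type} [Field K] {e : ℕ} {H : R3 K} {W : Pr K (Fin 3)}
  {lam : Pr K (Fin 3) → R3 K → ℝ}

theorem JAC_tay0 (x : Fin 3 → K) (f : R3 K) : ∃ u v w : R3 K,
    f = C (eval x f) + (X 0 - C (x 0)) * u + (X 1 - C (x 1)) * v + (X 2 - C (x 2)) * w := by
  induction f using MvPolynomial.induction_on with
  | C a => exact ⟨0, 0, 0, by simp⟩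
  | add p q hp hq =>
    obtain ⟨u, v, w, h⟩ := hp
    obtain ⟨u', v', w', h'⟩ := hq
    refine ⟨u + u', v + v', w + w', ?_⟩
    rw [map_add, map_add]
    linear_combination h + h'
  | mul_X p i hp =>
    obtain ⟨u, v, w, h⟩ := hp
    rw [map_mul, eval_X, map_mul]
    fin_cases i
    · refine ⟨u * X 0 + C (eval x p), v * X 0, w * X 0, ?_⟩
      simp only [Fin.zero_eta]
      linear_combination (X 0) * h
    · refine ⟨u * X 1, v * X 1 + C (eval x p), w * X 1, ?_⟩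
      simp only [Fin.mk_one]
      linear_combination (X 1) * h
    · refine ⟨u * X 2, v * X 2, w * X 2 + C (eval x p), ?_⟩
      simp only [Fin.reduceFinMk]
      linear_combination (X 2) * h

theorem JAC_tay (x : Fin 3 → K) {f : R3 K} (hf : eval x f = 0) : ∃ u v w : R3 K,
    f = (X 0 - C (x 0)) * u + (X 1 - C (x 1)) * v + (X 2 - C (x 2)) * w ∧
      eval x v = eval x (pderiv 1 f) ∧ eval x w = eval x (pderiv 2 f) := by
  obtain ⟨u, v, w, h⟩ := JAC_tay0 x f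
  rw [hf, map_zero, zero_add] at h
  refine ⟨u, v, w, h, ?_, ?_⟩
  · rw [h]
    simp [Derivation.leibniz, pderiv_X]
  · rw [h]
    simp [Derivation.leibniz, pderiv_X]

theorem JAC_mem (x : Fin 3 → K) (f : R3 K) : f ∈ (ak K x).asIdeal ↔ eval x f = 0 := by
  rw [mem_ak, ← coe_aeval_eq_eval]
  rfl

theorem JAC_dim (x : Fin 3 → K) : dim (ak K x) = 0 := by
  have hs : Function.Surjective (aeval x : R3 K →ₐ[K] K) := fun c => ⟨C c, by simp⟩
  have e : (R3 K ⧸ (ak K x).asIdeal) ≃ₐ[K] K := Ideal.quotientKerAlgEquivOfSurjective hs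
  unfold dim
  rw [e.trdeg_eq, trdeg_eq_zero]
  simp

theorem JAC_one {g : R3 K} (hg : g.degreeOf 2 = 0) {x : Fin 3 → K} (h1 : eval x H = 0)
    (h2 : eval x g = 0) (h3 : eval x (pderiv 1 g * pderiv 2 H) ≠ 0) :
    ∃ w : R3 K, eval x w ≠ 0 ∧ ∀ f : R3 K, eval x f = 0 →
      ∃ a b c : R3 K, w * f = a * H + b * g + c * (X 0 - C (x 0)) := by
  obtain ⟨g0, g1, g2, e1, e2, e3⟩ := JAC_tay x h2
  obtain ⟨k0, k1, k2, d1, -, d3⟩ := JAC_tay x h1
  have hz : pderiv 2 g = 0 := pderiv_eq_zero_of_notMem_vars fun h =>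
    (mem_vars_iff_degreeOf_ne_zero.1 h) hg
  rw [hz, map_zero] at e3
  refine ⟨g1 * k2 - g2 * k1, ?_, fun f hf => ?_⟩
  · rw [map_sub, map_mul, map_mul, e3, e2, d3, zero_mul, sub_zero, ← map_mul]
    exact h3
  · obtain ⟨f0, f1, f2, c1, -, -⟩ := JAC_tay x hf
    refine ⟨g1 * f2 - g2 * f1, k2 * f1 - k1 * f2,
      (g1 * k2 - g2 * k1) * f0 - (g1 * f2 - g2 * f1) * k0 - (k2 * f1 - k1 * f2) * g0, ?_⟩
    linear_combination (g1 * k2 - g2 * k1) * c1 - (g1 * f2 - g2 * f1) * d1 -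
      (k2 * f1 - k1 * f2) * e1

/-- File CJac.lean. -/
theorem JAC {g : R3 K} (hg : g.degreeOf 2 = 0) {x : Fin 3 → K} (h1 : eval x H = 0)
    (h2 : eval x g = 0) (h3 : eval x (pderiv 1 g * pderiv 2 H) ≠ 0) :
    (∀ f ∈ (ak K x).asIdeal, LM (ak K x) (Ideal.span {H, g, X 0 - C (x 0)}) f) ∧
    (∃ Z : Pr K (Fin 3), H ∈ Z.asIdeal ∧ g ∈ Z.asIdeal ∧ dim Z = 1 ∧ Z ≤ ak K x) ∧
    ∀ Z : Pr K (Fin 3), H ∈ Z.asIdeal → g ∈ Z.asIdeal → dim Z = 1 → Z ≤ ak K x →
      ∀ f, f ∈ Z.asIdeal ↔ LM (ak K x) (Ideal.span {H, g}) f := by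
  obtain ⟨w, hw, hk⟩ := JAC_one hg h1 h2 h3
  have hw' : w ∉ (ak K x).asIdeal := fun h => hw ((JAC_mem x w).1 h)
  have ha : (X 0 - C (x 0) : R3 K) ∈ (ak K x).asIdeal := (JAC_mem x _).2 (by simp)
  have hmax : ∀ Z : Pr K (Fin 3), H ∈ Z.asIdeal → g ∈ Z.asIdeal →
      (X 0 - C (x 0) : R3 K) ∈ Z.asIdeal → Z ≤ ak K x → dim Z = 0 := fun Z a1 a2 a3 a4 => by
    have : Z = ak K x := le_antisymm a4 fun f hf => by
      obtain ⟨a, b, c, h⟩ := hk f ((JAC_mem x f).1 hf)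
      have : w * f ∈ Z.asIdeal := h ▸ Z.asIdeal.add_mem (Z.asIdeal.add_mem
        (Z.asIdeal.mul_mem_left _ a1) (Z.asIdeal.mul_mem_left _ a2)) (Z.asIdeal.mul_mem_left _ a3)
      exact (Z.isPrime.mem_or_mem this).resolve_left fun h => hw' (a4 h)
    rw [this, JAC_dim]
  refine ⟨fun f hf => ?_, ?_, fun Z a1 a2 a3 a4 f => ⟨fun hf => ?_, ?_⟩⟩
  · obtain ⟨a, b, c, h⟩ := hk f ((JAC_mem x f).1 hf)
    refine ⟨w, hw', h ▸ Ideal.add_mem _ (Ideal.add_mem _ ?_ ?_) ?_⟩ <;>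
      exact Ideal.mul_mem_left _ _ (Ideal.subset_span (by simp))
  · obtain ⟨P, -, b2, b3, b4⟩ := krull_list (aff_le (ak K x)) (l := [H, g]) (by
      intro f hf
      simp only [List.mem_cons, List.not_mem_nil, or_false] at hf
      rcases hf with rfl | rfl
      · exact (JAC_mem x _).2 h1
      · exact (JAC_mem x _).2 h2)
    have c1 : H ∈ P.asIdeal := b3 H (by simp)
    have c2 : g ∈ P.asIdeal := b3 g (by simp)
    obtain ⟨Q, d1, d2, d3, d4⟩ := krull b2 ha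
    have d5 := hmax Q (d1 c1) (d1 c2) d3 d2
    rw [ptd_aff] at b4
    rw [dim_eq] at d5
    refine ⟨P, c1, c2, ?_, b2⟩
    rw [dim_eq]
    simp only [Fintype.card_fin, List.length_cons, List.length_nil] at b4
    omega
  · have hn : (X 0 - C (x 0) : R3 K) ∉ Z.asIdeal := fun h => by
      have := hmax Z a1 a2 h a4
      omega
    have hle : Z.asIdeal ≤ Ideal.span {H, g} ⊔ (ak K x).asIdeal • Z.asIdeal := fun z hz => by
      obtain ⟨a, b, c, h⟩ := hk z ((JAC_mem x z).1 (a4 hz))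
      have hI : a * H + b * g ∈ Ideal.span {H, g} := Ideal.add_mem _
        (Ideal.mul_mem_left _ _ (Ideal.subset_span (by simp)))
        (Ideal.mul_mem_left _ _ (Ideal.subset_span (by simp)))
      have hc : c ∈ Z.asIdeal := by
        have : c * (X 0 - C (x 0)) ∈ Z.asIdeal := by
          rw [show c * (X 0 - C (x 0)) = w * z - a * H - b * g by linear_combination -h]
          exact Z.asIdeal.sub_mem (Z.asIdeal.sub_mem (Z.asIdeal.mul_mem_left _ hz)
            (Z.asIdeal.mul_mem_left _ a1)) (Z.asIdeal.mul_mem_left _ a2)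
        exact (Z.isPrime.mem_or_mem this).resolve_right hn
      have hd : w - C (eval x w) ∈ (ak K x).asIdeal := (JAC_mem x _).2 (by simp)
      have hu : (C (eval x w)⁻¹ : R3 K) * C (eval x w) = 1 := by
        rw [← map_mul, inv_mul_cancel₀ hw, map_one]
      rw [show z = C (eval x w)⁻¹ * ((a * H + b * g) +
        ((X 0 - C (x 0)) * c - (w - C (eval x w)) * z)) by
          linear_combination (C (eval x w)⁻¹) * h - z * hu]
      exact Ideal.mul_mem_left _ _ (Submodule.add_mem_sup hI (Submodule.sub_mem _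
        (Submodule.smul_mem_smul ha hc) (Submodule.smul_mem_smul hd hz)))
    obtain ⟨r, r1, r2⟩ := Submodule.exists_sub_one_mem_and_smul_le_of_fg_of_le_sup
      (IsNoetherian.noetherian Z.asIdeal) le_rfl hle
    refine ⟨r, fun h => (ak K x).isPrime.ne_top ((Ideal.eq_top_iff_one _).2 ?_),
      r2 (Submodule.smul_mem_pointwise_smul f r _ hf)⟩
    simpa using (ak K x).asIdeal.sub_mem h r1
  · rintro ⟨r, r1, r2⟩
    have : Ideal.span {H, g} ≤ Z.asIdeal := Ideal.span_le.2 (by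
      rintro z (rfl | rfl)
      exacts [a1, a2])
    exact (Z.isPrime.mem_or_mem (this r2)).resolve_left fun h => r1 (a4 h)

end Pool.Agent.MP_a9d3bd_g
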