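import Pool.Agent.MP_a9d3bd_g.CDimW
import Pool.Agent.MP_a9d3bd_g.CJac

namespace Pool.Agent.MP_a9d3bd_g

open MvPolynomial Pool.Agent.MP_a9d3bd_h Pool.Agent.MP_a9d3bd_q

variable {K : Type} [Field K] {e : ℕ} {H : R3 K} {W : Pr K (Fin 3)} {lam : Pr K (Fin 3) → R3 K → ℝ}

theorem dvg_ak {x : Fin 3 → K} {f : R3 K} : f ∈ (ak K x).asIdeal ↔ eval x f = 0 := Iff.rfl

theorem dvg_notMem (h : Srf H W) {g : R3 K} (hg : Gp H g) : g ∉ W.asIdeal := by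
  rw [h.eq, Ideal.mem_span_singleton]
  rintro ⟨u, hu⟩
  have g0 : g ≠ 0 := fun e => by
    have := hg.2.1
    rw [e, coeff_zero] at this
    exact zero_ne_one this
  have h1 := degreeOf_mul_eq (n := (2 : Fin 3)) (left_ne_zero_of_mul (hu ▸ g0))
    (right_ne_zero_of_mul (hu ▸ g0))
  have h2 := monomial_le_degreeOf (2 : Fin 3) (f := H) (m := Finsupp.single 2 H.totalDegree)
    (mem_support_iff.2 (by rw [h.top]; exact one_ne_zero))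
  rw [Finsupp.single_eq_same] at h2
  have h3 := h.two
  rw [← hu, hg.1] at h1
  omega

theorem dvg [IsAlgClosed K] (h : Srf H W) {g : R3 K} (hg : Gp H g) :
    g ∉ W.asIdeal ∧ {Z : Pr K (Fin 3) | H ∈ Z.asIdeal ∧ g ∈ Z.asIdeal ∧ dim Z = 1}.Finite ∧
    (∀ Z : Pr K (Fin 3), H ∈ Z.asIdeal → g ∈ Z.asIdeal → dim Z = 1 → dvc g W Z = 1) ∧
    ∀ x : Fin 3 → K, eval x H = 0 → eval x g = 0 →
      ∃ Z : Pr K (Fin 3), H ∈ Z.asIdeal ∧ g ∈ Z.asIdeal ∧ dim Z = 1 ∧ Z ≤ ak K x := by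
  have h0 := dvg_notMem h hg
  have hW := dimW h
  have hle : ∀ Z : Pr K (Fin 3), W ≤ Z ↔ H ∈ Z.asIdeal := fun Z => by
    rw [← PrimeSpectrum.asIdeal_le_asIdeal, h.eq, Ideal.span_singleton_le_iff_mem]
  refine ⟨h0, (dvc_fin g W).subset fun Z hZ => ?_, fun Z h1 h2 h3 => ?_, fun x h1 h2 => ?_⟩
  · exact dvc_ne.2 ⟨h0, by rw [hW, ← dim_eq, hZ.2.2], (hle Z).2 hZ.1, hZ.2.1⟩
  · have h4 := hg.2.2 Z h1 h2 h3
    rw [← IsPrime.vanishingIdeal_zeroLocus (K := K) Z.asIdeal, mem_vanishingIdeal_iff] at h4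
    obtain ⟨x, hx⟩ := not_forall.1 h4
    obtain ⟨hx, hx'⟩ := Classical.not_imp.1 hx
    have h5 : Z ≤ ak K x := fun f hf => hx f hf
    have h6 := (JAC hg.1 (dvg_ak.1 (h5 h1)) (dvg_ak.1 (h5 h2)) hx').2.2 Z h1 h2 h3 h5
    unfold dvc
    rw [if_pos ⟨h0, by rw [hW, ← dim_eq, h3]⟩, len_eq_one ((hle Z).2 h1) h2 fun f hf => ?_]
    · simp
    · obtain ⟨w, a, b⟩ := (h6 f).1 hf
      exact ⟨w, fun c => a (h5 c), by rwa [h.eq, ← Ideal.span_insert]⟩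
  · obtain ⟨Z, a, b, c, d⟩ := krull ((hle (ak K x)).2 (dvg_ak.2 h1)) (dvg_ak.2 h2)
    have := ptd_lt (lt_of_le_of_ne a fun e => h0 (e ▸ c))
    exact ⟨Z, (hle Z).1 a, c, by rw [dim_eq]; omega, b⟩

end Pool.Agent.MP_a9d3bd_g
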