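import Pool.Agent.MP_a9d3bd_g.CDefs

namespace Pool.Agent.MP_a9d3bd_g

open MvPolynomial Pool.Agent.MP_a9d3bd_h Pool.Agent.MP_a9d3bd_q

variable {K : Type} [Field K] {e : ℕ} {H : R3 K} {W : Pr K (Fin 3)} {lam : Pr K (Fin 3) → R3 K → ℝ}

/-- Polynomials in `s, θ` as polynomials in `s, t, θ`. -/
noncomputable def memP_L (K : Type) [Field K] : Polynomial (Polynomial K) →+* R3 K :=
  Polynomial.eval₂RingHom (Polynomial.aeval (X 0 : R3 K)).toRingHom (X 2)

theorem memP_LC (p : Polynomial K) :
    memP_L K (Polynomial.C p) = Polynomial.aeval (X 0 : R3 K) p := by simp [memP_L]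

theorem memP_LX : memP_L K Polynomial.X = X 2 := by simp [memP_L]

theorem memP_C (μ : K) (t : Fin e → K) (c : K) :
    sb μ t (C c) = Polynomial.C (Polynomial.C c) := by
  simp [sb, Polynomial.algebraMap_apply]

theorem memP_0 (μ : K) (t : Fin e → K) : sb μ t (X 0) = Polynomial.C Polynomial.X := by simp [sb]

theorem memP_1 (μ : K) (t : Fin e → K) : sb μ t (X 1) =
    Polynomial.C (al μ t) - Polynomial.C (Polynomial.C μ) * Polynomial.X := by simp [sb]

theorem memP_2 (μ : K) (t : Fin e → K) : sb μ t (X 2) = Polynomial.X := by simp [sb]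

theorem memP_ae (μ : K) (t : Fin e → K) (p : Polynomial K) :
    sb μ t (Polynomial.aeval (X 0 : R3 K) p) = Polynomial.C p := by
  induction p using Polynomial.induction_on' with
  | add p q hp hq => rw [map_add, map_add, hp, hq, map_add]
  | monomial n c =>
    rw [Polynomial.aeval_monomial, map_mul, map_pow, memP_0, algebraMap_eq, memP_C, ← map_pow,
      ← map_mul, Polynomial.C_mul_X_pow_eq_monomial]

theorem memP_sbL (μ : K) (t : Fin e → K) (P : Polynomial (Polynomial K)) :
    sb μ t (memP_L K P) = P := by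
  induction P using Polynomial.induction_on' with
  | add p q hp hq => rw [map_add, map_add, hp, hq]
  | monomial n c =>
    rw [← Polynomial.C_mul_X_pow_eq_monomial, map_mul, map_pow, memP_LC, memP_LX, map_mul, map_pow,
      memP_ae, memP_2]

theorem memP_sbm (μ : K) (t : Fin e → K) : sb μ t (mem μ t) = 0 := by
  rw [mem, map_sub, map_add, map_mul, memP_ae, memP_1, memP_2, memP_C]
  ring

theorem memP_dvd (μ : K) (t : Fin e → K) (F : R3 K) : mem μ t ∣ F - memP_L K (sb μ t F) := by
  induction F using MvPolynomial.induction_on with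
  | C c => rw [memP_C, memP_LC, Polynomial.aeval_C, algebraMap_eq, sub_self]; exact dvd_zero _
  | add p q hp hq =>
    rw [map_add, map_add, add_sub_add_comm]
    exact dvd_add hp hq
  | mul_X p i hp =>
    have h : mem μ t ∣ X i - memP_L K (sb μ t (X i)) := by
      fin_cases i
      · change mem μ t ∣ X 0 - memP_L K (sb μ t (X 0))
        rw [memP_0, memP_LC, Polynomial.aeval_X, sub_self]; exact dvd_zero _
      · change mem μ t ∣ X 1 - memP_L K (sb μ t (X 1))
        rw [memP_1, map_sub, map_mul, memP_LC, memP_LC, memP_LX, Polynomial.aeval_C, algebraMap_eq]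
        exact Dvd.intro 1 (by rw [mem]; ring)
      · change mem μ t ∣ X 2 - memP_L K (sb μ t (X 2))
        rw [memP_2, memP_LX, sub_self]; exact dvd_zero _
    rw [map_mul, map_mul]
    have e : p * X i - memP_L K (sb μ t p) * memP_L K (sb μ t (X i)) =
        (p - memP_L K (sb μ t p)) * X i +
          memP_L K (sb μ t p) * (X i - memP_L K (sb μ t (X i))) := by ring
    rw [e]
    exact dvd_add (hp.mul_right _) (h.mul_left _)

theorem memP_ev (μ : K) (t : Fin e → K) (y : K × K) (F : R3 K) :
    eval (up μ t y) F = (sb μ t F).evalEval y.1 y.2 := by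
  induction F using MvPolynomial.induction_on with
  | C c => rw [memP_C, eval_C, Polynomial.evalEval_CC]
  | add p q hp hq => rw [map_add, map_add, Polynomial.evalEval_add, hp, hq]
  | mul_X p i hp =>
    rw [map_mul, map_mul, Polynomial.evalEval_mul, hp, eval_X]
    congr 1
    fin_cases i
    · change y.1 = (sb μ t (X 0)).evalEval y.1 y.2
      rw [memP_0, Polynomial.evalEval_C, Polynomial.eval_X]
    · change (al μ t).eval y.1 - μ * y.2 = (sb μ t (X 1)).evalEval y.1 y.2
      rw [memP_1, Polynomial.evalEval_sub, Polynomial.evalEval_mul, Polynomial.evalEval_C,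
        Polynomial.evalEval_CC, Polynomial.evalEval_X]
    · change y.2 = (sb μ t (X 2)).evalEval y.1 y.2
      rw [memP_2, Polynomial.evalEval_X]

theorem memP_der (μ : K) (t : Fin e → K) (F : R3 K) : Polynomial.derivative (sb μ t F) =
    sb μ t (pderiv 2 F - C μ * pderiv 1 F) := by
  induction F using MvPolynomial.induction_on with
  | C c => rw [memP_C, Polynomial.derivative_C, pderiv_C, pderiv_C, mul_zero, sub_zero, map_zero]
  | add p q hp hq =>
    rw [map_add, map_add, hp, hq, ← map_add, map_add (pderiv 2), map_add (pderiv 1)]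
    congr 1
    ring
  | mul_X p i hp =>
    have h : Polynomial.derivative (sb μ t (X i)) =
        sb μ t (pderiv 2 (X i) - C μ * pderiv 1 (X i)) := by
      fin_cases i
      · change Polynomial.derivative (sb μ t (X 0)) =
          sb μ t (pderiv 2 (X 0) - C μ * pderiv 1 (X 0))
        rw [memP_0, pderiv_X_of_ne (by decide), pderiv_X_of_ne (by decide)]
        simp
      · change Polynomial.derivative (sb μ t (X 1)) =
          sb μ t (pderiv 2 (X 1) - C μ * pderiv 1 (X 1))
        rw [memP_1, pderiv_X_of_ne (by decide), pderiv_X_self, mul_one, zero_sub, map_neg, memP_C]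
        simp
      · change Polynomial.derivative (sb μ t (X 2)) =
          sb μ t (pderiv 2 (X 2) - C μ * pderiv 1 (X 2))
        rw [memP_2, pderiv_X_self, pderiv_X_of_ne (by decide)]
        simp
    rw [map_mul, Polynomial.derivative_mul, hp, h, ← map_mul, ← map_mul, ← map_add, pderiv_mul,
      pderiv_mul]
    congr 1
    ring

theorem memP_pt (μ : K) (t : Fin e → K) (x : Fin 3 → K) :
    eval x (mem μ t) = 0 ↔ x = up μ t (x 0, x 2) := by
  have h : eval x (mem μ t) = x 1 + μ * x 2 - (al μ t).eval (x 0) := by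
    rw [mem, map_sub, map_add, map_mul, eval_X, eval_X, eval_C, ← coe_aeval_eq_eval,
      ← Polynomial.coe_aeval_eq_eval]
    congr 1
    exact ((Polynomial.aeval_algHom_apply (aeval x : R3 K →ₐ[K] K) (X 0) (al μ t)).symm.trans
      (by rw [aeval_X]))
  rw [h]
  refine ⟨fun h => ?_, fun h => ?_⟩
  · funext i
    fin_cases i
    · rfl
    · change x 1 = (al μ t).eval (x 0) - μ * x 2
      linear_combination h
    · rfl
  · have h1 : x 1 = (al μ t).eval (x 0) - μ * x 2 := congrFun h 1
    linear_combination h1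

theorem memP_id {μ : K} {t : Fin e → K} {Z : Pr K (Fin 3)} (hZ : IsM H μ t Z) (F : R3 K) :
    F ∈ Z.asIdeal ↔ F ∈ Ideal.span {H, mem μ t} := by
  rw [hZ F, Ideal.mem_span_pair]
  refine ⟨fun ⟨P, hP⟩ => ?_, fun ⟨a, b, h⟩ => ?_⟩
  · obtain ⟨a, ha⟩ := memP_dvd μ t F
    obtain ⟨b, hb⟩ := memP_dvd μ t H
    rw [hP, map_mul] at ha
    exact ⟨memP_L K P, a - b * memP_L K P, by linear_combination memP_L K P * hb - ha⟩
  · rw [← h, map_add, map_mul, map_mul, memP_sbm, mul_zero, add_zero]
    exact Dvd.intro_left _ rfl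

theorem memP {μ : K} {t : Fin e → K} {Z : Pr K (Fin 3)} (hZ : IsM H μ t Z) :
    (∀ y F, eval (up μ t y) F = (sb μ t F).evalEval y.1 y.2) ∧
    (∀ y, (Polynomial.derivative (sb μ t H)).evalEval y.1 y.2 =
      eval (up μ t y) (pderiv 2 H - C μ * pderiv 1 H)) ∧
    (∀ x, Z ≤ ak K x ↔ x = up μ t (x 0, x 2) ∧ eval x H = 0) ∧
    (∀ x, eval x (mem μ t) = 0 ↔ x = up μ t (x 0, x 2)) ∧
    (∀ F, F ∈ Z.asIdeal ↔ F ∈ Ideal.span {H, mem μ t}) ∧
    ∀ y, (sb μ t H).evalEval y.1 y.2 = 0 →
      (Polynomial.derivative (sb μ t H)).evalEval y.1 y.2 ≠ 0 → Nice Z (up μ t y) := by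
  have hH : H ∈ Z.asIdeal := (hZ H).2 dvd_rfl
  have hm : mem μ t ∈ Z.asIdeal := (hZ _).2 (by rw [memP_sbm]; exact dvd_zero _)
  have hak : ∀ (x : Fin 3 → K) (F : R3 K), F ∈ (ak K x).asIdeal ↔ eval x F = 0 := fun x F => by
    rw [← coe_aeval_eq_eval]; rfl
  refine ⟨memP_ev μ t, fun y => by rw [memP_der, memP_ev], fun x => ?_, memP_pt μ t, memP_id hZ,
    fun y h0 h1 f hf => ?_⟩
  · rw [← memP_pt]
    refine ⟨fun h => ⟨(hak x _).1 (h hm), (hak x _).1 (h hH)⟩, fun h F hF => ?_⟩
    obtain ⟨a, b, rfl⟩ := Ideal.mem_span_pair.1 ((memP_id hZ F).1 hF)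
    exact (hak x _).2 (by rw [map_add, map_mul, map_mul, h.1, h.2]; ring)
  · rw [hak, memP_ev, ← Polynomial.map_evalRingHom_eval] at hf
    rw [← Polynomial.map_evalRingHom_eval] at h0 h1
    obtain ⟨q, hq⟩ := Polynomial.dvd_iff_isRoot.2 h0
    obtain ⟨r, hr⟩ := Polynomial.dvd_iff_isRoot.2 hf
    rw [← Polynomial.derivative_map, hq] at h1
    have hid : ∀ p : Polynomial K, (p.map Polynomial.C).map (Polynomial.evalRingHom y.1) = p :=
      fun p => by
        rw [Polynomial.map_map]
        ext n
        simp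
    refine ⟨memP_L K (q.map Polynomial.C), fun h => h1 ?_, ?_⟩
    · rw [hak, memP_ev, memP_sbL, ← Polynomial.map_evalRingHom_eval, hid] at h
      simp [h]
    · have h2 : Polynomial.C (Polynomial.X - Polynomial.C y.1) ∣
          sb μ t (memP_L K (q.map Polynomial.C) * f - memP_L K (r.map Polynomial.C) * H) := by
        have h3 : (sb μ t (memP_L K (q.map Polynomial.C) * f -
            memP_L K (r.map Polynomial.C) * H)).map (Polynomial.evalRingHom y.1) = 0 := by
          rw [map_sub, map_mul, map_mul, memP_sbL, memP_sbL, Polynomial.map_sub,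
            Polynomial.map_mul, Polynomial.map_mul, hid, hid, hq, hr]
          ring
        refine (Polynomial.C_dvd_iff_dvd_coeff _ _).2 fun n => Polynomial.dvd_iff_isRoot.2 ?_
        have h4 := congrArg (fun p => p.coeff n) h3
        simp only [Polynomial.coeff_map, Polynomial.coeff_zero] at h4
        exact h4
      obtain ⟨P, hP⟩ := h2
      obtain ⟨a, ha⟩ := memP_dvd μ t
        (memP_L K (q.map Polynomial.C) * f - memP_L K (r.map Polynomial.C) * H)
      rw [hP, map_mul, memP_LC, map_sub, Polynomial.aeval_X, Polynomial.aeval_C,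
        algebraMap_eq] at ha
      have e : memP_L K (q.map Polynomial.C) * f = (memP_L K (r.map Polynomial.C) * H +
          a * mem μ t) + memP_L K P * (X 0 - C y.1) := by linear_combination ha
      rw [e]
      exact Submodule.add_mem_sup
        (add_mem (Ideal.mul_mem_left _ _ hH) (Ideal.mul_mem_left _ _ hm))
        (Ideal.mul_mem_left _ _ (Ideal.mem_span_singleton_self _))

end Pool.Agent.MP_a9d3bd_g
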