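import Pool.Agent.MP_a9d3bd_g.CS2Defs
import Pool.Agent.MP_a9d3bd_g.CMemP

namespace Pool.Agent.MP_a9d3bd_g

open MvPolynomial Pool.Agent.MP_a9d3bd_h Pool.Agent.MP_a9d3bd_q

variable {K : Type} [Field K] {e : ℕ} {H : R3 K} {W : Pr K (Fin 3)} {lam : Pr K (Fin 3) → R3 K → ℝ}

theorem EDGE_ev (x : Fin 3 → K) (u : Polynomial K) :
    eval x (Polynomial.aeval (X 0 : R3 K) u) = u.eval (x 0) := by
  rw [← coe_aeval_eq_eval, ← Polynomial.coe_aeval_eq_eval]
  exact (Polynomial.aeval_algHom_apply (aeval x : R3 K →ₐ[K] K) (X 0) u).symm.trans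
    (by rw [aeval_X])

theorem EDGE_pr (μ : K) (t : Fin e → K) (x : Fin 3 → K) :
    eval x (mem μ t) = 0 ↔ pr μ x = (x 0, (al μ t).eval (x 0)) := by
  rw [mem, map_sub, map_add, map_mul, eval_X, eval_X, eval_C, EDGE_ev, sub_eq_zero, pr,
    Prod.mk.injEq]
  simp

theorem EDGE_dvd (μ : K) (t : Fin e → K) (P : Polynomial (Polynomial K)) :
    mem μ t ∣ dn μ P - Polynomial.aeval (X 0 : R3 K) (P.eval (al μ t)) := by
  have h := Polynomial.hom_eval₂ P (RingHom.id _) (Polynomial.aeval (X 0 : R3 K)).toRingHom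
    (al μ t)
  rw [Polynomial.eval₂_id, RingHom.comp_id] at h
  change mem μ t ∣ dn μ P - (Polynomial.aeval (X 0 : R3 K)).toRingHom (P.eval (al μ t))
  rw [h, dn, Polynomial.eval₂_eq_eval_map, Polynomial.eval₂_eq_eval_map]
  exact Polynomial.sub_dvd_eval_sub _ _ _

theorem EDGE_fr (p f : ℕ) [Fact p.Prime] [CharP K p] {F : R3 K} (x : Fin 3 → K)
    (r : Rat3 (p ^ f) F) : eval (fun i => x i ^ p ^ f) F = eval x F ^ p ^ f := by
  rw [eval_eq', eval_eq', sum_pow_char_pow]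
  refine Finset.sum_congr rfl fun d _ => ?_
  rw [mul_pow, r d, ← Finset.prod_pow]
  congr 1
  exact Finset.prod_congr rfl fun i _ => pow_right_comm _ _ _

open Classical in
theorem EDGE_der {s : Finset K} {c y : K} (hc : c ≠ 0) (hy : y ∈ s) :
    (Polynomial.C c * ∏ x ∈ s, (Polynomial.X - Polynomial.C x)).derivative.eval y ≠ 0 := by
  rw [← Finset.mul_prod_erase s _ hy, Polynomial.derivative_C_mul, Polynomial.derivative_mul]
  simp only [Polynomial.eval_mul, Polynomial.eval_add, Polynomial.eval_C, Polynomial.eval_sub,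
    Polynomial.eval_X, sub_self, zero_mul, add_zero, Polynomial.derivative_X_sub_C,
    one_mul, Polynomial.eval_prod]
  exact mul_ne_zero hc (Finset.prod_ne_zero_iff.2 fun x hx =>
    sub_ne_zero.2 (Finset.ne_of_mem_erase hx).symm)

open Classical in
theorem EDGE (p f : ℕ) [Fact p.Prime] [CharP K p] {g : R3 K} {μ : K}
    {P : Polynomial (Polynomial K)} (hP : Hat H g μ P) {t : Fin e → K} (hg : Good H μ t)
    {Z : Pr K (Fin 3)} (hZ : IsM H μ t Z) (r1 : Rat3 (p ^ f) H) (r2 : Rat3 (p ^ f) g)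
    (r3 : μ ^ p ^ f = μ) {Ex : Set (K × K)}
    (hEx : ∀ x, eval x H = 0 → eval x g = 0 → eval x (pderiv 2 H - C μ * pderiv 1 H) = 0 →
      pr μ x ∈ Ex) (ht : t ∈ Edg (p ^ f) e μ P (Pts (p ^ f) P \ Ex)) :
    g ∉ Z.asIdeal ∧
    Polynomial.aeval (X 0 : R3 K) (P.eval (al μ t)) ∈ Ideal.span {H, g, mem μ t} ∧
    ∃ Ys : Finset (Fin 3 → K),
      (∀ x, x ∈ Ys ↔ eval x H = 0 ∧ eval x g = 0 ∧ eval x (mem μ t) = 0) ∧
      Ys.card = e * (H.totalDegree * g.totalDegree) ∧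
      (∀ x ∈ Ys, (P.eval (al μ t)).derivative.eval (x 0) ≠ 0 ∧
        eval x (pderiv 2 H - C μ * pderiv 1 H) ≠ 0 ∧ eval x (pderiv 1 g * pderiv 2 H) ≠ 0 ∧
        (x 0, x 2) ∈ Pts (p ^ f) (sb μ t H) ∧ pr μ x ∈ Pts (p ^ f) P) ∧
      ∀ φ : K × K → ℝ, ∑ s ∈ (P.eval (al μ t)).roots.toFinset, φ (s, (al μ t).eval s) =
        ∑ x ∈ Ys, φ (pr μ x) := by
  obtain ⟨-, ⟨s, hs, hq, c, hc, hu⟩, hpt⟩ := ht
  obtain ⟨a, b, hab⟩ := Ideal.mem_span_pair.1 hP.mem
  obtain ⟨d, hd⟩ := EDGE_dvd μ t P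
  have e1 : Polynomial.aeval (X 0 : R3 K) (P.eval (al μ t)) = a * H + b * g - d * mem μ t := by
    linear_combination -hd - hab
  have hI : ∀ I : Ideal (R3 K), H ∈ I → g ∈ I → mem μ t ∈ I →
      Polynomial.aeval (X 0 : R3 K) (P.eval (al μ t)) ∈ I := fun I h1 h2 h3 =>
    e1 ▸ sub_mem (add_mem (I.mul_mem_left _ h1) (I.mul_mem_left _ h2)) (I.mul_mem_left _ h3)
  have u0 : P.eval (al μ t) ≠ 0 := by
    rw [hu]
    exact mul_ne_zero (Polynomial.C_ne_zero.2 hc)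
      (Polynomial.monic_prod_of_monic _ _ fun x _ => Polynomial.monic_X_sub_C x).ne_zero
  have root : ∀ y, (P.eval (al μ t)).eval y = 0 ↔ y ∈ s := fun y => by
    rw [hu]
    simp [Polynomial.eval_prod, Finset.prod_eq_zero_iff, sub_eq_zero, hc]
  have on : ∀ x, eval x H = 0 → eval x g = 0 → eval x (mem μ t) = 0 →
      x 0 ∈ s ∧ pr μ x ∈ Pts (p ^ f) P \ Ex := fun x h1 h2 h3 => by
    have h : (P.eval (al μ t)).eval (x 0) = 0 := by
      rw [← EDGE_ev, e1, map_sub, map_add, map_mul, map_mul, map_mul, h1, h2, h3]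
      ring
    exact ⟨(root _).1 h, by rw [(EDGE_pr μ t x).1 h3]; exact hpt _ h⟩
  have ex : ∀ y, ∃ x : Fin 3 → K, y ∈ s →
      eval x H = 0 ∧ eval x g = 0 ∧ pr μ x = (y, (al μ t).eval y) := fun y => by
    by_cases h : y ∈ s
    · obtain ⟨x, hx⟩ := hP.ex _ (hpt y ((root y).2 h)).1.2.2.1
      exact ⟨x, fun _ => hx⟩
    · exact ⟨0, fun h' => absurd h' h⟩
  choose χ hχ using ex
  have c0 : ∀ y ∈ s, χ y 0 = y := fun y hy => congrArg Prod.fst (hχ y hy).2.2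
  have inj : Set.InjOn χ s := fun y hy y' hy' h => by rw [← c0 y hy, h, c0 y' hy']
  have hY : ∀ x, x ∈ s.image χ ↔ eval x H = 0 ∧ eval x g = 0 ∧ eval x (mem μ t) = 0 := fun x => by
    rw [Finset.mem_image]
    refine ⟨fun ⟨y, hy, h⟩ => ?_, fun ⟨h1, h2, h3⟩ => ?_⟩
    · subst h
      exact ⟨(hχ y hy).1, (hχ y hy).2.1,
        (EDGE_pr μ t _).2 (by rw [c0 y hy]; exact (hχ y hy).2.2)⟩
    · obtain ⟨k1, k2⟩ := on x h1 h2 h3
      exact ⟨x 0, k1, (hP.uni x _ h1 h2 (hχ _ k1).1 (hχ _ k1).2.1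
        (((EDGE_pr μ t x).1 h3).trans (hχ _ k1).2.2.symm) k2.1.2.2.2).1.symm⟩
  refine ⟨fun h => ?_, hI _ (Ideal.subset_span (by simp)) (Ideal.subset_span (by simp))
    (Ideal.subset_span (by simp)), s.image χ, hY, ?_, fun x hx => ?_, fun φ => ?_⟩
  · have h1 := (hZ _).1 (hI Z.asIdeal ((hZ H).2 dvd_rfl) h
      ((hZ _).2 (by rw [memP_sbm]; exact dvd_zero _)))
    rw [memP_ae] at h1
    have h2 := Polynomial.natDegree_le_of_dvd h1 (Polynomial.C_ne_zero.2 u0)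
    rw [Polynomial.natDegree_C, Nat.le_zero] at h2
    exact hg.2.1.sep () (Polynomial.derivative_of_natDegree_zero h2)
  · rw [Finset.card_image_of_injOn inj, hs, hP.deg]
  · obtain ⟨h1, h2, h3⟩ := (hY x).1 hx
    obtain ⟨k1, k2, k3⟩ := on x h1 h2 h3
    have k4 : eval x (pderiv 2 H - C μ * pderiv 1 H) ≠ 0 := fun h => k3 (hEx x h1 h2 h)
    have q0 : 0 < p ^ f := pow_pos (Fact.out : p.Prime).pos f
    have k5 := (hP.uni x (fun i => x i ^ p ^ f) h1 h2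
      (by rw [EDGE_fr p f x r1, h1, zero_pow q0.ne']) (by rw [EDGE_fr p f x r2, h2, zero_pow q0.ne'])
      (Prod.ext k2.1.symm (by
        have := k2.2.1
        simp only [pr] at this ⊢
        rw [← this, add_pow_char_pow, mul_pow, r3])) k2.2.2.2)
    have k6 := (memP_pt μ t x).1 h3
    refine ⟨by rw [hu]; exact EDGE_der hc k1, k4, k5.2,
      ⟨hq _ k1, (congrFun k5.1 2).symm, ?_, ?_⟩, k2⟩
    · rw [← memP_ev, ← k6, h1]
    · rw [memP_der, ← memP_ev, ← k6]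
      exact k4
  · have h : (P.eval (al μ t)).roots.toFinset = s := by
      ext y
      rw [Multiset.mem_toFinset, Polynomial.mem_roots u0, Polynomial.IsRoot.def, root]
    rw [h, Finset.sum_image inj]
    exact Finset.sum_congr rfl fun y hy => by rw [(hχ y hy).2.2]

end Pool.Agent.MP_a9d3bd_g
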