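import Pool.Agent.MP_a9d3bd_g.AGI1
import Pool.Agent.MP_a9d3bd_g.AGI2

namespace Pool.Agent.MP_a9d3bd_g

open Polynomial

theorem EXG_frac {R R' : Type} [CommRing R] [IsDomain R] [IsIntegrallyClosed R] [CommRing R']
    [IsDomain R'] [IsIntegrallyClosed R'] (β : R →+* R') (hβ : Function.Injective β)
    (hs : ∀ z : R', ∃ a b : R, b ≠ 0 ∧ z * β b = β a) {F : R[X]} (hm : IsUnit F.leadingCoeff)
    (h : Irreducible F) : Irreducible (F.map β) := by
  obtain ⟨c, hc⟩ := hm.exists_left_inv
  have u : IsUnit c := IsUnit.of_mul_eq_one _ hc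
  have hM := monic_C_mul_of_mul_leadingCoeff_eq_one hc
  have hI := (irreducible_isUnit_mul (u.map C)).2 h
  let := ((algebraMap R' (FractionRing R')).comp β).toAlgebra
  have hi := IsFractionRing.injective R' (FractionRing R')
  have ea : ∀ a, algebraMap R (FractionRing R') a = algebraMap R' (FractionRing R') (β a) :=
    fun _ => rfl
  have : FaithfulSMul R (FractionRing R') :=
    (faithfulSMul_iff_algebraMap_injective _ _).2 (hi.comp hβ)
  have : IsFractionRing R (FractionRing R') := by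
    refine IsFractionRing.of_field _ _ fun z => ?_
    obtain ⟨p, q, hq, rfl⟩ := IsFractionRing.div_surjective (A := R') z
    obtain ⟨a, b, hb, e1⟩ := hs p
    obtain ⟨a', b', hb', e2⟩ := hs q
    have n : ∀ r : R, r ≠ 0 → algebraMap R' (FractionRing R') (β r) ≠ 0 := fun r hr =>
      (map_ne_zero_iff _ hi).2 ((map_ne_zero_iff _ hβ).2 hr)
    have nq : algebraMap R' (FractionRing R') q ≠ 0 :=
      (map_ne_zero_iff _ hi).2 (nonZeroDivisors.ne_zero hq)
    refine ⟨a * b', a' * b, ?_⟩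
    have n1 := n b hb
    have n2 := n b' hb'
    simp only [ea, map_mul, ← e1, ← e2]
    field_simp
  have k := (hM.irreducible_iff_irreducible_map_fraction_map (K := FractionRing R')).1 hI
  have k2 : Irreducible ((C c * F).map β) := by
    rw [(hM.map β).irreducible_iff_irreducible_map_fraction_map (K := FractionRing R'), map_map]
    exact k
  rwa [Polynomial.map_mul, map_C, irreducible_isUnit_mul ((u.map _).map C)] at k2

/-- The substitution `T ↦ g (S - s)`. -/
noncomputable def EXG_b {E E' : Type} [Field E] [Field E'] (j : E[X] →+* E') (s : E) :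
    E[X][X] →+* E'[X] :=
  eval₂RingHom (mapRingHom (j.comp C)) (C (j X) * (X - C (j (C s))))

theorem EXG_binj {E E' : Type} [Field E] [Field E'] (j : E[X] →+* E') (hj : Function.Injective j)
    (s : E) : Function.Injective (EXG_b j s) := by
  have e : EXG_b j s = ((mapRingHom j).comp (Bivariate.swap (R := E)).toRingEquiv.toRingHom).comp
      (compRingHom (C (X - C s) * X)) := by
    refine Polynomial.ringHom_ext' (Polynomial.ringHom_ext (fun a => ?_) ?_) ?_
    · simp [EXG_b, Bivariate.swap_apply]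
    · simp [EXG_b, Bivariate.swap_apply]
    · simp [EXG_b, mul_comm, Bivariate.swap_apply]
  rw [e]
  refine ((Polynomial.map_injective j hj).comp (Bivariate.swap (R := E)).injective).comp ?_
  refine (injective_iff_map_eq_zero (compRingHom (C (X - C s) * X))).2 fun p hp => ?_
  exact (comp_C_mul_X_eq_zero_iff (mem_nonZeroDivisors_of_ne_zero (X_sub_C_ne_zero s))).1 hp

theorem EXG_bsur {E E' : Type} [Field E] [Field E'] [Algebra E[X] E'] [IsFractionRing E[X] E']
    (s : E) (z : E'[X]) : ∃ a b, b ≠ 0 ∧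
      z * EXG_b (algebraMap E[X] E') s b = EXG_b (algebraMap E[X] E') s a := by
  have hj := IsFractionRing.injective E[X] E'
  have hβ := EXG_binj _ hj s
  set β := EXG_b (algebraMap E[X] E') s with hb
  have add : ∀ y z : E'[X], (∃ a b, b ≠ 0 ∧ y * β b = β a) → (∃ a b, b ≠ 0 ∧ z * β b = β a) →
      ∃ a b, b ≠ 0 ∧ (y + z) * β b = β a := by
    rintro y z ⟨a, b, h, e⟩ ⟨a', b', h', e'⟩
    exact ⟨a * b' + a' * b, b * b', mul_ne_zero h h', by
      simp only [map_add, map_mul, ← e, ← e']; ring⟩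
  have mul : ∀ y z : E'[X], (∃ a b, b ≠ 0 ∧ y * β b = β a) → (∃ a b, b ≠ 0 ∧ z * β b = β a) →
      ∃ a b, b ≠ 0 ∧ (y * z) * β b = β a := by
    rintro y z ⟨a, b, h, e⟩ ⟨a', b', h', e'⟩
    exact ⟨a * a', b * b', mul_ne_zero h h', by simp only [map_mul, ← e, ← e']; ring⟩
  have pw : ∀ y : E'[X], (∃ a b, b ≠ 0 ∧ y * β b = β a) → ∀ n : ℕ,
      ∃ a b, b ≠ 0 ∧ y ^ n * β b = β a := by
    rintro y ⟨a, b, h, e⟩ n
    exact ⟨a ^ n, b ^ n, pow_ne_zero n h, by simp only [map_pow, ← e, mul_pow]⟩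
  have c1 : ∀ p : E[X], ∃ a b, b ≠ 0 ∧ C (algebraMap E[X] E' p) * β b = β a := by
    intro p
    induction p using Polynomial.induction_on' with
    | add p q hp hq => simpa only [map_add] using add _ _ hp hq
    | monomial n c =>
      rw [← C_mul_X_pow_eq_monomial, map_mul, map_mul, map_pow, map_pow]
      refine mul _ _ ⟨C (C c), 1, one_ne_zero, by simp [hb, EXG_b]⟩ (pw _ ⟨X, C (X - C s),
        C_ne_zero.2 (X_sub_C_ne_zero s), by simp [hb, EXG_b]⟩ n)
  have c2 : ∀ c : E', ∃ a b, b ≠ 0 ∧ C c * β b = β a := by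
    intro c
    obtain ⟨p, q, hq, rfl⟩ := IsFractionRing.div_surjective (A := E[X]) c
    have nq : algebraMap E[X] E' q ≠ 0 := (map_ne_zero_iff _ hj).2 (nonZeroDivisors.ne_zero hq)
    obtain ⟨a, b, h, e⟩ := c1 p
    obtain ⟨a', b', h', e'⟩ := c1 q
    have n : a' ≠ 0 := by
      rintro rfl
      rw [map_zero] at e'
      exact mul_ne_zero (C_ne_zero.2 nq) ((map_ne_zero_iff _ hβ).2 h') e'
    refine ⟨a * b', b * a', mul_ne_zero h n, ?_⟩
    have e3 : C (algebraMap E[X] E' p / algebraMap E[X] E' q) * C (algebraMap E[X] E' q) =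
        C (algebraMap E[X] E' p) := by rw [← C_mul, div_mul_cancel₀ _ nq]
    simp only [map_mul, ← e, ← e']
    rw [← e3]
    ring
  induction z using Polynomial.induction_on' with
  | add p q hp hq => exact add _ _ hp hq
  | monomial n c =>
    rw [← C_mul_X_pow_eq_monomial]
    exact mul _ _ (c2 c) (pw _ ⟨C X, 1, one_ne_zero, by simp [hb, EXG_b]⟩ n)

variable {K : Type} [Field K]

/-- The substitution `(a, b - μ θ, θ)`. -/
noncomputable def EXG_sb {B : Type} [CommRing B] (f : K →+* B) (a b μ : B) :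
    MvPolynomial (Fin 3) K →+* B[X] :=
  MvPolynomial.eval₂Hom (C.comp f) ![C a, C b - C μ * X, X]

theorem EXG_map {B B' : Type} [CommRing B] [CommRing B'] (f : K →+* B) (φ : B →+* B') (a b μ : B)
    (F : MvPolynomial (Fin 3) K) :
    (EXG_sb f a b μ F).map φ = EXG_sb (φ.comp f) (φ a) (φ b) (φ μ) F := by
  have : (mapRingHom φ).comp (EXG_sb f a b μ) = EXG_sb (φ.comp f) (φ a) (φ b) (φ μ) := by
    refine MvPolynomial.ringHom_ext (fun c => by simp [EXG_sb]) fun i => ?_
    fin_cases i <;> simp [EXG_sb]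
  exact RingHom.congr_fun this F

theorem EXG_comp {E B : Type} [Field E] [CommRing B] (j : K →+* E) (f : E →+* B) (a b μ : B)
    (F : MvPolynomial (Fin 3) K) :
    EXG_sb f a b μ (MvPolynomial.map j F) = EXG_sb (f.comp j) a b μ F := by
  have : (EXG_sb f a b μ).comp (MvPolynomial.map j) = EXG_sb (f.comp j) a b μ := by
    refine MvPolynomial.ringHom_ext (fun c => by simp [EXG_sb]) fun i => ?_
    fin_cases i <;> simp [EXG_sb]
  exact RingHom.congr_fun this F

theorem EXG_ev {B B' : Type} [CommRing B] [CommRing B'] (f : K →+* B) (φ : B →+* B') (a b μ : B)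
    (j : K →+* B') (hj : φ.comp f = j) (x : Fin 3 → K) (h0 : φ a = j (x 0))
    (h1 : φ b - φ μ * j (x 2) = j (x 1)) (F : MvPolynomial (Fin 3) K) :
    (EXG_sb f a b μ F).eval₂ φ (j (x 2)) = j (MvPolynomial.eval x F) := by
  have : (eval₂RingHom φ (j (x 2))).comp (EXG_sb f a b μ) = j.comp (MvPolynomial.eval x) := by
    refine MvPolynomial.ringHom_ext (fun c => by simp [EXG_sb, ← hj]) fun i => ?_
    fin_cases i <;> simp [EXG_sb, h0, h1]
  exact RingHom.congr_fun this F

theorem EXG_der {B : Type} [CommRing B] (f : K →+* B) (a b μ : B) (F : MvPolynomial (Fin 3) K) :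
    derivative (EXG_sb f a b μ F) = EXG_sb f a b μ (MvPolynomial.pderiv 2 F) -
      C μ * EXG_sb f a b μ (MvPolynomial.pderiv 1 F) := by
  induction F using MvPolynomial.induction_on with
  | C c => simp [EXG_sb]
  | add p q hp hq => simp only [map_add, hp, hq]; ring
  | mul_X p i hp =>
    have e0 : EXG_sb f a b μ (MvPolynomial.X 0) = C a := by simp [EXG_sb]
    have e1 : EXG_sb f a b μ (MvPolynomial.X 1) = C b - C μ * X := by simp [EXG_sb]
    have e2 : EXG_sb f a b μ (MvPolynomial.X 2) = X := by simp [EXG_sb]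
    simp only [map_mul, derivative_mul, hp, Derivation.leibniz, smul_eq_mul, map_add]
    fin_cases i <;> simp [e0, e1, e2, MvPolynomial.pderiv_X] <;> ring

/-- The leading coefficient as a polynomial in `μ`. -/
noncomputable def EXG_lc (F : MvPolynomial (Fin 3) K) (m : ℕ) : K[X] :=
  ∑ d ∈ F.support, if d 1 + d 2 = m then C (MvPolynomial.coeff d F) * (-X) ^ d 1 else 0

theorem EXG_deg {F : MvPolynomial (Fin 3) K} {d : Fin 3 →₀ ℕ} (hd : d ∈ F.support) :
    d 0 + d 1 + d 2 ≤ F.totalDegree := by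
  have := MvPolynomial.le_totalDegree hd
  rwa [Finsupp.sum_fintype _ _ (fun _ => rfl), Fin.sum_univ_three] at this

theorem EXG_top {B : Type} [CommRing B] (f : K →+* B) (a b μ : B) (F : MvPolynomial (Fin 3) K) :
    (EXG_sb f a b μ F).natDegree ≤ F.totalDegree ∧
      (EXG_sb f a b μ F).coeff F.totalDegree = (EXG_lc F F.totalDegree).eval₂ f μ := by
  have e : EXG_sb f a b μ F = ∑ d ∈ F.support,
      C (f (MvPolynomial.coeff d F) * a ^ d 0) * (C b - C μ * X) ^ d 1 * X ^ d 2 := by
    conv_lhs => rw [F.as_sum]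
    rw [map_sum]
    refine Finset.sum_congr rfl fun d _ => ?_
    simp [EXG_sb, Finsupp.prod_fintype, Fin.prod_univ_three, mul_assoc]
  have l1 : (C b - C μ * X).natDegree ≤ 1 := by compute_degree
  have l2 : ∀ (c : B) (d : Fin 3 →₀ ℕ),
      (C c * (C b - C μ * X) ^ d 1 * X ^ d 2).natDegree ≤ d 1 + d 2 := fun c d =>
    natDegree_mul_le.trans (add_le_add ((natDegree_C_mul_le _ _).trans
      (natDegree_pow_le.trans (by nlinarith))) (natDegree_X_pow_le _))
  rw [e]
  refine ⟨natDegree_sum_le_of_forall_le _ _ fun d hd => (l2 _ d).trans ?_, ?_⟩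
  · have := EXG_deg hd
    omega
  · rw [finsetSum_coeff, EXG_lc, eval₂_finsetSum]
    refine Finset.sum_congr rfl fun d hd => ?_
    have h3 := EXG_deg hd
    split_ifs with h
    · have h0 : d 0 = 0 := by omega
      have k := coeff_pow_of_natDegree_le (m := d 1) l1
      rw [mul_one] at k
      rw [← h, coeff_mul_X_pow, coeff_C_mul, k, h0]
      simp [eval₂_pow]
    · rw [eval₂_zero]
      exact coeff_eq_zero_of_natDegree_lt ((l2 _ d).trans_lt (by omega))

theorem EXG_lc_ne {F : MvPolynomial (Fin 3) K}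
    (h : MvPolynomial.coeff (Finsupp.single 2 F.totalDegree) F = 1) :
    EXG_lc F F.totalDegree ≠ 0 := by
  intro h0
  have k := congrArg (eval 0) h0
  rw [EXG_lc, eval_finsetSum, Finset.sum_eq_single (Finsupp.single 2 F.totalDegree)] at k
  · simp [h] at k
  · intro d hd hne
    have h3 := EXG_deg hd
    split_ifs with h1
    · have : d 1 ≠ 0 := fun h4 => hne (by
        ext i
        fin_cases i <;> simp <;> omega)
      simp [this]
    · simp
  · intro hn
    simp [MvPolynomial.notMem_support_iff.1 hn]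

theorem EXG_iso (γ : K[X]) (μ : K) {F : MvPolynomial (Fin 3) K} (h : Irreducible F) :
    Irreducible (EXG_sb (C.comp C : K →+* K[X][X]) (C X) (X + C γ) (C (C μ)) F) := by
  let ψ : K[X] →+* MvPolynomial (Fin 3) K := eval₂RingHom MvPolynomial.C (MvPolynomial.X 0)
  let Φ := EXG_sb (C.comp C : K →+* K[X][X]) (C X) (X + C γ) (C (C μ))
  let Ψ : K[X][X][X] →+* MvPolynomial (Fin 3) K := eval₂RingHom (eval₂RingHom ψ
    (MvPolynomial.X 1 + MvPolynomial.C μ * MvPolynomial.X 2 - ψ γ)) (MvPolynomial.X 2)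
  have e : Φ.comp ψ = C.comp C :=
    Polynomial.ringHom_ext (fun c => by simp [Φ, ψ, EXG_sb]) (by simp [Φ, ψ, EXG_sb])
  have e' : ∀ p, Φ (ψ p) = C (C p) := fun p => RingHom.congr_fun e p
  have e0 : Φ (MvPolynomial.X 0) = C (C X) := by simp [Φ, EXG_sb]
  have e1 : Φ (MvPolynomial.X 1) = C (X + C γ) - C (C (C μ)) * X := by simp [Φ, EXG_sb]
  have e2 : Φ (MvPolynomial.X 2) = X := by simp [Φ, EXG_sb]
  have e3 : ∀ c, Φ (MvPolynomial.C c) = C (C (C c)) := fun c => by simp [Φ, EXG_sb]
  have h1 : Φ.comp Ψ = RingHom.id _ := by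
    refine Polynomial.ringHom_ext' (Polynomial.ringHom_ext (fun a => ?_) ?_) ?_
    · simp [Ψ, e']
    · simp [Ψ, e', e1, e2, e3]
    · simp [Ψ, e2]
  have h2 : Ψ.comp Φ = RingHom.id _ := by
    refine MvPolynomial.ringHom_ext (fun c => by simp [e3, Ψ, ψ]) fun i => ?_
    fin_cases i
    · simp [e0, Ψ, ψ]
    · simp [e1, Ψ, ψ]
    · simp [e2, Ψ]
  exact (MulEquiv.irreducible_iff (RingEquiv.ofRingHom Φ Ψ h1 h2).toMulEquiv).2 h

end Pool.Agent.MP_a9d3bd_g
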