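import Pool.Agent.MP_a9d3bd_g.CDefs
import Pool.Agent.MP_a9d3bd_g.ANF

namespace Pool.Agent.MP_a9d3bd_g

open MvPolynomial Pool.Agent.MP_a9d3bd_h Pool.Agent.MP_a9d3bd_q

variable {K : Type} [Field K] {e : ℕ} {H : R3 K} {W : Pr K (Fin 3)}
  {lam : Pr K (Fin 3) → R3 K → ℝ}

section
open Polynomial hiding C X map coeff monomial aeval eval

variable {R S : Type} [CommRing R] [CommRing S]

/-- Degree at most `n`, with constant coefficient in degree `n`. -/
def GOODN_Q (n : ℕ) (P : R[X][X]) : Prop := P.natDegree ≤ n ∧ (P.coeff n).natDegree ≤ 0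

theorem GOODN_mono {n m : ℕ} {P : R[X][X]} (h : GOODN_Q n P) (hm : n ≤ m) : GOODN_Q m P := by
  rcases hm.eq_or_lt with rfl | h1
  · exact h
  · exact ⟨h.1.trans hm, by rw [coeff_eq_zero_of_natDegree_lt (h.1.trans_lt h1), natDegree_zero]⟩

theorem GOODN_mul {n m : ℕ} {P P' : R[X][X]} (h : GOODN_Q n P) (h' : GOODN_Q m P') :
    GOODN_Q (n + m) (P * P') :=
  ⟨natDegree_mul_le.trans (add_le_add h.1 h'.1), by
    rw [coeff_mul_add_eq_of_natDegree_le h.1 h'.1]
    exact natDegree_mul_le.trans (add_le_add h.2 h'.2)⟩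

theorem GOODN_pow {P : R[X][X]} (h : GOODN_Q 1 P) (n : ℕ) : GOODN_Q n (P ^ n) := by
  induction n with
  | zero => exact ⟨by simp, by simp⟩
  | succ n ih => rw [pow_succ]; exact GOODN_mul ih h

theorem GOODN_ev (κ : K →+* R) (v : Fin 3 → R[X][X]) (hv : ∀ i, GOODN_Q 1 (v i)) (H : R3 K) :
    GOODN_Q H.totalDegree (eval₂ (Polynomial.C.comp (Polynomial.C.comp κ)) v H) := by
  rw [eval₂_eq']
  refine Finset.sum_induction _ (GOODN_Q H.totalDegree) (fun a b ha hb => ⟨?_, ?_⟩)
    ⟨by simp, by simp⟩ fun d hd => ?_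
  · exact natDegree_add_le_of_degree_le ha.1 hb.1
  · rw [Polynomial.coeff_add]
    exact natDegree_add_le_of_degree_le ha.2 hb.2
  · have h1 := le_totalDegree hd
    rw [Finsupp.sum_fintype _ _ fun _ => rfl, Fin.sum_univ_three] at h1
    rw [Fin.prod_univ_three]
    refine GOODN_mono (GOODN_mul (n := 0) ⟨by simp, by simp⟩ (GOODN_mul (GOODN_mul
      (GOODN_pow (hv 0) _) (GOODN_pow (hv 1) _)) (GOODN_pow (hv 2) _))) (by omega)

theorem GOODN_cmp (φ : R →+* S) (κ : K →+* R[X][X]) (v : Fin 3 → R[X][X]) (H : R3 K) :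
    (eval₂ κ v H).map (mapRingHom φ) = eval₂ (S₁ := S[X][X]) ((mapRingHom (mapRingHom φ)).comp κ)
      (fun i => (v i).map (mapRingHom φ)) H :=
  eval₂_comp_left (S₁ := R[X][X]) (S₂ := S[X][X]) (mapRingHom (mapRingHom φ)) κ v H

/-- The monic normalisation. -/
noncomputable def GOODN_G (m : ℕ) (c : R) (F : R[X]) : R[X] :=
  Polynomial.X ^ m + ∑ i ∈ Finset.range m, Polynomial.monomial i (F.coeff i * c ^ (m - 1 - i))

theorem GOODN_coeff (m : ℕ) (c : R) (F : R[X]) (i : ℕ) : (GOODN_G m c F).coeff i =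
    if i < m then F.coeff i * c ^ (m - 1 - i) else if i = m then 1 else 0 := by
  simp only [GOODN_G, Polynomial.coeff_add, Polynomial.coeff_X_pow, finsetSum_coeff,
    Polynomial.coeff_monomial, Finset.sum_ite_eq', Finset.mem_range]
  split_ifs <;> first | omega | simp

theorem GOODN_map (φ : R →+* S) (m : ℕ) (c : R) (F : R[X]) :
    (GOODN_G m c F).map φ = GOODN_G m (φ c) (F.map φ) := by
  simp [GOODN_G, Polynomial.map_sum]

theorem GOODN_deg [Nontrivial R] (m : ℕ) (c : R) (F : R[X]) :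
    (GOODN_G m c F).IsMonicOfDegree m :=
  (isMonicOfDegree_iff _ _).2 ⟨natDegree_le_iff_coeff_eq_zero.2 fun k hk => by
    rw [GOODN_coeff, if_neg (by omega), if_neg (by omega)], by
    rw [GOODN_coeff, if_neg (by omega), if_pos rfl]⟩

theorem GOODN_irr {m : ℕ} (hm : 0 < m) {c : R} (hc : IsUnit c) {F : R[X]} (h1 : F.natDegree ≤ m)
    (h2 : F.coeff m = c) : Irreducible (GOODN_G m c F) ↔ Irreducible F := by
  let _ := hc.invertible
  have h3 : algEquivCMulXAddC c 0 (GOODN_G m c F) = Polynomial.C (c ^ (m - 1)) * F := by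
    rw [algEquivCMulXAddC_apply, map_zero, add_zero, ← comp_eq_aeval]
    ext i
    rw [comp_C_mul_X_coeff, GOODN_coeff, Polynomial.coeff_C_mul]
    split_ifs with h4 h5
    · rw [mul_assoc, ← pow_add, mul_comm, show m - 1 - i + i = m - 1 by omega]
    · rw [h5, h2, one_mul, ← pow_succ, show m - 1 + 1 = m by omega]
    · rw [zero_mul, coeff_eq_zero_of_natDegree_lt (by omega), mul_zero]
  rw [← MulEquiv.irreducible_iff (algEquivCMulXAddC c 0), h3,
    irreducible_isUnit_mul ((hc.pow _).map Polynomial.C)]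

theorem GOODN_ne (φ : R →+* S) (P : R[X][X]) : P.map (mapRingHom φ) ≠ 0 ↔
    ∃ d ∈ P.support.biUnion (fun i => (P.coeff i).support.map ⟨Prod.mk i, Prod.mk_right_injective i⟩),
      φ ((P.coeff d.1).coeff d.2) ≠ 0 := by
  constructor
  · intro h
    by_contra hc
    refine h (Polynomial.ext fun i => Polynomial.ext fun j => ?_)
    rw [Polynomial.coeff_map, coe_mapRingHom, Polynomial.coeff_map, Polynomial.coeff_zero,
      Polynomial.coeff_zero]
    by_contra h1
    have h2 : (P.coeff i).coeff j ≠ 0 := fun h3 => h1 (by rw [h3, map_zero])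
    refine hc ⟨(i, j), Finset.mem_biUnion.2 ⟨i, Polynomial.mem_support_iff.2 fun h3 => h2 ?_,
      Finset.mem_map.2 ⟨j, Polynomial.mem_support_iff.2 h2, rfl⟩⟩, h1⟩
    rw [h3, Polynomial.coeff_zero]
  · rintro ⟨d, -, h⟩ h1
    have h2 := congrArg (fun Q : S[X][X] => (Q.coeff d.1).coeff d.2) h1
    simp only [Polynomial.coeff_map, coe_mapRingHom, Polynomial.coeff_zero] at h2
    exact h h2

end

/-- File CGoodN.lean, uses NF. -/
theorem GOODN (h : Srf H W) (he : 2 ≤ e) :
    ∃ N : Finset (MvPolynomial (Option (Fin e)) K), ∀ (L : Type) [Field L] [IsAlgClosed L]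
      [Algebra K L] (μ : L) (t : Fin e → L), Good (map (algebraMap K L) H) μ t ↔
        ∃ ν ∈ N, aeval (fun o : Option (Fin e) => o.elim μ t) ν ≠ 0 := by
  classical
  have _ := he
  have hm : 0 < H.totalDegree := lt_of_lt_of_le two_pos h.two
  let a : Polynomial (MvPolynomial (Option (Fin e)) K) :=
    Polynomial.C (X none) * Polynomial.X ^ e +
      ∑ i : Fin e, Polynomial.C (X (some i)) * Polynomial.X ^ (i : ℕ)
  obtain ⟨F, hF⟩ : ∃ F : Polynomial (Polynomial (MvPolynomial (Option (Fin e)) K)),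
      F = eval₂ (S₁ := Polynomial (Polynomial (MvPolynomial (Option (Fin e)) K)))
        (Polynomial.C.comp (Polynomial.C.comp C)) ![Polynomial.C Polynomial.X,
        Polynomial.C a - Polynomial.C (Polynomial.C (X none)) * Polynomial.X, Polynomial.X] H :=
    ⟨_, rfl⟩
  have hQ : GOODN_Q H.totalDegree F := by
    rw [hF]
    refine GOODN_ev _ _ (fun i => ?_) H
    fin_cases i
    · exact ⟨by simp, by simp⟩
    · refine ⟨?_, by simp⟩
      exact (Polynomial.natDegree_sub_le _ _).trans (max_le (by simp)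
        ((Polynomial.natDegree_C_mul_le _ _).trans Polynomial.natDegree_X_le))
    · exact ⟨Polynomial.natDegree_X_le, by simp⟩
  obtain ⟨c, hc⟩ : ∃ c, F.coeff H.totalDegree = Polynomial.C c :=
    ⟨_, Polynomial.eq_C_of_natDegree_le_zero hQ.2⟩
  obtain ⟨G, hG⟩ : ∃ G, G = GOODN_G H.totalDegree (Polynomial.C c) F := ⟨_, rfl⟩
  let D := G.support.sup fun i => (G.coeff i).natDegree
  have hD : ∀ i, (G.coeff i).natDegree ≤ D := fun i => by
    by_cases h1 : i ∈ G.support
    · exact Finset.le_sup (f := fun i => (G.coeff i).natDegree) h1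
    · rw [Polynomial.notMem_support_iff.1 h1, Polynomial.natDegree_zero]
      exact Nat.zero_le _
  obtain ⟨J, hJ⟩ := NF K H.totalDegree D hm
  let P := Polynomial.derivative F
  refine ⟨((P.support.biUnion fun i =>
    (P.coeff i).support.map ⟨Prod.mk i, Prod.mk_right_injective i⟩) ×ˢ J).image fun z =>
      X none * c * (P.coeff z.1.1).coeff z.1.2 *
        aeval (fun ij : Fin H.totalDegree × Fin (D + 1) => (G.coeff ij.1).coeff ij.2) z.2,
    fun L _ _ _ μ t => ?_⟩
  obtain ⟨φ, hφ⟩ : ∃ φ : MvPolynomial (Option (Fin e)) K →ₐ[K] L,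
    φ = aeval (fun o : Option (Fin e) => o.elim μ t) := ⟨_, rfl⟩
  rw [← hφ]
  have e0 : φ (X none) = μ := by simp [hφ]
  have e1 : sb μ t (map (algebraMap K L) H) = F.map (Polynomial.mapRingHom φ.toRingHom) := by
    rw [hF, GOODN_cmp, sb, aeval_def, eval₂_map]
    congr 1
    · ext1 k
      simp
    · funext i
      fin_cases i <;> simp [a, al, hφ, Polynomial.map_sum]
  have e2 : (map (algebraMap K L) H).totalDegree = H.totalDegree := by
    simp only [totalDegree, support_map_of_injective _ (algebraMap K L).injective]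
  have e3 : (F.map (Polynomial.mapRingHom φ.toRingHom)).coeff H.totalDegree =
      Polynomial.C (φ c) := by
    rw [Polynomial.coeff_map, hc]
    simp
  have e4 := (Polynomial.natDegree_map_le (f := Polynomial.mapRingHom φ.toRingHom)).trans hQ.1
  have e5 : G.map (Polynomial.mapRingHom φ.toRingHom) = GOODN_G H.totalDegree
      (Polynomial.C (φ c)) (F.map (Polynomial.mapRingHom φ.toRingHom)) := by
    rw [hG, GOODN_map]
    simp
  have e6 := hJ L (G.map (Polynomial.mapRingHom φ.toRingHom)) (e5 ▸ (GOODN_deg _ _ _).monic)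
    (e5 ▸ (GOODN_deg _ _ _).natDegree_eq) fun i => by
      rw [Polynomial.coeff_map]
      exact Polynomial.natDegree_map_le.trans (hD i)
  have e7 : ∀ Φ, aeval (fun ij : Fin H.totalDegree × Fin (D + 1) =>
      ((G.map (Polynomial.mapRingHom φ.toRingHom)).coeff ij.1).coeff ij.2) Φ = φ (aeval
        (fun ij : Fin H.totalDegree × Fin (D + 1) => (G.coeff ij.1).coeff ij.2) Φ) := fun Φ => by
    rw [← AlgHom.comp_apply, comp_aeval]
    simp
  have e8 := GOODN_ne φ.toRingHom P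
  rw [← Polynomial.derivative_map] at e8
  simp only [e7] at e6
  rw [Good, e1, e2]
  constructor
  · rintro ⟨h1, h2, h3⟩
    have h4 := h2.lead ()
    rw [Polynomial.leadingCoeff, h3, e3] at h4
    obtain ⟨d, hd, h5⟩ := e8.1 (h2.sep ())
    obtain ⟨Φ, h6, h7⟩ := e6.1 (e5 ▸ (GOODN_irr hm h4 e4 e3).2 (h2.irr ()))
    refine ⟨_, Finset.mem_image_of_mem _ (Finset.mem_product.2 (show (d, Φ).1 ∈ _ ∧ (d, Φ).2 ∈ _
      from ⟨hd, h6⟩)), ?_⟩
    rw [map_mul, map_mul, map_mul, e0]
    exact mul_ne_zero (mul_ne_zero (mul_ne_zero h1 (Polynomial.isUnit_C.1 h4).ne_zero) h5) h7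
  · rintro ⟨ν, h1, h2⟩
    obtain ⟨z, hz, rfl⟩ := Finset.mem_image.1 h1
    obtain ⟨h3, h4⟩ := Finset.mem_product.1 hz
    simp only [map_mul, e0, ne_eq, mul_eq_zero, not_or] at h2
    obtain ⟨⟨⟨h5, h6⟩, h7⟩, h8⟩ := h2
    have h9 : IsUnit (Polynomial.C (φ c)) := Polynomial.isUnit_C.2 (Ne.isUnit h6)
    have h10 := Polynomial.natDegree_eq_of_le_of_coeff_ne_zero e4 (e3 ▸ h9.ne_zero)
    refine ⟨h5, ⟨fun _ => (GOODN_irr hm h9 e4 e3).1 (e5 ▸ e6.2 ⟨_, h4, h8⟩), fun _ => ?_,
      fun _ => e8.2 ⟨_, h3, h7⟩, fun _ _ h => (h rfl).elim⟩, h10⟩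
    rw [Polynomial.leadingCoeff, h10, e3]
    exact h9

end Pool.Agent.MP_a9d3bd_g
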