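import Pool.Agent.MP_a9d3bd_g.CDefs
import Pool.Agent.MP_a9d3bd_g.CExgA
import Pool.Agent.MP_a9d3bd_g.CGoodN

namespace Pool.Agent.MP_a9d3bd_g

open MvPolynomial Pool.Agent.MP_a9d3bd_h Pool.Agent.MP_a9d3bd_q

variable {K : Type} [Field K] {e : ℕ} {H : R3 K} {W : Pr K (Fin 3)} {lam : Pr K (Fin 3) → R3 K → ℝ}

/-- The parameters of the members through `x`. -/
def EXG_t (e : ℕ) {B : Type} [CommRing B] (j : K →+* B) (x : Fin 3 → K) (μ g : B) : Fin e → B :=
  fun i => if i.1 = 0 then j (x 1) + μ * j (x 2) - μ * j (x 0) ^ e - g * j (x 0)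
    else if i.1 = 1 then g else 0

theorem EXG_tmap {B B' : Type} [CommRing B] [CommRing B'] (j : K →+* B) (φ : B →+* B')
    (x : Fin 3 → K) (μ g : B) (i : Fin e) :
    φ (EXG_t e j x μ g i) = EXG_t e (φ.comp j) x (φ μ) (φ g) i := by
  unfold EXG_t
  split_ifs <;> simp

theorem EXG_al (he : 2 ≤ e) {B : Type} [Field B] (j : K →+* B) (x : Fin 3 → K) (μ g : B) :
    al μ (EXG_t e j x μ g) = Polynomial.C g * (Polynomial.X - Polynomial.C (j (x 0))) +
      (Polynomial.C μ * Polynomial.X ^ e +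
        Polynomial.C (j (x 1) + μ * j (x 2) - μ * j (x 0) ^ e)) := by
  obtain ⟨n, rfl⟩ := Nat.exists_eq_add_of_le' he
  simp [al, EXG_t, Fin.sum_univ_succ]
  ring

theorem EXG_eq {L : Type} [Field L] (j : K →+* L) (μ : L) (t : Fin e → L) (F : R3 K) :
    sb μ t (map j F) =
      EXG_sb (Polynomial.C.comp j) Polynomial.X (al μ t) (Polynomial.C μ) F := by
  have : (sb μ t).toRingHom.comp (map j) =
      EXG_sb (Polynomial.C.comp j) Polynomial.X (al μ t) (Polynomial.C μ) := by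
    refine MvPolynomial.ringHom_ext (fun c => by simp [EXG_sb, sb]) fun i => ?_
    fin_cases i <;> simp [EXG_sb, sb]
  exact RingHom.congr_fun this F

theorem EXG_lead (h : Srf H W) {L B : Type} [Field L] [CommRing B] [Nontrivial B] (j : K →+* L)
    (μ : L) (hμ : ∀ p : Polynomial K, p.eval₂ j μ = 0 → p = 0) (f : L →+* B) (a b m : B)
    (hm : f μ = m) : (EXG_sb (f.comp j) a b m H).natDegree = H.totalDegree ∧
      IsUnit (EXG_sb (f.comp j) a b m H).leadingCoeff := by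
  subst hm
  obtain ⟨k1, k2⟩ := EXG_top (f.comp j) a b (f μ) H
  rw [← Polynomial.hom_eval₂] at k2
  have u : IsUnit ((EXG_sb (f.comp j) a b (f μ) H).coeff H.totalDegree) := by
    rw [k2]
    exact (Ne.isUnit fun h0 => EXG_lc_ne h.top (hμ _ h0)).map f
  have k3 := Polynomial.natDegree_eq_of_le_of_coeff_ne_zero k1 u.ne_zero
  exact ⟨k3, by rwa [Polynomial.leadingCoeff, k3]⟩

theorem EXG_pt (he : 2 ≤ e) {x : Fin 3 → K} (h1 : eval x H = 0) (h2 : eval x (pderiv 2 H) ≠ 0)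
    {L : Type} [Field L] (j : K →+* L) (μ g : L)
    (hμ : ∀ p : Polynomial K, p.eval₂ j μ = 0 → p = 0) :
    (sb μ (EXG_t e j x μ g) (map j H)).evalEval (j (x 0)) (j (x 2)) = 0 ∧
      (Polynomial.derivative (sb μ (EXG_t e j x μ g) (map j H))).evalEval (j (x 0)) (j (x 2)) ≠ 0 := by
  have k : ∀ F : R3 K, (EXG_sb (Polynomial.C.comp j) Polynomial.X (al μ (EXG_t e j x μ g))
      (Polynomial.C μ) F).evalEval (j (x 0)) (j (x 2)) = j (eval x F) := by
    intro F
    rw [← Polynomial.eval₂_evalRingHom]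
    refine EXG_ev _ _ _ _ _ j (RingHom.ext fun c => by simp) x (by simp) ?_ F
    rw [EXG_al he]
    simp
  rw [EXG_eq, EXG_der, Polynomial.evalEval_sub, Polynomial.evalEval_mul, k, k, k, h1, map_zero]
  refine ⟨rfl, fun h0 => h2 ?_⟩
  have k2 := hμ (Polynomial.C (eval x (pderiv 2 H)) -
    Polynomial.X * Polynomial.C (eval x (pderiv 1 H))) (by
      rw [Polynomial.eval₂_sub, Polynomial.eval₂_mul, Polynomial.eval₂_C, Polynomial.eval₂_C,
        Polynomial.eval₂_X]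
      simpa [Polynomial.evalEval_C] using h0)
  simpa using congrArg (Polynomial.eval 0) k2

theorem EXG_gen [IsAlgClosed K] (h : Srf H W) (he : 2 ≤ e) {x : Fin 3 → K} (h1 : eval x H = 0)
    (h2 : eval x (pderiv 2 H) ≠ 0) : ∃ (L : Type) (_ : Field L) (_ : IsAlgClosed L) (j : K →+* L)
      (μ g : L), Good (map j H) μ (EXG_t e j x μ g) := by
  let E := FractionRing (Polynomial K)
  let E' := FractionRing (Polynomial E)
  let L := AlgebraicClosure E'
  let j₁ := algebraMap K E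
  let μ₁ := algebraMap (Polynomial K) E Polynomial.X
  let j₂ : E →+* E' := (algebraMap (Polynomial E) E').comp Polynomial.C
  let g := algebraMap (Polynomial E) E' Polynomial.X
  let j₃ := algebraMap E' L
  have t1 : ∀ p : Polynomial K, p.eval₂ j₁ μ₁ = 0 → p = 0 := by
    intro p hp
    have e1 : Polynomial.eval₂RingHom j₁ μ₁ = algebraMap (Polynomial K) E :=
      Polynomial.ringHom_ext (fun c => by
        simp only [Polynomial.coe_eval₂RingHom, Polynomial.eval₂_C]; rfl) (by simp [μ₁])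
    exact IsFractionRing.injective (Polynomial K) E
      (((RingHom.congr_fun e1 p).symm.trans hp).trans (map_zero _).symm)
  have t2 : ∀ p : Polynomial K, p.eval₂ (j₂.comp j₁) (j₂ μ₁) = 0 → p = 0 := fun p hp =>
    t1 p (by rwa [← Polynomial.hom_eval₂, map_eq_zero] at hp)
  have t3 : ∀ p : Polynomial K, p.eval₂ (j₃.comp (j₂.comp j₁)) (j₃ (j₂ μ₁)) = 0 → p = 0 :=
    fun p hp => t2 p (by rwa [← Polynomial.hom_eval₂, map_eq_zero] at hp)
  have i1 := EXG_iso (Polynomial.C μ₁ * Polynomial.X ^ e +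
    Polynomial.C (j₁ (x 1) + μ₁ * j₁ (x 2) - μ₁ * j₁ (x 0) ^ e)) μ₁ (GI1 (W := E) h.irr)
  rw [EXG_comp] at i1
  have l1 := (EXG_lead h j₁ μ₁ t1 (Polynomial.C.comp Polynomial.C) (Polynomial.C Polynomial.X)
    (Polynomial.X + Polynomial.C (Polynomial.C μ₁ * Polynomial.X ^ e +
      Polynomial.C (j₁ (x 1) + μ₁ * j₁ (x 2) - μ₁ * j₁ (x 0) ^ e)))
    (Polynomial.C (Polynomial.C μ₁)) (RingHom.comp_apply _ _ _)).2
  have i2 := EXG_frac _ (EXG_binj _ (IsFractionRing.injective (Polynomial E) E') (j₁ (x 0)))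
    (EXG_bsur (j₁ (x 0))) l1 i1
  have e2 : sb (j₂ μ₁) (EXG_t e (j₂.comp j₁) x (j₂ μ₁) g) (map (j₂.comp j₁) H) =
      (EXG_sb ((Polynomial.C.comp Polynomial.C).comp j₁) (Polynomial.C Polynomial.X)
        (Polynomial.X + Polynomial.C (Polynomial.C μ₁ * Polynomial.X ^ e +
          Polynomial.C (j₁ (x 1) + μ₁ * j₁ (x 2) - μ₁ * j₁ (x 0) ^ e)))
        (Polynomial.C (Polynomial.C μ₁)) H).map
          (EXG_b (algebraMap (Polynomial E) E') (j₁ (x 0))) := by
    rw [EXG_map, EXG_eq, EXG_al he]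
    congr 2
    · exact RingHom.ext fun c => by simp [EXG_b, j₂]
    · simp [EXG_b]
    · simp [EXG_b, j₂, g, Polynomial.eval₂_pow]
    · simp [EXG_b, j₂]
  have p2 := EXG_pt he h1 h2 (j₂.comp j₁) (j₂ μ₁) g t2
  have l2 := (EXG_lead h (j₂.comp j₁) (j₂ μ₁) t2 Polynomial.C Polynomial.X
    (al (j₂ μ₁) (EXG_t e (j₂.comp j₁) x (j₂ μ₁) g)) _ rfl).2
  rw [← EXG_eq] at l2
  have i3 := GI2 (W := L) l2 (e2 ▸ i2) p2.1 p2.2
  have e3 : (sb (j₂ μ₁) (EXG_t e (j₂.comp j₁) x (j₂ μ₁) g) (map (j₂.comp j₁) H)).map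
      (Polynomial.mapRingHom j₃) = sb (j₃ (j₂ μ₁))
        (EXG_t e (j₃.comp (j₂.comp j₁)) x (j₃ (j₂ μ₁)) (j₃ g)) (map (j₃.comp (j₂.comp j₁)) H) := by
    rw [EXG_eq, EXG_map, EXG_eq, EXG_al he, EXG_al he]
    congr 2
    · exact RingHom.ext fun c => by simp
    · simp
    · simp
    · simp
  have p3 := EXG_pt he h1 h2 (j₃.comp (j₂.comp j₁)) (j₃ (j₂ μ₁)) (j₃ g) t3
  have l3 := EXG_lead h (j₃.comp (j₂.comp j₁)) (j₃ (j₂ μ₁)) t3 Polynomial.C Polynomial.X
    (al (j₃ (j₂ μ₁)) (EXG_t e (j₃.comp (j₂.comp j₁)) x (j₃ (j₂ μ₁)) (j₃ g))) _ rfl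
  rw [← EXG_eq] at l3
  refine ⟨L, inferInstance, inferInstance, j₃.comp (j₂.comp j₁), j₃ (j₂ μ₁), j₃ g, fun h0 => ?_,
    ⟨fun _ => e3 ▸ i3, fun _ => l3.2, fun _ h0 => p3.2 ?_, fun _ _ hn => (hn rfl).elim⟩, ?_⟩
  · exact Polynomial.X_ne_zero (t3 Polynomial.X (by rw [Polynomial.eval₂_X, h0]))
  · rw [h0, Polynomial.evalEval_zero]
  · rw [l3.1, GI1_eq (RingHom.injective _)]

theorem EXG_nat {A B : Type} [CommRing A] [CommRing B] [Algebra K A] [Algebra K B] (φ : A →+* B)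
    (hφ : φ.comp (algebraMap K A) = algebraMap K B) (x : Fin 3 → K) (μ g : A)
    (ν : MvPolynomial (Option (Fin e)) K) :
    φ (aeval (fun o : Option (Fin e) => o.elim μ (EXG_t e (algebraMap K A) x μ g)) ν) =
      aeval (fun o : Option (Fin e) => o.elim (φ μ) (EXG_t e (algebraMap K B) x (φ μ) (φ g))) ν := by
  rw [map_aeval, hφ, aeval_def, coe_eval₂Hom]
  congr 1
  funext o
  cases o with
  | none => rfl
  | some i => exact (EXG_tmap _ φ x μ g i).trans (by rw [hφ]; rfl)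

/-- Almost all pencils have a good member through a given point. -/
theorem EXG [IsAlgClosed K] (h : Srf H W) (he : 2 ≤ e) {x : Fin 3 → K} (h1 : eval x H = 0)
    (h2 : eval x (pderiv 2 H) ≠ 0) :
    ∃ Bad : Finset K, ∀ μ ∉ Bad, ∃ t : Fin e → K, Good H μ t ∧ eval x (mem μ t) = 0 := by
  classical
  obtain ⟨N, hN⟩ := GOODN h he
  obtain ⟨L, _, _, j, μ, g, hg⟩ := EXG_gen h he h1 h2
  let := j.toAlgebra
  obtain ⟨ν, hν, hn⟩ := (hN L μ _).1 hg
  set P : Polynomial (Polynomial K) := aeval (fun o : Option (Fin e) =>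
    o.elim (Polynomial.C Polynomial.X) (EXG_t e (algebraMap K (Polynomial (Polynomial K))) x
      (Polynomial.C Polynomial.X) Polynomial.X)) ν with hP
  have p0 : P ≠ 0 := by
    intro h0
    have k := EXG_nat (Polynomial.eval₂RingHom (Polynomial.eval₂RingHom j μ) g)
      (RingHom.ext fun c => by simp; rfl) x (Polynomial.C Polynomial.X) Polynomial.X ν
    rw [← hP, h0, map_zero] at k
    simp only [Polynomial.coe_eval₂RingHom, Polynomial.eval₂_C, Polynomial.eval₂_X] at k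
    exact hn k.symm
  refine ⟨P.leadingCoeff.roots.toFinset, fun m hm => ?_⟩
  have l0 := Polynomial.leadingCoeff_ne_zero.2 p0
  have n1 : P.map (Polynomial.evalRingHom m) ≠ 0 := by
    intro h0
    have k := congrArg (fun q => Polynomial.coeff q P.natDegree) h0
    simp only [Polynomial.coeff_map, Polynomial.coeff_zero] at k
    exact hm (Multiset.mem_toFinset.2 ((Polynomial.mem_roots l0).2 k))
  obtain ⟨c, hc⟩ : ∃ c, (P.map (Polynomial.evalRingHom m)).eval c ≠ 0 := by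
    by_contra hc
    exact n1 (Polynomial.funext fun c => by simpa using not_exists.1 hc c)
  have k := EXG_nat (Polynomial.eval₂RingHom (Polynomial.evalRingHom m) c)
    (RingHom.ext fun c => by simp) x (Polynomial.C Polynomial.X) Polynomial.X ν
  rw [← hP] at k
  simp only [Polynomial.coe_eval₂RingHom, Polynomial.eval₂_C, Polynomial.eval₂_X,
    Polynomial.coe_evalRingHom, Polynomial.eval_X] at k
  rw [Polynomial.eval_map, k] at hc
  have k2 := (hN K m _).2 ⟨ν, hν, hc⟩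
  rw [Algebra.algebraMap_self, map_id] at k2
  refine ⟨_, k2, ?_⟩
  rw [mem, EXG_al he]
  simp

end Pool.Agent.MP_a9d3bd_g
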