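import Mathlib

/-!
Units at all places are constants; extension of an additive function to formal divisors.
-/

namespace Pool.Agent.MP_a9d3bd_g

open Polynomial

section U
variable {K M : Type*} [Field K] [Field M] [Algebra K M]

/-- an element of every valuation subring over `K` is a constant -/
theorem const_of_val [IsAlgClosed K] (u : M)
    (h : ∀ V : ValuationSubring M, (∀ k : K, algebraMap K M k ∈ V) → u ∈ V) :
    ∃ k : K, algebraMap K M k = u := by
  have h1 := iInf_valuationSubring_superset (s := Set.range (algebraMap K M))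
  have h2 : u ∈ (integralClosure (Subring.closure (Set.range (algebraMap K M))) M).toSubring := by
    rw [← h1, Subring.mem_iInf]
    intro V
    exact h V.1 fun k => V.2 ⟨k, rfl⟩
  obtain ⟨p, hp, hpu⟩ : IsIntegral (Subring.closure (Set.range (algebraMap K M))) u := h2
  let f : K →+* Subring.closure (Set.range (algebraMap K M)) :=
    (algebraMap K M).codRestrict _ fun k => Subring.subset_closure ⟨k, rfl⟩
  have hf : Function.Surjective f := by
    rintro ⟨z, hz⟩
    have : z ∈ (algebraMap K M).range :=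
      (Subring.closure_le (t := (algebraMap K M).range)).2 (fun _ hw => hw) hz
    obtain ⟨k, rfl⟩ := this
    exact ⟨k, rfl⟩
  obtain ⟨q, hq, -, hqm⟩ := lifts_and_degree_eq_and_monic
    ((mem_lifts p).2 (map_surjective f hf p)) hp
  have h3 : IsIntegral K u := by
    refine ⟨q, hqm, ?_⟩
    rw [← hq, eval₂_map] at hpu
    exact hpu
  exact minpoly.mem_range_of_degree_eq_one K u
    (IsAlgClosed.degree_eq_one_of_irreducible K (minpoly.irreducible h3))

variable {W : Type*} [Field W] [CharZero W]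

omit [CharZero W] in
theorem psi_one (Ψ : M → W) (hΨ : ∀ u v, u ≠ 0 → v ≠ 0 → Ψ (u * v) = Ψ u + Ψ v) : Ψ 1 = 0 := by
  have := hΨ 1 1 one_ne_zero one_ne_zero
  rw [mul_one] at this
  exact left_eq_add.1 this

theorem psi_pow (Ψ : M → W) (hΨ : ∀ u v, u ≠ 0 → v ≠ 0 → Ψ (u * v) = Ψ u + Ψ v) (u : M)
    (hu : u ≠ 0) (n : ℕ) : Ψ (u ^ n) = n * Ψ u := by
  induction n with
  | zero => simpa using psi_one Ψ hΨ
  | succ n ih => rw [pow_succ, hΨ _ _ (pow_ne_zero _ hu) hu, ih]; push_cast; ring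

theorem psi_inv (Ψ : M → W) (hΨ : ∀ u v, u ≠ 0 → v ≠ 0 → Ψ (u * v) = Ψ u + Ψ v) (u : M)
    (hu : u ≠ 0) : Ψ u⁻¹ = -Ψ u := by
  have := hΨ u u⁻¹ hu (inv_ne_zero hu)
  rw [mul_inv_cancel₀ hu, psi_one Ψ hΨ] at this
  linear_combination -this

theorem psi_zpow (Ψ : M → W) (hΨ : ∀ u v, u ≠ 0 → v ≠ 0 → Ψ (u * v) = Ψ u + Ψ v) (u : M)
    (hu : u ≠ 0) (n : ℤ) : Ψ (u ^ n) = n * Ψ u := by
  obtain ⟨m, rfl | rfl⟩ := Int.eq_nat_or_neg n
  · rw [zpow_natCast, psi_pow Ψ hΨ u hu]; push_cast; ring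
  · rw [zpow_neg, zpow_natCast, psi_inv Ψ hΨ _ (pow_ne_zero _ hu), psi_pow Ψ hΨ u hu]
    push_cast; ring

theorem psi_prod (Ψ : M → W) (hΨ : ∀ u v, u ≠ 0 → v ≠ 0 → Ψ (u * v) = Ψ u + Ψ v) {I : Type*}
    (s : Finset I) (a : I → M) (ha : ∀ i, a i ≠ 0) : Ψ (∏ i ∈ s, a i) = ∑ i ∈ s, Ψ (a i) := by
  classical
  induction s using Finset.induction_on with
  | empty => simpa using psi_one Ψ hΨ
  | insert i s hi ih =>
    rw [Finset.prod_insert hi, Finset.sum_insert hi,
      hΨ _ _ (ha i) (Finset.prod_ne_zero_iff.2 fun j _ => ha j), ih]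

theorem psi_const (hK : ∀ k : K, k ≠ 0 → ∃ n : ℕ, 0 < n ∧ k ^ n = 1)
    (Ψ : M → W) (hΨ : ∀ u v, u ≠ 0 → v ≠ 0 → Ψ (u * v) = Ψ u + Ψ v) (k : K) (hk : k ≠ 0) :
    Ψ (algebraMap K M k) = 0 := by
  obtain ⟨n, hn, h⟩ := hK k hk
  have h1 := psi_pow Ψ hΨ (algebraMap K M k) ((_root_.map_ne_zero _).2 hk) n
  rw [← map_pow, h, map_one, psi_one Ψ hΨ] at h1
  exact (mul_eq_zero.1 h1.symm).resolve_left (Nat.cast_ne_zero.2 hn.ne')

/-- an additive function on a family of functions comes from a function on the points -/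
theorem ext_div [IsAlgClosed K] (hK : ∀ k : K, k ≠ 0 → ∃ n : ℕ, 0 < n ∧ k ^ n = 1) {I Y : Type*}
    (Ψ : M → W) (hΨ : ∀ u v, u ≠ 0 → v ≠ 0 → Ψ (u * v) = Ψ u + Ψ v)
    (a : I → M) (ha : ∀ i, a i ≠ 0) (D : I → Y →₀ ℤ)
    (hV : ∀ V : ValuationSubring M, (∀ k : K, algebraMap K M k ∈ V) →
      (∀ i, V.valuation (a i) = 1) ∨
      ∃ (y : Y) (γ : V.ValueGroup), γ ≠ 0 ∧ ∀ i, V.valuation (a i) = γ ^ D i y) :
    ∃ φ : Y → W, ∀ i, Ψ (a i) = (D i).sum fun y n => (n : W) * φ y := by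
  classical
  let δ : (I →₀ ℤ) →ₗ[ℤ] (Y →₀ ℤ) := Finsupp.linearCombination ℤ D
  let ψ : (I →₀ ℤ) →ₗ[ℤ] W := Finsupp.linearCombination ℤ fun i => Ψ (a i)
  have hker : LinearMap.ker δ ≤ LinearMap.ker ψ := by
    intro m hm
    rw [LinearMap.mem_ker] at hm ⊢
    have hne : ∀ i, a i ^ m i ≠ 0 := fun i => zpow_ne_zero _ (ha i)
    have hu0 : ∏ i ∈ m.support, a i ^ m i ≠ 0 := Finset.prod_ne_zero_iff.2 fun i _ => hne i
    obtain ⟨k, hk⟩ := const_of_val (K := K) (∏ i ∈ m.support, a i ^ m i) fun V hVK => by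
      rw [← V.valuation_le_one_iff, map_prod]
      refine le_of_eq ?_
      rcases hV V hVK with h | ⟨y, γ, hγ, h⟩
      · simp [map_zpow₀, h]
      · have h1 : ∑ i ∈ m.support, D i y * m i = 0 := by
          have := congrArg (fun z : Y →₀ ℤ => z y) hm
          simpa [δ, Finsupp.linearCombination_apply, Finsupp.sum, mul_comm] using this
        have h2 : ∀ s : Finset I, ∏ i ∈ s, V.valuation (a i ^ m i) = γ ^ ∑ i ∈ s, D i y * m i := by
          intro s
          induction s using Finset.induction_on with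
          | empty => simp
          | insert i s hi ih =>
            rw [Finset.prod_insert hi, Finset.sum_insert hi, ih, zpow_add₀ hγ, map_zpow₀, h,
              zpow_mul]
        rw [h2, h1, zpow_zero]
    have hk0 : k ≠ 0 := by
      rintro rfl
      exact hu0 (by rw [← hk, map_zero])
    have h3 := psi_const hK Ψ hΨ k hk0
    rw [hk, psi_prod Ψ hΨ _ _ hne] at h3
    rw [← h3]
    simp only [ψ, Finsupp.linearCombination_apply, Finsupp.sum, zsmul_eq_mul]
    exact Finset.sum_congr rfl fun i _ => (psi_zpow Ψ hΨ _ (ha i) _).symm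
  have hB : Module.Baer ℤ W := Module.Baer.of_divisible W
  obtain ⟨h, hh⟩ := hB.extension_property ((LinearMap.ker δ).liftQ δ le_rfl)
    (LinearMap.ker_eq_bot.1 (Submodule.ker_liftQ_eq_bot _ _ _ le_rfl))
    ((LinearMap.ker δ).liftQ ψ hker)
  refine ⟨fun y => h (Finsupp.single y 1), fun i => ?_⟩
  have h1 := LinearMap.congr_fun hh (Submodule.Quotient.mk (Finsupp.single i 1))
  simp only [LinearMap.comp_apply, Submodule.liftQ_apply, δ, ψ, Finsupp.linearCombination_single,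
    one_smul] at h1
  rw [← h1]
  conv_lhs => rw [← Finsupp.sum_single (D i)]
  rw [Finsupp.sum, map_sum, Finsupp.sum]
  refine Finset.sum_congr rfl fun y _ => ?_
  rw [← zsmul_eq_mul, ← map_zsmul, Finsupp.smul_single, smul_eq_mul, mul_one]

end U

end Pool.Agent.MP_a9d3bd_g
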