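import Pool.Agent.MP_a9d3bd_g.CDeg0
import Pool.Agent.MP_a9d3bd_g.CExtU

namespace Pool.Agent.MP_a9d3bd_g

open MvPolynomial Pool.Agent.MP_a9d3bd_h Pool.Agent.MP_a9d3bd_q

variable {K : Type} [Field K]

theorem EXT_ord {R : Type} [CommRing R] (Q : PrimeSpectrum R) (W : Ideal R) (F : R) :
    len Q W F = Ring.ord (Localization.AtPrime Q.asIdeal ⧸
      W.map (algebraMap R (Localization.AtPrime Q.asIdeal)))
      (Ideal.Quotient.mk _ (algebraMap R _ F)) := by
  unfold len Ring.ord
  rw [Ideal.map_sup, Ideal.map_span, Set.image_singleton,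
    ← (DoubleQuot.quotQuotEquivQuotSupₐ (Localization.AtPrime Q.asIdeal) _ _).toLinearEquiv.length_eq,
    Module.length_eq_of_surjective (R := Localization.AtPrime Q.asIdeal ⧸
      W.map (algebraMap R (Localization.AtPrime Q.asIdeal))) Ideal.Quotient.mk_surjective,
    Ideal.map_span, Set.image_singleton]
  rfl

theorem EXT_mul {R : Type} [CommRing R] (Q Z : PrimeSpectrum R) (h : Z ≤ Q) (F : R) {G : R}
    (hG : G ∉ Z.asIdeal) : len Q Z.asIdeal (F * G) = len Q Z.asIdeal F + len Q Z.asIdeal G := by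
  have := Ideal.isPrime_map_of_isLocalizationAtPrime Q.asIdeal (S := Localization.AtPrime Q.asIdeal)
    (p := Z.asIdeal) h
  rw [EXT_ord, EXT_ord, EXT_ord, map_mul, map_mul, Ring.ord_mul]
  refine mem_nonZeroDivisors_of_ne_zero fun h0 => ?_
  obtain ⟨w, w1, w2⟩ := (Loc_lm Q _ G).2 (Ideal.Quotient.eq_zero_iff_mem.1 h0)
  exact (Z.isPrime.mem_or_mem w2).elim (fun a => w1 (h a)) hG

theorem EXT_val {Z : Pr K (Fin 3)} {x : Fin 3 → K} (hx : Z ≤ ak K x) (hn : Nice Z x)
    (hs : (X 0 - C (x 0) : R3 K) ∉ Z.asIdeal) (V : ValuationSubring Z.asIdeal.ResidueField)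
    (hV : ∀ f : R3 K, f ∉ (ak K x).asIdeal → V.valuation (algebraMap _ _ f) = 1) (n : ℕ) :
    ∀ F : R3 K, F ∉ Z.asIdeal → len (ak K x) Z.asIdeal F = n →
      V.valuation (algebraMap _ _ F) = V.valuation (algebraMap (R3 K) _ (X 0 - C (x 0))) ^ n := by
  have hsx : (X 0 - C (x 0) : R3 K) ∈ (ak K x).asIdeal := by
    rw [mem_ak]
    simp
  have l1 : len (ak K x) Z.asIdeal (X 0 - C (x 0) : R3 K) = 1 := len_eq_one hx hsx hn
  induction n with
  | zero =>
    intro F _ h1
    rw [pow_zero]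
    exact hV F fun h2 => (len_eq_zero_iff _ _ _).1 h1 ⟨hx, h2⟩
  | succ n ih =>
    intro F hF h1
    have h2 : F ∈ (ak K x).asIdeal := by
      by_contra h2
      rw [(len_eq_zero_iff _ _ _).2 fun h3 => h2 h3.2] at h1
      exact absurd h1.symm (by exact_mod_cast Nat.succ_ne_zero n)
    obtain ⟨w, w1, w2⟩ := hn F h2
    obtain ⟨a, ha, b, hb, e⟩ := Submodule.mem_sup.1 w2
    obtain ⟨c, rfl⟩ := Ideal.mem_span_singleton'.1 hb
    have h3 : w * F - c * (X 0 - C (x 0)) ∈ Z.asIdeal := by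
      rw [← e, add_sub_cancel_right]
      exact ha
    have h4 : c ∉ Z.asIdeal := fun h4 => by
      have := Z.asIdeal.add_mem h3 (Z.asIdeal.mul_mem_right (X 0 - C (x 0)) h4)
      rw [sub_add_cancel] at this
      exact (Z.isPrime.mem_or_mem this).elim (fun a => w1 (hx a)) hF
    have h5 := len_congr (ak K x) h3
    rw [len_unit _ _ _ w1, EXT_mul _ _ hx _ hs, h1, l1, Nat.cast_succ] at h5
    have h6 : len (ak K x) Z.asIdeal c = n :=
      (WithTop.add_right_cancel ENat.one_ne_top h5).symm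
    have h7 := congrArg V.valuation
      (sub_eq_zero.1 ((map_sub _ _ _).symm.trans (Ideal.algebraMap_residueField_eq_zero.2 h3)))
    rw [map_mul, map_mul, map_mul, map_mul, hV w w1, one_mul, ih c h4 h6] at h7
    rw [h7, pow_succ]

theorem EXT [IsAlgClosed K] (halg : ∀ c : K, c ≠ 0 → ∃ n, 0 < n ∧ c ^ n = 1) (Z : Pr K (Fin 3))
    (hZ : ptd Z = 1) (l : R3 K → ℝ)
    (mul : ∀ F G, F ∉ Z.asIdeal → G ∉ Z.asIdeal → l (F * G) = l F + l G)
    (congr : ∀ F G, F ∉ Z.asIdeal → F - G ∈ Z.asIdeal → l F = l G)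
    {J : Type} [Finite J] (F G : J → R3 K) (d : J → ℕ) (h0 : ∀ j, F j * G j ∉ Z.asIdeal)
    (hinf : ∀ j, InfW Z (F j) (G j) (d j))
    (hn : ∀ j x, Z ≤ ak K x → eval x (F j * G j) = 0 → Nice Z x) :
    ∃ (φ : (Fin 3 → K) → ℝ) (κ : ℝ), ∀ j, l (F j) - l (G j) =
      ∑ᶠ x, (dvc (F j) Z (ak K x) - dvc (G j) Z (ak K x) : ℚ) * φ x + κ * d j := by
  classical
  let π := algebraMap (R3 K) Z.asIdeal.ResidueField
  have π0 : ∀ f, π f = 0 ↔ f ∈ Z.asIdeal := fun f => Ideal.algebraMap_residueField_eq_zero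
  have nm : ∀ {a b : R3 K}, a ∉ Z.asIdeal → b ∉ Z.asIdeal → a * b ∉ Z.asIdeal :=
    fun ha hb h => (Z.isPrime.mem_or_mem h).elim ha hb
  have hF : ∀ j, F j ∉ Z.asIdeal := fun j h => h0 j (Z.asIdeal.mul_mem_right _ h)
  have hG : ∀ j, G j ∉ Z.asIdeal := fun j h => h0 j (Z.asIdeal.mul_mem_left _ h)
  have sj : ∀ u : Z.asIdeal.ResidueField, ∃ a b : R3 K, b ∉ Z.asIdeal ∧ u = π a / π b := fun u => by
    obtain ⟨a, b, hb, rfl⟩ := IsFractionRing.div_surjective (A := R3 K ⧸ Z.asIdeal) u
    obtain ⟨a, rfl⟩ := Ideal.Quotient.mk_surjective a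
    obtain ⟨b, rfl⟩ := Ideal.Quotient.mk_surjective b
    exact ⟨a, b, fun h => nonZeroDivisors.ne_zero hb (Ideal.Quotient.eq_zero_iff_mem.2 h), rfl⟩
  choose A B hB hAB using sj
  have hA : ∀ u, u ≠ 0 → A u ∉ Z.asIdeal := fun u hu h => hu (by
    rw [hAB u, (π0 _).2 h, zero_div])
  have wd : ∀ a b : R3 K, a ∉ Z.asIdeal → b ∉ Z.asIdeal →
      l (A (π a / π b)) - l (B (π a / π b)) = l a - l b := by
    intro a b ha hb
    have h1 : π a / π b ≠ 0 := div_ne_zero (mt (π0 _).1 ha) (mt (π0 _).1 hb)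
    have h2 := hAB (π a / π b)
    rw [div_eq_div_iff (mt (π0 _).1 hb) (mt (π0 _).1 (hB _)), ← map_mul, ← map_mul,
      ← sub_eq_zero, ← map_sub, π0] at h2
    have h3 := congr _ _ (nm ha (hB _)) h2
    rw [mul _ _ ha (hB _), mul _ _ (hA _ h1) hb] at h3
    linarith
  let N : R3 K → (Fin 3 → K) → ℕ := fun f x => (len (ak K x) Z.asIdeal f).toNat
  have hN : ∀ f x, f ∉ Z.asIdeal → dvc f Z (ak K x) = N f x := fun f x hf => by
    rw [dvc, if_pos ⟨hf, by rw [hZ, DEG0_ptd]⟩]
  have fin : ∀ f, f ∉ Z.asIdeal → (Function.support (N f)).Finite := fun f hf =>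
    ((dvc_fin f Z).preimage DEG0_inj.injOn).subset fun x hx => by
      have : dvc f Z (ak K x) ≠ 0 := by
        rw [hN f x hf]
        exact_mod_cast hx
      exact this
  have fin2 : ∀ j, (Function.support fun x => (N (F j) x : ℤ) - N (G j) x).Finite := fun j =>
    ((fin _ (hF j)).union (fin _ (hG j))).subset fun x hx => by
      by_contra h
      simp only [Set.mem_union, Function.mem_support, not_or, not_not] at h
      exact hx (by simp [h.1, h.2])
  let E : J → (Fin 3 → K) →₀ ℤ := fun j => Finsupp.ofSupportFinite _ (fin2 j)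
  let D : J → Option (Fin 3 → K) →₀ ℤ := fun j => (E j).optionElim (d j)
  obtain ⟨φ, hφ⟩ := ext_div (K := K) (W := ℝ) halg (fun u => l (A u) - l (B u))
    (fun u v hu hv => by
      have := wd (A u * A v) (B u * B v) (nm (hA u hu) (hA v hv)) (nm (hB u) (hB v))
      rw [map_mul, map_mul, ← div_mul_div_comm, ← hAB, ← hAB, mul _ _ (hA u hu) (hA v hv),
        mul _ _ (hB u) (hB v)] at this
      linarith)
    (fun j => π (F j) / π (G j)) (fun j => div_ne_zero (mt (π0 _).1 (hF j)) (mt (π0 _).1 (hG j))) D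
    (fun V hV => by
      have hC : ∀ c, π (C c) ∈ V := fun c => by
        have := hV c
        rwa [IsScalarTower.algebraMap_apply K (R3 K) Z.asIdeal.ResidueField] at this
      have vG : ∀ f, f ∉ Z.asIdeal → V.valuation (π f) ≠ 0 := fun f hf =>
        (Valuation.ne_zero_iff _).2 (mt (π0 _).1 hf)
      by_cases hi : ∃ i, π (X i) ∉ V
      · have h1 : ∀ j, V.valuation (π (F j) / π (G j)) = V.valuation (π (X 0)) ^ d j := fun j => by
          rw [map_div₀, hinf j V hC hi, map_mul, map_mul, map_pow, map_pow,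
            mul_div_cancel_left₀ _ (vG _ (hG j))]
        by_cases h2 : V.valuation (π (X 0)) = 0
        · refine Or.inl fun j => ?_
          rcases Nat.eq_zero_or_pos (d j) with h3 | h3
          · rw [h1, h3, pow_zero]
          · have := h1 j
            rw [h2, zero_pow h3.ne', map_div₀] at this
            exact absurd this (div_ne_zero (vG _ (hF j)) (vG _ (hG j)))
        · exact Or.inr ⟨none, _, h2, fun j => by rw [h1]; simp [D]⟩
      push Not at hi
      have hR : ∀ f, π f ∈ V := fun f => by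
        induction f using MvPolynomial.induction_on with
        | C c => exact hC c
        | add p q hp hq => rw [map_add]; exact add_mem hp hq
        | mul_X p i hp => rw [map_mul]; exact mul_mem hp (hi i)
      let P : Pr K (Fin 3) := ⟨(IsLocalRing.maximalIdeal V).comap (π.codRestrict V hR),
        Ideal.comap_isPrime _ _⟩
      have hP : ∀ f, f ∉ P.asIdeal → V.valuation (π f) = 1 := fun f hf =>
        (V.valuation_eq_one_iff ⟨π f, hR f⟩).1 (not_not.1 hf)
      have hZP : Z ≤ P := fun f hf => by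
        by_contra h
        have := hP f h
        rw [(π0 f).2 hf, map_zero] at this
        exact zero_ne_one this
      by_cases h1 : ∀ j, F j * G j ∉ P.asIdeal
      · refine Or.inl fun j => ?_
        rw [map_div₀, hP _ fun h => h1 j (P.asIdeal.mul_mem_right _ h),
          hP _ fun h => h1 j (P.asIdeal.mul_mem_left _ h), div_one]
      push Not at h1
      obtain ⟨j₀, h1⟩ := h1
      have h2 : Z ≠ P := fun e => h0 j₀ (e ▸ h1)
      have h3 := ptd_lt (lt_of_le_of_ne hZP h2)
      obtain ⟨x, hx⟩ := DEG0_pt (P := P) (by omega)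
      rw [← hx] at hP hZP h1 h2
      have h4 := hn j₀ x hZP h1
      have h5 : (X 0 - C (x 0) : R3 K) ∉ Z.asIdeal := fun h5 => h2 (le_antisymm hZP fun f hf => by
        obtain ⟨w, w1, w2⟩ := h4 f hf
        rw [sup_eq_left.2 ((Ideal.span_singleton_le_iff_mem _).2 h5)] at w2
        exact (Z.isPrime.mem_or_mem w2).resolve_left fun a => w1 (hZP a))
      have h6 : ∀ f, f ∉ Z.asIdeal →
          V.valuation (π f) = V.valuation (π (X 0 - C (x 0))) ^ N f x := fun f hf =>
        EXT_val hZP h4 h5 V hP _ f hf (ENat.natCast_toNat (len_ne_top _ _ f fun Q' a b c => by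
          have := ptd_lt (P := Z) (Q := Q') (lt_of_le_of_ne a fun e => hf (e ▸ b))
          exact eq_of_ptd c (by omega))).symm
      refine Or.inr ⟨some x, _, vG _ h5, fun j => ?_⟩
      have h7 : D j (some x) = (N (F j) x : ℤ) - N (G j) x := by
        simp [D, E, Finsupp.ofSupportFinite_coe]
      rw [map_div₀, h6 _ (hF j), h6 _ (hG j), h7, zpow_sub₀ (vG _ h5), zpow_natCast,
        zpow_natCast])
  refine ⟨fun x => φ (some x), φ none, fun j => ?_⟩
  have h1 := hφ j
  simp only [wd _ _ (hF j) (hG j)] at h1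
  rw [h1, Finsupp.sum_option_index _ _ (fun _ => by simp)
    (fun _ _ _ => by push_cast; ring), add_comm]
  simp only [D, Finsupp.optionElim_apply_none, Finsupp.some_optionElim]
  congr 1
  · rw [finsum_eq_sum_of_support_subset (s := (E j).support), Finsupp.sum]
    · refine Finset.sum_congr rfl fun x _ => ?_
      rw [hN _ _ (hF j), hN _ _ (hG j)]
      simp [E, Finsupp.ofSupportFinite_coe]
    · intro x hx
      rw [Finset.mem_coe, Finsupp.mem_support_iff]
      intro h2
      apply hx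
      have h3 : (N (F j) x : ℤ) - N (G j) x = 0 := h2
      have h4 : N (F j) x = N (G j) x := by omega
      simp only [hN _ _ (hF j), hN _ _ (hG j), h4]
      simp
  · push_cast
    ring

end Pool.Agent.MP_a9d3bd_g
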