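import Pool.Agent.MP_a9d3bd_g.CDefs

namespace Pool.Agent.MP_a9d3bd_g

open MvPolynomial Pool.Agent.MP_a9d3bd_h Pool.Agent.MP_a9d3bd_q

variable {K : Type} [Field K] {e : ℕ} {H : R3 K} {W : Pr K (Fin 3)}
  {lam : Pr K (Fin 3) → R3 K → ℝ}

theorem famM_tp (he : 2 ≤ e) {ρ : K} (hρ : ρ ≠ 0) (t : Fin e → K) {L : R3 K}
    (hL : L.totalDegree ≤ 1) : Tp e (L - Polynomial.aeval (X 0 : R3 K) (al ρ t)) := by
  have h1 : L - Polynomial.aeval (X 0 : R3 K) (al ρ t) =
      C (-ρ) * X 0 ^ e + (L - ∑ i : Fin e, C (t i) * X 0 ^ (i : ℕ)) := by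
    simp only [al, map_add, map_mul, map_pow, map_sum, Polynomial.aeval_C, Polynomial.aeval_X,
      algebraMap_eq, map_neg]
    ring
  have hm : ∀ (c : K) (n : ℕ), (C c * X 0 ^ n : R3 K).IsHomogeneous n := fun c n =>
    (isHomogeneous_X_pow (0 : Fin 3) n).C_mul c
  have h2 : (L - ∑ i : Fin e, C (t i) * X 0 ^ (i : ℕ) : R3 K).totalDegree < e := by
    refine lt_of_le_of_lt (totalDegree_sub _ _) (max_lt (by omega) ?_)
    have : (∑ i : Fin e, C (t i) * X 0 ^ (i : ℕ) : R3 K).totalDegree ≤ e - 1 :=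
      totalDegree_finsetSum_le fun i _ => (hm (t i) i).totalDegree_le.trans (by omega)
    omega
  rw [h1]
  refine ⟨(totalDegree_add _ _).trans (max_le (hm _ _).totalDegree_le h2.le), -ρ,
    neg_ne_zero.mpr hρ, ?_⟩
  rw [map_add, homogeneousComponent_eq_zero _ _ h2, add_zero, homogeneousComponent_eq_self (hm _ _)]

theorem famM_ev {μ : K} {t t₁ t₂ : Fin e → K} (ht : t₁ + μ • t₂ = t) (F : R3 K) :
    (sb μ t F).eval (al 1 t₂) = aeval ![Polynomial.X, al 0 t₁, al 1 t₂] F := by
  have h1 : al μ t - Polynomial.C μ * al 1 t₂ = al 0 t₁ := by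
    subst ht
    simp only [al, Pi.add_apply, Pi.smul_apply, smul_eq_mul, map_add, map_mul, add_mul, mul_add,
      Finset.sum_add_distrib, Finset.mul_sum, map_one, map_zero, mul_assoc]
    ring
  induction F using MvPolynomial.induction_on with
  | C a => simp [sb]
  | add F G hF hG => simp only [map_add, Polynomial.eval_add, hF, hG]
  | mul_X F i hF =>
    simp only [map_mul, Polynomial.eval_mul, hF]
    congr 1
    fin_cases i <;> simp [sb, h1]

/-- Weight at most `n`, where `s` has weight one and `θ` has weight `e`. -/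
def famM_W (e n : ℕ) (Q : Polynomial (Polynomial K)) : Prop :=
  ∀ a b, n < b + e * a → (Q.coeff a).coeff b = 0

theorem famM_mono {n n' : ℕ} {Q : Polynomial (Polynomial K)} (h : famM_W e n Q) (hn : n ≤ n') :
    famM_W e n' Q := fun a b hab => h a b (by omega)

theorem famM_mul {n n' : ℕ} {Q Q' : Polynomial (Polynomial K)} (h : famM_W e n Q)
    (h' : famM_W e n' Q') : famM_W e (n + n') (Q * Q') := by
  intro a b hab
  rw [Polynomial.coeff_mul, Polynomial.finsetSum_coeff]
  refine Finset.sum_eq_zero fun x hx => ?_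
  rw [Polynomial.coeff_mul]
  refine Finset.sum_eq_zero fun y hy => ?_
  rw [Finset.HasAntidiagonal.mem_antidiagonal] at hx hy
  rw [← hx, ← hy, mul_add] at hab
  by_cases h1 : n < y.1 + e * x.1
  · rw [h _ _ h1, zero_mul]
  · rw [h' x.2 y.2 (by omega), mul_zero]

theorem famM_C {n : ℕ} {p : Polynomial K} (hp : p.natDegree ≤ n) :
    famM_W e n (Polynomial.C p) := by
  intro a b hab
  rw [Polynomial.coeff_C]
  split_ifs with h
  · subst h
    exact Polynomial.coeff_eq_zero_of_natDegree_lt (by omega)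
  · simp

theorem famM_X : famM_W e e (Polynomial.X : Polynomial (Polynomial K)) := by
  intro a b hab
  rw [Polynomial.coeff_X]
  split_ifs with h
  · subst h
    rw [Polynomial.coeff_one, if_neg (by omega)]
  · simp

theorem famM_pow {n : ℕ} {Q : Polynomial (Polynomial K)} (h : famM_W e n Q) (k : ℕ) :
    famM_W e (n * k) (Q ^ k) := by
  induction k with
  | zero => simpa using famM_C (e := e) (n := 0) (p := (1 : Polynomial K)) (by simp)
  | succ k ih => rw [pow_succ, Nat.mul_succ]; exact famM_mul ih h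

theorem famM_low (t : Fin e → K) :
    (∑ i : Fin e, Polynomial.C (t i) * Polynomial.X ^ (i : ℕ)).natDegree ≤ e - 1 :=
  Polynomial.natDegree_sum_le_of_forall_le _ _ fun i _ =>
    (Polynomial.natDegree_C_mul_X_pow_le _ _).trans (by omega)

theorem famM_al (ρ : K) (t : Fin e → K) : (al ρ t).natDegree ≤ e :=
  (Polynomial.natDegree_add_le _ _).trans
    (max_le (Polynomial.natDegree_C_mul_X_pow_le _ _) ((famM_low t).trans (by omega)))

theorem famM_sup {d : Fin 3 →₀ ℕ} (hd : d ∈ H.support) : d 0 + d 1 + d 2 ≤ H.totalDegree := by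
  have := le_totalDegree hd
  rwa [Finsupp.sum_fintype _ _ (by simp), Fin.sum_univ_three] at this

theorem famM_wt (he : 2 ≤ e) (μ : K) (t : Fin e → K) :
    famM_W e (e * H.totalDegree) (sb μ t H) := by
  intro a b hab
  rw [sb, aeval_def, eval₂_eq', Polynomial.finsetSum_coeff, Polynomial.finsetSum_coeff]
  refine Finset.sum_eq_zero fun d hd => ?_
  have h0 : famM_W e 0 (algebraMap K (Polynomial (Polynomial K)) (coeff d H)) :=
    famM_C (p := Polynomial.C (coeff d H)) (by simp)
  have h1 : famM_W e 1 (Polynomial.C (Polynomial.X : Polynomial K)) := famM_C (by simp)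
  have h2 : famM_W e e
      (Polynomial.C (al μ t) - Polynomial.C (Polynomial.C μ) * Polynomial.X) := by
    intro a b hab
    have h3 := famM_mul (famM_C (e := e) (n := 0) (p := Polynomial.C μ) (by simp)) famM_X
    rw [Polynomial.coeff_sub, Polynomial.coeff_sub, famM_C (famM_al μ t) a b hab,
      h3 a b (by omega), sub_zero]
  have h4 := famM_mul h0 (famM_mul (famM_mul (famM_pow h1 (d 0)) (famM_pow h2 (d 1)))
    (famM_pow famM_X (d 2)))
  have h5 := famM_sup hd
  rw [Fin.prod_univ_three]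
  refine h4 a b (lt_of_le_of_lt ?_ hab)
  nlinarith [Nat.mul_le_mul_left e h5]

theorem famM_top (h : Srf H W) (he : 2 ≤ e) (t : Fin e → K) :
    (aeval ![Polynomial.X, al 0 t, al 1 (0 : Fin e → K)] H).coeff (e * H.totalDegree) = 1 := by
  have h1 : al (1 : K) (0 : Fin e → K) = Polynomial.X ^ e := by simp [al]
  have h2 : (al 0 t).natDegree ≤ e - 1 := by simpa [al] using famM_low t
  have hs : Finsupp.single (2 : Fin 3) H.totalDegree ∈ H.support := by
    rw [mem_support_iff, h.top]; exact one_ne_zero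
  rw [h1, aeval_def, eval₂_eq', Polynomial.finsetSum_coeff, Finset.sum_eq_single_of_mem _ hs]
  · rw [Fin.prod_univ_three, h.top]
    simp [← pow_mul]
  · intro d hd hne
    refine Polynomial.coeff_eq_zero_of_natDegree_lt ?_
    have h5 := famM_sup hd
    have h6 : d 2 < H.totalDegree := by
      by_contra h7
      refine hne ?_
      ext i
      fin_cases i <;> simp <;> omega
    rw [Fin.prod_univ_three]
    have h8 : (algebraMap K (Polynomial K) (coeff d H) *
        (Polynomial.X ^ d 0 * al 0 t ^ d 1 * (Polynomial.X ^ e) ^ d 2)).natDegree ≤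
        d 0 + d 1 * (e - 1) + d 2 * e := by
      refine (Polynomial.natDegree_C_mul_le _ _).trans (Polynomial.natDegree_mul_le.trans
        (add_le_add (Polynomial.natDegree_mul_le.trans (add_le_add (by simp) ?_)) ?_))
      · exact Polynomial.natDegree_pow_le.trans (Nat.mul_le_mul_left _ h2)
      · exact Polynomial.natDegree_pow_le.trans (by simp)
    refine lt_of_le_of_lt h8 ?_
    obtain ⟨k, rfl⟩ : ∃ k, e = k + 2 := ⟨e - 2, by omega⟩
    rw [show k + 2 - 1 = k + 1 by omega]
    nlinarith [Nat.mul_le_mul_left (k + 1) h5, Nat.zero_le (k * d 0)]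

theorem famM_rat (φ : K →+* K) {μ : K} {t : Fin e → K} (hμ : φ μ = μ) (ht : ∀ i, φ (t i) = t i)
    (F : R3 K) : (sb μ t F).map (Polynomial.mapRingHom φ) = sb μ t (map φ F) := by
  have h1 : (al μ t).map φ = al μ t := by
    simp [al, Polynomial.map_sum, hμ, ht]
  induction F using MvPolynomial.induction_on with
  | C a => simp [sb]
  | add F G hF hG => simp only [map_add, Polynomial.map_add, hF, hG]
  | mul_X F i hF =>
    simp only [map_mul, Polynomial.map_mul, hF, map_X]
    congr 1
    fin_cases i <;> simp [sb, h1, hμ]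

/-- File CFamM.lean. -/
theorem famM (h : Srf H W) (he : 2 ≤ e) {μ : K} {t : Fin e → K} :
    Tp e (bb t) ∧ (μ ≠ 0 → Tp e (mem μ t)) ∧
    (∀ t₁ t₂ : Fin e → K, t₁ + μ • t₂ = t → (sb μ t H).eval (al 1 t₂) =
      aeval ![Polynomial.X, al 0 t₁, al 1 t₂] H) ∧
    ∀ q D : ℕ, ∀ (p f : ℕ) [Fact p.Prime] [CharP K p], q = p ^ f → H.totalDegree ≤ D →
      Good H μ t → Rat3 q H → μ ^ q = μ → (∀ i, t i ^ q = t i) →
      Fam q D e 1 (fun _ : Unit => sb μ t H) := by
  refine ⟨famM_tp he one_ne_zero t (by simp), fun hμ => famM_tp he hμ t ?_,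
    fun t₁ t₂ ht => famM_ev ht H, ?_⟩
  · exact ((isHomogeneous_X K 1).add ((isHomogeneous_X K 2).C_mul μ)).totalDegree_le
  intro q D p f _ _ hq hD hG hR hμ ht
  subst hq
  refine ⟨hG.2.1, fun _ a b => ?_, fun _ a ha => ?_, fun _ => ?_, by simpa [hG.2.2] using hD,
    one_pow _⟩
  · have h1 : map (iterateFrobenius K p f) H = H := by
      ext d
      rw [coeff_map, iterateFrobenius_def, hR d]
    have h2 := famM_rat (iterateFrobenius K p f) (μ := μ) (t := t) hμ ht H
    rw [h1] at h2
    conv_rhs => rw [← h2]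
    simp [iterateFrobenius_def]
  · rw [hG.2.2]
    by_contra h1
    exact ha (Polynomial.leadingCoeff_eq_zero.mp (famM_wt he μ t a _ (not_le.mp h1)))
  · have h1 := famM_top h he t
    rw [← famM_ev (μ := μ) (t := t) (by simp) H, Polynomial.eval_eq_sum_range,
      Polynomial.finsetSum_coeff] at h1
    refine ne_of_eq_of_ne (Eq.trans (Finset.sum_congr rfl fun a ha => ?_) h1) one_ne_zero
    have h2 : a ≤ H.totalDegree := by
      rw [Finset.mem_range, hG.2.2] at ha; omega
    have h3 : al (1 : K) (0 : Fin e → K) = Polynomial.X ^ e := by simp [al]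
    rw [h3, ← pow_mul, Polynomial.coeff_mul_X_pow', if_pos (Nat.mul_le_mul_left e h2), one_pow,
      mul_one, hG.2.2, Nat.mul_sub]

end Pool.Agent.MP_a9d3bd_g
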