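import Pool.Agent.MP_a9d3bd_g.CS2Defs

namespace Pool.Agent.MP_a9d3bd_g

open MvPolynomial Pool.Agent.MP_a9d3bd_h Pool.Agent.MP_a9d3bd_q

variable {K : Type} [Field K] {e : ℕ} {H : R3 K} {W : Pr K (Fin 3)}
  {lam : Pr K (Fin 3) → R3 K → ℝ}

theorem FAMP_pow {p : ℕ} {c : K} {n : ℕ} (h : c ^ p ^ n = c) {f : ℕ} (hf : n ∣ f) :
    c ^ p ^ f = c := by
  obtain ⟨k, rfl⟩ := hf
  induction k with
  | zero => simp
  | succ k ih => rw [Nat.mul_succ, pow_add, pow_mul, ih, h]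

theorem FAMP_fin {p : ℕ} (halg : ∀ c : K, ∃ n, 0 < n ∧ c ^ p ^ n = c) (s : Finset K) :
    ∃ n₀, 0 < n₀ ∧ ∀ f, n₀ ∣ f → ∀ c ∈ s, c ^ p ^ f = c := by
  choose m hm0 hm using halg
  refine ⟨∏ c ∈ s, m c, Finset.prod_pos (fun c _ => hm0 c), fun f hf c hc => ?_⟩
  exact FAMP_pow (hm c) ((Finset.dvd_prod_of_mem m hc).trans hf)

theorem FAMP {p : ℕ} (hp : p.Prime) (halg : ∀ c : K, ∃ n, 0 < n ∧ c ^ p ^ n = c) (he : 2 ≤ e)
    {μ : K} (hμ : μ ≠ 0) {n D : ℕ} {P : Fin n → Polynomial (Polynomial K)} (h1 : Crv P)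
    (h2 : ∀ i, (P i).Monic)
    (h3 : ∀ i a, (P i).coeff a ≠ 0 → ((P i).coeff a).natDegree + a ≤ (P i).natDegree)
    (h4 : ∑ i, (P i).natDegree ≤ D) :
    ∃ n₀, 0 < n₀ ∧ ∀ f, n₀ ∣ f → Fam (p ^ f) D e μ P := by
  classical
  obtain ⟨n₀, hn₀, hs⟩ := FAMP_fin halg (insert μ (Finset.univ.biUnion fun i =>
    (P i).support.biUnion fun a => ((P i).coeff a).support.image fun b =>
      ((P i).coeff a).coeff b))
  refine ⟨n₀, hn₀, fun f hf => ⟨h1, fun i a b => ?_, fun i a ha => ?_, fun i => ?_, h4,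
    hs f hf μ (Finset.mem_insert_self _ _)⟩⟩
  · by_cases hb : ((P i).coeff a).coeff b = 0
    · rw [hb]
      exact zero_pow (pow_ne_zero _ hp.ne_zero)
    · have ha : (P i).coeff a ≠ 0 := by
        intro h0
        apply hb
        rw [h0, Polynomial.coeff_zero]
      apply hs f hf
      refine Finset.mem_insert_of_mem (Finset.mem_biUnion.2 ⟨i, Finset.mem_univ _,
        Finset.mem_biUnion.2 ⟨a, Polynomial.mem_support_iff.2 ha, ?_⟩⟩)
      exact Finset.mem_image.2 ⟨b, Polynomial.mem_support_iff.2 hb, rfl⟩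
  · obtain ⟨d, hd⟩ := Nat.exists_eq_add_of_le (h3 i a ha)
    rw [hd]
    have : ((P i).coeff a).natDegree ≤ e * ((P i).coeff a).natDegree :=
      Nat.le_mul_of_pos_left _ (by omega)
    rw [Nat.mul_add, Nat.mul_add]
    omega
  · rw [Finset.sum_eq_single (P i).natDegree]
    · rw [Nat.sub_self, Nat.mul_zero, (h2 i).coeff_natDegree, Polynomial.coeff_one_zero, one_mul]
      exact pow_ne_zero _ hμ
    · intro a ha hne
      have hlt : a < (P i).natDegree := by
        have := Finset.mem_range.1 ha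
        omega
      by_cases h0 : (P i).coeff a = 0
      · rw [h0, Polynomial.coeff_zero, zero_mul]
      · have h5 := h3 i a h0
        have h6 : 2 * ((P i).natDegree - a) ≤ e * ((P i).natDegree - a) :=
          Nat.mul_le_mul_right _ he
        rw [Polynomial.coeff_eq_zero_of_natDegree_lt (by omega), zero_mul]
    · intro h
      exact absurd (Finset.mem_range.2 (Nat.lt_succ_self _)) h

end Pool.Agent.MP_a9d3bd_g
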