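import Pool.Agent.MP_a9d3bd_g.CDefs

namespace Pool.Agent.MP_a9d3bd_g

open MvPolynomial Pool.Agent.MP_a9d3bd_h Pool.Agent.MP_a9d3bd_q

variable {K : Type} [Field K] {e : ℕ} {H : R3 K} {W : Pr K (Fin 3)} {lam : Pr K (Fin 3) → R3 K → ℝ}

theorem FQ_fin (p f : ℕ) [hp : Fact p.Prime] [IsAlgClosed K] [CharP K p] (hf : 0 < f) :
    ∃ Φ : Finset K, Φ.card = p ^ f ∧ ∀ x, x ∈ Φ ↔ x ^ p ^ f = x := by
  classical
  have h1 : 1 < p ^ f := Nat.one_lt_pow hf.ne' hp.out.one_lt
  have hs : (Polynomial.X ^ p ^ f - Polynomial.X : Polynomial K).Separable :=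
    galois_poly_separable p (p ^ f) (dvd_pow_self p hf.ne')
  have hd : (Polynomial.X ^ p ^ f - Polynomial.X : Polynomial K).natDegree = p ^ f :=
    FiniteField.X_pow_card_sub_X_natDegree_eq K h1
  have hn : (Polynomial.X ^ p ^ f - Polynomial.X : Polynomial K) ≠ 0 :=
    FiniteField.X_pow_card_sub_X_ne_zero K h1
  refine ⟨(Polynomial.X ^ p ^ f - Polynomial.X : Polynomial K).roots.toFinset, ?_, fun x => ?_⟩
  · rw [Multiset.toFinset_card_of_nodup (Polynomial.nodup_roots hs),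
      IsAlgClosed.card_roots_eq_natDegree, hd]
  · rw [Multiset.mem_toFinset, Polynomial.mem_roots hn, Polynomial.IsRoot.def,
      Polynomial.eval_sub, Polynomial.eval_pow, Polynomial.eval_X, sub_eq_zero]

/-- The field with `p ^ f` elements inside an algebraically closed field. -/
theorem FQ (p f : ℕ) [Fact p.Prime] [IsAlgClosed K] [CharP K p] (hf : 0 < f) :
    ∃ k : Subfield K, (∀ x, x ∈ k ↔ x ^ p ^ f = x) ∧ Finite k ∧ Nat.card k = p ^ f := by
  obtain ⟨Φ, hc, hΦ⟩ := FQ_fin (K := K) p f hf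
  have hk : ∀ x, x ∈ (iterateFrobenius K p f).eqLocusField (RingHom.id K) ↔ x ^ p ^ f = x :=
    fun x => Iff.rfl
  have hset : ((iterateFrobenius K p f).eqLocusField (RingHom.id K) : Set K) = (Φ : Set K) := by
    ext x
    exact (hk x).trans (hΦ x).symm
  refine ⟨(iterateFrobenius K p f).eqLocusField (RingHom.id K), hk, ?_, ?_⟩
  · have h2 : ((iterateFrobenius K p f).eqLocusField (RingHom.id K) : Set K).Finite := by
      rw [hset]; exact Φ.finite_toSet
    exact h2.to_subtype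
  · rw [← hc, ← Set.ncard_coe_finset, ← hset]
    rfl

end Pool.Agent.MP_a9d3bd_g
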