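import Pool.Agent.MP_a9d3bd_g.ADefs

namespace Pool.Agent.MP_a9d3bd_g

open MvPolynomial

variable {K : Type} [Field K]

theorem HAT_fac_ex {R : Type} [CommRing R] [IsDomain R] (d : ℕ) : ∀ Q : Polynomial R, Q.Monic →
    Q.natDegree < d → ∃ l : List (Polynomial R), (∀ f ∈ l, f.Monic ∧ Irreducible f) ∧
      l.prod = Q := by
  induction d with
  | zero => intro Q _ h; exact (Nat.not_lt_zero _ h).elim
  | succ d ih =>
    intro Q hQ hd
    by_cases h1 : Q = 1
    · exact ⟨[], by simp, h1.symm⟩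
    by_cases h2 : Irreducible Q
    · exact ⟨[Q], by simp [hQ, h2], by simp⟩
    rw [hQ.irreducible_iff_natDegree] at h2
    push Not at h2
    obtain ⟨f, g, hf, hg, e, f0, g0⟩ := h2 h1
    have hdeg := hf.natDegree_mul hg
    rw [e] at hdeg
    obtain ⟨l1, a1, b1⟩ := ih f hf (by omega)
    obtain ⟨l2, a2, b2⟩ := ih g hg (by omega)
    refine ⟨l1 ++ l2, fun u hu => (List.mem_append.1 hu).elim (a1 u) (a2 u), ?_⟩
    rw [List.prod_append, b1, b2, e]

theorem HAT_fac {L : Type} [Field L] (φ : Polynomial K →+* L) (Q : Polynomial (Polynomial K))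
    (hQ : Q.Monic) (hs : (Q.map φ).Separable) :
    ∃ (n : ℕ) (P : Fin n → Polynomial (Polynomial K)), Crv P ∧ (∀ i, (P i).Monic) ∧
      ∏ i, P i = Q := by
  obtain ⟨l, hl, e⟩ := HAT_fac_ex _ Q hQ (Nat.lt_succ_self _)
  obtain ⟨P, hP⟩ : ∃ P : Fin l.length → Polynomial (Polynomial K), P = fun i => l[i.1] := ⟨_, rfl⟩
  have h1 : ∀ i, (P i).Monic ∧ Irreducible (P i) := fun i => by
    rw [hP]
    exact hl _ (List.getElem_mem _)
  have h2 : ∏ i, P i = Q := by
    rw [hP, Fin.prod_univ_getElem, e]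
  have h3 : ∀ i, ¬ IsUnit ((P i).map φ) := fun i hu => by
    have k := Polynomial.natDegree_eq_zero_of_isUnit hu
    rw [(h1 i).1.natDegree_map, (h1 i).1.natDegree_eq_zero] at k
    exact (h1 i).2.ne_one k
  refine ⟨_, P, ⟨fun i => (h1 i).2, fun i => ?_, fun i h => ?_, fun i j hij h => ?_⟩,
    fun i => (h1 i).1, h2⟩
  · rw [(h1 i).1.leadingCoeff]
    exact isUnit_one
  · have k : ((P i).map φ).Separable :=
      hs.of_dvd (Polynomial.map_dvd φ (h2 ▸ Finset.dvd_prod_of_mem P (Finset.mem_univ i)))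
    rw [Polynomial.separable_def, Polynomial.derivative_map, h, Polynomial.map_zero,
      isCoprime_zero_right] at k
    exact h3 i k
  · have k : P i * P i ∣ Q := by
      refine (mul_dvd_mul_left _ h).trans ?_
      rw [← h2, ← Finset.prod_pair hij]
      exact Finset.prod_dvd_prod_of_subset _ _ _ (Finset.subset_univ _)
    have k2 := Polynomial.map_dvd φ k
    rw [Polynomial.map_mul] at k2
    exact h3 i (hs.squarefree _ k2)

end Pool.Agent.MP_a9d3bd_g
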