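import Pool.Agent.MP_a9d3bd_g.CDefs

namespace Pool.Agent.MP_a9d3bd_g

open MvPolynomial Pool.Agent.MP_a9d3bd_h Pool.Agent.MP_a9d3bd_q

theorem HAT_gen (K : Type) [Field K] :
    ∃ (L : Type) (_ : Field L) (_ : Algebra K L) (_ : IsAlgClosed L) (σ : L),
    Transcendental K σ ∧ ∀ x : Fin 3 → L, x 0 = σ → dim (ak K x) = 1 := by
  let L := AlgebraicClosure (RatFunc K)
  let σ : L := algebraMap (RatFunc K) L RatFunc.X
  have hσ : Transcendental K σ :=
    (transcendental_algebraMap_iff (algebraMap (RatFunc K) L).injective).2 RatFunc.transcendental_X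
  refine ⟨L, inferInstance, inferInstance, inferInstance, σ, hσ, fun x hx => ?_⟩
  have hall : ∀ r : RatFunc K, algebraMap (RatFunc K) L r ∈ IntermediateField.adjoin K {σ} := by
    intro r
    have h : r ∈ IntermediateField.adjoin K {(RatFunc.X : RatFunc K)} := by
      rw [RatFunc.adjoin_X]
      trivial
    have h2 := IntermediateField.adjoin_map K {(RatFunc.X : RatFunc K)}
      (IsScalarTower.toAlgHom K (RatFunc K) L)
    rw [Set.image_singleton] at h2
    exact h2 ▸ ⟨r, h, rfl⟩
  have halg : ∀ a : L, IsAlgebraic (IntermediateField.adjoin K {σ}) a := by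
    intro a
    let φ : RatFunc K →+* IntermediateField.adjoin K {σ} :=
      (algebraMap (RatFunc K) L).codRestrict _ hall
    exact (Algebra.IsAlgebraic.isAlgebraic (R := RatFunc K) a).ringHom_of_comp_eq φ (RingHom.id L)
      φ.injective rfl
  rw [dim_eq, ptd_ak']
  apply le_antisymm
  · exact (tds_le_of_alg (Set.finite_singleton σ) fun a _ => halg a).trans
      ((tds_le_ncard (Set.finite_singleton σ)).trans_eq (Set.ncard_singleton σ))
  · have h1 : tds K (insert σ (∅ : Set L)) = tds K (∅ : Set L) + 1 := by
      refine tds_ins_tr Set.finite_empty ?_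
      rw [IntermediateField.adjoin_empty]
      refine fun h => hσ (h.ringHom_of_comp_eq
        (IntermediateField.botEquiv K L : (⊥ : IntermediateField K L) →+* K) (RingHom.id L)
        (IntermediateField.botEquiv K L).injective (RingHom.ext fun z => ?_))
      obtain ⟨c, rfl⟩ := (IntermediateField.botEquiv K L).symm.surjective z
      simp
    rw [tds_empty, zero_add] at h1
    refine h1.symm.trans_le (tds_mono (Set.finite_range x) ?_)
    rintro a (rfl | ha)
    · exact ⟨0, hx⟩
    · exact ha.elim

end Pool.Agent.MP_a9d3bd_g
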