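import Pool.Agent.MP_a9d3bd_g.CHatCp

namespace Pool.Agent.MP_a9d3bd_g

open MvPolynomial

variable {K : Type} [Field K] {L : Type} [Field L] [Algebra K L] {H g : MvPolynomial (Fin 3) K}

open Classical in
theorem HAT_simple {f : Polynomial L} (hf : f ≠ 0) {t : L} (ht : t ∈ f.roots) :
    f.roots.count t = 1 ↔ (Polynomial.derivative f).eval t ≠ 0 := by
  have h1 := Polynomial.one_lt_rootMultiplicity_iff_isRoot (p := f) (t := t) hf
  have h2 : 0 < f.roots.count t := Multiset.count_pos.2 ht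
  have h3 := (Polynomial.mem_roots hf).1 ht
  rw [← Polynomial.count_roots] at h1
  constructor
  · intro h e
    have := h1.2 ⟨h3, e⟩
    omega
  · intro h
    by_contra e
    exact h (h1.1 (by omega)).2

open Classical in
theorem HAT_dprod {M : Multiset L} {y : L} (hy : y ∈ M) :
    M.count y = 1 ↔ (Polynomial.derivative
      (M.map fun y => Polynomial.X - Polynomial.C y).prod).eval y ≠ 0 := by
  have h := HAT_simple (Polynomial.monic_multisetProd_X_sub_C M).ne_zero (t := y)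
  rw [Polynomial.roots_multiset_prod_X_sub_C] at h
  exact h hy

theorem HAT_mem_Rt (hH : coeff (Finsupp.single 2 H.totalDegree) H = 1) (hg2 : g.degreeOf 2 = 0)
    (hg : coeff (Finsupp.single 1 g.totalDegree) g = 1) (σ : L) (p : L × L) :
    p ∈ HAT_Rt H g σ ↔ aeval ![σ, p.1, p.2] H = 0 ∧ aeval ![σ, p.1, p.2] g = 0 := by
  obtain ⟨t, θ⟩ := p
  simp only [HAT_Rt, Multiset.mem_bind, Multiset.mem_map, Prod.mk.injEq,
    Polynomial.mem_roots (HAT_g1_monic hg σ).1.ne_zero,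
    Polynomial.mem_roots (HAT_h1_monic hH σ _).1.ne_zero, Polynomial.IsRoot.def, HAT_g1_eval,
    HAT_h1_eval]
  constructor
  · rintro ⟨a, h1, b, h2, rfl, rfl⟩
    exact ⟨h2, (HAT_ind hg2 _ _ _ _).trans h1⟩
  · rintro ⟨h1, h2⟩
    exact ⟨t, (HAT_ind hg2 _ _ _ _).trans h2, θ, h1, rfl, rfl⟩

theorem HAT_card_Rt [IsAlgClosed L] (hH : coeff (Finsupp.single 2 H.totalDegree) H = 1)
    (hg : coeff (Finsupp.single 1 g.totalDegree) g = 1) (σ : L) :
    (HAT_Rt H g σ).card = H.totalDegree * g.totalDegree := by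
  rw [HAT_Rt, Multiset.card_bind]
  simp [IsAlgClosed.card_roots_eq_natDegree, (HAT_h1_monic hH σ _).2, (HAT_g1_monic hg σ).2,
    mul_comm]

open Classical in
theorem HAT_count_Rt (σ t θ : L) : (HAT_Rt H g σ).count (t, θ) =
    (HAT_g1 g σ).roots.count t * (HAT_h1 H σ t).roots.count θ := by
  rw [HAT_Rt]
  induction (HAT_g1 g σ).roots using Multiset.induction_on with
  | empty => simp
  | cons a s ih =>
    rw [Multiset.cons_bind, Multiset.count_add, ih, Multiset.count_cons]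
    by_cases h : t = a
    · subst h
      rw [Multiset.count_map_eq_count' (fun θ => (t, θ)) _ (Prod.mk_right_injective t), if_pos rfl]
      ring
    · rw [if_neg h, add_zero, Multiset.count_eq_zero.2, zero_add]
      intro e
      obtain ⟨b, -, e⟩ := Multiset.mem_map.1 e
      exact h (congrArg Prod.fst e).symm

open Classical in
theorem HAT_count_one (hH : coeff (Finsupp.single 2 H.totalDegree) H = 1) (hg2 : g.degreeOf 2 = 0)
    (hg : coeff (Finsupp.single 1 g.totalDegree) g = 1) {σ : L} {p : L × L}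
    (hp : p ∈ HAT_Rt H g σ) : (HAT_Rt H g σ).count p = 1 ↔
      aeval ![σ, p.1, p.2] (pderiv 1 g * pderiv 2 H) ≠ 0 := by
  obtain ⟨t, θ⟩ := p
  obtain ⟨h1, h2⟩ := (HAT_mem_Rt hH hg2 hg σ _).1 hp
  have a1 : t ∈ (HAT_g1 g σ).roots := (Polynomial.mem_roots (HAT_g1_monic hg σ).1.ne_zero).2
    ((HAT_g1_eval g σ t).trans ((HAT_ind hg2 _ _ _ _).trans h2))
  have a2 : θ ∈ (HAT_h1 H σ t).roots := (Polynomial.mem_roots (HAT_h1_monic hH σ t).1.ne_zero).2
    ((HAT_h1_eval H σ t θ).trans h1)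
  rw [HAT_count_Rt, mul_eq_one, HAT_simple (HAT_g1_monic hg σ).1.ne_zero a1,
    HAT_simple (HAT_h1_monic hH σ t).1.ne_zero a2, HAT_g1_der hg2 σ t θ, HAT_h1_der, map_mul,
    mul_ne_zero_iff]

open Classical in
theorem HAT_count_map {α β : Type} (f : α → β) {s : Multiset α} {p p' : α} (hp : p ∈ s)
    (hp' : p' ∈ s) (e : f p = f p') (h : (s.map f).count (f p) = 1) : p = p' ∧ s.count p = 1 := by
  rw [Multiset.count_map, Multiset.card_eq_one] at h
  obtain ⟨a, ha⟩ := h
  have h1 : p = a := Multiset.mem_singleton.1 (ha ▸ Multiset.mem_filter.2 ⟨hp, rfl⟩)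
  have h2 : p' = a := Multiset.mem_singleton.1 (ha ▸ Multiset.mem_filter.2 ⟨hp', e⟩)
  refine ⟨h1.trans h2.symm, ?_⟩
  rw [← Multiset.count_filter_of_pos (p := fun a => f p = f a) rfl, ha, h1,
    Multiset.count_singleton_self]

theorem HAT_vec {α : Type} (x : Fin 3 → α) : ![x 0, x 1, x 2] = x := by
  funext i
  fin_cases i <;> rfl

theorem HAT_fin [IsAlgClosed K] [IsAlgClosed L] (hH : coeff (Finsupp.single 2 H.totalDegree) H = 1)
    (hg2 : g.degreeOf 2 = 0) (hg : coeff (Finsupp.single 1 g.totalDegree) g = 1)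
    (F : MvPolynomial (Fin 3) K) (σ : L) (hF : ∀ p ∈ HAT_Rt H g σ, aeval ![σ, p.1, p.2] F ≠ 0) :
    {x : Fin 3 → K | eval x H = 0 ∧ eval x g = 0 ∧ eval x F = 0}.Finite := by
  classical
  obtain ⟨N, -, hN⟩ := HAT_cp hH hg2 hg F
  have key : ∀ (E : Type) [Field E] [Algebra K E] [IsAlgClosed E] (s : E),
      Polynomial.aeval s (N.eval 0) = 0 ↔ ∃ p ∈ HAT_Rt H g s, aeval ![s, p.1, p.2] F = 0 := by
    intro E _ _ _ s
    have h := congrArg (Polynomial.eval 0) (hN E s)
    rw [Polynomial.eval_zero_map, Polynomial.eval_multiset_prod, Multiset.map_map] at h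
    change Polynomial.aeval s (N.eval 0) = _ at h
    rw [h, Multiset.prod_eq_zero_iff, Multiset.mem_map]
    simp only [Function.comp_apply, Polynomial.eval_sub, Polynomial.eval_X, Polynomial.eval_C,
      zero_sub, neg_eq_zero]
  have hc : N.eval 0 ≠ 0 := fun e => by
    obtain ⟨p, h1, h2⟩ := (key L σ).1 (by rw [e, map_zero])
    exact hF p h1 h2
  refine (((N.eval 0).roots.bind fun s =>
    (HAT_Rt H g s).map fun p => ![s, p.1, p.2]).finite_toSet).subset fun x hx => ?_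
  obtain ⟨h1, h2, h3⟩ := hx
  have hm : (x 1, x 2) ∈ HAT_Rt H g (x 0) := by
    rw [HAT_mem_Rt hH hg2 hg, HAT_vec]
    exact ⟨h1, h2⟩
  refine Multiset.mem_bind.2 ⟨x 0, (Polynomial.mem_roots hc).2 ?_,
    Multiset.mem_map.2 ⟨_, hm, HAT_vec x⟩⟩
  exact (key K (x 0)).2 ⟨_, hm, by rw [HAT_vec]; exact h3⟩

end Pool.Agent.MP_a9d3bd_g
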