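import Pool.Agent.MP_a9d3bd_g.ADefs

namespace Pool.Agent.MP_a9d3bd_g

open MvPolynomial

variable {K : Type} [Field K]

theorem HAT_sep_one {L : Type} [Field L] [Algebra K L] (a b : L) :
    {μ : K | (a ≠ 0 ∨ b ≠ 0) ∧ a + algebraMap K L μ * b = 0}.Finite := by
  refine Set.Subsingleton.finite fun x hx y hy => (algebraMap K L).injective ?_
  have hb : b ≠ 0 := fun hb => by
    obtain ⟨h1 | h1, h2⟩ := hx
    · exact h1 (by simpa [hb] using h2)
    · exact h1 hb
  exact mul_right_cancel₀ hb (add_left_cancel (hx.2.trans hy.2.symm))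

theorem HAT_sep {L : Type} [Field L] [Algebra K L] (M : Multiset (L × L)) :
    ∃ Bad : Finset K, ∀ μ ∉ Bad,
      Set.InjOn (fun p : L × L => p.1 + algebraMap K L μ * p.2) {p | p ∈ M} ∧
      ∀ p ∈ M, p.1 ≠ 0 → p.1 - algebraMap K L μ * p.2 ≠ 0 := by
  have h0 : {p | p ∈ M}.Finite := M.finite_toSet
  have h1 := h0.biUnion fun p _ => h0.biUnion fun q _ =>
    HAT_sep_one (K := K) (p.1 - q.1) (p.2 - q.2)
  have h2 := h0.biUnion fun p _ => HAT_sep_one (K := K) p.1 (-p.2)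
  refine ⟨(h1.union h2).toFinset, fun μ hμ => ?_⟩
  rw [Set.Finite.mem_toFinset, Set.mem_union, not_or] at hμ
  refine ⟨fun p hp q hq e => by_contra fun hn => hμ.1 ?_, fun p hp h e => hμ.2 ?_⟩
  · refine Set.mem_iUnion₂.2 ⟨p, hp, Set.mem_iUnion₂.2 ⟨q, hq, ?_, ?_⟩⟩
    · by_contra h3
      rw [not_or, not_not, not_not, sub_eq_zero, sub_eq_zero] at h3
      exact hn (Prod.ext h3.1 h3.2)
    · have e' : p.1 + algebraMap K L μ * p.2 = q.1 + algebraMap K L μ * q.2 := e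
      linear_combination e'
  · exact Set.mem_iUnion₂.2 ⟨p, hp, Or.inl h, by linear_combination e⟩

end Pool.Agent.MP_a9d3bd_g
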