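import Pool.Agent.MP_a9d3bd_g.ADefs

namespace Pool.Agent.MP_a9d3bd_g

open MvPolynomial

variable {K : Type} [Field K]

theorem HAT_wb_val {L : Type} [Field L] [Algebra K L] {σ : L} (hσ : Transcendental K σ) :
    ∃ V : ValuationSubring L, (∀ c, V.valuation (algebraMap K L c) ≤ 1) ∧ 1 < V.valuation σ := by
  have h0 : σ ≠ 0 := fun e => hσ (e ▸ isAlgebraic_zero)
  have hi : Transcendental K σ⁻¹ := fun h => hσ (IsAlgebraic.inv_iff.1 h)
  have hm : σ⁻¹ ∈ (Polynomial.aeval σ⁻¹ : Polynomial K →ₐ[K] L).toRingHom.range :=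
    ⟨Polynomial.X, by simp⟩
  have hI : Ideal.span {(⟨σ⁻¹, hm⟩ :
      (Polynomial.aeval σ⁻¹ : Polynomial K →ₐ[K] L).toRingHom.range)} ≠ ⊤ := by
    rw [Ne, Ideal.span_singleton_eq_top, isUnit_iff_exists_inv]
    rintro ⟨⟨_, q, rfl⟩, hq⟩
    have h1 : σ⁻¹ * Polynomial.aeval σ⁻¹ q = 1 := congrArg Subtype.val hq
    have h2 : Polynomial.X * q - 1 = 0 := by
      refine transcendental_iff.1 hi _ ?_
      simp only [map_sub, map_mul, Polynomial.aeval_X, map_one, h1, sub_self]
    have h3 := congrArg (Polynomial.eval 0) h2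
    simp at h3
  obtain ⟨V, h1, h2⟩ := Ideal.image_subset_nonunits_valuationSubring _ hI
  refine ⟨V, fun c => (V.valuation_le_one_iff _).2 (h1 ⟨Polynomial.C c, by simp⟩), ?_⟩
  have h3 : σ⁻¹ ∈ V.nonunits := h2 ⟨_, Ideal.subset_span rfl, rfl⟩
  exact (Valuation.one_lt_val_iff _ h0).2 (V.mem_nonunits_iff.1 h3)

theorem HAT_wb_root {L Γ : Type} [Field L] [Algebra K L] [LinearOrderedCommGroupWithZero Γ]
    (v : Valuation L Γ) (hK : ∀ c, v (algebraMap K L c) ≤ 1) {F : MvPolynomial (Fin 3) K}
    {i : Fin 3} (hF : coeff (Finsupp.single i F.totalDegree) F = 1) {w : Γ} (hw : 1 ≤ w)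
    (x : Fin 3 → L) (hx : ∀ j, j ≠ i → v (x j) ≤ w) (h : aeval x F = 0) : v (x i) ≤ w := by
  classical
  by_contra hc
  rw [not_le] at hc
  have u0 : 0 < v (x i) := zero_le.trans_lt hc
  have hs : Finsupp.single i F.totalDegree ∈ F.support := by
    rw [mem_support_iff, hF]
    exact one_ne_zero
  have e1 : ∏ j, x j ^ (Finsupp.single i F.totalDegree j) = x i ^ F.totalDegree := by
    rw [Finset.prod_eq_single i]
    · simp
    · intro j _ hj
      simp [hj]
    · simp
  rw [aeval_def, eval₂_eq', ← Finset.add_sum_erase _ _ hs, hF, map_one, one_mul, e1,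
    add_eq_zero_iff_eq_neg] at h
  have h2 := congrArg v h
  rw [v.map_neg, v.map_pow] at h2
  refine absurd h2 (ne_of_gt (v.map_sum_lt' (pow_pos u0 _) fun d hd => ?_))
  obtain ⟨d1, d2⟩ := Finset.mem_erase.1 hd
  have d3 : d i + ∑ j ∈ Finset.univ.erase i, d j ≤ F.totalDegree := by
    have := le_totalDegree d2
    rwa [Finsupp.sum_fintype _ _ (fun _ => rfl),
      ← Finset.add_sum_erase _ _ (Finset.mem_univ i)] at this
  have d4 : d i < F.totalDegree := by
    by_contra hn
    refine d1 (Finsupp.ext fun j => ?_)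
    by_cases e : j = i
    · subst e
      rw [Finsupp.single_eq_same]
      omega
    · have := Finset.single_le_sum (f := fun j => d j) (fun _ _ => Nat.zero_le _)
        (Finset.mem_erase.2 ⟨e, Finset.mem_univ j⟩)
      rw [Finsupp.single_eq_of_ne e]
      omega
  have d5 : ∏ j ∈ Finset.univ.erase i, v (x j) ^ d j ≤ w ^ (F.totalDegree - d i) := by
    refine le_trans (Finset.prod_le_prod' fun j hj =>
      pow_le_pow_left' (hx j (Finset.mem_erase.1 hj).1) (d j)) ?_
    rw [Finset.prod_pow_eq_pow_sum]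
    exact pow_le_pow_right₀ hw (by omega)
  calc v (algebraMap K L (coeff d F) * ∏ j, x j ^ d j)
      ≤ 1 * (v (x i) ^ d i * ∏ j ∈ Finset.univ.erase i, v (x j) ^ d j) := by
        rw [map_mul, map_prod, ← Finset.mul_prod_erase _ _ (Finset.mem_univ i)]
        simp only [map_pow]
        exact mul_le_mul_left (hK _) _
    _ ≤ v (x i) ^ d i * w ^ (F.totalDegree - d i) := by
        rw [one_mul]
        exact mul_le_mul_right d5 _
    _ < v (x i) ^ d i * v (x i) ^ (F.totalDegree - d i) :=
        mul_lt_mul_of_pos_left (pow_lt_pow_left₀ hc zero_le (by omega)) (pow_pos u0 _)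
    _ = v (x i) ^ F.totalDegree := by
        rw [← pow_add]
        congr 1
        omega

theorem HAT_wb_deg {L Γ : Type} [Field L] [Algebra K L] [LinearOrderedCommGroupWithZero Γ]
    (v : Valuation L Γ) (hK : ∀ c, v (algebraMap K L c) ≤ 1) {σ : L} (hσ : 1 < v σ)
    {c : Polynomial K} (hc : c ≠ 0) : v (Polynomial.aeval σ c) = v σ ^ c.natDegree := by
  have u0 : 0 < v σ := zero_lt_one.trans hσ
  have hl : c.coeff c.natDegree ≠ 0 := Polynomial.leadingCoeff_ne_zero.2 hc
  have h1 : v (algebraMap K L (c.coeff c.natDegree)) = 1 := by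
    refine le_antisymm (hK _) ?_
    have a := hK (c.coeff c.natDegree)⁻¹
    have b : v (algebraMap K L (c.coeff c.natDegree)) ≠ 0 := by simpa using hc
    rwa [map_inv₀, map_inv₀, inv_le_one₀ (zero_lt_iff.2 b)] at a
  have h2 : v (c.coeff c.natDegree • σ ^ c.natDegree) = v σ ^ c.natDegree := by
    rw [Algebra.smul_def, map_mul, h1, one_mul, map_pow]
  rw [Polynomial.aeval_eq_sum_range, Finset.sum_range_succ, v.map_add_eq_of_lt_right, h2]
  rw [h2]
  refine v.map_sum_lt' (pow_pos u0 _) fun i hi => ?_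
  rw [Algebra.smul_def, map_mul, map_pow]
  refine (mul_le_of_le_one_left' (hK _)).trans_lt ?_
  exact pow_lt_pow_right₀ hσ (Finset.mem_range.1 hi)

theorem HAT_wb_prod {L Γ : Type} [Field L] [LinearOrderedCommGroupWithZero Γ]
    (v : Valuation L Γ) {w : Γ} (M : Multiset L) (hM : ∀ y ∈ M, v y ≤ w) (a : ℕ) :
    v (((M.map fun y => Polynomial.X - Polynomial.C y).prod).coeff a) * w ^ a ≤ w ^ M.card := by
  induction M using Multiset.induction_on generalizing a with
  | empty =>
    cases a with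
    | zero => simp
    | succ b => simp [Polynomial.coeff_one]
  | cons y M ih =>
    have hy := hM y (Multiset.mem_cons_self _ _)
    have ih' := ih fun z hz => hM z (Multiset.mem_cons_of_mem hz)
    have k : ∀ b, v (y * ((M.map fun y => Polynomial.X - Polynomial.C y).prod).coeff b) * w ^ b ≤
        w ^ (M.card + 1) := fun b => by
      rw [map_mul, mul_assoc, pow_succ']
      exact mul_le_mul' hy (ih' b)
    rw [Multiset.map_cons, Multiset.prod_cons, Multiset.card_cons]
    cases a with
    | zero =>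
      rw [Polynomial.mul_coeff_zero]
      simpa using k 0
    | succ b =>
      rw [Polynomial.coeff_X_sub_C_mul]
      rcases le_max_iff.1 (v.map_sub _ _) with h | h
      · refine (mul_le_mul_left h _).trans ?_
        rw [pow_succ, pow_succ, ← mul_assoc]
        exact mul_le_mul_left (ih' b) _
      · exact (mul_le_mul_left h _).trans (k _)

theorem HAT_wb {L : Type} [Field L] [Algebra K L] {σ : L} (hσ : Transcendental K σ)
    {H g : MvPolynomial (Fin 3) K} (hH : coeff (Finsupp.single 2 H.totalDegree) H = 1)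
    (hg : coeff (Finsupp.single 1 g.totalDegree) g = 1) (μ : K) (P : Polynomial (Polynomial K))
    (M : Multiset L) (hM : ∀ y ∈ M, ∃ t θ : L, aeval ![σ, t, 0] g = 0 ∧ aeval ![σ, t, θ] H = 0 ∧
      y = t + algebraMap K L μ * θ)
    (hP : P.map (Polynomial.aeval σ : Polynomial K →ₐ[K] L).toRingHom =
      (M.map fun y => Polynomial.X - Polynomial.C y).prod) :
    ∀ a, P.coeff a ≠ 0 → (P.coeff a).natDegree + a ≤ P.natDegree := by
  intro a ha
  obtain ⟨V, hK, hw⟩ := HAT_wb_val hσ
  have h1 : ∀ y ∈ M, V.valuation y ≤ V.valuation σ := by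
    intro y hy
    obtain ⟨t, θ, a1, a2, rfl⟩ := hM y hy
    have ht : V.valuation t ≤ V.valuation σ :=
      HAT_wb_root V.valuation hK hg hw.le _ (fun j hj => by fin_cases j <;> simp_all) a1
    have hθ : V.valuation θ ≤ V.valuation σ :=
      HAT_wb_root V.valuation hK hH hw.le _ (fun j hj => by fin_cases j <;> simp_all) a2
    refine V.valuation.map_add_le ht ?_
    rw [map_mul]
    exact (mul_le_of_le_one_left' (hK _)).trans hθ
  have h2 := HAT_wb_prod V.valuation M h1 a
  have h3 : P.natDegree = M.card := by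
    rw [← Polynomial.natDegree_multiset_prod_X_sub_C_eq_card, ← hP,
      Polynomial.natDegree_map_eq_of_injective (transcendental_iff_injective.1 hσ)]
  rw [← hP, Polynomial.coeff_map] at h2
  have h4 := HAT_wb_deg V.valuation hK hw ha
  have h5 : V.valuation σ ^ ((P.coeff a).natDegree + a) ≤ V.valuation σ ^ M.card := by
    rw [pow_add, ← h4]
    exact h2
  rw [h3]
  exact (pow_le_pow_iff_right₀ hw).1 h5

end Pool.Agent.MP_a9d3bd_g
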