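import Pool.Agent.MP_a9d3bd_g.CDefs
import Pool.Agent.MP_a9d3bd_g.CHatRt
import Pool.Agent.MP_a9d3bd_g.CHatWb
import Pool.Agent.MP_a9d3bd_g.CHatFac
import Pool.Agent.MP_a9d3bd_g.CHatSep
import Pool.Agent.MP_a9d3bd_g.CHatGen

namespace Pool.Agent.MP_a9d3bd_g

open MvPolynomial Pool.Agent.MP_a9d3bd_h Pool.Agent.MP_a9d3bd_q

variable {K : Type} [Field K] {e : ℕ} {H : R3 K} {W : Pr K (Fin 3)}
  {lam : Pr K (Fin 3) → R3 K → ℝ}

theorem HAT [IsAlgClosed K] (h : Srf H W) {g : R3 K} (hg : Gp H g) (Zs : Finset (Fin 3 → K))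
    (hZ : ∀ x ∈ Zs, eval x H = 0 ∧ eval x g = 0 ∧ eval x (pderiv 1 g * pderiv 2 H) ≠ 0) :
    ∃ Bad : Finset K, ∀ μ ∉ Bad, μ ≠ 0 ∧
      {x : Fin 3 → K | eval x H = 0 ∧ eval x g = 0 ∧
        eval x (pderiv 2 H - C μ * pderiv 1 H) = 0}.Finite ∧
      (∀ x ∈ Zs, eval x (pderiv 2 H - C μ * pderiv 1 H) ≠ 0) ∧
      ∃ (n : ℕ) (P : Fin n → Polynomial (Polynomial K)), Crv P ∧ (∀ i, (P i).Monic) ∧
        (∀ i a, (P i).coeff a ≠ 0 → ((P i).coeff a).natDegree + a ≤ (P i).natDegree) ∧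
        ∑ i, (P i).natDegree = H.totalDegree * g.totalDegree ∧
        dn μ (∏ i, P i) ∈ Ideal.span {H, g} ∧
        (∀ y : K × K, (∏ i, P i).evalEval y.1 y.2 = 0 →
          ∃ x, eval x H = 0 ∧ eval x g = 0 ∧ pr μ x = y) ∧
        (∀ x x', eval x H = 0 → eval x g = 0 → eval x' H = 0 → eval x' g = 0 → pr μ x = pr μ x' →
          (Polynomial.derivative (∏ i, P i)).evalEval (pr μ x).1 (pr μ x).2 ≠ 0 →
          x = x' ∧ eval x (pderiv 1 g * pderiv 2 H) ≠ 0) ∧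
        ∀ x ∈ Zs, (Polynomial.derivative (∏ i, P i)).evalEval (pr μ x).1 (pr μ x).2 ≠ 0 := by
  classical
  obtain ⟨hg2, hg1, hg3⟩ := hg
  have hH := h.top
  obtain ⟨L, _, _, _, σ, hσ, hd⟩ := HAT_gen K
  have gen : ∀ p ∈ HAT_Rt H g σ, aeval ![σ, p.1, p.2] (pderiv 1 g * pderiv 2 H) ≠ 0 := by
    intro p hp
    obtain ⟨h1, h2⟩ := (HAT_mem_Rt hH hg2 hg1 σ p).1 hp
    exact hg3 (ak K ![σ, p.1, p.2]) h1 h2 (hd _ rfl)
  obtain ⟨B1, hB1⟩ := HAT_sep (K := K) (HAT_Rt H g σ)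
  obtain ⟨B2, hB2⟩ := HAT_sep (K := K) ((HAT_Rt H g σ).map fun p =>
    (aeval ![σ, p.1, p.2] (pderiv 2 H), aeval ![σ, p.1, p.2] (pderiv 1 H)))
  obtain ⟨B3, hB3⟩ := HAT_sep (K := K) (Zs.val.map fun x =>
    (eval x (pderiv 2 H), eval x (pderiv 1 H)))
  obtain ⟨B4, hB4⟩ := HAT_sep (K := K) (Zs.val.bind fun x => HAT_Rt H g (x 0))
  refine ⟨insert 0 (B1 ∪ B2 ∪ B3 ∪ B4), fun μ hμ => ?_⟩
  simp only [Finset.mem_insert, Finset.mem_union, not_or] at hμ
  obtain ⟨m0, ⟨⟨m1, m2⟩, m3⟩, m4⟩ := hμ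
  refine ⟨m0, HAT_fin hH hg2 hg1 _ σ fun p hp => ?_, fun x hx => ?_, ?_⟩
  · have a := gen p hp
    rw [map_mul] at a
    rw [map_sub, map_mul, aeval_C]
    exact (hB2 μ m2).2 _ (Multiset.mem_map.2 ⟨p, hp, rfl⟩) (right_ne_zero_of_mul a)
  · have a := (hZ x hx).2.2
    rw [map_mul] at a
    rw [map_sub, map_mul, eval_C]
    exact (hB3 μ m3).2 _ (Multiset.mem_map.2 ⟨x, hx, rfl⟩) (right_ne_zero_of_mul a)
  obtain ⟨Q, hQ1, hQ2⟩ := HAT_cp hH hg2 hg1 (X 1 + C μ * X 2)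
  have hQ : ∀ (E : Type) [Field E] [Algebra K E] [IsAlgClosed E] (s : E),
      Q.map (Polynomial.aeval s : Polynomial K →ₐ[K] E).toRingHom =
        (((HAT_Rt H g s).map fun p => p.1 + algebraMap K E μ * p.2).map fun y =>
          Polynomial.X - Polynomial.C y).prod := by
    intro E _ _ _ s
    rw [hQ2 E s, Multiset.map_map]
    congr 1
    refine Multiset.map_congr rfl fun p _ => ?_
    rw [map_add, map_mul, aeval_C, aeval_X, aeval_X]
    rfl
  have inj : Function.Injective (Polynomial.aeval σ : Polynomial K →ₐ[K] L).toRingHom :=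
    transcendental_iff_injective.1 hσ
  have hm := Polynomial.monic_multisetProd_X_sub_C
    ((HAT_Rt H g σ).map fun p => p.1 + algebraMap K L μ * p.2)
  have hr := Polynomial.roots_multiset_prod_X_sub_C
    ((HAT_Rt H g σ).map fun p => p.1 + algebraMap K L μ * p.2)
  have hn := Polynomial.natDegree_multiset_prod_X_sub_C_eq_card
    ((HAT_Rt H g σ).map fun p => p.1 + algebraMap K L μ * p.2)
  rw [← hQ L σ] at hm hr hn
  rw [Polynomial.natDegree_map_eq_of_injective inj, Multiset.card_map, HAT_card_Rt hH hg1] at hn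
  have hs : (Q.map (Polynomial.aeval σ : Polynomial K →ₐ[K] L).toRingHom).Separable := by
    rw [← Polynomial.nodup_roots_iff_of_splits hm.ne_zero (IsAlgClosed.splits _), hr]
    refine Multiset.Nodup.map_on (fun p hp p' hp' e => (hB1 μ m1).1 hp hp' e) ?_
    exact Multiset.nodup_iff_count_eq_one.2 fun p hp =>
      (HAT_count_one hH hg2 hg1 hp).2 (gen p hp)
  obtain ⟨n, P, hP1, hP2, hP3⟩ := HAT_fac _ Q (Polynomial.monic_of_injective inj hm) hs
  have ev : ∀ (R : Polynomial (Polynomial K)) (s y : K), R.evalEval s y =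
      (R.map (Polynomial.aeval s : Polynomial K →ₐ[K] K).toRingHom).eval y := fun R s y =>
    (Polynomial.map_evalRingHom_eval s y R).symm
  have mem : ∀ x : Fin 3 → K, eval x H = 0 → eval x g = 0 → (x 1, x 2) ∈ HAT_Rt H g (x 0) := by
    intro x h1 h2
    rw [HAT_mem_Rt hH hg2 hg1, HAT_vec]
    exact ⟨h1, h2⟩
  have der : ∀ x : Fin 3 → K, eval x H = 0 → eval x g = 0 →
      ((Polynomial.derivative Q).evalEval (pr μ x).1 (pr μ x).2 ≠ 0 ↔
        ((HAT_Rt H g (x 0)).map fun p => p.1 + algebraMap K K μ * p.2).count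
          (x 1 + algebraMap K K μ * x 2) = 1) := by
    intro x h1 h2
    rw [ev, ← Polynomial.derivative_map, hQ K]
    exact (HAT_dprod (Multiset.mem_map_of_mem (fun p : K × K => p.1 + algebraMap K K μ * p.2)
      (mem x h1 h2))).symm
  have one : ∀ x : Fin 3 → K, eval x H = 0 → eval x g = 0 →
      ((HAT_Rt H g (x 0)).count (x 1, x 2) = 1 ↔ eval x (pderiv 1 g * pderiv 2 H) ≠ 0) := by
    intro x h1 h2
    rw [HAT_count_one hH hg2 hg1 (mem x h1 h2), HAT_vec]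
    rfl
  refine ⟨n, P, hP1, hP2, fun i => ?_, ?_, ?_, fun y hy => ?_, ?_, fun x hx => ?_⟩
  · refine HAT_wb hσ hH hg1 μ (P i) _ (fun y hy => ?_)
      ((IsAlgClosed.splits _).eq_prod_roots_of_monic ((hP2 i).map _))
    have hdv : P i ∣ Q := hP3 ▸ Finset.dvd_prod_of_mem P (Finset.mem_univ i)
    have hy' := Multiset.mem_of_le
      (Polynomial.roots.le_of_dvd hm.ne_zero (Polynomial.map_dvd _ hdv)) hy
    rw [hr] at hy'
    obtain ⟨p, hp, rfl⟩ := Multiset.mem_map.1 hy'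
    obtain ⟨h1, h2⟩ := (HAT_mem_Rt hH hg2 hg1 σ p).1 hp
    exact ⟨p.1, p.2, (HAT_ind hg2 _ _ _ _).trans h2, h1, rfl⟩
  · rw [← Polynomial.natDegree_prod_of_monic _ _ fun i _ => hP2 i, hP3, hn]
  · rw [hP3]
    exact hQ1
  · rw [hP3, ev, hQ K, ← Polynomial.IsRoot.def,
      ← Polynomial.mem_roots (Polynomial.monic_multisetProd_X_sub_C _).ne_zero,
      Polynomial.roots_multiset_prod_X_sub_C] at hy
    obtain ⟨p, hp, e⟩ := Multiset.mem_map.1 hy
    obtain ⟨h1, h2⟩ := (HAT_mem_Rt hH hg2 hg1 _ p).1 hp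
    exact ⟨![y.1, p.1, p.2], h1, h2, Prod.ext rfl e⟩
  · intro x x' h1 h2 h1' h2' e hx
    rw [hP3, der x h1 h2] at hx
    have e0 : x 0 = x' 0 := congrArg Prod.fst e
    have e1 : x 1 + μ * x 2 = x' 1 + μ * x' 2 := congrArg Prod.snd e
    obtain ⟨a, b⟩ := HAT_count_map (fun p : K × K => p.1 + algebraMap K K μ * p.2)
      (mem x h1 h2) (e0 ▸ mem x' h1' h2') e1 hx
    refine ⟨?_, (one x h1 h2).1
      ((congrArg (fun i : DecidableEq (K × K) => @Multiset.count _ i (x 1, x 2) (HAT_Rt H g (x 0)))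
        (Subsingleton.elim _ _)).trans b)⟩
    funext i
    fin_cases i
    · exact e0
    · exact congrArg Prod.fst a
    · exact congrArg Prod.snd a
  · obtain ⟨h1, h2, h3⟩ := hZ x hx
    rw [hP3, der x h1 h2]
    refine (Multiset.count_map_eq_count (fun p : K × K => p.1 + algebraMap K K μ * p.2) _
      ((hB4 μ m4).1.mono fun p hp => Multiset.mem_bind.2 ⟨x, hx, hp⟩) _ (mem x h1 h2)).trans ?_
    exact (one x h1 h2).2 h3

end Pool.Agent.MP_a9d3bd_g
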