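import Pool.Agent.MP_a9d3bd_g.CHatMonic

namespace Pool.Agent.MP_a9d3bd_g

open MvPolynomial

variable {K : Type} [Field K] {A A' : Type} [CommRing A] [Algebra K A] [CommRing A'] [Algebra K A']

/-- `g(σ, T)`. -/
noncomputable def HAT_g1 (g : MvPolynomial (Fin 3) K) (σ : A) : Polynomial A :=
  aeval ![Polynomial.C σ, Polynomial.X, 0] g

/-- `H(σ, t, Θ)`. -/
noncomputable def HAT_h1 (H : MvPolynomial (Fin 3) K) (σ t : A) : Polynomial A :=
  aeval ![Polynomial.C σ, Polynomial.C t, Polynomial.X] H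

/-- The fibre of `V(H, g)` over `s = σ` with multiplicities. -/
noncomputable def HAT_Rt {L : Type} [Field L] [Algebra K L] (H g : MvPolynomial (Fin 3) K) (σ : L) :
    Multiset (L × L) :=
  (HAT_g1 g σ).roots.bind fun t => (HAT_h1 H σ t).roots.map fun θ => (t, θ)

theorem HAT_hom (Ψ : A →ₐ[K] A') (F : MvPolynomial (Fin 3) K) (a b c : A) :
    Ψ (aeval ![a, b, c] F) = aeval ![Ψ a, Ψ b, Ψ c] F := by
  rw [comp_aeval_apply]
  congr 2
  funext i
  fin_cases i <;> rfl

theorem HAT_g1_map (φ : A →ₐ[K] A') (g : MvPolynomial (Fin 3) K) (σ : A) :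
    (HAT_g1 g σ).map (φ : A →+* A') = HAT_g1 g (φ σ) := by
  have := HAT_hom (Polynomial.mapAlgHom φ) g (Polynomial.C σ) Polynomial.X 0
  simpa [HAT_g1] using this

theorem HAT_h1_map (φ : A →ₐ[K] A') (H : MvPolynomial (Fin 3) K) (σ t : A) :
    (HAT_h1 H σ t).map (φ : A →+* A') = HAT_h1 H (φ σ) (φ t) := by
  have := HAT_hom (Polynomial.mapAlgHom φ) H (Polynomial.C σ) (Polynomial.C t) Polynomial.X
  simpa [HAT_h1] using this

theorem HAT_g1_tow (φ : A →ₐ[K] A') (y : A') (g : MvPolynomial (Fin 3) K) (σ : A) :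
    Polynomial.aevalTower φ y (HAT_g1 g σ) = aeval ![φ σ, y, 0] g := by
  rw [HAT_g1, HAT_hom]
  simp

theorem HAT_h1_tow (φ : A →ₐ[K] A') (y : A') (H : MvPolynomial (Fin 3) K) (σ t : A) :
    Polynomial.aevalTower φ y (HAT_h1 H σ t) = aeval ![φ σ, φ t, y] H := by
  rw [HAT_h1, HAT_hom]
  simp

theorem HAT_g1_eval (g : MvPolynomial (Fin 3) K) (σ t : A) :
    (HAT_g1 g σ).eval t = aeval ![σ, t, 0] g :=
  (Polynomial.eval₂_id (p := HAT_g1 g σ) (x := t)).symm.trans (HAT_g1_tow (AlgHom.id K A) t g σ)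

theorem HAT_h1_eval (H : MvPolynomial (Fin 3) K) (σ t θ : A) :
    (HAT_h1 H σ t).eval θ = aeval ![σ, t, θ] H :=
  (Polynomial.eval₂_id (p := HAT_h1 H σ t) (x := θ)).symm.trans
    (HAT_h1_tow (AlgHom.id K A) θ H σ t)

theorem HAT_ind {g : MvPolynomial (Fin 3) K} (hg : g.degreeOf 2 = 0) (a b c c' : A) :
    aeval ![a, b, c] g = aeval ![a, b, c'] g := by
  refine eval₂Hom_congr' rfl (fun i hi _ => ?_) rfl
  fin_cases i
  · rfl
  · rfl
  · exact absurd hg (mem_vars_iff_degreeOf_ne_zero.1 hi)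

theorem HAT_der (F : MvPolynomial (Fin 3) K) (i : Fin 3) (y : Fin 3 → Polynomial A)
    (hi : y i = Polynomial.X) (hy : ∀ j, j ≠ i → Polynomial.derivative (y j) = 0) :
    Polynomial.derivative (aeval y F) = aeval y (pderiv i F) := by
  induction F using MvPolynomial.induction_on with
  | C a => simp [Polynomial.algebraMap_apply]
  | add p q hp hq => simp [hp, hq]
  | mul_X p j hp =>
    by_cases h : j = i
    · subst h
      simp [hp, hi, mul_comm]
    · simp [hp, hy j h, pderiv_X_of_ne h, mul_comm]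

theorem HAT_g1_der {g : MvPolynomial (Fin 3) K} (hg : g.degreeOf 2 = 0) (σ t θ : A) :
    (Polynomial.derivative (HAT_g1 g σ)).eval t = aeval ![σ, t, θ] (pderiv 1 g) := by
  rw [HAT_g1, HAT_ind hg _ _ _ (Polynomial.C θ), HAT_der g 1 _ rfl]
  · have := HAT_hom (Polynomial.aevalTower (AlgHom.id K A) t) (pderiv 1 g) (Polynomial.C σ)
      Polynomial.X (Polynomial.C θ)
    simp only [Polynomial.aevalTower_C, Polynomial.aevalTower_X, AlgHom.coe_id, id_eq] at this
    exact Polynomial.eval₂_id.symm.trans this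
  · intro j hj
    fin_cases j
    · simp
    · exact absurd rfl hj
    · simp

theorem HAT_h1_der (H : MvPolynomial (Fin 3) K) (σ t θ : A) :
    (Polynomial.derivative (HAT_h1 H σ t)).eval θ = aeval ![σ, t, θ] (pderiv 2 H) := by
  rw [HAT_h1, HAT_der H 2 _ rfl]
  · exact HAT_h1_eval (pderiv 2 H) σ t θ
  · intro j hj
    fin_cases j
    · simp
    · simp
    · exact absurd rfl hj

theorem HAT_g1_monic [Nontrivial A] {g : MvPolynomial (Fin 3) K}
    (hg : coeff (Finsupp.single 1 g.totalDegree) g = 1) (σ : A) :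
    (HAT_g1 g σ).Monic ∧ (HAT_g1 g σ).natDegree = g.totalDegree := by
  refine HAT_monic g 1 hg _ rfl fun j hj => ?_
  fin_cases j
  · simp
  · exact absurd rfl hj
  · simp

theorem HAT_h1_monic [Nontrivial A] {H : MvPolynomial (Fin 3) K}
    (hH : coeff (Finsupp.single 2 H.totalDegree) H = 1) (σ t : A) :
    (HAT_h1 H σ t).Monic ∧ (HAT_h1 H σ t).natDegree = H.totalDegree := by
  refine HAT_monic H 2 hH _ rfl fun j hj => ?_
  fin_cases j
  · simp
  · simp
  · exact absurd rfl hj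

theorem HAT_res {L : Type} [Field L] [IsAlgClosed L] {f : Polynomial L} (hf : f.Monic)
    (G : Polynomial (Polynomial L)) (n : ℕ) (hn : G.natDegree ≤ n) :
    Polynomial.resultant (f.map Polynomial.C) G f.natDegree n =
      (f.roots.map fun t => G.eval (Polynomial.C t)).prod := by
  have hs := IsAlgClosed.splits f
  have h := Polynomial.resultant_eq_prod_eval (f.map Polynomial.C) G n hn (hs.map _)
  rw [hf.natDegree_map, (hf.map _).leadingCoeff, one_pow, one_mul,
    hs.roots_map_of_injective Polynomial.C_injective, Multiset.map_map] at h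
  exact h

/-- `Y - F(a, T, Θ)`. -/
noncomputable def HAT_G (F : MvPolynomial (Fin 3) K) (a Y : A) : Polynomial (Polynomial A) :=
  Polynomial.C (Polynomial.C Y) - HAT_h1 F (Polynomial.C a) Polynomial.X

/-- The resultant in `Θ`. -/
noncomputable def HAT_R1 (H F : MvPolynomial (Fin 3) K) (a Y : A) : Polynomial A :=
  Polynomial.resultant (HAT_h1 H (Polynomial.C a) Polynomial.X) (HAT_G F a Y) H.totalDegree
    ((HAT_G F a Y).natDegree + 1)

/-- The resultant in `T`. -/
noncomputable def HAT_nm (H g F : MvPolynomial (Fin 3) K) (a Y : A) : A :=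
  Polynomial.resultant (HAT_g1 g a) (HAT_R1 H F a Y) g.totalDegree
    ((HAT_R1 H F a Y).natDegree + 1)

theorem HAT_mem [Nontrivial A] {H g : MvPolynomial (Fin 3) K}
    (hH : coeff (Finsupp.single 2 H.totalDegree) H = 1)
    (hg2 : g.degreeOf 2 = 0) (hg : coeff (Finsupp.single 1 g.totalDegree) g = 1)
    (F : MvPolynomial (Fin 3) K) (a Y : A) (ψ0 : A →ₐ[K] MvPolynomial (Fin 3) K)
    (ha : ψ0 a = X 0) (hY : ψ0 Y = F) : ψ0 (HAT_nm H g F a Y) ∈ Ideal.span {H, g} := by
  obtain ⟨p, q, -, -, e1⟩ := Polynomial.exists_mul_add_mul_eq_C_resultant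
    (HAT_h1 H (Polynomial.C a) Polynomial.X) (HAT_G F a Y)
    (HAT_h1_monic hH _ _).2.le (Nat.le_succ _) (Or.inr (Nat.succ_ne_zero _))
  obtain ⟨p', q', -, -, e2⟩ := Polynomial.exists_mul_add_mul_eq_C_resultant (HAT_g1 g a)
    (HAT_R1 H F a Y) (HAT_g1_monic hg _).2.le (Nat.le_succ _) (Or.inr (Nat.succ_ne_zero _))
  let ψ1 := Polynomial.aevalTower ψ0 (X 1)
  let ψ2 := Polynomial.aevalTower ψ1 (X 2)
  have hX : ∀ E : MvPolynomial (Fin 3) K,
      aeval ![(X 0 : MvPolynomial (Fin 3) K), X 1, X 2] E = E := fun E => by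
    conv_rhs => rw [← aeval_X_left_apply E]
    congr 2
    funext i
    fin_cases i <;> rfl
  have h2 : ∀ E, ψ2 (HAT_h1 E (Polynomial.C a) Polynomial.X) = E := fun E => by
    rw [HAT_h1_tow, Polynomial.aevalTower_C, Polynomial.aevalTower_X, ha, hX]
  have hG : ψ2 (HAT_G F a Y) = 0 := by
    rw [HAT_G, map_sub, h2, Polynomial.aevalTower_C, Polynomial.aevalTower_C, hY, sub_self]
  have hgA : ψ1 (HAT_g1 g a) = g := by
    rw [HAT_g1_tow, ha, HAT_ind hg2 _ _ _ (X 2), hX]
  have f1 := congrArg ψ2 e1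
  rw [map_add, map_mul, map_mul, hG, zero_mul, add_zero, h2, Polynomial.aevalTower_C] at f1
  have f2 := congrArg ψ1 e2
  rw [map_add, map_mul, map_mul, hgA, Polynomial.aevalTower_C] at f2
  have f3 : ψ1 (HAT_R1 H F a Y) = H * ψ2 p := f1.symm
  rw [HAT_nm, ← f2, f3, Ideal.mem_span_pair]
  exact ⟨ψ2 p * ψ1 q', ψ1 p', by ring⟩

theorem HAT_pf {H g : MvPolynomial (Fin 3) K} (hH : coeff (Finsupp.single 2 H.totalDegree) H = 1)
    (hg : coeff (Finsupp.single 1 g.totalDegree) g = 1) (F : MvPolynomial (Fin 3) K) (a Y : A)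
    {L : Type} [Field L] [Algebra K L] [IsAlgClosed L] (σ : L) (φ : A →ₐ[K] Polynomial L)
    (ha : φ a = Polynomial.C σ) (hY : φ Y = Polynomial.X) :
    φ (HAT_nm H g F a Y) = ((HAT_Rt H g σ).map fun p =>
      Polynomial.X - Polynomial.C (aeval ![σ, p.1, p.2] F)).prod := by
  change (φ : A →+* Polynomial L) _ = _
  rw [HAT_nm, ← Polynomial.resultant_map_map, HAT_g1_map, ha]
  have e1 : HAT_g1 g (Polynomial.C σ) = (HAT_g1 g σ).map Polynomial.C :=
    (HAT_g1_map (Polynomial.CAlgHom : L →ₐ[K] Polynomial L) g σ).symm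
  rw [e1, ← (HAT_g1_monic hg σ).2, HAT_res (HAT_g1_monic hg σ).1 _ _
    (Polynomial.natDegree_map_le.trans (Nat.le_succ _)), HAT_Rt, Multiset.map_bind,
    Multiset.prod_bind]
  congr 1
  refine Multiset.map_congr rfl fun t _ => ?_
  let ψ := Polynomial.aevalTower φ (Polynomial.C t)
  rw [Polynomial.eval_map]
  change (ψ : Polynomial A →+* Polynomial L) _ = _
  have h2 : ∀ E : MvPolynomial (Fin 3) K, (HAT_h1 E (Polynomial.C a) Polynomial.X).map
      (ψ : Polynomial A →+* Polynomial L) = (HAT_h1 E σ t).map Polynomial.C := fun E => by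
    rw [HAT_h1_map, Polynomial.aevalTower_C, Polynomial.aevalTower_X, ha]
    exact (HAT_h1_map (Polynomial.CAlgHom : L →ₐ[K] Polynomial L) E σ t).symm
  rw [HAT_R1, ← Polynomial.resultant_map_map, h2, ← (HAT_h1_monic hH σ t).2,
    HAT_res (HAT_h1_monic hH σ t).1 _ _ (Polynomial.natDegree_map_le.trans (Nat.le_succ _)),
    Multiset.map_map]
  congr 1
  refine Multiset.map_congr rfl fun θ _ => ?_
  rw [HAT_G, Polynomial.map_sub, h2, Polynomial.map_C, Polynomial.eval_sub, Polynomial.eval_C,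
    Polynomial.eval_map, Polynomial.eval₂_at_apply, HAT_h1_eval]
  simp [ψ, hY]

theorem HAT_cp {H g : MvPolynomial (Fin 3) K} (hH : coeff (Finsupp.single 2 H.totalDegree) H = 1)
    (hg2 : g.degreeOf 2 = 0) (hg : coeff (Finsupp.single 1 g.totalDegree) g = 1)
    (F : MvPolynomial (Fin 3) K) :
    ∃ P : Polynomial (Polynomial K),
      P.eval₂ (Polynomial.aeval (X 0 : MvPolynomial (Fin 3) K)).toRingHom F ∈ Ideal.span {H, g} ∧
      ∀ (L : Type) [Field L] [Algebra K L] [IsAlgClosed L] (σ : L),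
        P.map (Polynomial.aeval σ : Polynomial K →ₐ[K] L).toRingHom =
          ((HAT_Rt H g σ).map fun p =>
            Polynomial.X - Polynomial.C (aeval ![σ, p.1, p.2] F)).prod := by
  refine ⟨HAT_nm H g F (Polynomial.C Polynomial.X) Polynomial.X, ?_, fun L _ _ _ σ => ?_⟩
  · exact HAT_mem hH hg2 hg F _ _
      (Polynomial.aevalTower (Polynomial.aeval (X 0 : MvPolynomial (Fin 3) K)) F)
      (by simp) (by simp)
  · exact HAT_pf hH hg F _ _ σ
      (Polynomial.mapAlgHom (Polynomial.aeval σ : Polynomial K →ₐ[K] L)) (by simp) (by simp)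

end Pool.Agent.MP_a9d3bd_g
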