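import Pool.Agent.MP_a9d3bd_g.ADefs

namespace Pool.Agent.MP_a9d3bd_g

open MvPolynomial

variable {K : Type} [Field K]

theorem HAT_monic_deg {A : Type} [CommRing A] [Algebra K A] (i : Fin 3) (y : Fin 3 → Polynomial A)
    (hi : y i = Polynomial.X) (hy : ∀ j, j ≠ i → (y j).natDegree = 0) (d : Fin 3 →₀ ℕ) (c : K) :
    (aeval y (monomial d c)).natDegree ≤ d i := by
  rw [aeval_monomial, Finsupp.prod_fintype _ _ fun _ => pow_zero _, Polynomial.algebraMap_apply]
  refine (Polynomial.natDegree_C_mul_le _ _).trans ((Polynomial.natDegree_prod_le _ _).trans ?_)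
  rw [Finset.sum_eq_single i]
  · rw [hi]
    exact Polynomial.natDegree_X_pow_le _
  · intro j _ hj
    have := Polynomial.natDegree_pow_le (p := y j) (n := d j)
    rw [hy j hj, mul_zero] at this
    exact Nat.le_zero.1 this
  · intro h
    exact absurd (Finset.mem_univ i) h

theorem HAT_monic_lt (F : MvPolynomial (Fin 3) K) (i : Fin 3) (d : Fin 3 →₀ ℕ)
    (hd : d ∈ F.support) (hne : d ≠ Finsupp.single i F.totalDegree) : d i < F.totalDegree := by
  have h1 := le_totalDegree hd
  rw [Finsupp.sum_fintype _ _ fun _ => rfl, ← Finset.add_sum_erase _ _ (Finset.mem_univ i)] at h1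
  by_contra h
  apply hne
  have h2 : ∑ j ∈ Finset.univ.erase i, d j = 0 := by omega
  ext j
  by_cases hj : j = i
  · subst hj
    rw [Finsupp.single_eq_same]
    omega
  · rw [Finsupp.single_eq_of_ne hj]
    exact Finset.sum_eq_zero_iff.1 h2 j (Finset.mem_erase.2 ⟨hj, Finset.mem_univ j⟩)

theorem HAT_monic {A : Type} [CommRing A] [Nontrivial A] [Algebra K A] (F : MvPolynomial (Fin 3) K)
    (i : Fin 3) (hF : coeff (Finsupp.single i F.totalDegree) F = 1) (y : Fin 3 → Polynomial A)
    (hi : y i = Polynomial.X) (hy : ∀ j, j ≠ i → (y j).natDegree = 0) :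
    (aeval y F).Monic ∧ (aeval y F).natDegree = F.totalDegree := by
  classical
  have hm : Finsupp.single i F.totalDegree ∈ F.support := by
    rw [mem_support_iff, hF]
    exact one_ne_zero
  have e : aeval y F = Polynomial.X ^ F.totalDegree +
      ∑ d ∈ F.support.erase (Finsupp.single i F.totalDegree), aeval y (monomial d (coeff d F)) := by
    conv_lhs => rw [F.as_sum, ← Finset.add_sum_erase _ _ hm, map_add, map_sum, hF]
    rw [← X_pow_eq_monomial, map_pow, aeval_X, hi]
  have hlt : (∑ d ∈ F.support.erase (Finsupp.single i F.totalDegree),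
      aeval y (monomial d (coeff d F))).degree < (F.totalDegree : WithBot ℕ) := by
    refine (Polynomial.degree_sum_le _ _).trans_lt
      ((Finset.sup_lt_iff (WithBot.bot_lt_coe _)).2 fun d hd => ?_)
    obtain ⟨h1, h2⟩ := Finset.mem_erase.1 hd
    refine Polynomial.degree_le_natDegree.trans_lt ?_
    exact_mod_cast (HAT_monic_deg i y hi hy d _).trans_lt (HAT_monic_lt F i d h2 h1)
  rw [e]
  refine ⟨Polynomial.monic_X_pow_add hlt, ?_⟩
  rw [Polynomial.natDegree_add_eq_left_of_degree_lt (by rwa [Polynomial.degree_X_pow]),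
    Polynomial.natDegree_X_pow]

end Pool.Agent.MP_a9d3bd_g
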