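import Pool.Agent.MP_a9d3bd_g.CDefs

namespace Pool.Agent.MP_a9d3bd_g

open MvPolynomial Pool.Agent.MP_a9d3bd_h Pool.Agent.MP_a9d3bd_q

variable {K : Type} [Field K] {e : ℕ} {H : R3 K} {W : Pr K (Fin 3)}
  {lam : Pr K (Fin 3) → R3 K → ℝ}

/-- the value of the form of degree `m` -/
noncomputable def INFa_top (F : R3 K) (m : ℕ) (y : Fin 3 → K) : K :=
  ∑ d ∈ F.support, coeff d F * (y 0 ^ d 0 * y 1 ^ d 1 * y 2 ^ d 2) * 0 ^ (m - (d 0 + d 1 + d 2))

theorem INFa_deg (F : R3 K) {d : Fin 3 →₀ ℕ} (hd : d ∈ F.support) :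
    d 0 + d 1 + d 2 ≤ F.totalDegree := by
  have := le_totalDegree hd
  rwa [Finsupp.sum_fintype _ _ (fun _ => rfl), Fin.sum_univ_three] at this

theorem INFa_top2 (F : R3 K) :
    INFa_top F F.totalDegree ![0, 0, 1] = coeff (Finsupp.single 2 F.totalDegree) F := by
  unfold INFa_top
  rw [Finset.sum_eq_single (Finsupp.single 2 F.totalDegree)]
  · simp
  · intro d hd hne
    have := INFa_deg F hd
    by_contra h0
    simp at h0
    apply hne
    ext i
    fin_cases i <;> simp <;> omega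
  · intro h
    simp [notMem_support_iff.1 h]

theorem INFa_top1 (F : R3 K) :
    INFa_top F F.totalDegree ![0, 1, 0] = coeff (Finsupp.single 1 F.totalDegree) F := by
  unfold INFa_top
  rw [Finset.sum_eq_single (Finsupp.single 1 F.totalDegree)]
  · simp
  · intro d hd hne
    have := INFa_deg F hd
    by_contra h0
    simp at h0
    apply hne
    ext i
    fin_cases i <;> simp <;> omega
  · intro h
    simp [notMem_support_iff.1 h]

theorem INFa_lead (F : R3 K) (μ : K) (t : Fin e → K) : (sb μ t F).coeff F.totalDegree =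
    Polynomial.C (INFa_top F F.totalDegree ![0, -μ, 1]) := by
  unfold INFa_top
  conv_lhs => rw [show sb μ t F = sb μ t (∑ d ∈ F.support, monomial d (coeff d F)) by
    rw [← F.as_sum]]
  rw [map_sum, map_sum, Polynomial.finsetSum_coeff]
  refine Finset.sum_congr rfl fun d hd => ?_
  have h1 := INFa_deg F hd
  generalize F.totalDegree = m at h1 ⊢
  have hl : (Polynomial.C (al μ t) -
      Polynomial.C (Polynomial.C μ) * Polynomial.X).natDegree ≤ 1 := by compute_degree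
  have e1 : sb μ t (monomial d (coeff d F)) =
      Polynomial.C (Polynomial.C (coeff d F) * Polynomial.X ^ d 0) * ((Polynomial.C (al μ t) -
        Polynomial.C (Polynomial.C μ) * Polynomial.X) ^ d 1 * Polynomial.X ^ d 2) := by
    rw [sb, aeval_monomial, Finsupp.prod_fintype _ _ (fun _ => pow_zero _), Fin.prod_univ_three]
    simp [Polynomial.algebraMap_apply, mul_assoc]
  rw [e1, Polynomial.coeff_C_mul]
  by_cases h2 : d 1 + d 2 = m
  · have h3 : d 0 = 0 := by omega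
    have h4 := Polynomial.coeff_pow_of_natDegree_le (m := d 1) hl
    rw [mul_one] at h4
    rw [← h2, Polynomial.coeff_mul_X_pow, h4, h3]
    simp [Polynomial.coeff_C]
  · rw [Polynomial.coeff_eq_zero_of_natDegree_lt, mul_zero]
    · by_cases h3 : d 0 = 0
      · rw [zero_pow (by omega), mul_zero, map_zero]
      · simp [h3]
    · refine (Polynomial.natDegree_mul_le.trans (add_le_add
        (Polynomial.natDegree_pow_le_of_le _ hl) (Polynomial.natDegree_X_pow_le _))).trans_lt ?_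
      omega

section V
variable {L Γ : Type} [Field L] [LinearOrderedCommGroupWithZero Γ] {v : Valuation L Γ}
  {κ : K →+* L}

theorem INFa_mul (hκ : ∀ c, v (κ c) ≤ 1) {a a' : L} {b b' : K} (h : v (a - κ b) < 1)
    (h' : v (a' - κ b') < 1) : v (a * a' - κ (b * b')) < 1 := by
  have h1 : v a' ≤ 1 := by
    rw [← sub_add_cancel a' (κ b')]
    exact v.map_add_le h'.le (hκ _)
  rw [show a * a' - κ (b * b') = (a - κ b) * a' + (a' - κ b') * κ b by rw [map_mul]; ring]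
  refine v.map_add_lt ?_ ?_ <;> rw [map_mul]
  · exact mul_lt_one_of_lt_of_le h h1
  · exact mul_lt_one_of_lt_of_le h' (hκ _)

theorem INFa_pow (hκ : ∀ c, v (κ c) ≤ 1) {a : L} {b : K} (h : v (a - κ b) < 1) (n : ℕ) :
    v (a ^ n - κ (b ^ n)) < 1 := by
  induction n with
  | zero => simp
  | succ n ih => rw [pow_succ, pow_succ]; exact INFa_mul hκ ih h

theorem INFa_red (hκ : ∀ c, v (κ c) ≤ 1) (F : R3 K) (x : Fin 3 → L) (y : Fin 3 → K) {w : L}
    (hw : 1 < v w) (h : ∀ i, v (x i - κ (y i) * w) < v w) :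
    v (eval₂ κ x F / w ^ F.totalDegree - κ (INFa_top F F.totalDegree y)) < 1 := by
  have p0 : 0 < v w := zero_lt_one.trans hw
  have w0 : w ≠ 0 := v.pos_iff.1 p0
  have h1 : ∀ i, v (x i / w - κ (y i)) < 1 := fun i => by
    rw [show x i / w - κ (y i) = (x i - κ (y i) * w) / w by field_simp, map_div₀, div_lt_one₀ p0]
    exact h i
  have h2 : v (w⁻¹ - κ 0) < 1 := by
    rw [map_zero, sub_zero, map_inv₀]
    exact inv_lt_one_of_one_lt₀ hw
  unfold INFa_top
  rw [eval₂_eq', Finset.sum_div, map_sum, ← Finset.sum_sub_distrib]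
  refine v.map_sum_lt one_ne_zero fun d hd => ?_
  obtain ⟨k, hk⟩ := Nat.exists_eq_add_of_le (INFa_deg F hd)
  rw [hk, Nat.add_sub_cancel_left, Fin.prod_univ_three,
    show κ (coeff d F) * (x 0 ^ d 0 * x 1 ^ d 1 * x 2 ^ d 2) / w ^ (d 0 + d 1 + d 2 + k) =
      κ (coeff d F) * ((x 0 / w) ^ d 0 * (x 1 / w) ^ d 1 * (x 2 / w) ^ d 2) * w⁻¹ ^ k by
      simp only [div_pow, inv_pow, pow_add]; field_simp]
  exact INFa_mul hκ (INFa_mul hκ (by simp) (INFa_mul hκ (INFa_mul hκ (INFa_pow hκ (h1 0) _)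
    (INFa_pow hκ (h1 1) _)) (INFa_pow hκ (h1 2) _))) (INFa_pow hκ h2 _)

theorem INFa_one (hκ : ∀ c, v (κ c) ≤ 1) {c : K} (hc : c ≠ 0) : v (κ c) = 1 := by
  refine le_antisymm (hκ c) (not_lt.1 fun h => ?_)
  have := mul_lt_one_of_lt_of_le h (hκ c⁻¹)
  rw [← map_mul, ← map_mul, mul_inv_cancel₀ hc, map_one, map_one] at this
  exact lt_irrefl _ this

theorem INFa_zero (hκ : ∀ c, v (κ c) ≤ 1) (F : R3 K) (x : Fin 3 → L) (y : Fin 3 → K) {w : L}
    (hw : 1 < v w) (h : ∀ i, v (x i - κ (y i) * w) < v w) (hF : eval₂ κ x F = 0) :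
    INFa_top F F.totalDegree y = 0 := by
  have := INFa_red hκ F x y hw h
  rw [hF, zero_div, zero_sub, Valuation.map_neg] at this
  by_contra hc
  exact (INFa_one hκ hc).not_lt this

theorem INFa_low (hκ : ∀ c, v (κ c) ≤ 1) (s : L) (t : Fin e → K) :
    (∀ N, 1 ≤ N → v s ≤ N → v (∑ i, κ (t i) * s ^ (i : ℕ)) ≤ N ^ e) ∧
      (1 < v s → v (∑ i, κ (t i) * s ^ (i : ℕ)) < v s ^ e) := by
  have h1 : ∀ i : Fin e, v (κ (t i) * s ^ (i : ℕ)) ≤ v s ^ (i : ℕ) := fun i => by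
    rw [map_mul, map_pow]
    exact mul_le_of_le_one_left' (hκ _)
  refine ⟨fun N n1 n2 => v.map_sum_le fun i _ => (h1 i).trans ?_, fun hs =>
    v.map_sum_lt (pow_ne_zero _ (zero_lt_one.trans hs).ne') fun i _ => (h1 i).trans_lt ?_⟩
  · exact (pow_le_pow_left₀ zero_le n2 _).trans (pow_le_pow_right₀ n1 i.2.le)
  · exact pow_lt_pow_right₀ hs i.2

theorem INFa_core (hκ : ∀ c, v (κ c) ≤ 1) (he : 2 ≤ e) (x : Fin 3 → L) {μ : K} (hμ : μ ≠ 0)
    (t : Fin e → K) (h1 : coeff (Finsupp.single 2 H.totalDegree) H = 1)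
    (h2 : INFa_top H H.totalDegree ![0, -μ, 1] ≠ 0) (hH : eval₂ κ x H = 0)
    (hm : x 1 = κ μ * x 0 ^ e + ∑ i, κ (t i) * x 0 ^ (i : ℕ) - κ μ * x 2)
    (hx : ∃ i, ¬ v (x i) ≤ 1) : 1 < v (x 0) ∧ v (x 1) = v (x 0) ^ e ∧
      ∀ t₂ : Fin e → K, v (x 2 - (x 0 ^ e + ∑ i, κ (t₂ i) * x 0 ^ (i : ℕ))) = v (x 0) ^ e := by
  have m1 := INFa_one hκ hμ
  have a1 : ∀ N, 1 ≤ N → v (x 0) ≤ N → v (x 2) ≤ N ^ e ∧ v (x 1) ≤ N ^ e := fun N n1 n2 => by
    have b1 : v (κ μ * x 0 ^ e + ∑ i, κ (t i) * x 0 ^ (i : ℕ)) ≤ N ^ e := by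
      refine v.map_add_le ?_ ((INFa_low hκ _ t).1 N n1 n2)
      rw [map_mul, m1, one_mul, map_pow]
      exact pow_le_pow_left₀ zero_le n2 _
    have b2 : v (x 2) ≤ N ^ e := by
      refine not_lt.1 fun hlt => h2 (INFa_zero hκ H x _ ((one_le_pow₀ n1).trans_lt hlt) ?_ hH)
      intro i
      fin_cases i
      · simpa using (n2.trans (le_self_pow₀ n1 (by omega))).trans_lt hlt
      · simpa [hm] using b1.trans_lt hlt
      · simpa using (zero_lt_one.trans_le (one_le_pow₀ n1)).trans hlt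
    refine ⟨b2, ?_⟩
    rw [hm]
    refine v.map_sub_le b1 ?_
    rwa [map_mul, m1, one_mul]
  have hs : 1 < v (x 0) := by
    refine not_le.1 fun hs => ?_
    obtain ⟨b1, b2⟩ := a1 1 le_rfl hs
    rw [one_pow] at b1 b2
    obtain ⟨i, hi⟩ := hx
    fin_cases i
    exacts [hi hs, hi b2, hi b1]
  obtain ⟨b1, b2⟩ := a1 _ hs.le le_rfl
  have key : ¬ v (x 2 - x 0 ^ e) < v (x 0) ^ e := fun hlt => by
    have hw : 1 < v (x 0 ^ e) := by rw [map_pow]; exact one_lt_pow₀ hs (by omega)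
    refine one_ne_zero (h1.symm.trans ((INFa_top2 H).symm.trans
      (INFa_zero hκ H x _ hw ?_ hH)))
    intro i
    rw [map_pow]
    fin_cases i
    · simpa using pow_lt_pow_right₀ hs (show 1 < e by omega)
    · have : x 1 = ∑ i, κ (t i) * x 0 ^ (i : ℕ) - κ μ * (x 2 - x 0 ^ e) := by rw [hm]; ring
      have b3 : v (x 1) < v (x 0) ^ e := by
        rw [this]
        refine v.map_sub_lt ((INFa_low hκ _ t).2 hs) ?_
        rwa [map_mul, m1, one_mul]
      simpa using b3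
    · simpa using hlt
  refine ⟨hs, le_antisymm b2 (not_lt.1 fun hlt => key ?_), fun t₂ => le_antisymm ?_
    (not_lt.1 fun hlt => key ?_)⟩
  · rw [← one_mul (v (x 2 - _)), ← m1, ← map_mul, show κ μ * (x 2 - x 0 ^ e) =
      ∑ i, κ (t i) * x 0 ^ (i : ℕ) - x 1 by rw [hm]; ring]
    exact v.map_sub_lt ((INFa_low hκ _ t).2 hs) hlt
  · exact v.map_sub_le b1 (v.map_add_le (map_pow v _ _).le ((INFa_low hκ _ t₂).2 hs).le)
  · rw [show x 2 - x 0 ^ e = x 2 - (x 0 ^ e + ∑ i, κ (t₂ i) * x 0 ^ (i : ℕ)) +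
      ∑ i, κ (t₂ i) * x 0 ^ (i : ℕ) by ring]
    exact v.map_add_lt hlt ((INFa_low hκ _ t₂).2 hs)

theorem INFa_g (hκ : ∀ c, v (κ c) ≤ 1) (he : 2 ≤ e) (x : Fin 3 → L) (hs : 1 < v (x 0))
    (ht : v (x 1) = v (x 0) ^ e) {g : R3 K} (h1 : g.degreeOf 2 = 0)
    (h2 : coeff (Finsupp.single 1 g.totalDegree) g = 1) :
    v (eval₂ κ x g) = v (x 0) ^ (e * g.totalDegree) := by
  have hw : 1 < v (x 1) := by rw [ht]; exact one_lt_pow₀ hs (by omega)
  have p0 : 0 < v (x 1) := zero_lt_one.trans hw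
  have e1 : eval₂ κ x g = eval₂ κ ![x 0, x 1, 0] g := by
    refine eval₂_congr _ _ _ fun {i} {c} hi hc => ?_
    have := monomial_le_degreeOf 2 (mem_support_iff.2 hc)
    have hi' := Finsupp.mem_support_iff.1 hi
    fin_cases i
    · rfl
    · rfl
    · exact absurd (Nat.le_zero.1 (h1 ▸ this)) hi'
  have e2 := INFa_red hκ g ![x 0, x 1, 0] ![0, 1, 0] hw fun i => by
    fin_cases i
    · simpa [ht] using pow_lt_pow_right₀ hs (show 1 < e by omega)
    · simpa using p0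
    · simpa using p0
  rw [INFa_top1, h2, map_one, ← e1] at e2
  have e3 := v.map_eq_of_sub_lt (x := 1) (by rwa [map_one])
  rw [map_one, map_div₀, map_pow, div_eq_one_iff_eq (pow_ne_zero _ p0.ne')] at e3
  rw [e3, ht, pow_mul]

end V

/-- File CInfA.lean. -/
theorem INFa (h : Srf H W) (he : 2 ≤ e) {μ : K} {t : Fin e → K} (hg : Good H μ t)
    {Z : Pr K (Fin 3)} (hZ : IsM H μ t Z) : (∀ t₂ : Fin e → K, InfW Z (bb t₂) 1 e) ∧
    ∀ g : R3 K, g.degreeOf 2 = 0 → coeff (Finsupp.single 1 g.totalDegree) g = 1 →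
      InfW Z g 1 (e * g.totalDegree) := by
  obtain ⟨φ, hφ⟩ : ∃ φ, φ = algebraMap (R3 K) Z.asIdeal.ResidueField := ⟨_, rfl⟩
  have ev : ∀ F, φ F = eval₂ (φ.comp C) (φ ∘ X) F := fun F => by
    rw [← eval₂_comp_left, eval₂_eta]
  have ker : ∀ F ∈ Z.asIdeal, φ F = 0 := fun F hF => by
    rw [hφ]
    exact Ideal.algebraMap_residueField_eq_zero.2 hF
  have eal : ∀ (ρ : K) (t : Fin e → K), φ (Polynomial.aeval (X 0 : R3 K) (al ρ t)) =
      (φ.comp C) ρ * (φ ∘ X) 0 ^ e + ∑ i, (φ.comp C) (t i) * (φ ∘ X) 0 ^ (i : ℕ) :=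
    fun ρ t => by simp [al, map_sum, algebraMap_eq]
  have hm0 : mem μ t ∈ Z.asIdeal := by
    refine (hZ _).2 (Dvd.intro 0 ?_)
    have : sb μ t (X 0) = algebraMap (Polynomial K) _ Polynomial.X := by simp [sb]
    rw [mem, map_sub, ← Polynomial.aeval_algHom_apply, this, Polynomial.aeval_algebraMap_apply]
    simp [sb, Polynomial.algebraMap_apply]
  have hm := ker _ hm0
  rw [mem, map_sub, map_add, map_mul, eal] at hm
  have h2 : INFa_top H H.totalDegree ![0, -μ, 1] ≠ 0 := fun h0 => by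
    have := (hg.2.1.lead ()).ne_zero
    rw [Polynomial.leadingCoeff, hg.2.2, INFa_lead, h0, map_zero] at this
    exact this rfl
  have core : ∀ V : ValuationSubring Z.asIdeal.ResidueField, (∀ c, φ (C c) ∈ V) →
      (∃ i, φ (X i) ∉ V) → _ := fun V h1 h3 =>
    INFa_core (v := V.valuation) (κ := φ.comp C) (fun c => (V.valuation_le_one_iff _).2 (h1 c)) he
      (φ ∘ X) hg.1 t h.top h2 ((ev H).symm.trans (ker H ((hZ H).2 dvd_rfl)))
      (by
        have e1 : φ (X 1) = (φ ∘ X) 1 := rfl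
        have e2 : φ (X 2) = (φ ∘ X) 2 := rfl
        have e3 : φ (C μ) = (φ.comp C) μ := rfl
        rw [e1, e2, e3] at hm
        linear_combination hm)
      (h3.imp fun i hi hv => hi ((V.valuation_le_one_iff _).1 hv))
  refine ⟨fun t₂ V h1 h3 => ?_, fun g g1 g2 V h1 h3 => ?_⟩ <;> rw [← hφ] at h1 h3 ⊢
  · rw [one_mul, map_pow, map_pow, bb, map_sub, eal, map_one, one_mul]
    exact (core V h1 h3).2.2 t₂
  · rw [one_mul, map_pow, map_pow, ev g]
    exact INFa_g (fun c => (V.valuation_le_one_iff _).2 (h1 c)) he _ (core V h1 h3).1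
      (core V h1 h3).2.1 g1 g2

end Pool.Agent.MP_a9d3bd_g
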