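import Pool.Agent.MP_a9d3bd_g.CDefs

namespace Pool.Agent.MP_a9d3bd_g

open MvPolynomial Pool.Agent.MP_a9d3bd_h Pool.Agent.MP_a9d3bd_q

variable {K : Type} [Field K] {e : ℕ} {H : R3 K} {W : Pr K (Fin 3)}
  {lam : Pr K (Fin 3) → R3 K → ℝ}

/-- A root of a polynomial that is monic of its total degree in one variable is bounded by the
other coordinates. -/
theorem INFc_dom {L Γ σ : Type} [Field L] [LinearOrderedCommGroupWithZero Γ] [Fintype σ]
    (v : Valuation L Γ) (φ : MvPolynomial σ K →+* L) (hC : ∀ c, v (φ (C c)) ≤ 1)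
    {F : MvPolynomial σ K} {i : σ} (h1 : coeff (Finsupp.single i F.totalDegree) F = 1)
    (h0 : φ F = 0) {B : Γ} (hB : 1 ≤ B)
    (hj : ∀ j, j ≠ i → F.degreeOf j = 0 ∨ v (φ (X j)) ≤ B) : v (φ (X i)) ≤ B := by
  classical
  by_contra hn
  have ha : B < v (φ (X i)) := not_le.1 hn
  have hB0 : 0 < B := zero_lt_one.trans_le hB
  have ha0 : 0 < v (φ (X i)) := hB0.trans ha
  have hm : Finsupp.single i F.totalDegree ∈ F.support := by
    rw [mem_support_iff, h1]
    exact one_ne_zero
  have e1 : φ F = φ (X i) ^ F.totalDegree +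
      ∑ m ∈ F.support.erase (Finsupp.single i F.totalDegree), φ (monomial m (coeff m F)) := by
    conv_lhs => rw [F.as_sum, ← Finset.add_sum_erase _ _ hm, h1]
    rw [map_add, map_sum, ← X_pow_eq_monomial, map_pow]
  have e2 : v (∑ m ∈ F.support.erase (Finsupp.single i F.totalDegree),
      φ (monomial m (coeff m F))) < v (φ (X i) ^ F.totalDegree) := by
    rw [map_pow]
    refine v.map_sum_lt (pow_pos ha0 _).ne' fun m hm' => ?_
    obtain ⟨hne, hs⟩ := Finset.mem_erase.1 hm'
    have hd : m i + ∑ j ∈ Finset.univ.erase i, m j ≤ F.totalDegree := by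
      rw [Finset.add_sum_erase _ _ (Finset.mem_univ i)]
      have := le_totalDegree hs
      rwa [Finsupp.sum_fintype _ _ fun _ => rfl] at this
    have hlt : m i < F.totalDegree := by
      by_contra hle
      refine hne (Finsupp.ext fun j => ?_)
      by_cases hji : j = i
      · rw [hji, Finsupp.single_eq_same]
        omega
      · have := Finset.single_le_sum (f := fun j => m j) (fun _ _ => Nat.zero_le _)
          (Finset.mem_erase.2 ⟨hji, Finset.mem_univ j⟩)
        rw [Finsupp.single_eq_of_ne hji]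
        omega
    have hp : ∏ j ∈ Finset.univ.erase i, v (φ (X j)) ^ m j ≤
        B ^ ∑ j ∈ Finset.univ.erase i, m j := by
      rw [← Finset.prod_pow_eq_pow_sum]
      refine Finset.prod_le_prod' fun j hj' => ?_
      rcases hj j (Finset.mem_erase.1 hj').1 with h | h
      · have := monomial_le_degreeOf j hs
        have h2 : m j = 0 := by omega
        rw [h2, pow_zero, pow_zero]
      · exact pow_le_pow_left₀ zero_le h _
    obtain ⟨n, hn'⟩ : ∃ n, F.totalDegree = m i + (n + 1) := ⟨F.totalDegree - m i - 1, by omega⟩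
    have hq : B ^ ∑ j ∈ Finset.univ.erase i, m j < v (φ (X i)) ^ (n + 1) :=
      (pow_le_pow_right₀ hB (by omega)).trans_lt (pow_lt_pow_left₀ ha hB0.le n.succ_ne_zero)
    rw [monomial_eq, Finsupp.prod_fintype _ _ fun _ => pow_zero _, map_mul, map_mul, map_prod,
      map_prod, ← Finset.mul_prod_erase _ _ (Finset.mem_univ i), hn', pow_add]
    simp only [map_pow]
    refine (mul_le_of_le_one_left' (hC _)).trans_lt ?_
    exact mul_lt_mul_of_pos_left (hp.trans_lt hq) (pow_pos ha0 _)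
  have e3 := v.map_add_eq_of_lt_left e2
  rw [← e1, h0, map_zero, map_pow] at e3
  exact (pow_pos ha0 _).ne e3

theorem INFc_val {L Γ : Type} [Field L] [LinearOrderedCommGroupWithZero Γ]
    (v : Valuation L Γ) (φ : R3 K →+* L) (hC : ∀ c, v (φ (C c)) ≤ 1) (he : 2 ≤ e)
    (h0 : 1 < v (φ (X 0))) (h1 : v (φ (X 1)) ≤ v (φ (X 0))) (h2 : v (φ (X 2)) ≤ v (φ (X 0)))
    {μ : K} (hμ : μ ≠ 0) (t : Fin e → K) : v (φ (mem μ t)) = v (φ (1 * X 0 ^ e)) := by
  have hu : v (φ (C μ)) = 1 := by
    refine le_antisymm (hC μ) ?_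
    have h3 : v (φ (C μ)) * v (φ (C μ⁻¹)) = 1 := by
      rw [← map_mul, ← map_mul, ← map_mul, mul_inv_cancel₀ hμ, map_one, map_one, map_one]
    rw [← h3]
    exact mul_le_of_le_one_right' (hC _)
  have e1 : φ (mem μ t) = -(φ (C μ) * φ (X 0) ^ e) +
      (φ (X 1) + φ (C μ) * φ (X 2) - ∑ i : Fin e, φ (C (t i)) * φ (X 0) ^ (i : ℕ)) := by
    simp only [mem, al, map_add, map_sub, map_mul, map_pow, map_sum, Polynomial.aeval_C,
      Polynomial.aeval_X, algebraMap_eq]
    ring
  have e2 : v (-(φ (C μ) * φ (X 0) ^ e)) = v (φ (X 0)) ^ e := by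
    rw [v.map_neg, map_mul, hu, one_mul, map_pow]
  have hlt : v (φ (X 0)) < v (φ (X 0)) ^ e := by
    simpa using pow_lt_pow_right₀ h0 (show 1 < e by omega)
  have e3 : v (φ (X 1) + φ (C μ) * φ (X 2) - ∑ i : Fin e, φ (C (t i)) * φ (X 0) ^ (i : ℕ)) <
      v (φ (X 0)) ^ e := by
    refine v.map_sub_lt (v.map_add_lt (h1.trans_lt hlt) ?_)
      (v.map_sum_lt (pow_pos (zero_lt_one.trans h0) _).ne' fun i _ => ?_)
    · rw [map_mul, hu, one_mul]
      exact h2.trans_lt hlt
    · rw [map_mul, map_pow]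
      exact (mul_le_of_le_one_left' (hC _)).trans_lt (pow_lt_pow_right₀ h0 i.2)
  rw [e1, v.map_add_eq_of_lt_left (e2 ▸ e3), e2, one_mul, map_pow, map_pow]

/-- File CInfC.lean. -/
theorem INFc (h : Srf H W) (he : 2 ≤ e) {g : R3 K} (h1 : g.degreeOf 2 = 0)
    (h2 : coeff (Finsupp.single 1 g.totalDegree) g = 1) {Z : Pr K (Fin 3)} (h3 : H ∈ Z.asIdeal)
    (h4 : g ∈ Z.asIdeal) {μ : K} (hμ : μ ≠ 0) (t : Fin e → K) : InfW Z (mem μ t) 1 e := by
  intro V hV ⟨i, hi⟩
  have hC : ∀ c, V.valuation (algebraMap (R3 K) Z.asIdeal.ResidueField (C c)) ≤ 1 :=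
    fun c => (V.valuation_le_one_iff _).2 (hV c)
  have b1 := INFc_dom V.valuation (algebraMap (R3 K) Z.asIdeal.ResidueField) hC h2
    (Ideal.algebraMap_residueField_eq_zero.2 h4)
    (le_max_left 1 (V.valuation (algebraMap (R3 K) Z.asIdeal.ResidueField (X 0)))) (by
      intro j hj
      fin_cases j
      · exact Or.inr (le_max_right _ _)
      · exact absurd rfl hj
      · exact Or.inl h1)
  have b2 := INFc_dom V.valuation (algebraMap (R3 K) Z.asIdeal.ResidueField) hC h.top
    (Ideal.algebraMap_residueField_eq_zero.2 h3)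
    (le_max_left 1 (V.valuation (algebraMap (R3 K) Z.asIdeal.ResidueField (X 0)))) (by
      intro j hj
      fin_cases j
      · exact Or.inr (le_max_right _ _)
      · exact Or.inr b1
      · exact absurd rfl hj)
  have h0 : 1 < V.valuation (algebraMap (R3 K) Z.asIdeal.ResidueField (X 0)) := by
    by_contra hn
    rw [max_eq_left (not_lt.1 hn)] at b1 b2
    refine hi ((V.valuation_le_one_iff _).1 ?_)
    fin_cases i
    · exact not_lt.1 hn
    · exact b1
    · exact b2
  rw [max_eq_right h0.le] at b1 b2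
  exact INFc_val V.valuation _ hC he h0 b1 b2 hμ t

end Pool.Agent.MP_a9d3bd_g
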