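import Pool.Agent.MP_a9d3bd_g.CDimW

namespace Pool.Agent.MP_a9d3bd_g

open MvPolynomial Pool.Agent.MP_a9d3bd_h Pool.Agent.MP_a9d3bd_q

variable {K : Type} [Field K] {e : ℕ} {H : R3 K} {W : Pr K (Fin 3)}
  {lam : Pr K (Fin 3) → R3 K → ℝ}

theorem memZ_C (μ : K) (t : Fin e → K) (c : K) :
    sb μ t (C c) = Polynomial.C (Polynomial.C c) := (sb μ t).commutes c

theorem memZ_X0 (μ : K) (t : Fin e → K) : sb μ t (X 0) = Polynomial.C Polynomial.X := by
  simp [sb]

theorem memZ_X1 (μ : K) (t : Fin e → K) : sb μ t (X 1) =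
    Polynomial.C (al μ t) - Polynomial.C (Polynomial.C μ) * Polynomial.X := by
  simp [sb]

theorem memZ_X2 (μ : K) (t : Fin e → K) : sb μ t (X 2) = Polynomial.X := by
  simp [sb]

theorem memZ_zero (μ : K) (t : Fin e → K) : sb μ t (mem μ t) = 0 := by
  have h1 : sb μ t (Polynomial.aeval (X 0 : R3 K) (al μ t)) = Polynomial.C (al μ t) := by
    rw [← Polynomial.aeval_algHom_apply, memZ_X0]
    have := Polynomial.aeval_algHom_apply (Polynomial.CAlgHom (R := K) (A := Polynomial K))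
      Polynomial.X (al μ t)
    rw [Polynomial.aeval_X_left_apply] at this
    exact this
  rw [mem, map_sub, map_add, map_mul, h1, memZ_C, memZ_X1, memZ_X2]
  ring

theorem memZ_ne (μ : K) (t : Fin e → K) : mem μ t ≠ 0 := by
  intro h
  have h1 : ∀ c : K, c - Polynomial.aeval (0 : K) (al μ t) = 0 := fun c => by
    have := congrArg (aeval ![0, c, 0] : R3 K →ₐ[K] K) h
    rw [mem, map_sub, map_add, map_mul, ← Polynomial.aeval_algHom_apply, map_zero] at this
    simpa using this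
  have h2 := h1 0
  have h3 := h1 1
  exact one_ne_zero (α := K) (by linear_combination h3 - h2)

/-- The section of the restriction map. -/
noncomputable def memZ_up : Polynomial (Polynomial K) →+* R3 K :=
  Polynomial.eval₂RingHom (Polynomial.aeval (X 0 : R3 K)).toRingHom (X 2)

theorem memZ_sec (μ : K) (t : Fin e → K) (F : R3 K) :
    F - memZ_up (sb μ t F) ∈ Ideal.span {mem μ t} := by
  have hC : ∀ p : Polynomial K, memZ_up (Polynomial.C p) = Polynomial.aeval (X 0 : R3 K) p :=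
    fun p => Polynomial.eval₂_C _ _
  have hX : memZ_up (Polynomial.X : Polynomial (Polynomial K)) = (X 2 : R3 K) :=
    Polynomial.eval₂_X _ _
  have hx : ∀ i : Fin 3, X i - memZ_up (sb μ t (X i)) ∈ Ideal.span {mem μ t} := by
    intro i
    match i with
    | 0 =>
      rw [memZ_X0, hC, Polynomial.aeval_X, sub_self]
      exact zero_mem _
    | 1 =>
      rw [memZ_X1, map_sub, map_mul, hC, hC, hX, Polynomial.aeval_C, algebraMap_eq]
      have : (X 1 : R3 K) - (Polynomial.aeval (X 0 : R3 K) (al μ t) - C μ * X 2) = mem μ t := by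
        rw [mem]
        ring
      rw [this]
      exact Ideal.mem_span_singleton_self _
    | 2 =>
      rw [memZ_X2, hX, sub_self]
      exact zero_mem _
  induction F using MvPolynomial.induction_on with
  | C a =>
    rw [memZ_C, hC, Polynomial.aeval_C, algebraMap_eq, sub_self]
    exact zero_mem _
  | add p q hp hq =>
    have := add_mem hp hq
    rw [map_add, map_add]
    convert this using 1
    ring
  | mul_X p i hp =>
    have := add_mem (Ideal.mul_mem_right (X i) _ hp)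
      (Ideal.mul_mem_left _ (memZ_up (sb μ t p)) (hx i))
    rw [map_mul, map_mul]
    convert this using 1
    ring

theorem memZ_der (μ : K) (t : Fin e → K) (F : R3 K) :
    Polynomial.derivative (sb μ t F) = sb μ t (pderiv 2 F - C μ * pderiv 1 F) := by
  have hx : ∀ i : Fin 3, Polynomial.derivative (sb μ t (X i)) =
      sb μ t (pderiv 2 (X i) - C μ * pderiv 1 (X i)) := by
    intro i
    match i with
    | 0 => simp [memZ_X0, pderiv_X]
    | 1 => simp [memZ_X1, memZ_C, pderiv_X]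
    | 2 => simp [memZ_X2, pderiv_X]
  induction F using MvPolynomial.induction_on with
  | C a => simp [memZ_C]
  | add p q hp hq =>
    rw [map_add, map_add, hp, hq, ← map_add]
    congr 1
    rw [map_add, map_add]
    ring
  | mul_X p i hp =>
    rw [map_mul, Polynomial.derivative_mul, hp, hx, ← map_mul, ← map_mul, ← map_add]
    congr 1
    rw [Derivation.leibniz, Derivation.leibniz, smul_eq_mul, smul_eq_mul, smul_eq_mul, smul_eq_mul]
    ring

theorem memZ_sup (h : Srf H W) {μ : K} {t : Fin e → K} {Z : Pr K (Fin 3)} (hZ : IsM H μ t Z)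
    {F : R3 K} (hF : F ∈ Z.asIdeal) : F ∈ W.asIdeal ⊔ Ideal.span {mem μ t} := by
  obtain ⟨Q, hQ⟩ := (hZ F).1 hF
  have h1 := memZ_sec μ t F
  rw [hQ, map_mul] at h1
  have h2 : H ∈ W.asIdeal := h.eq ▸ Ideal.mem_span_singleton_self H
  have h3 := add_mem (Ideal.mem_sup_left (T := Ideal.span {mem μ t})
      (Ideal.mul_mem_right (memZ_up Q) _ h2))
    (Ideal.mem_sup_right (S := W.asIdeal)
      (sub_mem h1 (Ideal.mul_mem_right (memZ_up Q) _ (memZ_sec μ t H))))
  convert h3 using 1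
  ring

theorem memZ (h : Srf H W) {μ : K} {t : Fin e → K} (hg : Good H μ t) :
    (∃ Z, IsM H μ t Z) ∧ mem μ t ∉ W.asIdeal ∧ ∀ Z, IsM H μ t Z → Cv H Z ∧ mem μ t ∈ Z.asIdeal ∧
      (∀ Z' : Pr K (Fin 3), H ∈ Z'.asIdeal → dim Z' = 1 → mem μ t ∈ Z'.asIdeal → Z' = Z) ∧
      dvc (mem μ t) W Z = 1 := by
  have hi : Irreducible (sb μ t H) := hg.2.1.irr ()
  have hn : mem μ t ∉ W.asIdeal := by
    rw [h.eq, Ideal.mem_span_singleton]
    rintro ⟨G, hG⟩
    have h1 := memZ_zero μ t
    rw [hG, map_mul] at h1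
    have h2 := memZ_sec μ t G
    rw [(mul_eq_zero.1 h1).resolve_left hi.ne_zero, map_zero, sub_zero,
      Ideal.mem_span_singleton] at h2
    obtain ⟨G', hG'⟩ := h2
    refine h.irr.not_isUnit (IsUnit.of_mul_eq_one G' (mul_left_cancel₀ (memZ_ne μ t) ?_))
    rw [mul_one, mul_left_comm, ← hG', ← hG]
  refine ⟨?_, hn, fun Z hZ => ?_⟩
  · have : (Ideal.span {sb μ t H}).IsPrime :=
      (Ideal.span_singleton_prime hi.ne_zero).2 hi.prime
    exact ⟨⟨(Ideal.span {sb μ t H}).comap (sb μ t), Ideal.comap_isPrime _ _⟩, fun F =>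
      Ideal.mem_comap.trans Ideal.mem_span_singleton⟩
  have hH : H ∈ Z.asIdeal := (hZ H).2 dvd_rfl
  have hm : mem μ t ∈ Z.asIdeal := (hZ _).2 (by rw [memZ_zero]; exact dvd_zero _)
  have hW : ∀ Z' : Pr K (Fin 3), H ∈ Z'.asIdeal → W ≤ Z' := fun Z' h1 => by
    show W.asIdeal ≤ Z'.asIdeal
    rw [h.eq]
    exact (Ideal.span_singleton_le_iff_mem _).2 h1
  have hle : ∀ Z' : Pr K (Fin 3), W ≤ Z' → mem μ t ∈ Z'.asIdeal → Z ≤ Z' := fun Z' h1 h2 F hF =>
    (sup_le h1 ((Ideal.span_singleton_le_iff_mem _).2 h2) :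
      W.asIdeal ⊔ Ideal.span {mem μ t} ≤ Z'.asIdeal) (memZ_sup h hZ hF)
  have h2 := dimW h
  have h1 : ptd Z = 1 := by
    have a := ptd_lt (P := W) (Q := Z) (lt_of_le_of_ne (hW Z hH) fun e => hn (e ▸ hm))
    obtain ⟨P', b1, -, b3, b4⟩ := krull (hW Z hH) hm
    have c := ptd_le (hle P' b1 b3)
    omega
  refine ⟨⟨hH, h1, ?_⟩, hm, fun Z' a b c => ?_, ?_⟩
  · by_contra hc
    push Not at hc
    have a := (hZ _).1 (sub_mem (hc 2) (Ideal.mul_mem_left _ (C μ) (hc 1)))
    rw [← memZ_der] at a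
    exact (Polynomial.degree_le_of_dvd a (hg.2.1.sep ())).not_gt
      (Polynomial.degree_derivative_lt hi.ne_zero)
  · exact (eq_of_ptd (hle Z' (hW Z' a) c) (by rw [h1, ← dim_eq, b])).symm
  · rw [dvc, if_pos ⟨hn, by omega⟩, len_eq_one (hW Z hH) hm fun g hg' =>
      ⟨1, fun e => Z.isPrime.ne_top ((Ideal.eq_top_iff_one _).2 e), by
        rw [one_mul]; exact memZ_sup h hZ hg'⟩]
    simp

end Pool.Agent.MP_a9d3bd_g
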