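import Pool.Agent.MP_a9d3bd_g.CDefs

namespace Pool.Agent.MP_a9d3bd_g

open MvPolynomial Pool.Agent.MP_a9d3bd_h Pool.Agent.MP_a9d3bd_q

variable {K : Type} [Field K] {e : ℕ} {H : R3 K} {W : Pr K (Fin 3)}
  {lam : Pr K (Fin 3) → R3 K → ℝ}

theorem ord1_ev (x : Fin 3 → K) (p : Polynomial K) :
    aeval x (Polynomial.aeval (X 0 : R3 K) p) = p.eval (x 0) := by
  rw [← Polynomial.aeval_algHom_apply, aeval_X, Polynomial.coe_aeval_eq_eval]

theorem ord1 {Z : Pr K (Fin 3)} (hZ : ptd Z = 1) {x : Fin 3 → K} (hx : Z ≤ ak K x)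
    (hn : Nice Z x) {F : R3 K} (hF : F ∉ Z.asIdeal) (h0 : eval x F = 0) {h : Polynomial K}
    (h1 : Polynomial.aeval (X 0 : R3 K) h ∈ Z.asIdeal ⊔ Ideal.span {F})
    (h2 : h.derivative.eval (x 0) ≠ 0) : dvc F Z (ak K x) = 1 := by
  have p0 : ptd (ak K x) = 0 := by
    rw [ptd_ak']
    exact tds_const fun a _ => ⟨a, rfl⟩
  have hFx : F ∈ (ak K x).asIdeal := h0
  have hr : h.IsRoot (x 0) := (ord1_ev x h).symm.trans
    ((sup_le hx ((Ideal.span_singleton_le_iff_mem _).2 hFx) :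
      Z.asIdeal ⊔ Ideal.span {F} ≤ (ak K x).asIdeal) h1)
  obtain ⟨u, rfl⟩ := Polynomial.dvd_iff_isRoot.2 hr
  have hu : u.eval (x 0) ≠ 0 := by simpa using h2
  have l0 : LM (ak K x) (Z.asIdeal ⊔ Ideal.span {F}) (X 0 - C (x 0)) := by
    refine ⟨Polynomial.aeval (X 0 : R3 K) u, fun c => hu ((ord1_ev x u).symm.trans c), ?_⟩
    rw [map_mul, map_sub, Polynomial.aeval_X, Polynomial.aeval_C, mul_comm] at h1
    exact h1
  have l1 : len (ak K x) Z.asIdeal F = 1 := by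
    refine len_eq_one hx hFx fun g hg => (hn g hg).trans fun f hf => ?_
    obtain ⟨a, ha, b, hb, rfl⟩ := Submodule.mem_sup.1 hf
    obtain ⟨c, rfl⟩ := Ideal.mem_span_singleton'.1 hb
    obtain ⟨w, w1, w2⟩ := l0
    refine ⟨w, w1, ?_⟩
    rw [mul_add, mul_left_comm]
    exact Ideal.add_mem _ (Ideal.mul_mem_left _ _ (Ideal.mem_sup_left ha))
      (Ideal.mul_mem_left _ _ w2)
  rw [dvc, if_pos ⟨hF, by rw [hZ, p0]⟩, l1]
  simp

end Pool.Agent.MP_a9d3bd_g
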