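import Pool.Agent.MP_a9d3bd_g.CExt
import Pool.Agent.MP_a9d3bd_g.CMemZ
import Pool.Agent.MP_a9d3bd_g.CMemP
import Pool.Agent.MP_a9d3bd_g.COrd1
import Pool.Agent.MP_a9d3bd_g.CInfA

namespace Pool.Agent.MP_a9d3bd_g

open MvPolynomial Pool.Agent.MP_a9d3bd_h Pool.Agent.MP_a9d3bd_q

variable {K : Type} [Field K] {e : ℕ} {H : R3 K} {W : Pr K (Fin 3)}
  {lam : Pr K (Fin 3) → R3 K → ℝ}

theorem PHI_ak (x : Fin 3 → K) (F : R3 K) : F ∈ (ak K x).asIdeal ↔ eval x F = 0 := by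
  rw [mem_ak, ← coe_aeval_eq_eval]
  rfl

theorem PHI_sum {Z : Pr K (Fin 3)} {F : R3 K} (S : Finset (Fin 3 → K))
    (h1 : ∀ x, Z ≤ ak K x → eval x F = 0 → x ∈ S) (h2 : ∀ x ∈ S, dvc F Z (ak K x) = 1)
    (φ : (Fin 3 → K) → ℝ) :
    ∑ᶠ x, ((dvc F Z (ak K x) - dvc 1 Z (ak K x) : ℚ) : ℝ) * φ x = ∑ x ∈ S, φ x := by
  have h0 : ∀ x, dvc (1 : R3 K) Z (ak K x) = 0 := fun x => by
    by_contra hc
    have := (PHI_ak x 1).1 (dvc_ne.1 hc).2.2.2
    simp at this
  rw [finsum_eq_sum_of_support_subset (s := S)]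
  · exact Finset.sum_congr rfl fun x hx => by simp [h0, h2 x hx]
  · intro x hx
    by_contra hc
    refine hx ?_
    have : dvc F Z (ak K x) = 0 := by
      by_contra hd
      exact hc (h1 x (dvc_ne.1 hd).2.2.1 ((PHI_ak x F).1 (dvc_ne.1 hd).2.2.2))
    simp [h0, this]

theorem PHI_ae (μ : K) (t : Fin e → K) (a : Polynomial K) :
    sb μ t (Polynomial.aeval (X 0 : R3 K) a) = Polynomial.C a := by
  rw [← Polynomial.aeval_algHom_apply]
  have : sb μ t (X 0 : R3 K) = algebraMap (Polynomial K) _ Polynomial.X := by simp [sb]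
  rw [this, Polynomial.aeval_algebraMap_apply, Polynomial.aeval_X_left_apply]
  rfl

theorem PHI_X2 (μ : K) (t : Fin e → K) : sb μ t (X 2 : R3 K) = Polynomial.X := by simp [sb]

theorem PHI_bb (μ : K) (t t₂ : Fin e → K) :
    sb μ t (bb t₂) = Polynomial.X - Polynomial.C (al 1 t₂) := by
  rw [bb, map_sub, PHI_ae, PHI_X2]

theorem PHI_surj (μ : K) (t : Fin e → K) (Q : Polynomial (Polynomial K)) :
    ∃ F, sb μ t F = Q := by
  induction Q using Polynomial.induction_on' with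
  | add p q hp hq =>
    obtain ⟨a, rfl⟩ := hp
    obtain ⟨b, rfl⟩ := hq
    exact ⟨a + b, map_add _ _ _⟩
  | monomial n p =>
    exact ⟨Polynomial.aeval (X 0 : R3 K) p * X 2 ^ n, by
      rw [map_mul, map_pow, PHI_ae, PHI_X2, Polynomial.C_mul_X_pow_eq_monomial]⟩

theorem PHI_ev (P : Polynomial (Polynomial K)) (a : Polynomial K) (r : K) :
    P.evalEval r (a.eval r) = (P.eval a).eval r := by
  rw [← Polynomial.map_evalRingHom_eval, Polynomial.eval_map]
  exact Polynomial.eval₂_at_apply (Polynomial.evalRingHom r) a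

theorem PHI_evbb (x : Fin 3 → K) (t₂ : Fin e → K) :
    eval x (bb t₂) = x 2 - (al 1 t₂).eval (x 0) := by
  rw [bb, map_sub, eval_X, ← coe_aeval_eq_eval]
  change x 2 - aeval x (Polynomial.aeval (X 0 : R3 K) (al 1 t₂)) = _
  rw [← Polynomial.aeval_algHom_apply, aeval_X, Polynomial.coe_aeval_eq_eval]

theorem PHI_mem {μ : K} {t : Fin e → K} {Z : Pr K (Fin 3)} (hZ : IsM H μ t Z) (t₂ : Fin e → K) :
    Polynomial.aeval (X 0 : R3 K) ((sb μ t H).eval (al 1 t₂)) ∈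
      Z.asIdeal ⊔ Ideal.span {bb t₂} := by
  obtain ⟨Q, hQ⟩ := Polynomial.X_sub_C_dvd_sub_C_eval (p := sb μ t H) (a := al 1 t₂)
  obtain ⟨F, rfl⟩ := PHI_surj μ t Q
  have h1 : Polynomial.aeval (X 0 : R3 K) ((sb μ t H).eval (al 1 t₂)) + bb t₂ * F ∈ Z.asIdeal := by
    rw [hZ, map_add, map_mul, PHI_ae, PHI_bb, ← hQ, add_sub_cancel]
  have h2 : bb t₂ * F ∈ Ideal.span {bb t₂} :=
    Ideal.mul_mem_right _ _ (Ideal.mem_span_singleton_self _)
  have h3 := Ideal.sub_mem _ (Ideal.mem_sup_left (T := Ideal.span {bb t₂}) h1)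
    (Ideal.mem_sup_right (S := Z.asIdeal) h2)
  rwa [add_sub_cancel_right] at h3

theorem PHI_nb (h : Srf H W) {μ : K} {t : Fin e → K} (hg : Good H μ t) {Z : Pr K (Fin 3)}
    (hZ : IsM H μ t Z) (t₂ : Fin e → K) : bb t₂ ∉ Z.asIdeal := fun hc => by
  rw [hZ, PHI_bb] at hc
  have h1 := Polynomial.natDegree_le_of_dvd hc (Polynomial.X_sub_C_ne_zero _)
  rw [Polynomial.natDegree_X_sub_C, hg.2.2] at h1
  have := h.two
  omega

open Classical in
theorem PHI_spl {q n : ℕ} {p : Polynomial K} (hp : Spl q n p) :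
    p.roots.toFinset.card = n ∧ ∀ r, (r ∈ p.roots.toFinset ↔ p.eval r = 0) ∧
      (p.eval r = 0 → p.derivative.eval r ≠ 0) := by
  obtain ⟨s, h1, -, c, hc, rfl⟩ := hp
  have h2 : (Polynomial.C c * ∏ x ∈ s, (Polynomial.X - Polynomial.C x)).roots.toFinset = s := by
    rw [Polynomial.roots_C_mul _ hc, Polynomial.roots_prod_X_sub_C, Finset.val_toFinset]
  have h3 : ∀ r, (Polynomial.C c * ∏ x ∈ s, (Polynomial.X - Polynomial.C x)).eval r = 0 ↔
      r ∈ s := fun r => by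
    simp [Polynomial.eval_prod, Finset.prod_eq_zero_iff, hc, sub_eq_zero]
  refine ⟨by rw [h2, h1], fun r => ⟨by rw [h2, h3], fun hr => ?_⟩⟩
  rw [h3] at hr
  rw [← Finset.mul_prod_erase s _ hr]
  simp only [Polynomial.derivative_mul, Polynomial.derivative_C, zero_mul, zero_add,
    Polynomial.derivative_X_sub_C, one_mul, Polynomial.eval_mul, Polynomial.eval_add,
    Polynomial.eval_C, Polynomial.eval_sub, Polynomial.eval_X, sub_self, add_zero,
    Polynomial.eval_prod]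
  exact mul_ne_zero hc (Finset.prod_ne_zero_iff.2 fun x hx =>
    sub_ne_zero.2 (Finset.ne_of_mem_erase hx).symm)

theorem PHI_fin {q : ℕ} (hq : 1 < q) (ρ : K) (P : Polynomial (Polynomial K)) (A : Set (K × K)) :
    (Edg q e ρ P A).Finite := by
  have h1 : {x : K | x ^ q = x}.Finite := by
    refine (Polynomial.finite_setOfPred_isRoot (FiniteField.X_pow_card_sub_X_ne_zero K hq)).subset ?_
    intro x hx
    simpa [sub_eq_zero] using hx
  exact (Set.Finite.pi' fun _ : Fin e => h1).subset fun t ht => ht.1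

theorem PHI [IsAlgClosed K] (halg : ∀ c : K, c ≠ 0 → ∃ n, 0 < n ∧ c ^ n = 1) (h : Srf H W)
    (hl : Ax H W lam) (he : 2 ≤ e) {q : ℕ} (hq : 1 < q) {μ : K} {t : Fin e → K} (hg : Good H μ t)
    {Z : Pr K (Fin 3)} (hZ : IsM H μ t Z) {g : R3 K} (g1 : g.degreeOf 2 = 0)
    (g2 : coeff (Finsupp.single 1 g.totalDegree) g = 1) (g3 : g ∉ Z.asIdeal)
    (Ys : Finset (Fin 3 → K)) (y1 : ∀ x, x ∈ Ys ↔ Z ≤ ak K x ∧ eval x g = 0)
    (y2 : Ys.card = e * (H.totalDegree * g.totalDegree)) {u : Polynomial K}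
    (y3 : Polynomial.aeval (X 0 : R3 K) u ∈ Z.asIdeal ⊔ Ideal.span {g})
    (y4 : ∀ x ∈ Ys, u.derivative.eval (x 0) ≠ 0 ∧ eval x (pderiv 2 H - C μ * pderiv 1 H) ≠ 0) :
    ∃ φ, Rep q H lam μ t Z φ ∧ lam Z g = ∑ x ∈ Ys, φ (x 0, x 2) := by
  classical
  have hC : Cv H Z := ((memZ h hg).2.2 Z hZ).1
  have hd : ptd Z = 1 := hC.2.1
  obtain ⟨p1, p2, p3, -, -, p6⟩ := memP hZ
  obtain ⟨i1, i2⟩ := INFa h he hg hZ
  have n1 : (1 : R3 K) ∉ Z.asIdeal := fun hc => Z.2.ne_top ((Ideal.eq_top_iff_one _).2 hc)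
  have l1 : lam Z 1 = 0 := by
    have := hl.mul Z 1 1 hC n1 n1
    rw [one_mul] at this
    linarith
  have hm : (H.totalDegree : ℝ) ≠ 0 := by
    have := h.two
    exact Nat.cast_ne_zero.2 (by omega)
  have ng : ∀ x, Z ≤ ak K x → eval x g = 0 → Nice Z x := fun x a b => by
    obtain ⟨c1, c2⟩ := (p3 x).1 a
    rw [c1]
    refine p6 (x 0, x 2) ?_ ?_
    · rw [← p1, ← c1, c2]
    · rw [p2, ← c1]
      exact (y4 x ((y1 x).2 ⟨a, b⟩)).2
  have kb : ∀ (t₂ : Fin e → K) x, Z ≤ ak K x → eval x (bb t₂) = 0 →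
      x = up μ t (x 0, (al 1 t₂).eval (x 0)) ∧ ((sb μ t H).eval (al 1 t₂)).eval (x 0) = 0 :=
    fun t₂ x a b => by
      obtain ⟨c1, c2⟩ := (p3 x).1 a
      rw [PHI_evbb, sub_eq_zero] at b
      refine ⟨by rw [← b]; exact c1, ?_⟩
      rw [← PHI_ev, ← b]
      rw [c1, p1] at c2
      exact c2
  have nb : ∀ t₂ ∈ Edg q e 1 (sb μ t H) (Pts q (sb μ t H)), ∀ x, Z ≤ ak K x →
      eval x (bb t₂) = 0 → Nice Z x := fun t₂ ht x a b => by
    obtain ⟨c1, c2⟩ := kb t₂ x a b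
    obtain ⟨-, -, c3, c4⟩ := ht.2.2 _ c2
    rw [c1]
    exact p6 _ c3 c4
  have : Finite (Edg q e 1 (sb μ t H) (Pts q (sb μ t H))) := (PHI_fin hq _ _ _).to_subtype
  obtain ⟨φ, κ, hφ⟩ := EXT halg Z hd (lam Z) (fun F G => hl.mul Z F G hC)
    (fun F G => hl.congr Z F G hC) (J := Option (Edg q e 1 (sb μ t H) (Pts q (sb μ t H))))
    (fun j => j.elim g fun t₂ => bb t₂.1) (fun _ => 1)
    (fun j => j.elim (e * g.totalDegree) fun _ => e)
    (fun j => by
      rw [mul_one]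
      cases j with
      | none => exact g3
      | some t₂ => exact PHI_nb h hg hZ _)
    (fun j => by
      cases j with
      | none => exact i2 g g1 g2
      | some t₂ => exact i1 _)
    (fun j x a b => by
      rw [mul_one] at b
      cases j with
      | none => exact ng x a b
      | some t₂ => exact nb _ t₂.2 x a b)
  refine ⟨fun y => φ (up μ t y) + κ / H.totalDegree, fun t₂ ht => ?_, ?_⟩
  · have e1 := hφ (some ⟨t₂, ht⟩)
    obtain ⟨s1, s2⟩ := PHI_spl ht.2.1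
    simp only [Option.elim] at e1
    rw [l1, sub_zero, PHI_sum (((sb μ t H).eval (al 1 t₂)).roots.toFinset.image
      fun r => up μ t (r, (al 1 t₂).eval r)), Finset.sum_image] at e1
    · rw [e1, Finset.sum_add_distrib, Finset.sum_const, nsmul_eq_mul]
      congr 1
      have s3 : (((sb μ t H).eval (al 1 t₂)).roots.toFinset.card : ℝ) = e * H.totalDegree := by
        rw [← hg.2.2, ← Nat.cast_mul, ← s1]
      rw [s3]
      field_simp
    · intro a _ b _ hab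
      exact congrFun hab 0
    · intro x a b
      obtain ⟨c1, c2⟩ := kb t₂ x a b
      exact Finset.mem_image.2 ⟨x 0, (s2 _).1.2 c2, c1.symm⟩
    · intro x hx
      obtain ⟨r, hr, rfl⟩ := Finset.mem_image.1 hx
      have c1 := (s2 r).1.1 hr
      have a : Z ≤ ak K (up μ t (r, (al 1 t₂).eval r)) :=
        (p3 _).2 ⟨rfl, by rw [p1, PHI_ev]; exact c1⟩
      have b : eval (up μ t (r, (al 1 t₂).eval r)) (bb t₂) = 0 := by
        rw [PHI_evbb]
        exact sub_self _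
      exact ord1 hd a (nb t₂ ht _ a b) (PHI_nb h hg hZ _) b (PHI_mem hZ t₂) ((s2 r).2 c1)
  · have e1 := hφ none
    simp only [Option.elim] at e1
    rw [l1, sub_zero, PHI_sum Ys (fun x a b => (y1 x).2 ⟨a, b⟩) fun x hx =>
      ord1 hd ((y1 x).1 hx).1 (ng x ((y1 x).1 hx).1 ((y1 x).1 hx).2) g3 ((y1 x).1 hx).2 y3
        (y4 x hx).1] at e1
    rw [e1, Finset.sum_add_distrib, Finset.sum_const, nsmul_eq_mul, y2]
    congr 1
    · exact Finset.sum_congr rfl fun x hx => by rw [← ((p3 x).1 ((y1 x).1 hx).1).1]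
    · push_cast
      field_simp

end Pool.Agent.MP_a9d3bd_g
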