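import Pool.Agent.MP_a9d3bd_g.CDefs

namespace Pool.Agent.MP_a9d3bd_g

open MvPolynomial Pool.Agent.MP_a9d3bd_h Pool.Agent.MP_a9d3bd_q

variable {K : Type} [Field K]

/-- `P` is a plane model of `V(H, g)` in the coordinates `s, t + μ θ`. -/
structure Hat (H g : R3 K) (μ : K) (P : Polynomial (Polynomial K)) : Prop where
  mu : μ ≠ 0
  deg : P.natDegree = H.totalDegree * g.totalDegree
  mem : dn μ P ∈ Ideal.span {H, g}
  ex : ∀ y : K × K, P.evalEval y.1 y.2 = 0 → ∃ x, eval x H = 0 ∧ eval x g = 0 ∧ pr μ x = y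
  uni : ∀ x x', eval x H = 0 → eval x g = 0 → eval x' H = 0 → eval x' g = 0 → pr μ x = pr μ x' →
    (Polynomial.derivative P).evalEval (pr μ x).1 (pr μ x).2 ≠ 0 →
    x = x' ∧ eval x (pderiv 1 g * pderiv 2 H) ≠ 0

end Pool.Agent.MP_a9d3bd_g
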