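import Pool.Agent.MP_a9d3bd_g.CDimW
import Pool.Agent.MP_a9d3bd_g.CMemZ
import Pool.Agent.MP_a9d3bd_g.CFamM

namespace Pool.Agent.MP_a9d3bd_g

open MvPolynomial Pool.Agent.MP_a9d3bd_h Pool.Agent.MP_a9d3bd_q

variable {K : Type} [Field K] {e : ℕ} {H : R3 K} {W : Pr K (Fin 3)}
  {lam : Pr K (Fin 3) → R3 K → ℝ}

theorem STEP0_fs {α : Type} (a : α) (f : α → ℝ) (c : α → ℚ) (h1 : c a = 1)
    (h : ∀ x, c x ≠ 0 → x = a) :
    (Function.support fun x => (c x : ℝ) * f x).Finite ∧ ∑ᶠ x, (c x : ℝ) * f x = f a := by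
  have k : ∀ x, x ≠ a → (c x : ℝ) * f x = 0 := fun x hx => by
    rw [not_not.1 fun k => hx (h x k), Rat.cast_zero, zero_mul]
  refine ⟨(Set.finite_singleton a).subset fun x hx => by_contra fun k' => hx (k x k'), ?_⟩
  rw [finsum_eq_single _ a k, h1, Rat.cast_one, one_mul]

theorem STEP0_mem (μ ν : K) (t₁ t₂ : Fin e → K) :
    mem μ (t₁ + μ • t₂) - C (μ - ν) * bb t₂ = mem ν (t₁ + ν • t₂) := by
  have k : ∀ μ : K, al μ (t₁ + μ • t₂) = al 0 t₁ + Polynomial.C μ * al 1 t₂ := fun μ => by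
    simp only [al, Pi.add_apply, Pi.smul_apply, smul_eq_mul, map_add, map_mul, add_mul,
      Finset.sum_add_distrib, mul_add, Finset.mul_sum, mul_assoc, map_zero, map_one, zero_mul,
      one_mul]
    ring
  simp only [mem, bb, k, map_add, map_mul, Polynomial.aeval_C, algebraMap_eq, map_sub]
  ring

theorem STEP0_bb (h : Srf H W) {μ : K} {t : Fin e → K} (g : Good H μ t) {Z : Pr K (Fin 3)}
    (z : IsM H μ t Z) (t₂ : Fin e → K) : bb t₂ ∉ Z.asIdeal := fun hb => by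
  have e1 : sb μ t (bb t₂) = Polynomial.X - Polynomial.C (al 1 t₂) := by
    rw [bb, map_sub, ← Polynomial.aeval_algHom_apply]
    simp only [sb, aeval_X, Matrix.cons_val]
    congr 1
    exact (Polynomial.aeval_algHom_apply (Polynomial.CAlgHom (R := K)) Polynomial.X _).trans (by
      simp)
  have k := Polynomial.natDegree_le_of_dvd (e1 ▸ (z _).1 hb) (Polynomial.X_sub_C_ne_zero _)
  have := h.two
  rw [Polynomial.natDegree_X_sub_C, g.2.2] at k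
  omega

theorem STEP0_C (halg : ∀ c : K, c ≠ 0 → ∃ n, 0 < n ∧ c ^ n = 1) (hl : Ax H W lam)
    {Z : Pr K (Fin 3)} (hZ : Cv H Z) {c : K} (hc : c ≠ 0) :
    C c ∉ Z.asIdeal ∧ lam Z (C c) = 0 := by
  have k : ∀ c : K, c ≠ 0 → (C c : R3 K) ∉ Z.asIdeal := fun c hc hm =>
    Z.isPrime.ne_top (Ideal.eq_top_of_isUnit_mem _ hm (hc.isUnit.map C))
  have k1 : ∀ n : ℕ, lam Z (C (c ^ n)) = n * lam Z (C c) := fun n => by
    induction n with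
    | zero =>
      have := hl.mul Z _ _ hZ (k 1 one_ne_zero) (k 1 one_ne_zero)
      rw [← map_mul, one_mul] at this
      rw [pow_zero, Nat.cast_zero, zero_mul]
      linarith
    | succ n ih =>
      rw [pow_succ, map_mul, hl.mul Z _ _ hZ (k _ (pow_ne_zero _ hc)) (k c hc), ih]
      push_cast
      ring
  obtain ⟨n, h1, h2⟩ := halg c hc
  have k2 := k1 n
  have k3 := k1 0
  rw [h2, ← pow_zero c, k3, Nat.cast_zero, zero_mul] at k2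
  exact ⟨k c hc, (mul_eq_zero.1 k2.symm).resolve_left (Nat.cast_ne_zero.2 h1.ne')⟩

/-- File CStep0.lean, uses memZ, famM. -/
theorem STEP0 (halg : ∀ c : K, c ≠ 0 → ∃ n, 0 < n ∧ c ^ n = 1) (h : Srf H W) (hl : Ax H W lam)
    (he : 2 ≤ e) {t₁ t₂ : Fin e → K} {μ₁ μ₂ μ₃ : K} (h1 : μ₃ ≠ μ₁) (h2 : μ₃ ≠ μ₂)
    (g1 : Good H μ₁ (t₁ + μ₁ • t₂)) (g2 : Good H μ₂ (t₁ + μ₂ • t₂))
    (g3 : Good H μ₃ (t₁ + μ₃ • t₂)) {Z₁ Z₂ : Pr K (Fin 3)} (z1 : IsM H μ₁ (t₁ + μ₁ • t₂) Z₁)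
    (z2 : IsM H μ₂ (t₁ + μ₂ • t₂) Z₂) : lam Z₁ (bb t₂) = lam Z₂ (bb t₂) := by
  obtain ⟨⟨Z₃, z3⟩, w3, -⟩ := memZ h g3
  have val : ∀ {μ ν : K} {Z : Pr K (Fin 3)}, μ ≠ ν → Good H ν (t₁ + ν • t₂) →
      IsM H ν (t₁ + ν • t₂) Z → mem μ (t₁ + μ • t₂) ∉ Z.asIdeal ∧
        lam Z (mem μ (t₁ + μ • t₂)) = lam Z (bb t₂) := fun {μ ν Z} hn g z => by
    obtain ⟨a1, a2, -⟩ := (memZ h g).2.2 Z z
    obtain ⟨b1, b2⟩ := STEP0_C halg hl a1 (sub_ne_zero.2 hn)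
    have b3 := STEP0_bb h g z t₂
    rw [← STEP0_mem μ ν] at a2
    have b4 : mem μ (t₁ + μ • t₂) ∉ Z.asIdeal := fun k =>
      (Z.isPrime.mem_or_mem (by simpa only [sub_sub_cancel] using Z.asIdeal.sub_mem k a2)).elim b1 b3
    exact ⟨b4, by rw [hl.congr Z _ _ a1 b4 a2, hl.mul Z _ _ a1 b1 b3, b2, zero_add]⟩
  have fs : ∀ {ν : K} {Z : Pr K (Fin 3)}, Good H ν (t₁ + ν • t₂) → IsM H ν (t₁ + ν • t₂) Z →
      ∀ f : Pr K (Fin 3) → ℝ,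
      (Function.support fun x => (dvc (mem ν (t₁ + ν • t₂)) W x : ℝ) * f x).Finite ∧
        ∑ᶠ x, (dvc (mem ν (t₁ + ν • t₂)) W x : ℝ) * f x = f Z := fun {ν Z} g z f => by
    obtain ⟨-, -, a3, a4⟩ := (memZ h g).2.2 Z z
    refine STEP0_fs Z f _ a4 fun x hx => ?_
    obtain ⟨-, b2, b3, b4⟩ := dvc_ne.1 hx
    rw [dimW h] at b2
    exact a3 x (b3 (h.eq ▸ Ideal.mem_span_singleton_self H)) (by rw [dim_eq]; omega) b4
  obtain ⟨c1, -, u1, -⟩ := (memZ h g1).2.2 Z₁ z1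
  obtain ⟨c2, -, u2, -⟩ := (memZ h g2).2.2 Z₂ z2
  obtain ⟨c3, -, u3, -⟩ := (memZ h g3).2.2 Z₃ z3
  have k := hl.tame e _ _ _ ((famM (t := t₁ + μ₁ • t₂) h he).2.1 g1.1)
    ((famM (t := t₁ + μ₂ • t₂) h he).2.1 g2.1) w3 fun Z a b c => ⟨by
      rcases Z.isPrime.mem_or_mem c with c | c
      · rcases Z.isPrime.mem_or_mem c with c | c
        · exact u3 Z a b c ▸ c3
        · exact u1 Z a b c ▸ c1
      · exact u2 Z a b c ▸ c2, fun d f => by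
      rw [u3 Z a b d] at f
      exact (Z₃.isPrime.mem_or_mem f).elim (val h1.symm g3 z3).1 (val h2.symm g3 z3).1⟩
  rw [(fs g3 z3 _).2, (val h1.symm g3 z3).2, (val h2.symm g3 z3).2, sub_self] at k
  simp only [Rat.cast_sub, sub_mul] at k
  rw [finsum_sub_distrib (fs g1 z1 _).1 (fs g2 z2 _).1, (fs g1 z1 _).2, (fs g2 z2 _).2,
    (val h1 g1 z1).2, (val h2 g2 z2).2] at k
  exact sub_eq_zero.1 k.symm

end Pool.Agent.MP_a9d3bd_g
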