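import Pool.Agent.MP_a9d3bd_g.CMemZ
import Pool.Agent.MP_a9d3bd_g.CMemP
import Pool.Agent.MP_a9d3bd_g.CFamM
import Pool.Agent.MP_a9d3bd_g.CGoodN
import Pool.Agent.MP_a9d3bd_g.CFq
import Pool.Agent.MP_a9d3bd_g.CStep0
import Pool.Agent.MP_a9d3bd_g.CPhi
import Pool.Agent.MP_a9d3bd_g.BGap0

namespace Pool.Agent.MP_a9d3bd_g

open MvPolynomial Pool.Agent.MP_a9d3bd_h Pool.Agent.MP_a9d3bd_q

variable {K : Type} [Field K] {e : ℕ} {H : R3 K} {W : Pr K (Fin 3)}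
  {lam : Pr K (Fin 3) → R3 K → ℝ}

/-- The line `t₁, t₂` is a split unramified section of the good member with slope `μ`. -/
def STEP1_In (q : ℕ) (H : R3 K) (μ : K) (t₁ t₂ : Fin e → K) : Prop :=
  Good H μ (t₁ + μ • t₂) ∧
    t₂ ∈ Edg q e 1 (sb μ (t₁ + μ • t₂) H) (Pts q (sb μ (t₁ + μ • t₂) H))

/-- The equation of the surface along the line. -/
noncomputable def STEP1_h (H : R3 K) (t₁ t₂ : Fin e → K) : Polynomial K :=
  aeval ![Polynomial.X, al 0 t₁, al 1 t₂] H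

/-- The point of the line with parameter `s`. -/
noncomputable def STEP1_pt (t₁ t₂ : Fin e → K) (s : K) : Fin 3 → K :=
  ![s, (al 0 t₁).eval s, (al 1 t₂).eval s]

open Classical in
/-- The points of the surface on the line. -/
noncomputable def STEP1_inc (H : R3 K) (t₁ t₂ : Fin e → K) : Finset (Fin 3 → K) :=
  (STEP1_h H t₁ t₂).roots.toFinset.image (STEP1_pt t₁ t₂)

theorem STEP1_ev (ρ : K) (t : Fin e → K) (s : K) :
    (al ρ t).eval s = ρ * s ^ e + ∑ i, t i * s ^ (i : ℕ) := by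
  simp only [al, Polynomial.eval_add, Polynomial.eval_mul, Polynomial.eval_C, Polynomial.eval_pow,
    Polynomial.eval_X, Polynomial.eval_finsetSum]

theorem STEP1_up (μ : K) (t₁ t₂ : Fin e → K) (s : K) :
    up μ (t₁ + μ • t₂) (s, (al 1 t₂).eval s) = STEP1_pt t₁ t₂ s := by
  have : (al μ (t₁ + μ • t₂)).eval s - μ * (al 1 t₂).eval s = (al 0 t₁).eval s := by
    simp only [STEP1_ev, Pi.add_apply, Pi.smul_apply, smul_eq_mul, add_mul, Finset.sum_add_distrib,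
      mul_add, Finset.mul_sum, mul_assoc]
    ring
  simp only [up, STEP1_pt, this]

theorem STEP1_upinj (μ : K) (t : Fin e → K) : Function.Injective (up μ t) := by
  intro y z h
  have h0 := congrFun h 0
  have h2 := congrFun h 2
  simp only [up] at h0 h2
  exact Prod.ext h0 h2

theorem STEP1_hh (h : Srf H W) (he : 2 ≤ e) (μ : K) (t₁ t₂ : Fin e → K) :
    (sb μ (t₁ + μ • t₂) H).eval (al 1 t₂) = STEP1_h H t₁ t₂ :=
  (famM h he).2.2.1 t₁ t₂ rfl

theorem STEP1_spl (h : Srf H W) (he : 2 ≤ e) {q : ℕ} {μ : K} {t₁ t₂ : Fin e → K}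
    (hI : STEP1_In q H μ t₁ t₂) : Spl q (e * H.totalDegree) (STEP1_h H t₁ t₂) := by
  have := hI.2.2.1
  rwa [STEP1_hh h he, hI.1.2.2] at this

open Classical in
theorem STEP1_card {q n : ℕ} {g : Polynomial K} (hs : Spl q n g) :
    g ≠ 0 ∧ g.roots.toFinset.card ≤ n := by
  obtain ⟨A, hA, -, c, hc, rfl⟩ := hs
  have h1 : (∏ x ∈ A, (Polynomial.X - Polynomial.C x) : Polynomial K) ≠ 0 :=
    (Polynomial.monic_prod_of_monic _ _ fun x _ => Polynomial.monic_X_sub_C x).ne_zero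
  refine ⟨mul_ne_zero (Polynomial.C_ne_zero.2 hc) h1, ?_⟩
  rw [Polynomial.roots_C_mul _ hc, Polynomial.roots_prod_X_sub_C, Finset.val_toFinset, hA]

theorem STEP1_mem {t₁ t₂ : Fin e → K} (h0 : STEP1_h H t₁ t₂ ≠ 0) {x : Fin 3 → K} :
    x ∈ STEP1_inc H t₁ t₂ ↔ ∃ s, (STEP1_h H t₁ t₂).eval s = 0 ∧ STEP1_pt t₁ t₂ s = x := by
  simp [STEP1_inc, h0]

open Classical in
theorem STEP1_sum (t₁ t₂ : Fin e → K) (φ : (Fin 3 → K) → ℝ) :
    ∑ x ∈ STEP1_inc H t₁ t₂, φ x =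
      ∑ s ∈ (STEP1_h H t₁ t₂).roots.toFinset, φ (STEP1_pt t₁ t₂ s) := by
  unfold STEP1_inc
  refine Finset.sum_image fun s _ s' _ hs => ?_
  simpa [STEP1_pt] using congrFun hs 0

open Classical in
theorem STEP1_fil {q : ℕ} {ρ : K} {F : Polynomial (Polynomial K)} {t : Fin e → K}
    (ht : t ∈ Edg q e ρ F (Pts q F)) (P : Finset (K × K)) (hP : ∀ x, x ∈ P ↔ x ∈ Pts q F)
    (φ : K × K → ℝ) : ∑ x ∈ P.filter (fun x => (al ρ t).eval x.1 = x.2), φ x =
      ∑ s ∈ (F.eval (al ρ t)).roots.toFinset, φ (s, (al ρ t).eval s) := by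
  have h0 := (STEP1_card ht.2.1).1
  symm
  refine Finset.sum_nbij' (fun s => (s, (al ρ t).eval s)) (fun x => x.1) ?_ ?_ ?_ ?_ ?_
  · intro s hs
    have h1 : (F.eval (al ρ t)).eval s = 0 := by simpa [h0] using hs
    exact Finset.mem_filter.2 ⟨(hP _).2 (ht.2.2 s h1), rfl⟩
  · intro x hx
    obtain ⟨h1, h2⟩ := Finset.mem_filter.1 hx
    have h3 := ((hP _).1 h1).2.2.1
    rw [← h2, ← GAP_ev] at h3
    simpa [h0] using h3
  · intro s _
    rfl
  · intro x hx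
    exact Prod.ext rfl (Finset.mem_filter.1 hx).2
  · intro s _
    rfl

theorem STEP1_fin {q : ℕ} (hq : 2 ≤ q) (ρ : K) (F : Polynomial (Polynomial K)) :
    (∃ P : Finset (K × K), ∀ x, x ∈ P ↔ x ∈ Pts q F) ∧
    ∃ E : Finset (Fin e → K), ∀ t, t ∈ E ↔ t ∈ Edg q e ρ F (Pts q F) := by
  classical
  refine ⟨⟨(GAP_R K q ×ˢ GAP_R K q).filter (· ∈ Pts q F), fun x => ?_⟩,
    (Fintype.piFinset fun _ => GAP_R K q).filter (· ∈ Edg q e ρ F (Pts q F)), fun t => ?_⟩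
  · simp only [Finset.mem_filter, Finset.mem_product, GAP_mem_R hq]
    exact ⟨fun h => h.2, fun h => ⟨⟨h.1, h.2.1⟩, h⟩⟩
  · simp only [Finset.mem_filter, Fintype.mem_piFinset, GAP_mem_R hq]
    exact ⟨fun h => h.2, fun h => ⟨h.1, h⟩⟩

theorem STEP1_der (h : Srf H W) {μ : K} {t : Fin e → K} (hg : Good H μ t) (y : K × K) :
    (Polynomial.derivative (sb μ t H)).evalEval y.1 y.2 =
      eval (up μ t y) (pderiv 2 H) - μ * eval (up μ t y) (pderiv 1 H) := by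
  obtain ⟨Z, hZ⟩ := (memZ h hg).1
  rw [(memP hZ).2.1 y]
  simp

theorem STEP1_many [IsAlgClosed K] (h : Srf H W) (he : 2 ≤ e) : ∃ N₀ : ℕ, ∀ (q : ℕ) (μ₀ : K)
    (t₁ t₂ : Fin e → K), STEP1_In q H μ₀ t₁ t₂ → ∃ A : Polynomial K, A ≠ 0 ∧ A.natDegree ≤ N₀ ∧
      ∀ μ, A.eval μ ≠ 0 → STEP1_In q H μ t₁ t₂ := by
  classical
  obtain ⟨N, hN⟩ := GOODN h he
  have hN' : ∀ (μ : K) (t : Fin e → K), Good H μ t ↔
      ∃ ν ∈ N, aeval (fun o : Option (Fin e) => o.elim μ t) ν ≠ 0 := by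
    intro μ t
    have := hN K μ t
    rwa [Algebra.algebraMap_self, map_id] at this
  refine ⟨N.sup totalDegree + e * H.totalDegree, fun q μ₀ t₁ t₂ hI => ?_⟩
  obtain ⟨ν, hν, hν0⟩ := (hN' _ _).1 hI.1
  have hs := STEP1_spl h he hI
  obtain ⟨h0, hc⟩ := STEP1_card hs
  let g : Option (Fin e) → Polynomial K := fun o =>
    o.elim Polynomial.X fun i => Polynomial.C (t₁ i) + Polynomial.C (t₂ i) * Polynomial.X
  have hg : ∀ μ : K, (aeval g ν).eval μ =
      aeval (fun o : Option (Fin e) => o.elim μ (t₁ + μ • t₂)) ν := by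
    intro μ
    have : (Polynomial.aeval μ).comp (aeval g) =
        aeval (R := K) (fun o : Option (Fin e) => o.elim μ (t₁ + μ • t₂)) := by
      refine MvPolynomial.algHom_ext fun o => ?_
      rw [AlgHom.comp_apply, aeval_X, aeval_X]
      cases o with
      | none => simp only [g, Option.elim, Polynomial.aeval_X]
      | some i =>
        simp only [g, Option.elim, map_add, map_mul, Polynomial.aeval_C, Polynomial.aeval_X,
          Pi.add_apply, Pi.smul_apply, smul_eq_mul, Algebra.algebraMap_self, RingHom.id_apply]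
        ring
    rw [← this]
    simp
  let B : Polynomial K := ∏ s ∈ (STEP1_h H t₁ t₂).roots.toFinset,
    (Polynomial.C (eval (STEP1_pt t₁ t₂ s) (pderiv 2 H)) -
      Polynomial.C (eval (STEP1_pt t₁ t₂ s) (pderiv 1 H)) * Polynomial.X)
  have hB : ∀ μ : K, B.eval μ ≠ 0 ↔ ∀ s, (STEP1_h H t₁ t₂).eval s = 0 →
      eval (STEP1_pt t₁ t₂ s) (pderiv 2 H) - μ * eval (STEP1_pt t₁ t₂ s) (pderiv 1 H) ≠ 0 := by
    intro μ
    simp only [B, Polynomial.eval_prod, Finset.prod_ne_zero_iff, Multiset.mem_toFinset,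
      Polynomial.mem_roots h0, Polynomial.IsRoot.def, Polynomial.eval_sub, Polynomial.eval_mul,
      Polynomial.eval_C, Polynomial.eval_X, mul_comm μ]
  have hP : ∀ s, (STEP1_h H t₁ t₂).eval s = 0 →
      (s, (al 1 t₂).eval s) ∈ Pts q (sb μ₀ (t₁ + μ₀ • t₂) H) := fun s hs =>
    hI.2.2.2 s (by rw [STEP1_hh h he]; exact hs)
  have hB0 : B.eval μ₀ ≠ 0 := by
    refine (hB _).2 fun s hs => ?_
    have := (hP s hs).2.2.2
    rwa [STEP1_der h hI.1, STEP1_up] at this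
  refine ⟨aeval g ν * B, fun hz => ?_, ?_, fun μ hμ => ?_⟩
  · have := congrArg (Polynomial.eval μ₀) hz
    rw [Polynomial.eval_mul, Polynomial.eval_zero, hg] at this
    exact mul_ne_zero hν0 hB0 this
  · refine Polynomial.natDegree_mul_le.trans (add_le_add ?_ ?_)
    · have := aeval_natDegree_le ν (Finset.le_sup (f := totalDegree) hν) g (n := 1) (by
        intro o
        cases o
        · exact Polynomial.natDegree_X_le
        · simp only [g, Option.elim]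
          compute_degree)
      simpa using this
    · refine (Polynomial.natDegree_prod_le _ _).trans ?_
      refine (Finset.sum_le_card_nsmul _ _ 1 fun s _ => ?_).trans (by simpa using hc)
      compute_degree
  · rw [Polynomial.eval_mul, hg] at hμ
    have g1 : Good H μ (t₁ + μ • t₂) := (hN' _ _).2 ⟨ν, hν, left_ne_zero_of_mul hμ⟩
    have g2 := (hB μ).1 (right_ne_zero_of_mul hμ)
    refine ⟨g1, hI.2.1, ?_, fun s hs => ?_⟩
    · rw [STEP1_hh h he, g1.2.2]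
      exact hs
    · have hs' := hs
      rw [STEP1_hh h he] at hs'
      refine ⟨(hP s hs').1, (hP s hs').2.1, ?_, ?_⟩
      · rw [← GAP_ev]
        exact hs
      · rw [STEP1_der h g1, STEP1_up]
        exact g2 s hs'

open Classical in
theorem STEP1_eq (h : Srf H W) (he : 2 ≤ e) {q : ℕ} {μ : K} {t₁ t₂ t : Fin e → K}
    (ht : t₁ + μ • t₂ = t) (hI : STEP1_In q H μ t₁ t₂) (P : Finset (K × K))
    (hP : ∀ x, x ∈ P ↔ x ∈ Pts q (sb μ t H)) (φ : (Fin 3 → K) → ℝ) :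
    ∑ x ∈ P.filter (fun x => (al 1 t₂).eval x.1 = x.2), φ (up μ t x) =
      ∑ x ∈ STEP1_inc H t₁ t₂, φ x := by
  subst ht
  rw [STEP1_fil hI.2 P hP (fun x => φ (up μ (t₁ + μ • t₂) x)), STEP1_sum, STEP1_hh h he]
  simp only [STEP1_up]

theorem STEP1_pts (h : Srf H W) (he : 2 ≤ e) {q : ℕ} {μ : K} {t₁ t₂ t : Fin e → K}
    (ht : t₁ + μ • t₂ = t) (hI : STEP1_In q H μ t₁ t₂) {x : Fin 3 → K}
    (hx : x ∈ STEP1_inc H t₁ t₂) : ∃ y ∈ Pts q (sb μ t H), up μ t y = x := by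
  subst ht
  obtain ⟨s, h1, rfl⟩ := (STEP1_mem (STEP1_card (STEP1_spl h he hI)).1).1 hx
  exact ⟨_, hI.2.2.2 s (by rw [STEP1_hh h he]; exact h1), STEP1_up _ _ _ _⟩

theorem STEP1_few (h : Srf H W) (he : 2 ≤ e) {q : ℕ} (hq : 2 ≤ q) {μ : K} {t : Fin e → K}
    (hg : Good H μ t) (Z : Finset (K × K))
    (hZ : ∀ x : K × K, (sb μ t H).evalEval x.1 x.2 = 0 →
      (Polynomial.derivative (sb μ t H)).evalEval x.1 x.2 = 0 → x ∈ Z)
    {y : K × K} (hy : y ∈ Pts q (sb μ t H)) (S : Finset (Fin e → K))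
    (hS : ∀ t₂ ∈ S, ∃ t₁ μ', t₁ + μ • t₂ = t ∧ STEP1_In q H μ' t₁ t₂ ∧ ¬ STEP1_In q H μ t₁ t₂ ∧
      up μ t y ∈ STEP1_inc H t₁ t₂) : S.card ≤ Z.card * q ^ (e - 2) := by
  classical
  have sub : S ⊆ (Z.erase y).biUnion fun z => GAP_L q e 1 {y, z} := by
    intro t₂ h₂
    obtain ⟨t₁, μ', rfl, hI, hn, hx⟩ := hS t₂ h₂
    have hs := STEP1_spl h he hI
    obtain ⟨s₀, -, h2⟩ := (STEP1_mem (STEP1_card hs).1).1 hx
    rw [← STEP1_up μ] at h2
    have e0 := STEP1_upinj _ _ h2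
    have : ∃ s, (STEP1_h H t₁ t₂).eval s = 0 ∧
        (s, (al 1 t₂).eval s) ∉ Pts q (sb μ (t₁ + μ • t₂) H) := by
      by_contra hc
      push Not at hc
      refine hn ⟨hg, hI.2.1, ?_, fun s h1 => hc s ?_⟩
      · rw [STEP1_hh h he, hg.2.2]
        exact hs
      · rwa [STEP1_hh h he] at h1
    obtain ⟨s, h3, h4⟩ := this
    have h5 := hI.2.2.2 s (by rw [STEP1_hh h he]; exact h3)
    have h6 : (sb μ (t₁ + μ • t₂) H).evalEval s ((al 1 t₂).eval s) = 0 := by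
      rw [← GAP_ev, STEP1_hh h he]
      exact h3
    have h7 : (Polynomial.derivative (sb μ (t₁ + μ • t₂) H)).evalEval s ((al 1 t₂).eval s) = 0 := by
      by_contra h8
      exact h4 ⟨h5.1, h5.2.1, h6, h8⟩
    refine Finset.mem_biUnion.2 ⟨(s, (al 1 t₂).eval s),
      Finset.mem_erase.2 ⟨fun h9 => h4 (h9 ▸ hy), hZ _ h6 h7⟩, (GAP_mem_L hq).2 ⟨hI.2.1, ?_⟩⟩
    intro x hx
    rcases Finset.mem_insert.1 hx with h9 | h9
    · rw [h9, ← e0]
    · rw [Finset.mem_singleton.1 h9]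
  refine (Finset.card_le_card sub).trans ?_
  refine (Finset.card_biUnion_le_card_mul _ _ (q ^ (e - 2)) fun z hz => ?_).trans
    (Nat.mul_le_mul_right _ Finset.card_erase_le)
  have h2 : ({y, z} : Finset (K × K)).card = 2 :=
    Finset.card_pair (Finset.ne_of_mem_erase hz).symm
  have := GAP_lag hq (1 : K) ({y, z} : Finset (K × K)) (e := e) (by omega)
  rwa [h2] at this

theorem STEP1_rep [IsAlgClosed K] (halg : ∀ c : K, c ≠ 0 → ∃ n, 0 < n ∧ c ^ n = 1) (h : Srf H W)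
    (hl : Ax H W lam) (he : 2 ≤ e) {q : ℕ} (hq : 1 < q) {μ : K} {t : Fin e → K} (hg : Good H μ t)
    {Z : Pr K (Fin 3)} (hZ : IsM H μ t Z) : ∃ φ, Rep q H lam μ t Z φ := by
  obtain ⟨φ, h1, -⟩ := PHI halg h hl he hq hg hZ (g := 1) (by simp) (by simp)
    (fun h1 => Z.isPrime.ne_top ((Ideal.eq_top_iff_one _).2 h1)) ∅ (by simp) (by simp) (u := 0)
    (by simp) (by simp)
  exact ⟨φ, h1⟩

end Pool.Agent.MP_a9d3bd_g
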