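import Pool.Agent.MP_a9d3bd_g.CS2Defs
import Pool.Agent.MP_a9d3bd_g.BGap0

namespace Pool.Agent.MP_a9d3bd_g

open MvPolynomial Pool.Agent.MP_a9d3bd_h Pool.Agent.MP_a9d3bd_q

variable {K : Type} [Field K] {e : ℕ} {H : R3 K} {W : Pr K (Fin 3)} {lam : Pr K (Fin 3) → R3 K → ℝ}

theorem SZB_deg {σ τ : Type} (g : σ → MvPolynomial τ K) (hg : ∀ i, (g i).totalDegree ≤ 1)
    (ν : MvPolynomial σ K) : (aeval g ν).totalDegree ≤ ν.totalDegree := by
  conv_lhs => rw [ν.as_sum, map_sum]
  refine totalDegree_finsetSum_le fun d hd => ?_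
  rw [aeval_monomial]
  refine (totalDegree_mul _ _).trans ?_
  rw [algebraMap_eq, totalDegree_C, zero_add]
  refine (totalDegree_finsetProd _ _).trans (le_trans ?_ (le_totalDegree hd))
  refine Finset.sum_le_sum fun i _ => (totalDegree_pow _ _).trans ?_
  simpa using Nat.mul_le_mul_left (d i) (hg i)

theorem SZB_cnt {σ : Type} {n q : ℕ} (hq : 2 ≤ q) (ν : MvPolynomial σ K)
    (g : σ → MvPolynomial (Fin (n + 1)) K) (hg : ∀ i, (g i).totalDegree ≤ 1)
    (x₀ : Fin (n + 1) → K) (h0 : aeval (fun o => aeval x₀ (g o)) ν ≠ 0)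
    (T : Finset (Fin (n + 1) → K)) (hT : ∀ x ∈ T, (∀ i, x i ^ q = x i) ∧
      aeval (fun o => aeval x (g o)) ν = 0) : T.card ≤ ν.totalDegree * q ^ n := by
  classical
  have hP : aeval g ν ≠ 0 := fun h => h0 (by rw [← comp_aeval_apply, h, map_zero])
  have h1 := schwartz_zippel_totalDegree hP (GAP_R K q)
  have h2 : 0 < (GAP_R K q).card :=
    Finset.card_pos.2 ⟨0, (GAP_mem_R hq).2 (zero_pow (by omega))⟩
  have h2' : (0 : ℚ≥0) < (GAP_R K q).card := by exact_mod_cast h2
  rw [div_le_div_iff₀ (by positivity) h2', pow_succ, ← mul_assoc] at h1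
  have h3 := le_of_mul_le_mul_right h1 h2'
  have h4 : ((Fintype.piFinset fun _ => GAP_R K q).filter fun x => eval x (aeval g ν) = 0).card ≤
      (aeval g ν).totalDegree * (GAP_R K q).card ^ n := by exact_mod_cast h3
  refine (Finset.card_le_card fun x hx => ?_).trans (h4.trans (Nat.mul_le_mul (SZB_deg g hg ν)
    (Nat.pow_le_pow_left (GAP_card_R hq) n)))
  refine Finset.mem_filter.2 ⟨Fintype.mem_piFinset.2 fun i => (GAP_mem_R hq).2 ((hT x hx).1 i), ?_⟩
  rw [← coe_aeval_eq_eval, RingHom.coe_coe, comp_aeval_apply]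
  exact (hT x hx).2

theorem SZB_head {n : ℕ} {μ : K} {y : K × K} {t : Fin (n + 1) → K}
    (h : (al μ t).eval y.1 = y.2) :
    t 0 = y.2 - μ * y.1 ^ (n + 1) - ∑ j : Fin n, y.1 ^ ((j : ℕ) + 1) * t j.succ := by
  rw [← h]
  simp only [al, Polynomial.eval_add, Polynomial.eval_mul, Polynomial.eval_C, Polynomial.eval_pow,
    Polynomial.eval_X, Polynomial.eval_finsetSum, Fin.sum_univ_succ, Fin.val_zero, pow_zero,
    Fin.val_succ, mul_comm (t _), Polynomial.eval_one]
  ring

open Classical in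
/-- File CSzb.lean. -/
theorem SZB (p f : ℕ) [Fact p.Prime] [IsAlgClosed K] [CharP K p] (hf : 0 < f) (he : 2 ≤ e)
    (ν : MvPolynomial (Option (Fin e)) K) (μ : K) (y : K × K) (t₀ : Fin e → K)
    (h0 : aeval (fun o : Option (Fin e) => o.elim μ t₀) ν ≠ 0) (hy : (al μ t₀).eval y.1 = y.2)
    (B : Finset (Fin e → K)) (hB : ∀ t ∈ B, (∀ i, t i ^ p ^ f = t i) ∧
      aeval (fun o : Option (Fin e) => o.elim μ t) ν = 0) :
    B.card ≤ ν.totalDegree * (p ^ f) ^ (e - 1) ∧
    (B.filter fun t => (al μ t).eval y.1 = y.2).card ≤ ν.totalDegree * (p ^ f) ^ (e - 2) := by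
  have hq : 2 ≤ p ^ f := Nat.one_lt_pow hf.ne' (Fact.out : p.Prime).one_lt
  obtain ⟨n, rfl⟩ : ∃ n, e = n + 2 := ⟨e - 2, by omega⟩
  constructor
  · have h1 : ∀ t : Fin (n + 2) → K, (fun o : Option (Fin (n + 2)) =>
        aeval t (o.elim (C μ) X : MvPolynomial (Fin (n + 2)) K)) = fun o => o.elim μ t := by
      intro t
      funext o
      cases o <;> simp
    refine SZB_cnt (n := n + 1) hq ν (fun o => o.elim (C μ) X) ?_ t₀ (by rwa [h1]) B
      fun t ht => by rw [h1]; exact hB t ht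
    rintro (_ | i)
    · simp
    · simp
  · let g : Option (Fin (n + 2)) → MvPolynomial (Fin (n + 1)) K := fun o => o.elim (C μ)
      (Fin.cons (C (y.2 - μ * y.1 ^ (n + 2)) - ∑ j : Fin (n + 1), C (y.1 ^ ((j : ℕ) + 1)) * X j) X)
    have h1 : ∀ t : Fin (n + 2) → K, (al μ t).eval y.1 = y.2 →
        (fun o => aeval (Fin.tail t) (g o)) = fun o => o.elim μ t := by
      intro t ht
      funext o
      rcases o with _ | i
      · simp [g]
      · refine Fin.cases ?_ (fun j => ?_) i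
        · simp only [g, Option.elim_some, Fin.cons_zero, map_sub, map_sum, map_mul, aeval_C,
            aeval_X, Algebra.algebraMap_self_apply, SZB_head ht, Fin.tail]
        · simp [g, Fin.tail]
    have h2 : Set.InjOn (Fin.tail : (Fin (n + 2) → K) → Fin (n + 1) → K)
        (B.filter fun t => (al μ t).eval y.1 = y.2 : Finset _) := fun t ht t' ht' h => by
      have h3 := (h1 t (Finset.mem_filter.1 ht).2).symm.trans
        (h ▸ h1 t' (Finset.mem_filter.1 ht').2)
      exact funext fun i => congrFun h3 (some i)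
    rw [← Finset.card_image_of_injOn h2]
    refine SZB_cnt (n := n) hq ν g ?_ (Fin.tail t₀) (by rwa [h1 t₀ hy]) _ fun x hx => ?_
    · rintro (_ | i)
      · simp [g]
      · refine Fin.cases ?_ (fun j => ?_) i
        · simp only [g, Option.elim_some, Fin.cons_zero]
          refine (totalDegree_sub _ _).trans (max_le (by rw [totalDegree_C]; omega)
            (totalDegree_finsetSum_le fun j _ => (totalDegree_mul _ _).trans ?_))
          rw [totalDegree_C, totalDegree_X]
        · simp [g]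
    · obtain ⟨t, ht, rfl⟩ := Finset.mem_image.1 hx
      obtain ⟨h3, h4⟩ := Finset.mem_filter.1 ht
      rw [h1 t h4]
      exact ⟨fun i => (hB t h3).1 _, (hB t h3).2⟩

end Pool.Agent.MP_a9d3bd_g
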