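import Pool.Agent.MP_a9d3bd_g.CJac
import Pool.Agent.MP_a9d3bd_g.CExt
import Pool.Agent.MP_a9d3bd_g.CInfC
import Pool.Agent.MP_a9d3bd_g.CInfA
import Pool.Agent.MP_a9d3bd_g.COrd1
import Pool.Agent.MP_a9d3bd_g.CDeg0
import Pool.Agent.MP_a9d3bd_g.CMemZ
import Pool.Agent.MP_a9d3bd_g.CMemP
import Pool.Agent.MP_a9d3bd_g.CEdge
import Pool.Agent.MP_a9d3bd_g.CDvg
import Pool.Agent.MP_a9d3bd_g.CPhi
import Pool.Agent.MP_a9d3bd_g.CTame5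
import Pool.Agent.MP_a9d3bd_g.CHat
import Pool.Agent.MP_a9d3bd_g.CExg
import Pool.Agent.MP_a9d3bd_g.CGoodN
import Pool.Agent.MP_a9d3bd_g.BCon
import Pool.Agent.MP_a9d3bd_g.CFamP
import Pool.Agent.MP_a9d3bd_g.CFamM
import Pool.Agent.MP_a9d3bd_g.CDn
import Pool.Agent.MP_a9d3bd_g.CSzb
import Pool.Agent.MP_a9d3bd_g.CFq
import Pool.Agent.MP_a9d3bd_g.CDimW
import Pool.Agent.MP_a9d3bd_g.CStep0

namespace Pool.Agent.MP_a9d3bd_g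

open MvPolynomial Pool.Agent.MP_a9d3bd_h Pool.Agent.MP_a9d3bd_q

variable {K : Type} [Field K] {e : ℕ} {H : R3 K} {W : Pr K (Fin 3)}
  {lam : Pr K (Fin 3) → R3 K → ℝ}

theorem S2_ev {Z : Pr K (Fin 3)} {x : Fin 3 → K} (h : Z ≤ ak K x) {F : R3 K}
    (hF : F ∈ Z.asIdeal) : eval x F = 0 := h hF

theorem S2_nice {g : R3 K} (hg : g.degreeOf 2 = 0) {Y : Pr K (Fin 3)} (h1 : H ∈ Y.asIdeal)
    (h2 : g ∈ Y.asIdeal) {x : Fin 3 → K} (hx : Y ≤ ak K x)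
    (h3 : eval x (pderiv 1 g * pderiv 2 H) ≠ 0) : Nice Y x := fun f hf =>
  ((JAC hg (S2_ev hx h1) (S2_ev hx h2) h3).1 f hf).mono (Ideal.span_le.2 (by
    rintro _ (rfl | rfl | rfl)
    exacts [Ideal.mem_sup_left h1, Ideal.mem_sup_left h2,
      Ideal.mem_sup_right (Ideal.subset_span rfl)]))

theorem S2_uni {g : R3 K} (hg : g.degreeOf 2 = 0) {Y Y' : Pr K (Fin 3)} (h1 : H ∈ Y.asIdeal)
    (h2 : g ∈ Y.asIdeal) (h3 : dim Y = 1) (h1' : H ∈ Y'.asIdeal) (h2' : g ∈ Y'.asIdeal)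
    (h3' : dim Y' = 1) {x : Fin 3 → K} (hx : Y ≤ ak K x) (hx' : Y' ≤ ak K x)
    (h : eval x (pderiv 1 g * pderiv 2 H) ≠ 0) : Y = Y' := by
  have h4 := (JAC hg (S2_ev hx h1) (S2_ev hx h2) h).2.2
  exact PrimeSpectrum.ext (Ideal.ext fun f => (h4 Y h1 h2 h3 hx f).trans (h4 Y' h1' h2' h3' hx' f).symm)

theorem S2_cv {g : R3 K} (hg : Gp H g) {Y : Pr K (Fin 3)} (h1 : H ∈ Y.asIdeal)
    (h2 : g ∈ Y.asIdeal) (h3 : dim Y = 1) : Cv H Y :=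
  ⟨h1, h3, 2, fun h => hg.2.2 Y h1 h2 h3 (Ideal.mul_mem_left _ _ h)⟩

theorem S2_one (hl : Ax H W lam) {Y : Pr K (Fin 3)} (h : Cv H Y) : lam Y 1 = 0 := by
  have h1 : (1 : R3 K) ∉ Y.asIdeal := fun h => Y.isPrime.ne_top ((Ideal.eq_top_iff_one _).2 h)
  have := hl.mul Y 1 1 h h1 h1
  rw [mul_one] at this
  linarith

theorem S2_dvc1 (Y Q : Pr K (Fin 3)) : dvc 1 Y Q = 0 := by
  by_contra h
  exact Q.isPrime.ne_top ((Ideal.eq_top_iff_one _).2 (dvc_ne.1 h).2.2.2)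

open Classical in
/-- The representing function on one component. -/
theorem S2_comp [IsAlgClosed K] (halg : ∀ c : K, c ≠ 0 → ∃ n, 0 < n ∧ c ^ n = 1) (h : Srf H W)
    (hl : Ax H W lam) (he : 2 ≤ e) {g : R3 K} (hg : Gp H g) {Y : Pr K (Fin 3)}
    (h1 : H ∈ Y.asIdeal) (h2 : g ∈ Y.asIdeal) (h3 : dim Y = 1) {μ : K} (hμ : μ ≠ 0)
    (E : Set (Fin e → K)) (hE : E.Finite) (Ys : (Fin e → K) → Finset (Fin 3 → K))
    (u : (Fin e → K) → Polynomial K) (a1 : ∀ t ∈ E, mem μ t ∉ Y.asIdeal)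
    (a2 : ∀ t ∈ E, Polynomial.aeval (X 0 : R3 K) (u t) ∈ Ideal.span {H, g, mem μ t})
    (a3 : ∀ t ∈ E, ∀ x, x ∈ Ys t ↔ eval x H = 0 ∧ eval x g = 0 ∧ eval x (mem μ t) = 0)
    (a4 : ∀ t ∈ E, ∀ x ∈ Ys t, (u t).derivative.eval (x 0) ≠ 0 ∧
      eval x (pderiv 1 g * pderiv 2 H) ≠ 0) {F G : R3 K} (b1 : F * G ∉ Y.asIdeal)
    (b2 : Inf Y F G)
    (b3 : ∀ x, Y ≤ ak K x → eval x (F * G) = 0 → eval x (pderiv 1 g * pderiv 2 H) ≠ 0) :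
    ∃ (φ : (Fin 3 → K) → ℝ) (κ : ℝ),
      (∀ t ∈ E, lam Y (mem μ t) = ∑ x ∈ (Ys t).filter (fun x => Y ≤ ak K x), φ x + κ) ∧
      lam Y F - lam Y G = ∑ᶠ x, (dvc F Y (ak K x) - dvc G Y (ak K x) : ℚ) * φ x := by
  have hc := S2_cv hg h1 h2 h3
  have := hE.to_subtype
  obtain ⟨φ, κ, hφ⟩ := EXT halg Y h3 (lam Y) (fun F G => hl.mul Y F G hc)
    (fun F G => hl.congr Y F G hc) (J := Option E) (fun o => o.elim F fun t => mem μ t.1)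
    (fun o => o.elim G fun _ => 1) (fun o => o.elim 0 fun _ => e)
    (by
      rintro (_ | t)
      · exact b1
      · simpa using a1 t t.2)
    (by
      rintro (_ | t)
      · simpa [InfW] using b2
      · exact INFc h he hg.1 hg.2.1 h1 h2 hμ t.1)
    (by
      rintro (_ | t) x hx h0
      · exact S2_nice hg.1 h1 h2 hx (b3 x hx h0)
      · exact S2_nice hg.1 h1 h2 hx (a4 t t.2 x ((a3 t t.2 x).2
          ⟨S2_ev hx h1, S2_ev hx h2, by simpa using h0⟩)).2)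
  refine ⟨φ, κ * e, fun t ht => ?_, by simpa using hφ none⟩
  have h4 := hφ (some ⟨t, ht⟩)
  simp only [Option.elim, S2_one hl hc, sub_zero, S2_dvc1] at h4
  rw [h4, finsum_eq_sum_of_support_subset (s := (Ys t).filter fun x => Y ≤ ak K x)]
  · congr 1
    refine Finset.sum_congr rfl fun x hx => ?_
    obtain ⟨h5, h6⟩ := Finset.mem_filter.1 hx
    rw [ord1 h3 h6 (S2_nice hg.1 h1 h2 h6 (a4 t ht x h5).2) (a1 t ht) ((a3 t ht x).1 h5).2.2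
      (Ideal.span_le.2 (by
        rintro _ (rfl | rfl | rfl)
        exacts [Ideal.mem_sup_left h1, Ideal.mem_sup_left h2,
          Ideal.mem_sup_right (Ideal.subset_span rfl)]) (a2 t ht)) (a4 t ht x h5).1]
    simp
  · intro x hx
    have h5 : dvc (mem μ t) Y (ak K x) ≠ 0 := fun h0 => hx (by simp [h0])
    obtain ⟨-, -, h6, h7⟩ := dvc_ne.1 h5
    exact Finset.mem_coe.2 (Finset.mem_filter.2
      ⟨(a3 t ht x).2 ⟨S2_ev h6 h1, S2_ev h6 h2, h7⟩, h6⟩)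

theorem S2_fin [IsAlgClosed K] {q : ℕ} (hq : 1 < q) :
    {t : Fin e → K | ∀ i, t i ^ q = t i}.Finite := by
  have h : {x : K | x ^ q = x}.Finite :=
    ((Polynomial.X ^ q - Polynomial.X : Polynomial K).roots.finite_toSet).subset fun x hx => by
      have h0 : (Polynomial.X ^ q - Polynomial.X : Polynomial K) ≠ 0 :=
        FiniteField.X_pow_card_sub_X_ne_zero K hq
      simpa [h0, sub_eq_zero] using hx
  exact (Set.Finite.pi' fun _ : Fin e => h).subset fun t ht => ht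

/-- The end of the argument. -/
theorem S2_end [IsAlgClosed K] {Z : Pr K (Fin 3)} (hZ : dim Z = 1) {F G : R3 K}
    (h0 : F * G ∉ Z.asIdeal) (hinf : Inf Z F G) {φ φb : (Fin 3 → K) → ℝ}
    (h : ∀ x y, Z ≤ ak K x → eval x (F * G) = 0 → Z ≤ ak K y → eval y (F * G) = 0 →
      φ x - φb x = φ y - φb y) :
    ∑ᶠ x, ((dvc F Z (ak K x) - dvc G Z (ak K x) : ℚ) : ℝ) * φ x =
      ∑ᶠ x, ((dvc F Z (ak K x) - dvc G Z (ak K x) : ℚ) : ℝ) * φb x := by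
  obtain ⟨h1, h2⟩ := DEG0 hZ h0 hinf
  have h3 : ∀ x, dvc F Z (ak K x) - dvc G Z (ak K x) ≠ 0 → x ∈ h1.toFinset := fun x hx => by
    rw [Set.Finite.mem_toFinset]
    by_cases h1 : dvc F Z (ak K x) = 0
    · have h2 : dvc G Z (ak K x) ≠ 0 := fun h2 => hx (by simp [h1, h2])
      obtain ⟨-, -, h3, h4⟩ := dvc_ne.1 h2
      exact ⟨h3, by rw [map_mul, show eval x G = 0 from h4, mul_zero]⟩
    · obtain ⟨-, -, h3, h4⟩ := dvc_ne.1 h1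
      exact ⟨h3, by rw [map_mul, show eval x F = 0 from h4, zero_mul]⟩
  have h4 : ∀ ψ : (Fin 3 → K) → ℝ,
      ∑ᶠ x, ((dvc F Z (ak K x) - dvc G Z (ak K x) : ℚ) : ℝ) * ψ x =
      ∑ x ∈ h1.toFinset, ((dvc F Z (ak K x) - dvc G Z (ak K x) : ℚ) : ℝ) * ψ x := fun ψ =>
    finsum_eq_sum_of_support_subset _ fun x hx => h3 x fun h0 => hx (by simp only [h0]; simp)
  rw [finsum_eq_sum_of_support_subset (s := h1.toFinset) _ fun x hx => h3 x hx] at h2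
  rw [h4, h4]
  rcases h1.toFinset.eq_empty_or_nonempty with h5 | ⟨y, hy⟩
  · rw [h5, Finset.sum_empty, Finset.sum_empty]
  have h6 := congrArg (fun r : ℚ => (r : ℝ) * (φ y - φb y)) h2
  simp only [Rat.cast_sum, Finset.sum_mul, Rat.cast_zero, zero_mul] at h6
  rw [← sub_eq_zero, ← Finset.sum_sub_distrib, ← h6]
  refine Finset.sum_congr rfl fun x hx => ?_
  rw [Set.Finite.mem_toFinset] at hx hy
  rw [← h x y hx.1 hx.2 hy.1 hy.2]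
  ring

open Classical in
/-- The core of the second step, for one `q`. -/
theorem S2_main (p f : ℕ) [Fact p.Prime] [IsAlgClosed K] [CharP K p] (hq : 1 < p ^ f)
    (halg : ∀ c : K, c ≠ 0 → ∃ n, 0 < n ∧ c ^ n = 1) (h : Srf H W) (hl : Ax H W lam) (he : 2 ≤ e)
    {Z : Pr K (Fin 3)} {F G g : R3 K} (hP : Pos H Z F G g) {μ : K}
    {P : Polynomial (Polynomial K)} (hh : Hat H g μ P) (r1 : Rat3 (p ^ f) H) (r2 : Rat3 (p ^ f) g)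
    (r3 : μ ^ p ^ f = μ) {Ex : Set (K × K)}
    (hEx : ∀ x, eval x H = 0 → eval x g = 0 → eval x (pderiv 2 H - C μ * pderiv 1 H) = 0 →
      pr μ x ∈ Ex) {φb : (Fin 3 → K) → ℝ} (hb : Phb (p ^ f) e H lam φb) :
    ∃ (φZ : (Fin 3 → K) → ℝ) (φ : K × K → ℝ) (κ : ℝ),
      lam Z F - lam Z G = ∑ᶠ x, (dvc F Z (ak K x) - dvc G Z (ak K x) : ℚ) * φZ x ∧
      (∀ x, Z ≤ ak K x → pr μ x ∈ Pts (p ^ f) P → φ (pr μ x) = φZ x - φb x) ∧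
      ∀ t ∈ Edg (p ^ f) e μ P (Pts (p ^ f) P \ Ex), Good H μ t →
        ∑ s ∈ (P.eval (al μ t)).roots.toFinset, φ (s, (al μ t).eval s) = κ := by
  obtain ⟨p1, p2, p3, hg, p5, p6, p7⟩ := hP
  set E : Set (Fin e → K) := {t | t ∈ Edg (p ^ f) e μ P (Pts (p ^ f) P \ Ex) ∧ Good H μ t}
  have hE : E.Finite := (S2_fin hq).subset fun t ht => ht.1.1
  have hZ : ∀ t : Fin e → K, ∃ Za, t ∈ E → IsM H μ t Za := fun t => by
    by_cases ht : t ∈ E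
    · obtain ⟨Za, h1⟩ := (memZ h ht.2).1
      exact ⟨Za, fun _ => h1⟩
    · exact ⟨Z, fun h1 => absurd h1 ht⟩
  choose Za hZa using hZ
  have hY : ∀ t : Fin e → K, ∃ Ys : Finset (Fin 3 → K), t ∈ E →
      (∀ x, x ∈ Ys ↔ eval x H = 0 ∧ eval x g = 0 ∧ eval x (mem μ t) = 0) ∧
      Ys.card = e * (H.totalDegree * g.totalDegree) ∧
      (∀ x ∈ Ys, (P.eval (al μ t)).derivative.eval (x 0) ≠ 0 ∧
        eval x (pderiv 2 H - C μ * pderiv 1 H) ≠ 0 ∧ eval x (pderiv 1 g * pderiv 2 H) ≠ 0 ∧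
        (x 0, x 2) ∈ Pts (p ^ f) (sb μ t H) ∧ pr μ x ∈ Pts (p ^ f) P) ∧
      ∀ φ : K × K → ℝ, ∑ s ∈ (P.eval (al μ t)).roots.toFinset, φ (s, (al μ t).eval s) =
        ∑ x ∈ Ys, φ (pr μ x) := fun t => by
    by_cases ht : t ∈ E
    · obtain ⟨Ys, h1⟩ := (EDGE p f hh ht.2 (hZa t ht) r1 r2 r3 hEx ht.1).2.2
      exact ⟨Ys, fun _ => h1⟩
    · exact ⟨∅, fun h1 => absurd h1 ht⟩
  choose Ys hYs using hY
  have e1 : ∀ t ∈ E, g ∉ (Za t).asIdeal := fun t ht =>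
    (EDGE p f hh ht.2 (hZa t ht) r1 r2 r3 hEx ht.1).1
  have e2 := fun t (ht : t ∈ E) => (EDGE p f hh ht.2 (hZa t ht) r1 r2 r3 hEx ht.1).2.1
  obtain ⟨-, d2, -, d4⟩ := dvg h hg
  obtain ⟨S, hS⟩ : ∃ S : Finset (Pr K (Fin 3)),
      ∀ Y, Y ∈ S ↔ H ∈ Y.asIdeal ∧ g ∈ Y.asIdeal ∧ dim Y = 1 :=
    ⟨d2.toFinset, fun Y => d2.mem_toFinset⟩
  have hC : ∀ Y : Pr K (Fin 3), ∃ (φ : (Fin 3 → K) → ℝ) (κ : ℝ), Y ∈ S →
      (∀ t ∈ E, lam Y (mem μ t) = ∑ x ∈ (Ys t).filter (fun x => Y ≤ ak K x), φ x + κ) ∧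
      (Y = Z → lam Y F - lam Y G =
        ∑ᶠ x, (dvc F Y (ak K x) - dvc G Y (ak K x) : ℚ) * φ x) := fun Y => by
    by_cases hY : Y ∈ S
    swap
    · exact ⟨0, 0, fun h1 => absurd h1 hY⟩
    obtain ⟨y1, y2, y3⟩ := (hS Y).1 hY
    have a1 : ∀ t ∈ E, mem μ t ∉ Y.asIdeal := fun t ht h1 =>
      e1 t ht (((memZ h ht.2).2.2 _ (hZa t ht)).2.2.1 Y y1 y3 h1 ▸ y2)
    have a := @S2_comp K _ e H W lam _ halg h hl he g hg Y y1 y2 y3 μ hh.mu E hE Ys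
      (fun t => P.eval (al μ t)) a1 e2 (fun t ht => (hYs t ht).1)
      (fun t ht x hx => ⟨((hYs t ht).2.2.1 x hx).1, ((hYs t ht).2.2.1 x hx).2.2.1⟩)
    by_cases hZ : Y = Z
    · subst hZ
      obtain ⟨φ, κ, h1, h2⟩ := a p5 p6 p7
      exact ⟨φ, κ, fun _ => ⟨h1, fun _ => h2⟩⟩
    · obtain ⟨φ, κ, h1, -⟩ := a (F := 1) (G := 1)
        (fun h1 => Y.isPrime.ne_top ((Ideal.eq_top_iff_one _).2 (by simpa using h1)))
        (fun _ _ _ => rfl) (fun x _ h1 => by simp at h1)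
      exact ⟨φ, κ, fun _ => ⟨h1, fun h2 => absurd h2 hZ⟩⟩
  choose φY κY hφ using hC
  have hZS : Z ∈ S := (hS Z).2 ⟨p1, p3, p2⟩
  have hc : ∀ x : Fin 3 → K, ∃ Y, eval x H = 0 → eval x g = 0 → Y ∈ S ∧ Y ≤ ak K x := fun x => by
    by_cases h1 : eval x H = 0 ∧ eval x g = 0
    · obtain ⟨Y, y1, y2, y3, y4⟩ := d4 x h1.1 h1.2
      exact ⟨Y, fun _ _ => ⟨(hS Y).2 ⟨y1, y2, y3⟩, y4⟩⟩
    · exact ⟨Z, fun a b => absurd ⟨a, b⟩ h1⟩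
  choose Yc hYc using hc
  have hu : ∀ x Y, Y ∈ S → Y ≤ ak K x → eval x (pderiv 1 g * pderiv 2 H) ≠ 0 → Yc x = Y :=
    fun x Y hY h1 h2 => by
      obtain ⟨y1, y2, y3⟩ := (hS Y).1 hY
      obtain ⟨h3, h4⟩ := hYc x (S2_ev h1 y1) (S2_ev h1 y2)
      obtain ⟨z1, z2, z3⟩ := (hS _).1 h3
      exact S2_uni hg.1 z1 z2 z3 y1 y2 y3 h4 h1 h2
  have hx : ∀ y : K × K, ∃ x : Fin 3 → K, ∀ x', eval x' H = 0 → eval x' g = 0 → pr μ x' = y →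
      y ∈ Pts (p ^ f) P → x = x' := fun y => by
    by_cases h1 : ∃ x', eval x' H = 0 ∧ eval x' g = 0 ∧ pr μ x' = y
    · obtain ⟨x, h1, h2, rfl⟩ := h1
      exact ⟨x, fun x' h3 h4 h5 h6 => (hh.uni x x' h1 h2 h3 h4 h5.symm h6.2.2.2).1⟩
    · exact ⟨0, fun x' h2 h3 h4 _ => absurd ⟨x', h2, h3, h4⟩ h1⟩
  choose xx hxx using hx
  have key : ∀ t ∈ E, ∑ s ∈ (P.eval (al μ t)).roots.toFinset,
      (fun y => φY (Yc (xx y)) (xx y) - φb (xx y)) (s, (al μ t).eval s) =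
      ∑ Y ∈ S, lam Y (mem μ t) - lam (Za t) g - ∑ Y ∈ S, κY Y := fun t ht => by
    obtain ⟨y1, y2, y3, y4⟩ := hYs t ht
    obtain ⟨-, -, m3, m4, m5, -⟩ := memP (hZa t ht)
    obtain ⟨φa, h1, h2⟩ := PHI halg h hl he hq ht.2 (hZa t ht) hg.1 hg.2.1 (e1 t ht) (Ys t)
      (fun x => by rw [y1, m3, m4]; tauto) y2 (u := P.eval (al μ t))
      (Ideal.span_le.2 (by
        rintro _ (rfl | rfl | rfl)
        exacts [Ideal.mem_sup_left ((m5 _).2 (Ideal.subset_span (by simp))),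
          Ideal.mem_sup_right (Ideal.subset_span rfl),
          Ideal.mem_sup_left ((m5 _).2 (Ideal.subset_span (by simp)))]) (e2 t ht))
      fun x hx => ⟨(y3 x hx).1, (y3 x hx).2.1⟩
    have h3 : ∀ x ∈ Ys t, ∑ Y ∈ S, (if Y ≤ ak K x then φY Y x else 0) = φY (Yc x) x :=
      fun x hx => by
        obtain ⟨h3, h4⟩ := hYc x ((y1 x).1 hx).1 ((y1 x).1 hx).2.1
        rw [Finset.sum_eq_single_of_mem _ h3 fun Y hY hne =>
          if_neg fun h5 => hne (hu x Y hY h5 (y3 x hx).2.2.1).symm, if_pos h4]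
    refine (y4 fun y => φY (Yc (xx y)) (xx y) - φb (xx y)).trans ?_
    rw [h2, Finset.sum_congr rfl fun Y hY => (hφ Y hY).1 t ht, Finset.sum_add_distrib]
    simp only [Finset.sum_filter]
    rw [Finset.sum_comm, Finset.sum_congr rfl h3, add_sub_right_comm, add_sub_cancel_right,
      ← Finset.sum_sub_distrib]
    refine Finset.sum_congr rfl fun x hx => ?_
    obtain ⟨x1, x2, x3⟩ := (y1 x).1 hx
    rw [hxx _ x x1 x2 rfl (y3 x hx).2.2.2.2, hb μ t r3 ht.1.1 ht.2 _ (hZa t ht) φa h1 _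
      (y3 x hx).2.2.2.1, ← (m4 x).1 x3]
  have hκ : ∃ κ : ℝ, ∀ t ∈ E, ∑ Y ∈ S, lam Y (mem μ t) - lam (Za t) g = κ := by
    rcases E.eq_empty_or_nonempty with h0 | ⟨t₀, h0⟩
    · exact ⟨0, fun t ht => absurd (h0 ▸ ht) (Set.notMem_empty t)⟩
    refine ⟨∑ Y ∈ S, lam Y (mem μ t₀) - lam (Za t₀) g, fun t ht => ?_⟩
    have h1 := TAME5 h hl he hg S hS ht.2 h0.2 (hZa t ht) (hZa t₀ h0) (e1 t ht) (e1 t₀ h0)
    rw [Finset.sum_sub_distrib] at h1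
    linarith
  obtain ⟨κ, hκ⟩ := hκ
  refine ⟨φY Z, fun y => φY (Yc (xx y)) (xx y) - φb (xx y), κ - ∑ Y ∈ S, κY Y,
    (hφ Z hZS).2 rfl, fun x h1 h2 => ?_, fun t h1 h2 => ?_⟩
  · have h3 := S2_ev h1 p1
    have h4 := S2_ev h1 p3
    simp only [hxx _ x h3 h4 rfl h2, hu x Z hZS h1 (hh.uni x x h3 h4 h3 h4 rfl h2.2.2.2).2]
  · exact (key t ⟨h1, h2⟩).trans (by rw [hκ t ⟨h1, h2⟩])

theorem S2_pow {p n f : ℕ} {c : K} (h : c ^ p ^ n = c) (hf : n ∣ f) : c ^ p ^ f = c := by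
  obtain ⟨k, rfl⟩ := hf
  induction k with
  | zero => simp
  | succ k ih => rw [Nat.mul_succ, pow_add, pow_mul, ih, h]

theorem S2_tower {p : ℕ} (halg : ∀ c : K, ∃ n, 0 < n ∧ c ^ p ^ n = c) (s : Finset K) :
    ∃ n, 0 < n ∧ ∀ f, n ∣ f → ∀ c ∈ s, c ^ p ^ f = c := by
  choose n h1 h2 using halg
  exact ⟨∏ c ∈ s, n c, Finset.prod_pos fun c _ => h1 c, fun f hf c hc =>
    S2_pow (h2 c) ((Finset.dvd_prod_of_mem n hc).trans hf)⟩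

theorem S2_root {p : ℕ} (hp : p.Prime) (halg : ∀ c : K, ∃ n, 0 < n ∧ c ^ p ^ n = c) (c : K)
    (hc : c ≠ 0) : ∃ n, 0 < n ∧ c ^ n = 1 := by
  obtain ⟨n, h1, h2⟩ := halg c
  have h3 : 1 < p ^ n := Nat.one_lt_pow h1.ne' hp.one_lt
  refine ⟨p ^ n - 1, by omega, mul_right_cancel₀ hc ?_⟩
  rw [← pow_succ, one_mul, show p ^ n - 1 + 1 = p ^ n by omega, h2]

theorem S2_rat {p : ℕ} (hp : p.Prime) (halg : ∀ c : K, ∃ n, 0 < n ∧ c ^ p ^ n = c) (F : R3 K) :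
    ∃ n, 0 < n ∧ ∀ f, n ∣ f → Rat3 (p ^ f) F := by
  classical
  obtain ⟨n, h1, h2⟩ := S2_tower halg (F.support.image fun d => coeff d F)
  refine ⟨n, h1, fun f hf d => ?_⟩
  by_cases hd : d ∈ F.support
  · exact h2 f hf _ (Finset.mem_image_of_mem _ hd)
  · rw [notMem_support_iff.1 hd, zero_pow (pow_ne_zero _ hp.ne_zero)]

theorem STEP2 (p D : ℕ) [Fact p.Prime] [IsAlgClosed K] [CharP K p]
    (halg : ∀ c : K, ∃ n, 0 < n ∧ c ^ p ^ n = c) (h : Srf H W) (hl : Ax H W lam)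
    (he : 6 ≤ e) (hCT : CTs p D e K) {Z : Pr K (Fin 3)} {F G g : R3 K} (hP : Pos H Z F G g)
    (hD : H.totalDegree * g.totalDegree ≤ D) :
    ∃ q₀ n₀ : ℕ, 0 < n₀ ∧ ∀ f : ℕ, q₀ ≤ p ^ f → n₀ ∣ f → ∀ φb, Phb (p ^ f) e H lam φb →
      lam Z F - lam Z G =
        ∑ᶠ x, (dvc F Z (ak K x) - dvc G Z (ak K x) : ℚ) * φb x := by
  classical
  have hp : p.Prime := Fact.out
  have he2 : 2 ≤ e := by omega
  obtain ⟨p1, p2, p3, hg, p5, p6, p7⟩ := id hP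
  obtain ⟨Zs, hZs⟩ : ∃ Zs : Finset (Fin 3 → K), ∀ x, x ∈ Zs ↔ Z ≤ ak K x ∧ eval x (F * G) = 0 :=
    ⟨(DEG0 p2 p5 p6).1.toFinset, fun x => Set.Finite.mem_toFinset _⟩
  have z1 : ∀ x ∈ Zs, eval x H = 0 ∧ eval x g = 0 ∧ eval x (pderiv 1 g * pderiv 2 H) ≠ 0 :=
    fun x hx => let ⟨h1, h2⟩ := (hZs x).1 hx; ⟨S2_ev h1 p1, S2_ev h1 p3, p7 x h1 h2⟩
  obtain ⟨B₁, hB₁⟩ := HAT h hg Zs z1
  have z2 : ∀ x : Fin 3 → K, ∃ Bad : Finset K, x ∈ Zs →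
      ∀ μ ∉ Bad, ∃ t : Fin e → K, Good H μ t ∧ eval x (mem μ t) = 0 := fun x => by
    by_cases hx : x ∈ Zs
    · obtain ⟨B, hB⟩ := EXG h he2 (z1 x hx).1 fun h0 => (z1 x hx).2.2 (by rw [map_mul, h0, mul_zero])
      exact ⟨B, fun _ => hB⟩
    · exact ⟨∅, fun h1 => absurd h1 hx⟩
  choose B₂ hB₂ using z2
  obtain ⟨μ, hμ⟩ := Infinite.exists_notMem_finset (B₁ ∪ Zs.biUnion B₂)
  rw [Finset.mem_union, not_or, Finset.mem_biUnion] at hμ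
  obtain ⟨m0, m1, m2, n, P, c1, c2, c3, c4, c5, c6, c7, c8⟩ := hB₁ μ hμ.1
  have hh : Hat H g μ (∏ i, P i) :=
    ⟨m0, by rw [Polynomial.natDegree_prod_of_monic _ _ fun i _ => c2 i, c4], c5, c6, c7⟩
  obtain ⟨N, hN⟩ := GOODN (e := e) h he2
  have hN' := hN K
  simp only [Algebra.algebraMap_self, map_id] at hN'
  have z3 : ∀ x : Fin 3 → K, ∃ (ν : MvPolynomial (Option (Fin e)) K) (t : Fin e → K), x ∈ Zs →
      ν ∈ N ∧ aeval (fun o : Option (Fin e) => o.elim μ t) ν ≠ 0 ∧ eval x (mem μ t) = 0 :=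
    fun x => by
      by_cases hx : x ∈ Zs
      · obtain ⟨t, h1, h2⟩ := hB₂ x hx μ fun h1 => hμ.2 ⟨x, hx, h1⟩
        obtain ⟨ν, h3, h4⟩ := (hN' μ t).1 h1
        exact ⟨ν, t, fun _ => ⟨h3, h4, h2⟩⟩
      · exact ⟨0, 0, fun h1 => absurd h1 hx⟩
  choose ν t₀ hν using z3
  set Ex := m1.toFinset.image (pr μ) with hEx
  obtain ⟨q₀, hq₀⟩ := CONST p D e (Ex.card + ∑ x ∈ Zs, (ν x).totalDegree) he K hCT
  obtain ⟨n₁, k1, l1⟩ := FAMP hp halg he2 m0 c1 c2 c3 (c4.le.trans hD)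
  obtain ⟨n₂, k2, l2⟩ := S2_rat hp halg H
  obtain ⟨n₃, k3, l3⟩ := S2_rat hp halg g
  obtain ⟨n₄, k4, l4⟩ := S2_tower halg (Zs.biUnion fun x => {(pr μ x).1, (pr μ x).2})
  refine ⟨q₀ + 2, n₁ * n₂ * n₃ * n₄, by positivity, fun f hq hf φb hb => ?_⟩
  have hf0 : 0 < f := Nat.pos_of_ne_zero (by rintro rfl; simp at hq)
  have f1 := l1 f (((Dvd.intro _ rfl).mul_right _).mul_right _ |>.trans hf)
  have f2 := l2 f (((Dvd.intro_left _ rfl).mul_right _).mul_right _ |>.trans hf)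
  have f3 := l3 f ((Dvd.intro_left _ rfl).mul_right _ |>.trans hf)
  have f4 := l4 f ((Dvd.intro_left _ rfl).trans hf)
  obtain ⟨φZ, φ, κ, g1, g2, g3⟩ := S2_main p f (by omega) (S2_root hp halg) h hl he2 hP hh f2 f3
    f1.rho (Ex := Ex) (fun x h1 h2 h3 => Finset.mem_coe.2
      (Finset.mem_image_of_mem _ (m1.mem_toFinset.2 ⟨h1, h2, h3⟩))) hb
  rw [g1]
  refine S2_end p2 p5 p6 fun x y x1 x2 y1 y2 => ?_
  have hx := (hZs x).2 ⟨x1, x2⟩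
  have hy := (hZs y).2 ⟨y1, y2⟩
  obtain ⟨d1, d2, -, d4, -⟩ := DN (e := e) μ
  have z4 : ∀ x ∈ Zs, pr μ x ∈ Pts (p ^ f) (∏ i, P i) \ Ex := fun x hx => by
    obtain ⟨h1, h2, -⟩ := z1 x hx
    refine ⟨⟨f4 _ (Finset.mem_biUnion.2 ⟨x, hx, by simp⟩),
      f4 _ (Finset.mem_biUnion.2 ⟨x, hx, by simp⟩), ?_, c8 x hx⟩, fun h3 => ?_⟩
    · rw [← d1]
      exact (Ideal.span_le.2 (by rintro _ (rfl | rfl); exacts [h1, h2]) :
        Ideal.span {H, g} ≤ (ak K x).asIdeal) c5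
    · obtain ⟨x', h4, h5⟩ := Finset.mem_image.1 (Finset.mem_coe.1 h3)
      obtain ⟨h6, h7, h8⟩ := m1.mem_toFinset.1 h4
      exact m2 x hx ((c7 x x' h1 h2 h6 h7 h5.symm (c8 x hx)).1 ▸ h8)
  obtain ⟨B, hB⟩ : ∃ B : Finset (Fin e → K), ∀ t, t ∈ B ↔ (∀ i, t i ^ p ^ f = t i) ∧ ¬ Good H μ t :=
    ⟨((S2_fin (K := K) (e := e) (q := p ^ f) (by omega)).subset
      (t := {t | (∀ i, t i ^ p ^ f = t i) ∧ ¬ Good H μ t}) fun t ht => ht.1).toFinset,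
      fun t => Set.Finite.mem_toFinset _⟩
  have z5 : ∀ x ∈ Zs, B.card ≤ (Ex.card + ∑ x ∈ Zs, (ν x).totalDegree) * (p ^ f) ^ (e - 1) ∧
      (B.filter fun t => (al μ t).eval (pr μ x).1 = (pr μ x).2).card ≤
        (Ex.card + ∑ x ∈ Zs, (ν x).totalDegree) * (p ^ f) ^ (e - 2) := fun x hx => by
    obtain ⟨h1, h2, h3⟩ := hν x hx
    have h4 : (ν x).totalDegree ≤ Ex.card + ∑ x ∈ Zs, (ν x).totalDegree :=
      (Finset.single_le_sum (f := fun x => (ν x).totalDegree) (fun _ _ => Nat.zero_le _) hx).trans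
        (Nat.le_add_left _ _)
    obtain ⟨h5, h6⟩ := SZB p f hf0 he2 (ν x) μ (pr μ x) (t₀ x) h2
      (by rw [(d4 _ x).1 h3]) B fun t ht => ⟨((hB t).1 ht).1, by
        by_contra h5
        exact ((hB t).1 ht).2 ((hN' μ t).2 ⟨_, h1, h5⟩)⟩
    exact ⟨h5.trans (Nat.mul_le_mul_right _ h4), by
      convert h6.trans (Nat.mul_le_mul_right _ h4)⟩
  have z6 : ∃ i, dn μ (P i) ∈ Z.asIdeal := by
    have h1 : ∏ i, dn μ (P i) ∈ Z.asIdeal := d2 n P ▸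
      (Ideal.span_le.2 (by rintro _ (rfl | rfl); exacts [p1, p3]) : _ ≤ Z.asIdeal) c5
    have := Z.isPrime
    obtain ⟨i, -, h2⟩ := Ideal.IsPrime.prod_mem_iff.1 h1
    exact ⟨i, h2⟩
  obtain ⟨i, hi⟩ := z6
  rw [← g2 x x1 (z4 x hx).1, ← g2 y y1 (z4 y hy).1]
  refine hq₀ f (by omega) (Fin n) P μ f1 Ex B (Nat.le_add_right _ _) (z5 x hx).1 φ κ
    (fun t h1 h2 => ?_) _ (z4 x hx) _ (z4 y hy) (by convert (z5 x hx).2) (by convert (z5 y hy).2) i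
    (d1 x _ ▸ S2_ev x1 hi) (d1 y _ ▸ S2_ev y1 hi)
  convert g3 t h1 (by
    by_contra h3
    exact h2 ((hB t).2 ⟨h1.1, h3⟩))

end Pool.Agent.MP_a9d3bd_g
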