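import Pool.Agent.MP_a9d3bd_g.CMemZ
import Pool.Agent.MP_a9d3bd_g.CFamM
import Pool.Agent.MP_a9d3bd_g.CDvg

namespace Pool.Agent.MP_a9d3bd_g

open MvPolynomial Pool.Agent.MP_a9d3bd_h Pool.Agent.MP_a9d3bd_q

variable {K : Type} [Field K] {e : ℕ} {H : R3 K} {W : Pr K (Fin 3)}
  {lam : Pr K (Fin 3) → R3 K → ℝ}

theorem TAME5_sum {Z W : Pr K (Fin 3)} {G : R3 K} (h1 : dvc G W Z = 1)
    (h0 : ∀ Y, dvc G W Y ≠ 0 → Y = Z) (l : Pr K (Fin 3) → ℝ) (S : Finset (Pr K (Fin 3)))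
    (hZ : Z ∈ S) : ∑ Y ∈ S, (dvc G W Y : ℝ) * l Y = l Z := by
  rw [Finset.sum_eq_single_of_mem Z hZ, h1]
  · simp
  · intro Y _ hY
    rw [of_not_not fun h => hY (h0 Y h)]
    simp

theorem TAME5 [IsAlgClosed K] (h : Srf H W) (hl : Ax H W lam) (he : 2 ≤ e) {g : R3 K}
    (hg : Gp H g) (S : Finset (Pr K (Fin 3)))
    (hS : ∀ Y, Y ∈ S ↔ H ∈ Y.asIdeal ∧ g ∈ Y.asIdeal ∧ dim Y = 1) {μ μ' : K} {t t' : Fin e → K}
    (g1 : Good H μ t) (g2 : Good H μ' t') {Z Z' : Pr K (Fin 3)} (z1 : IsM H μ t Z)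
    (z2 : IsM H μ' t' Z') (n1 : g ∉ Z.asIdeal) (n2 : g ∉ Z'.asIdeal) :
    ∑ Y ∈ S, (lam Y (mem μ t) - lam Y (mem μ' t')) = lam Z g - lam Z' g := by
  classical
  obtain ⟨c1, -, u1, d1⟩ := (memZ h g1).2.2 Z z1
  obtain ⟨c2, -, u2, d2⟩ := (memZ h g2).2.2 Z' z2
  obtain ⟨gW, -, dg, -⟩ := dvg h hg
  have hW : ptd W = 2 := by
    have h1 := (dvc_ne.1 (d1 ▸ one_ne_zero : dvc (mem μ t) W Z ≠ 0)).2.1
    have h2 : ptd Z = 1 := c1.2.1
    omega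
  have key : ∀ (F : R3 K) (Y : Pr K (Fin 3)), dvc F W Y ≠ 0 →
      H ∈ Y.asIdeal ∧ F ∈ Y.asIdeal ∧ dim Y = 1 := fun F Y hY => by
    obtain ⟨-, a, b, c⟩ := dvc_ne.1 hY
    refine ⟨b (show H ∈ W.asIdeal from h.eq ▸ Ideal.mem_span_singleton_self H), c, ?_⟩
    rw [dim_eq]
    omega
  have v1 : ∀ Y, dvc (mem μ t) W Y ≠ 0 → Y = Z := fun Y hY =>
    u1 Y (key _ Y hY).1 (key _ Y hY).2.2 (key _ Y hY).2.1
  have v2 : ∀ Y, dvc (mem μ' t') W Y ≠ 0 → Y = Z' := fun Y hY =>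
    u2 Y (key _ Y hY).1 (key _ Y hY).2.2 (key _ Y hY).2.1
  have T := hl.tame e g (mem μ t) (mem μ' t') ((famM h he).2.1 g1.1) ((famM h he).2.1 g2.1) gW
    (fun Y a b c => by
      have w : g ∈ Y.asIdeal → mem μ t * mem μ' t' ∉ Y.asIdeal := fun p q =>
        (Y.isPrime.mem_or_mem q).elim (fun r => n1 (u1 Y a b r ▸ p)) fun r => n2 (u2 Y a b r ▸ p)
      refine ⟨?_, w⟩
      rcases Y.isPrime.mem_or_mem c with c | c
      · rcases Y.isPrime.mem_or_mem c with c | c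
        · exact ⟨a, b, 2, fun q => hg.2.2 Y a c b (Y.asIdeal.mul_mem_left _ q)⟩
        · exact u1 Y a b c ▸ c1
      · exact u2 Y a b c ▸ c2)
  rw [finsum_eq_sum_of_support_subset (s := S), finsum_eq_sum_of_support_subset (s := {Z, Z'})] at T
  · simp only [Rat.cast_sub, sub_mul, Finset.sum_sub_distrib] at T
    rw [TAME5_sum d1 v1 _ _ (by simp), TAME5_sum d2 v2 _ _ (by simp)] at T
    rw [← T]
    refine Finset.sum_congr rfl fun Y hY => ?_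
    obtain ⟨a, b, c⟩ := (hS Y).1 hY
    rw [dg Y a b c]
    simp
  · intro Y hY
    by_contra hn
    simp only [Finset.coe_insert, Finset.coe_singleton, Set.mem_insert_iff, Set.mem_singleton_iff,
      not_or] at hn
    refine hY ?_
    simp [of_not_not fun h => hn.1 (v1 Y h), of_not_not fun h => hn.2 (v2 Y h)]
  · intro Y hY
    refine (hS Y).2 (key g Y fun h0 => hY ?_)
    simp [h0]

end Pool.Agent.MP_a9d3bd_g
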