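import Pool.Agent.MP_a9d3bd_g.ADefs

namespace Pool.Agent.MP_a9d3bd_g

open Polynomial

/-- The generic polynomial with prescribed values on `J`. -/
noncomputable def gen {K : Type} [Field K] (M : ℕ) (J : Finset K) (a₀ : K[X]) :
    (MvPolynomial (Fin M) K)[X] :=
  a₀.map MvPolynomial.C + (∏ r ∈ J, (X - C (MvPolynomial.C r))) *
    ∑ k : Fin M, C (MvPolynomial.X k) * X ^ (k : ℕ)

open Classical in
/-- The hypotheses of `GAL`. -/
structure Gd {K : Type} [Field K] {M : ℕ} {ι : Type} [Fintype ι] (H : ι → K[X][X]) (J : Finset K)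
    (a₀ : K[X]) (h : ι → (MvPolynomial (Fin M) K)[X]) (c : ι → K) : Prop where
  hM : 4 ≤ M
  hH : Crv H
  hJ : ∀ r ∈ J, (∏ i, H i).evalEval r (a₀.eval r) = 0 →
    (derivative (∏ i, H i)).evalEval r (a₀.eval r) ≠ 0
  hm : ∀ i, (h i).Monic
  hc : ∀ i, c i ≠ 0
  hh : ∀ i, ((H i).map (mapRingHom (MvPolynomial.C : K →+* MvPolynomial (Fin M) K))).eval
      (gen M J a₀) =
    C (MvPolynomial.C (c i)) * (∏ r ∈ J.filter (fun r => (H i).evalEval r (a₀.eval r) = 0),
      (X - C (MvPolynomial.C r))) * h i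

end Pool.Agent.MP_a9d3bd_g
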