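import Pool.Agent.MP_a9d3bd_g.GxSt

namespace Pool.Agent.MP_a9d3bd_g.Gx

open Polynomial

section

lemma ev_GKER {k W : Type} [CommRing k] [CommRing W] (φ : k →+* W) (P : k[X][X]) (x y : W) :
    ev φ P x y = P.eval₂ (eval₂RingHom φ x) y := by
  unfold ev evalEval
  induction P using Polynomial.induction_on' with
  | add p q hp hq => simp only [Polynomial.map_add, eval_add, eval₂_add, hp, hq]
  | monomial n a => simp [eval_map]

theorem gKER : KER_st := by
  intro k W _ _ φ P Q x y hP hu ht h1 h2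
  rw [ev_GKER] at h1 h2
  let : Algebra k[X] W := (eval₂RingHom φ x).toAlgebra
  have inj : Function.Injective (algebraMap k[X] W) := (injective_iff_map_eq_zero _).2 ht
  have : FaithfulSMul k[X] W := (faithfulSMul_iff_algebraMap_injective _ _).2 inj
  have a1 : aeval y P = 0 := h1
  have a2 : aeval y Q = 0 := h2
  obtain ⟨u, hu⟩ := hu
  have hi : IsIntegral k[X] y := by
    have := (isIntegral_leadingCoeff_smul P y a1).smul ((u⁻¹ : (k[X])ˣ) : k[X])
    rwa [smul_smul, ← hu, Units.inv_mul, one_smul] at this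
  obtain ⟨c, hc⟩ := minpoly.isIntegrallyClosed_dvd hi a1
  have hc' : IsUnit c := (hP.isUnit_or_isUnit hc).resolve_left (minpoly.not_isUnit _ _)
  rw [hc, hc'.mul_right_dvd]
  exact minpoly.isIntegrallyClosed_dvd hi a2

end

section

theorem alg_GTRD {F W : Type} [Field F] [Field W] [Algebra F W] (q : W[X]) (hq : q ≠ 0)
    (hc : ∀ n, q.coeff n ∈ algebraicClosure F W) (x : W) (hx : q.eval x = 0) :
    x ∈ algebraicClosure F W := by
  have hl : q ∈ lifts (algebraMap (algebraicClosure F W) W) := by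
    rw [lifts_iff_coeff_lifts]
    intro n
    exact ⟨⟨q.coeff n, hc n⟩, rfl⟩
  obtain ⟨q', hq'⟩ := (mem_lifts _).1 hl
  have h0 : q' ≠ 0 := by
    rintro rfl
    exact hq (by rw [← hq', Polynomial.map_zero])
  have ha : IsAlgebraic (algebraicClosure F W) x :=
    ⟨q', h0, by rw [aeval_def, eval₂_eq_eval_map, hq', hx]⟩
  exact mem_algebraicClosure_iff.2 (ha.restrictScalars F)

theorem gTRD : TRD_st := by
  intro K W _ _ _ M t s ht hs
  refine ⟨(algebraicClosure (IntermediateField.adjoin K (s : Set W)) W).toSubfield,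
    fun c => ?_, fun x hx => ?_, fun q hq hc x hx => alg_GTRD q hq hc x hx, ?_⟩
  · exact mem_algebraicClosure_iff.2 (isAlgebraic_algebraMap
      (⟨algebraMap K W c, IntermediateField.algebraMap_mem _ c⟩ :
        IntermediateField.adjoin K (s : Set W)))
  · exact mem_algebraicClosure_iff.2 (isAlgebraic_algebraMap
      (⟨x, IntermediateField.subset_adjoin K (s : Set W) hx⟩ :
        IntermediateField.adjoin K (s : Set W)))
  · by_contra hne
    have hall : ∀ k, IsAlgebraic (Algebra.adjoin K (s : Set W)) (t k) := by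
      intro k
      have h1 : t k ∈ algebraicClosure (IntermediateField.adjoin K (s : Set W)) W := by
        by_contra h2
        exact hne ⟨k, h2⟩
      exact IntermediateField.isAlgebraic_adjoin_iff.1 (mem_algebraicClosure_iff.1 h1)
    have hI : (AlgebraicIndependent.matroid K W).Indep (Set.range t) :=
      AlgebraicIndependent.matroid_indep_iff.2 ht.to_subtype_range
    have hsub : Set.range t ⊆ (AlgebraicIndependent.matroid K W).closure (s : Set W) := by
      rintro _ ⟨k, rfl⟩
      rw [AlgebraicIndependent.matroid_closure_eq]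
      exact hall k
    have h3 := hI.encard_le_eRk_of_subset hsub
    rw [Matroid.eRk_closure_eq] at h3
    have h4 := ht.injective.encard_range.trans (h3.trans (Matroid.eRk_le_encard _ _))
    rw [Set.encard_coe_eq_coe_finsetCard] at h4
    simp at h4
    omega

end

section

theorem one_GLIN {W : Type} [Field W] {M : ℕ} (E : Subfield W) (f : Fin M → W) (k : Fin M)
    (h : ∑ i, f i ∈ E) (h' : ∀ i, i ≠ k → f i ∈ E) : f k ∈ E := by
  have e : f k = ∑ i, f i - ∑ i ∈ Finset.univ.erase k, f i := by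
    rw [← Finset.add_sum_erase _ f (Finset.mem_univ k)]
    ring
  rw [e]
  exact E.sub_mem h (sum_mem fun i hi => h' i (Finset.ne_of_mem_erase hi))

theorem mev_GLIN {K W : Type} [Field K] [Field W] [Algebra K W] (E : Subfield W)
    (hE : ∀ c, algebraMap K W c ∈ E) (p : K[X]) {x : W} (hx : x ∈ E) :
    (p.map (algebraMap K W)).eval x ∈ E := by
  rw [eval_eq_sum_range]
  refine sum_mem fun i _ => E.mul_mem ?_ (E.pow_mem hx i)
  rw [coeff_map]
  exact hE _

theorem can_GLIN {W : Type} [Field W] (E : Subfield W) {u v : W} (hu : u ∈ E) (h0 : u ≠ 0)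
    (h : u * v ∈ E) : v ∈ E := by
  have e : v = u⁻¹ * (u * v) := by rw [inv_mul_cancel_left₀ h0]
  rw [e]
  exact E.mul_mem (E.inv_mem hu) h

theorem gev_GLIN {W : Type} [Field W] {M : ℕ} (t : Fin M → W) (x : W) :
    (gam t).eval x = ∑ k : Fin M, t k * x ^ (k : ℕ) := by
  simp [gam, eval_finsetSum]

theorem gdev_GLIN {W : Type} [Field W] {M : ℕ} (t : Fin M → W) (x : W) :
    (derivative (gam t)).eval x = ∑ k : Fin M, t k * (((k : ℕ) : W) * x ^ ((k : ℕ) - 1)) := by
  simp [gam, eval_finsetSum, derivative_X_pow]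

theorem gmem_GLIN {K W : Type} [Field K] [Field W] [Algebra K W] {M : ℕ} (t : Fin M → W)
    (a w : K[X]) (E : Subfield W) (hE : ∀ c, algebraMap K W c ∈ E) {x : W} (hx : x ∈ E)
    (hw : aeval x w ≠ 0) (h : (alp a w t).eval x ∈ E) : (gam t).eval x ∈ E := by
  refine can_GLIN E (mev_GLIN E hE w hx) (by rwa [eval_map_algebraMap]) ?_
  have h1 := E.sub_mem h (mev_GLIN E hE a hx)
  rwa [alp, eval_add, eval_mul, add_sub_cancel_left] at h1

theorem p1_GLIN {K W : Type} [Field K] [Field W] [Algebra K W] {M : ℕ} (t : Fin M → W)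
    (a w : K[X]) (E : Subfield W) (hE : ∀ c, algebraMap K W c ∈ E) {x : W} (hx : x ∈ E)
    (hw : aeval x w ≠ 0) (h : (alp a w t).eval x ∈ E) (ht : ∀ k : Fin M, 1 ≤ k.1 → t k ∈ E)
    (k : Fin M) : t k ∈ E := by
  rcases Nat.eq_zero_or_pos k.1 with h0 | h0
  · have h1 := gmem_GLIN t a w E hE hx hw h
    rw [gev_GLIN] at h1
    have h2 := one_GLIN E _ k h1 fun i hi => E.mul_mem
      (ht i (Nat.one_le_iff_ne_zero.2 fun h3 => hi (Fin.ext (h3.trans h0.symm)))) (E.pow_mem hx _)
    simpa [h0] using h2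
  · exact ht k h0

theorem two_GLIN {W : Type} [Field W] {M : ℕ} (E : Subfield W) (t c : Fin M → W)
    (h : ∑ i, t i * c i ∈ E) (hc : ∀ i, c i ∈ E) (h0 : ∀ i : Fin M, i.1 = 0 → c i = 0)
    (h1 : ∀ i : Fin M, i.1 = 1 → c i ≠ 0) (ht : ∀ k : Fin M, 2 ≤ k.1 → t k ∈ E) (k : Fin M)
    (hk : 1 ≤ k.1) : t k ∈ E := by
  rcases hk.eq_or_lt with h2 | h2
  · refine can_GLIN E (hc k) (h1 k h2.symm) ?_
    rw [mul_comm]
    refine one_GLIN E (fun i => t i * c i) k h fun i hi => ?_
    rcases Nat.eq_zero_or_pos i.1 with h3 | h3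
    · simp only [h0 i h3, mul_zero]
      exact E.zero_mem
    · have h4 : i.1 ≠ k.1 := fun h4 => hi (Fin.ext h4)
      exact E.mul_mem (ht i (by omega)) (hc i)
  · exact ht k h2

theorem gLIN : LIN_st := by
  intro K W _ _ _ M t a w E hE
  refine ⟨fun x hx hw h ht => p1_GLIN t a w E hE hx hw h ht, fun x hx hw h hd ht => ?_,
    fun x hx y hy hxy hw hw' h h' ht => ?_, fun P hP hq x hx y hy => ?_⟩
  · refine p1_GLIN t a w E hE hx hw h ?_
    have h1 := gmem_GLIN t a w E hE hx hw h
    have h2 : (derivative (gam t)).eval x ∈ E := by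
      refine can_GLIN E (mev_GLIN E hE w hx) (by rwa [eval_map_algebraMap]) ?_
      have h3 := E.sub_mem (E.sub_mem hd (mev_GLIN E hE (derivative a) hx))
        (E.mul_mem (mev_GLIN E hE (derivative w) hx) h1)
      rw [alp, derivative_add, derivative_mul, derivative_map, derivative_map, eval_add, eval_add,
        eval_mul, eval_mul, add_sub_cancel_left, add_sub_cancel_left] at h3
      exact h3
    rw [gdev_GLIN] at h2
    refine two_GLIN E t _ h2 (fun i => E.mul_mem (natCast_mem E _) (E.pow_mem hx _))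
      (fun i hi => ?_) (fun i hi => ?_) ht
    · simp [hi]
    · simp [hi]
  · refine p1_GLIN t a w E hE hx hw h ?_
    have h1 := E.sub_mem (gmem_GLIN t a w E hE hx hw h) (gmem_GLIN t a w E hE hy hw' h')
    rw [gev_GLIN, gev_GLIN, ← Finset.sum_sub_distrib] at h1
    simp only [← mul_sub] at h1
    refine two_GLIN E t _ h1 (fun i => E.sub_mem (E.pow_mem hx _) (E.pow_mem hy _))
      (fun i hi => ?_) (fun i hi => ?_) ht
    · simp [hi]
    · simpa [hi, sub_eq_zero] using hxy
  · refine hq ((P.map (mapRingHom (algebraMap K W))).map (evalRingHom x)) ?_ (fun n => ?_) y ?_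
    · intro h0
      have h1 := congrArg (fun q => q.coeff P.natDegree) h0
      simp only [coeff_map, coeff_zero, coeff_natDegree] at h1
      exact ((hP.map (mapRingHom (algebraMap K W))).map (evalRingHom x)).ne_zero h1
    · rw [coeff_map, coeff_map, coe_evalRingHom, coe_mapRingHom]
      exact mev_GLIN E hE _ hx
    · rw [eval_map, eval₂_evalRingHom]
      exact hy

end

section

theorem der_GSEPG {W : Type} [Field W] (Q : W[X][X]) (α : W[X]) (z : W)
    (h : (X - C z) ^ 2 ∣ Q.eval α) :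
    (derivative (Q.eval (C (α.eval z)))).eval z +
      (derivative Q).evalEval z (α.eval z) * (derivative α).eval z = 0 := by
  obtain ⟨k, hk⟩ := binomExpansion Q (C (α.eval z)) (α - C (α.eval z))
  obtain ⟨β, hβ⟩ : X - C z ∣ α - C (α.eval z) := X_sub_C_dvd_sub_C_eval
  obtain ⟨g, hg⟩ := h
  rw [add_sub_cancel, hg, hβ] at hk
  have h1 := congrArg (fun p => (derivative p).eval z) hk
  have h2 := congrArg (fun p => (derivative p).eval z) hβ
  simp only [derivative_mul, derivative_add, derivative_sub, derivative_pow, derivative_X,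
    derivative_C, eval_add, eval_mul, eval_sub, eval_pow, eval_X, eval_C, sub_self, eval_one,
    sub_zero] at h1 h2
  rw [h2, evalEval]
  simp at h1
  linear_combination -h1

theorem mem_GSEPG {K W : Type} [Field K] [Field W] (φ : K →+* W) (E : Subfield W)
    (hE : ∀ c, φ c ∈ E) (P : K[X][X]) (x y : W) (hx : x ∈ E) (hy : y ∈ E) :
    (derivative ((P.map (mapRingHom φ)).eval (C y))).eval x ∈ E ∧
      (P.map (mapRingHom φ)).evalEval x y ∈ E := by
  have e : φ = E.subtype.comp (φ.codRestrict E hE) := by ext c; rfl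
  have e1 : (P.map (mapRingHom φ)).eval (C y) =
      ((P.map (mapRingHom (φ.codRestrict E hE))).eval (C (⟨y, hy⟩ : E))).map E.subtype := by
    rw [← coe_mapRingHom E.subtype, ← eval_map_apply, map_map, mapRingHom_comp, ← e]
    simp
  have e2 : ∀ p : E[X], (p.map E.subtype).eval x ∈ E := fun p => by
    have := eval_map_apply (p := p) E.subtype (⟨x, hx⟩ : E)
    rw [show x = E.subtype ⟨x, hx⟩ from rfl, this]
    exact (p.eval _).2
  refine ⟨?_, ?_⟩
  · rw [e1, derivative_map]
    exact e2 _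
  · rw [evalEval, e1]
    exact e2 _

theorem card_GSEPG {M : ℕ} (n : ℕ) (hn : n ≤ M) :
    (Finset.univ.filter fun k : Fin M => n ≤ k.1).card + n ≤ M := by
  have h : (Finset.univ.filter fun k : Fin M => n ≤ k.1).card ≤ (Finset.Ico n M).card := by
    refine Finset.card_le_card_of_injOn (fun k => k.1) ?_ ?_
    · intro k hk
      simp only [Finset.coe_filter, Finset.mem_univ, true_and, Set.mem_ofPred_eq] at hk
      simp [hk]
    · intro a _ b _ hab
      exact Fin.ext hab
  rw [Nat.card_Ico] at h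
  omega

theorem gSEPG (h1 : KER_st) (h2 : TRD_st) (h3 : LIN_st) : SEPG_st := by
  intro K W ι _ _ _ _ H a w M t z hH hM ht hw hd
  classical
  have hz : (sub (∏ i, H i) a w t).eval z = 0 := by
    obtain ⟨g, hg⟩ := hd
    rw [hg]; simp
  rw [sub_prod, eval_prod, Finset.prod_eq_zero_iff] at hz
  obtain ⟨i, -, hi⟩ := hz
  rw [sub_eval] at hi
  have hT : Trn (algebraMap K W) z := by
    intro q hq
    by_contra hq0
    obtain ⟨E, hE, hs, hc, k, hk⟩ := h2 K W M t
      ((Finset.univ.filter fun k : Fin M => 1 ≤ k.1).image t) ht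
      (lt_of_le_of_lt Finset.card_image_le (by have := card_GSEPG (M := M) 1 (by omega); omega))
    have hzE : z ∈ E := hc (q.map (algebraMap K W)) (Polynomial.map_ne_zero hq0)
      (fun n => by rw [coeff_map]; exact hE _) z (by rwa [eval_map])
    obtain ⟨l1, -, -, l4⟩ := h3 K W M t a w E hE
    exact hk (l1 z hzE hw (l4 (H i) (hH.lead i) hc z hzE _ hi)
      (fun k hk => hs _ (Finset.mem_image_of_mem t (by simpa using hk))) k)
  have hj : ∀ j, j ≠ i → ev (algebraMap K W) (H j) z ((alp a w t).eval z) ≠ 0 := fun j hj h0 =>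
    hH.ne i j hj.symm (h1 K W _ (H i) (H j) z _ (hH.irr i) (hH.lead i) hT hi h0)
  have hdi : ev (algebraMap K W) (derivative (H i)) z ((alp a w t).eval z) ≠ 0 := fun h0 => by
    have hdv := h1 K W _ (H i) _ z _ (hH.irr i) (hH.lead i) hT hi h0
    have hl := degree_le_of_dvd hdv (hH.sep i)
    exact absurd (degree_derivative_lt (hH.irr i).ne_zero) (not_lt.mpr hl)
  have hP : ev (algebraMap K W) (derivative (∏ j, H j)) z ((alp a w t).eval z) ≠ 0 := by
    rw [← Finset.mul_prod_erase _ _ (Finset.mem_univ i), derivative_mul]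
    unfold ev at hi hj hdi ⊢
    rw [Polynomial.map_add, Polynomial.map_mul, Polynomial.map_mul, evalEval_add, evalEval_mul,
      evalEval_mul, hi, zero_mul, add_zero, Polynomial.map_prod, evalEval_prod]
    exact mul_ne_zero hdi (Finset.prod_ne_zero_iff.mpr fun j hjm =>
      hj j (Finset.ne_of_mem_erase hjm))
  obtain ⟨E, hE, hs, hc, k, hk⟩ := h2 K W M t
    (insert z ((Finset.univ.filter fun k : Fin M => 2 ≤ k.1).image t)) ht
    (lt_of_le_of_lt (Finset.card_insert_le _ _) (by
      have h5 := card_GSEPG (M := M) 2 hM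
      have h6 := Finset.card_image_le (s := Finset.univ.filter fun k : Fin M => 2 ≤ k.1) (f := t)
      omega))
  have hzE : z ∈ E := hs _ (Finset.mem_insert_self _ _)
  obtain ⟨-, l2, -, l4⟩ := h3 K W M t a w E hE
  have hth := l4 (H i) (hH.lead i) hc z hzE _ hi
  have hD := der_GSEPG _ _ z hd
  rw [derivative_map] at hD
  have m1 := (mem_GSEPG (algebraMap K W) E hE (∏ j, H j) z _ hzE hth).1
  have m2 := (mem_GSEPG (algebraMap K W) E hE (derivative (∏ j, H j)) z _ hzE hth).2
  refine hk (l2 z hzE hw hth ?_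
    (fun k hk => hs _ (Finset.mem_insert_of_mem (Finset.mem_image_of_mem t (by simpa using hk)))) k)
  unfold ev at hP
  rw [(eq_div_iff hP).mpr ((mul_comm _ _).trans (eq_neg_of_add_eq_zero_right hD))]
  exact E.div_mem (E.neg_mem m1) m2

end

section

theorem ind_GMULT {K W : Type} [Field K] [Field W] [Algebra K W] {M : ℕ} (t : Fin M → W)
    (hM : 1 ≤ M) (ht : AlgebraicIndependent K t) (r c d : K)
    (h : algebraMap K W c + algebraMap K W d * (gam t).eval (algebraMap K W r) = 0) : d = 0 := by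
  classical
  have h1 : MvPolynomial.aeval t ((MvPolynomial.C c + MvPolynomial.C d *
      ∑ k : Fin M, MvPolynomial.X k * MvPolynomial.C (r ^ (k : ℕ)) : MvPolynomial (Fin M) K)) = 0 := by
    rw [← h]
    simp [gam, eval_finsetSum]
  have h2 := ht.eq_zero_of_aeval_eq_zero _ h1
  have h3 := congrArg (MvPolynomial.eval (fun _ : Fin M => (0 : K))) h2
  have h4 := congrArg (MvPolynomial.eval (fun k : Fin M => if k = ⟨0, hM⟩ then (1 : K) else 0)) h2
  simp at h3 h4
  rw [h3] at h4
  simpa using h4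

theorem gMULT : MULT_st := by
  intro K W _ _ _ P a w r m M t hm hM ht hw hP hd
  set φ := algebraMap K W with hφ
  have hev : ∀ Q : K[X][X], (Q.map (mapRingHom φ)).eval (a.map φ) = (Q.eval a).map φ := by
    intro Q
    rw [← coe_mapRingHom φ, eval_map_apply]
  obtain ⟨k, hk⟩ := binomExpansion (P.map (mapRingHom φ)) (a.map φ)
    ((X - C (φ r)) ^ m * (w.map φ * gam t))
  have e1 : sub P a ((X - C r) ^ m * w) t = (P.map (mapRingHom φ)).eval
      (a.map φ + (X - C (φ r)) ^ m * (w.map φ * gam t)) := by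
    simp only [sub, alp, Polynomial.map_mul, Polynomial.map_pow, Polynomial.map_sub, map_X, map_C,
      mul_assoc, hφ]
  rw [e1, hk, derivative_map, hev, hev] at hd
  have d2 : (X - C (φ r)) ^ (m + 1) ∣ k * ((X - C (φ r)) ^ m * (w.map φ * gam t)) ^ 2 := by
    refine Dvd.dvd.mul_left ?_ k
    rw [mul_pow, ← pow_mul]
    exact Dvd.dvd.mul_right (pow_dvd_pow _ (by omega)) _
  have d3 := (dvd_add_left d2).1 hd
  have d4 : (X - C (φ r)) ^ m ∣ (P.eval a).map φ := by
    have d5 : (X - C (φ r)) ^ m ∣ (P.eval a).map φ + ((derivative P).eval a).map φ *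
        ((X - C (φ r)) ^ m * (w.map φ * gam t)) := (pow_dvd_pow _ (Nat.le_succ m)).trans d3
    exact (dvd_add_left (Dvd.dvd.mul_left (dvd_mul_right _ _) _)).1 d5
  have d6 : (X - C r) ^ m ∣ P.eval a := by
    rw [← map_dvd_map' φ]
    simpa only [Polynomial.map_pow, Polynomial.map_sub, map_X, map_C] using d4
  obtain ⟨q, hq⟩ := d6
  have e2 : (P.eval a).map φ + ((derivative P).eval a).map φ *
      ((X - C (φ r)) ^ m * (w.map φ * gam t)) = (X - C (φ r)) ^ m *
      (q.map φ + ((derivative P).eval a).map φ * (w.map φ * gam t)) := by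
    rw [hq]
    simp only [Polynomial.map_mul, Polynomial.map_pow, Polynomial.map_sub, map_X, map_C]
    ring
  rw [e2, pow_succ, mul_dvd_mul_iff_left (pow_ne_zero m (X_sub_C_ne_zero _)), dvd_iff_isRoot,
    IsRoot.def] at d3
  have e3 : ((derivative P).eval a).eval r = (derivative P).evalEval r (a.eval r) := by
    rw [← eval₂_evalRingHom, ← coe_evalRingHom r, ← eval_map_apply, eval_map]
  simp only [eval_add, eval_mul, eval_map_apply] at d3
  rw [e3, ← mul_assoc, ← map_mul] at d3
  exact mul_ne_zero hP hw (ind_GMULT t hM ht r _ _ d3)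

end

section

theorem gNJ (h1 : MULT_st) : NJ_st := by
  classical
  intro K W _ _ _ P a w U J M t f hM ht hw hP he z hz h0
  obtain ⟨r, hr, rfl⟩ : ∃ r ∈ J, z = algebraMap K W r := by
    rw [wJ, map_prod, Finset.prod_eq_zero_iff] at h0
    obtain ⟨r, hr, e⟩ := h0
    refine ⟨r, hr, ?_⟩
    simpa [sub_eq_zero] using e
  have hal : (alp a (wJ J * w) t).eval (algebraMap K W r) = algebraMap K W (a.eval r) := by
    rw [alp, eval_add, eval_mul, eval_map_algebraMap, eval_map_algebraMap, map_mul, h0,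
      zero_mul, zero_mul, add_zero, aeval_algebraMap_apply, coe_aeval_eq_eval]
  by_cases hp : P.evalEval r (a.eval r) = 0
  · obtain ⟨hd, hU⟩ := hP r hr hp
    have e : wJ J * w = (X - C r) ^ 1 * (wJ (J.erase r) * w) := by
      rw [pow_one, ← mul_assoc, wJ, wJ, Finset.mul_prod_erase J (fun r => X - C r) hr]
    refine h1 K W P a (wJ (J.erase r) * w) r 1 M t le_rfl hM ht ?_ hd ?_
    · rw [eval_mul]
      refine mul_ne_zero ?_ (hw r hr)
      rw [wJ, eval_prod, Finset.prod_ne_zero_iff]
      intro s hs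
      rw [eval_sub, eval_X, eval_C, sub_ne_zero]
      exact (Finset.ne_of_mem_erase hs).symm
    · rw [← e, he, pow_succ, pow_one]
      refine mul_dvd_mul (dvd_iff_isRoot.2 ?_) (dvd_iff_isRoot.2 hz)
      rw [IsRoot, eval_map_algebraMap, aeval_algebraMap_apply, coe_aeval_eq_eval, hU, map_zero]
  · apply hp
    have := congrArg (eval (algebraMap K W r)) he
    rw [sub_eval, hal, eval_mul, hz, mul_zero, ev, map_mapRingHom_evalEval] at this
    exact (algebraMap K W).injective (by rw [this, map_zero])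

end

section

theorem eq_GSEPH {K ι L : Type} [Field K] [Fintype ι] {M : ℕ} {H : ι → K[X][X]} {J : Finset K}
    {a : K[X]} {h : ι → (MP M K)[X]} {u : ι → K[X]} (D : Dat H J a h u) [Field L] [Algebra K L]
    [Algebra (MP M K) L] [IsScalarTower K (MP M K) L] (i : ι) :
    (sub (H i) a (wJ J) fun k => algebraMap (MP M K) L (MvPolynomial.X k)) =
      (u i).map (algebraMap K L) * (h i).map (algebraMap (MP M K) L) := by
  have hf : (algebraMap (MP M K) L).comp (algebraMap K (MP M K)) = algebraMap K L :=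
    (IsScalarTower.algebraMap_eq K (MP M K) L).symm
  rw [← sub_map _ hf, D.eq i, Polynomial.map_mul, map_map, hf]

theorem prod_GSEPH {K ι L : Type} [Field K] [Fintype ι] {M : ℕ} {H : ι → K[X][X]} {J : Finset K}
    {a : K[X]} {h : ι → (MP M K)[X]} {u : ι → K[X]} (D : Dat H J a h u) [Field L] [Algebra K L]
    [Algebra (MP M K) L] [IsScalarTower K (MP M K) L] :
    (sub (∏ i, H i) a (wJ J) fun k => algebraMap (MP M K) L (MvPolynomial.X k)) =
      (∏ i, u i).map (algebraMap K L) * (∏ i, h i).map (algebraMap (MP M K) L) := by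
  rw [sub_prod, Polynomial.map_prod, Polynomial.map_prod, ← Finset.prod_mul_distrib]
  exact Finset.prod_congr rfl fun i _ => eq_GSEPH D i

theorem root_GSEPH (h2 : NJ_st) {K ι L : Type} [Field K] [Fintype ι] {M : ℕ} {H : ι → K[X][X]}
    {J : Finset K} {a : K[X]} {h : ι → (MP M K)[X]} {u : ι → K[X]} (D : Dat H J a h u)
    (hM : 2 ≤ M) [Field L] [Algebra K L] [Algebra (MP M K) L] [IsScalarTower K (MP M K) L]
    (hi : Function.Injective (algebraMap (MP M K) L)) (z : L)
    (hz : ((∏ i, h i).map (algebraMap (MP M K) L)).eval z = 0) : aeval z (wJ J) ≠ 0 := by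
  refine h2 K L (∏ i, H i) a 1 (∏ i, u i) J M _ _ (by omega) (ind_X hi) (fun r _ => by simp)
    (fun r hr h0 => ⟨D.smo r hr h0, ?_⟩) (by rw [mul_one]; exact prod_GSEPH D) z hz
  rw [evalEval_prod] at h0
  obtain ⟨i, -, h3⟩ := Finset.prod_eq_zero_iff.1 h0
  rw [eval_prod]
  exact Finset.prod_eq_zero (Finset.mem_univ i) (D.u0 i r hr h3)

theorem sep_GSEPH {W : Type} [Field W] [IsAlgClosed W] {f : W[X]} (hf : f ≠ 0)
    (h : ∀ z, ¬ (X - C z) ^ 2 ∣ f) : f.Separable := by
  rw [PerfectField.separable_iff_squarefree]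
  intro x hx
  by_contra hn
  have x0 : x ≠ 0 := by
    rintro rfl
    exact hf (by simpa using hx)
  obtain ⟨z, hz⟩ := IsAlgClosed.exists_root x (degree_pos_of_ne_zero_of_nonunit x0 hn).ne'
  have h1 := dvd_iff_isRoot.2 hz
  exact h z (by rw [sq]; exact (mul_dvd_mul h1 h1).trans hx)

theorem gSEPH (h1 : SEPG_st) (h2 : NJ_st) : SEPH_st := by
  intro K ι _ _ M H J a h u D hM
  refine ⟨?_, fun L _ _ _ _ hi i z hz => ⟨root_GSEPH h2 D hM hi z ?_, ?_⟩⟩
  · have hf := IsScalarTower.algebraMap_eq (MP M K) (FP M K) (AlgebraicClosure (FP M K))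
    have hi : Function.Injective (algebraMap (MP M K) (AlgebraicClosure (FP M K))) := by
      rw [hf]
      exact (algebraMap (FP M K) (AlgebraicClosure (FP M K))).injective.comp
        (IsFractionRing.injective (MP M K) (FP M K))
    rw [← separable_map (algebraMap (FP M K) (AlgebraicClosure (FP M K))), map_map, ← hf]
    refine sep_GSEPH ((monic_prod_of_monic _ _ fun i _ => D.mon i).map _).ne_zero fun z hz => ?_
    refine h1 K (AlgebraicClosure (FP M K)) ι H a (wJ J) M _ z D.crv hM (ind_X hi)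
      (root_GSEPH h2 D hM hi z ?_) ?_
    · exact dvd_iff_isRoot.1 ((dvd_pow_self _ two_ne_zero).trans hz)
    · rw [prod_GSEPH D]
      exact hz.mul_left _
  · rw [Polynomial.map_prod, eval_prod]
    exact Finset.prod_eq_zero (Finset.mem_univ i) hz
  · rw [eq_GSEPH D i, eval_mul, hz, mul_zero]

end

section

theorem pt_GPT {K : Type} [Field K] [IsAlgClosed K] (P Q : K[X][X]) (hP : Irreducible P)
    (hl : IsUnit P.leadingCoeff) (hn : P.natDegree ≠ 0) (hQ : ¬ P ∣ Q) :
    ∃ x y : K, P.evalEval x y = 0 ∧ Q.evalEval x y ≠ 0 := by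
  have hpr := hP.isPrimitive hn
  have hi := FaithfulSMul.algebraMap_injective K[X] (FractionRing K[X])
  have h1 : Irreducible (P.map (algebraMap K[X] (FractionRing K[X]))) :=
    hpr.irreducible_iff_irreducible_map_fraction_map.1 hP
  have h2 : IsCoprime (P.map (algebraMap K[X] (FractionRing K[X])))
      (Q.map (algebraMap K[X] (FractionRing K[X]))) :=
    h1.coprime_iff_not_dvd.2 fun h => hQ (hpr.dvd_of_fraction_map_dvd_fraction_map h)
  have h3 := resultant_ne_zero _ _ h2
  rw [natDegree_map_eq_of_injective hi, natDegree_map_eq_of_injective hi, resultant_map_map] at h3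
  obtain ⟨A, B, -, -, e⟩ := exists_mul_add_mul_eq_C_resultant P Q le_rfl le_rfl (Or.inl hn)
  generalize P.resultant Q P.natDegree Q.natDegree = d at h3 e
  have hd : d ≠ 0 := fun h => h3 (by rw [h, map_zero])
  obtain ⟨x, hx⟩ : ∃ x, d.eval x ≠ 0 := by
    by_contra h
    exact hd (Polynomial.funext fun r => by
      rw [eval_zero]
      exact not_not.1 fun h' => h ⟨r, h'⟩)
  obtain ⟨y, hy⟩ := IsAlgClosed.exists_root (P.map (evalRingHom x)) fun h => hn (by
    rw [← natDegree_map_eq_of_isUnit_leadingCoeff (evalRingHom x) hl]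
    exact natDegree_eq_of_degree_eq_some h)
  have hy' : P.evalEval x y = 0 := by rw [← map_evalRingHom_eval]; exact hy
  refine ⟨x, y, hy', fun h => hx ?_⟩
  rw [← evalEval_C x y, ← e, evalEval_add, evalEval_mul, evalEval_mul, hy', h, zero_mul, zero_mul,
    add_zero]

theorem gPT : PT_st := by
  classical
  intro K ι _ _ _ H w i hH hw
  have hn : (H i).natDegree ≠ 0 := fun h => hH.sep i (derivative_of_natDegree_zero h)
  have hp : Prime (H i) := (hH.irr i).prime
  obtain ⟨x, y, h0, h1⟩ := pt_GPT (H i)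
    (C w * derivative (H i) * ∏ j ∈ Finset.univ.erase i, H j) (hH.irr i) (hH.lead i) hn (by
      intro h
      rcases hp.dvd_or_dvd h with h | h
      · rcases hp.dvd_or_dvd h with h | h
        · have := natDegree_le_of_dvd h (C_ne_zero.2 hw)
          rw [natDegree_C] at this
          omega
        · exact absurd (natDegree_le_of_dvd h (hH.sep i)) (natDegree_derivative_lt hn).not_ge
      · obtain ⟨j, hj, h⟩ := (hp.dvd_finsetProd_iff _).1 h
        exact hH.ne i j (Finset.ne_of_mem_erase hj).symm h)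
  rw [evalEval_mul, evalEval_mul, evalEval_C] at h1
  have h2 := left_ne_zero_of_mul h1
  have h3 := right_ne_zero_of_mul h1
  refine ⟨x, y, h0, left_ne_zero_of_mul h2, ?_, right_ne_zero_of_mul h2, fun j hj h => h3 ?_⟩
  · rw [← Finset.mul_prod_erase _ _ (Finset.mem_univ i), derivative_mul, evalEval_add,
      evalEval_mul, evalEval_mul, h0, zero_mul, add_zero]
    exact mul_ne_zero (right_ne_zero_of_mul h2) h3
  · rw [evalEval_prod]
    exact Finset.prod_eq_zero (Finset.mem_erase.2 ⟨hj, Finset.mem_univ j⟩) h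

end

section

theorem clear_GSPEC {R F : Type} [CommRing R] [IsDomain R] [Field F] [Algebra R F]
    [IsFractionRing R F] (p : F[X]) :
    ∃ (d : R) (P : R[X]), d ≠ 0 ∧ P.map (algebraMap R F) = C (algebraMap R F d) * p := by
  obtain ⟨b, hb, h⟩ := IsLocalization.integerNormalization_spec (nonZeroDivisors R) p
  refine ⟨b, IsLocalization.integerNormalization (nonZeroDivisors R) p,
    nonZeroDivisors.ne_zero hb, ?_⟩
  rw [h, Algebra.smul_def]
  rfl

theorem bez_GSPEC {R F : Type} [CommRing R] [IsDomain R] [Field F] [Algebra R F]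
    [IsFractionRing R F] (g : R[X]) (hg : (g.map (algebraMap R F)).Separable) :
    ∃ (d : R) (A B : R[X]), d ≠ 0 ∧ A * g + B * derivative g = C d := by
  obtain ⟨a, b, hab⟩ := hg
  obtain ⟨d1, A, h1, hA⟩ := clear_GSPEC (R := R) a
  obtain ⟨d2, B, h2, hB⟩ := clear_GSPEC (R := R) b
  refine ⟨d1 * d2, C d2 * A, C d1 * B, mul_ne_zero h1 h2, ?_⟩
  apply Polynomial.map_injective (algebraMap R F) (IsFractionRing.injective R F)
  rw [derivative_map] at hab
  simp only [Polynomial.map_add, Polynomial.map_mul, Polynomial.map_C, hA, hB, map_mul]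
  linear_combination (C (algebraMap R F d1) * C (algebraMap R F d2)) * hab

theorem gSPEC : SPEC_st := by
  intro K _ _ N g _ hg
  obtain ⟨d, A, B, hd, h⟩ := bez_GSPEC (F := FP N K) g hg
  have hv : ∃ v : Fin N → K, MvPolynomial.eval v d ≠ 0 := by
    by_contra hc
    apply hd
    apply MvPolynomial.funext
    intro v
    rw [map_zero]
    by_contra h2
    exact hc ⟨v, h2⟩
  obtain ⟨v, hv⟩ := hv
  refine ⟨v, C (MvPolynomial.eval v d)⁻¹ * A.map (MvPolynomial.eval v),
    C (MvPolynomial.eval v d)⁻¹ * B.map (MvPolynomial.eval v), ?_⟩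
  have h2 := congrArg (Polynomial.map (MvPolynomial.eval v)) h
  simp only [Polynomial.map_add, Polynomial.map_mul, Polynomial.map_C] at h2
  rw [derivative_map, mul_assoc, mul_assoc, ← mul_add, h2, ← C_mul, inv_mul_cancel₀ hv, C_1]

end

section

theorem ee_GTG1 {K : Type} [Field K] (Q : K[X][X]) (c : K[X]) (x : K) :
    (Q.eval c).eval x = Q.evalEval x (c.eval x) := by
  rw [← eval₂_evalRingHom, ← coe_evalRingHom x, ← eval_map_apply, eval_map]

theorem tan_GTG1 {K : Type} [Field K] (P : K[X][X]) (a w : K[X]) (x y : K)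
    (h0 : P.evalEval x y = 0) (hw : w.eval x ≠ 0) (h1 : (derivative P).evalEval x y ≠ 0) :
    ∃ g0 g1 : K, (a + w * (C g0 + C g1 * (X - C x))).eval x = y ∧
      (X - C x) ^ 2 ∣ P.eval (a + w * (C g0 + C g1 * (X - C x))) := by
  obtain ⟨g0, hb⟩ : ∃ g0 : K, (a + w * C g0).eval x = y :=
    ⟨(y - a.eval x) / w.eval x, by
      rw [eval_add, eval_mul, eval_C, mul_div_cancel₀ _ hw, add_sub_cancel]⟩
  obtain ⟨q, hq⟩ : X - C x ∣ P.eval (a + w * C g0) :=
    dvd_iff_isRoot.2 (by rw [IsRoot.def, ee_GTG1, hb, h0])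
  obtain ⟨g1, hg⟩ : ∃ g1 : K,
      (q + (derivative P).eval (a + w * C g0) * (w * C g1)).eval x = 0 :=
    ⟨-q.eval x / ((derivative P).evalEval x y * w.eval x), by
      rw [eval_add, eval_mul, eval_mul, eval_C, ee_GTG1, hb, ← mul_assoc,
        mul_div_cancel₀ _ (mul_ne_zero h1 hw), add_neg_cancel]⟩
  obtain ⟨r, hr⟩ := dvd_iff_isRoot.2 (show IsRoot _ x from hg)
  refine ⟨g0, g1, ?_, ?_⟩
  · rw [← hb]
    simp
  · obtain ⟨k, hk⟩ := binomExpansion P (a + w * C g0) (w * C g1 * (X - C x))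
    have e : a + w * (C g0 + C g1 * (X - C x)) = a + w * C g0 + w * C g1 * (X - C x) := by ring
    refine ⟨r + k * (w * C g1) ^ 2, ?_⟩
    rw [e, hk, hq]
    linear_combination (X - C x) * hr

theorem gam_GTG1 {W : Type} [CommRing W] {M : ℕ} (G : W[X]) (h : G.natDegree < M) :
    gam (fun k : Fin M => G.coeff k) = G := by
  rw [gam, Fin.sum_univ_eq_sum_range (fun k => C (G.coeff k) * X ^ k) M]
  exact (as_sum_range_C_mul_X_pow' G h).symm

theorem deg_GTG1 {W : Type} [CommRing W] (c0 c1 z : W) (t : Fin 2 → W) :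
    (C c0 + C c1 * (X - C z) + (X - C z) ^ 2 * gam t).natDegree ≤ 3 := by
  rw [gam, Fin.sum_univ_two]
  simp only [Fin.val_zero, Fin.val_one]
  compute_degree

theorem gTG1 : TG1_st := by
  intro K _ P a w x y M hM h0 hw h1
  obtain ⟨g0, g1, hb, hd⟩ := tan_GTG1 P a w x y h0 hw h1
  have hG := gam_GTG1 (M := M) _ (lt_of_le_of_lt (deg_GTG1 (algebraMap K (MP 2 K) g0)
    (algebraMap K (MP 2 K) g1) (algebraMap K (MP 2 K) x) MvPolynomial.X) (by omega))
  have hA : alp a w (fun k : Fin M => (C (algebraMap K (MP 2 K) g0) +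
      C (algebraMap K (MP 2 K) g1) * (X - C (algebraMap K (MP 2 K) x)) +
      (X - C (algebraMap K (MP 2 K) x)) ^ 2 * gam (MvPolynomial.X : Fin 2 → MP 2 K)).coeff k) =
      alp (a + w * (C g0 + C g1 * (X - C x))) (w * (X - C x) ^ 2)
        (MvPolynomial.X : Fin 2 → MP 2 K) := by
    rw [alp, alp, hG]
    simp only [Polynomial.map_add, Polynomial.map_mul, Polynomial.map_pow, Polynomial.map_sub,
      map_X, map_C]
    ring
  refine ⟨_, _, hb, fun r hr => by simp [hr], hA, ?_⟩
  rw [sub, hA, alp]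
  generalize a + w * (C g0 + C g1 * (X - C x)) = b at hd
  have h2 : (X - C (MvPolynomial.C x) : (MP 2 K)[X]) ^ 2 =
      ((X - C x) ^ 2).map (algebraMap K (MP 2 K)) := by
    simp only [Polynomial.map_pow, Polynomial.map_sub, map_X, map_C, MvPolynomial.algebraMap_eq]
  have h3 := Polynomial.map_dvd (algebraMap K (MP 2 K)) hd
  rw [← coe_mapRingHom (algebraMap K (MP 2 K)), ← eval_map_apply, coe_mapRingHom] at h3
  have h4 := sub_dvd_eval_sub (b.map (algebraMap K (MP 2 K)) +
    (w * (X - C x) ^ 2).map (algebraMap K (MP 2 K)) * gam (MvPolynomial.X : Fin 2 → MP 2 K))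
    (b.map (algebraMap K (MP 2 K))) (P.map (mapRingHom (algebraMap K (MP 2 K))))
  rw [add_sub_cancel_left] at h4
  have h5 : ((X - C x) ^ 2).map (algebraMap K (MP 2 K)) ∣
      (w * (X - C x) ^ 2).map (algebraMap K (MP 2 K)) * gam (MvPolynomial.X : Fin 2 → MP 2 K) :=
    (Polynomial.map_dvd _ (dvd_mul_left _ _)).mul_right _
  rw [h2]
  simpa only [sub_add_cancel] using dvd_add (h5.trans h4) h3

end

section

theorem dbl_GTG2 {W : Type} [Field W] [IsAlgClosed W] (g : W[X]) (hg : ¬ g.Separable) :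
    ∃ z, (X - C z) ^ 2 ∣ g := by
  classical
  by_cases h0 : g = 0
  · exact ⟨0, h0 ▸ dvd_zero _⟩
  rw [← nodup_roots_iff_of_splits h0 (IsAlgClosed.splits g), Multiset.nodup_iff_count_le_one] at hg
  push Not at hg
  obtain ⟨z, hz⟩ := hg
  rw [count_roots] at hz
  exact ⟨z, (le_rootMultiplicity_iff h0).1 hz⟩

theorem gTG2 (h1 : SEPG_st) (h2 : MULT_st) (h3 : NJ_st) : TG2_st := by
  intro K ι _ _ H J b U x g hH hx hd hJ he
  by_contra hs
  let W := AlgebraicClosure (FP 2 K)
  have hinj : Function.Injective (algebraMap (MP 2 K) W) := by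
    rw [IsScalarTower.algebraMap_eq (MP 2 K) (FP 2 K) W, RingHom.coe_comp]
    exact (algebraMap (FP 2 K) W).injective.comp (IsFractionRing.injective (MP 2 K) (FP 2 K))
  have hc : (algebraMap (MP 2 K) W).comp (algebraMap K (MP 2 K)) = algebraMap K W :=
    (IsScalarTower.algebraMap_eq K (MP 2 K) W).symm
  have ht := ind_X (K := K) hinj
  have hx' : algebraMap (MP 2 K) W (MvPolynomial.C x) = algebraMap K W x := by
    rw [← hc]; rfl
  have he' := congrArg (Polynomial.map (algebraMap (MP 2 K) W)) he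
  rw [sub_map _ hc, Polynomial.map_mul, Polynomial.map_mul, map_map, hc, Polynomial.map_sub,
    map_X, map_C, hx'] at he'
  rw [← separable_map (algebraMap (FP 2 K) W), map_map,
    ← IsScalarTower.algebraMap_eq (MP 2 K) (FP 2 K) W] at hs
  obtain ⟨z, hz⟩ := dbl_GTG2 _ hs
  by_cases hzx : z = algebraMap K W x
  · refine h2 K W (∏ i, H i) b (wJ J) x 2 2 _ (by norm_num) (by norm_num) ht ?_ hd ?_
    · rw [wJ, eval_prod]
      refine Finset.prod_ne_zero_iff.2 fun r hr => ?_
      rw [eval_sub, eval_X, eval_C, sub_ne_zero]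
      rintro rfl
      exact hx hr
    · rw [mul_comm _ (wJ J), he', ← hzx, pow_succ']
      exact (mul_dvd_mul_left _ hz).mul_left _
  by_cases hzJ : aeval z (wJ J) = 0
  · refine h3 K W (∏ i, H i) b ((X - C x) ^ 2) U J 2 _ _ (by norm_num) ht ?_ hJ he' z ?_ hzJ
    · intro r hr
      rw [eval_pow, eval_sub, eval_X, eval_C]
      refine pow_ne_zero _ (sub_ne_zero.2 ?_)
      rintro rfl
      exact hx hr
    · obtain ⟨q, hq⟩ := hz
      rw [hq]
      simp
  · refine h1 K W ι H b (wJ J * (X - C x) ^ 2) 2 _ z hH le_rfl ht ?_ ?_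
    · rw [map_mul, map_pow, map_sub, aeval_X, aeval_C]
      exact mul_ne_zero hzJ (pow_ne_zero _ (sub_ne_zero.2 hzx))
    · rw [he']
      exact (hz.mul_left _).mul_left _

end

section

theorem ev_GDER {K W : Type} [Field K] [CommRing W] [Algebra K W] (P : K[X][X]) (x : K) (Y : W) :
    ev (algebraMap K W) P (algebraMap K W x) Y = aeval Y (P.map (evalRingHom x)) := by
  unfold ev
  induction P using Polynomial.induction_on' with
  | add p q hp hq => simp only [Polynomial.map_add, evalEval_add, map_add, hp, hq]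
  | monomial n c =>
    simp only [map_monomial, aeval_monomial, coe_mapRingHom, coe_evalRingHom]
    rw [← C_mul_X_pow_eq_monomial, evalEval_mul, evalEval_pow, evalEval_C, evalEval_X,
      eval_map_algebraMap, aeval_algebraMap_apply_eq_algebraMap_eval]

theorem gDER : DER_st := by
  intro K _ M P a w U f t x hM heq hw hP
  have e0 : (MvPolynomial.C x : MP M K) = algebraMap K (MP M K) x := rfl
  have hc : ∀ q : K[X], (q.map (algebraMap K (MP M K))).eval (algebraMap K (MP M K) x) =
      MvPolynomial.C (q.eval x) := fun q => by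
    rw [eval_map_algebraMap, aeval_algebraMap_apply_eq_algebraMap_eval]
    rfl
  have h1 := congrArg (eval (algebraMap K (MP M K) x)) heq
  rw [sub_eval, ev_GDER, eval_mul, hc] at h1
  obtain ⟨Y, hY⟩ : ∃ Y, Y = (alp a w (MvPolynomial.X : Fin M → MP M K)).eval
    (algebraMap K (MP M K) x) := ⟨_, rfl⟩
  rw [← hY] at h1
  have hcomp : (MvPolynomial.eval t).comp (algebraMap K (MP M K)) = algebraMap K K := by
    ext c
    simp
  have y1 : MvPolynomial.eval t Y = (alp a w t).eval x := by
    have h2 := alp_map (MvPolynomial.eval t) hcomp a w (MvPolynomial.X : Fin M → MP M K)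
    simp only [MvPolynomial.eval_X] at h2
    rw [hY, ← h2, ← eval_map_apply]
    congr 1
    simp
  have y2 : MvPolynomial.pderiv (⟨0, hM⟩ : Fin M) Y = MvPolynomial.C (w.eval x) := by
    rw [hY, alp, eval_add, eval_mul, hc, hc, map_add, MvPolynomial.pderiv_C, zero_add,
      MvPolynomial.pderiv_C_mul, gam, eval_finsetSum, map_sum,
      Finset.sum_eq_single (⟨0, hM⟩ : Fin M)]
    · simp
    · intro k _ hk
      rw [eval_mul, eval_C, eval_pow, eval_X, ← e0, ← map_pow, mul_comm,
        MvPolynomial.pderiv_C_mul, MvPolynomial.pderiv_X_of_ne hk, mul_zero]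
    · intro h
      exact absurd (Finset.mem_univ _) h
  refine ⟨⟨0, hM⟩, fun h0 => ?_⟩
  have h3 := congrArg (fun q => MvPolynomial.eval t (MvPolynomial.pderiv (⟨0, hM⟩ : Fin M) q)) h1
  rw [Derivation.map_aeval, y2, MvPolynomial.pderiv_C_mul, map_mul, ← e0, h0, mul_zero,
    smul_eq_mul, map_mul, MvPolynomial.eval_C] at h3
  refine hP ?_
  have h4 : MvPolynomial.eval t (aeval Y (derivative (P.map (evalRingHom x)))) =
      (derivative P).evalEval x ((alp a w t).eval x) := by
    rw [aeval_def, hom_eval₂, hcomp, y1, derivative_map, ← aeval_def, coe_aeval_eq_eval,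
      map_evalRingHom_eval]
  rw [← h4]
  exact (mul_eq_zero.1 h3).resolve_right hw

end

section

theorem ev_GTANG {K : Type} [Field K] {N : ℕ} (v : Fin N → K) :
    (MvPolynomial.eval v).comp (algebraMap K (MP N K)) = algebraMap K K :=
  RingHom.ext fun c => by simp

theorem gTANG (h1 : PT_st) (h2 : SPEC_st) (h3 : TG1_st) (h4 : TG2_st) (h5 : DER_st) :
    TANG_st := by
  intro K ι _ _ _ M H J a h u D hM i
  have hw : ∀ r, (wJ J).eval r = 0 ↔ r ∈ J := fun r => by
    simp [wJ, eval_prod, Finset.prod_eq_zero_iff, sub_eq_zero]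
  have hw0 : wJ J ≠ 0 := (monic_prod_of_monic _ _ fun r _ => monic_X_sub_C r).ne_zero
  obtain ⟨x, y, p1, p2, p3, -, p5⟩ := h1 K ι H (wJ J) i D.crv hw0
  have hx : x ∉ J := fun hx => p2 ((hw x).2 hx)
  have hP : (∏ j, H j).evalEval x y = 0 := by
    rw [evalEval_prod]
    exact Finset.prod_eq_zero (Finset.mem_univ i) p1
  obtain ⟨b, τ, b1, b2, b3, b4⟩ := h3 K (∏ j, H j) a (wJ J) x y M hM hP p2 p3
  have E0 : sub (∏ j, H j) a (wJ J) (MvPolynomial.X : Fin M → MP M K) =
      (∏ j, u j).map (algebraMap K (MP M K)) * ∏ j, h j := by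
    rw [sub_prod, Polynomial.map_prod, ← Finset.prod_mul_distrib]
    exact Finset.prod_congr rfl fun j _ => D.eq j
  obtain ⟨φ, φ1, φ2⟩ : ∃ φ : MP M K →+* MP 2 K, φ.comp (algebraMap K _) = algebraMap K _ ∧
      ∀ k, φ (MvPolynomial.X k) = τ k :=
    ⟨(MvPolynomial.aeval τ : MP M K →ₐ[K] MP 2 K), AlgHom.comp_algebraMap _,
      fun k => MvPolynomial.aeval_X τ k⟩
  have E1 : sub (∏ j, H j) a (wJ J) τ =
      (∏ j, u j).map (algebraMap K (MP 2 K)) * (∏ j, h j).map φ := by
    have e := congrArg (Polynomial.map φ) E0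
    rwa [sub_map φ φ1, Polynomial.map_mul, map_map, φ1, funext φ2] at e
  have c1 : IsCoprime (X - C x) (∏ j, u j) := by
    rw [(irreducible_X_sub_C x).coprime_iff_not_dvd, dvd_iff_isRoot, IsRoot.def, eval_prod]
    exact Finset.prod_ne_zero_iff.2 fun j _ => D.u1 j x hx
  have c2 : IsCoprime (X - C (MvPolynomial.C x) : (MP 2 K)[X])
      ((∏ j, u j).map (algebraMap K (MP 2 K))) := by
    have e := c1.map (mapRingHom (algebraMap K (MP 2 K)))
    rwa [coe_mapRingHom, Polynomial.map_sub, map_X, map_C] at e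
  rw [E1] at b4
  obtain ⟨g0, hg0⟩ := c2.pow_left.dvd_of_dvd_mul_left b4
  rw [sq, mul_assoc] at hg0
  have m0 : ((∏ j, h j).map φ).Monic := (monic_prod_of_monic _ _ fun j _ => D.mon j).map φ
  rw [hg0] at m0
  have m1 := (monic_X_sub_C (MvPolynomial.C x : MP 2 K)).of_mul_monic_left m0
  obtain ⟨v, hv⟩ := h2 K 2 _ m1 (h4 K ι H J b (∏ j, u j) x _ D.crv hx (by rw [b1]; exact p3)
    (fun r hr h0 => by
      rw [b2 r ((hw r).2 hr)] at h0 ⊢
      refine ⟨D.smo r hr h0, ?_⟩
      rw [evalEval_prod] at h0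
      obtain ⟨j, hj, e⟩ := Finset.prod_eq_zero_iff.1 h0
      rw [eval_prod]
      exact Finset.prod_eq_zero hj (D.u0 j r hr e))
    (by rw [← hg0, ← E1, sub, sub, b3]))
  obtain ⟨t, ht⟩ : ∃ t : Fin M → K, t = fun k => MvPolynomial.eval v (τ k) := ⟨_, rfl⟩
  have e1 : (MvPolynomial.eval v).comp φ = MvPolynomial.eval t :=
    MvPolynomial.ringHom_ext (fun c => by
      have e := RingHom.congr_fun φ1 c
      simp only [RingHom.comp_apply, MvPolynomial.algebraMap_eq] at e
      simp [e]) fun k => by simp [φ2, ht]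
  have e2 : (alp a (wJ J) t).eval x = y := by
    rw [ht, ← alp_map _ (ev_GTANG v), b3, alp_map _ (ev_GTANG v)]
    simp [alp, b1]
  have e3 := h5 K M (∏ j, H j) a (wJ J) (∏ j, u j) (∏ j, h j) t x (le_trans (by norm_num) hM) E0
    p2 (by rw [e2]; exact p3)
  have e4 : (((X - C (MvPolynomial.C x)) * g0).map (MvPolynomial.eval v)).eval x = 0 := by
    rw [Polynomial.map_mul, Polynomial.map_sub, map_X, map_C, MvPolynomial.eval_C, eval_mul,
      eval_sub, eval_X, eval_C, sub_self, zero_mul]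
  refine ⟨t, x, _, ?_, hv, e4, fun j hj h0 => p5 j hj ?_, e3⟩
  · rw [← e1, ← map_map, hg0]
    simp
  · have e := congrArg (fun p => (Polynomial.map (MvPolynomial.eval t) p).eval x) (D.eq j)
    simp only [sub_map _ (ev_GTANG t), Polynomial.map_mul, eval_mul, h0, mul_zero,
      MvPolynomial.eval_X, sub_eval, e2] at e
    simpa [ev] using e

end

end Pool.Agent.MP_a9d3bd_g.Gx
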