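import Pool.Agent.MP_a9d3bd_g.ADefs

/-! The Galois group of a generic section: definitions and statements of the steps. -/

namespace Pool.Agent.MP_a9d3bd_g.Gx

open Polynomial

noncomputable section

/-- The value of the curve `P` at the point `(x, y)` along `φ`. -/
def ev {k W : Type} [CommRing k] [CommRing W] (φ : k →+* W) (P : k[X][X]) (x y : W) : W :=
  (P.map (mapRingHom φ)).evalEval x y

/-- `x` is transcendental along `φ`. -/
def Trn {k W : Type} [CommRing k] [CommRing W] (φ : k →+* W) (x : W) : Prop :=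
  ∀ q : k[X], q.eval₂ φ x = 0 → q = 0

/-- The polynomial with coefficients `t`. -/
def gam {W : Type} [CommRing W] {M : ℕ} (t : Fin M → W) : W[X] := ∑ k : Fin M, C (t k) * X ^ (k : ℕ)

variable {K : Type} [Field K]

def alp {W : Type} [CommRing W] [Algebra K W] {M : ℕ} (a w : K[X]) (t : Fin M → W) : W[X] :=
  a.map (algebraMap K W) + w.map (algebraMap K W) * gam t

/-- `P (S, a + w * gam t)`. -/
def sub {W : Type} [CommRing W] [Algebra K W] {M : ℕ} (P : K[X][X]) (a w : K[X])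
    (t : Fin M → W) : W[X] := (P.map (mapRingHom (algebraMap K W))).eval (alp a w t)

def wJ (J : Finset K) : K[X] := ∏ r ∈ J, (X - C r)

abbrev MP (M : ℕ) (K : Type) [Field K] : Type := MvPolynomial (Fin M) K

abbrev FP (M : ℕ) (K : Type) [Field K] : Type := FractionRing (MvPolynomial (Fin M) K)

/-- The data of the theorem. -/
structure Dat {M : ℕ} {ι : Type} [Fintype ι] (H : ι → K[X][X]) (J : Finset K) (a : K[X])
    (h : ι → (MP M K)[X]) (u : ι → K[X]) : Prop where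
  crv : Crv H
  mon : ∀ i, (h i).Monic
  eq : ∀ i, sub (H i) a (wJ J) (MvPolynomial.X : Fin M → MP M K) =
    (u i).map (algebraMap K (MP M K)) * h i
  u0 : ∀ i, ∀ r ∈ J, (H i).evalEval r (a.eval r) = 0 → (u i).eval r = 0
  u1 : ∀ i r, r ∉ J → (u i).eval r ≠ 0
  smo : ∀ r ∈ J, (∏ i, H i).evalEval r (a.eval r) = 0 →
    (derivative (∏ i, H i)).evalEval r (a.eval r) ≠ 0

def KER_st : Prop := ∀ (k W : Type) [Field k] [Field W] (φ : k →+* W) (P Q : k[X][X]) (x y : W),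
  Irreducible P → IsUnit P.leadingCoeff → Trn φ x → ev φ P x y = 0 → ev φ Q x y = 0 → P ∣ Q

def TRD_st : Prop := ∀ (K W : Type) [Field K] [Field W] [Algebra K W] (M : ℕ) (t : Fin M → W)
  (s : Finset W), AlgebraicIndependent K t → s.card < M → ∃ E : Subfield W,
    (∀ c, algebraMap K W c ∈ E) ∧ (∀ x ∈ s, x ∈ E) ∧
    (∀ q : W[X], q ≠ 0 → (∀ n, q.coeff n ∈ E) → ∀ x, q.eval x = 0 → x ∈ E) ∧ ∃ k, t k ∉ E

/-- Solving for the first coefficients inside a subfield. -/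
def LIN_st : Prop := ∀ (K W : Type) [Field K] [Field W] [Algebra K W] (M : ℕ) (t : Fin M → W)
  (a w : K[X]) (E : Subfield W), (∀ c, algebraMap K W c ∈ E) →
  (∀ x ∈ E, aeval x w ≠ 0 → (alp a w t).eval x ∈ E → (∀ k : Fin M, 1 ≤ k.1 → t k ∈ E) →
    ∀ k, t k ∈ E) ∧
  (∀ x ∈ E, aeval x w ≠ 0 → (alp a w t).eval x ∈ E → (derivative (alp a w t)).eval x ∈ E →
    (∀ k : Fin M, 2 ≤ k.1 → t k ∈ E) → ∀ k, t k ∈ E) ∧
  (∀ x ∈ E, ∀ y ∈ E, x ≠ y → aeval x w ≠ 0 → aeval y w ≠ 0 → (alp a w t).eval x ∈ E →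
    (alp a w t).eval y ∈ E → (∀ k : Fin M, 2 ≤ k.1 → t k ∈ E) → ∀ k, t k ∈ E) ∧
  ∀ P : K[X][X], IsUnit P.leadingCoeff →
    (∀ q : W[X], q ≠ 0 → (∀ n, q.coeff n ∈ E) → ∀ x, q.eval x = 0 → x ∈ E) →
    ∀ x ∈ E, ∀ y, ev (algebraMap K W) P x y = 0 → y ∈ E

def SEPG_st : Prop := ∀ (K W ι : Type) [Field K] [Field W] [Algebra K W] [Fintype ι]
  (H : ι → K[X][X]) (a w : K[X]) (M : ℕ) (t : Fin M → W) (z : W), Crv H → 2 ≤ M →
  AlgebraicIndependent K t → aeval z w ≠ 0 → ¬ (X - C z) ^ 2 ∣ sub (∏ i, H i) a w t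

def MULT_st : Prop := ∀ (K W : Type) [Field K] [Field W] [Algebra K W] (P : K[X][X])
  (a w : K[X]) (r : K) (m M : ℕ) (t : Fin M → W), 1 ≤ m → 1 ≤ M → AlgebraicIndependent K t →
  w.eval r ≠ 0 → (derivative P).evalEval r (a.eval r) ≠ 0 →
  ¬ (X - C (algebraMap K W r)) ^ (m + 1) ∣ sub P a ((X - C r) ^ m * w) t

def NJ_st : Prop := ∀ (K W : Type) [Field K] [Field W] [Algebra K W] (P : K[X][X])
  (a w U : K[X]) (J : Finset K) (M : ℕ) (t : Fin M → W) (f : W[X]), 1 ≤ M →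
  AlgebraicIndependent K t → (∀ r ∈ J, w.eval r ≠ 0) →
  (∀ r ∈ J, P.evalEval r (a.eval r) = 0 →
    (derivative P).evalEval r (a.eval r) ≠ 0 ∧ U.eval r = 0) →
  sub P a (wJ J * w) t = U.map (algebraMap K W) * f → ∀ z, f.eval z = 0 → aeval z (wJ J) ≠ 0

def SEPH_st : Prop := ∀ (K ι : Type) [Field K] [Fintype ι] (M : ℕ) (H : ι → K[X][X])
  (J : Finset K) (a : K[X]) (h : ι → (MP M K)[X]) (u : ι → K[X]), Dat H J a h u → 2 ≤ M →
  ((∏ i, h i).map (algebraMap (MP M K) (FP M K))).Separable ∧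
  ∀ (L : Type) [Field L] [Algebra K L] [Algebra (MP M K) L] [IsScalarTower K (MP M K) L],
    Function.Injective (algebraMap (MP M K) L) → ∀ i z,
    ((h i).map (algebraMap (MP M K) L)).eval z = 0 → aeval z (wJ J) ≠ 0 ∧
      (sub (H i) a (wJ J) fun k => algebraMap (MP M K) L (MvPolynomial.X k)).eval z = 0

def PT_st : Prop := ∀ (K ι : Type) [Field K] [IsAlgClosed K] [Fintype ι] (H : ι → K[X][X])
  (w : K[X]) (i : ι), Crv H → w ≠ 0 → ∃ x y : K, (H i).evalEval x y = 0 ∧ w.eval x ≠ 0 ∧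
    (derivative (∏ j, H j)).evalEval x y ≠ 0 ∧ (derivative (H i)).evalEval x y ≠ 0 ∧
    ∀ j, j ≠ i → (H j).evalEval x y ≠ 0

def SPEC_st : Prop := ∀ (K : Type) [Field K] [Infinite K] (N : ℕ) (g : (MP N K)[X]), g.Monic →
  (g.map (algebraMap (MP N K) (FP N K))).Separable →
  ∃ v : Fin N → K, (g.map (MvPolynomial.eval v)).Separable

/-- A tangent section. -/
def TG1_st : Prop := ∀ (K : Type) [Field K] (P : K[X][X]) (a w : K[X]) (x y : K) (M : ℕ), 4 ≤ M →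
  P.evalEval x y = 0 → w.eval x ≠ 0 → (derivative P).evalEval x y ≠ 0 →
  ∃ (b : K[X]) (τ : Fin M → MP 2 K), b.eval x = y ∧ (∀ r, w.eval r = 0 → b.eval r = a.eval r) ∧
    alp a w τ = alp b (w * (X - C x) ^ 2) (MvPolynomial.X : Fin 2 → MP 2 K) ∧
    (X - C (MvPolynomial.C x)) ^ 2 ∣ sub P a w τ

/-- The generic tangent section has one double point. -/
def TG2_st : Prop := ∀ (K ι : Type) [Field K] [Fintype ι] (H : ι → K[X][X]) (J : Finset K)
  (b U : K[X]) (x : K) (g : (MP 2 K)[X]), Crv H → x ∉ J →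
  (derivative (∏ i, H i)).evalEval x (b.eval x) ≠ 0 →
  (∀ r ∈ J, (∏ i, H i).evalEval r (b.eval r) = 0 →
    (derivative (∏ i, H i)).evalEval r (b.eval r) ≠ 0 ∧ U.eval r = 0) →
  sub (∏ i, H i) b (wJ J * (X - C x) ^ 2) (MvPolynomial.X : Fin 2 → MP 2 K) =
    U.map (algebraMap K (MP 2 K)) * ((X - C (MvPolynomial.C x)) * g) →
  (g.map (algebraMap (MP 2 K) (FP 2 K))).Separable

/-- The derivative along the first parameter. -/
def DER_st : Prop := ∀ (K : Type) [Field K] (M : ℕ) (P : K[X][X]) (a w U : K[X])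
  (f : (MP M K)[X]) (t : Fin M → K) (x : K), 1 ≤ M →
  sub P a w (MvPolynomial.X : Fin M → MP M K) = U.map (algebraMap K (MP M K)) * f →
  w.eval x ≠ 0 → (derivative P).evalEval x ((alp a w t).eval x) ≠ 0 →
  ∃ k, MvPolynomial.eval t (MvPolynomial.pderiv k (f.eval (MvPolynomial.C x))) ≠ 0

def TANG_st : Prop := ∀ (K ι : Type) [Field K] [IsAlgClosed K] [Fintype ι] (M : ℕ)
  (H : ι → K[X][X]) (J : Finset K) (a : K[X]) (h : ι → (MP M K)[X]) (u : ι → K[X]),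
  Dat H J a h u → 4 ≤ M → ∀ i, ∃ (t : Fin M → K) (s : K) (g : K[X]),
    (∏ j, h j).map (MvPolynomial.eval t) = (X - C s) * g ∧ g.Separable ∧ g.eval s = 0 ∧
    (∀ j, j ≠ i → ((h j).map (MvPolynomial.eval t)).eval s ≠ 0) ∧
    ∃ k, MvPolynomial.eval t (MvPolynomial.pderiv k ((∏ j, h j).eval (MvPolynomial.C s))) ≠ 0

/-- A ramified point has a nontrivial inertia group. -/
def INE_st : Prop := ∀ (R B K G : Type) [CommRing R] [CommRing B] [Field K] [Algebra R B] [Group G]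
  [Fintype G] [MulSemiringAction G B],
  (∀ (g : G) (r : R), g • algebraMap R B r = algebraMap R B r) →
  (∀ b : B, (∀ g : G, g • b = b) → ∃ r, algebraMap R B r = b) →
  Function.Injective (algebraMap R B) → ∀ φ : B →+* K, (∀ c : K, ∃ r, φ (algebraMap R B r) = c) →
  ∀ D : R →+ K, (∀ a b, D (a * b) = φ (algebraMap R B a) * D b + φ (algebraMap R B b) * D a) →
  ∀ (x : R) (y z : B), algebraMap R B x = y * z → φ y = 0 → φ z = 0 → D x ≠ 0 →
  ∃ g : G, g ≠ 1 ∧ ∀ b, φ (g • b) = φ b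

/-- A point of the integral closure over `t`. -/
def PHI_st : Prop := ∀ (K L : Type) [Field K] [IsAlgClosed K] [Field L] (M : ℕ)
  [Algebra (MP M K) L] (t : Fin M → K), Function.Injective (algebraMap (MP M K) L) →
  ∃ φ : integralClosure (MP M K) L →+* K,
    ∀ r, φ (algebraMap (MP M K) (integralClosure (MP M K) L) r) = MvPolynomial.eval t r

/-- One double root. -/
def DBL_st : Prop := ∀ (K : Type) [Field K] (n : ℕ) (y : Fin n → K) (s : K) (g : K[X]),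
  ∏ j, (X - C (y j)) = (X - C s) * g → g.Separable → g.eval s = 0 →
  ∃ a b, a ≠ b ∧ y a = s ∧ y b = s ∧ ∀ σ : Equiv.Perm (Fin n), σ ≠ 1 → (∀ j, y (σ j) = y j) →
    σ = Equiv.swap a b

def SWP_st : Prop := ∀ (K L : Type) [Field K] [IsAlgClosed K] [Field L] (M n : ℕ)
  [Algebra (MP M K) L] [Algebra (FP M K) L] [IsScalarTower (MP M K) (FP M K) L]
  [IsGalois (FP M K) L] [FiniteDimensional (FP M K) L] (f : (MP M K)[X]) (z : Fin n → L)
  (t : Fin M → K) (s : K) (g : K[X]), f.Monic → Function.Injective z →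
  f.map (algebraMap (MP M K) L) = ∏ j, (X - C (z j)) →
  (∀ γ : L ≃ₐ[FP M K] L, (∀ j, γ (z j) = z j) → γ = 1) →
  f.map (MvPolynomial.eval t) = (X - C s) * g → g.Separable → g.eval s = 0 →
  (∃ k, MvPolynomial.eval t (MvPolynomial.pderiv k (f.eval (MvPolynomial.C s))) ≠ 0) →
  ∃ a b, a ≠ b ∧ (∃ γ : L ≃ₐ[FP M K] L, ∀ j, γ (z j) = z (Equiv.swap a b j)) ∧
    ∀ q : (MP M K)[X], (q.map (algebraMap (MP M K) L)).eval (z a) = 0 ∨
      (q.map (algebraMap (MP M K) L)).eval (z b) = 0 → (q.map (MvPolynomial.eval t)).eval s = 0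

def EXT_st : Prop := ∀ (k W : Type) [Field k] [Field W] (φ φ' : k →+* W) (P : k[X][X])
  (x y x' y' : W), Irreducible P → IsUnit P.leadingCoeff → Trn φ x → Trn φ' x' →
  ev φ P x y = 0 → ev φ' P x' y' = 0 →
  ∃ (k₁ : Type) (_ : Field k₁) (j : k →+* k₁) (ψ ψ' : k₁ →+* W) (u v : k₁), ψ.comp j = φ ∧
    ψ'.comp j = φ' ∧ ψ u = x ∧ ψ v = y ∧ ψ' u = x' ∧ ψ' v = y' ∧
    (∀ E : Subfield W, (∀ c, φ c ∈ E) → x ∈ E → y ∈ E → ∀ c, ψ c ∈ E) ∧
    ∀ E : Subfield W, (∀ c, φ' c ∈ E) → x' ∈ E → y' ∈ E → ∀ c, ψ' c ∈ E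

def AUT_st : Prop := ∀ (K L k : Type) [Field K] [Field L] [Field k] (M : ℕ) [Algebra K L]
  [Algebra (MP M K) L] [IsScalarTower K (MP M K) L] [Algebra (FP M K) L]
  [IsScalarTower (MP M K) (FP M K) L] [Normal (FP M K) L] (j : K →+* k) (ψ ψ' : k →+* L)
  (T : Fin M → k), ψ.comp j = algebraMap K L → ψ'.comp j = algebraMap K L →
  (∀ i, ψ (T i) = algebraMap (MP M K) L (MvPolynomial.X i)) →
  (∀ i, ψ' (T i) = algebraMap (MP M K) L (MvPolynomial.X i)) →
  ∃ γ : L ≃ₐ[FP M K] L, ∀ c, γ (ψ c) = ψ' c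

/-- Two generic points of the curve. -/
def TWO_st : Prop := ∀ (K W : Type) [Field K] [Field W] [Algebra K W] (M : ℕ) (P : K[X][X])
  (a w : K[X]) (t : Fin M → W) (x y : W), 2 ≤ M → AlgebraicIndependent K t →
  IsUnit P.leadingCoeff → x ≠ y → aeval x w ≠ 0 → aeval y w ≠ 0 → (sub P a w t).eval x = 0 →
  (sub P a w t).eval y = 0 → ∀ (k : Type) [Field k] (ψ : k →+* W),
    (∀ E : Subfield W, (∀ c, algebraMap K W c ∈ E) → (∀ i : Fin M, 2 ≤ i.1 → t i ∈ E) → x ∈ E →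
      (alp a w t).eval x ∈ E → ∀ c, ψ c ∈ E) → Trn ψ y

/-- The two first parameters are fixed. -/
def FIX_st : Prop := ∀ (K W k : Type) [Field K] [Field W] [Algebra K W] [Field k] (M : ℕ)
  (a w : K[X]) (t : Fin M → W) (j : K →+* k) (ψ ψ' : k →+* W) (u₁ v₁ u₂ v₂ : k),
  ψ.comp j = algebraMap K W → ψ'.comp j = algebraMap K W → u₁ ≠ u₂ → aeval (ψ u₁) w ≠ 0 →
  aeval (ψ u₂) w ≠ 0 → ψ v₁ = (alp a w t).eval (ψ u₁) → ψ v₂ = (alp a w t).eval (ψ u₂) →
  ψ' v₁ = (alp a w t).eval (ψ' u₁) → ψ' v₂ = (alp a w t).eval (ψ' u₂) →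
  (∀ i : Fin M, 2 ≤ i.1 → ∃ T, ψ T = t i ∧ ψ' T = t i) → ∀ i, ∃ T, ψ T = t i ∧ ψ' T = t i

def T2_st : Prop := ∀ (K L : Type) [Field K] [Field L] (M : ℕ) [Algebra K L]
  [Algebra (MP M K) L] [IsScalarTower K (MP M K) L] [Algebra (FP M K) L]
  [IsScalarTower (MP M K) (FP M K) L] [Normal (FP M K) L] (P : K[X][X]) (a w : K[X]), 2 ≤ M →
  IsUnit P.leadingCoeff →
  (∀ (W : Type) [Field W] (f : K →+* W), Irreducible (P.map (mapRingHom f))) →
  ∀ x y x' y' : L, x ≠ y → x' ≠ y' → (∀ z ∈ ({x, y, x', y'} : Set L), aeval z w ≠ 0 ∧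
    (sub P a w fun k => algebraMap (MP M K) L (MvPolynomial.X k)).eval z = 0) →
  ∃ γ : L ≃ₐ[FP M K] L, γ x = x' ∧ γ y = y'

def ENUM_st : Prop := ∀ (L ι : Type) [Field L] [Fintype ι] [DecidableEq ι] (f : ι → L[X]),
  (∀ i, (f i).Monic) → (∏ i, f i).Splits → (∏ i, f i).Separable →
  ∃ (z : Fin (∑ i, (f i).natDegree) → L) (bl : Fin (∑ i, (f i).natDegree) → ι),
    Function.Injective z ∧ ∏ i, f i = ∏ j, (X - C (z j)) ∧
    (∀ i, f i = ∏ j ∈ Finset.univ.filter (fun j => bl j = i), (X - C (z j))) ∧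
    ∀ i j, (f i).eval (z j) = 0 ↔ bl j = i

def GRP_st : Prop := ∀ (ι : Type) (n : ℕ) (bl : Fin n → ι) (S : Subgroup (Equiv.Perm (Fin n))),
  (∀ a b a' b', a ≠ b → a' ≠ b' → bl b = bl a → bl a' = bl a → bl b' = bl a →
    ∃ σ ∈ S, σ a = a' ∧ σ b = b') →
  (∀ c, ∃ a b, a ≠ b ∧ bl a = bl c ∧ bl b = bl c ∧ Equiv.swap a b ∈ S) →
  ∀ σ : Equiv.Perm (Fin n), (∀ j, bl (σ j) = bl j) → σ ∈ S

theorem gam_map {W W' : Type} [CommRing W] [CommRing W'] {M : ℕ} (f : W →+* W') (t : Fin M → W) :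
    (gam t).map f = gam fun k => f (t k) := by
  simp [gam, Polynomial.map_sum]

theorem alp_map {W W' : Type} [CommRing W] [CommRing W'] [Algebra K W] [Algebra K W'] {M : ℕ}
    (f : W →+* W') (hf : f.comp (algebraMap K W) = algebraMap K W') (a w : K[X]) (t : Fin M → W) :
    (alp a w t).map f = alp a w fun k => f (t k) := by
  simp only [alp, Polynomial.map_add, Polynomial.map_mul, map_map, hf, gam_map]

theorem sub_map {W W' : Type} [CommRing W] [CommRing W'] [Algebra K W] [Algebra K W'] {M : ℕ}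
    (f : W →+* W') (hf : f.comp (algebraMap K W) = algebraMap K W') (P : K[X][X]) (a w : K[X])
    (t : Fin M → W) : (sub P a w t).map f = sub P a w fun k => f (t k) := by
  rw [sub, sub, ← alp_map f hf, ← hf, ← mapRingHom_comp, ← map_map, ← coe_mapRingHom f,
    eval_map_apply]

theorem sub_eval {W : Type} [CommRing W] [Algebra K W] {M : ℕ} (P : K[X][X]) (a w : K[X])
    (t : Fin M → W) (z : W) :
    (sub P a w t).eval z = ev (algebraMap K W) P z ((alp a w t).eval z) := by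
  rw [sub, ev, ← eval₂_evalRingHom, ← coe_evalRingHom z, ← eval_map_apply, eval_map]

theorem sub_prod {W ι : Type} [CommRing W] [Algebra K W] {M : ℕ} (s : Finset ι) (H : ι → K[X][X])
    (a w : K[X]) (t : Fin M → W) : sub (∏ i ∈ s, H i) a w t = ∏ i ∈ s, sub (H i) a w t := by
  simp only [sub, Polynomial.map_prod, eval_prod]

theorem ind_X {L : Type} [CommRing L] {M : ℕ} [Algebra K L] [Algebra (MP M K) L]
    [IsScalarTower K (MP M K) L] (h : Function.Injective (algebraMap (MP M K) L)) :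
    AlgebraicIndependent K fun k => algebraMap (MP M K) L (MvPolynomial.X k) :=
  (MvPolynomial.algebraicIndependent_X (Fin M) K).map' (f := IsScalarTower.toAlgHom K (MP M K) L) h

end

end Pool.Agent.MP_a9d3bd_g.Gx
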