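import Pool.Agent.MP_a9d3bd_g.CDefs

namespace Pool.Agent.MP_a9d3bd_g

open MvPolynomial Pool.Agent.MP_a9d3bd_h Pool.Agent.MP_a9d3bd_q

variable {K : Type} [Field K]

open Classical in
/-- The multiplicity of `Q` in the divisor of `F` on `P`. -/
noncomputable def od (F : R3 K) (P Q : Pr K (Fin 3)) : ℚ :=
  if F ∉ P.asIdeal ∧ dim P = dim Q + 1 then (len Q P.asIdeal F).toNat else 0

/-- The symbol of a curve with a function. -/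
noncomputable def sy (Z : Pr K (Fin 3)) (F : R3 K) : Pr K (Fin 3) × R3 K →₀ ℚ :=
  Finsupp.single (Z, F) 1

/-- Multiplicativity, congruence and tame symbols. -/
noncomputable def Rel (H : R3 K) (W : Pr K (Fin 3)) : Submodule ℚ (Pr K (Fin 3) × R3 K →₀ ℚ) :=
  Submodule.span ℚ {z |
    (∃ Z F G, Cv H Z ∧ F ∉ Z.asIdeal ∧ G ∉ Z.asIdeal ∧ z = sy Z (F * G) - sy Z F - sy Z G) ∨
    (∃ Z F G, Cv H Z ∧ F ∉ Z.asIdeal ∧ F - G ∈ Z.asIdeal ∧ z = sy Z F - sy Z G) ∨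
    ∃ e F G G', Tp e G ∧ Tp e G' ∧ F ∉ W.asIdeal ∧
      (∀ Z : Pr K (Fin 3), H ∈ Z.asIdeal → dim Z = 1 → F * G * G' ∈ Z.asIdeal →
        Cv H Z ∧ (F ∈ Z.asIdeal → G * G' ∉ Z.asIdeal)) ∧
      z = ∑ᶠ Z, od F W Z • (sy Z G - sy Z G') - ∑ᶠ Z, (od G W Z - od G' W Z) • sy Z F}

end Pool.Agent.MP_a9d3bd_g
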