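import Pool.Agent.MP_a9d3bd_g.SDefs
import Pool.Agent.MP_a9d3bd_g.CCore

namespace Pool.Agent.MP_a9d3bd_g

open MvPolynomial Pool.Agent.MP_a9d3bd_h Pool.Agent.MP_a9d3bd_q

variable {K : Type} [Field K]

theorem od_eq (F : R3 K) (P Q : Pr K (Fin 3)) : od F P Q = dvc F P Q := by
  unfold od dvc
  congr

theorem SM_alg (p : ℕ) [Fact p.Prime] (c : AlgebraicClosure (ZMod p)) :
    ∃ n, 0 < n ∧ c ^ p ^ n = c := by
  have h1 : IsIntegral (ZMod p) c := Algebra.IsIntegral.isIntegral c
  have := IntermediateField.adjoin.finiteDimensional h1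
  have : Finite (IntermediateField.adjoin (ZMod p) {c}) := Module.finite_of_finite (ZMod p)
  have := Fintype.ofFinite (IntermediateField.adjoin (ZMod p) {c})
  obtain ⟨n, -, h2⟩ := FiniteField.card (IntermediateField.adjoin (ZMod p) {c}) p
  have h3 := FiniteField.pow_card (IntermediateField.AdjoinSimple.gen (ZMod p) c)
  rw [h2] at h3
  exact ⟨n, n.2, by simpa using congrArg Subtype.val h3⟩

theorem main (p : ℕ) [Fact p.Prime] [IsAlgClosed K] [CharP K p]
    (halg : ∀ c : K, ∃ n, 0 < n ∧ c ^ p ^ n = c) {H : R3 K} {W : Pr K (Fin 3)} (h : Srf H W)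
    {ι : Type} [Fintype ι] (Z : ι → Pr K (Fin 3)) (F G g : ι → R3 K) (n : ι → ℚ)
    (hP : ∀ i, Pos H (Z i) (F i) (G i) (g i))
    (hz : ∀ x : Fin 3 → K,
      ∑ i, n i * (od (F i) (Z i) (ak K x) - od (G i) (Z i) (ak K x)) = 0) :
    ∑ i, n i • (sy (Z i) (F i) - sy (Z i) (G i)) ∈ Rel H W := by
  by_contra hc
  obtain ⟨l, h1, h2⟩ := Submodule.exists_dual_map_eq_bot_of_notMem hc inferInstance
  have h3 : ∀ z ∈ Rel H W, l z = 0 := fun z hz => by
    have := Submodule.mem_map_of_mem (f := l) hz
    rwa [h2, Submodule.mem_bot] at this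
  have hl : Ax H W fun Z F => (l (sy Z F) : ℝ) := by
    refine ⟨fun Z F G a b c => ?_, fun Z F G a b c => ?_, fun e F G G' a b c d => ?_⟩
    · have := h3 _ (Submodule.subset_span (Or.inl ⟨Z, F, G, a, b, c, rfl⟩))
      rw [map_sub, map_sub, sub_sub, sub_eq_zero] at this
      exact_mod_cast this
    · have := h3 _ (Submodule.subset_span (Or.inr (Or.inl ⟨Z, F, G, a, b, c, rfl⟩)))
      rw [map_sub, sub_eq_zero] at this
      exact_mod_cast this
    · have := h3 _ (Submodule.subset_span (Or.inr (Or.inr ⟨e, F, G, G', a, b, c, d, rfl⟩)))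
      have f1 : (Function.support fun Z => dvc F W Z).Finite := dvc_fin F W
      have f2 : (Function.support fun Z => dvc G W Z - dvc G' W Z).Finite :=
        ((dvc_fin G W).union (dvc_fin G' W)).subset (Function.support_sub _ _)
      simp only [od_eq] at this
      rw [map_sub, sub_eq_zero,
        finsum_eq_sum_of_support_subset (s := f1.toFinset) _ fun Z hZ => by
          simpa using left_ne_zero_of_smul hZ,
        finsum_eq_sum_of_support_subset (s := f2.toFinset) _ fun Z hZ => by
          simpa using left_ne_zero_of_smul hZ] at this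
      rw [finsum_eq_sum_of_support_subset (s := f1.toFinset) _ fun Z hZ => by
          simpa using left_ne_zero_of_mul hZ,
        finsum_eq_sum_of_support_subset (s := f2.toFinset) _ fun Z hZ => by
          have := left_ne_zero_of_mul hZ
          rw [Rat.cast_ne_zero] at this
          simpa using this]
      simp only [map_sum, map_smul, map_sub, smul_eq_mul] at this
      exact_mod_cast this
  have h4 := core p halg h hl Z F G g n hP (by simpa only [od_eq] using hz)
  refine h1 ?_
  simp only [map_sum, map_smul, map_sub, smul_eq_mul]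
  exact_mod_cast h4

end Pool.Agent.MP_a9d3bd_g
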