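import Pool.Agent.MP_a9d3bd_g.ADefs
import Pool.Agent.MP_a9d3bd_g.AUC

namespace Pool.Agent.MP_a9d3bd_g

open Polynomial Finset

theorem spl_iff {K : Type} [Field K] [IsAlgClosed K] (q n : ℕ) (F : K[X]) (hm : F.Monic)
    (hn : F.natDegree = n) : Spl q n F ↔ F.Separable ∧ ∀ z, F.eval z = 0 → z ^ q = z := by
  classical
  constructor
  · rintro ⟨s, -, hs, c, hc, rfl⟩
    refine ⟨?_, fun z hz => ?_⟩
    · rw [mul_comm]
      exact Separable.mul_unit (separable_prod_X_sub_C_iff'.2 fun _ _ _ _ h => h)
        (isUnit_C.2 hc.isUnit)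
    · rw [eval_mul, eval_C, eval_prod, mul_eq_zero, or_iff_right hc, prod_eq_zero_iff] at hz
      obtain ⟨a, ha, h⟩ := hz
      rw [eval_sub, eval_X, eval_C, sub_eq_zero] at h
      exact h ▸ hs a ha
  · rintro ⟨h1, h2⟩
    refine ⟨F.roots.toFinset, ?_, fun x hx => h2 x ?_, 1, one_ne_zero, ?_⟩
    · rw [Multiset.toFinset_card_of_nodup (nodup_roots h1),
        ← (IsAlgClosed.splits _).natDegree_eq_card_roots, hn]
    · exact isRoot_of_mem_roots (Multiset.mem_toFinset.1 hx)
    · rw [C_1, one_mul, Finset.prod_eq_multiset_prod, Multiset.toFinset_val,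
        Multiset.dedup_eq_self.2 (nodup_roots h1)]
      exact (IsAlgClosed.splits F).eq_prod_roots_of_monic hm

theorem cc_of_uc (huc : UC) (p n D M : ℕ) [Fact p.Prime] (hM : 0 < M) (ε : ℝ) (hε : 0 < ε)
    (K : Type) [Field K] [IsAlgClosed K] [CharP K p] : ∃ q₀ : ℕ, ∀ f : ℕ, q₀ ≤ p ^ f →
    ∀ (ι : Type) [Fintype ι] [DecidableEq ι] (h : ι → (MvPolynomial (Fin M) K)[X]),
    (∀ i, (h i).Monic) → Full n h → (∀ i a, ((h i).coeff a).totalDegree ≤ D) →
    (∀ i a d, MvPolynomial.coeff d ((h i).coeff a) ^ p ^ f = MvPolynomial.coeff d ((h i).coeff a)) →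
    |({t : Fin M → K | (∀ i, t i ^ p ^ f = t i) ∧
        Spl (p ^ f) n ((∏ i, h i).map (MvPolynomial.eval t))}.ncard : ℝ) *
      ∏ i, ((h i).natDegree.factorial : ℝ) - (p ^ f : ℝ) ^ M| ≤ ε * (p ^ f : ℝ) ^ M := by
  classical
  choose q₀ hq₀ using fun blk : Fin n → Fin n => huc (Fin n) (Fin n) blk K p M D ε hM hε
  refine ⟨univ.sup q₀, fun f hf ι _ _ h hm hF hD hr => ?_⟩
  obtain ⟨L, _, _, _, _, z, bl, hz, hP, hG⟩ := hF
  set θ := (algebraMap (FractionRing (MvPolynomial (Fin M) K)) L).comp
    (algebraMap (MvPolynomial (Fin M) K) (FractionRing (MvPolynomial (Fin M) K))) with hθ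
  have θi : Function.Injective θ := (algebraMap (FractionRing (MvPolynomial (Fin M) K)) L).injective.comp
    (IsFractionRing.injective (MvPolynomial (Fin M) K) (FractionRing (MvPolynomial (Fin M) K)))
  let rep : Fin n → Fin n := fun j => @Function.invFun _ _ ⟨j⟩ bl (bl j)
  have r1 : ∀ j, bl (rep j) = bl j := fun j => @Function.invFun_eq _ _ ⟨j⟩ _ _ ⟨j, rfl⟩
  have r2 : ∀ j j', rep j = rep j' ↔ bl j = bl j' := fun j j' =>
    ⟨fun e => by rw [← r1 j, e, r1], fun e => by simp only [rep, e]⟩
  let P : Fin n → (MvPolynomial (Fin M) K)[X] := fun i => if rep i = i then h (bl i) else 1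
  have hPb : ∀ i, (P i).map θ = Pb rep z i := by
    intro i
    by_cases hi : rep i = i
    · simp only [P, hi, if_true, hP, Pb]
      exact prod_congr (filter_congr fun j _ => by rw [← r2, hi]) fun _ _ => rfl
    · simp only [P, hi, if_false, Polynomial.map_one, Pb]
      rw [filter_false_of_mem, prod_empty]
      rintro j - rfl
      exact hi ((r2 _ _).2 (r1 j))
  have e1 : (∏ i, h i).map θ = ∏ j, (X - C (z j)) := by
    rw [Polynomial.map_prod, prod_congr rfl fun i _ => hP i]
    exact AUC.prod_Pb bl z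
  have e2 : ∏ i, P i = ∏ i, h i := map_injective θ θi (by
    rw [e1, Polynomial.map_prod, prod_congr rfl fun i _ => hPb i, AUC.prod_Pb])
  have e3 : ((Gpb rep).card : ℝ) = ∏ i, ((h i).natDegree.factorial : ℝ) := by
    have h1 := DomMulAct.stabilizer_card bl
    rw [Fintype.card_subtype] at h1
    have h2 : Gpb rep = univ.filter fun g : Equiv.Perm (Fin n) => bl ∘ g = bl := by
      ext g
      simp only [Gpb, mem_filter, r2, funext_iff, Function.comp_apply]
    rw [h2, h1, Nat.cast_prod]
    refine prod_congr rfl fun i _ => ?_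
    rw [← natDegree_map_eq_of_injective θi (h i), hP, natDegree_finsetProd_X_sub_C_eq_card,
      Fintype.card_subtype]
  have key := hq₀ rep f ((le_sup (mem_univ rep)).trans hf) P
    (fun i k => by
      simp only [P]
      split_ifs
      · exact hD _ _
      · rw [coeff_one]
        split_ifs <;> simp)
    (fun i k m => by
      simp only [P]
      split_ifs
      · exact hr _ _ _
      · have : p ^ f ≠ 0 := pow_ne_zero _ (Fact.out : p.Prime).ne_zero
        rw [coeff_one]
        split_ifs
        · rw [MvPolynomial.coeff_one]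
          split_ifs
          · exact one_pow _
          · exact zero_pow this
        · exact zero_pow this)
    ⟨L, inferInstance, θ, z, θi, hz, hPb, fun σ hσ => by
      obtain ⟨g, hg⟩ := hG σ fun j => (r2 _ _).1 (by
        simp only [Gpb, mem_filter, mem_univ, true_and] at hσ
        exact hσ j)
      exact ⟨g, fun b => g.commutes _, hg⟩⟩
  rw [e3, mul_comm] at key
  convert key using 6
  ext t
  simp only [Set.mem_ofPred_eq]
  refine and_congr_right fun _ => ?_
  have hm' : (∏ i, h i).Monic := monic_prod_of_monic _ _ fun i _ => hm i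
  rw [spl_iff _ _ _ (hm'.map _) (by
    rw [hm'.natDegree_map, ← natDegree_map_eq_of_injective θi, e1,
      natDegree_finsetProd_X_sub_C_eq_card, card_univ, Fintype.card_fin]), ← e2]
  refine and_congr_right fun _ => ?_
  simp only [Polynomial.map_prod, eval_prod, prod_eq_zero_iff, mem_univ, true_and,
    forall_exists_index]
  exact forall_comm

end Pool.Agent.MP_a9d3bd_g
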