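import Mathlib

namespace Pool.Agent.MP_a9d3bd_g

open Polynomial Finset

/-- block preserving permutations -/
def Gpb {J ι : Type} [Fintype J] [DecidableEq J] [DecidableEq ι] (blk : J → ι) :
    Finset (Equiv.Perm J) := univ.filter fun σ => ∀ j, blk (σ j) = blk j

/-- conjugates of the primitive element -/
def yy {J A : Type} [Fintype J] [CommRing A] (c x : J → A) (σ : Equiv.Perm J) : A :=
  ∑ j, c j * x (σ j)

/-- the block polynomial with roots `x j`, `blk j = i` -/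
noncomputable def Pb {J ι A : Type} [Fintype J] [DecidableEq ι] [CommRing A] (blk : J → ι)
    (x : J → A) (i : ι) : A[X] := ∏ j ∈ univ.filter fun j => blk j = i, (X - C (x j))

/-- resolvent -/
noncomputable def Rs {J ι A : Type} [Fintype J] [DecidableEq J] [DecidableEq ι] [CommRing A]
    (blk : J → ι) (c x : J → A) : A[X] := ∏ σ ∈ Gpb blk, (X - C (yy c x σ))

/-- discriminant of the resolvent times discriminant of the polynomial -/
def Ds {J ι A : Type} [Fintype J] [DecidableEq J] [DecidableEq ι] [CommRing A]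
    (blk : J → ι) (c x : J → A) : A :=
  (∏ τ ∈ Gpb blk, ∏ ρ ∈ (Gpb blk).erase τ, (yy c x τ - yy c x ρ)) *
    ∏ j, ∏ j' ∈ univ.erase j, (x j - x j')

/-- resolvent data over a base ring `B` -/
def Res {J ι B : Type} [Fintype J] [DecidableEq J] [DecidableEq ι] [CommRing B] (blk : J → ι)
    (c : J → B) (P : ι → B[X]) (R : B[X]) (h : Equiv.Perm J → B[X]) (d : B) : Prop :=
  ∀ (A : Type) [CommRing A] (θ : B →+* A) (x : J → A), (∀ i, (P i).map θ = Pb blk x i) →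
    R.map θ = Rs blk (fun j => θ (c j)) x ∧ θ d = Ds blk (fun j => θ (c j)) x ∧
    ∀ σ ∈ Gpb blk, ∀ τ ∈ Gpb blk, ((h σ).map θ).eval (yy (fun j => θ (c j)) x τ) =
      θ d * yy (fun j => θ (c j)) x (τ * σ)

/-- the line `u = a + T v` -/
noncomputable def lin {K : Type} [CommRing K] {r : ℕ} (a v : Fin r → K) :
    MvPolynomial (Fin r) K →+* K[X] :=
  MvPolynomial.eval₂Hom C fun k => C (a k) + C (v k) * X

/-- S1: Noether forms -/
def S1 : Prop := ∀ (K : Type) [Field K] (g E : ℕ), 0 < g →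
  ∃ F : Finset (MvPolynomial (Fin g × Fin (E + 1)) K),
    ∀ (W : Type) [Field W] [IsAlgClosed W] [Algebra K W] (R : W[X][X]), R.Monic →
      R.natDegree = g → (∀ k, (R.coeff k).natDegree ≤ E) →
      (Irreducible R ↔ ∃ f ∈ F,
        MvPolynomial.aeval (fun z : Fin g × Fin (E + 1) => (R.coeff z.1).coeff z.2) f ≠ 0)

/-- S2: the generic line through a point with a simple rational root keeps irreducibility -/
def S2 : Prop := ∀ (K : Type) [Field K] (r : ℕ) (R : (MvPolynomial (Fin r) K)[X]) (a : Fin r → K)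
  (y₀ : K), R.Monic → Irreducible R → (R.map (MvPolynomial.eval a)).eval y₀ = 0 →
  (derivative (R.map (MvPolynomial.eval a))).eval y₀ ≠ 0 →
  ∀ (W : Type) [Field W] [Algebra K W] (v : Fin r → W), AlgebraicIndependent K v →
    Irreducible ((R.map (MvPolynomial.map (algebraMap K W))).map
      (lin (fun k => algebraMap K W (a k)) v))

/-- S3: uniform Bertini-Noether on the lines through a point -/
def S3 : Prop := ∀ (K : Type) [Field K] [IsAlgClosed K] (r g E : ℕ), 0 < g → ∃ N : ℕ,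
  ∀ (R : (MvPolynomial (Fin r) K)[X]) (a : Fin r → K), R.Monic → R.natDegree = g →
    (∀ k, (R.coeff k).totalDegree ≤ E) → Irreducible R →
    (R.map (MvPolynomial.eval a)).Separable →
    ∃ ν : MvPolynomial (Fin r) K, ν ≠ 0 ∧ ν.totalDegree ≤ N ∧
      ∀ v : Fin r → K, MvPolynomial.eval v ν ≠ 0 → Irreducible (R.map (lin a v))

/-- S4: block symmetric polynomials -/
def S4 : Prop := ∀ (J ι : Type) [Fintype J] [DecidableEq J] [DecidableEq ι] (blk : J → ι)
  (B : Type) [CommRing B] (Φ : MvPolynomial J B),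
  (∀ σ ∈ Gpb blk, MvPolynomial.rename σ Φ = Φ) →
  ∃ Ψ : MvPolynomial (ι × ℕ) B, MvPolynomial.aeval
    (fun z : ι × ℕ => (Pb blk (MvPolynomial.X : J → MvPolynomial J B) z.1).coeff z.2) Ψ = Φ

/-- S5: resolvent data with uniform degree bounds -/
def S5 : Prop := ∀ (J ι : Type) [Fintype J] [DecidableEq J] [DecidableEq ι] (blk : J → ι)
  (D : ℕ), ∃ N : ℕ, ∀ (K : Type) [Field K] (r : ℕ) (c : J → K)
    (P : ι → (MvPolynomial (Fin r) K)[X]), (∀ i k, ((P i).coeff k).totalDegree ≤ D) →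
    ∃ (R : (MvPolynomial (Fin r) K)[X]) (h : Equiv.Perm J → (MvPolynomial (Fin r) K)[X])
      (d : MvPolynomial (Fin r) K), R.Monic ∧ R.natDegree = (Gpb blk).card ∧
      (∀ k, (R.coeff k).totalDegree ≤ N) ∧ (∀ σ, (h σ).natDegree ≤ N) ∧
      (∀ σ k, ((h σ).coeff k).totalDegree ≤ N) ∧ d.totalDegree ≤ N ∧
      Res blk (fun j => MvPolynomial.C (c j)) P R h d

/-- S6: Chebotarev on one line -/
def S6 : Prop := ∀ (J ι : Type) [Fintype J] [DecidableEq J] [Fintype ι] [DecidableEq ι]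
  (blk : J → ι) (N : ℕ) (ε : ℝ), 0 < ε → ∃ q₀ : ℕ, ∀ (p f : ℕ) [Fact p.Prime] (K : Type) [Field K]
    [IsAlgClosed K] [CharP K p], q₀ ≤ p ^ f → ∀ (c : J → K) (P : ι → K[X][X]) (R : K[X][X])
    (h : Equiv.Perm J → K[X][X]) (d : K[X]), (∀ j, c j ^ p ^ f = c j) →
    (∀ i, (P i).Monic) → (∀ i, (P i).natDegree = (univ.filter fun j => blk j = i).card) →
    (∀ i k l, ((P i).coeff k).coeff l ^ p ^ f = ((P i).coeff k).coeff l) →
    R.Monic → R.natDegree = (Gpb blk).card → (∀ k, (R.coeff k).natDegree ≤ N) →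
    (∀ σ, (h σ).natDegree ≤ N) → (∀ σ k, ((h σ).coeff k).natDegree ≤ N) → d.natDegree ≤ N →
    Res blk (fun j => C (c j)) P R h d → Irreducible R → d ≠ 0 →
    |((Gpb blk).card : ℝ) * ({t : K | t ^ p ^ f = t ∧ d.eval t ≠ 0 ∧
      ∀ i z, (P i).evalEval t z = 0 → z ^ p ^ f = z}.ncard : ℝ) - (p : ℝ) ^ f| ≤ ε * (p : ℝ) ^ f

/-- the Galois group of the family is the full product of symmetric groups -/
def FullGal {J ι B : Type} [Fintype J] [DecidableEq J] [DecidableEq ι] [CommRing B]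
    (blk : J → ι) (P : ι → B[X]) : Prop :=
  ∃ (M : Type) (_ : Field M) (θ : B →+* M) (x : J → M), Function.Injective θ ∧
    Function.Injective x ∧ (∀ i, (P i).map θ = Pb blk x i) ∧
    ∀ σ ∈ Gpb blk, ∃ ψ : M →+* M, (∀ b, ψ (θ b) = θ b) ∧ ∀ j, ψ (x j) = x (σ j)

/-- UC: uniform Chebotarev for totally split fibres -/
def UC : Prop := ∀ (J ι : Type) [Fintype J] [DecidableEq J] [Fintype ι] [DecidableEq ι]
  (blk : J → ι) (K : Type) [Field K] [IsAlgClosed K] (p : ℕ) [Fact p.Prime] [CharP K p]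
  (r D : ℕ) (ε : ℝ), 0 < r → 0 < ε → ∃ q₀ : ℕ, ∀ f : ℕ, q₀ ≤ p ^ f →
    ∀ P : ι → (MvPolynomial (Fin r) K)[X],
    (∀ i k, ((P i).coeff k).totalDegree ≤ D) →
    (∀ i k m, ((P i).coeff k).coeff m ^ p ^ f = ((P i).coeff k).coeff m) → FullGal blk P →
    |((Gpb blk).card : ℝ) * ({u : Fin r → K | (∀ k, u k ^ p ^ f = u k) ∧
      ((∏ i, P i).map (MvPolynomial.eval u)).Separable ∧
      ∀ i z, ((P i).map (MvPolynomial.eval u)).eval z = 0 → z ^ p ^ f = z}.ncard : ℝ) -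
      ((p : ℝ) ^ f) ^ r| ≤ ε * ((p : ℝ) ^ f) ^ r

/-- S7: choice of the primitive element, irreducibility of the resolvent -/
def S7 : Prop := ∀ (J ι : Type) [Fintype J] [DecidableEq J] [DecidableEq ι] (blk : J → ι),
  ∃ q₀ : ℕ, ∀ (p f : ℕ) [Fact p.Prime] (K : Type) [Field K] [IsAlgClosed K] [CharP K p],
    q₀ ≤ p ^ f → ∀ (B : Type) [CommRing B] (κ : K →+* B) (P : ι → B[X]), FullGal blk P →
    ∃ c : J → K, (∀ j, c j ^ p ^ f = c j) ∧ ∀ (R : B[X]) (h : Equiv.Perm J → B[X]) (d : B),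
      R.Monic → Res blk (fun j => κ (c j)) P R h d → Irreducible R ∧ d ≠ 0

/-- S8: averaging over the lines through a point -/
def S8 : Prop := ∀ (r N g : ℕ) (ε : ℝ), 0 < r → 0 < ε → ∃ q₀ : ℕ,
  ∀ (p f : ℕ) [Fact p.Prime] (K : Type) [Field K] [IsAlgClosed K] [CharP K p], q₀ ≤ p ^ f →
    ∀ (T T' : Set (Fin r → K)) (a : Fin r → K) (ν d : MvPolynomial (Fin r) K),
    ν ≠ 0 → ν.totalDegree ≤ N → d ≠ 0 → d.totalDegree ≤ N → (∀ k, a k ^ p ^ f = a k) → T' ⊆ T →
    (∀ u ∈ T, (∀ k, u k ^ p ^ f = u k) ∧ (MvPolynomial.eval u d ≠ 0 → u ∈ T')) →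
    (∀ v : Fin r → K, (∀ k, v k ^ p ^ f = v k) → MvPolynomial.eval v ν ≠ 0 →
      |(g : ℝ) * ({t : K | t ^ p ^ f = t ∧ (fun k => a k + v k * t) ∈ T'}.ncard : ℝ) -
        (p : ℝ) ^ f| ≤ ε * (p : ℝ) ^ f) →
    |(g : ℝ) * (T.ncard : ℝ) - ((p : ℝ) ^ f) ^ r| ≤ 2 * ε * ((p : ℝ) ^ f) ^ r

/-- the field with `p ^ f` elements inside `K` -/
theorem fq (p f : ℕ) [Fact p.Prime] (K : Type) [Field K] [IsAlgClosed K] [CharP K p]
    (hq : 2 ≤ p ^ f) : ∃ S : Finset K, S.card = p ^ f ∧ ∀ x, x ∈ S ↔ x ^ p ^ f = x := by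
  classical
  have hf : f ≠ 0 := by rintro rfl; simp at hq
  have h0 := FiniteField.X_pow_card_sub_X_ne_zero K (p := p ^ f) hq
  have hs : (X ^ p ^ f - X : K[X]).Separable := galois_poly_separable p _ (dvd_pow_self p hf)
  refine ⟨(X ^ p ^ f - X : K[X]).roots.toFinset, ?_, fun x => ?_⟩
  · rw [Multiset.toFinset_card_of_nodup (nodup_roots hs),
      (IsAlgClosed.splits _).natDegree_eq_card_roots.symm,
      FiniteField.X_pow_card_sub_X_natDegree_eq K hq]
  · simp [h0, sub_eq_zero]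

end Pool.Agent.MP_a9d3bd_g
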